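import Mathlib

-- merged part: Pool.Agent.Work.MP_01d39a_al.Ct.HCx
section
-- merged part: Pool.Agent.Work.MP_01d39a_al.Ct.Defs
section
/-!
Definitions for the cost version (paper proof: team-store h26_01d39a_PROOF.md).
A system is a probability space with a measure preserving RIGHT action `mv`;
`mv ω x` is the environment seen from the site `x`.
-/

open MeasureTheory ProbabilityTheory Filter Topology
open scoped BigOperators ENNReal NNReal

namespace Pool.Agent.Work.MP_01d39a_al.Ct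

noncomputable section

/-- A probability space with a measure preserving right action of `G`. -/
structure Sys (G : Type) [Group G] where
  Ω : Type
  [ms : MeasurableSpace Ω]
  P : Measure Ω
  [pr : IsProbabilityMeasure P]
  mv : Ω → G → Ω
  mv_one : ∀ ω, mv ω 1 = ω
  mv_mul : ∀ ω x y, mv (mv ω x) y = mv ω (x * y)
  mp : ∀ x, MeasurePreserving (fun ω => mv ω x) P P

attribute [instance] Sys.ms Sys.pr

variable {G : Type} [Group G]

/-- Product of two systems. -/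
abbrev Sys.prod (X Y : Sys G) : Sys G where
  Ω := X.Ω × Y.Ω
  P := X.P.prod Y.P
  mv ω x := (X.mv ω.1 x, Y.mv ω.2 x)
  mv_one ω := by rw [X.mv_one, Y.mv_one]
  mv_mul ω x y := by rw [X.mv_mul, Y.mv_mul]
  mp x := (X.mp x).prod (Y.mp x)

/-- Finite power of a system. -/
abbrev Sys.pi (X : Sys G) (n : ℕ) : Sys G where
  Ω := Fin n → X.Ω
  P := Measure.pi fun _ => X.P
  mv ω x := fun i => X.mv (ω i) x
  mv_one ω := funext fun i => X.mv_one (ω i)
  mv_mul ω x y := funext fun i => X.mv_mul (ω i) x y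
  mp x := measurePreserving_pi _ _ fun _ => X.mp x

/-- The shift system of an invariant law on fields indexed by a `G`-set. -/
abbrev Sys.fld (G : Type) [Group G] (V E : Type) [MulAction G V] [MeasurableSpace E]
    (μ : Measure (V → E)) [IsProbabilityMeasure μ]
    (h : ∀ x : G, MeasurePreserving (fun (f : V → E) (v : V) => f (x • v)) μ μ) : Sys G where
  Ω := V → E
  P := μ
  mv f x := fun v => f (x • v)
  mv_one f := by simp
  mv_mul f x y := by simp [mul_smul]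
  mp := h

theorem iid_mp (V E : Type) [MulAction G V] [MeasurableSpace E] (ν : Measure E)
    [IsProbabilityMeasure ν] (x : G) :
    MeasurePreserving (fun (f : V → E) (v : V) => f (x • v))
      (Measure.infinitePi fun _ : V => ν) (Measure.infinitePi fun _ : V => ν) :=
  ⟨by fun_prop, Measure.map_infinitePi_infinitePi_of_inj (P := fun _ : V => ν)
    (MulAction.injective x)⟩

/-- A coin that shows `true` with probability `θ` (for `θ ∈ [0,1]`). -/
def bm (θ : ℝ) : Measure Bool := bernoulliMeasure true false (Set.projIcc 0 1 zero_le_one θ)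

instance (θ : ℝ) : IsProbabilityMeasure (bm θ) := by unfold bm; infer_instance

/-- Independent coins. -/
def bern (V : Type) (θ : ℝ) : Measure (V → Bool) := Measure.infinitePi fun _ : V => bm θ

instance (V : Type) (θ : ℝ) : IsProbabilityMeasure (bern V θ) := by unfold bern; infer_instance

/-- The Bernoulli system of a `G`-set. -/
abbrev Sys.bern (G : Type) [Group G] (V : Type) [MulAction G V] (θ : ℝ) : Sys G :=
  Sys.fld G V Bool (Ct.bern V θ) (iid_mp V Bool (bm θ))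

/-- Uniform law on `[0,1)`. -/
def unifM : Measure ℝ := volume.restrict (Set.Ico 0 1)

instance : IsProbabilityMeasure unifM := ⟨by simp [unifM]⟩

/-- A uniform variable fixed by the action. -/
abbrev Sys.unif (G : Type) [Group G] : Sys G where
  Ω := ℝ
  P := unifM
  mv u _ := u
  mv_one _ := rfl
  mv_mul _ _ _ := rfl
  mp _ := MeasurePreserving.id _

/-- `π` is a factor map of systems. -/
structure Fac (Y X : Sys G) (π : Y.Ω → X.Ω) : Prop where
  mp : MeasurePreserving π Y.P X.P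
  eqv : ∀ ω x, π (Y.mv ω x) = X.mv (π ω) x

/-- Edges of the random graph: all `a`-edges, and `(x, y)` if `mv ω x ∈ Z (x⁻¹ y)`. -/
def Adj (X : Sys G) (a : G) (Z : G → Set X.Ω) (ω : X.Ω) (x y : G) : Prop :=
  y = x * a ∨ X.mv ω x ∈ Z (x⁻¹ * y)

/-- Connectedness in the random graph. -/
def Con (X : Sys G) (a : G) (Z : G → Set X.Ω) (ω : X.Ω) : G → G → Prop :=
  Relation.EqvGen (Adj X a Z ω)

/-- All events of the family are measurable. -/
def Meas (X : Sys G) (Z : G → Set X.Ω) : Prop := ∀ g, MeasurableSet (Z g)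

/-- Only types in `S` occur. -/
def Supp (X : Sys G) (S : Finset G) (Z : G → Set X.Ω) : Prop := ∀ g, g ∉ S → Z g = ∅

/-- Expected number of edges starting at a site. -/
def dens (X : Sys G) (Z : G → Set X.Ω) : ℝ≥0∞ := ∑' g, X.P (Z g)

/-- Two-point function. -/
def tau (X : Sys G) (a : G) (Z : G → Set X.Ω) (g : G) : ℝ := X.P.real {ω | Con X a Z ω 1 g}

/-- The standing data: an element of infinite order and a finite symmetric generating set. -/
structure Ctx (G : Type) [Group G] where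
  a : G
  S : Finset G
  ha : ∀ k : ℤ, a ^ k = 1 → k = 0
  sym : ∀ s ∈ S, s⁻¹ ∈ S
  gen : Subgroup.closure (S : Set G) = ⊤
  ne : S.Nonempty

/-- `H(δ)`: every almost surely connected family has density at least `δ`. -/
def Hyp (c : Ctx G) (δ : ℝ) : Prop :=
  ∀ (X : Sys G) (Z : G → Set X.Ω), Meas X Z → (∀ᵐ ω ∂X.P, ∀ g, Con X c.a Z ω 1 g) →
    ENNReal.ofReal δ ≤ dens X Z

open Classical in
/-- Real indicator of a proposition. -/
def ind (p : Prop) : ℝ := if p then 1 else 0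

/-- Number of `i ≤ l` with `p i`, as a real number. -/
def cnt (l : ℕ) (p : ℕ → Prop) : ℝ := ∑ i ∈ Finset.range (l + 1), ind (p i)

/-- Average over all words of length `n`. -/
def avgW {σ : Type} [Fintype σ] : ℕ → (List σ → ℝ) → ℝ
  | 0, F => F []
  | n + 1, F => 𝔼 s : σ, avgW n fun w => F (s :: w)

/-- The group element spelled by a word. -/
def pw {σ : Type} (g : σ → G) (w : List σ) : G := (w.map g).prod

/-- The environment seen after `i` steps. -/
def Sys.st (X : Sys G) {σ : Type} (g : σ → G) (ω : X.Ω) (w : List σ) (i : ℕ) : X.Ω :=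
  X.mv ω (pw g (w.take i))

/-- The reversed word. -/
def rv {σ : Type} (ι : σ → σ) (w : List σ) : List σ := (w.map ι).reverse

/-- Annealed probability of an event of the environment and a word of length `n`. -/
def Sys.ann (X : Sys G) {σ : Type} [Fintype σ] (n : ℕ) (E : X.Ω → List σ → Prop) : ℝ :=
  avgW n fun w => X.P.real {ω | E ω w}

/-- `ι` is an involution of the steps that inverts them. -/
structure Inv {σ : Type} (g : σ → G) (ι : σ → σ) : Prop where
  invol : ∀ s, ι (ι s) = s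
  inv : ∀ s, g (ι s) = (g s)⁻¹

/-- A step `(k, b, k')` stands for `a ^ (k - K) * lt b * a ^ (k' - K)`. -/
abbrev Step (c : Ctx G) (K : ℕ) : Type := Fin (2 * K + 1) × (Bool × c.S) × Fin (2 * K + 1)

instance (c : Ctx G) : Nonempty c.S := c.ne.to_subtype

/-- The exponent in `[-K, K]`. -/
def ex (K : ℕ) (k : Fin (2 * K + 1)) : ℤ := ((k : ℕ) : ℤ) - K

/-- The letter: lazy with probability one half. -/
def lt {c : Ctx G} (b : Bool × c.S) : G := if b.1 then (b.2 : G) else 1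

/-- The group element of a step. -/
def Ctx.gs (c : Ctx G) (K : ℕ) (s : Step c K) : G := c.a ^ ex K s.1 * lt s.2.1 * c.a ^ ex K s.2.2

/-- The inverse step. -/
def Ctx.is (c : Ctx G) (K : ℕ) (s : Step c K) : Step c K :=
  (s.2.2.rev, (s.2.1.1, ⟨(s.2.1.2 : G)⁻¹, c.sym _ s.2.1.2.2⟩), s.1.rev)

/-- Start of the `S`-edge of step number `t` (steps are numbered from `1`). -/
def Ctx.base (c : Ctx G) (K : ℕ) (w : List (Step c K)) (t : ℕ) : G :=
  pw (c.gs K) (w.take (t - 1)) * ((w[t - 1]?).map fun s => c.a ^ ex K s.1).getD 1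

/-- Step number `t` has the letter `γ`. -/
def Ctx.Ty (c : Ctx G) (K : ℕ) (γ : c.S) (w : List (Step c K)) (t : ℕ) : Prop :=
  ∃ s, w[t - 1]? = some s ∧ s.2.1 = (true, γ)

/-- The path of the word stays in the class of the origin. -/
def Stay (X : Sys G) (a : G) (Z : G → Set X.Ω) {σ : Type} (g : σ → G) (ω : X.Ω) (w : List σ) :
    Prop :=
  ∀ i ≤ w.length, Con X a Z ω 1 (pw g (w.take i))

/-- Joined by `a`-edges and edges of the finite set `E`. -/
def PathCon (a : G) (E : Finset (G × G)) : G → G → Prop :=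
  Relation.EqvGen fun x y => y = x * a ∨ (x, y) ∈ E

/-- Closed random partitions. -/
def Closed (c : Ctx G) (X : Sys G) (Z : G → Set X.Ω) : Prop :=
  ∀ (y : G) (r : ℕ) (ε : ℝ), 0 < ε → ∃ Φ : Finset G, ∀ E : Finset (G × G), E.card ≤ r →
    (∀ e ∈ E, e.1⁻¹ * e.2 ∈ c.S ∧ e.1 ∉ Φ) → ∀ y', PathCon c.a E 1 y' →
      X.P.real {ω | Con X c.a Z ω y y' ∧ ¬ Con X c.a Z ω y 1} ≤ ε

/-- Zero frequency. -/
def ZF (c : Ctx G) (τ : G → ℝ) : Prop :=
  ∀ ε : ℝ, 0 < ε → ∃ n : ℕ, ∀ᶠ K in atTop, ∀ g : G,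
    avgW n (fun w => τ (g⁻¹ * pw (c.gs K) w)) ≤ ε

/-- The field of the event `A` has spatial averages concentrated at `q`. -/
def MC (X : Sys G) (A : Set X.Ω) (q : ℝ) : Prop :=
  ∀ ε : ℝ, 0 < ε → ∃ (ι : Type) (_ : Fintype ι) (_ : Nonempty ι) (f : ι → G),
    ∫ ω, ((𝔼 i, ind (X.mv ω (f i) ∈ A)) - q) ^ 2 ∂X.P ≤ ε

/-- The sprinkled `S`-edges. -/
def spr (c : Ctx G) (g : G) : Set (G × G → Bool) := {σ | g ∈ c.S ∧ σ (1, g) = true}

/-- A family together with an independent sprinkle of `S`-edges. -/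
def closeZ (c : Ctx G) (X : Sys G) (Z : G → Set X.Ω) (θ : ℝ) :
    G → Set (X.prod (Sys.bern G (G × G) θ)).Ω :=
  fun g => {p | p.1 ∈ Z g ∨ p.2 ∈ spr c g}

/-- Alternating products of `j` nontrivial powers of `α` (side `true`) and `β` (side `false`),
starting with side `b`. -/
inductive Alt (α β : G) : Bool → ℕ → G → Prop
  | one (b : Bool) (k : ℤ) (hk : k ≠ 0) : Alt α β b 1 ((if b then α else β) ^ k)
  | cons (b : Bool) (j : ℕ) (k : ℤ) (q : G) (hk : k ≠ 0) (h : Alt α β (!b) j q) :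
      Alt α β b (j + 1) ((if b then α else β) ^ k * q)

/-- The basic large parameter. -/
def nu (κ : ℕ) : ℕ := 2 ^ κ ^ 3

/-- The length of the words. -/
def ll (κ : ℕ) : ℕ := nu κ ^ 92

/-- Output of section 2: one tie-breaking layer. -/
structure LayerPack (c : Ctx G) (κ : ℕ) (X : Sys G) (ℓ : X.Ω → Bool) (good : G → Prop) :
    Prop where
  meas : Measurable ℓ
  ainv : ∀ ω, ℓ (X.mv ω c.a) = ℓ ω
  slow : ∀ γ ∈ c.S, X.P.real {ω | ℓ (X.mv ω γ) ≠ ℓ ω} ≤ 8 * c.S.card / (nu κ : ℝ) ^ 11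
  bad : ∀ᶠ K in atTop, ∀ t : ℕ, 1 ≤ t → t ≤ ll κ →
    avgW t (fun w => ind (¬ good (pw (c.gs K) w))) ≤ 8 * (nu κ : ℝ) ^ 45 / t
  tie : ∀ (K : ℕ) (w : List (Step c K)), good (pw (c.gs K) w) → ∀ s₁ : ℕ, ∃ N : ℕ, 1 ≤ N ∧
    ∀ (b : Bool) (j : ℕ) (q : G), j ≤ s₁ →
      Alt (c.a ^ N) (pw (c.gs K) w * c.a ^ N * (pw (c.gs K) w)⁻¹) b j q → ∀ t t' : ℕ,
        good (pw (c.gs K) (w.take t)) → good (pw (c.gs K) (w.drop t))⁻¹ →
          1 / (8 * (nu κ : ℝ)) ≤ X.P.real {ω | ℓ (X.mv ω (pw (c.gs K) (w.take t))) ≠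
            ℓ (X.mv ω (q * pw (c.gs K) (w.take t')))}

/-- `S`-edges of label below `Λ`. -/
def Zlow (c : Ctx G) (X : Sys G) (lam : X.Ω → ℤ) (Λ : ℤ) : G → Set X.Ω :=
  fun g => {ω | g ∈ c.S ∧ max (lam ω) (lam (X.mv ω g)) < Λ}

/-- The largest label along the path of a word. -/
def LamW (X : Sys G) {σ : Type} (g : σ → G) (lam : X.Ω → ℤ) (ω : X.Ω) (w : List σ) : ℤ :=
  (Finset.range (w.length + 1)).sup' Finset.nonempty_range_add_one fun i => lam (X.st g ω w i)

/-- The ends of the path are joined by `a`-edges, lower `S`-edges and open edges of type `w`. -/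
def Del (c : Ctx G) (K : ℕ) (X : Sys G) (lam : X.Ω → ℤ) (θ₁ : ℝ) (w : List (Step c K))
    (p : X.Ω × (G → Bool)) : Prop :=
  Con (X.prod (Sys.bern G G θ₁)) c.a
    (fun g => {q | q.1 ∈ Zlow c X lam (LamW X (c.gs K) lam p.1 w) g ∨
      (g = pw (c.gs K) w ∧ q.2 1 = true)}) p 1 (pw (c.gs K) w)

/-- Time `i` maximises the integer field `j` along the path. -/
def TopJ (X : Sys G) {σ : Type} (g : σ → G) (j : X.Ω → ℤ) (ω : X.Ω) (w : List σ) (i : ℕ) : Prop :=
  ∀ i' ≤ w.length, j (X.st g ω w i') ≤ j (X.st g ω w i)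

/-- The event `Y` of the deletion step. -/
def YEv (c : Ctx G) (X : Sys G) (lam : X.Ω → ℤ) (Z : G → Set X.Ω) (γ : G) : Set X.Ω :=
  {ω | Con X c.a (fun g => Z g ∪ Zlow c X lam (max (lam ω) (lam (X.mv ω γ))) g) ω 1 γ}

/-- The deletion step. -/
def DS (c : Ctx G) : Prop :=
  ∃ cs : ℝ, 0 < cs ∧ ∀ γ ∈ c.S, ∀ θ : ℝ, 0 < θ → θ ≤ 1 → ∀ ε : ℝ, 0 < ε →
    ∃ (X : Sys G) (lam : X.Ω → ℤ) (Z₁ Z₂ : G → Set X.Ω), Measurable lam ∧ Meas X Z₁ ∧ Meas X Z₂ ∧
      Supp X c.S Z₂ ∧ (∀ g, X.P.real (Z₂ g) ≤ θ) ∧ dens X Z₁ ≤ ENNReal.ofReal ε ∧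
      (∀ g ∈ c.S, X.P.real {ω | lam (X.mv ω g) ≠ lam ω} ≤ ε) ∧
      (∀ ω, lam (X.mv ω c.a) = lam ω) ∧
      cs ≤ X.P.real (YEv c X lam (fun g => Z₁ g ∪ Z₂ g) γ)

open Classical in
/-- Dense finite configurations exist for all pairs of elements of infinite order. -/
def HC (G : Type) [Group G] : Prop :=
  ∀ α β : G, (∀ k : ℤ, α ^ k = 1 → k = 0) → (∀ k : ℤ, β ^ k = 1 → k = 0) →
    ∃ B : Finset G, B.Nonempty ∧
      3 * ((B.image (QuotientGroup.mk : G → G ⧸ Subgroup.zpowers α)).card +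
        (B.image (QuotientGroup.mk : G → G ⧸ Subgroup.zpowers β)).card) < 2 * B.card

end

end Pool.Agent.Work.MP_01d39a_al.Ct
end

-- merged part: Pool.Agent.Work.MP_01d39a_al.Ct.HDefs
section
/-!
Definitions for section 3 (heights) of h26_01d39a_PROOF.md.
-/

open MeasureTheory ProbabilityTheory Filter Topology
open scoped BigOperators ENNReal NNReal

namespace Pool.Agent.Work.MP_01d39a_al.Ct

noncomputable section

variable {G : Type} [Group G]

/-- Parameters of the height analysis. -/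
structure Par where
  κ : ℝ
  J0 : ℝ
  e0 : ℝ
  η1 : ℝ
  A : ℝ
  A' : ℝ
  ε : ℝ
  V : ℝ
  Mv : ℝ
  m : ℝ
  l : ℕ
  Le : ℕ
  L1 : ℕ
  nb : ℕ
  ρ : ℕ

/-- Standing inequalities between the parameters. -/
structure Par.Ok (p : Par) : Prop where
  hκ : 4 ≤ p.κ
  hJ : p.κ + 1 ≤ p.J0
  hA0 : 0 < p.A
  hA : p.J0 ^ 2 ≤ √p.A
  hA' : p.A ≤ p.A'
  he : 0 < p.e0
  hle : p.l * p.e0 ≤ 1
  hη : 0 < p.η1
  hε : 0 < p.ε
  hε1 : p.ε ≤ 1
  hV : 0 < p.V
  hMv : 0 < p.Mv
  hm : 0 < p.m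
  hLe : 1 ≤ p.Le
  hL1 : 2 * p.Le ≤ p.L1
  hl : 4 * p.L1 ≤ p.l
  hnb : p.nb ≤ p.Le
  hρ : p.ρ ≤ p.Le
  hρ1 : 1 ≤ p.ρ
  hMnb : p.Mv * p.nb ≤ p.V * p.κ ^ 2 / 2

/-- The quenched bound for one arm. -/
def Par.B (p : Par) : ℝ := 15 * p.κ / √p.A

/-- The top of the window that contains the height `y`. -/
def Par.Hs (p : Par) (y : ℝ) : ℝ := p.κ * (⌊y / p.κ⌋ + 1)

/-- A height function on a system, with a finite family of steps. -/
structure Ht (G : Type) [Group G] (σ : Type) where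
  X : Sys G
  g : σ → G
  z : X.Ω → ℝ

namespace Ht

variable {σ : Type} [Fintype σ] (h : Ht G σ) (p : Par)

/-- Environment after `i` steps. -/
abbrev st (ω : h.X.Ω) (w : List σ) (i : ℕ) : h.X.Ω := h.X.st h.g ω w i

/-- The jump of the height. -/
def J (ω : h.X.Ω) (s : σ) : ℝ := h.z (h.X.mv ω (h.g s)) - h.z ω

/-- The truncated jump. -/
def Jb (ω : h.X.Ω) (s : σ) : ℝ := if |h.J ω s| ≤ p.J0 then h.J ω s else 0

/-- Conditional variance. -/
def v (ω : h.X.Ω) : ℝ := 𝔼 s, h.J ω s ^ 2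

/-- Drift. -/
def dr (ω : h.X.Ω) : ℝ := 𝔼 s, h.J ω s

/-- Conditional variance of the truncated jump. -/
def vb (ω : h.X.Ω) : ℝ := 𝔼 s, h.Jb p ω s ^ 2

/-- Variance carried by jumps of size at most `κ`. -/
def vk (ω : h.X.Ω) : ℝ := 𝔼 s, if |h.J ω s| ≤ p.κ then h.J ω s ^ 2 else 0

/-- Mass of truncated jumps larger than `κ`. -/
def tl (ω : h.X.Ω) : ℝ := 𝔼 s, if p.κ < |h.Jb p ω s| then |h.Jb p ω s| else 0

/-- The truncated drift is small. -/
def okS (ω : h.X.Ω) : Prop := |𝔼 s, h.Jb p ω s| ≤ p.e0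

/-- Safe sites. -/
def safe (ω : h.X.Ω) : Prop := p.η1 ≤ h.vk p ω ∧ 16 * p.J0 ^ 2 * h.tl p ω ≤ p.η1

/-- All sites are ok and all jumps are at most `J0`. -/
def G1 (ω : h.X.Ω) (w : List σ) : Prop :=
  (∀ i ≤ w.length, h.okS p (h.st ω w i)) ∧
    ∀ i < w.length, |h.z (h.st ω w (i + 1)) - h.z (h.st ω w i)| ≤ p.J0

/-- Survival below `H` without safety. -/
def Crude (H : ℝ) (ω : h.X.Ω) (w : List σ) : Prop :=
  h.G1 p ω w ∧ ∀ i ≤ w.length, h.z (h.st ω w i) ≤ H

/-- Survival below `H`, with safe sites near the level. -/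
def Alive (H : ℝ) (ω : h.X.Ω) (w : List σ) : Prop :=
  h.Crude p H ω w ∧ ∀ i ≤ w.length, H - p.J0 < h.z (h.st ω w i) → h.safe p (h.st ω w i)

/-- Quadratic variation over the sites `i ≤ t < j`. -/
def QV (ω : h.X.Ω) (w : List σ) (i j : ℕ) : ℝ := ∑ t ∈ Finset.Ico i j, h.vb p (h.st ω w t)

/-- One arm: survival below the top of the window of the start, with enough variation. -/
def Arm (ω : h.X.Ω) (w : List σ) : Prop :=
  h.Alive p (p.Hs (h.z ω)) ω w ∧ p.A ≤ h.QV p ω w 0 w.length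

/-- Maximal height along the path. -/
def Mx (ω : h.X.Ω) (w : List σ) : ℝ :=
  (Finset.range (w.length + 1)).sup' Finset.nonempty_range_add_one fun i => h.z (h.st ω w i)

/-- Depth of the end point below the maximum. -/
def W (ω : h.X.Ω) (w : List σ) : ℝ := h.Mx ω w - h.z (h.st ω w w.length)

/-- The window index. -/
def j (ω : h.X.Ω) : ℤ := ⌊h.z ω / p.κ⌋

/-- Time `i` is in the top window. -/
def Top (ω : h.X.Ω) (w : List σ) (i : ℕ) : Prop := TopJ h.X h.g (h.j p) ω w i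

/-- Sites near the top level have indices in the middle part. -/
def Mid (ω : h.X.Ω) (w : List σ) : Prop :=
  ∀ i ≤ w.length, p.Hs (h.Mx ω w) - p.J0 < h.z (h.st ω w i) → 2 * p.Le ≤ i ∧ i + 2 * p.Le ≤ p.l

/-- The basic good event. -/
def Al (ω : h.X.Ω) (w : List σ) : Prop :=
  h.Alive p (p.Hs (h.Mx ω w)) ω w ∧ p.A ≤ h.QV p ω w 1 (p.Le + 1) ∧
    p.A ≤ h.QV p ω w (p.l - p.Le) p.l ∧ h.Mid p ω w

/-- Counted times; `Ty w t` says that step number `t` has the wanted type. -/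
def Cnt (Ty : List σ → ℕ → Prop) (ω : h.X.Ω) (w : List σ) (t : ℕ) : Prop :=
  1 ≤ t ∧ t ≤ p.l ∧ Ty w t ∧ h.Top p ω w (t - 1) ∧ h.Top p ω w t ∧ h.Al p ω w ∧
    cnt p.l (h.Top p ω w) ≤ p.m

/-- Crossing times of the running maximum. -/
def Cross (ω : h.X.Ω) (w : List σ) (t : ℕ) : Prop :=
  ⌊h.Mx ω (w.take (t - 1)) / p.κ - p.ε⌋ < ⌊h.Mx ω (w.take t) / p.κ - p.ε⌋

/-- A fast drop followed by survival. -/
def DropEv (ω : h.X.Ω) (w : List σ) : Prop :=
  h.Alive p (p.Hs (h.z ω)) ω w ∧ ∃ s ≤ p.nb, s ≤ w.length ∧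
    h.z (h.st ω w s) - h.z ω ≤ -(p.ε * p.κ) ∧ h.QV p ω w 0 s ≤ p.V * p.κ ^ 2 ∧
      p.A ≤ h.QV p ω w s w.length

/-- A block with few steps of the wanted type, followed by survival. -/
def FewEv (ty : σ → Prop) (μ : ℝ) (ω : h.X.Ω) (w : List σ) : Prop :=
  h.Alive p (p.Hs (h.z ω)) ω w ∧ p.nb ≤ w.length ∧
    ((w.take p.nb).map fun s => ind (ty s)).sum < μ * p.nb / 4 ∧
      p.Hs (h.z ω) - p.κ ≤ h.z (h.st ω w p.nb) ∧ p.A ≤ h.QV p ω w p.nb w.length

/-- Free survival from a safe site. -/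
def Fs (ω : h.X.Ω) (w : List σ) : Prop :=
  h.safe p ω ∧ ∀ i ≤ w.length, h.z (h.st ω w i) ≤ h.z ω + p.κ

/-- Moment properties of the heights. -/
structure Mom (C x₀ κ : ℝ) : Prop where
  meas : Measurable h.z
  l4 : ∀ s, MemLp (fun ω => h.J ω s) 4 h.X.P
  v1 : ∫ ω, h.v ω ∂h.X.P ≤ 1
  v2 : ∫ ω, h.v ω ^ 2 ∂h.X.P ≤ C
  tail : ∀ t : ℝ, 1 ≤ t →
    ∫ ω, (𝔼 s, if t < |h.J ω s| then h.J ω s ^ 2 else 0) ∂h.X.P ≤ C * Real.exp (-t)
  small : ∀ η : ℝ, 0 < η → h.X.P.real {ω | h.v ω < η} ≤ 4 * √η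
  drift : ∫ ω, h.dr ω ^ 2 ∂h.X.P ≤ x₀
  shift : ∀ (w : List σ) (ε : ℝ), 0 < ε → h.X.P.real {ω | Int.fract (h.Mx ω w / κ) < ε} ≤ ε

end Ht

/-- The heights of a context. -/
abbrev Ctx.ht (c : Ctx G) (K : ℕ) (X : Sys G) (z : X.Ω → ℝ) : Ht G (Step c K) := ⟨X, c.gs K, z⟩

/-- Output of section 3. -/
structure HeightPack (c : Ctx G) (K κ : ℕ) (X : Sys G) (j : X.Ω → ℤ) (γ : c.S)
    (Cn : X.Ω → List (Step c K) → ℕ → Prop) (c₀ : ℝ) (Cm : ℕ) : Prop where
  meas : ∀ w t, MeasurableSet {ω | Cn ω w t}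
  spec : ∀ ω w t, Cn ω w t → 1 ≤ t ∧ t ≤ ll κ ∧ c.Ty K γ w t ∧
    cnt (ll κ) (TopJ X (c.gs K) j ω w) ≤ ((Cm * κ ^ 2 : ℕ) : ℝ)
  good : ∀ BF BB : List (Step c K) → Prop,
    (∀ n : ℕ, 1 ≤ n → n ≤ ll κ → avgW n (fun w => ind (BF w)) ≤ 8 * (nu κ : ℝ) ^ 45 / n) →
    (∀ n : ℕ, 1 ≤ n → n ≤ ll κ → avgW n (fun w => ind (BB w)) ≤ 8 * (nu κ : ℝ) ^ 45 / n) →
    X.ann (ll κ) (fun ω w => ¬ (c₀ * κ ^ 2 ≤
        cnt (ll κ) (fun t => Cn ω w t ∧ TopJ X (c.gs K) j ω w t) ∧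
      (∀ i ≤ ll κ, ∀ i' ≤ ll κ, TopJ X (c.gs K) j ω w i → TopJ X (c.gs K) j ω w i' →
        i' ≤ i + nu κ) ∧
      ∀ i ≤ ll κ, TopJ X (c.gs K) j ω w i → ¬ BF (w.take i) ∧ ¬ BB (w.drop i))) ≤ 1 / 16
  qmax : ∀ ω, avgW (ll κ) (fun w => cnt (ll κ) fun t => Cn (X.mv ω (c.base K w t)⁻¹) w t) ≤
    κ ^ 2 / c₀
  load : X.P.real {ω | (nu κ : ℝ) ^ 3 <
    avgW (ll κ) fun w => (cnt (ll κ) fun t => Cn (X.mv ω (c.base K w t)⁻¹) w t) ^ 2} ≤ c₀ ^ 2 / 16

/-- The parameters used for a given `κ`; `C` is the moment constant. -/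
def par (C : ℝ) (κ : ℕ) : Par where
  κ := κ
  J0 := (κ : ℝ) ^ 4
  e0 := 1 / (ll κ : ℝ) ^ 2
  η1 := 1 / (κ : ℝ) ^ 24
  A := (ll κ : ℝ) / (2 ^ 61 * 10 ^ 8)
  A' := (ll κ : ℝ) / (8 * 10 ^ 8)
  ε := 1 / 200
  V := 1 / 10 ^ 24
  Mv := 10 ^ 57 * C
  m := ((10 ^ 32 * κ ^ 2 : ℕ) : ℝ)
  l := ll κ
  Le := ll κ / 2 ^ 60
  L1 := ll κ / 4
  nb := ⌊(κ : ℝ) ^ 2 / (2 * 10 ^ 81 * C)⌋₊
  ρ := nu κ

/-- The moment constant. -/
def Ctx.Cs (c : Ctx G) : ℝ := 4 * Real.exp (4 * c.S.card)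

/-- Output of the construction of the heights. -/
structure HtPack (c : Ctx G) (X : Sys G) (z : X.Ω → ℝ) (x₀ κ : ℝ) : Prop where
  ainv : ∀ ω, z (X.mv ω c.a) = z ω
  slow : ∀ γ ∈ c.S, X.P.real {ω | ⌊z (X.mv ω γ) / κ⌋ ≠ ⌊z ω / κ⌋} ≤ c.Cs / κ
  mom : ∀ᶠ K in atTop, (c.ht K X z).Mom c.Cs x₀ κ

/-- The numerical inequalities needed to assemble section 3 (`s` is the size of `S`). -/
structure ParBd (C : ℝ) (s κ : ℕ) : Prop where
  ok : (par C κ).Ok
  hA : (par C κ).A = 1 / 10 ^ 8 * (par C κ).Le / 2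
  hA' : (par C κ).A' = 1 / 10 ^ 8 * (par C κ).L1 / 2
  f1 : ((ll κ : ℝ) + 1) * ((√(1 / (ll κ : ℝ) ^ 8) + C * Real.exp (-(par C κ).J0)) / (par C κ).e0) +
    ll κ * (C * Real.exp (-(par C κ).J0)) ≤ 1 / 200
  f2 : 2 * (4 * √(2 * (1 / 10 ^ 8)) + C * Real.exp (-(par C κ).J0) / (1 / 10 ^ 8)) ≤ 1 / 400
  f3 : 10 * (√(12 * (par C κ).Le) + 2 * (par C κ).J0 + 4) / √(par C κ).A' ≤ 1 / 200
  f4 : ((ll κ : ℝ) + 1) * (4 * √(2 * (par C κ).η1) +
      (1 + 16 * (par C κ).J0 ^ 2) * (C * Real.exp (-(κ : ℝ))) / (par C κ).η1) *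
    ((5 * (2 * (par C κ).J0 + 4)) ^ 2 / (par C κ).A) ≤ 1 / 200
  f5 : ((ll κ : ℝ) + 1) * (par C κ).B ^ 2 ≤ 2 * 10 ^ 29 * κ ^ 2
  f8 : (4 * √(ll κ : ℝ) / κ + 1) *
    (30 * ((par C κ).V * κ ^ 2 + 2 * (par C κ).nb * κ * (par C κ).e0) /
      ((par C κ).ε ^ 2 * κ * √(par C κ).A)) ≤ 1 / 200
  f9 : (4 * √(ll κ : ℝ) / κ + 1) *
    (Real.exp (-(1 / (2 * s) * (par C κ).nb / 4)) * (par C κ).B) ≤ 1 / 200
  f10 : ((ll κ : ℝ) + 1) * (par C κ).B ^ 2 * (32 * κ / ((par C κ).η1 * √(nu κ : ℝ))) ≤ 1 / 200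
  f12 : 2 * ((ll κ : ℝ) + 1) * (8 * (nu κ : ℝ) ^ 45 / (par C κ).Le) * (par C κ).B ≤ 1 / 200
  fq : 1 / (10 ^ 83 * C * s) * κ ^ 2 ≤ 1 / (2 * s) * (par C κ).nb / 4
  fe1 : 2 * (32 * κ * (1 + Real.log (ll κ)) / ((par C κ).η1 * nu κ)) ≤
    (1 / (10 ^ 83 * C * s)) ^ 2 / 16
  fe2 : ((ll κ : ℝ) + 1) * (par C κ).B ^ 2 * (1 + 2 * (2 + 2 * (nu κ : ℝ) ^ 2)) ≤ (nu κ : ℝ) ^ 3

/-- Averaged free survival from the far end of the edge `(1, γ)`. -/
def hPlus (c : Ctx G) (K : ℕ) (X : Sys G) (z : X.Ω → ℝ) (p : Par) (γ : G) (u : ℕ) (ω : X.Ω) : ℝ :=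
  𝔼 k : Fin (2 * K + 1), avgW u fun w => ind ((c.ht K X z).Fs p (X.mv ω (γ * c.a ^ ex K k)) w)

/-- Averaged free survival from the near end of the edge. -/
def hMinus (c : Ctx G) (K : ℕ) (X : Sys G) (z : X.Ω → ℝ) (p : Par) (u : ℕ) (ω : X.Ω) : ℝ :=
  𝔼 k : Fin (2 * K + 1), avgW u fun w => ind ((c.ht K X z).Fs p (X.mv ω (c.a ^ (-ex K k))) w)

end

end Pool.Agent.Work.MP_01d39a_al.Ct
end

-- merged part: Pool.Agent.Work.MP_01d39a_al.Ct.Bas
section
/-!
Basic facts on systems, random graphs and indicators.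
-/

open MeasureTheory ProbabilityTheory Filter Topology
open scoped BigOperators ENNReal NNReal

namespace Pool.Agent.Work.MP_01d39a_al.Ct

variable {G : Type} [Group G]

theorem Sys.meas_mv (X : Sys G) (x : G) : Measurable fun ω => X.mv ω x := (X.mp x).measurable

/-- The move by `x` as a measurable equivalence. -/
def Sys.mvE (X : Sys G) (x : G) : X.Ω ≃ᵐ X.Ω where
  toFun ω := X.mv ω x
  invFun ω := X.mv ω x⁻¹
  left_inv ω := by simp [X.mv_mul, X.mv_one]
  right_inv ω := by simp [X.mv_mul, X.mv_one]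
  measurable_toFun := X.meas_mv x
  measurable_invFun := X.meas_mv x⁻¹

/-- Invariance for arbitrary (not necessarily measurable) sets. -/
theorem Sys.pre (X : Sys G) (x : G) (A : Set X.Ω) : X.P {ω | X.mv ω x ∈ A} = X.P A :=
  (show MeasurePreserving (X.mvE x) X.P X.P from X.mp x).measure_preimage_equiv A

theorem Sys.pre_real (X : Sys G) (x : G) (E : X.Ω → Prop) :
    X.P.real {ω | E (X.mv ω x)} = X.P.real {ω | E ω} := by
  unfold Measure.real
  exact congrArg _ (X.pre x {ω | E ω})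

theorem Sys.int_mv (X : Sys G) (x : G) (f : X.Ω → ℝ) : ∫ ω, f (X.mv ω x) ∂X.P = ∫ ω, f ω ∂X.P :=
  (show MeasurePreserving (X.mvE x) X.P X.P from X.mp x).integral_comp' f

theorem Sys.ae_mv (X : Sys G) [Countable G] {E : X.Ω → Prop} (h : ∀ᵐ ω ∂X.P, E ω) :
    ∀ᵐ ω ∂X.P, ∀ x, E (X.mv ω x) :=
  ae_all_iff.2 fun x => (X.mp x).quasiMeasurePreserving.ae h

theorem measurableSet_eqvGen {Ω V : Type} [MeasurableSpace Ω] [Countable V] {r : Ω → V → V → Prop}
    (h : ∀ x y, MeasurableSet {ω | r ω x y}) (x y : V) :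
    MeasurableSet {ω | Relation.EqvGen (r ω) x y} := by
  let R : ℕ → Ω → V → Prop := fun n => Nat.rec (fun _ v => v = x)
    (fun _ Q ω v => Q ω v ∨ ∃ u, Q ω u ∧ (r ω u v ∨ r ω v u)) n
  have hm : ∀ n v, MeasurableSet {ω | R n ω v} := by
    intro n
    induction n with
    | zero => intro v; by_cases hv : v = x <;> simp [R, hv]
    | succ n ih =>
      intro v
      have : {ω | R (n + 1) ω v} = {ω | R n ω v} ∪ ⋃ u, {ω | R n ω u} ∩
          ({ω | r ω u v} ∪ {ω | r ω v u}) := by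
        ext ω; simp [R]
      rw [this]
      exact (ih v).union (MeasurableSet.iUnion fun u => (ih u).inter ((h u v).union (h v u)))
  have h1 : ∀ n ω v, R n ω v → Relation.EqvGen (r ω) x v := by
    intro n ω
    induction n with
    | zero => intro v hv; obtain rfl : v = x := hv; exact .refl _
    | succ n ih =>
      rintro v (hv | ⟨u, hu, hv | hv⟩)
      · exact ih v hv
      · exact .trans _ _ _ (ih u hu) (.rel _ _ hv)
      · exact .trans _ _ _ (ih u hu) (.symm _ _ (.rel _ _ hv))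
  have h2 : ∀ ω u v, Relation.EqvGen (r ω) u v → ((∃ n, R n ω u) ↔ ∃ n, R n ω v) := by
    intro ω u v huv
    induction huv with
    | rel u v huv =>
      exact ⟨fun ⟨n, hn⟩ => ⟨n + 1, Or.inr ⟨u, hn, Or.inl huv⟩⟩,
        fun ⟨n, hn⟩ => ⟨n + 1, Or.inr ⟨v, hn, Or.inr huv⟩⟩⟩
    | refl => rfl
    | symm _ _ _ ih => exact ih.symm
    | trans _ _ _ _ _ ih1 ih2 => exact ih1.trans ih2
  have : {ω | Relation.EqvGen (r ω) x y} = ⋃ n, {ω | R n ω y} := by
    ext ω
    simp only [Set.mem_ofPred_eq, Set.mem_iUnion]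
    exact ⟨fun hxy => (h2 ω x y hxy).1 ⟨0, rfl⟩, fun ⟨n, hn⟩ => h1 n ω y hn⟩
  rw [this]
  exact MeasurableSet.iUnion fun n => hm n y

theorem eqvGen_map {V W : Type} {r : V → V → Prop} {s : W → W → Prop} (f : V → W)
    (hs : Equivalence s) (h : ∀ x y, r x y → s (f x) (f y)) {x y : V}
    (hxy : Relation.EqvGen r x y) : s (f x) (f y) := by
  induction hxy with
  | rel x y hxy => exact h x y hxy
  | refl => exact hs.refl _
  | symm _ _ _ ih => exact hs.symm ih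
  | trans _ _ _ _ _ ih1 ih2 => exact hs.trans ih1 ih2

section con

variable {X : Sys G} {a : G} {Z Z' : G → Set X.Ω} {ω : X.Ω}

theorem con_equiv (X : Sys G) (a : G) (Z : G → Set X.Ω) (ω : X.Ω) : Equivalence (Con X a Z ω) :=
  Relation.EqvGen.is_equivalence _

theorem Con.refl (x : G) : Con X a Z ω x x := Relation.EqvGen.refl x

theorem Con.symm {x y : G} (h : Con X a Z ω x y) : Con X a Z ω y x := Relation.EqvGen.symm _ _ h

theorem Con.trans {x y u : G} (h : Con X a Z ω x y) (h' : Con X a Z ω y u) : Con X a Z ω x u :=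
  Relation.EqvGen.trans _ _ _ h h'

theorem con_edge {x g : G} (h : X.mv ω x ∈ Z g) : Con X a Z ω x (x * g) :=
  Relation.EqvGen.rel _ _ (Or.inr (by simpa using h))

theorem con_a (x : G) : Con X a Z ω x (x * a) := Relation.EqvGen.rel _ _ (Or.inl rfl)

theorem con_zpow (x : G) (k : ℤ) : Con X a Z ω x (x * a ^ k) := by
  induction k using Int.induction_on with
  | zero => simpa using Con.refl x
  | succ n ih => exact ih.trans (by rw [zpow_add_one, ← mul_assoc]; exact con_a _)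
  | pred n ih =>
    refine ih.trans (Con.symm ?_)
    have := con_a (X := X) (a := a) (Z := Z) (ω := ω) (x * a ^ (-(n : ℤ) - 1))
    rwa [mul_assoc, ← zpow_add_one, sub_add_cancel] at this

/-- Induction principle: an equivalence relation that contains the edges contains `Con`. -/
theorem Con.ind {s : G → G → Prop} (hs : Equivalence s) (ha : ∀ x, s x (x * a))
    (hZ : ∀ x g, X.mv ω x ∈ Z g → s x (x * g)) {x y : G} (h : Con X a Z ω x y) : s x y := by
  refine eqvGen_map id hs ?_ h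
  rintro x y (rfl | h)
  · exact ha x
  · simpa using hZ x _ h

theorem Con.mono (hZ : ∀ x g, X.mv ω x ∈ Z g → X.mv ω x ∈ Z' g) {x y : G} (h : Con X a Z ω x y) :
    Con X a Z' ω x y :=
  h.ind (con_equiv _ _ _ _) con_a fun x g hg => con_edge (hZ x g hg)

theorem con_mv (g x y : G) : Con X a Z (X.mv ω g) x y ↔ Con X a Z ω (g * x) (g * y) := by
  have key : ∀ (ω : X.Ω) (g x y : G), Con X a Z (X.mv ω g) x y → Con X a Z ω (g * x) (g * y) := by
    intro ω g x y h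
    refine eqvGen_map (fun x => g * x) (con_equiv _ _ _ _) ?_ h
    rintro x y (rfl | h)
    · rw [← mul_assoc]; exact con_a _
    · rw [X.mv_mul] at h
      simpa [mul_assoc] using (con_edge h : Con X a Z ω _ _)
  refine ⟨key ω g x y, fun h => ?_⟩
  have := key (X.mv ω g) g⁻¹ (g * x) (g * y) (by rwa [X.mv_mul, mul_inv_cancel, X.mv_one])
  simpa using this

theorem measurableSet_con [Countable G] (hZ : Meas X Z) (x y : G) :
    MeasurableSet {ω | Con X a Z ω x y} := by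
  refine measurableSet_eqvGen (fun x y => ?_) x y
  by_cases h : y = x * a
  · simp [Adj, h]
  · have : {ω | Adj X a Z ω x y} = (fun ω => X.mv ω x) ⁻¹' Z (x⁻¹ * y) := by
      ext ω; simp [Adj, h]
    rw [this]
    exact X.meas_mv x (hZ (x⁻¹ * y))

theorem real_con (x y : G) : X.P.real {ω | Con X a Z ω x y} = tau X a Z (x⁻¹ * y) := by
  unfold tau
  rw [← X.pre_real x fun ω => Con X a Z ω 1 (x⁻¹ * y)]
  simp [con_mv]

theorem tau_inv (g : G) : tau X a Z g⁻¹ = tau X a Z g := by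
  have := real_con (X := X) (a := a) (Z := Z) g 1
  rw [mul_one] at this
  rw [← this]
  unfold tau
  congr 1
  ext ω
  exact ⟨Con.symm, Con.symm⟩

/-- Pull back along an equivariant map. -/
theorem con_pull {Y : Sys G} {π : Y.Ω → X.Ω} (h : ∀ ω x, π (Y.mv ω x) = X.mv (π ω) x)
    (ω : Y.Ω) (x y : G) : Con Y a (fun g => π ⁻¹' Z g) ω x y ↔ Con X a Z (π ω) x y := by
  unfold Con
  have : Adj Y a (fun g => π ⁻¹' Z g) ω = Adj X a Z (π ω) := by
    ext x y; simp [Adj, h]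
  rw [this]

theorem pathCon_con {E : Finset (G × G)} (hE : ∀ e ∈ E, Con X a Z ω e.1 e.2) {x y : G}
    (h : PathCon a E x y) : Con X a Z ω x y := by
  refine eqvGen_map id (con_equiv _ _ _ _) ?_ h
  rintro x y (rfl | h)
  · exact con_a _
  · exact hE _ h

end con

theorem fac_fst (X Y : Sys G) : Fac (X.prod Y) X Prod.fst := ⟨measurePreserving_fst, fun _ _ => rfl⟩

theorem fac_snd (X Y : Sys G) : Fac (X.prod Y) Y Prod.snd := ⟨measurePreserving_snd, fun _ _ => rfl⟩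

theorem Fac.comp {X Y W : Sys G} {π : Y.Ω → X.Ω} {ρ : W.Ω → Y.Ω} (h : Fac Y X π) (h' : Fac W Y ρ) :
    Fac W X (π ∘ ρ) :=
  ⟨h.mp.comp h'.mp, fun ω x => by simp [h'.eqv, h.eqv]⟩

theorem Fac.real {X Y : Sys G} {π : Y.Ω → X.Ω} (h : Fac Y X π) {A : Set X.Ω}
    (hA : MeasurableSet A) : Y.P.real (π ⁻¹' A) = X.P.real A := by
  unfold Measure.real
  rw [h.mp.measure_preimage hA.nullMeasurableSet]

theorem Fac.tau [Countable G] {X Y : Sys G} {π : Y.Ω → X.Ω} (h : Fac Y X π) {a : G}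
    {Z : G → Set X.Ω} (hZ : Meas X Z) (g : G) :
    tau Y a (fun g => π ⁻¹' Z g) g = tau X a Z g := by
  unfold Ct.tau
  rw [← h.real (measurableSet_con hZ 1 g)]
  congr 1
  ext ω
  exact con_pull h.eqv ω 1 g

theorem mv_zpow_of_ainv {X : Sys G} {a : G} {β : Type} {f : X.Ω → β}
    (hf : ∀ ω, f (X.mv ω a) = f ω) (ω : X.Ω) (k : ℤ) : f (X.mv ω (a ^ k)) = f ω := by
  induction k using Int.induction_on with
  | zero => simp [X.mv_one]
  | succ n ih => rw [zpow_add_one, ← X.mv_mul, hf, ih]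
  | pred n ih =>
    rw [← ih, ← hf (X.mv ω (a ^ (-(n : ℤ) - 1))), X.mv_mul, ← zpow_add_one, sub_add_cancel]

/-- An almost surely `a`-invariant function has an exactly `a`-invariant version. -/
theorem exists_ainv (X : Sys G) (a : G) {β : Type} [MeasurableSpace β] [Countable β]
    [MeasurableSingletonClass β] (b₀ : β) {f : X.Ω → β} (hf : Measurable f)
    (h : ∀ᵐ ω ∂X.P, f (X.mv ω a) = f ω) :
    ∃ f' : X.Ω → β, Measurable f' ∧ (∀ ω, f' (X.mv ω a) = f' ω) ∧ ∀ᵐ ω ∂X.P, f' ω = f ω := by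
  classical
  let T : Set X.Ω := {ω | ∀ k : ℤ, f (X.mv ω (a ^ k)) = f ω}
  have hT : MeasurableSet T := by
    have : T = ⋂ k : ℤ, {ω | f (X.mv ω (a ^ k)) = f ω} := by ext; simp [T]
    rw [this]
    exact MeasurableSet.iInter fun k => measurableSet_eq_fun (hf.comp (X.meas_mv _)) hf
  have hTa : ∀ ω, X.mv ω a ∈ T ↔ ω ∈ T := by
    intro ω
    constructor
    · intro h k
      have h1 := h (k - 1)
      have h2 := h (-1)
      rw [X.mv_mul, ← zpow_one_add, add_sub_cancel] at h1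
      rw [X.mv_mul, zpow_neg_one, mul_inv_cancel, X.mv_one] at h2
      rw [h1, h2]
    · intro h k
      have h1 := h (1 + k)
      have h2 := h 1
      rw [zpow_one] at h2
      rw [X.mv_mul, ← zpow_one_add, h1, h2]
  refine ⟨T.piecewise f fun _ => b₀, hf.piecewise hT measurable_const, fun ω => ?_, ?_⟩
  · by_cases hω : ω ∈ T
    · rw [Set.piecewise_eq_of_mem _ _ _ hω, Set.piecewise_eq_of_mem _ _ _ ((hTa ω).2 hω)]
      simpa using hω 1
    · rw [Set.piecewise_eq_of_notMem _ _ _ hω,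
        Set.piecewise_eq_of_notMem _ _ _ (mt (hTa ω).1 hω)]
  · have h1 : ∀ᵐ ω ∂X.P, ∀ k : ℤ, f (X.mv (X.mv ω (a ^ k)) a) = f (X.mv ω (a ^ k)) :=
      ae_all_iff.2 fun k => (X.mp _).quasiMeasurePreserving.ae h
    filter_upwards [h1] with ω hω
    refine Set.piecewise_eq_of_mem _ _ _ fun k => ?_
    induction k using Int.induction_on with
    | zero => simp [X.mv_one]
    | succ n ih => rw [zpow_add_one, ← X.mv_mul, hω, ih]
    | pred n ih => rw [← ih, ← hω, X.mv_mul, ← zpow_add_one, sub_add_cancel]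

theorem ind_nonneg (p : Prop) : 0 ≤ ind p := by unfold ind; split_ifs <;> norm_num

theorem ind_le_one (p : Prop) : ind p ≤ 1 := by unfold ind; split_ifs <;> norm_num

theorem ind_pos {p : Prop} (h : p) : ind p = 1 := by simp [ind, h]

theorem ind_neg {p : Prop} (h : ¬ p) : ind p = 0 := by simp [ind, h]

theorem ind_mono {p q : Prop} (h : p → q) : ind p ≤ ind q := by
  by_cases hp : p
  · rw [ind_pos hp, ind_pos (h hp)]
  · rw [ind_neg hp]; exact ind_nonneg q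

theorem ind_congr {p q : Prop} (h : p ↔ q) : ind p = ind q := by rw [propext h]

theorem ind_and (p q : Prop) : ind (p ∧ q) = ind p * ind q := by
  by_cases hp : p <;> by_cases hq : q <;> simp [ind, hp, hq]

theorem ind_or_le (p q : Prop) : ind (p ∨ q) ≤ ind p + ind q := by
  by_cases hp : p <;> by_cases hq : q <;> simp [ind, hp, hq]

theorem ind_not (p : Prop) : ind (¬ p) = 1 - ind p := by
  by_cases hp : p <;> simp [ind, hp]

theorem ind_exists_le {ι : Type} (s : Finset ι) (p : ι → Prop) :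
    ind (∃ i ∈ s, p i) ≤ ∑ i ∈ s, ind (p i) := by
  by_cases h : ∃ i ∈ s, p i
  · obtain ⟨i, hi, hp⟩ := h
    calc ind _ ≤ ind (p i) := by rw [ind_pos hp]; exact ind_le_one _
      _ ≤ _ := Finset.single_le_sum (f := fun i => ind (p i)) (fun j _ => ind_nonneg _) hi
  · rw [ind_neg h]; exact Finset.sum_nonneg fun j _ => ind_nonneg _

theorem measurable_ind {Ω : Type} [MeasurableSpace Ω] {E : Ω → Prop}
    (h : MeasurableSet {ω | E ω}) : Measurable fun ω => ind (E ω) := by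
  classical
  unfold ind
  exact Measurable.ite h measurable_const measurable_const

theorem integrable_ind {Ω : Type} [MeasurableSpace Ω] (P : Measure Ω) [IsFiniteMeasure P]
    {E : Ω → Prop} (h : MeasurableSet {ω | E ω}) : Integrable (fun ω => ind (E ω)) P :=
  Integrable.of_bound (measurable_ind h).aestronglyMeasurable 1 (Eventually.of_forall fun ω => by
    rw [Real.norm_eq_abs, abs_of_nonneg (ind_nonneg _)]; exact ind_le_one _)

theorem integral_ind {Ω : Type} [MeasurableSpace Ω] (P : Measure Ω) {E : Ω → Prop}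
    (h : MeasurableSet {ω | E ω}) : ∫ ω, ind (E ω) ∂P = P.real {ω | E ω} := by
  rw [← integral_indicator_one h]
  refine integral_congr_ae (Eventually.of_forall fun ω => ?_)
  by_cases hω : E ω <;> simp [ind, hω, Set.indicator]

theorem cnt_nonneg (l : ℕ) (p : ℕ → Prop) : 0 ≤ cnt l p :=
  Finset.sum_nonneg fun _ _ => ind_nonneg _

theorem cnt_mono {l : ℕ} {p q : ℕ → Prop} (h : ∀ i ≤ l, p i → q i) : cnt l p ≤ cnt l q :=
  Finset.sum_le_sum fun i hi => ind_mono (h i (Nat.lt_succ_iff.1 (Finset.mem_range.1 hi)))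

theorem Ctx.inv (c : Ctx G) (K : ℕ) : Inv (c.gs K) (c.is K) where
  invol s := by simp [Ctx.is]
  inv s := by
    have h : ∀ k : Fin (2 * K + 1), ex K k.rev = - ex K k := by
      intro k
      have := k.2
      simp only [ex, Fin.val_rev]
      omega
    rcases s with ⟨k, ⟨b, γ⟩, k'⟩
    cases b <;> simp [Ctx.gs, Ctx.is, lt, h, mul_assoc]

theorem Ctx.zpow_inj (c : Ctx G) {k k' : ℤ} (h : c.a ^ k = c.a ^ k') : k = k' := by
  have := c.ha (k - k') (by rw [zpow_sub, h, mul_inv_cancel])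
  omega

end Pool.Agent.Work.MP_01d39a_al.Ct
end

-- merged part: Pool.Agent.Work.MP_01d39a_al.Ct.Wd
section
/-!
Calculus of averages over words.
-/

open MeasureTheory ProbabilityTheory Filter Topology
open scoped BigOperators ENNReal NNReal

namespace Pool.Agent.Work.MP_01d39a_al.Ct

variable {G : Type} [Group G]

section avg

variable {σ : Type} [Fintype σ]

@[simp] theorem avgW_zero (F : List σ → ℝ) : avgW 0 F = F [] := rfl

theorem avgW_succ (n : ℕ) (F : List σ → ℝ) :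
    avgW (n + 1) F = 𝔼 s : σ, avgW n fun w => F (s :: w) := rfl

theorem avgW_mono {n : ℕ} {F F' : List σ → ℝ} (h : ∀ w, w.length = n → F w ≤ F' w) :
    avgW n F ≤ avgW n F' := by
  induction n generalizing F F' with
  | zero => exact h [] rfl
  | succ n ih =>
    exact Finset.expect_le_expect fun s _ => ih fun w hw => h (s :: w) (by simp [hw])

theorem avgW_congr {n : ℕ} {F F' : List σ → ℝ} (h : ∀ w, w.length = n → F w = F' w) :
    avgW n F = avgW n F' :=
  le_antisymm (avgW_mono fun w hw => (h w hw).le) (avgW_mono fun w hw => (h w hw).ge)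

theorem avgW_add (n : ℕ) (F F' : List σ → ℝ) :
    avgW n (fun w => F w + F' w) = avgW n F + avgW n F' := by
  induction n generalizing F F' with
  | zero => rfl
  | succ n ih => simp only [avgW_succ, ih, Finset.expect_add_distrib]

theorem avgW_mul_left (n : ℕ) (r : ℝ) (F : List σ → ℝ) :
    avgW n (fun w => r * F w) = r * avgW n F := by
  induction n generalizing F with
  | zero => rfl
  | succ n ih => simp only [avgW_succ, ih, Finset.mul_expect]

theorem avgW_mul_right (n : ℕ) (r : ℝ) (F : List σ → ℝ) :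
    avgW n (fun w => F w * r) = avgW n F * r := by
  simp only [mul_comm _ r, avgW_mul_left]

theorem avgW_div (n : ℕ) (r : ℝ) (F : List σ → ℝ) :
    avgW n (fun w => F w / r) = avgW n F / r := by
  simp only [div_eq_mul_inv, avgW_mul_right]

theorem avgW_sub (n : ℕ) (F F' : List σ → ℝ) :
    avgW n (fun w => F w - F' w) = avgW n F - avgW n F' := by
  have := avgW_add n F fun w => (-1) * F' w
  rw [avgW_mul_left] at this
  simpa [sub_eq_add_neg] using this

theorem avgW_const [Nonempty σ] (n : ℕ) (r : ℝ) : avgW n (fun _ : List σ => r) = r := by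
  induction n with
  | zero => rfl
  | succ n ih => simp only [avgW_succ, ih, Fintype.expect_const]

theorem avgW_zero_fun (n : ℕ) : avgW n (fun _ : List σ => (0 : ℝ)) = 0 := by
  simpa using avgW_mul_left n 0 fun _ : List σ => (0 : ℝ)

theorem avgW_nonneg {n : ℕ} {F : List σ → ℝ} (h : ∀ w, w.length = n → 0 ≤ F w) : 0 ≤ avgW n F := by
  rw [← avgW_zero_fun (σ := σ) n]; exact avgW_mono h

theorem avgW_le [Nonempty σ] {n : ℕ} {F : List σ → ℝ} {r : ℝ} (h : ∀ w, w.length = n → F w ≤ r) :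
    avgW n F ≤ r := by
  rw [← avgW_const (σ := σ) n r]; exact avgW_mono h

theorem avgW_sum {ι : Type} (s : Finset ι) (n : ℕ) (F : ι → List σ → ℝ) :
    avgW n (fun w => ∑ i ∈ s, F i w) = ∑ i ∈ s, avgW n (F i) := by
  classical
  induction s using Finset.induction_on with
  | empty => simpa using avgW_zero_fun n
  | insert i s hi ih => simp only [Finset.sum_insert hi, avgW_add, ih]

theorem avgW_expect {ι : Type} [Fintype ι] (n : ℕ) (F : ι → List σ → ℝ) :
    avgW n (fun w => 𝔼 i, F i w) = 𝔼 i, avgW n (F i) := by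
  simp only [Finset.expect_eq_sum_div_card, avgW_div, avgW_sum]

theorem avgW_comm {τ : Type} [Fintype τ] (n m : ℕ) (F : List σ → List τ → ℝ) :
    avgW n (fun w => avgW m (F w)) = avgW m fun u => avgW n fun w => F w u := by
  induction m generalizing F with
  | zero => rfl
  | succ m ih => simp only [avgW_succ, avgW_expect, ih]

theorem avgW_append (n m : ℕ) (F : List σ → ℝ) :
    avgW (n + m) F = avgW n fun u => avgW m fun v => F (u ++ v) := by
  induction n generalizing F with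
  | zero => simp
  | succ n ih => rw [Nat.add_right_comm]; simp only [avgW_succ, ih, List.cons_append]

theorem avgW_snoc (n : ℕ) (F : List σ → ℝ) :
    avgW (n + 1) F = avgW n fun w => 𝔼 s : σ, F (w ++ [s]) := avgW_append n 1 F

/-- Splitting a word at time `n`. -/
theorem avgW_split (n m : ℕ) (F : List σ → List σ → ℝ) :
    avgW (n + m) (fun w => F (w.take n) (w.drop n)) = avgW n fun u => avgW m fun v => F u v := by
  rw [avgW_append]
  refine avgW_congr fun u hu => avgW_congr fun v _ => ?_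
  rw [List.take_left' hu, List.drop_left' hu]

theorem avgW_take [Nonempty σ] {n m : ℕ} (h : n ≤ m) (F : List σ → ℝ) :
    avgW m (fun w => F (w.take n)) = avgW n F := by
  obtain ⟨k, rfl⟩ := Nat.exists_eq_add_of_le h
  rw [avgW_split n k fun u _ => F u]
  simp only [avgW_const]

theorem avgW_drop [Nonempty σ] (n m : ℕ) (F : List σ → ℝ) :
    avgW (n + m) (fun w => F (w.drop n)) = avgW m F := by
  rw [avgW_split n m fun _ v => F v, avgW_const]

theorem avgW_ofFn (n : ℕ) (F : List σ → ℝ) : avgW n F = 𝔼 f : Fin n → σ, F (List.ofFn f) := by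
  classical
  induction n generalizing F with
  | zero => simp
  | succ n ih =>
    rw [avgW_succ]
    simp only [ih]
    rw [← Finset.expect_product', Finset.univ_product_univ]
    refine Finset.expect_equiv (Fin.consEquiv fun _ => σ) (by simp) fun x _ => ?_
    simp [Fin.consEquiv, List.ofFn_succ]

theorem measurable_avgW {Ω : Type} [MeasurableSpace Ω] {n : ℕ} {F : Ω → List σ → ℝ}
    (h : ∀ w, Measurable fun ω => F ω w) : Measurable fun ω => avgW n (F ω) := by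
  simp only [avgW_ofFn, Finset.expect_eq_sum_div_card]
  exact (Finset.measurable_sum _ fun f _ => h _).div_const _

theorem integrable_avgW {Ω : Type} [MeasurableSpace Ω] {P : Measure Ω} {n : ℕ}
    {F : Ω → List σ → ℝ} (h : ∀ w, w.length = n → Integrable (fun ω => F ω w) P) :
    Integrable (fun ω => avgW n (F ω)) P := by
  simp only [avgW_ofFn, Finset.expect_eq_sum_div_card]
  exact (integrable_finsetSum _ fun f _ => h _ (by simp)).div_const _

theorem integral_avgW {Ω : Type} [MeasurableSpace Ω] {P : Measure Ω} {n : ℕ}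
    {F : Ω → List σ → ℝ} (h : ∀ w, w.length = n → Integrable (fun ω => F ω w) P) :
    ∫ ω, avgW n (F ω) ∂P = avgW n fun w => ∫ ω, F ω w ∂P := by
  simp only [avgW_ofFn, Finset.expect_eq_sum_div_card]
  rw [integral_div, integral_finsetSum _ fun f _ => h _ (by simp)]

theorem integral_expect {Ω ι : Type} [MeasurableSpace Ω] [Fintype ι] {P : Measure Ω}
    {F : Ω → ι → ℝ} (h : ∀ i, Integrable (fun ω => F ω i) P) :
    ∫ ω, (𝔼 i, F ω i) ∂P = 𝔼 i, ∫ ω, F ω i ∂P := by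
  simp only [Finset.expect_eq_sum_div_card]
  rw [integral_div, integral_finsetSum _ fun f _ => h _]

theorem measurable_expect {Ω ι : Type} [MeasurableSpace Ω] [Fintype ι] {F : Ω → ι → ℝ}
    (h : ∀ i, Measurable fun ω => F ω i) : Measurable fun ω => 𝔼 i, F ω i := by
  simp only [Finset.expect_eq_sum_div_card]
  exact (Finset.measurable_sum _ fun f _ => h _).div_const _

theorem integrable_expect {Ω ι : Type} [MeasurableSpace Ω] [Fintype ι] {P : Measure Ω}
    {F : Ω → ι → ℝ} (h : ∀ i, Integrable (fun ω => F ω i) P) :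
    Integrable (fun ω => 𝔼 i, F ω i) P := by
  simp only [Finset.expect_eq_sum_div_card]
  exact (integrable_finsetSum _ fun f _ => h _).div_const _

end avg

section words

variable {σ : Type} {g : σ → G} {ι : σ → σ}

@[simp] theorem pw_nil : pw g [] = 1 := rfl

theorem pw_cons (s : σ) (w : List σ) : pw g (s :: w) = g s * pw g w := by simp [pw]

theorem pw_append (u v : List σ) : pw g (u ++ v) = pw g u * pw g v := by simp [pw]

theorem pw_take_drop (w : List σ) (t : ℕ) : pw g (w.take t) * pw g (w.drop t) = pw g w := by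
  rw [← pw_append, List.take_append_drop]

theorem pw_take_succ (w : List σ) {i : ℕ} (hi : i < w.length) :
    pw g (w.take (i + 1)) = pw g (w.take i) * g w[i] := by
  rw [List.take_add_one, pw_append, List.getElem?_eq_getElem hi]; simp [pw]

@[simp] theorem length_rv (w : List σ) : (rv ι w).length = w.length := by simp [rv]

theorem rv_cons (s : σ) (w : List σ) : rv ι (s :: w) = rv ι w ++ [ι s] := by simp [rv]

theorem rv_append (u v : List σ) : rv ι (u ++ v) = rv ι v ++ rv ι u := by simp [rv]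

theorem rv_rv (h : Inv g ι) (w : List σ) : rv ι (rv ι w) = w := by
  have : ι ∘ ι = id := funext h.invol
  simp [rv, List.map_reverse, this]

theorem pw_rv (h : Inv g ι) (w : List σ) : pw g (rv ι w) = (pw g w)⁻¹ := by
  induction w with
  | nil => simp [rv]
  | cons s w ih => rw [rv_cons, pw_append, ih, pw_cons, pw_cons, h.inv]; simp

theorem take_rv (w : List σ) (i : ℕ) : (rv ι w).take i = rv ι (w.drop (w.length - i)) := by
  simp [rv, List.take_reverse, List.map_drop]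

theorem avgW_rv [Fintype σ] (h : Inv g ι) (n : ℕ) (F : List σ → ℝ) :
    avgW n (fun w => F (rv ι w)) = avgW n F := by
  induction n generalizing F with
  | zero => rfl
  | succ n ih =>
    rw [avgW_succ, avgW_snoc, avgW_expect]
    simp only [rv_cons]
    refine Finset.expect_equiv (Function.Involutive.toPerm ι h.invol) (by simp) fun s _ => ?_
    exact ih fun w => F (w ++ [ι s])

variable (X : Sys G)

@[simp] theorem st_zero (ω : X.Ω) (w : List σ) : X.st g ω w 0 = ω := by simp [Sys.st, X.mv_one]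

theorem st_cons (ω : X.Ω) (s : σ) (w : List σ) (i : ℕ) :
    X.st g ω (s :: w) (i + 1) = X.st g (X.mv ω (g s)) w i := by
  simp [Sys.st, pw_cons, X.mv_mul]

theorem st_succ (ω : X.Ω) (w : List σ) {i : ℕ} (hi : i < w.length) :
    X.st g ω w (i + 1) = X.mv (X.st g ω w i) (g w[i]) := by
  simp only [Sys.st, pw_take_succ w hi, X.mv_mul]

theorem st_take (ω : X.Ω) (w : List σ) {i t : ℕ} (h : i ≤ t) :
    X.st g ω (w.take t) i = X.st g ω w i := by
  simp [Sys.st, List.take_take, h]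

theorem st_drop (ω : X.Ω) (w : List σ) (t i : ℕ) :
    X.st g (X.st g ω w t) (w.drop t) i = X.st g ω w (t + i) := by
  simp only [Sys.st, X.mv_mul, ← pw_append, List.take_add]

theorem st_append_left (ω : X.Ω) (u v : List σ) {i : ℕ} (h : i ≤ u.length) :
    X.st g ω (u ++ v) i = X.st g ω u i := by
  simp [Sys.st, List.take_append_of_le_length h]

theorem st_append_right (ω : X.Ω) (u v : List σ) (i : ℕ) :
    X.st g ω (u ++ v) (u.length + i) = X.st g (X.mv ω (pw g u)) v i := by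
  simp [Sys.st, List.take_append, pw_append, X.mv_mul, List.take_of_length_le]

theorem st_length (ω : X.Ω) (w : List σ) : X.st g ω w w.length = X.mv ω (pw g w) := by
  simp [Sys.st]

/-- The backward arm from time `t`. -/
theorem st_rv_take (h : Inv g ι) (ω : X.Ω) (w : List σ) {t i : ℕ} (ht : t ≤ w.length)
    (_hi : i ≤ t) : X.st g (X.st g ω w t) (rv ι (w.take t)) i = X.st g ω w (t - i) := by
  simp only [Sys.st, X.mv_mul, take_rv, pw_rv h, List.length_take, min_eq_left ht]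
  congr 1
  rw [mul_inv_eq_iff_eq_mul, ← pw_take_drop (w.take t) (t - i), List.take_take,
    min_eq_left (Nat.sub_le _ _)]

theorem measurable_st (w : List σ) (i : ℕ) : Measurable fun ω => X.st g ω w i := X.meas_mv _

variable [Fintype σ]

theorem ann_nonneg (n : ℕ) (E : X.Ω → List σ → Prop) : 0 ≤ X.ann n E :=
  avgW_nonneg fun _ _ => measureReal_nonneg

theorem ann_mono {n : ℕ} {E E' : X.Ω → List σ → Prop}
    (h : ∀ ω w, w.length = n → E ω w → E' ω w) : X.ann n E ≤ X.ann n E' :=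
  avgW_mono fun w hw => measureReal_mono fun ω hω => h ω w hw hω

theorem ann_or_le (n : ℕ) (E E' : X.Ω → List σ → Prop) :
    X.ann n (fun ω w => E ω w ∨ E' ω w) ≤ X.ann n E + X.ann n E' := by
  unfold Sys.ann
  rw [← avgW_add]
  exact avgW_mono fun w _ => measureReal_union_le {ω | E ω w} {ω | E' ω w}

theorem ann_exists_le {κ : Type} (s : Finset κ) (n : ℕ) (E : κ → X.Ω → List σ → Prop) :
    X.ann n (fun ω w => ∃ i ∈ s, E i ω w) ≤ ∑ i ∈ s, X.ann n (E i) := by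
  unfold Sys.ann
  rw [← avgW_sum]
  refine avgW_mono fun w _ => ?_
  have : {ω | ∃ i ∈ s, E i ω w} = ⋃ i ∈ s, {ω | E i ω w} := by ext; simp
  rw [this]
  exact measureReal_biUnion_finset_le s fun i => {ω | E i ω w}

/-- Annealed probability as the mean of the quenched one. -/
theorem ann_eq {n : ℕ} {E : X.Ω → List σ → Prop} (h : ∀ w, MeasurableSet {ω | E ω w}) :
    X.ann n E = ∫ ω, avgW n (fun w => ind (E ω w)) ∂X.P := by
  rw [integral_avgW fun w _ => integrable_ind _ (h w)]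
  exact avgW_congr fun w _ => (integral_ind _ (h w)).symm

/-- A site event along the path has the stationary probability. -/
theorem ann_site [Nonempty σ] (n i : ℕ) (E : X.Ω → Prop) :
    X.ann n (fun ω w => E (X.st g ω w i)) = X.P.real {ω | E ω} := by
  unfold Sys.ann Sys.st
  simp only [X.pre_real, avgW_const]

/-- Two-sided decomposition at time `s`: backward arm `u`, forward arm `v`. -/
theorem ann_two (h : Inv g ι) (s t : ℕ) (E : X.Ω → List σ → List σ → Prop) :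
    X.ann (s + t) (fun ω w => E (X.st g ω w s) (rv ι (w.take s)) (w.drop s)) =
      avgW s fun u => avgW t fun v => X.P.real {ω | E ω u v} := by
  unfold Sys.ann Sys.st
  have : ∀ w : List σ, X.P.real {ω | E (X.mv ω (pw g (w.take s))) (rv ι (w.take s)) (w.drop s)} =
      X.P.real {ω | E ω (rv ι (w.take s)) (w.drop s)} := fun w =>
    X.pre_real _ fun ω => E ω (rv ι (w.take s)) (w.drop s)
  simp only [this]
  rw [avgW_split s t fun u v => X.P.real {ω | E ω (rv ι u) v}]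
  exact avgW_rv h s fun u => avgW t fun v => X.P.real {ω | E ω u v}

/-- The same for integrals. -/
theorem int_two (h : Inv g ι) (s t : ℕ) (F : X.Ω → List σ → List σ → ℝ) :
    avgW (s + t) (fun w => ∫ ω, F (X.st g ω w s) (rv ι (w.take s)) (w.drop s) ∂X.P) =
      avgW s fun u => avgW t fun v => ∫ ω, F ω u v ∂X.P := by
  unfold Sys.st
  have : ∀ w : List σ, ∫ ω, F (X.mv ω (pw g (w.take s))) (rv ι (w.take s)) (w.drop s) ∂X.P =
      ∫ ω, F ω (rv ι (w.take s)) (w.drop s) ∂X.P := fun w =>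
    X.int_mv _ fun ω => F ω (rv ι (w.take s)) (w.drop s)
  simp only [this]
  rw [avgW_split s t fun u v => ∫ ω, F ω (rv ι u) v ∂X.P]
  exact avgW_rv h s fun u => avgW t fun v => ∫ ω, F ω u v ∂X.P

/-- Reversal of the whole path. -/
theorem ann_rv (h : Inv g ι) (n : ℕ) (E : X.Ω → List σ → Prop) :
    X.ann n (fun ω w => E (X.mv ω (pw g w)) (rv ι w)) = X.ann n E := by
  unfold Sys.ann
  have : ∀ w : List σ, X.P.real {ω | E (X.mv ω (pw g w)) (rv ι w)} = X.P.real {ω | E ω (rv ι w)} :=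
    fun w => X.pre_real _ fun ω => E ω (rv ι w)
  simp only [this]
  exact avgW_rv h n fun w => X.P.real {ω | E ω w}

end words

end Pool.Agent.Work.MP_01d39a_al.Ct
end

-- merged part: Pool.Agent.Work.MP_01d39a_al.Ct.GDefs
section
/-!
Definitions for sections 4 and 5 (counting and gain) of h26_01d39a_PROOF.md.
-/

open MeasureTheory ProbabilityTheory Filter Topology
open scoped BigOperators ENNReal NNReal

namespace Pool.Agent.Work.MP_01d39a_al.Ct

noncomputable section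

variable {G : Type} [Group G]

/-- A finite multigraph with edge set `B`, levels `Λ` and ranks `r`. -/
structure Gr (ι V : Type) where
  B : Finset ι
  e1 : ι → V
  e2 : ι → V
  Λ : ι → ℤ
  r : ι → ℕ
  D0 : ℕ
  s0 : ℕ

namespace Gr

variable {ι V : Type} (Γ : Gr ι V)

open Classical in
/-- The vertices. -/
def VB : Finset V := Γ.B.image Γ.e1 ∪ Γ.B.image Γ.e2

open Classical in
/-- Degree. -/
def deg (v : V) : ℕ := (Γ.B.filter fun e => Γ.e1 e = v ∨ Γ.e2 e = v).card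

/-- Weight of a vertex. -/
def wt (v : V) : ℝ := if Γ.D0 < Γ.deg v then Γ.s0 else 1

/-- Joined by edges of `B` with property `P`. -/
def Rel (P : ι → Prop) : V → V → Prop :=
  Relation.EqvGen fun u v => ∃ e ∈ Γ.B, P e ∧ u = Γ.e1 e ∧ v = Γ.e2 e

/-- Weight of the class of `v`. -/
def Wt (R : V → V → Prop) (v : V) : ℝ := ∑ u ∈ Γ.VB, ind (R v u) * Γ.wt u

/-- Pieces at the level of `e`. -/
def Lo (e : ι) : V → V → Prop := Γ.Rel fun e' => Γ.Λ e' < Γ.Λ e

/-- Both pieces at `e` are large. -/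
def LL (e : ι) : Prop := Γ.s0 ≤ Γ.Wt (Γ.Lo e) (Γ.e1 e) ∧ Γ.s0 ≤ Γ.Wt (Γ.Lo e) (Γ.e2 e)

/-- The ends of `e` are joined by lower edges and open edges. -/
def DelB (o : ι → Prop) (e : ι) : Prop :=
  Γ.Rel (fun e' => Γ.Λ e' < Γ.Λ e ∨ o e') (Γ.e1 e) (Γ.e2 e)

/-- The ends of `e` are not joined by lower edges and earlier open edges of the same level. -/
def Use (o : ι → Prop) (e : ι) : Prop :=
  ¬ Γ.Rel (fun e' => Γ.Λ e' < Γ.Λ e ∨ (Γ.Λ e' = Γ.Λ e ∧ Γ.r e' < Γ.r e ∧ o e')) (Γ.e1 e) (Γ.e2 e)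

/-- Two edges share a vertex of low degree. -/
def Hop (e e' : ι) : Prop :=
  e' ∈ Γ.B ∧ ∃ v, (v = Γ.e1 e ∨ v = Γ.e2 e) ∧ (v = Γ.e1 e' ∨ v = Γ.e2 e') ∧ Γ.deg v ≤ Γ.D0

/-- At most `k` hops. -/
def Chain : ℕ → ι → ι → Prop
  | 0, e, e' => e' = e
  | k + 1, e, e' => Chain k e e' ∨ ∃ e'', Chain k e e'' ∧ Γ.Hop e'' e'

/-- Local tie. -/
def LT (e : ι) : Prop := ∃ e' ∈ Γ.B, e' ≠ e ∧ Γ.Λ e' = Γ.Λ e ∧ Γ.Chain (Γ.s0 + 1) e e'

end Gr

/-- The lexicographic label. -/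
def lamJ (X₁ X₂ : Sys G) (I : ℕ) (j : X₁.Ω → ℤ) (ℓ : X₂.Ω → Bool) (ω : X₁.Ω × (Fin I → X₂.Ω)) : ℤ :=
  2 ^ I * j ω.1 + ((Fintype.equivFin (Fin I → Bool) fun i => ℓ (ω.2 i) : ℕ) : ℤ)

/-- Successful times. -/
def Cc (c : Ctx G) (K : ℕ) (X : Sys G) (lam : X.Ω → ℤ) (θ₁ : ℝ)
    (Cn : X.Ω → List (Step c K) → ℕ → Prop) (p : X.Ω × (G → Bool)) (w : List (Step c K))
    (t : ℕ) : Prop :=
  Cn p.1 w t ∧ lam (X.st (c.gs K) p.1 w t) = LamW X (c.gs K) lam p.1 w ∧ Del c K X lam θ₁ w p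

/-- Start of the edge number `s` when the edge number `t` starts at the origin. -/
def Ctx.rel (c : Ctx G) (K : ℕ) (w : List (Step c K)) (t s : ℕ) : G :=
  (c.base K w t)⁻¹ * c.base K w s

open Classical in
/-- The other `S`-edges of the path that touch the top label; `ω` is the environment seen from
the start of the path. -/
def Eset (c : Ctx G) (K : ℕ) (X : Sys G) (lam : X.Ω → ℤ) (ω : X.Ω) (w : List (Step c K)) (t : ℕ) :
    Finset (G × G) :=
  ((Finset.Icc 1 w.length ×ˢ c.S).filter fun x => x.1 ≠ t ∧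
      (∃ s, w[x.1 - 1]? = some s ∧ s.2.1.1 = true ∧ (s.2.1.2 : G) = x.2) ∧
      (lam (X.st (c.gs K) ω w (x.1 - 1)) = LamW X (c.gs K) lam ω w ∨
        lam (X.st (c.gs K) ω w x.1) = LamW X (c.gs K) lam ω w)).image
    fun x => (c.rel K w t x.1, c.rel K w t x.1 * x.2)

/-- The paths of different words are edge disjoint apart from the root edge. -/
def Dis (c : Ctx G) (K l W : ℕ) (ws : Fin W → List (Step c K)) : Prop :=
  ∀ i i', i ≠ i' → ∀ t ∈ Finset.Icc 1 l, ∀ t' ∈ Finset.Icc 1 l, ∀ s ∈ Finset.Icc 1 l,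
    ∀ s' ∈ Finset.Icc 1 l, s ≠ t → s' ≠ t' → c.rel K (ws i) t s ≠ c.rel K (ws i') t' s'

/-- The system of the deletion step. -/
abbrev sysY (X : Sys G) (W : ℕ) (θ₁ θ : ℝ) : Sys G :=
  X.prod (((Sys.bern G G θ₁).pi W).prod (Sys.bern G (G × G) θ))

/-- The sprinkled word edges. -/
def zOne (c : Ctx G) (K : ℕ) (X : Sys G) (W : ℕ) (θ₁ θ : ℝ) (ws : Fin W → List (Step c K)) :
    G → Set (sysY X W θ₁ θ).Ω :=
  fun g => {p | ∃ i, pw (c.gs K) (ws i) = g ∧ p.2.1 i 1 = true}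

/-- The sprinkled `S`-edges. -/
def zTwo (c : Ctx G) (X : Sys G) (W : ℕ) (θ₁ θ : ℝ) : G → Set (sysY X W θ₁ θ).Ω :=
  fun g => {p | p.2.2 ∈ spr c g}

/-- The event `Y` for a tuple of words. -/
def yWs (c : Ctx G) (K : ℕ) (X : Sys G) (lam : X.Ω → ℤ) (W : ℕ) (θ₁ θ : ℝ) (γ : G)
    (ws : Fin W → List (Step c K)) : Set (sysY X W θ₁ θ).Ω :=
  YEv c (sysY X W θ₁ θ) (fun p => lam p.1) (fun g => zOne c K X W θ₁ θ ws g ∪ zTwo c X W θ₁ θ g) γ

/-- Probability that one word is successful for the edge at the origin. -/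
def piS (c : Ctx G) (K : ℕ) (X : Sys G) (lam : X.Ω → ℤ) (θ₁ : ℝ)
    (Cn : X.Ω → List (Step c K) → ℕ → Prop) (l : ℕ) (ω : X.Ω) : ℝ :=
  avgW l fun w => (bern G θ₁).real {σ | ∃ t ≤ l, Cc c K X lam θ₁ Cn
    (X.mv ω (c.base K w t)⁻¹, fun x => σ ((c.base K w t)⁻¹ * x)) w t}

/-- Hypotheses on the labels and the counted times used in section 5. -/
structure CnSpec (c : Ctx G) (K : ℕ) (X : Sys G) (lam : X.Ω → ℤ) (γ : c.S)
    (Cn : X.Ω → List (Step c K) → ℕ → Prop) (l m : ℕ) : Prop where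
  mlam : Measurable lam
  ainv : ∀ ω, lam (X.mv ω c.a) = lam ω
  meas : ∀ w t, MeasurableSet {ω | Cn ω w t}
  spec : ∀ ω w t, w.length = l → Cn ω w t → 1 ≤ t ∧ t ≤ l ∧ c.Ty K γ w t ∧
    cnt l (fun i => lam (X.st (c.gs K) ω w i) = LamW X (c.gs K) lam ω w) ≤ m

end

end Pool.Agent.Work.MP_01d39a_al.Ct
end

-- merged part: Pool.Agent.Work.MP_01d39a_al.Ct.Pot
section
/-!
TASK CT Pot. The potential lemma of section 4 (finite combinatorics).
For an equivalence relation `R` on `V` put `W R v = ∑ u ∈ T, ind (R v u) * wt u` and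
`Φ R = ∑ v ∈ T, wt v * min 1 (s / W R v)` (`W R v ≥ wt v > 0` on `T`). `Φ` is antitone in `R` termwise, `0 ≤ Φ R ≤ ∑ wt`.
If `R ≤ R'`, `x`, `y` are in different `R`-classes of weight `≥ s` and `R' x y`, then `Φ R ≥ Φ R' + s`: the vertices of `T` in the
two classes contribute `s + s` to `Φ R` and at most `s` to `Φ R'`. Induct on `F` by removing the `lt`-least element
(`Finset.exists_minimal`-type argument or strong induction on the cardinality), proving
`card F * s ≤ Φ R₀` for every equivalence `R₀` below all `R e`, `e ∈ F`; after removing `e₀` use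
`R₁ = EqvGen (R e₀ ∪ {(x e₀, y e₀)})`, or the relation `fun u v => ∀ e ∈ F.erase e₀, R e u v`.
-/

open MeasureTheory ProbabilityTheory Filter Topology
open scoped BigOperators ENNReal NNReal

namespace Pool.Agent.Work.MP_01d39a_al.Ct

variable {G : Type} [Group G]

theorem Pot_min {ι : Type} {lt : ι → ι → Prop} (hirr : ∀ e, ¬ lt e e)
    (htr : ∀ e e' e'', lt e e' → lt e' e'' → lt e e'') {F : Finset ι} (hF : F.Nonempty) :
    ∃ m ∈ F, ∀ e ∈ F, ¬ lt e m := by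
  induction hF using Finset.Nonempty.cons_induction with
  | singleton a => exact ⟨a, by simp, by simpa using hirr a⟩
  | cons a s ha hs ih =>
    obtain ⟨m, hm, h⟩ := ih
    by_cases h1 : lt a m
    · refine ⟨a, by simp, fun e he => ?_⟩
      rcases Finset.mem_cons.1 he with rfl | he
      · exact hirr _
      · exact fun h2 => h e he (htr _ _ _ h2 h1)
    · refine ⟨m, by simp [hm], fun e he => ?_⟩
      rcases Finset.mem_cons.1 he with rfl | he
      · exact h1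
      · exact h e he

/-- A family of pairwise disjoint large classes, as many as there are edges. -/
theorem Pot_fam {ι V : Type} (L : ι → V → Prop) (lt : ι → ι → Prop) (hirr : ∀ e, ¬ lt e e)
    (htr : ∀ e e' e'', lt e e' → lt e' e'' → lt e e'') (x y : ι → V) (R : ι → V → V → Prop)
    (F : Finset ι) (htot : ∀ e ∈ F, ∀ e' ∈ F, e ≠ e' → lt e e' ∨ lt e' e)
    (hR : ∀ e ∈ F, Equivalence (R e))
    (hmono : ∀ e ∈ F, ∀ e' ∈ F, lt e e' → (∀ u v, R e u v → R e' u v) ∧ R e' (x e) (y e))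
    (hne : ∀ e ∈ F, ¬ R e (x e) (y e)) (hx : ∀ e ∈ F, L e (x e)) (hy : ∀ e ∈ F, L e (y e)) :
    ∃ C : Finset (ι × V), C.card = F.card ∧ (∀ p ∈ C, p.1 ∈ F ∧ L p.1 p.2) ∧
      ∀ p ∈ C, ∀ q ∈ C, ∀ u, R p.1 p.2 u → R q.1 q.2 u → p = q := by
  classical
  induction hn : F.card generalizing F with
  | zero => exact ⟨∅, rfl, by simp, by simp⟩
  | succ n ih =>
    obtain ⟨m, hm, hmin⟩ := Pot_min hirr htr (Finset.card_pos.1 (by omega : 0 < F.card))
    have hs : ∀ e ∈ F.erase m, e ∈ F := fun e he => Finset.mem_of_mem_erase he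
    have hlt : ∀ e ∈ F.erase m, lt m e := fun e he =>
      (htot m hm e (hs e he) (Finset.ne_of_mem_erase he).symm).resolve_right (hmin e (hs e he))
    obtain ⟨C, hC, hL, hD⟩ := ih (F.erase m) (fun e he e' he' => htot e (hs e he) e' (hs e' he'))
      (fun e he => hR e (hs e he)) (fun e he e' he' => hmono e (hs e he) e' (hs e' he'))
      (fun e he => hne e (hs e he)) (fun e he => hx e (hs e he)) (fun e he => hy e (hs e he))
      (by rw [Finset.card_erase_of_mem hm]; omega)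
    have hnot : ∀ v, (m, v) ∉ C := fun v hv => by simpa using (hL _ hv).1
    have hup : ∀ p ∈ C, (∀ u v, R m u v → R p.1 u v) ∧ R p.1 (x m) (y m) := fun p hp =>
      hmono m hm _ (hs _ (hL p hp).1) (hlt _ (hL p hp).1)
    have hE : ∀ p ∈ C, Equivalence (R p.1) := fun p hp => hR _ (hs _ (hL p hp).1)
    have key : ∀ q ∈ C, ∀ u, R m (x m) u ∨ R m (y m) u → R q.1 q.2 u → R q.1 q.2 (x m) := by
      rintro q hq u (h | h) h'
      · exact (hE q hq).trans h' ((hE q hq).symm ((hup q hq).1 _ _ h))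
      · exact (hE q hq).trans h' ((hE q hq).symm ((hE q hq).trans (hup q hq).2
          ((hup q hq).1 _ _ h)))
    by_cases h : ∃ p ∈ C, R p.1 p.2 (x m)
    · obtain ⟨p, hp, hpx⟩ := h
      have hxy : x m ≠ y m := fun e => hne m hm (e ▸ (hR m hm).refl _)
      have k2 : ∀ q ∈ C.erase p, ∀ u, R m (x m) u ∨ R m (y m) u → ¬ R q.1 q.2 u :=
        fun q hq u h1 h2 => Finset.ne_of_mem_erase hq (hD q (Finset.mem_of_mem_erase hq) p hp _
          (key q (Finset.mem_of_mem_erase hq) u h1 h2) hpx)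
      have k3 : ∀ u, R m (x m) u → ¬ R m (y m) u := fun u h1 h2 =>
        hne m hm ((hR m hm).trans h1 ((hR m hm).symm h2))
      refine ⟨insert (m, x m) (insert (m, y m) (C.erase p)), ?_, ?_, ?_⟩
      · have := Finset.card_pos.2 ⟨p, hp⟩
        rw [Finset.card_insert_of_notMem (by simp [hxy, hnot]),
          Finset.card_insert_of_notMem (by simp [hnot]), Finset.card_erase_of_mem hp]
        omega
      · simp only [Finset.forall_mem_insert]
        exact ⟨⟨hm, hx m hm⟩, ⟨hm, hy m hm⟩, fun q hq =>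
          ⟨hs _ (hL q (Finset.mem_of_mem_erase hq)).1, (hL q (Finset.mem_of_mem_erase hq)).2⟩⟩
      · simp only [Finset.forall_mem_insert]
        exact ⟨⟨fun _ _ _ => trivial, fun u h1 h2 => (k3 u h1 h2).elim,
            fun q hq u h1 h2 => (k2 q hq u (Or.inl h1) h2).elim⟩,
          ⟨fun u h1 h2 => (k3 u h2 h1).elim, fun _ _ _ => trivial,
            fun q hq u h1 h2 => (k2 q hq u (Or.inr h1) h2).elim⟩,
          fun q hq => ⟨fun u h1 h2 => (k2 q hq u (Or.inl h2) h1).elim,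
            fun u h1 h2 => (k2 q hq u (Or.inr h2) h1).elim, fun q' hq' =>
              hD q (Finset.mem_of_mem_erase hq) q' (Finset.mem_of_mem_erase hq')⟩⟩
    · have k2 : ∀ q ∈ C, ∀ u, R m (x m) u → ¬ R q.1 q.2 u :=
        fun q hq u h1 h2 => h ⟨q, hq, key q hq u (Or.inl h1) h2⟩
      refine ⟨insert (m, x m) C, ?_, ?_, ?_⟩
      · rw [Finset.card_insert_of_notMem (hnot _), hC]
      · simp only [Finset.forall_mem_insert]
        exact ⟨⟨hm, hx m hm⟩, fun q hq => ⟨hs _ (hL q hq).1, (hL q hq).2⟩⟩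
      · simp only [Finset.forall_mem_insert]
        exact ⟨⟨fun _ _ _ => trivial, fun q hq u h1 h2 => (k2 q hq u h1 h2).elim⟩,
          fun q hq => ⟨fun u h1 h2 => (k2 q hq u h2 h1).elim, hD q hq⟩⟩

theorem pot_lemma {ι V : Type} (T : Finset V) (wt : V → ℝ) (hwt : ∀ v, 0 < wt v) {s : ℝ}
    (hs : 0 < s) (F : Finset ι) (lt : ι → ι → Prop) (hirr : ∀ e, ¬ lt e e)
    (htr : ∀ e e' e'', lt e e' → lt e' e'' → lt e e'')
    (htot : ∀ e ∈ F, ∀ e' ∈ F, e ≠ e' → lt e e' ∨ lt e' e) (x y : ι → V) (R : ι → V → V → Prop)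
    (hR : ∀ e ∈ F, Equivalence (R e))
    (hmono : ∀ e ∈ F, ∀ e' ∈ F, lt e e' → (∀ u v, R e u v → R e' u v) ∧ R e' (x e) (y e))
    (hne : ∀ e ∈ F, ¬ R e (x e) (y e))
    (hx : ∀ e ∈ F, s ≤ ∑ u ∈ T, ind (R e (x e) u) * wt u)
    (hy : ∀ e ∈ F, s ≤ ∑ u ∈ T, ind (R e (y e) u) * wt u) :
    F.card * s ≤ ∑ v ∈ T, wt v := by
  classical
  obtain ⟨C, hC, hL, hD⟩ := Pot_fam (fun e v => s ≤ ∑ u ∈ T, ind (R e v u) * wt u) lt hirr htr x y R
    F htot hR hmono hne hx hy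
  calc F.card * s = ∑ _p ∈ C, s := by rw [Finset.sum_const, nsmul_eq_mul, hC]
    _ ≤ ∑ p ∈ C, ∑ u ∈ T, ind (R p.1 p.2 u) * wt u := Finset.sum_le_sum fun p hp => (hL p hp).2
    _ = ∑ u ∈ T, (∑ p ∈ C, ind (R p.1 p.2 u)) * wt u := by
      rw [Finset.sum_comm]
      simp only [Finset.sum_mul]
    _ ≤ ∑ u ∈ T, wt u := by
      refine Finset.sum_le_sum fun u _ => mul_le_of_le_one_left (hwt u).le ?_
      by_cases h : ∃ p ∈ C, R p.1 p.2 u
      · obtain ⟨p, hp, hu⟩ := h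
        rw [Finset.sum_eq_single_of_mem p hp fun q hq hqp =>
          ind_neg fun h => hqp (hD q hq p hp u h hu)]
        exact ind_le_one _
      · rw [Finset.sum_eq_zero fun q hq => ind_neg fun h' => h ⟨q, hq, h'⟩]
        exact zero_le_one

end Pool.Agent.Work.MP_01d39a_al.Ct
end

-- merged part: Pool.Agent.Work.MP_01d39a_al.Ct.Cn1
section
/-!
TASK CT Cn1. Edges that are neither deleted, nor locally tied, nor large-large are pendant (items (ii), (iii) of section 4).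
Let `e ∈ B` with `¬ DelB o e` (so its ends are in different `Lo e` classes), `¬ LL e`: one end `v` has `Wt < s0`. All vertices of
that class (they lie in `VB`) have degree `≤ D0` and there are fewer than `s0` of them. Every vertex `u` of the class is incident
to an edge `e'` with `Chain s0 e e'` (breadth first search: the sets of vertices reached in `k` steps grow strictly until they
fill the class), so any other edge of level `Λ e` incident to the class gives `LT e`. Hence `e` is pendant: the only edge of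
its level incident to the class of `v`. Count pendant edges with `pot_lemma`: `wt = 1`, `s = 1`, `T = VB`,
`lt e e' := Λ e < Λ e' ∨ (Λ e = Λ e' ∧ r e < r e')`, `R e = Rel (lower level, or same level pendant with smaller rank)`.
-/

open MeasureTheory ProbabilityTheory Filter Topology
open scoped BigOperators ENNReal NNReal

namespace Pool.Agent.Work.MP_01d39a_al.Ct

variable {G : Type} [Group G]

variable {ι V : Type} (Γ : Gr ι V)

namespace Gr

theorem Cn1_equiv (P : ι → Prop) : Equivalence (Γ.Rel P) := Relation.EqvGen.is_equivalence _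

theorem Cn1_edge {P : ι → Prop} {e : ι} (he : e ∈ Γ.B) (hP : P e) : Γ.Rel P (Γ.e1 e) (Γ.e2 e) :=
  Relation.EqvGen.rel _ _ ⟨e, he, hP, rfl, rfl⟩

theorem Cn1_ind {P : ι → Prop} {s : V → V → Prop} (hs : Equivalence s)
    (h : ∀ e ∈ Γ.B, P e → s (Γ.e1 e) (Γ.e2 e)) {u v : V} (huv : Γ.Rel P u v) : s u v := by
  refine eqvGen_map id hs ?_ huv
  rintro _ _ ⟨e, he, hP, rfl, rfl⟩
  exact h e he hP

theorem Cn1_mono {P Q : ι → Prop} (h : ∀ e, P e → Q e) {u v : V} (huv : Γ.Rel P u v) :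
    Γ.Rel Q u v :=
  Γ.Cn1_ind (Γ.Cn1_equiv Q) (fun e he hP => Γ.Cn1_edge he (h e hP)) huv

theorem Cn1_iff (S : V → Prop) : Equivalence fun u v => S u ↔ S v :=
  ⟨fun _ => Iff.rfl, Iff.symm, Iff.trans⟩

theorem Cn1_memV {e : ι} (he : e ∈ Γ.B) {v : V} (hv : v = Γ.e1 e ∨ v = Γ.e2 e) : v ∈ Γ.VB := by
  classical
  unfold VB
  rcases hv with rfl | rfl
  · exact Finset.mem_union.2 (Or.inl (Finset.mem_image.2 ⟨e, he, rfl⟩))
  · exact Finset.mem_union.2 (Or.inr (Finset.mem_image.2 ⟨e, he, rfl⟩))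

theorem Cn1_wt_nonneg (v : V) : 0 ≤ Γ.wt v := by
  unfold wt
  split_ifs <;> positivity

theorem Cn1_deg {R : V → V → Prop} {v u : V} (h : Γ.Wt R v < Γ.s0) (hu : u ∈ Γ.VB) (huv : R v u) :
    Γ.deg u ≤ Γ.D0 := by
  by_contra hn
  have h1 : ind (R v u) * Γ.wt u ≤ Γ.Wt R v :=
    Finset.single_le_sum (f := fun u => ind (R v u) * Γ.wt u)
      (fun u _ => mul_nonneg (ind_nonneg _) (Γ.Cn1_wt_nonneg u)) hu
  rw [ind_pos huv, one_mul, wt, if_pos (not_le.1 hn)] at h1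
  exact absurd h (not_lt.2 h1)

theorem Cn1_card {R : V → V → Prop} {v : V} (h : Γ.Wt R v < Γ.s0) {S : Finset V}
    (hS : ∀ u ∈ S, u ∈ Γ.VB ∧ R v u) : S.card < Γ.s0 := by
  have h1 : (S.card : ℝ) ≤ Γ.Wt R v := by
    calc (S.card : ℝ) = ∑ u ∈ S, ind (R v u) * Γ.wt u := by
          rw [Finset.card_eq_sum_ones, Nat.cast_sum]
          refine Finset.sum_congr rfl fun u hu => ?_
          rw [ind_pos (hS u hu).2, wt, if_neg (not_lt.2 (Γ.Cn1_deg h (hS u hu).1 (hS u hu).2))]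
          simp
      _ ≤ _ := Finset.sum_le_sum_of_subset_of_nonneg (fun u hu => (hS u hu).1)
          fun u _ _ => mul_nonneg (ind_nonneg _) (Γ.Cn1_wt_nonneg u)
  exact_mod_cast h1.trans_lt h

open Classical in
/-- The vertices of the class of `v` reached in `k` hops. -/
noncomputable def Cn1_S (e : ι) (v : V) (k : ℕ) : Finset V :=
  Γ.VB.filter fun u => Γ.Lo e v u ∧ ∃ e', (u = Γ.e1 e' ∨ u = Γ.e2 e') ∧ Γ.Chain k e e'

theorem Cn1_mem {e : ι} {v u : V} {k : ℕ} : u ∈ Γ.Cn1_S e v k ↔ u ∈ Γ.VB ∧ Γ.Lo e v u ∧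
    ∃ e', (u = Γ.e1 e' ∨ u = Γ.e2 e') ∧ Γ.Chain k e e' := by
  classical
  unfold Cn1_S
  convert Finset.mem_filter

theorem Cn1_sub {e : ι} {v : V} (k : ℕ) : Γ.Cn1_S e v k ⊆ Γ.Cn1_S e v (k + 1) := fun u hu => by
  obtain ⟨h1, h2, e', h3, h4⟩ := Γ.Cn1_mem.1 hu
  exact Γ.Cn1_mem.2 ⟨h1, h2, e', h3, Or.inl h4⟩

theorem Cn1_hop {e f : ι} {v u : V} {k : ℕ} (h : Γ.Wt (Γ.Lo e) v < Γ.s0) (hu : u ∈ Γ.Cn1_S e v k)
    (hf : f ∈ Γ.B) (huf : u = Γ.e1 f ∨ u = Γ.e2 f) : Γ.Chain (k + 1) e f := by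
  obtain ⟨h1, h2, e', h3, h4⟩ := Γ.Cn1_mem.1 hu
  exact Or.inr ⟨e', h4, hf, u, h3, huf, Γ.Cn1_deg h h1 h2⟩

theorem Cn1_bfs {e : ι} (he : e ∈ Γ.B) {v : V} (hv : v = Γ.e1 e ∨ v = Γ.e2 e)
    (h : Γ.Wt (Γ.Lo e) v < Γ.s0) (k : ℕ) : v ∈ Γ.Cn1_S e v k ∧
      ((∀ u, Γ.Lo e v u → u ∈ Γ.Cn1_S e v k) ∨ k + 1 ≤ (Γ.Cn1_S e v k).card) := by
  induction k with
  | zero =>
    have h0 : v ∈ Γ.Cn1_S e v 0 :=
      Γ.Cn1_mem.2 ⟨Γ.Cn1_memV he hv, (Γ.Cn1_equiv _).refl v, e, hv, rfl⟩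
    exact ⟨h0, Or.inr (Finset.card_pos.2 ⟨v, h0⟩)⟩
  | succ k ih =>
    refine ⟨Γ.Cn1_sub k ih.1, ?_⟩
    rcases ih.2 with h1 | h1
    · exact Or.inl fun u hu => Γ.Cn1_sub k (h1 u hu)
    by_cases h2 : Γ.Cn1_S e v (k + 1) ⊆ Γ.Cn1_S e v k
    · refine Or.inl fun u hu => Γ.Cn1_sub k ?_
      refine (Γ.Cn1_ind (Cn1_iff fun u => u ∈ Γ.Cn1_S e v k) (fun f hf hP => ?_) hu).1 ih.1
      have h3 : Γ.Lo e (Γ.e1 f) (Γ.e2 f) := Γ.Cn1_edge hf hP
      refine ⟨fun h4 => h2 (Γ.Cn1_mem.2 ⟨Γ.Cn1_memV hf (Or.inr rfl), ?_, f, Or.inr rfl,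
        Γ.Cn1_hop h h4 hf (Or.inl rfl)⟩), fun h4 => h2 (Γ.Cn1_mem.2 ⟨Γ.Cn1_memV hf (Or.inl rfl),
        ?_, f, Or.inl rfl, Γ.Cn1_hop h h4 hf (Or.inr rfl)⟩)⟩
      · exact (Γ.Cn1_equiv _).trans (Γ.Cn1_mem.1 h4).2.1 h3
      · exact (Γ.Cn1_equiv _).trans (Γ.Cn1_mem.1 h4).2.1 ((Γ.Cn1_equiv _).symm h3)
    · exact Or.inr (h1.trans_lt (Finset.card_lt_card ⟨Γ.Cn1_sub k, h2⟩))

/-- Pendant edges. -/
def Cn1_Pend (e : ι) : Prop :=
  ¬ Γ.Lo e (Γ.e1 e) (Γ.e2 e) ∧ ∃ v, (v = Γ.e1 e ∨ v = Γ.e2 e) ∧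
    ∀ f ∈ Γ.B, f ≠ e → Γ.Λ f = Γ.Λ e → ¬ Γ.Lo e v (Γ.e1 f) ∧ ¬ Γ.Lo e v (Γ.e2 f)

theorem Cn1_pend {o : ι → Prop} {e : ι} (he : e ∈ Γ.B)
    (h : ¬ Γ.DelB o e ∧ ¬ Γ.LT e ∧ ¬ Γ.LL e) : Γ.Cn1_Pend e := by
  obtain ⟨h1, h2, h3⟩ := h
  refine ⟨fun k => h1 (Γ.Cn1_mono (fun _ => Or.inl) k), ?_⟩
  obtain ⟨v, hv, hw⟩ : ∃ v, (v = Γ.e1 e ∨ v = Γ.e2 e) ∧ Γ.Wt (Γ.Lo e) v < Γ.s0 := by
    rcases not_and_or.1 h3 with k | k
    · exact ⟨_, Or.inl rfl, not_le.1 k⟩
    · exact ⟨_, Or.inr rfl, not_le.1 k⟩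
  have h4 : ∀ u, Γ.Lo e v u → u ∈ Γ.Cn1_S e v Γ.s0 := by
    refine (Γ.Cn1_bfs he hv hw Γ.s0).2.resolve_right fun k => ?_
    have := Γ.Cn1_card hw (S := Γ.Cn1_S e v Γ.s0) fun u hu =>
      ⟨(Γ.Cn1_mem.1 hu).1, (Γ.Cn1_mem.1 hu).2.1⟩
    omega
  exact ⟨v, hv, fun f hf hne hΛ =>
    ⟨fun k => h2 ⟨f, hf, hne, hΛ, Γ.Cn1_hop hw (h4 _ k) hf (Or.inl rfl)⟩,
      fun k => h2 ⟨f, hf, hne, hΛ, Γ.Cn1_hop hw (h4 _ k) hf (Or.inr rfl)⟩⟩⟩

theorem Cn1_one {R : V → V → Prop} {v : V} (hv : v ∈ Γ.VB) (hR : R v v) :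
    (1 : ℝ) ≤ ∑ u ∈ Γ.VB, ind (R v u) * 1 := by
  have := Finset.single_le_sum (f := fun u => ind (R v u) * (1 : ℝ))
    (fun u _ => mul_nonneg (ind_nonneg _) zero_le_one) hv
  rwa [ind_pos hR, one_mul] at this

theorem count_pendant (hr : ∀ e ∈ Γ.B, ∀ e' ∈ Γ.B, Γ.r e = Γ.r e' → e = e') (o : ι → Prop) :
    ∑ e ∈ Γ.B, ind (¬ Γ.DelB o e ∧ ¬ Γ.LT e ∧ ¬ Γ.LL e) ≤ Γ.VB.card := by
  classical
  have h1 := pot_lemma Γ.VB (fun _ => 1) (fun _ => one_pos) one_pos (Γ.B.filter Γ.Cn1_Pend)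
    (fun e e' => Γ.Λ e < Γ.Λ e' ∨ (Γ.Λ e = Γ.Λ e' ∧ Γ.r e < Γ.r e')) (fun e => by omega)
    (fun e e' e'' => by omega) (fun e he e' he' hne => by
      have := mt (hr e (Finset.mem_filter.1 he).1 e' (Finset.mem_filter.1 he').1) hne
      omega) Γ.e1 Γ.e2
    (fun e => Γ.Rel fun e' => Γ.Λ e' < Γ.Λ e ∨ (Γ.Λ e' = Γ.Λ e ∧ Γ.r e' < Γ.r e))
    (fun e _ => Γ.Cn1_equiv _)
    (fun e he e' _ hlt => ⟨fun u v => Γ.Cn1_mono fun f => by omega,
      Γ.Cn1_edge (Finset.mem_filter.1 he).1 hlt⟩)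
    (fun e he k => by
      obtain ⟨h2, v, hv, h3⟩ := (Finset.mem_filter.1 he).2
      have h4 := Γ.Cn1_ind (Cn1_iff fun u => Γ.Lo e v u) (fun f hf hP => by
        rcases hP with hP | hP
        · have h5 : Γ.Lo e (Γ.e1 f) (Γ.e2 f) := Γ.Cn1_edge hf hP
          exact ⟨fun h6 => (Γ.Cn1_equiv _).trans h6 h5,
            fun h6 => (Γ.Cn1_equiv _).trans h6 ((Γ.Cn1_equiv _).symm h5)⟩
        · have h5 := h3 f hf (fun e' => absurd hP.2 (e' ▸ lt_irrefl _)) hP.1
          exact iff_of_false h5.1 h5.2) k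
      rcases hv with rfl | rfl
      · exact h2 (h4.1 ((Γ.Cn1_equiv _).refl _))
      · exact h2 ((Γ.Cn1_equiv _).symm (h4.2 ((Γ.Cn1_equiv _).refl _))))
    (fun e he => Γ.Cn1_one (Γ.Cn1_memV (Finset.mem_filter.1 he).1 (Or.inl rfl))
      ((Γ.Cn1_equiv _).refl _))
    (fun e he => Γ.Cn1_one (Γ.Cn1_memV (Finset.mem_filter.1 he).1 (Or.inr rfl))
      ((Γ.Cn1_equiv _).refl _))
  rw [mul_one, Finset.sum_const, nsmul_eq_mul, mul_one] at h1
  refine le_trans ?_ h1
  rw [Finset.card_filter, Nat.cast_sum]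
  refine Finset.sum_le_sum fun e he => (ind_mono (Γ.Cn1_pend he)).trans (le_of_eq ?_)
  by_cases h : Γ.Cn1_Pend e <;> simp [ind, h]

end Gr

end Pool.Agent.Work.MP_01d39a_al.Ct
end

-- merged part: Pool.Agent.Work.MP_01d39a_al.Ct.Cn2
section
/-!
TASK CT Cn2. Item (iv) of section 4 and the size of neighbourhoods.
count_useful: `pot_lemma` with `F` = large-large, useful, open edges, `R e` = the relation in `Use`, `wt = Γ.wt`, `s = s0`;
total weight `≤ |VB| + s0 * #{deg > D0}` and `D0 * #{v ∈ VB | deg v > D0} ≤ ∑ deg ≤ 2 |B|` (double counting).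
count_chain: induction on `k`; an edge has at most `2 D0` hops.
-/

open MeasureTheory ProbabilityTheory Filter Topology
open scoped BigOperators ENNReal NNReal

namespace Pool.Agent.Work.MP_01d39a_al.Ct

variable {G : Type} [Group G]

variable {ι V : Type} (Γ : Gr ι V)

namespace Gr

theorem Cn2_mono {P Q : ι → Prop} (h : ∀ e ∈ Γ.B, P e → Q e) {u v : V} (huv : Γ.Rel P u v) :
    Γ.Rel Q u v :=
  eqvGen_map id (Relation.EqvGen.is_equivalence _)
    (fun _ _ ⟨e, h1, h2, h3⟩ => Relation.EqvGen.rel _ _ ⟨e, h1, h e h1 h2, h3⟩) huv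

theorem Cn2_ind (s : Finset ι) (p : ι → Prop) [DecidablePred p] :
    ∑ e ∈ s, ind (p e) = (s.filter p).card := by
  rw [Finset.card_filter, Nat.cast_sum]
  exact Finset.sum_congr rfl fun e _ => by unfold ind; split_ifs <;> simp

theorem Cn2_deg : ∑ v ∈ Γ.VB, Γ.deg v ≤ 2 * Γ.B.card := by
  classical
  simp only [deg, Finset.card_filter]
  rw [Finset.sum_comm, mul_comm, ← smul_eq_mul]
  refine Finset.sum_le_card_nsmul _ _ _ fun e _ => ?_
  rw [← Finset.card_filter]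
  refine (Finset.card_le_card fun v hv => ?_).trans (Finset.card_le_two (a := Γ.e1 e) (b := Γ.e2 e))
  simpa [eq_comm] using (Finset.mem_filter.1 hv).2

theorem Cn2_hop (e : ι) : ∃ H : Finset ι, H.card ≤ 2 * Γ.D0 ∧ ∀ e', Γ.Hop e e' → e' ∈ H := by
  classical
  have h : ∀ v, ∃ N : Finset ι, N.card ≤ Γ.D0 ∧
      ∀ e' ∈ Γ.B, v = Γ.e1 e' ∨ v = Γ.e2 e' → Γ.deg v ≤ Γ.D0 → e' ∈ N := fun v => by
    by_cases h : Γ.deg v ≤ Γ.D0
    · refine ⟨_, h, fun e' h1 h2 _ => ?_⟩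
      simpa [h1, eq_comm] using h2
    · exact ⟨∅, Nat.zero_le _, fun _ _ _ h' => absurd h' h⟩
  obtain ⟨N, h1, h2⟩ := h (Γ.e1 e)
  obtain ⟨N', h1', h2'⟩ := h (Γ.e2 e)
  refine ⟨N ∪ N', (Finset.card_union_le _ _).trans (by omega), ?_⟩
  rintro e' ⟨h3, v, rfl | rfl, h4, h5⟩
  · exact Finset.mem_union_left _ (h2 e' h3 h4 h5)
  · exact Finset.mem_union_right _ (h2' e' h3 h4 h5)

theorem Cn2_chain (k : ℕ) (e : ι) :
    ∃ C : Finset ι, C.card ≤ (2 * Γ.D0 + 1) ^ k ∧ ∀ e', Γ.Chain k e e' → e' ∈ C := by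
  classical
  induction k with
  | zero => exact ⟨{e}, by simp, fun e' h => Finset.mem_singleton.2 h⟩
  | succ k ih =>
    obtain ⟨C, h1, h2⟩ := ih
    choose H h3 h4 using Γ.Cn2_hop
    refine ⟨C ∪ C.biUnion H, (Finset.card_union_le _ _).trans ?_, ?_⟩
    · have h5 := Finset.card_biUnion_le_card_mul C H _ fun e _ => h3 e
      have h6 := Nat.mul_le_mul_right (2 * Γ.D0 + 1) h1
      rw [pow_succ]
      linarith
    · rintro e' (h | ⟨e'', h, h'⟩)
      · exact Finset.mem_union_left _ (h2 e' h)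
      · exact Finset.mem_union_right _ (Finset.mem_biUnion.2 ⟨e'', h2 _ h, h4 _ _ h'⟩)

theorem use_of_not_del {o : ι → Prop} {e : ι} (h : ¬ Γ.DelB o e) : Γ.Use o e := by
  exact fun h' => h (Γ.Cn2_mono (fun _ _ h => h.imp_right fun h => h.2.2) h')

theorem use_congr {o o' : ι → Prop} {e : ι} (h : ∀ e' ∈ Γ.B, e' ≠ e → (o e' ↔ o' e')) :
    Γ.Use o e ↔ Γ.Use o' e := by
  refine not_congr ⟨Γ.Cn2_mono fun e' h1 h2 => h2.imp_right fun h2 => ⟨h2.1, h2.2.1, ?_⟩,
    Γ.Cn2_mono fun e' h1 h2 => h2.imp_right fun h2 => ⟨h2.1, h2.2.1, ?_⟩⟩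
  · exact (h e' h1 fun e => h2.2.1.ne (by rw [e])).1 h2.2.2
  · exact (h e' h1 fun e => h2.2.1.ne (by rw [e])).2 h2.2.2

theorem count_useful (hr : ∀ e ∈ Γ.B, ∀ e' ∈ Γ.B, Γ.r e = Γ.r e' → e = e') (hs : 1 ≤ Γ.s0)
    (hD : 1 ≤ Γ.D0) (o : ι → Prop) :
    Γ.s0 * ∑ e ∈ Γ.B, ind (Γ.LL e ∧ Γ.Use o e ∧ o e) ≤
      Γ.VB.card + Γ.s0 * (2 * Γ.B.card / Γ.D0) := by
  classical
  have hs' : (1 : ℝ) ≤ Γ.s0 := by exact_mod_cast hs
  have hD' : (0 : ℝ) < Γ.D0 := by exact_mod_cast hD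
  have hw : ∀ v, 0 < Γ.wt v := fun v => by unfold wt; split_ifs <;> linarith
  have hW : ∀ e v, Γ.Wt (Γ.Lo e) v ≤ ∑ u ∈ Γ.VB, ind (Γ.Rel (fun e' => Γ.Λ e' < Γ.Λ e ∨
      (Γ.Λ e' = Γ.Λ e ∧ Γ.r e' < Γ.r e ∧ o e')) v u) * Γ.wt u := fun e v =>
    Finset.sum_le_sum fun u _ => mul_le_mul_of_nonneg_right
      (ind_mono (Γ.Cn2_mono fun _ _ => Or.inl)) (hw u).le
  have h1 := pot_lemma Γ.VB Γ.wt hw (zero_lt_one.trans_le hs')
    (Γ.B.filter fun e => Γ.LL e ∧ Γ.Use o e ∧ o e)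
    (fun e e' => Γ.Λ e < Γ.Λ e' ∨ (Γ.Λ e = Γ.Λ e' ∧ Γ.r e < Γ.r e')) (fun e => by omega)
    (fun e e' e'' => by omega)
    (fun e he e' he' hne => by
      have := mt (hr e (Finset.mem_filter.1 he).1 e' (Finset.mem_filter.1 he').1) hne
      omega) Γ.e1 Γ.e2
    (fun e => Γ.Rel fun e' => Γ.Λ e' < Γ.Λ e ∨ (Γ.Λ e' = Γ.Λ e ∧ Γ.r e' < Γ.r e ∧ o e'))
    (fun _ _ => Relation.EqvGen.is_equivalence _)
    (fun e he e' _ h => ⟨fun u v => Γ.Cn2_mono fun e'' _ h' => by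
        rcases h' with h' | ⟨h1, h2, h3⟩
        · exact Or.inl (by omega)
        · exact h.imp (fun _ => by omega) fun _ => ⟨by omega, by omega, h3⟩,
      Relation.EqvGen.rel _ _ ⟨e, (Finset.mem_filter.1 he).1,
        h.imp_right fun h => ⟨h.1, h.2, (Finset.mem_filter.1 he).2.2.2⟩, rfl, rfl⟩⟩)
    (fun e he => (Finset.mem_filter.1 he).2.2.1)
    (fun e he => (Finset.mem_filter.1 he).2.1.1.trans (hW e _))
    (fun e he => (Finset.mem_filter.1 he).2.1.2.trans (hW e _))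
  have h2 : ∀ v, Γ.wt v ≤ 1 + Γ.s0 * (Γ.deg v / Γ.D0) := fun v => by
    unfold wt
    split_ifs with h
    · have h3 : (1 : ℝ) ≤ Γ.deg v / Γ.D0 := (one_le_div hD').2 (by exact_mod_cast h.le)
      nlinarith
    · exact le_add_of_nonneg_right (by positivity)
  have h3 : ∑ v ∈ Γ.VB, (Γ.deg v : ℝ) ≤ 2 * Γ.B.card := by exact_mod_cast Γ.Cn2_deg
  rw [Cn2_ind, mul_comm]
  refine (h1.trans (Finset.sum_le_sum fun v _ => h2 v)).trans ?_
  rw [Finset.sum_add_distrib, ← Finset.mul_sum, ← Finset.sum_div, Finset.sum_const, nsmul_eq_mul,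
    mul_one]
  gcongr

theorem count_chain (k : ℕ) (e : ι) :
    ∑ e' ∈ Γ.B, ind (Γ.Chain k e e') ≤ (2 * Γ.D0 + 1 : ℝ) ^ k := by
  classical
  obtain ⟨C, h1, h2⟩ := Γ.Cn2_chain k e
  rw [Cn2_ind]
  exact_mod_cast (Finset.card_le_card fun e' h => h2 e' (Finset.mem_filter.1 h).2).trans h1

end Gr

end Pool.Agent.Work.MP_01d39a_al.Ct
end

-- merged part: Pool.Agent.Work.MP_01d39a_al.Ct.DBa
section
/-!
TASK CT DBa. Group theoretic and measure theoretic preparations for the deletion bound (section 4).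
alt_of_chain: in the coset graph a hop multiplies on the right by a power of `α` or `β` (`QuotientGroup.eq`,
`Subgroup.mem_zpowers_iff`); a product of at most `k` such powers is `1` or an `Alt` product with at most `k` factors
(build it by multiplying on the LEFT and merging equal sides; for the chain either induct from the other end or prove the
statement for `e'⁻¹ e`-free lists: `e⁻¹ e' = f₁ ⋯ f_k` with each `f_i` in `zpowers α ∪ zpowers β`).
con_path: the path of `w` from `x` uses `a`-moves and `S`-edges whose labels are at most `LamW` (`ainv`, `mv_zpow_of_ainv`,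
`pw_take_succ`, `Finset.le_sup'`); induction on the length of the initial word.
-/

open MeasureTheory ProbabilityTheory Filter Topology
open scoped BigOperators ENNReal NNReal

namespace Pool.Agent.Work.MP_01d39a_al.Ct

variable {G : Type} [Group G]

/-- The coset graph of a configuration. -/
noncomputable def cosetGr (α β : G) (B : Finset G) (Λ : G → ℤ) (r : G → ℕ) (D0 s0 : ℕ) :
    Gr G ((G ⧸ Subgroup.zpowers α) ⊕ (G ⧸ Subgroup.zpowers β)) :=
  ⟨B, fun x => Sum.inl (QuotientGroup.mk x), fun x => Sum.inr (QuotientGroup.mk x), Λ, r, D0, s0⟩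

theorem DBa_left {α β : G} (b : Bool) (m : ℤ) {k : ℕ} {q : G}
    (h : q = 1 ∨ ∃ (b' : Bool) (j : ℕ), j ≤ k ∧ Alt α β b' j q) :
    (if b then α else β) ^ m * q = 1 ∨
      ∃ (b' : Bool) (j : ℕ), j ≤ k + 1 ∧ Alt α β b' j ((if b then α else β) ^ m * q) := by
  by_cases hm : m = 0
  · subst hm
    rw [zpow_zero, one_mul]
    rcases h with h | ⟨b', j, hj, h⟩
    · exact Or.inl h
    · exact Or.inr ⟨b', j, by omega, h⟩
  rcases h with rfl | ⟨b', j, hj, h⟩
  · rw [mul_one]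
    exact Or.inr ⟨b, 1, by omega, Alt.one b m hm⟩
  by_cases hb : b' = b
  · subst hb
    cases h with
    | one _ k' hk' =>
      rw [← zpow_add]
      by_cases h0 : m + k' = 0
      · rw [h0, zpow_zero]; exact Or.inl rfl
      · exact Or.inr ⟨b', 1, by omega, Alt.one b' _ h0⟩
    | cons _ j' k' q' hk' h' =>
      rw [← mul_assoc, ← zpow_add]
      by_cases h0 : m + k' = 0
      · rw [h0, zpow_zero, one_mul]
        exact Or.inr ⟨!b', j', by omega, h'⟩
      · exact Or.inr ⟨b', j' + 1, by omega, Alt.cons b' j' _ q' h0 h'⟩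
  · have hb' : b' = !b := by cases b <;> cases b' <;> simp_all
    subst hb'
    exact Or.inr ⟨b, j + 1, by omega, Alt.cons b j m q hm h⟩

theorem DBa_list {α β : G} (l : List (Bool × ℤ)) :
    (l.map fun x => (if x.1 then α else β) ^ x.2).prod = 1 ∨
      ∃ (b : Bool) (j : ℕ), j ≤ l.length ∧
        Alt α β b j (l.map fun x => (if x.1 then α else β) ^ x.2).prod := by
  induction l with
  | nil => exact Or.inl (by simp)
  | cons x l ih =>
    rw [List.map_cons, List.prod_cons, List.length_cons]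
    exact DBa_left x.1 x.2 ih

theorem DBa_hop {α β : G} {B : Finset G} {Λ : G → ℤ} {r : G → ℕ} {D0 s0 : ℕ} {e e' : G}
    (h : (cosetGr α β B Λ r D0 s0).Hop e e') :
    ∃ x : Bool × ℤ, e⁻¹ * e' = (if x.1 then α else β) ^ x.2 := by
  obtain ⟨-, v, h1, h2, -⟩ := h
  simp only [cosetGr] at h1 h2
  rcases h1 with rfl | rfl <;> rcases h2 with h2 | h2
  · obtain ⟨m, hm⟩ := Subgroup.mem_zpowers_iff.1 (QuotientGroup.eq.1 (Sum.inl.inj h2))
    exact ⟨(true, m), by simpa using hm.symm⟩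
  · cases h2
  · cases h2
  · obtain ⟨m, hm⟩ := Subgroup.mem_zpowers_iff.1 (QuotientGroup.eq.1 (Sum.inr.inj h2))
    exact ⟨(false, m), by simpa using hm.symm⟩

theorem DBa_chain {α β : G} {B : Finset G} {Λ : G → ℤ} {r : G → ℕ} {D0 s0 : ℕ} (k : ℕ) {e e' : G}
    (h : (cosetGr α β B Λ r D0 s0).Chain k e e') :
    ∃ l : List (Bool × ℤ), l.length ≤ k ∧
      e⁻¹ * e' = (l.map fun x => (if x.1 then α else β) ^ x.2).prod := by
  induction k generalizing e' with
  | zero =>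
    obtain rfl : e' = e := h
    exact ⟨[], le_rfl, by simp⟩
  | succ k ih =>
    rcases h with h | ⟨e'', h, hh⟩
    · obtain ⟨l, hl, he⟩ := ih h
      exact ⟨l, by omega, he⟩
    · obtain ⟨l, hl, he⟩ := ih h
      obtain ⟨x, hx⟩ := DBa_hop hh
      refine ⟨l ++ [x], by simpa using hl, ?_⟩
      rw [List.map_append, List.prod_append, ← he, List.map_singleton, List.prod_singleton, ← hx]
      group

theorem alt_of_chain {α β : G} {B : Finset G} {Λ : G → ℤ} {r : G → ℕ} {D0 s0 k : ℕ} {e e' : G}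
    (h : (cosetGr α β B Λ r D0 s0).Chain k e e') (hne : e' ≠ e) :
    ∃ (b : Bool) (j : ℕ), j ≤ k ∧ Alt α β b j (e⁻¹ * e') := by
  obtain ⟨l, hl, he⟩ := DBa_chain k h
  rcases DBa_list (α := α) (β := β) l with h1 | ⟨b, j, hj, h1⟩
  · rw [← he, inv_mul_eq_one] at h1
    exact absurd h1.symm hne
  · exact ⟨b, j, hj.trans hl, he ▸ h1⟩

theorem chain_indep {α β : G} {B : Finset G} (Λ Λ' : G → ℤ) {r : G → ℕ} {D0 s0 : ℕ} (k : ℕ)
    (e e' : G) : (cosetGr α β B Λ r D0 s0).Chain k e e' ↔ (cosetGr α β B Λ' r D0 s0).Chain k e e' := by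
  induction k generalizing e' with
  | zero => exact Iff.rfl
  | succ k ih =>
    exact or_congr (ih e') (exists_congr fun e'' => and_congr (ih e'') Iff.rfl)

open Classical in
theorem card_VB (α β : G) (B : Finset G) (Λ : G → ℤ) (r : G → ℕ) (D0 s0 : ℕ) :
    (cosetGr α β B Λ r D0 s0).VB.card =
      (B.image (QuotientGroup.mk : G → G ⧸ Subgroup.zpowers α)).card +
        (B.image (QuotientGroup.mk : G → G ⧸ Subgroup.zpowers β)).card := by
  rw [← Finset.card_disjSum]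
  congr 1
  ext v
  rcases v with v | v <;> simp [Gr.VB, cosetGr]

theorem measurable_LamW (X : Sys G) {σ : Type} (g : σ → G) {lam : X.Ω → ℤ} (hm : Measurable lam)
    (w : List σ) : Measurable fun ω => LamW X g lam ω w :=
  Finset.measurable_range_sup'' (f := fun i ω => lam (X.st g ω w i))
    fun i _ => hm.comp (measurable_st X w i)

theorem meas_Zlow (c : Ctx G) (X : Sys G) {lam : X.Ω → ℤ} (hm : Measurable lam) (Λ : ℤ) :
    Meas X (Zlow c X lam Λ) := by
  intro g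
  by_cases hg : g ∈ c.S
  · have : Zlow c X lam Λ g = {ω | max (lam ω) (lam (X.mv ω g)) < Λ} := by
      ext ω; simp [Zlow, hg]
    rw [this]
    exact measurableSet_lt (hm.max (hm.comp (X.meas_mv g))) measurable_const
  · have : Zlow c X lam Λ g = ∅ := by
      ext ω; simp [Zlow, hg]
    rw [this]
    exact MeasurableSet.empty

theorem DBa_diag {Ω : Type} [MeasurableSpace Ω] {L : Ω → ℤ} (hL : Measurable L)
    {E : ℤ → Ω → Prop} (hE : ∀ n, MeasurableSet {ω | E n ω}) :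
    MeasurableSet {ω | E (L ω) ω} := by
  have : {ω | E (L ω) ω} = ⋃ n : ℤ, L ⁻¹' {n} ∩ {ω | E n ω} := by
    ext ω; simp
  rw [this]
  exact MeasurableSet.iUnion fun n => (hL (measurableSet_singleton n)).inter (hE n)

theorem ms_Del [Countable G] (c : Ctx G) (K : ℕ) (X : Sys G) {lam : X.Ω → ℤ} (hm : Measurable lam)
    (θ₁ : ℝ) (w : List (Step c K)) : MeasurableSet {p | Del c K X lam θ₁ w p} := by
  refine DBa_diag (L := fun p : X.Ω × (G → Bool) => LamW X (c.gs K) lam p.1 w)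
    ((measurable_LamW X (c.gs K) hm w).comp measurable_fst)
    (E := fun n p => Con (X.prod (Sys.bern G G θ₁)) c.a
      (fun g => {q | q.1 ∈ Zlow c X lam n g ∨ (g = pw (c.gs K) w ∧ q.2 1 = true)}) p 1
        (pw (c.gs K) w)) fun n => ?_
  refine measurableSet_con (X := X.prod (Sys.bern G G θ₁)) (fun g => ?_) _ _
  refine MeasurableSet.union (measurable_fst (meas_Zlow c X hm n g)) ?_
  refine MeasurableSet.inter (MeasurableSet.const _) ?_
  have hq : Measurable fun q : X.Ω × (G → Bool) => q.2 1 := by fun_prop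
  exact hq (measurableSet_singleton true)

theorem ms_YEv [Countable G] (c : Ctx G) (X : Sys G) {lam : X.Ω → ℤ} (hm : Measurable lam)
    {Z : G → Set X.Ω} (hZ : Meas X Z) (γ : G) : MeasurableSet (YEv c X lam Z γ) := by
  refine DBa_diag (L := fun ω => max (lam ω) (lam (X.mv ω γ))) (hm.max (hm.comp (X.meas_mv γ)))
    (E := fun n ω => Con X c.a (fun g => Z g ∪ Zlow c X lam n g) ω 1 γ) fun n => ?_
  exact measurableSet_con (fun g => (hZ g).union (meas_Zlow c X hm n g)) _ _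

theorem DBa_le_LamW (X : Sys G) {σ : Type} (g : σ → G) (lam : X.Ω → ℤ) (ω : X.Ω) (w : List σ)
    {i : ℕ} (hi : i ≤ w.length) : lam (X.st g ω w i) ≤ LamW X g lam ω w :=
  Finset.le_sup' (fun i => lam (X.st g ω w i)) (Finset.mem_range.2 (Nat.lt_succ_of_le hi))

theorem DBa_step (c : Ctx G) (K : ℕ) (X : Sys G) {lam : X.Ω → ℤ}
    (ha : ∀ ω, lam (X.mv ω c.a) = lam ω) (s : Step c K) (ω : X.Ω) (y : G) {Λ : ℤ}
    (h1 : lam (X.mv ω y) < Λ) (h2 : lam (X.mv ω (y * c.gs K s)) < Λ) :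
    Con X c.a (Zlow c X lam Λ) ω y (y * c.gs K s) := by
  rcases s with ⟨k, ⟨b, γ⟩, k'⟩
  have e : y * c.gs K (k, (b, γ), k') = y * c.a ^ ex K k * lt (b, γ) * c.a ^ ex K k' := by
    simp [Ctx.gs, mul_assoc]
  rw [e] at h2 ⊢
  refine (con_zpow y (ex K k)).trans (Con.trans ?_ (con_zpow _ _))
  cases b
  · simpa [lt] using Con.refl _
  · have e2 : lt (true, γ) = (γ : G) := by simp [lt]
    rw [e2] at h2 ⊢
    refine con_edge ⟨γ.2, max_lt ?_ ?_⟩
    · rwa [← X.mv_mul, mv_zpow_of_ainv ha]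
    · rwa [← X.mv_mul, mv_zpow_of_ainv ha, ← X.mv_mul] at h2

theorem con_path (c : Ctx G) (K : ℕ) (X : Sys G) {lam : X.Ω → ℤ}
    (ha : ∀ ω, lam (X.mv ω c.a) = lam ω) (w : List (Step c K)) (ω : X.Ω) (x : G) {Λ : ℤ}
    (h : LamW X (c.gs K) lam (X.mv ω x) w < Λ) :
    Con X c.a (Zlow c X lam Λ) ω x (x * pw (c.gs K) w) := by
  have hl : ∀ i ≤ w.length, lam (X.mv ω (x * pw (c.gs K) (w.take i))) < Λ := by
    intro i hi
    rw [← X.mv_mul]
    exact (DBa_le_LamW X (c.gs K) lam (X.mv ω x) w hi).trans_lt h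
  have key : ∀ i ≤ w.length, Con X c.a (Zlow c X lam Λ) ω x (x * pw (c.gs K) (w.take i)) := by
    intro i
    induction i with
    | zero => intro _; simpa using Con.refl x
    | succ i ih =>
      intro hi
      have hi' : i < w.length := hi
      refine (ih hi'.le).trans ?_
      have h2 := hl (i + 1) hi
      rw [pw_take_succ w hi', ← mul_assoc] at h2 ⊢
      exact DBa_step c K X ha _ ω _ (hl i hi'.le) h2
  simpa using key w.length le_rfl

/-- Deletion inside the configuration gives deletion in the group. -/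
theorem del_of_delB (c : Ctx G) (K : ℕ) (X : Sys G) {lam : X.Ω → ℤ}
    (ha : ∀ ω, lam (X.mv ω c.a) = lam ω) (θ₁ : ℝ) (w : List (Step c K)) (N : ℕ) (B : Finset G)
    (r : G → ℕ) (D0 s0 : ℕ) (ω : X.Ω) (σ : G → Bool) (x : G)
    (h : (cosetGr (c.a ^ N) (pw (c.gs K) w * c.a ^ N * (pw (c.gs K) w)⁻¹) B
      (fun y => LamW X (c.gs K) lam (X.mv ω y) w) r D0 s0).DelB (fun y => σ y = true) x) :
    Del c K X lam θ₁ w (X.mv ω x, fun y => σ (x * y)) := by
  set g := pw (c.gs K) w with hg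
  set Y := X.prod (Sys.bern G G θ₁) with hY
  let Z : G → Set Y.Ω := fun h =>
    {q | q.1 ∈ Zlow c X lam (LamW X (c.gs K) lam (X.mv ω x) w) h ∨ (h = g ∧ q.2 1 = true)}
  have hE := con_equiv Y c.a Z (ω, σ)
  let f : (G ⧸ Subgroup.zpowers (c.a ^ N)) ⊕ (G ⧸ Subgroup.zpowers (g * c.a ^ N * g⁻¹)) → G :=
    Sum.elim (fun u => u.out) fun u => u.out * g
  have f1 : ∀ e : G, Con Y c.a Z (ω, σ) e (f (Sum.inl (QuotientGroup.mk e))) := by
    intro e
    obtain ⟨⟨u, hu⟩, he⟩ := QuotientGroup.mk_out_eq_mul (Subgroup.zpowers (c.a ^ N)) e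
    obtain ⟨m, rfl⟩ := Subgroup.mem_zpowers_iff.1 hu
    change Con Y c.a Z (ω, σ) e (QuotientGroup.mk e : G ⧸ Subgroup.zpowers (c.a ^ N)).out
    rw [he]
    change Con Y c.a Z (ω, σ) e (e * (c.a ^ N) ^ m)
    rw [← zpow_natCast, ← zpow_mul]
    exact con_zpow _ _
  have f2 : ∀ e : G, Con Y c.a Z (ω, σ) (e * g) (f (Sum.inr (QuotientGroup.mk e))) := by
    intro e
    obtain ⟨⟨u, hu⟩, he⟩ :=
      QuotientGroup.mk_out_eq_mul (Subgroup.zpowers (g * c.a ^ N * g⁻¹)) e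
    obtain ⟨m, rfl⟩ := Subgroup.mem_zpowers_iff.1 hu
    change Con Y c.a Z (ω, σ) (e * g)
      ((QuotientGroup.mk e : G ⧸ Subgroup.zpowers (g * c.a ^ N * g⁻¹)).out * g)
    rw [he]
    change Con Y c.a Z (ω, σ) (e * g) (e * (g * c.a ^ N * g⁻¹) ^ m * g)
    have e1 : e * (g * c.a ^ N * g⁻¹) ^ m * g = e * g * c.a ^ ((N : ℤ) * m) := by
      rw [conj_zpow, zpow_mul, zpow_natCast]
      simp [mul_assoc]
    rw [e1]
    exact con_zpow _ _
  have f3 : ∀ e : G, LamW X (c.gs K) lam (X.mv ω e) w < LamW X (c.gs K) lam (X.mv ω x) w ∨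
      σ e = true → Con Y c.a Z (ω, σ) e (e * g) := by
    rintro e (he | he)
    · have h1 := con_path c K X ha w ω e he
      have h2 := (con_pull (X := X) (Y := Y) (π := Prod.fst) (a := c.a)
        (Z := Zlow c X lam (LamW X (c.gs K) lam (X.mv ω x) w)) (fun _ _ => rfl) (ω, σ) e
        (e * g)).2 h1
      exact h2.mono fun _ _ hh => Or.inl hh
    · refine con_edge (Or.inr ⟨rfl, ?_⟩)
      change σ (e • (1 : G)) = true
      rwa [smul_eq_mul, mul_one]
  have key : Con Y c.a Z (ω, σ) (f (Sum.inl (QuotientGroup.mk x)))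
      (f (Sum.inr (QuotientGroup.mk x))) := by
    refine eqvGen_map f hE ?_ h
    rintro u v ⟨e, -, he, rfl, rfl⟩
    exact (f1 e).symm.trans ((f3 e he).trans (f2 e))
  have fin : Con Y c.a Z (ω, σ) (x * 1) (x * g) := by
    rw [mul_one]
    exact (f1 x).trans (key.trans (f2 x).symm)
  exact (con_mv x 1 g).2 fin

end Pool.Agent.Work.MP_01d39a_al.Ct
end

-- merged part: Pool.Agent.Work.MP_01d39a_al.Ct.Par1
section
/-!
TASK CT Par1. Elementary inequalities for the parameters (all for large `κ`).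
`nu κ = 2^(κ³)`, `ll κ = nu κ ^ 92 = 2^(92 κ³)` is divisible by `2^60`, so `(Le : ℝ) = l/2^60`, `(L1 : ℝ) = l/4`.
Useful: every polynomial in `κ` is eventually below `nu κ` (nu_big), `B² = 225 κ²/A`, `l + 1 ≤ 2 l`, `√l = nu^46`.
-/

open MeasureTheory ProbabilityTheory Filter Topology
open scoped BigOperators ENNReal NNReal

namespace Pool.Agent.Work.MP_01d39a_al.Ct

variable {G : Type} [Group G]

theorem Par1_pow (k : ℕ) (M : ℝ) {r : ℝ} (hr : 1 < r) :
    ∀ᶠ κ : ℕ in atTop, M * (κ : ℝ) ^ k ≤ r ^ κ := by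
  filter_upwards [((isLittleO_pow_const_const_pow_of_one_lt (R := ℝ) k hr).const_mul_left M).def
    one_pos] with κ h
  rw [one_mul, Real.norm_of_nonneg (pow_nonneg (zero_le_one.trans hr.le) κ)] at h
  exact (le_abs_self _).trans h

theorem Par1_nu (κ : ℕ) : 1 ≤ nu κ := Nat.one_le_two_pow

theorem Par1_ll (κ : ℕ) : nu κ ≤ ll κ := Nat.le_self_pow (by norm_num) _

theorem Par1_ll1 (κ : ℕ) : (1 : ℝ) ≤ ll κ := by exact_mod_cast (Par1_nu κ).trans (Par1_ll κ)

theorem Par1_dvd {κ : ℕ} (h : 1 ≤ κ) : 2 ^ 60 ∣ ll κ := by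
  unfold ll nu
  rw [← pow_mul]
  have := Nat.one_le_pow 3 κ h
  exact pow_dvd_pow _ (by omega)

theorem nu_big (k : ℕ) (M : ℝ) : ∀ᶠ κ : ℕ in atTop, M * (κ : ℝ) ^ k ≤ nu κ := by
  filter_upwards [Par1_pow k M one_lt_two] with κ h
  refine h.trans ?_
  unfold nu
  push_cast
  exact pow_le_pow_right₀ one_le_two (Nat.le_self_pow (by norm_num) _)

theorem exp_big (k : ℕ) (M : ℝ) : ∀ᶠ κ : ℕ in atTop, M * (κ : ℝ) ^ k ≤ Real.exp κ := by
  filter_upwards [Par1_pow k M (Real.one_lt_exp_iff.2 one_pos)] with κ h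
  rwa [Real.exp_one_pow] at h

theorem exp_big' (k : ℕ) (M : ℝ) :
    ∀ᶠ κ : ℕ in atTop, M * (nu κ : ℝ) ^ k ≤ Real.exp ((κ : ℝ) ^ 4) := by
  filter_upwards [nu_big 0 M, eventually_ge_atTop (k + 1)] with κ h1 h2
  rw [pow_zero, mul_one] at h1
  have h3 : (nu κ : ℝ) ≤ Real.exp ((κ : ℝ) ^ 3) := by
    unfold nu
    rw [← Nat.cast_pow, ← Real.exp_one_pow]
    push_cast
    exact pow_le_pow_left₀ zero_le_two (by linarith [Real.add_one_le_exp (1 : ℝ)]) _
  have h4 : ((k + 1 : ℕ) : ℝ) ≤ κ := Nat.cast_le.2 h2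
  calc M * (nu κ : ℝ) ^ k ≤ nu κ * (nu κ : ℝ) ^ k := mul_le_mul_of_nonneg_right h1 (by positivity)
    _ = (nu κ : ℝ) ^ (k + 1) := (pow_succ' _ _).symm
    _ ≤ Real.exp ((κ : ℝ) ^ 3) ^ (k + 1) := pow_le_pow_left₀ (Nat.cast_nonneg _) h3 _
    _ = Real.exp ((k + 1 : ℕ) * (κ : ℝ) ^ 3) := (Real.exp_nat_mul _ _).symm
    _ ≤ _ := Real.exp_le_exp.2 ((mul_le_mul_of_nonneg_right h4 (by positivity)).trans_eq (by ring))

theorem par_Le (C : ℝ) {κ : ℕ} (h : 1 ≤ κ) : ((par C κ).Le : ℝ) = ll κ / 2 ^ 60 := by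
  change ((ll κ / 2 ^ 60 : ℕ) : ℝ) = _
  rw [Nat.cast_div (Par1_dvd h) (by norm_num)]
  norm_num

theorem par_L1 (C : ℝ) {κ : ℕ} (h : 1 ≤ κ) : ((par C κ).L1 : ℝ) = ll κ / 4 := by
  change ((ll κ / 4 : ℕ) : ℝ) = _
  rw [Nat.cast_div (Dvd.dvd.trans (by norm_num) (Par1_dvd h)) (by norm_num)]
  norm_num

theorem sqrt_ll (κ : ℕ) : √(ll κ : ℝ) = (nu κ : ℝ) ^ 46 := by
  unfold ll
  rw [Nat.cast_pow, show 92 = 46 * 2 from rfl, pow_mul, Real.sqrt_sq (by positivity)]

theorem par_ok {C : ℝ} (hC : 1 ≤ C) : ∀ᶠ κ : ℕ in atTop, (par C κ).Ok := by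
  filter_upwards [nu_big 16 (2 ^ 61 * 10 ^ 8), nu_big 2 1, eventually_ge_atTop 4] with κ h1 h2 h3
  have h4 : (4 : ℝ) ≤ κ := by exact_mod_cast h3
  have h5 := Par1_ll1 κ
  have h6 : (nu κ : ℝ) ≤ ll κ := Nat.cast_le.2 (Par1_ll κ)
  have h7 : nu κ ≤ ll κ / 2 ^ 60 := by
    rw [Nat.le_div_iff_mul_le (by norm_num)]
    have h8 : 2 ≤ nu κ := Nat.one_lt_two_pow (by positivity)
    calc nu κ * 2 ^ 60 ≤ nu κ * nu κ ^ 91 := Nat.mul_le_mul_left _
          ((Nat.pow_le_pow_right (by norm_num) (by norm_num)).trans (Nat.pow_le_pow_left h8 91))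
      _ = ll κ := (pow_succ' _ _).symm
  have h8 : (⌊(κ : ℝ) ^ 2 / (2 * 10 ^ 81 * C)⌋₊ : ℝ) ≤ (κ : ℝ) ^ 2 / (2 * 10 ^ 81 * C) :=
    Nat.floor_le (by positivity)
  constructor <;> dsimp only [par]
  · exact h4
  · have : (4 : ℝ) ^ 3 ≤ κ ^ 3 := pow_le_pow_left₀ (by norm_num) h4 3
    nlinarith
  · positivity
  · refine Real.le_sqrt_of_sq_le ?_
    rw [le_div_iff₀ (by positivity), ← pow_mul, ← pow_mul, mul_comm]
    exact h1.trans h6
  · exact div_le_div_of_nonneg_left (by positivity) (by positivity) (by norm_num)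
  · positivity
  · rw [mul_one_div, div_le_one (by positivity)]
    nlinarith
  · positivity
  · norm_num
  · norm_num
  · norm_num
  · positivity
  · positivity
  · exact (Par1_nu κ).trans h7
  · omega
  · omega
  · refine le_trans ?_ h7
    rw [← Nat.cast_le (α := ℝ)]
    refine h8.trans (le_trans ?_ h2)
    rw [one_mul]
    exact div_le_self (by positivity) (by linarith)
  · exact h7
  · exact Par1_nu κ
  · refine (mul_le_mul_of_nonneg_left h8 (by positivity)).trans_eq ?_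
    field_simp

theorem par_f5 (C : ℝ) (κ : ℕ) : ((ll κ : ℝ) + 1) * (par C κ).B ^ 2 ≤ 2 * 10 ^ 29 * κ ^ 2 := by
  have h := Par1_ll1 κ
  have h0 : (0 : ℝ) < (ll κ : ℝ) / (2 ^ 61 * 10 ^ 8) := by positivity
  dsimp only [par, Par.B]
  rw [div_pow, Real.sq_sqrt h0.le, ← mul_div_assoc, div_le_iff₀ h0]
  have h1 : (0 : ℝ) ≤ (κ : ℝ) ^ 2 := by positivity
  have h2 := mul_le_mul_of_nonneg_left h h1
  have h3 : (0 : ℝ) ≤ (κ : ℝ) ^ 2 * ll κ := by positivity
  norm_num
  nlinarith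

theorem par_B (C : ℝ) (κ : ℕ) : (par C κ).B ≤ 10 ^ 15 * κ / (nu κ : ℝ) ^ 46 := by
  have h : (0 : ℝ) < nu κ := Nat.cast_pos.2 (Par1_nu κ)
  have h1 : (nu κ : ℝ) ^ 46 / (2 * 10 ^ 13) ≤ √((ll κ : ℝ) / (2 ^ 61 * 10 ^ 8)) := by
    refine Real.le_sqrt_of_sq_le ?_
    rw [div_pow, ← sqrt_ll, Real.sq_sqrt (Nat.cast_nonneg _)]
    exact div_le_div_of_nonneg_left (by positivity) (by positivity) (by norm_num)
  dsimp only [par, Par.B]
  refine (div_le_div_of_nonneg_left (by positivity) (by positivity) h1).trans ?_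
  rw [div_div_eq_mul_div]
  refine div_le_div_of_nonneg_right ?_ (by positivity)
  have h2 : (0 : ℝ) ≤ κ := Nat.cast_nonneg _
  linarith

end Pool.Agent.Work.MP_01d39a_al.Ct
end

-- merged part: Pool.Agent.Work.MP_01d39a_al.Ct.Ov
section
/-!
TASK CT Ov. Overlaps of independent words.
rel_point: for `s > t` write `w = u₁ ++ x :: u₂` with `|u₁| = s - 1`; `rel t s = g₀ * a^(ex x.1)` with `g₀` depending on `u₁` only, so at
most one value of `x.1` works (`Ctx.zpow_inj`, `ex` injective). For `s < t` the same decomposition gives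
`rel t s = (letter * a^(ex x.2.2) * g₁)⁻¹` with `g₁` depending on `u₂` only; use `x.2.2`.
not_dis: union bound; for `i ≠ i'` condition on all words except `ws i` (`Equiv.funSplitAt`, `Finset.expect_product`,
`avgW_ofFn`).
-/

open MeasureTheory ProbabilityTheory Filter Topology
open scoped BigOperators ENNReal NNReal

namespace Pool.Agent.Work.MP_01d39a_al.Ct

variable {G : Type} [Group G]

theorem Ov_avg {σ : Type} [Fintype σ] [Nonempty σ] {j m : ℕ} {F : List σ → ℝ} {r : ℝ}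
    (h : ∀ u v : List σ, u.length = j → 𝔼 x, F (u ++ x :: v) ≤ r) : avgW (j + (m + 1)) F ≤ r := by
  rw [avgW_append]
  refine avgW_le fun u hu => ?_
  rw [avgW_succ, ← avgW_expect]
  exact avgW_le fun v _ => h u v hu

theorem Ov_one (c : Ctx G) (K : ℕ) (g : G) :
    𝔼 x : Step c K, ind (c.a ^ ex K x.1 = g) ≤ 1 / (2 * K + 1) := by
  classical
  have e : 𝔼 x : Step c K, ind (c.a ^ ex K x.1 = g) =
      𝔼 k : Fin (2 * K + 1), ind (c.a ^ ex K k = g) := by
    rw [← Finset.univ_product_univ, Finset.expect_product]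
    simp only [Fintype.expect_const]
  rw [e, Finset.expect_eq_sum_div_card]
  simp only [Finset.card_univ, Fintype.card_fin, Nat.cast_add, Nat.cast_mul, Nat.cast_ofNat,
    Nat.cast_one]
  refine div_le_div_of_nonneg_right ?_ (by positivity)
  by_cases h0 : ∃ k₀ : Fin (2 * K + 1), c.a ^ ex K k₀ = g
  · obtain ⟨k₀, hk₀⟩ := h0
    calc ∑ k : Fin (2 * K + 1), ind (c.a ^ ex K k = g)
        ≤ ∑ k : Fin (2 * K + 1), (if k = k₀ then (1 : ℝ) else 0) := by
          refine Finset.sum_le_sum fun k _ => ?_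
          by_cases hk : c.a ^ ex K k = g
          · have h1 := c.zpow_inj (hk.trans hk₀.symm)
            have h2 : k = k₀ := by
              unfold ex at h1
              exact Fin.ext (by omega)
            rw [if_pos h2]; exact ind_le_one _
          · rw [ind_neg hk]; split_ifs <;> norm_num
      _ = 1 := by simp
  · rw [Finset.sum_eq_zero fun k _ => ind_neg fun hk => h0 ⟨k, hk⟩]
    norm_num

theorem Ov_lt (c : Ctx G) (K : ℕ) {l t s : ℕ} (ht : 1 ≤ t) (hs : s ≤ l) (hst : t < s) (g : G) :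
    avgW l (fun w => ind (c.rel K w t s = g)) ≤ 1 / (2 * K + 1) := by
  obtain ⟨m, hm⟩ : ∃ m, l = (s - 1) + (m + 1) := ⟨l - s, by omega⟩
  rw [hm]
  refine Ov_avg fun u v hu => ?_
  refine le_trans (Finset.expect_le_expect fun x _ => ind_mono fun hx => ?_)
    (Ov_one c K ((pw (c.gs K) u)⁻¹ * c.base K u t * g))
  have e1 : c.base K (u ++ x :: v) t = c.base K u t := by
    unfold Ctx.base
    rw [List.take_append_of_le_length (by omega), List.getElem?_append_left (by omega)]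
  have e2 : c.base K (u ++ x :: v) s = pw (c.gs K) u * c.a ^ ex K x.1 := by
    unfold Ctx.base
    rw [← hu, List.take_left, List.getElem?_append_right le_rfl]
    simp
  unfold Ctx.rel at hx
  rw [e1, e2] at hx
  rw [← hx]
  group

theorem rel_point (c : Ctx G) (K : ℕ) {l t s : ℕ} (ht : t ∈ Finset.Icc 1 l) (hs : s ∈ Finset.Icc 1 l)
    (hst : s ≠ t) (g : G) : avgW l (fun w => ind (c.rel K w t s = g)) ≤ 1 / (2 * K + 1) := by
  rw [Finset.mem_Icc] at ht hs
  rcases lt_or_gt_of_ne hst with h | h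
  · refine le_trans (avgW_mono fun w _ => ind_mono fun hw => ?_) (Ov_lt c K hs.1 ht.2 h g⁻¹)
    rw [← hw]
    unfold Ctx.rel
    group
  · exact Ov_lt c K ht.1 hs.2 h g

theorem Ov_pair {ι A : Type} [Fintype ι] [DecidableEq ι] [Fintype A] [Nonempty A] {F : A → A → ℝ}
    {r : ℝ} (h : ∀ b, 𝔼 a, F a b ≤ r) {i i' : ι} (hi : i ≠ i') :
    𝔼 ws : ι → A, F (ws i) (ws i') ≤ r := by
  have e : 𝔼 ws : ι → A, F (ws i) (ws i') =
      𝔼 q : A × ({j // j ≠ i} → A), F q.1 (q.2 ⟨i', hi.symm⟩) :=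
    Finset.expect_equiv (Equiv.funSplitAt i A) (by simp) fun ws _ => by simp
  rw [e, ← Finset.univ_product_univ, Finset.expect_product, Finset.expect_comm]
  refine (Finset.expect_le_expect fun q _ => h (q ⟨i', hi.symm⟩)).trans (le_of_eq ?_)
  exact Fintype.expect_const _

theorem not_dis (c : Ctx G) (K l W : ℕ) :
    (𝔼 ws : Fin W → Fin l → Step c K, ind (¬ Dis c K l W fun i => List.ofFn (ws i))) ≤
      (W : ℝ) ^ 2 * (l : ℝ) ^ 4 / (2 * K + 1) := by
  classical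
  let T : Finset ((Fin W × Fin W) × (ℕ × ℕ) × ℕ × ℕ) :=
    Finset.univ ×ˢ (Finset.Icc 1 l ×ˢ Finset.Icc 1 l) ×ˢ Finset.Icc 1 l ×ˢ Finset.Icc 1 l
  let E : (Fin W × Fin W) × (ℕ × ℕ) × ℕ × ℕ → (Fin W → Fin l → Step c K) → Prop := fun q ws =>
    q.1.1 ≠ q.1.2 ∧ q.2.2.1 ≠ q.2.1.1 ∧ c.rel K (List.ofFn (ws q.1.1)) q.2.1.1 q.2.2.1 =
      c.rel K (List.ofFn (ws q.1.2)) q.2.1.2 q.2.2.2
  have h1 : ∀ ws : Fin W → Fin l → Step c K, ind (¬ Dis c K l W fun i => List.ofFn (ws i)) ≤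
      ∑ q ∈ T, ind (E q ws) := by
    intro ws
    refine le_trans (ind_mono fun hd => ?_) (ind_exists_le T fun q => E q ws)
    unfold Dis at hd
    push Not at hd
    obtain ⟨i, i', hi, t, ht, t', ht', s, hs, s', hs', h2, _, h4⟩ := hd
    exact ⟨((i, i'), (t, t'), s, s'), by simp only [T, Finset.mem_product]; simp only [
      Finset.mem_univ, ht, ht', hs, hs', and_self], hi, h2, h4⟩
  have h2 : ∀ q ∈ T, (𝔼 ws : Fin W → Fin l → Step c K, ind (E q ws)) ≤ 1 / (2 * K + 1) := by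
    rintro ⟨⟨i, i'⟩, ⟨t, t'⟩, s, s'⟩ hq
    simp only [T, Finset.mem_product] at hq
    obtain ⟨_, ⟨ht, _⟩, hs, _⟩ := hq
    by_cases hi : i ≠ i' ∧ s ≠ t
    · refine le_trans (Finset.expect_le_expect fun ws _ => ind_mono fun h => h.2.2) ?_
      refine Ov_pair (F := fun a b : Fin l → Step c K =>
        ind (c.rel K (List.ofFn a) t s = c.rel K (List.ofFn b) t' s')) (fun b => ?_) hi.1
      rw [← avgW_ofFn l fun w => ind (c.rel K w t s = c.rel K (List.ofFn b) t' s')]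
      exact rel_point c K ht hs hi.2 _
    · rw [Finset.expect_eq_zero fun ws _ => ind_neg fun h => hi ⟨h.1, h.2.1⟩]
      positivity
  refine (Finset.expect_le_expect fun ws _ => h1 ws).trans ?_
  rw [Finset.expect_sum_comm]
  refine (Finset.sum_le_card_nsmul _ _ _ h2).trans (le_of_eq ?_)
  simp only [T, Finset.card_product, Finset.card_univ, Fintype.card_prod, Fintype.card_fin,
    Nat.card_Icc, Nat.add_sub_cancel, nsmul_eq_mul]
  push_cast
  ring

end Pool.Agent.Work.MP_01d39a_al.Ct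
end

-- merged part: Pool.Agent.Work.MP_01d39a_al.Ct.H1
section
/-!
TASK CT H1. Path algebra for the height events (deterministic).
Use `st_take`, `st_drop`, `st_rv_take`, `st_succ`, `st_cons`, `Finset.le_sup'`, `Finset.exists_mem_eq_sup'`,
`Finset.sum_Ico_eq_sum_range`, `Finset.sum_range_reflect`, `Int.floor_le`, `Int.lt_floor_add_one`, `Int.floor_mono`.
-/

open MeasureTheory ProbabilityTheory Filter Topology
open scoped BigOperators ENNReal NNReal

namespace Pool.Agent.Work.MP_01d39a_al.Ct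

variable {G : Type} [Group G]

variable {σ : Type} [Fintype σ] [Nonempty σ] {h : Ht G σ} {p : Par} {ι : σ → σ} {C x₀ : ℝ}

namespace Ht

theorem H1_le {n : ℕ} {P : ℕ → Prop} : (∀ i ≤ n + 1, P i) ↔ P 0 ∧ ∀ i ≤ n, P (i + 1) :=
  ⟨fun H => ⟨H 0 (Nat.zero_le _), fun i hi => H _ (Nat.succ_le_succ hi)⟩, fun H i hi => by
    cases i with
    | zero => exact H.1
    | succ i => exact H.2 i (Nat.le_of_succ_le_succ hi)⟩

theorem H1_lt {n : ℕ} {P : ℕ → Prop} : (∀ i < n + 1, P i) ↔ P 0 ∧ ∀ i < n, P (i + 1) :=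
  ⟨fun H => ⟨H 0 n.succ_pos, fun i hi => H _ (Nat.succ_lt_succ hi)⟩, fun H i hi => by
    cases i with
    | zero => exact H.1
    | succ i => exact H.2 i (Nat.lt_of_succ_lt_succ hi)⟩

theorem vb_nonneg (ω : h.X.Ω) : 0 ≤ h.vb p ω := Finset.expect_nonneg fun _ _ => sq_nonneg _

theorem vk_le_vb (hp : p.Ok) (ω : h.X.Ω) : h.vk p ω ≤ h.vb p ω := by
  refine Finset.expect_le_expect fun s _ => ?_
  split_ifs with H
  · rw [Jb, if_pos (by linarith [hp.hJ])]
  · exact sq_nonneg _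

theorem vb_le_v (ω : h.X.Ω) : h.vb p ω ≤ h.v ω := by
  refine Finset.expect_le_expect fun s _ => ?_
  rw [Jb]
  split_ifs
  · exact le_rfl
  · rw [zero_pow two_ne_zero]
    exact sq_nonneg _

theorem jump_eq (ω : h.X.Ω) (w : List σ) {i : ℕ} (hi : i < w.length) :
    h.z (h.st ω w (i + 1)) - h.z (h.st ω w i) = h.J (h.st ω w i) w[i] := by
  rw [J, ← st_succ h.X ω w hi]

theorem G1_cons (ω : h.X.Ω) (s : σ) (w : List σ) : h.G1 p ω (s :: w) ↔
    h.okS p ω ∧ |h.J ω s| ≤ p.J0 ∧ h.G1 p (h.X.mv ω (h.g s)) w := by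
  simp only [G1, List.length_cons, H1_le, H1_lt, st_cons, st_zero, J]
  tauto

theorem Crude_cons (H : ℝ) (ω : h.X.Ω) (s : σ) (w : List σ) : h.Crude p H ω (s :: w) ↔
    h.okS p ω ∧ h.z ω ≤ H ∧ |h.J ω s| ≤ p.J0 ∧ h.Crude p H (h.X.mv ω (h.g s)) w := by
  simp only [Crude, G1_cons, List.length_cons, H1_le, st_cons, st_zero]
  tauto

theorem Alive_cons (H : ℝ) (ω : h.X.Ω) (s : σ) (w : List σ) : h.Alive p H ω (s :: w) ↔
    h.okS p ω ∧ h.z ω ≤ H ∧ (H - p.J0 < h.z ω → h.safe p ω) ∧ |h.J ω s| ≤ p.J0 ∧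
      h.Alive p H (h.X.mv ω (h.g s)) w := by
  simp only [Alive, Crude_cons, List.length_cons, H1_le, st_cons, st_zero]
  tauto

theorem QV_cons_zero (ω : h.X.Ω) (s : σ) (w : List σ) (j : ℕ) :
    h.QV p ω (s :: w) 0 (j + 1) = h.vb p ω + h.QV p (h.X.mv ω (h.g s)) w 0 j := by
  simp only [QV, Nat.Ico_zero_eq_range, Finset.sum_range_succ', st_cons, st_zero]
  exact add_comm _ _

theorem QV_cons_succ (ω : h.X.Ω) (s : σ) (w : List σ) (i j : ℕ) :
    h.QV p ω (s :: w) (i + 1) (j + 1) = h.QV p (h.X.mv ω (h.g s)) w i j := by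
  simp only [QV, ← Finset.sum_Ico_add' _ i j 1, st_cons]

theorem QV_mono (ω : h.X.Ω) (w : List σ) {i j i' j' : ℕ} (hi : i' ≤ i) (hj : j ≤ j') :
    h.QV p ω w i j ≤ h.QV p ω w i' j' :=
  Finset.sum_le_sum_of_subset_of_nonneg (Finset.Ico_subset_Ico hi hj) fun _ _ _ => vb_nonneg _

theorem QV_drop (ω : h.X.Ω) (w : List σ) (t i j : ℕ) :
    h.QV p (h.st ω w t) (w.drop t) i j = h.QV p ω w (t + i) (t + j) := by
  simp only [QV, st_drop]
  rw [add_comm t i, add_comm t j, ← Finset.sum_Ico_add' _ i j t]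
  simp only [add_comm t]

theorem QV_rv (hι : Inv h.g ι) (ω : h.X.Ω) (w : List σ) {t i : ℕ} (ht : t ≤ w.length) (hi : i ≤ t) :
    h.QV p (h.st ω w t) (rv ι (w.take t)) i t = h.QV p ω w 1 (t - i + 1) := by
  have e := Finset.sum_Ico_reflect (fun u => h.vb p (h.st ω w u)) i (Nat.le_succ t)
  rw [Nat.add_sub_cancel_left, Nat.sub_add_comm hi] at e
  refine Eq.trans (Finset.sum_congr rfl fun u hu => ?_) e
  rw [Ht.st, st_rv_take h.X hι ω w ht (Finset.mem_Ico.1 hu).2.le]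

theorem H1_len (ι : σ → σ) {w : List σ} {t : ℕ} (ht : t ≤ w.length) :
    (rv ι (w.take t)).length = t := by
  rw [length_rv, List.length_take, min_eq_left ht]

theorem Crude.drop {H : ℝ} {ω : h.X.Ω} {w : List σ} (hc : h.Crude p H ω w) {t : ℕ}
    (ht : t ≤ w.length) : h.Crude p H (h.st ω w t) (w.drop t) := by
  simp only [Crude, G1, List.length_drop, st_drop]
  exact ⟨⟨fun i hi => hc.1.1 _ (by omega), fun i hi => hc.1.2 (t + i) (by omega)⟩,
    fun i hi => hc.2 _ (by omega)⟩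

theorem Crude.rv (hι : Inv h.g ι) {H : ℝ} {ω : h.X.Ω} {w : List σ} (hc : h.Crude p H ω w) {t : ℕ}
    (ht : t ≤ w.length) : h.Crude p H (h.st ω w t) (rv ι (w.take t)) := by
  rw [Crude, G1, H1_len ι ht]
  refine ⟨⟨fun i hi => ?_, fun i hi => ?_⟩, fun i hi => ?_⟩
  · rw [Ht.st, st_rv_take h.X hι ω w ht hi]
    exact hc.1.1 _ (by omega)
  · rw [Ht.st, Ht.st, Ht.st, st_rv_take h.X hι ω w ht hi, st_rv_take h.X hι ω w ht hi.le,
      abs_sub_comm, show t - i = t - (i + 1) + 1 by omega]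
    exact hc.1.2 _ (by omega)
  · rw [Ht.st, st_rv_take h.X hι ω w ht hi]
    exact hc.2 _ (by omega)

theorem Alive.drop {H : ℝ} {ω : h.X.Ω} {w : List σ} (hc : h.Alive p H ω w) {t : ℕ}
    (ht : t ≤ w.length) : h.Alive p H (h.st ω w t) (w.drop t) := by
  refine ⟨hc.1.drop ht, ?_⟩
  simp only [List.length_drop, st_drop]
  exact fun i hi => hc.2 _ (by omega)

theorem Alive.rv (hι : Inv h.g ι) {H : ℝ} {ω : h.X.Ω} {w : List σ} (hc : h.Alive p H ω w) {t : ℕ}
    (ht : t ≤ w.length) : h.Alive p H (h.st ω w t) (rv ι (w.take t)) := by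
  refine ⟨hc.1.rv hι ht, fun i hi => ?_⟩
  rw [H1_len ι ht] at hi
  rw [Ht.st, st_rv_take h.X hι ω w ht hi]
  exact hc.2 _ (by omega)

theorem le_Mx (ω : h.X.Ω) (w : List σ) {i : ℕ} (hi : i ≤ w.length) : h.z (h.st ω w i) ≤ h.Mx ω w :=
  Finset.le_sup' (fun i => h.z (h.st ω w i)) (Finset.mem_range.2 (Nat.lt_succ_of_le hi))

theorem exists_Mx (ω : h.X.Ω) (w : List σ) : ∃ i ≤ w.length, h.z (h.st ω w i) = h.Mx ω w := by
  obtain ⟨i, hi, e⟩ := Finset.exists_mem_eq_sup' (Finset.nonempty_range_add_one (n := w.length))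
    fun i => h.z (h.st ω w i)
  exact ⟨i, Nat.le_of_lt_succ (Finset.mem_range.1 hi), e.symm⟩

theorem Mx_nil (ω : h.X.Ω) : h.Mx ω [] = h.z ω := by
  obtain ⟨i, hi, e⟩ := exists_Mx (h := h) ω []
  obtain rfl : i = 0 := Nat.le_zero.1 hi
  rw [← e, Ht.st, st_zero]

theorem Mx_snoc (ω : h.X.Ω) (w : List σ) (s : σ) :
    h.Mx ω (w ++ [s]) = max (h.Mx ω w) (h.z (h.st ω w w.length) + h.J (h.st ω w w.length) s) := by
  have e : h.z (h.st ω (w ++ [s]) (w.length + 1)) =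
      h.z (h.st ω w w.length) + h.J (h.st ω w w.length) s := by
    rw [Ht.st, st_append_right, st_cons, st_zero, J, Ht.st, st_length, add_sub_cancel]
  have l : (w ++ [s]).length = w.length + 1 := List.length_append
  refine le_antisymm ?_ (max_le ?_ ?_)
  · obtain ⟨i, hi, e'⟩ := exists_Mx (h := h) ω (w ++ [s])
    rw [← e']
    rcases (hi.trans_eq l).eq_or_lt with rfl | hi
    · rw [e]
      exact le_max_right _ _
    · rw [Ht.st, st_append_left h.X ω w _ (Nat.le_of_lt_succ hi)]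
      exact (le_Mx ω w (Nat.le_of_lt_succ hi)).trans (le_max_left _ _)
  · obtain ⟨i, hi, e'⟩ := exists_Mx (h := h) ω w
    rw [← e', Ht.st, ← st_append_left h.X ω w [s] hi]
    exact le_Mx ω _ (by omega)
  · rw [← e]
    exact le_Mx ω _ l.ge

theorem Mx_take_mono (ω : h.X.Ω) (w : List σ) {i j : ℕ} (hij : i ≤ j) :
    h.Mx ω (w.take i) ≤ h.Mx ω (w.take j) := by
  obtain ⟨k, hk, e⟩ := exists_Mx (h := h) ω (w.take i)
  rw [List.length_take, le_min_iff] at hk
  rw [← e, Ht.st, st_take h.X ω w hk.1, ← st_take h.X ω w (hk.1.trans hij)]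
  exact le_Mx ω _ (by rw [List.length_take]; omega)

theorem Mx_rv (hι : Inv h.g ι) (ω : h.X.Ω) (w : List σ) :
    h.Mx (h.X.mv ω (pw h.g w)) (rv ι w) = h.Mx ω w := by
  have e : ∀ i ≤ w.length, h.st (h.X.mv ω (pw h.g w)) (rv ι w) i = h.st ω w (w.length - i) :=
    fun i hi => by
      have := st_rv_take h.X hι ω w le_rfl hi
      rwa [st_length, List.take_length] at this
  refine le_antisymm ?_ ?_
  · obtain ⟨i, hi, e'⟩ := exists_Mx (h := h) (h.X.mv ω (pw h.g w)) (rv ι w)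
    rw [← e', e i (hi.trans_eq (length_rv w))]
    exact le_Mx ω w (Nat.sub_le _ _)
  · obtain ⟨i, hi, e'⟩ := exists_Mx (h := h) ω w
    rw [← e', ← Nat.sub_sub_self hi, ← e _ (Nat.sub_le _ _)]
    exact le_Mx _ _ ((Nat.sub_le _ _).trans_eq (length_rv w).symm)

theorem H1_κ (hp : p.Ok) : 0 < p.κ := by linarith [hp.hκ]

theorem lt_Hs (hp : p.Ok) (y : ℝ) : y < p.Hs y :=
  (div_lt_iff₀' (H1_κ hp)).1 (Int.lt_floor_add_one _)

theorem Hs_sub_le (hp : p.Ok) (y : ℝ) : p.Hs y - p.κ ≤ y := by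
  have := (le_div_iff₀' (H1_κ hp)).1 (Int.floor_le (y / p.κ))
  rw [Par.Hs]
  linarith

theorem Hs_eq_iff (hp : p.Ok) (y y' : ℝ) : p.Hs y = p.Hs y' ↔ ⌊y / p.κ⌋ = ⌊y' / p.κ⌋ := by
  rw [Par.Hs, Par.Hs, mul_right_inj' (H1_κ hp).ne', add_left_inj, Int.cast_inj]

theorem H1_top (hp : p.Ok) (ω : h.X.Ω) (w : List σ) (i : ℕ) :
    h.Top p ω w i ↔ ⌊h.Mx ω w / p.κ⌋ ≤ ⌊h.z (h.st ω w i) / p.κ⌋ := by
  refine ⟨fun H => ?_, fun H k hk => le_trans ?_ H⟩
  · obtain ⟨k, hk, e⟩ := exists_Mx (h := h) ω w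
    rw [← e]
    exact H k hk
  · exact Int.floor_mono (div_le_div_of_nonneg_right (le_Mx ω w hk) (H1_κ hp).le)

theorem top_iff (hp : p.Ok) (ω : h.X.Ω) (w : List σ) {i : ℕ} (hi : i ≤ w.length) :
    h.Top p ω w i ↔ p.Hs (h.Mx ω w) - p.κ ≤ h.z (h.st ω w i) := by
  have _ := hi
  rw [H1_top hp, Int.le_floor, le_div_iff₀' (H1_κ hp), Par.Hs, mul_add_one, add_sub_cancel_right]

theorem Top.Hs_eq (hp : p.Ok) {ω : h.X.Ω} {w : List σ} {i : ℕ} (hi : i ≤ w.length)
    (ht : h.Top p ω w i) : p.Hs (h.z (h.st ω w i)) = p.Hs (h.Mx ω w) :=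
  (Hs_eq_iff hp _ _).2 (le_antisymm
    (Int.floor_mono (div_le_div_of_nonneg_right (le_Mx ω w hi) (H1_κ hp).le))
    ((H1_top hp ω w i).1 ht))

/-- Under `Al`, a top time is in the middle, safe, and both arms from it survive. -/
theorem Al.arms (hp : p.Ok) (hι : Inv h.g ι) {ω : h.X.Ω} {w : List σ} (hw : w.length = p.l)
    (ha : h.Al p ω w) {i : ℕ} (hi : i ≤ p.l) (ht : h.Top p ω w i) :
    2 * p.Le ≤ i ∧ i + 2 * p.Le ≤ p.l ∧ h.safe p (h.st ω w i) ∧
      h.Arm p (h.st ω w i) (w.drop i) ∧ h.Arm p (h.st ω w i) (rv ι (w.take i)) := by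
  obtain ⟨a1, a2, a3, a4⟩ := ha
  have hi' : i ≤ w.length := hi.trans_eq hw.symm
  have e := Top.Hs_eq hp hi' ht
  have k : p.Hs (h.Mx ω w) - p.J0 < h.z (h.st ω w i) := by
    linarith [(top_iff hp ω w hi').1 ht, hp.hJ]
  obtain ⟨m1, m2⟩ := a4 i hi' k
  refine ⟨m1, m2, a1.2 i hi' k, ⟨e ▸ a1.drop hi', ?_⟩, e ▸ a1.rv hι hi', ?_⟩
  · rw [QV_drop, List.length_drop]
    exact a3.trans (QV_mono ω w (by omega) (by omega))
  · rw [H1_len ι hi', QV_rv hι ω w hi' (Nat.zero_le _)]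
    exact a2.trans (QV_mono ω w le_rfl (by omega))

end Ht

end Pool.Agent.Work.MP_01d39a_al.Ct
end

-- merged part: Pool.Agent.Work.MP_01d39a_al.Ct.Det
section
/-!
TASK CT Det. The deterministic core of section 3: many counted times.
`H = Hs (Mx)`, `b = H - κ`. Let `t₁` be the least `t` with `b + εκ ≤ z (st t)` (`exists_Mx`, `Nat.find`). It is a top time
(`top_iff`), so `2 Le ≤ t₁ ≤ l - 2 Le` (`Al.arms`), and it is a crossing time. If some `s ≤ nb` had `z (st (t₁+s)) < b`, take the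
least one: the sites before it are top, `QV ≤ Mv nb + V κ²/2 ≤ V κ²`, the tail has `QV ≥ A`, so `DropEv` holds at `t₁`.
Hence all times `t₁ .. t₁ + nb` are top; `¬ FewEv` gives at least `μ nb/4` steps of type `ty` among the steps
`t₁ + 1 .. t₁ + nb`, each of them counted (`List.sum_map` as a sum over `Finset.range nb`).
-/

open MeasureTheory ProbabilityTheory Filter Topology
open scoped BigOperators ENNReal NNReal

namespace Pool.Agent.Work.MP_01d39a_al.Ct

variable {G : Type} [Group G]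

variable {σ : Type} [Fintype σ] [Nonempty σ] {h : Ht G σ} {p : Par} {ι : σ → σ} {C x₀ : ℝ}

theorem Det_sum {σ : Type} (ty : σ → Prop) (u : List σ) (n : ℕ) :
    ((u.take n).map fun s => ind (ty s)).sum =
      ∑ i ∈ Finset.range n, ind (∃ s, u[i]? = some s ∧ ty s) := by
  induction n with
  | zero => simp
  | succ n ih =>
    rw [List.take_add_one, List.map_append, List.sum_append, ih, Finset.sum_range_succ]
    congr 1
    cases u[n]? with
    | none => simp [ind]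
    | some a => simp

theorem Det_le (M v : ℝ) (hM : 0 ≤ M) : v ≤ M + v * ind (M < v) := by
  by_cases h : M < v
  · rw [ind_pos h]
    linarith
  · rw [ind_neg h]
    linarith [not_lt.1 h]

namespace Ht

theorem many_cnt (hp : p.Ok) (hι : Inv h.g ι) {ty : σ → Prop} {μ : ℝ} {ω : h.X.Ω} {w : List σ}
    (hw : w.length = p.l) (ha : h.Al p ω w) (h5 : cnt p.l (h.Top p ω w) ≤ p.m)
    (h6 : p.Hs (h.Mx ω w) - p.κ + p.ε * p.κ ≤ h.Mx ω w)
    (h7 : ∑ i ∈ Finset.range (p.l + 1), ind (h.Top p ω w i) *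
      (h.vb p (h.st ω w i) * ind (p.Mv < h.vb p (h.st ω w i))) ≤ p.V * p.κ ^ 2 / 2)
    (h8 : ¬ ∃ t, 1 ≤ t ∧ t ≤ p.l ∧ h.Cross p ω w t ∧ h.DropEv p (h.st ω w t) (w.drop t))
    (h9 : ¬ ∃ t, 1 ≤ t ∧ t ≤ p.l ∧ h.Cross p ω w t ∧ h.FewEv p ty μ (h.st ω w t) (w.drop t)) :
    μ * p.nb / 4 ≤ cnt p.l fun t =>
      h.Cnt p (fun w t => ∃ s, w[t - 1]? = some s ∧ ty s) ω w t ∧ h.Top p ω w t := by
  classical
  have hκ : 0 < p.κ := by linarith [hp.hκ]
  have hεκ : 0 < p.ε * p.κ := mul_pos hp.hε hκ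
  have hnb := hp.hnb
  have hLe := hp.hLe
  have ex : ∃ t, t ≤ w.length ∧ p.Hs (h.Mx ω w) - p.κ + p.ε * p.κ ≤ h.z (h.st ω w t) := by
    obtain ⟨i, h1, h2⟩ := exists_Mx (h := h) ω w
    exact ⟨i, h1, h2 ▸ h6⟩
  obtain ⟨t, ⟨t1, t2⟩, tmin⟩ : ∃ t, (t ≤ w.length ∧
      p.Hs (h.Mx ω w) - p.κ + p.ε * p.κ ≤ h.z (h.st ω w t)) ∧ ∀ i < t,
        ¬ (i ≤ w.length ∧ p.Hs (h.Mx ω w) - p.κ + p.ε * p.κ ≤ h.z (h.st ω w i)) :=
    ⟨Nat.find ex, Nat.find_spec ex, fun i hi => Nat.find_min ex hi⟩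
  have top : h.Top p ω w t := (top_iff hp ω w t1).2 (by linarith)
  obtain ⟨a1, a2, -, ⟨a3, -⟩, -⟩ := ha.arms hp hι hw (hw ▸ t1) top
  have hb : p.Hs (h.Mx ω w) - p.κ = p.κ * (⌊h.Mx ω w / p.κ⌋ : ℤ) := by
    rw [Par.Hs]
    ring
  have cross : h.Cross p ω w t := by
    obtain ⟨i, h1, h2⟩ := exists_Mx (h := h) ω (w.take (t - 1))
    rw [List.length_take] at h1
    have h3 : i ≤ t - 1 := h1.trans (min_le_left _ _)
    have h4 := not_le.1 fun e => tmin i (by omega) ⟨h1.trans (min_le_right _ _), e⟩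
    have h5 := le_Mx (h := h) ω (w.take t) (i := t) (by rw [List.length_take]; omega)
    rw [Ht.st, st_take h.X ω w h3] at h2
    rw [Ht.st, st_take h.X ω w le_rfl] at h5
    rw [hb] at h4 t2
    refine lt_of_lt_of_le (b := ⌊h.Mx ω w / p.κ⌋) (Int.floor_lt.2 ?_) (Int.le_floor.2 ?_)
    · rw [sub_lt_iff_lt_add, div_lt_iff₀ hκ, ← h2]
      linarith
    · rw [le_sub_iff_add_le, le_div_iff₀ hκ]
      linarith
  have hlen : (w.drop t).length = p.l - t := by rw [List.length_drop, hw]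
  have tail : ∀ s ≤ p.nb, p.A ≤ h.QV p (h.st ω w t) (w.drop t) s (w.drop t).length := by
    intro s hs
    rw [QV_drop, hlen]
    exact ha.2.2.1.trans (QV_mono ω w (by omega) (by omega))
  have stay : ∀ s, s ≤ p.nb → p.Hs (h.Mx ω w) - p.κ ≤ h.z (h.st ω w (t + s)) := by
    intro s
    induction s using Nat.strong_induction_on with
    | _ s ih =>
      intro hs
      by_contra hc
      refine h8 ⟨t, by omega, by omega, cross, a3, s, hs, by omega, ?_, ?_, tail s hs⟩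
      · rw [Ht.st, st_drop]
        linarith [not_le.1 hc]
      · rw [QV_drop, add_zero, QV]
        have h1 : ∀ i ∈ Finset.Ico t (t + s), h.vb p (h.st ω w i) ≤ p.Mv + ind (h.Top p ω w i) *
            (h.vb p (h.st ω w i) * ind (p.Mv < h.vb p (h.st ω w i))) := by
          intro i hi
          rw [Finset.mem_Ico] at hi
          have h2 := ih (i - t) (by omega) (by omega)
          rw [show t + (i - t) = i by omega] at h2
          rw [ind_pos ((top_iff hp ω w (by omega)).2 h2), one_mul]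
          exact Det_le _ _ hp.hMv.le
        refine (Finset.sum_le_sum h1).trans ?_
        rw [Finset.sum_add_distrib, Finset.sum_const, Nat.card_Ico, add_tsub_cancel_left,
          nsmul_eq_mul]
        have h2 : (s : ℝ) * p.Mv ≤ p.Mv * p.nb := by
          rw [mul_comm]
          exact mul_le_mul_of_nonneg_left (Nat.cast_le.2 hs) hp.hMv.le
        have h3 := (Finset.sum_le_sum_of_subset_of_nonneg (s := Finset.Ico t (t + s))
          (fun i hi => Finset.mem_range.2 (by rw [Finset.mem_Ico] at hi; omega))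
          fun i _ _ => mul_nonneg (ind_nonneg _)
            (mul_nonneg (vb_nonneg _) (ind_nonneg _))).trans h7
        linarith [hp.hMnb]
  have tops : ∀ s, s ≤ p.nb → h.Top p ω w (t + s) := fun s hs =>
    (top_iff hp ω w (by omega)).2 (stay s hs)
  have few : μ * p.nb / 4 ≤ (((w.drop t).take p.nb).map fun s => ind (ty s)).sum := by
    by_contra hc
    refine h9 ⟨t, by omega, by omega, cross, a3, by omega, not_le.1 hc, ?_, tail _ le_rfl⟩
    rw [top.Hs_eq hp t1, Ht.st, st_drop]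
    exact stay _ le_rfl
  rw [Det_sum] at few
  refine few.trans (le_trans ?_ (Finset.sum_le_sum_of_subset_of_nonneg
    (s := Finset.Ico (t + 1) (t + 1 + p.nb))
    (fun i hi => Finset.mem_range.2 (by rw [Finset.mem_Ico] at hi; omega))
    fun i _ _ => ind_nonneg _))
  rw [Finset.sum_Ico_eq_sum_range, add_tsub_cancel_left]
  refine Finset.sum_le_sum fun i hi => ind_mono fun hy => ?_
  rw [Finset.mem_range] at hi
  have e1 : t + 1 + i - 1 = t + i := by omega
  have e2 : t + 1 + i = t + (i + 1) := by omega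
  have h1 : h.Top p ω w (t + 1 + i) := e2 ▸ tops (i + 1) hi
  refine ⟨⟨by omega, by omega, ?_, e1 ▸ tops i hi.le, h1, ha, h5⟩, h1⟩
  rw [List.getElem?_drop] at hy
  rwa [e1]

end Ht

end Pool.Agent.Work.MP_01d39a_al.Ct
end

-- merged part: Pool.Agent.Work.MP_01d39a_al.Ct.Par2
section
/-!
TASK CT Par2. The numerical inequalities `ParBd` hold for large `κ`. Prove each field as a separate eventual statement
with `nu_big`, `exp_big`, `exp_big'`, `par_Le`, `par_L1`, `sqrt_ll`, `par_f5`, `par_B` and combine with `filter_upwards`.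
Margins: f2 main term `8 √(2e-8) < 1.14e-3 < 1/400`; f3 main term `10 √(12 · 8e8 / 2^60) < 1e-3`; f4 is
`O(κ^8 (κ^(-12) + κ^32 e^(-κ)))`; f8 main term `120 V √(2^61 1e8) · 40000 < 1e-4` (`nb ≤ κ²`, `e0 = 1/l²`, `κ ≤ √l`);
f9 uses `nb ≥ κ²/(4e81 C)` and `exp (-c κ²) → 0`; `log (ll κ) ≤ 92 κ³`.
-/

open MeasureTheory ProbabilityTheory Filter Topology
open scoped BigOperators ENNReal NNReal

namespace Pool.Agent.Work.MP_01d39a_al.Ct

variable {G : Type} [Group G]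

theorem Par2_nu_one (κ : ℕ) : (1 : ℝ) ≤ nu κ := by
  have : 1 ≤ nu κ := Nat.one_le_two_pow
  exact_mod_cast this

theorem Par2_ll (κ : ℕ) : (ll κ : ℝ) = (nu κ : ℝ) ^ 92 := by
  simp [ll]

theorem Par2_nu_le_pow (κ : ℕ) {k : ℕ} (hk : k ≠ 0) : (nu κ : ℝ) ≤ (nu κ : ℝ) ^ k :=
  le_self_pow₀ (Par2_nu_one κ) hk

theorem Par2_ll_one (κ : ℕ) : (1 : ℝ) ≤ ll κ := by
  rw [Par2_ll]; exact one_le_pow₀ (Par2_nu_one κ)

theorem Par2_nu_le_ll (κ : ℕ) : (nu κ : ℝ) ≤ ll κ := by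
  rw [Par2_ll]; exact Par2_nu_le_pow κ (by norm_num)

theorem Par2_kap (M : ℝ) : ∀ᶠ κ : ℕ in atTop, M ≤ (κ : ℝ) :=
  tendsto_natCast_atTop_atTop.eventually_ge_atTop M

theorem Par2_exp_small {M x : ℝ} (hM : 0 < M) (h : M ≤ Real.exp x) : Real.exp (-x) ≤ 1 / M := by
  rw [Real.exp_neg, one_div]
  exact inv_anti₀ hM h

theorem Par2_log (κ : ℕ) : Real.log (ll κ) ≤ 92 * (κ : ℝ) ^ 3 := by
  have h1 : (nu κ : ℝ) = 2 ^ κ ^ 3 := by simp [nu]
  rw [Par2_ll, Real.log_pow, h1, Real.log_pow]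
  have h2 : Real.log 2 ≤ 1 := by
    have := Real.log_two_lt_d9
    linarith
  have h3 : (0 : ℝ) ≤ (κ : ℝ) ^ 3 := by positivity
  push_cast
  nlinarith

theorem Par2_f1 {C : ℝ} (hC : 1 ≤ C) : ∀ᶠ κ : ℕ in atTop,
    ((ll κ : ℝ) + 1) * ((√(1 / (ll κ : ℝ) ^ 8) + C * Real.exp (-(par C κ).J0)) / (par C κ).e0) +
      ll κ * (C * Real.exp (-(par C κ).J0)) ≤ 1 / 200 := by
  filter_upwards [nu_big 0 1200, exp_big' 276 (1200 * C)] with κ h1 h2
  have hl1 := Par2_ll_one κ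
  have hl : (1200 : ℝ) ≤ ll κ := by
    have := Par2_nu_le_ll κ
    simp only [pow_zero, mul_one] at h1
    linarith
  have h3 : (nu κ : ℝ) ^ 276 = (ll κ : ℝ) ^ 3 := by rw [Par2_ll, ← pow_mul]
  rw [h3] at h2
  change ((ll κ : ℝ) + 1) * ((√(1 / (ll κ : ℝ) ^ 8) + C * Real.exp (-(κ : ℝ) ^ 4)) /
      (1 / (ll κ : ℝ) ^ 2)) + ll κ * (C * Real.exp (-(κ : ℝ) ^ 4)) ≤ 1 / 200
  generalize (ll κ : ℝ) = l at *
  have hl0 : 0 < l := by linarith
  have hs : √(1 / l ^ 8) = 1 / l ^ 4 := by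
    rw [show 1 / l ^ 8 = (1 / l ^ 4) ^ 2 by field_simp]
    exact Real.sqrt_sq (by positivity)
  have he := Par2_exp_small (by positivity) h2
  have he' : C * Real.exp (-(κ : ℝ) ^ 4) ≤ 1 / (1200 * l ^ 3) := by
    calc C * Real.exp (-(κ : ℝ) ^ 4) ≤ C * (1 / (1200 * C * l ^ 3)) := by gcongr
      _ = 1 / (1200 * l ^ 3) := by field_simp
  have hE : 0 ≤ C * Real.exp (-(κ : ℝ) ^ 4) := by positivity
  rw [hs]
  generalize C * Real.exp (-(κ : ℝ) ^ 4) = E at *
  have a1 : (l + 1) * ((1 / l ^ 4 + E) / (1 / l ^ 2)) ≤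
      (2 * l) * ((1 / l ^ 4 + 1 / (1200 * l ^ 3)) / (1 / l ^ 2)) := by
    gcongr
    linarith
  have a2 : (2 * l) * ((1 / l ^ 4 + 1 / (1200 * l ^ 3)) / (1 / l ^ 2)) = 2 / l + 1 / 600 := by
    field_simp
    ring
  have a3 : 2 / l ≤ 1 / 600 := by
    rw [div_le_div_iff₀ hl0 (by norm_num)]
    linarith
  have a4 : l * E ≤ 1 / 600 := by
    calc l * E ≤ l * (1 / (1200 * l ^ 3)) := by gcongr
      _ = 1 / (1200 * l ^ 2) := by field_simp
      _ ≤ 1 / 600 := by
        apply one_div_le_one_div_of_le (by norm_num)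
        nlinarith
  linarith

theorem Par2_f2 {C : ℝ} (hC : 1 ≤ C) : ∀ᶠ κ : ℕ in atTop,
    2 * (4 * √(2 * (1 / 10 ^ 8)) + C * Real.exp (-(par C κ).J0) / (1 / 10 ^ 8)) ≤ (1 / 400 : ℝ) := by
  filter_upwards [exp_big' 0 (10 ^ 12 * C)] with κ h2
  simp only [pow_zero, mul_one] at h2
  change 2 * (4 * √(2 * (1 / 10 ^ 8)) + C * Real.exp (-(κ : ℝ) ^ 4) / (1 / 10 ^ 8)) ≤ (1 / 400 : ℝ)
  have he := Par2_exp_small (by positivity) h2
  have he' : C * Real.exp (-(κ : ℝ) ^ 4) ≤ 1 / 10 ^ 12 := by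
    calc C * Real.exp (-(κ : ℝ) ^ 4) ≤ C * (1 / (10 ^ 12 * C)) := by gcongr
      _ = 1 / 10 ^ 12 := by field_simp
  have hs : √(2 * (1 / 10 ^ 8)) ≤ (15 / 10 ^ 5 : ℝ) := by
    rw [Real.sqrt_le_left (by norm_num)]
    norm_num
  generalize C * Real.exp (-(κ : ℝ) ^ 4) = E at *
  have : E / (1 / 10 ^ 8) = 10 ^ 8 * E := by field_simp
  rw [this]
  linarith

theorem Par2_f3 (C : ℝ) : ∀ᶠ κ : ℕ in atTop,
    10 * (√(12 * (par C κ).Le) + 2 * (par C κ).J0 + 4) / √(par C κ).A' ≤ (1 / 200 : ℝ) := by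
  filter_upwards [nu_big 4 (2 * 10 ^ 9), eventually_ge_atTop 1] with κ h1 hκ
  rw [par_Le C hκ]
  change 10 * (√(12 * ((ll κ : ℝ) / 2 ^ 60)) + 2 * (κ : ℝ) ^ 4 + 4) / √((ll κ : ℝ) / (8 * 10 ^ 8)) ≤
    (1 / 200 : ℝ)
  have hk : (1 : ℝ) ≤ (κ : ℝ) ^ 4 := one_le_pow₀ (by exact_mod_cast hκ)
  have hN := Par2_nu_le_pow κ (k := 46) (by norm_num)
  have hl : (ll κ : ℝ) = ((nu κ : ℝ) ^ 46) ^ 2 := by rw [Par2_ll, ← pow_mul]
  rw [hl]
  have hN' : 2 * 10 ^ 9 * (κ : ℝ) ^ 4 ≤ (nu κ : ℝ) ^ 46 := h1.trans hN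
  generalize (nu κ : ℝ) ^ 46 = r at *
  generalize (κ : ℝ) ^ 4 = q at *
  have hr : 0 < r := by linarith
  have s1 : √(12 * (r ^ 2 / 2 ^ 60)) ≤ 4 * r / 2 ^ 30 := by
    rw [Real.sqrt_le_left (by positivity)]
    have : (4 * r / 2 ^ 30) ^ 2 = 16 * (r ^ 2 / 2 ^ 60) := by ring
    rw [this]
    gcongr
    norm_num
  have s2 : r / 30000 ≤ √(r ^ 2 / (8 * 10 ^ 8)) := by
    apply Real.le_sqrt_of_sq_le
    rw [div_pow]
    gcongr
    norm_num
  calc 10 * (√(12 * (r ^ 2 / 2 ^ 60)) + 2 * q + 4) / √(r ^ 2 / (8 * 10 ^ 8))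
      ≤ 10 * (4 * r / 2 ^ 30 + 2 * q + 4) / (r / 30000) := by gcongr
    _ ≤ 1 / 200 := by
      rw [div_le_iff₀ (by positivity)]
      linarith

theorem Par2_f4 {C : ℝ} (hC : 1 ≤ C) : ∀ᶠ κ : ℕ in atTop,
    ((ll κ : ℝ) + 1) * (4 * √(2 * (par C κ).η1) +
      (1 + 16 * (par C κ).J0 ^ 2) * (C * Real.exp (-(κ : ℝ))) / (par C κ).η1) *
      ((5 * (2 * (par C κ).J0 + 4)) ^ 2 / (par C κ).A) ≤ 1 / 200 := by
  filter_upwards [exp_big 40 (10 ^ 34 * C), Par2_kap (10 ^ 34)] with κ h1 h2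
  change ((ll κ : ℝ) + 1) * (4 * √(2 * (1 / (κ : ℝ) ^ 24)) +
      (1 + 16 * ((κ : ℝ) ^ 4) ^ 2) * (C * Real.exp (-(κ : ℝ))) / (1 / (κ : ℝ) ^ 24)) *
      ((5 * (2 * (κ : ℝ) ^ 4 + 4)) ^ 2 / ((ll κ : ℝ) / (2 ^ 61 * 10 ^ 8))) ≤ 1 / 200
  have hl1 := Par2_ll_one κ
  generalize (ll κ : ℝ) = l at *
  generalize (κ : ℝ) = k at *
  have hk1 : 1 ≤ k := by linarith
  have hk0 : 0 < k := by linarith
  have he := Par2_exp_small (by positivity) h1
  have he' : C * Real.exp (-k) ≤ 1 / (10 ^ 34 * k ^ 40) := by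
    calc C * Real.exp (-k) ≤ C * (1 / (10 ^ 34 * C * k ^ 40)) := by gcongr
      _ = 1 / (10 ^ 34 * k ^ 40) := by field_simp
  have hE : 0 ≤ C * Real.exp (-k) := by positivity
  generalize C * Real.exp (-k) = E at *
  have s1 : √(2 * (1 / k ^ 24)) ≤ 2 / k ^ 12 := by
    rw [Real.sqrt_le_left (by positivity)]
    have : (2 / k ^ 12) ^ 2 = 4 * (1 / k ^ 24) := by field_simp; norm_num
    rw [this]
    gcongr
    norm_num
  have hk4 : 1 ≤ k ^ 4 := one_le_pow₀ hk1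
  have hk8 : 1 ≤ (k ^ 4) ^ 2 := one_le_pow₀ hk4
  have hkk : k ≤ k ^ 4 := le_self_pow₀ hk1 (by norm_num)
  calc (l + 1) * (4 * √(2 * (1 / k ^ 24)) + (1 + 16 * (k ^ 4) ^ 2) * E / (1 / k ^ 24)) *
        ((5 * (2 * k ^ 4 + 4)) ^ 2 / (l / (2 ^ 61 * 10 ^ 8)))
      ≤ (2 * l) * (4 * (2 / k ^ 12) +
          (17 * (k ^ 4) ^ 2) * (1 / (10 ^ 34 * k ^ 40)) / (1 / k ^ 24)) *
        ((5 * (6 * k ^ 4)) ^ 2 / (l / (2 ^ 61 * 10 ^ 8))) := by
        gcongr <;> linarith
    _ = 2 * 900 * (2 ^ 61 * 10 ^ 8) * (8 / k ^ 4 + 17 / 10 ^ 34) := by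
        field_simp
        ring
    _ ≤ 2 * 900 * (2 ^ 61 * 10 ^ 8) * (8 / 10 ^ 34 + 17 / 10 ^ 34) := by
        gcongr
        linarith
    _ ≤ 1 / 200 := by norm_num

theorem Par2_nb_le {C : ℝ} (hC : 1 ≤ C) (κ : ℕ) : ((par C κ).nb : ℝ) ≤ (κ : ℝ) ^ 2 := by
  change ((⌊(κ : ℝ) ^ 2 / (2 * 10 ^ 81 * C)⌋₊ : ℕ) : ℝ) ≤ (κ : ℝ) ^ 2
  refine (Nat.floor_le (by positivity)).trans ?_
  apply div_le_self (by positivity)
  nlinarith

theorem Par2_kap_le : ∀ᶠ κ : ℕ in atTop, 4 * √(ll κ : ℝ) / κ + 1 ≤ 5 * (nu κ : ℝ) ^ 46 / κ := by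
  filter_upwards [nu_big 1 1, Par2_kap 1] with κ h1 h2
  have hN := Par2_nu_le_pow κ (k := 46) (by norm_num)
  rw [sqrt_ll]
  simp only [pow_one, one_mul] at h1
  have hk0 : (0 : ℝ) < κ := by linarith
  rw [div_add_one hk0.ne']
  gcongr
  linarith

theorem Par2_f8 {C : ℝ} (hC : 1 ≤ C) : ∀ᶠ κ : ℕ in atTop,
    (4 * √(ll κ : ℝ) / κ + 1) *
      (30 * ((par C κ).V * κ ^ 2 + 2 * (par C κ).nb * κ * (par C κ).e0) /
        ((par C κ).ε ^ 2 * κ * √(par C κ).A)) ≤ 1 / 200 := by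
  filter_upwards [Par2_kap_le, nu_big 1 (2 * 10 ^ 24), Par2_kap 1] with κ h0 h1 h2
  have hnb := Par2_nb_le hC κ
  have hnb0 : (0 : ℝ) ≤ (par C κ).nb := Nat.cast_nonneg _
  change (4 * √(ll κ : ℝ) / κ + 1) *
      (30 * (1 / 10 ^ 24 * (κ : ℝ) ^ 2 + 2 * (par C κ).nb * κ * (1 / (ll κ : ℝ) ^ 2)) /
        ((1 / 200) ^ 2 * κ * √((ll κ : ℝ) / (2 ^ 61 * 10 ^ 8)))) ≤ 1 / 200
  have hl : (ll κ : ℝ) = ((nu κ : ℝ) ^ 46) ^ 2 := by rw [Par2_ll, ← pow_mul]
  have hr : (0 : ℝ) < (nu κ : ℝ) ^ 46 := by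
    have := Par2_nu_one κ
    positivity
  have s2 : (nu κ : ℝ) ^ 46 / (2 * 10 ^ 13) ≤ √((ll κ : ℝ) / (2 ^ 61 * 10 ^ 8)) := by
    apply Real.le_sqrt_of_sq_le
    rw [div_pow, hl]
    gcongr
    norm_num
  have hl1 := Par2_ll_one κ
  have hl2 : 2 * 10 ^ 24 * (κ : ℝ) ≤ (ll κ : ℝ) ^ 2 := by
    have a := Par2_nu_le_ll κ
    have b : (ll κ : ℝ) ≤ (ll κ : ℝ) ^ 2 := le_self_pow₀ hl1 (by norm_num)
    simp only [pow_one] at h1
    linarith
  have hk0 : (0 : ℝ) < κ := by linarith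
  have s3 : 1 / (ll κ : ℝ) ^ 2 ≤ 1 / (2 * 10 ^ 24 * (κ : ℝ)) :=
    one_div_le_one_div_of_le (by positivity) hl2
  generalize ((par C κ).nb : ℝ) = n at *
  generalize (nu κ : ℝ) ^ 46 = r at *
  calc (4 * √(ll κ : ℝ) / κ + 1) *
      (30 * (1 / 10 ^ 24 * (κ : ℝ) ^ 2 + 2 * n * κ * (1 / (ll κ : ℝ) ^ 2)) /
        ((1 / 200) ^ 2 * κ * √((ll κ : ℝ) / (2 ^ 61 * 10 ^ 8))))
      ≤ (5 * r / κ) *
      (30 * (1 / 10 ^ 24 * (κ : ℝ) ^ 2 + 2 * (κ : ℝ) ^ 2 * κ * (1 / (2 * 10 ^ 24 * (κ : ℝ)))) /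
        ((1 / 200) ^ 2 * κ * (r / (2 * 10 ^ 13)))) := by gcongr
    _ = 5 * 30 * 2 * 40000 * 2 * 10 ^ 13 / 10 ^ 24 := by
      field_simp
      ring
    _ ≤ 1 / 200 := by norm_num

theorem Par2_fq {C : ℝ} (hC : 1 ≤ C) {s : ℕ} (hs : 1 ≤ s) : ∀ᶠ κ : ℕ in atTop,
    1 / (10 ^ 83 * C * s) * (κ : ℝ) ^ 2 ≤ 1 / (2 * s) * (par C κ).nb / 4 := by
  filter_upwards [Par2_kap (4 * 10 ^ 81 * C), Par2_kap 1] with κ h1 h2
  change 1 / (10 ^ 83 * C * s) * (κ : ℝ) ^ 2 ≤
    1 / (2 * s) * ((⌊(κ : ℝ) ^ 2 / (2 * 10 ^ 81 * C)⌋₊ : ℕ) : ℝ) / 4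
  have hs' : (1 : ℝ) ≤ s := by exact_mod_cast hs
  have hkk : (κ : ℝ) ≤ (κ : ℝ) ^ 2 := le_self_pow₀ h2 (by norm_num)
  have hx : 2 ≤ (κ : ℝ) ^ 2 / (2 * 10 ^ 81 * C) := by
    rw [le_div_iff₀ (by positivity)]
    linarith
  have hf := Nat.lt_floor_add_one ((κ : ℝ) ^ 2 / (2 * 10 ^ 81 * C))
  have e : 1 / (10 ^ 83 * C * s) * (κ : ℝ) ^ 2 =
      1 / (2 * s) * (4 / 25 * ((κ : ℝ) ^ 2 / (2 * 10 ^ 81 * C))) / 4 := by
    field_simp
    ring
  rw [e]
  gcongr
  linarith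

theorem Par2_B0 (C : ℝ) (κ : ℕ) : 0 ≤ (par C κ).B := by
  change 0 ≤ 15 * (κ : ℝ) / √(par C κ).A
  positivity

theorem Par2_f9 {C : ℝ} (hC : 1 ≤ C) {s : ℕ} (hs : 1 ≤ s) : ∀ᶠ κ : ℕ in atTop,
    (4 * √(ll κ : ℝ) / κ + 1) *
      (Real.exp (-(1 / (2 * s) * (par C κ).nb / 4)) * (par C κ).B) ≤ 1 / 200 := by
  filter_upwards [Par2_kap_le, Par2_fq hC hs, Par2_kap (10 ^ 101 * C * s), Par2_kap 1]
    with κ h0 h1 h2 h3
  have hs' : (1 : ℝ) ≤ s := by exact_mod_cast hs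
  have hkk : (κ : ℝ) ≤ (κ : ℝ) ^ 2 := le_self_pow₀ h3 (by norm_num)
  have hx : (10 : ℝ) ^ 18 ≤ 1 / (10 ^ 83 * C * s) * (κ : ℝ) ^ 2 := by
    rw [one_div, inv_mul_eq_div, le_div_iff₀ (by positivity)]
    linarith
  have hy : (10 : ℝ) ^ 18 ≤ Real.exp (1 / (2 * s) * (par C κ).nb / 4) := by
    have := Real.add_one_le_exp (1 / (2 * s) * (par C κ).nb / 4 : ℝ)
    linarith
  have he := Par2_exp_small (by positivity) hy
  have hB := par_B C κ
  have hB0 := Par2_B0 C κ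
  have hr : (0 : ℝ) < (nu κ : ℝ) ^ 46 := by
    have := Par2_nu_one κ
    positivity
  have hk0 : (0 : ℝ) < κ := by linarith
  generalize (nu κ : ℝ) ^ 46 = r at *
  calc (4 * √(ll κ : ℝ) / κ + 1) *
      (Real.exp (-(1 / (2 * s) * (par C κ).nb / 4)) * (par C κ).B)
      ≤ (5 * r / κ) * (1 / 10 ^ 18 * (10 ^ 15 * κ / r)) := by gcongr
    _ = 1 / 200 := by
      field_simp
      norm_num

theorem Par2_f10 (C : ℝ) : ∀ᶠ κ : ℕ in atTop,
    ((ll κ : ℝ) + 1) * (par C κ).B ^ 2 * (32 * κ / ((par C κ).η1 * √(nu κ : ℝ))) ≤ 1 / 200 := by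
  filter_upwards [nu_big 54 (4 * 10 ^ 66), Par2_kap 1] with κ h1 h2
  have h5 := par_f5 C κ
  change ((ll κ : ℝ) + 1) * (par C κ).B ^ 2 * (32 * κ / (1 / (κ : ℝ) ^ 24 * √(nu κ : ℝ))) ≤ 1 / 200
  have hk0 : (0 : ℝ) < κ := by linarith
  have s1 : 2 * 10 ^ 33 * (κ : ℝ) ^ 27 ≤ √(nu κ : ℝ) := by
    apply Real.le_sqrt_of_sq_le
    calc (2 * 10 ^ 33 * (κ : ℝ) ^ 27) ^ 2 = 4 * 10 ^ 66 * (κ : ℝ) ^ 54 := by ring
      _ ≤ _ := h1
  calc ((ll κ : ℝ) + 1) * (par C κ).B ^ 2 * (32 * κ / (1 / (κ : ℝ) ^ 24 * √(nu κ : ℝ)))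
      ≤ (2 * 10 ^ 29 * κ ^ 2) * (32 * κ / (1 / (κ : ℝ) ^ 24 * (2 * 10 ^ 33 * (κ : ℝ) ^ 27))) := by
        gcongr
    _ = 32 / 10 ^ 4 := by
        field_simp
    _ ≤ 1 / 200 := by norm_num

theorem Par2_f12 (C : ℝ) : ∀ᶠ κ : ℕ in atTop,
    2 * ((ll κ : ℝ) + 1) * (8 * (nu κ : ℝ) ^ 45 / (par C κ).Le) * (par C κ).B ≤ 1 / 200 := by
  filter_upwards [nu_big 1 (10 ^ 38), eventually_ge_atTop 1] with κ h1 hκ
  rw [par_Le C hκ]
  have hB := par_B C κ
  have hB0 := Par2_B0 C κ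
  have hN := Par2_nu_one κ
  have hl1 := Par2_ll_one κ
  have hk : (1 : ℝ) ≤ κ := by exact_mod_cast hκ
  simp only [pow_one] at h1
  generalize (ll κ : ℝ) = l at *
  generalize (nu κ : ℝ) = N at *
  calc 2 * (l + 1) * (8 * N ^ 45 / (l / 2 ^ 60)) * (par C κ).B
      ≤ 2 * (2 * l) * (8 * N ^ 45 / (l / 2 ^ 60)) * (10 ^ 15 * κ / N ^ 46) := by
        gcongr
        linarith
    _ = 2 ^ 65 * 10 ^ 15 * κ / N := by
        field_simp
        ring
    _ ≤ 1 / 200 := by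
        rw [div_le_iff₀ (by positivity)]
        linarith

theorem Par2_fe1 {C : ℝ} (hC : 1 ≤ C) {s : ℕ} (hs : 1 ≤ s) : ∀ᶠ κ : ℕ in atTop,
    2 * (32 * κ * (1 + Real.log (ll κ)) / ((par C κ).η1 * nu κ)) ≤
      (1 / (10 ^ 83 * C * s)) ^ 2 / 16 := by
  filter_upwards [nu_big 28 (16 * 64 * 93 * (10 ^ 83 * C * s) ^ 2), Par2_kap 1] with κ h1 h2
  change 2 * (32 * κ * (1 + Real.log (ll κ)) / (1 / (κ : ℝ) ^ 24 * nu κ)) ≤
      (1 / (10 ^ 83 * C * s)) ^ 2 / 16
  have hs' : (1 : ℝ) ≤ s := by exact_mod_cast hs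
  have hD : (0 : ℝ) < 10 ^ 83 * C * s := by positivity
  have hlog := Par2_log κ
  have hk3 : (1 : ℝ) ≤ (κ : ℝ) ^ 3 := one_le_pow₀ h2
  have hk0 : (0 : ℝ) < κ := by linarith
  generalize (10 : ℝ) ^ 83 * C * s = D at *
  have a : 1 + Real.log (ll κ) ≤ 93 * (κ : ℝ) ^ 3 := by linarith
  calc 2 * (32 * κ * (1 + Real.log (ll κ)) / (1 / (κ : ℝ) ^ 24 * nu κ))
      ≤ 2 * (32 * κ * (93 * (κ : ℝ) ^ 3) /
          (1 / (κ : ℝ) ^ 24 * (16 * 64 * 93 * D ^ 2 * (κ : ℝ) ^ 28))) := by gcongr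
    _ = (1 / D) ^ 2 / 16 := by
        field_simp
        ring

theorem Par2_fe2 (C : ℝ) : ∀ᶠ κ : ℕ in atTop,
    ((ll κ : ℝ) + 1) * (par C κ).B ^ 2 * (1 + 2 * (2 + 2 * (nu κ : ℝ) ^ 2)) ≤ (nu κ : ℝ) ^ 3 := by
  filter_upwards [nu_big 2 (18 * 10 ^ 29)] with κ h1
  have h5 := par_f5 C κ
  have hN := Par2_nu_one κ
  have hN2 : (1 : ℝ) ≤ (nu κ : ℝ) ^ 2 := one_le_pow₀ hN
  calc ((ll κ : ℝ) + 1) * (par C κ).B ^ 2 * (1 + 2 * (2 + 2 * (nu κ : ℝ) ^ 2))
      ≤ (2 * 10 ^ 29 * κ ^ 2) * (9 * (nu κ : ℝ) ^ 2) := by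
        gcongr
        linarith
    _ = (18 * 10 ^ 29 * κ ^ 2) * (nu κ : ℝ) ^ 2 := by ring
    _ ≤ (nu κ : ℝ) * (nu κ : ℝ) ^ 2 := by gcongr
    _ = (nu κ : ℝ) ^ 3 := by ring

theorem par_bd {C : ℝ} (hC : 1 ≤ C) {s : ℕ} (hs : 1 ≤ s) : ∀ᶠ κ : ℕ in atTop, ParBd C s κ := by
  filter_upwards [par_ok hC, eventually_ge_atTop 1, Par2_f1 hC, Par2_f2 hC, Par2_f3 C, Par2_f4 hC,
    Par2_f8 hC, Par2_f9 hC hs, Par2_f10 C, Par2_f12 C, Par2_fq hC hs, Par2_fe1 hC hs, Par2_fe2 C]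
    with κ hok hκ f1 f2 f3 f4 f8 f9 f10 f12 fq fe1 fe2
  refine ⟨hok, ?_, ?_, f1, f2, f3, f4, par_f5 C κ, f8, f9, f10, f12, fq, fe1, fe2⟩
  · rw [par_Le C hκ]
    change (ll κ : ℝ) / (2 ^ 61 * 10 ^ 8) = _
    ring
  · rw [par_L1 C hκ]
    change (ll κ : ℝ) / (8 * 10 ^ 8) = _
    ring

end Pool.Agent.Work.MP_01d39a_al.Ct
end

-- merged part: Pool.Agent.Work.MP_01d39a_al.Ct.HCx
section
/-!
Section 4, first step: without a paradoxical decomposition with `2 + 3` pieces there are dense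
finite configurations.
-/

open Finset
open scoped Pointwise

namespace Pool.Agent.Work.MP_01d39a_al.Ct

variable {G : Type} [Group G]

/-- A paradoxical decomposition with `2 + 3` pieces. -/
def Par23 (G : Type) [Group G] : Prop :=
  ∃ (A : Fin 2 → Set G) (B : Fin 3 → Set G) (g : Fin 2 → G) (h : Fin 3 → G),
    (∀ i j, i ≠ j → Disjoint (A i) (A j)) ∧ (∀ i j, i ≠ j → Disjoint (B i) (B j)) ∧
    (∀ i j, Disjoint (A i) (B j)) ∧ (⋃ i, g i • A i) = Set.univ ∧ (⋃ j, h j • B j) = Set.univ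

theorem HCx_dec (a : G) (ha : ∀ k : ℤ, a ^ k = 1 → k = 0) (g : Fin 3 → G) (i : G → Fin 3)
    (hinj : ∀ (y y' : G) (k : ℤ), y * g (i y) * a ^ k = y' * g (i y') → y = y') : Par23 G := by
  set ψ : G → G := fun y => y * g (i y) with hψ
  let A₁ : Set G := {x | ∃ (y : G) (k : ℕ), x⁻¹ = ψ y * a ^ (k + 1)}
  let A₂ : Set G := {x | ¬ ∃ (y : G) (k : ℕ), x⁻¹ = ψ y * a ^ k}
  let B : Fin 3 → Set G := fun j => {x | ∃ y, i y = j ∧ x⁻¹ = ψ y}
  have h12 : Disjoint A₁ A₂ := by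
    rw [Set.disjoint_left]
    rintro x ⟨y, k, h⟩ h'
    exact h' ⟨y, k + 1, h⟩
  refine ⟨![A₁, A₂], B, ![a, 1], g, ?_, ?_, ?_, ?_, ?_⟩
  · intro j j' hj
    fin_cases j <;> fin_cases j'
    · exact absurd rfl hj
    · exact h12
    · exact h12.symm
    · exact absurd rfl hj
  · intro j j' hj
    rw [Set.disjoint_left]
    rintro x ⟨y, h1, h2⟩ ⟨y', h3, h4⟩
    have := hinj y y' 0 (by simpa [hψ] using h2.symm.trans h4)
    exact hj (by rw [← h1, ← h3, this])
  · intro j j'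
    rw [Set.disjoint_left]
    fin_cases j
    · rintro x ⟨y, k, h⟩ ⟨y', -, h'⟩
      have h1 : ψ y * a ^ ((k + 1 : ℕ) : ℤ) = ψ y' := by rw [zpow_natCast, ← h, h']
      have h2 := hinj y y' _ h1
      subst h2
      have := ha ((k + 1 : ℕ) : ℤ) (by simpa using h1)
      omega
    · rintro x h ⟨y', -, h'⟩
      exact h ⟨y', 0, by simpa using h'⟩
  · rw [Set.eq_univ_iff_forall]
    intro x
    simp only [Set.mem_iUnion]
    by_cases h : ∃ (y : G) (k : ℕ), x⁻¹ = ψ y * a ^ k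
    · obtain ⟨y, k, h⟩ := h
      exact ⟨0, a⁻¹ * x, ⟨y, k, by rw [pow_succ, ← mul_assoc, ← h]; simp⟩, by simp⟩
    · exact ⟨1, x, h, by simp⟩
  · rw [Set.eq_univ_iff_forall]
    intro x
    simp only [Set.mem_iUnion]
    exact ⟨i x⁻¹, (ψ x⁻¹)⁻¹, ⟨x⁻¹, rfl, by simp⟩, by simp [hψ]⟩

theorem HCx_lev {α Q W : Type} [DecidableEq Q] (B : ℕ → Finset α) (T : Finset W) (π : α → Q)
    (ρ : W → Q) (h : ∀ i, ∀ x ∈ B i, i < #{w ∈ T | ρ w = π x}) (n : ℕ) :
    ∑ i ∈ range n, #((B i).image π) ≤ #T := by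
  calc ∑ i ∈ range n, #((B i).image π)
      ≤ ∑ i ∈ range n, #{q ∈ T.image ρ | i < #{w ∈ T | ρ w = q}} := by
        refine sum_le_sum fun i _ => card_le_card fun q hq => ?_
        obtain ⟨x, hx, rfl⟩ := mem_image.1 hq
        obtain ⟨w, hw⟩ := card_pos.1 ((Nat.zero_le _).trans_lt (h i x hx))
        exact mem_filter.2 ⟨mem_image.2 ⟨w, mem_filter.1 hw⟩, h i x hx⟩
    _ = ∑ q ∈ T.image ρ, #{i ∈ range n | i < #{w ∈ T | ρ w = q}} := by
        simp only [card_filter]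
        exact sum_comm
    _ ≤ ∑ q ∈ T.image ρ, #{w ∈ T | ρ w = q} :=
        sum_le_sum fun q _ => (card_le_card fun i hi => mem_range.2 (mem_filter.1 hi).2).trans
          (card_range _).le
    _ = #T := (card_eq_sum_card_image ρ T).symm

theorem hc_of_not_par (h : ¬ Par23 G) : HC G := by
  classical
  intro α β hα hβ
  let μ : G → G ⧸ Subgroup.zpowers (α ^ 3) := QuotientGroup.mk
  let g : Fin 3 → G := fun j => β ^ (j : ℕ) * α ^ (j : ℕ)
  have h3 : ∀ k : ℤ, (α ^ 3) ^ k = 1 → k = 0 := fun k hk => by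
    have := hα (3 * k) (by rw [zpow_mul]; exact_mod_cast hk)
    omega
  obtain ⟨A, hA⟩ : ∃ A : Finset G, #(A.biUnion fun y => univ.image fun j => μ (y * g j)) < #A := by
    by_contra hn
    obtain ⟨f, f1, f2⟩ := (all_card_le_biUnion_card_iff_exists_injective
      fun y => univ.image fun j => μ (y * g j)).1 fun s => not_lt.1 fun a => hn ⟨s, a⟩
    choose i _ hi using fun y => mem_image.1 (f2 y)
    refine h (HCx_dec _ h3 g i fun y y' k e => f1 ?_)
    rw [← hi, ← hi, ← e]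
    exact QuotientGroup.eq.2 ⟨k, (inv_mul_cancel_left _ _).symm⟩
  set T := A.biUnion fun y => univ.image fun j => μ (y * g j)
  let m : G → ℕ := fun x => #{j : Fin 3 | x * (β ^ (j : ℕ))⁻¹ ∈ A}
  let U : Finset G := univ.biUnion fun j : Fin 3 => A.image (· * β ^ (j : ℕ))
  let B : ℕ → Finset G := fun i => {x ∈ U | i < m x}
  have le3 : α ^ 3 ∈ Subgroup.zpowers α := Subgroup.npow_mem_zpowers α 3
  have a1 := HCx_lev B T (QuotientGroup.mk : G → G ⧸ Subgroup.zpowers α)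
    (Subgroup.quotientMapOfLE (Subgroup.zpowers_le.2 le3)) (fun i x hx =>
      (mem_filter.1 hx).2.trans_le (card_le_card_of_injOn (fun j => μ (x * α ^ (j : ℕ)))
        (fun j hj => by
          simp only [coe_filter, mem_univ, true_and, Set.mem_ofPred_eq] at hj ⊢
          refine ⟨mem_biUnion.2 ⟨_, hj, mem_image.2 ⟨j, mem_univ _, by simp [g]⟩⟩, ?_⟩
          exact (QuotientGroup.eq.2 (by simp [Subgroup.npow_mem_zpowers])).symm)
        fun j _ j' _ e => by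
          obtain ⟨k, hk⟩ := QuotientGroup.eq.1 e
          have := hα (3 * k + (j : ℕ) - (j' : ℕ)) (by
            rw [zpow_sub, add_comm, zpow_add, zpow_mul, zpow_ofNat, zpow_natCast, zpow_natCast]
            simp only at hk
            rw [hk]
            group)
          omega)) 3
  have a2 := HCx_lev B A (QuotientGroup.mk : G → G ⧸ Subgroup.zpowers β) QuotientGroup.mk
    (fun i x hx => (mem_filter.1 hx).2.trans_le
      (card_le_card_of_injOn (fun j => x * (β ^ (j : ℕ))⁻¹)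
        (fun j hj => by
          simp only [coe_filter, mem_univ, true_and, Set.mem_ofPred_eq] at hj ⊢
          exact ⟨hj, QuotientGroup.eq.2 (by simp [Subgroup.npow_mem_zpowers])⟩)
        fun j _ j' _ e => by
          have := hβ ((j : ℕ) - (j' : ℕ)) (by
            rw [zpow_sub, zpow_natCast, zpow_natCast, inv_injective (mul_left_cancel e),
              mul_inv_cancel])
          omega)) 3
  have a3 : 3 * #A ≤ ∑ i ∈ range 3, #(B i) := by
    calc 3 * #A = ∑ j : Fin 3, #(A.image (· * β ^ (j : ℕ))) := by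
          simp only [card_image_of_injective _ (mul_left_injective _), sum_const, card_univ,
            Fintype.card_fin, smul_eq_mul]
      _ ≤ ∑ j : Fin 3, #{x ∈ U | x * (β ^ (j : ℕ))⁻¹ ∈ A} :=
          sum_le_sum fun j _ => card_le_card fun x hx => mem_filter.2
            ⟨mem_biUnion.2 ⟨j, mem_univ _, hx⟩, by
              obtain ⟨y, hy, rfl⟩ := mem_image.1 hx
              simpa using hy⟩
      _ = ∑ x ∈ U, m x := by
          simp only [m, card_filter]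
          exact sum_comm
      _ ≤ ∑ x ∈ U, #{i ∈ range 3 | i < m x} := sum_le_sum fun x _ => by
          have : m x ≤ 3 := (card_filter_le _ _).trans (by simp)
          exact (card_range _).ge.trans (card_le_card fun i hi => mem_filter.2
            ⟨mem_range.2 ((mem_range.1 hi).trans_le this), mem_range.1 hi⟩)
      _ = ∑ i ∈ range 3, #(B i) := by
          simp only [B, card_filter]
          exact sum_comm
  obtain ⟨i, -, hi⟩ := exists_lt_of_sum_lt (s := range 3)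
    (f := fun i => 3 * (#((B i).image (QuotientGroup.mk : G → G ⧸ Subgroup.zpowers α)) +
      #((B i).image (QuotientGroup.mk : G → G ⧸ Subgroup.zpowers β)))) (g := fun i => 2 * #(B i))
    (by
      rw [← mul_sum, ← mul_sum, sum_add_distrib]
      omega)
  exact ⟨B i, card_pos.1 (by omega), by convert hi⟩

end Pool.Agent.Work.MP_01d39a_al.Ct
end
end

-- merged part: Pool.Agent.Work.MP_01d39a_al.Ct.Clo1
section
-- merged part: Pool.Agent.Work.MP_01d39a_al.Ct.Ber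
section
/-!
TASK CT Ber. Facts on independent coins `bern V θ = Measure.infinitePi fun _ => bm θ`.
Hints: `bernoulliMeasure_real_apply_of_mem_of_notMem`, `Set.projIcc_of_mem`, `Measure.infinitePi_pi`,
`Measure.eq_infinitePi`, `iIndepFun_infinitePi`, `iIndepFun.indepFun_finset`,
`iIndepFun_iff_map_fun_eq_infinitePi_map`.
bern_indep: reduce to a product statement: the coordinate `x` is independent of the sigma algebra of the other
coordinates (`iIndepFun.indepFun_finset` handles finite sets; in general use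
`A = (fun σ => update σ x false) ⁻¹' A` and `indep_iSup_of_disjoint` / `IndepFun` of `σ ↦ σ x` and
`σ ↦ (σ ∘ Subtype.val : {y // y ≠ x} → Bool)`).
bern_none_open: induction on `s` or independence of the finitely many block variables.
bern_or: `Measure.eq_infinitePi` on boxes; expand the product measure with `Measure.prod_apply`, for fixed first
configuration the section is a box; alternatively show that the pairs `(p.1 v, p.2 v)` are iIndepFun.
mc_spr: average over `f k = a ^ k`, `k : Fin n`; the points `(a^k, a^k γ)` are distinct, variance at most `1/n`.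
-/

open MeasureTheory ProbabilityTheory Filter Topology
open scoped BigOperators ENNReal NNReal

namespace Pool.Agent.Work.MP_01d39a_al.Ct

variable {G : Type} [Group G]

theorem bm_true {θ : ℝ} (h0 : 0 ≤ θ) (h1 : θ ≤ 1) : (bm θ).real {true} = θ := by
  rw [bm, bernoulliMeasure_real_apply_of_mem_of_notMem _ (measurableSet_singleton _) rfl (by simp),
    Set.projIcc_of_mem _ ⟨h0, h1⟩]

theorem bm_false {θ : ℝ} (h0 : 0 ≤ θ) (h1 : θ ≤ 1) : (bm θ).real {false} = 1 - θ := by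
  rw [bm, bernoulliMeasure_real_apply_of_notMem_of_mem _ (measurableSet_singleton _) (by simp) rfl,
    Set.projIcc_of_mem _ ⟨h0, h1⟩]

theorem Ber_all {V : Type} {θ : ℝ} (h0 : 0 ≤ θ) (h1 : θ ≤ 1) (E : Finset V) :
    (bern V θ).real {σ | ∀ e ∈ E, σ e = true} = θ ^ E.card := by
  have e : {σ : V → Bool | ∀ e ∈ E, σ e = true} = Set.pi E fun _ => {true} := by
    ext σ; simp
  rw [e, Measure.real, bern, Measure.infinitePi_pi _ fun _ _ => measurableSet_singleton _,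
    Finset.prod_const, ENNReal.toReal_pow, ← Measure.real, bm_true h0 h1]

theorem Ber_meas {V : Type} (E : Finset V) :
    MeasurableSet {σ : V → Bool | ∀ e ∈ E, σ e = true} := by
  have e : {σ : V → Bool | ∀ e ∈ E, σ e = true} = Set.pi E fun _ => {true} := by
    ext σ; simp
  rw [e]
  exact MeasurableSet.pi E.countable_toSet fun _ _ => measurableSet_singleton _

theorem Ber_meas_one {V : Type} (x : V) : MeasurableSet {σ : V → Bool | σ x = true} := by
  simpa using Ber_meas {x}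

theorem Ber_sub {V : Type} (S : Set V) {A : Set (V → Bool)} (hA : MeasurableSet A)
    (h : ∀ σ τ : V → Bool, (∀ v ∈ S, σ v = τ v) → σ ∈ A → τ ∈ A) :
    MeasurableSet[⨆ v ∈ S, MeasurableSpace.comap (fun σ : V → Bool => σ v) inferInstance] A := by
  classical
  have hr : Measurable[⨆ v ∈ S, MeasurableSpace.comap (fun σ : V → Bool => σ v) inferInstance]
      fun (σ : V → Bool) (v : V) => if v ∈ S then σ v else false := by
    refine @measurable_pi_lambda _ _ _ (id _) _ _ fun v => ?_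
    by_cases hv : v ∈ S
    · simp only [if_pos hv]
      exact Measurable.of_comap_le (le_iSup₂_of_le v hv le_rfl)
    · simp only [if_neg hv]
      exact measurable_const
  have e : A = (fun (σ : V → Bool) (v : V) => if v ∈ S then σ v else false) ⁻¹' A := by
    ext σ
    exact ⟨h _ _ fun v hv => by simp [hv], h _ _ fun v hv => by simp [hv]⟩
  rw [e]
  exact hr hA

/-- Events that depend on disjoint sets of coordinates are independent. -/
theorem Ber_indep {V : Type} (θ : ℝ) (S : Set V) {A B : Set (V → Bool)} (hA : MeasurableSet A)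
    (hB : MeasurableSet B) (h : ∀ σ τ : V → Bool, (∀ v ∈ S, σ v = τ v) → σ ∈ A → τ ∈ A)
    (h' : ∀ σ τ : V → Bool, (∀ v ∈ Sᶜ, σ v = τ v) → σ ∈ B → τ ∈ B) :
    (bern V θ).real (A ∩ B) = (bern V θ).real A * (bern V θ).real B := by
  have hi : iIndepFun (fun (v : V) (σ : V → Bool) => σ v) (bern V θ) :=
    iIndepFun_infinitePi (X := fun _ b => b) fun _ => measurable_id
  have h2 := indep_iSup_of_disjoint (fun v => (measurable_pi_apply v).comap_le) hi.iIndep
    (disjoint_compl_right (a := S))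
  rw [Measure.real, (Indep_iff _ _ _).1 h2 A B (Ber_sub S hA h) (Ber_sub Sᶜ hB h'),
    ENNReal.toReal_mul]
  rfl

theorem bern_coord {V : Type} {θ : ℝ} (h0 : 0 ≤ θ) (h1 : θ ≤ 1) (x : V) :
    (bern V θ).real {σ | σ x = true} = θ := by
  simpa using Ber_all h0 h1 {x}

theorem bern_all_open {V : Type} {θ : ℝ} (h0 : 0 ≤ θ) (h1 : θ ≤ 1) (E : Finset V) :
    (bern V θ).real {σ | ∀ e ∈ E, σ e = true} = θ ^ E.card := Ber_all h0 h1 E

theorem bern_indep {V : Type} [DecidableEq V] {θ : ℝ} (h0 : 0 ≤ θ) (h1 : θ ≤ 1) (x : V)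
    {A : Set (V → Bool)} (hA : MeasurableSet A)
    (hx : ∀ σ b, Function.update σ x b ∈ A ↔ σ ∈ A) :
    (bern V θ).real {σ | σ ∈ A ∧ σ x = true} = θ * (bern V θ).real A := by
  have h := Ber_indep θ {x} (Ber_meas_one x) hA
    (fun σ τ e hσ => (e x rfl).symm.trans hσ) (fun σ τ e hσ => by
      have e' : τ = Function.update σ x (τ x) := by
        funext v
        by_cases hv : v = x
        · subst hv; simp
        · rw [Function.update_of_ne hv, e v hv]
      rw [e', hx]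
      exact hσ)
  rw [bern_coord h0 h1, Set.inter_comm] at h
  exact h

theorem bern_none_open {V ι : Type} {θ : ℝ} (h0 : 0 ≤ θ) (h1 : θ ≤ 1) (s : Finset ι)
    (E : ι → Finset V) (hd : ∀ i ∈ s, ∀ j ∈ s, i ≠ j → Disjoint (E i) (E j)) :
    (bern V θ).real {σ | ∀ i ∈ s, ¬ ∀ e ∈ E i, σ e = true} = ∏ i ∈ s, (1 - θ ^ (E i).card) := by
  classical
  induction s using Finset.induction_on with
  | empty => simp
  | insert i s hi ih =>
    have hm : MeasurableSet {σ : V → Bool | ∀ j ∈ s, ¬ ∀ e ∈ E j, σ e = true} := by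
      have e : {σ : V → Bool | ∀ j ∈ s, ¬ ∀ e ∈ E j, σ e = true} =
          ⋂ j ∈ s, {σ : V → Bool | ∀ e ∈ E j, σ e = true}ᶜ := by
        ext σ; simp only [Set.mem_ofPred_eq, Set.mem_iInter, Set.mem_compl_iff]
      rw [e]
      exact s.measurableSet_biInter fun j _ => (Ber_meas _).compl
    have h := Ber_indep θ (E i : Set V) (Ber_meas (E i)).compl hm
      (fun σ τ e hσ hτ => hσ fun v hv => (e v hv).trans (hτ v hv))
      (fun σ τ e hσ j hj hτ => hσ j hj fun v hv => (e v fun hv' => Finset.disjoint_left.1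
        (hd i (Finset.mem_insert_self i s) j (Finset.mem_insert_of_mem hj)
          (fun e => hi (e ▸ hj))) hv' hv).trans (hτ v hv))
    rw [probReal_compl_eq_one_sub (Ber_meas _), Ber_all h0 h1,
      ih fun j hj k hk => hd j (Finset.mem_insert_of_mem hj) k (Finset.mem_insert_of_mem hk)] at h
    rw [Finset.prod_insert hi, ← h]
    congr 1
    ext σ
    simp only [Set.mem_ofPred_eq, Finset.forall_mem_insert, Set.mem_inter_iff, Set.mem_compl_iff]

theorem Ber_or_one {θ h : ℝ} (h0 : 0 ≤ θ) (h1 : θ ≤ 1) (h0' : 0 ≤ h) (h1' : h ≤ 1) :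
    ((bm θ).prod (bm h)).map (fun p : Bool × Bool => p.1 || p.2) = bm (θ + h - θ * h) := by
  have hm : Measurable fun p : Bool × Bool => p.1 || p.2 := measurable_of_countable _
  have := Measure.isProbabilityMeasure_map (μ := (bm θ).prod (bm h)) hm.aemeasurable
  have hf : (((bm θ).prod (bm h)).map fun p : Bool × Bool => p.1 || p.2).real {false} =
      (bm (θ + h - θ * h)).real {false} := by
    have e : (fun p : Bool × Bool => p.1 || p.2) ⁻¹' {false} = {false} ×ˢ {false} := by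
      ext p; simp [Prod.ext_iff]
    rw [bm_false (by nlinarith) (by nlinarith), map_measureReal_apply hm (measurableSet_singleton _),
      e, measureReal_prod_prod, bm_false h0 h1, bm_false h0' h1']
    ring
  refine Measure.ext_of_measureReal_singleton fun b => ?_
  cases b
  · exact hf
  · have e : ({true} : Set Bool) = {false}ᶜ := by ext b; simp
    rw [e, probReal_compl_eq_one_sub (measurableSet_singleton _),
      probReal_compl_eq_one_sub (measurableSet_singleton _), hf]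

theorem bern_or (V : Type) {θ h : ℝ} (h0 : 0 ≤ θ) (h1 : θ ≤ 1) (h0' : 0 ≤ h) (h1' : h ≤ 1) :
    MeasurePreserving (fun (p : (V → Bool) × (V → Bool)) (v : V) => p.1 v || p.2 v)
      ((bern V θ).prod (bern V h)) (bern V (θ + h - θ * h)) := by
  have hm : Measurable fun (p : (V → Bool) × (V → Bool)) (v : V) => p.1 v || p.2 v :=
    measurable_pi_lambda _ fun v =>
      (measurable_of_countable fun p : Bool × Bool => p.1 || p.2).comp
        (f := fun p : (V → Bool) × (V → Bool) => (p.1 v, p.2 v)) (by fun_prop)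
  refine ⟨hm, Measure.eq_infinitePi _ fun s t ht => ?_⟩
  have hb : MeasurableSet (Set.pi (s : Set V) t) :=
    MeasurableSet.pi s.countable_toSet fun v _ => ht v
  let g : V → Bool → ℝ≥0∞ := fun v b => bm h {b' | (b || b') ∈ t v}
  have hg : ∀ v, Measurable (g v) := fun v => measurable_of_countable _
  have e1 : ∀ σ : V → Bool, bern V h (Prod.mk σ ⁻¹'
      ((fun (p : (V → Bool) × (V → Bool)) (v : V) => p.1 v || p.2 v) ⁻¹' Set.pi s t)) =
      ∏ v ∈ s, g v (σ v) := fun σ =>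
    Measure.infinitePi_pi (fun _ : V => bm h) (s := s) (t := fun v => {b' | (σ v || b') ∈ t v})
      fun _ _ => MeasurableSet.of_discrete
  rw [Measure.map_apply hm hb, Measure.prod_apply (hm hb)]
  simp only [e1]
  rw [bern, lintegral_prod_eq_prod_lintegral_of_indepFun s (fun v (σ : V → Bool) => g v (σ v))
    (iIndepFun_infinitePi hg) fun v => (hg v).comp (measurable_pi_apply v)]
  refine Finset.prod_congr rfl fun v _ => ?_
  rw [(measurePreserving_eval_infinitePi (fun _ : V => bm θ) v).lintegral_comp (hg v),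
    ← Ber_or_one h0 h1 h0' h1', Measure.map_apply (measurable_of_countable _) (ht v),
    Measure.prod_apply MeasurableSet.of_discrete]
  rfl

theorem Ber_cov {V : Type} [DecidableEq V] {θ : ℝ} (h0 : 0 ≤ θ) (h1 : θ ≤ 1) (x y : V) :
    Integrable (fun σ : V → Bool => (ind (σ x = true) - θ) * (ind (σ y = true) - θ)) (bern V θ) ∧
    ∫ σ, (ind (σ x = true) - θ) * (ind (σ y = true) - θ) ∂bern V θ ≤ if x = y then 1 else 0 := by
  have e : (fun σ : V → Bool => (ind (σ x = true) - θ) * (ind (σ y = true) - θ)) =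
      fun σ => ind (σ x = true ∧ σ y = true) - θ * ind (σ x = true) - θ * ind (σ y = true) +
        θ ^ 2 := by
    funext σ; rw [ind_and]; ring
  have m : MeasurableSet {σ : V → Bool | σ x = true ∧ σ y = true} :=
    (Ber_meas_one x).inter (Ber_meas_one y)
  have i1 := integrable_ind (bern V θ) (E := fun σ => σ x = true ∧ σ y = true) m
  have i2 := (integrable_ind (bern V θ) (Ber_meas_one x)).const_mul θ
  have i3 := (integrable_ind (bern V θ) (Ber_meas_one y)).const_mul θ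
  have i4 : Integrable (fun σ : V → Bool => ind (σ x = true ∧ σ y = true) - θ * ind (σ x = true))
      (bern V θ) := i1.sub i2
  have i5 : Integrable (fun σ : V → Bool => ind (σ x = true ∧ σ y = true) - θ * ind (σ x = true) -
      θ * ind (σ y = true)) (bern V θ) := i4.sub i3
  rw [e]
  refine ⟨i5.add (integrable_const _), ?_⟩
  rw [integral_add i5 (integrable_const _), integral_sub i4 i3,
    integral_sub i1 i2, integral_const_mul, integral_const_mul, integral_ind _ m,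
    integral_ind _ (Ber_meas_one x), integral_ind _ (Ber_meas_one y), bern_coord h0 h1,
    bern_coord h0 h1, integral_const, probReal_univ, one_smul]
  split_ifs with hxy
  · subst hxy
    simp only [and_self]
    rw [bern_coord h0 h1]
    nlinarith
  · have h := Ber_all h0 h1 {x, y}
    rw [Finset.card_pair hxy] at h
    simp only [Finset.mem_insert, Finset.mem_singleton, forall_eq_or_imp, forall_eq] at h
    rw [h]
    nlinarith

theorem mc_spr (c : Ctx G) {θ : ℝ} (h0 : 0 ≤ θ) (h1 : θ ≤ 1) (γ : G) :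
    MC (Sys.bern G (G × G) θ) {σ | σ (1, γ) = true} θ := by
  classical
  intro ε hε
  obtain ⟨n, hn⟩ := exists_nat_one_div_lt hε
  refine ⟨Fin (n + 1), inferInstance, inferInstance, fun k => c.a ^ ((k : ℕ) : ℤ), ?_⟩
  let x : Fin (n + 1) → G × G := fun k => c.a ^ ((k : ℕ) : ℤ) • ((1 : G), γ)
  have hx : ∀ i j, x i = x j ↔ i = j := fun i j => by
    refine ⟨fun e => ?_, fun e => by rw [e]⟩
    have e1 := congrArg Prod.fst e
    simp only [x, Prod.smul_fst, smul_eq_mul, mul_one] at e1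
    exact Fin.ext (by exact_mod_cast c.zpow_inj e1)
  have hp : (0 : ℝ) < n + 1 := by positivity
  have e : ∀ σ : G × G → Bool, ((𝔼 i, ind (σ (x i) = true)) - θ) ^ 2 =
      (1 / (n + 1 : ℝ)) ^ 2 *
        ∑ i, ∑ j, (ind (σ (x i) = true) - θ) * (ind (σ (x j) = true) - θ) := fun σ => by
    rw [← Finset.sum_mul_sum, ← sq, ← mul_pow, Finset.sum_sub_distrib, Fintype.expect_eq_sum_div_card]
    congr 1
    simp only [Fintype.card_fin, Finset.sum_const, Finset.card_univ, nsmul_eq_mul]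
    push_cast
    field_simp
  show ∫ σ, ((𝔼 i, ind (σ (x i) = true)) - θ) ^ 2 ∂bern (G × G) θ ≤ ε
  simp only [e]
  rw [integral_const_mul, integral_finsetSum _ fun i _ =>
    integrable_finsetSum _ fun j _ => (Ber_cov h0 h1 (x i) (x j)).1]
  have h2 : ∑ i, ∫ σ, ∑ j, (ind (σ (x i) = true) - θ) * (ind (σ (x j) = true) - θ)
      ∂bern (G × G) θ ≤ ∑ _i : Fin (n + 1), (1 : ℝ) := by
    refine Finset.sum_le_sum fun i _ => ?_
    rw [integral_finsetSum _ fun j _ => (Ber_cov h0 h1 (x i) (x j)).1]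
    refine (Finset.sum_le_sum fun j _ => (Ber_cov h0 h1 (x i) (x j)).2).trans ?_
    simp [hx]
  simp only [Finset.sum_const, Finset.card_univ, Fintype.card_fin, nsmul_eq_mul, mul_one] at h2
  refine (mul_le_mul_of_nonneg_left h2 (sq_nonneg _)).trans ?_
  push_cast
  rw [sq, mul_assoc, one_div_mul_cancel hp.ne', mul_one]
  exact hn.le

end Pool.Agent.Work.MP_01d39a_al.Ct
end

-- merged part: Pool.Agent.Work.MP_01d39a_al.Ct.DB
section
/-!
TASK CT DB. The deletion bound (end of section 4).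
Take `N` from `htie`, `α = a^N`, `β = W α W⁻¹` (infinite order), `B` from `HC`, `r` an injection `G → ℕ`, `n = |B|`.
By invariance (`Sys.pre_real` for `X.prod (Sys.bern G G θ₁)`) `n * P(E) = ∑ x ∈ B, P(E at mv x)`. Pointwise, with
`Γ ω = cosetGr .. (fun y => LamW (mv ω y) w) ..` and `o = σ`: `E at x` implies `¬ DelB` (`del_of_delB`), so
`ind (E at x) ≤ ind (¬ DelB ∧ ¬ LT ∧ ¬ LL) + ind (LT ∧ good top time) + ind (LL ∧ Use)`.
First sum `≤ |VB| < 2n/3` (`count_pendant`, `card_VB`). Second: union over `x'` with `Chain` (independent of `ω`,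
`chain_indep`, `count_chain`), `t`, `t'` (`Finset.exists_mem_eq_sup'`), `alt_of_chain`, `htie`. Third: for fixed `ω`,
`bern_indep` with `use_congr` gives `θ₁ P(LL ∧ Use) = P(LL ∧ Use ∧ open)`, then `count_useful`; integrate over `ω`
(`Measure.prod_apply`, or `integral_prod`; measurability: `measurableSet_eqvGen`, `measurable_LamW`; cosets are countable).
-/

open MeasureTheory ProbabilityTheory Filter Topology
open scoped BigOperators ENNReal NNReal

namespace Pool.Agent.Work.MP_01d39a_al.Ct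

variable {G : Type} [Group G]

section abstract

variable {Ω ι V : Type} [MeasurableSpace Ω]

theorem DB_sum_le (P : Measure Ω) [IsProbabilityMeasure P] (s : Finset ι) {E : ι → Ω → Prop}
    (hE : ∀ x, MeasurableSet {ω | E x ω}) {C : ℝ} (h : ∀ ω, ∑ x ∈ s, ind (E x ω) ≤ C) :
    ∑ x ∈ s, P.real {ω | E x ω} ≤ C := by
  simp only [← integral_ind P (hE _)]
  rw [← integral_finsetSum _ fun x _ => integrable_ind P (hE x)]
  simpa using integral_mono (integrable_finsetSum _ fun x _ => integrable_ind P (hE x))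
    (integrable_const C) h

theorem DB_union (P : Measure Ω) (s : Finset ι) {E : ι → Ω → Prop} {b : ι → ℝ}
    (h : ∀ i ∈ s, P.real {ω | E i ω} ≤ b i) : P.real {ω | ∃ i ∈ s, E i ω} ≤ ∑ i ∈ s, b i := by
  have : {ω | ∃ i ∈ s, E i ω} = ⋃ i ∈ s, {ω | E i ω} := by
    ext ω
    simp
  rw [this]
  exact (measureReal_biUnion_finset_le _ _).trans (Finset.sum_le_sum h)

theorem DB_prod {Ω' : Type} [MeasurableSpace Ω'] (P : Measure Ω) [IsProbabilityMeasure P]
    (Q : Measure Ω') [IsProbabilityMeasure Q] {E : Ω × Ω' → Prop} (hE : MeasurableSet {p | E p}) :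
    (P.prod Q).real {p | E p} = ∫ ω, Q.real {σ | E (ω, σ)} ∂P := by
  rw [← integral_ind _ hE, integral_prod _ (integrable_ind _ hE)]
  exact integral_congr_ae (.of_forall fun ω => integral_ind Q (measurable_prodMk_left hE))

/-- The same graph with other levels. -/
def DB_wl (Γ : Gr ι V) (Λ : ι → ℤ) : Gr ι V := { Γ with Λ := Λ }

theorem DB_chain (Γ : Gr ι V) (Λ : ι → ℤ) (k : ℕ) (e e' : ι) :
    (DB_wl Γ Λ).Chain k e e' ↔ Γ.Chain k e e' := by
  induction k generalizing e' with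
  | zero => rfl
  | succ k ih => exact or_congr (ih e') (exists_congr fun e'' => and_congr (ih e'') Iff.rfl)

variable [Countable V] (Γ : Gr ι V)

theorem DB_ms_rel {Q : Ω → ι → Prop} (hQ : ∀ e, Measurable fun ω => Q ω e) (u v : V) :
    Measurable fun ω => Γ.Rel (Q ω) u v := by
  refine measurableSet_setOfPred.1 (measurableSet_eqvGen (fun u v => ?_) u v)
  have : {ω | ∃ e ∈ Γ.B, Q ω e ∧ u = Γ.e1 e ∧ v = Γ.e2 e} =
      ⋃ e ∈ Γ.B, {ω | Q ω e ∧ u = Γ.e1 e ∧ v = Γ.e2 e} := by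
    ext ω
    simp only [Set.mem_ofPred_eq, Set.mem_iUnion, exists_prop]
  rw [this]
  exact Γ.B.measurableSet_biUnion fun e _ => measurableSet_setOfPred.2 ((hQ e).and measurable_const)

variable {Λ : Ω → ι → ℤ} (hΛ : ∀ e, Measurable fun ω => Λ ω e)
include hΛ

omit [Countable V] in
theorem DB_ms_lt (e e' : ι) : Measurable fun ω => Λ ω e' < Λ ω e :=
  measurableSet_setOfPred.1 (measurableSet_lt (hΛ e') (hΛ e))

omit [Countable V] in
theorem DB_ms_eq (e e' : ι) : Measurable fun ω => Λ ω e' = Λ ω e :=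
  measurableSet_setOfPred.1 (measurableSet_eq_fun (hΛ e') (hΛ e))

theorem DB_ms_LL (e : ι) : Measurable fun ω => (DB_wl Γ (Λ ω)).LL e := by
  have h : ∀ v, Measurable fun ω =>
      (Γ.s0 : ℝ) ≤ Γ.Wt (Γ.Rel fun e' => Λ ω e' < Λ ω e) v := fun v =>
    measurableSet_setOfPred.1 (measurableSet_le measurable_const (Finset.measurable_sum _ fun u _ =>
      (measurable_ind (measurableSet_setOfPred.2 (DB_ms_rel Γ (DB_ms_lt hΛ e) v u))).mul_const _))
  exact (h _).and (h _)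

omit [Countable V] in
theorem DB_ms_LT (e : ι) : Measurable fun ω => (DB_wl Γ (Λ ω)).LT e := by
  refine measurableSet_setOfPred.1 ?_
  have : {ω | (DB_wl Γ (Λ ω)).LT e} =
      ⋃ e' ∈ Γ.B, {ω | e' ≠ e ∧ Λ ω e' = Λ ω e ∧ Γ.Chain (Γ.s0 + 1) e e'} := by
    ext ω
    simp only [Gr.LT, DB_chain, Set.mem_ofPred_eq, Set.mem_iUnion, exists_prop]
    rfl
  rw [this]
  exact Γ.B.measurableSet_biUnion fun e' _ => measurableSet_setOfPred.2
    (measurable_const.and ((DB_ms_eq hΛ e e').and measurable_const))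

theorem DB_abs (P : Measure Ω) [IsProbabilityMeasure P]
    (hr : ∀ e ∈ Γ.B, ∀ e' ∈ Γ.B, Γ.r e = Γ.r e' → e = e') (hs : 1 ≤ Γ.s0) (hD : 1 ≤ Γ.D0) {θ : ℝ}
    (h0 : 0 < θ) (h1 : θ ≤ 1) {E : ι → Ω × (ι → Bool) → Prop} {T : ι → Ω → Prop}
    (h : ∀ x p, E x p → ¬ (DB_wl Γ (Λ p.1)).DelB (fun y => p.2 y = true) x ∧
      ((DB_wl Γ (Λ p.1)).LT x → T x p.1)) :
    ∑ x ∈ Γ.B, (P.prod (bern ι θ)).real {p | E x p} ≤ Γ.VB.card + ∑ x ∈ Γ.B, P.real {ω | T x ω} +
      (Γ.VB.card / Γ.s0 + 2 * Γ.B.card / Γ.D0) / θ := by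
  classical
  have hΛ' : ∀ e, Measurable fun p : Ω × (ι → Bool) => Λ p.1 e := fun e => (hΛ e).comp measurable_fst
  have ho : ∀ e, Measurable fun p : Ω × (ι → Bool) => p.2 e = true := fun e =>
    measurableSet_setOfPred.1 (measurable_snd (Ber_meas_one e))
  have m1 : ∀ x, Measurable fun p : Ω × (ι → Bool) =>
      ¬ (DB_wl Γ (Λ p.1)).DelB (fun y => p.2 y = true) x ∧ ¬ (DB_wl Γ (Λ p.1)).LT x ∧
        ¬ (DB_wl Γ (Λ p.1)).LL x := fun x =>
    (DB_ms_rel Γ (fun e => (DB_ms_lt hΛ' x e).or (ho e)) _ _).not.and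
      ((DB_ms_LT Γ hΛ' x).not.and (DB_ms_LL Γ hΛ' x).not)
  have m3 : ∀ x, Measurable fun p : Ω × (ι → Bool) =>
      (DB_wl Γ (Λ p.1)).LL x ∧ (DB_wl Γ (Λ p.1)).Use (fun y => p.2 y = true) x := fun x =>
    (DB_ms_LL Γ hΛ' x).and (DB_ms_rel Γ (fun e => (DB_ms_lt hΛ' x e).or
      ((DB_ms_eq hΛ' x e).and ((measurable_const (a := Γ.r e < Γ.r x)).and (ho e)))) _ _).not
  have hs' : (0 : ℝ) < Γ.s0 := by exact_mod_cast hs
  have b1 := DB_sum_le (P.prod (bern ι θ)) Γ.B (fun x => measurableSet_setOfPred.2 (m1 x))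
    (C := Γ.VB.card) fun p => (DB_wl Γ (Λ p.1)).count_pendant hr _
  have b3 := DB_sum_le (P.prod (bern ι θ)) Γ.B (fun x => measurableSet_setOfPred.2 ((m3 x).and (ho x)))
    (C := Γ.VB.card / Γ.s0 + 2 * Γ.B.card / Γ.D0) fun p => by
      have h2 := (DB_wl Γ (Λ p.1)).count_useful hr hs hD fun y => p.2 y = true
      simp only [and_assoc]
      rw [div_add' _ _ _ hs'.ne', le_div_iff₀' hs', mul_comm _ (Γ.s0 : ℝ)]
      exact h2
  have e3 : ∀ x, (P.prod (bern ι θ)).real {p | ((DB_wl Γ (Λ p.1)).LL x ∧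
      (DB_wl Γ (Λ p.1)).Use (fun y => p.2 y = true) x) ∧ p.2 x = true} =
      θ * (P.prod (bern ι θ)).real {p | (DB_wl Γ (Λ p.1)).LL x ∧
        (DB_wl Γ (Λ p.1)).Use (fun y => p.2 y = true) x} := fun x => by
    rw [DB_prod _ _ (measurableSet_setOfPred.2 ((m3 x).and (ho x))),
      DB_prod _ _ (measurableSet_setOfPred.2 (m3 x)), ← integral_const_mul]
    refine integral_congr_ae (.of_forall fun ω => bern_indep h0.le h1 x
      (measurable_prodMk_left (measurableSet_setOfPred.2 (m3 x))) fun σ b => ?_)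
    exact and_congr_right fun _ => Gr.use_congr _ fun e _ he => by
      simp only [Function.update_of_ne he]
  simp only [e3, ← Finset.mul_sum] at b3
  rw [← le_div_iff₀' h0] at b3
  refine le_trans ?_ (add_le_add (add_le_add b1 le_rfl) b3)
  rw [← Finset.sum_add_distrib, ← Finset.sum_add_distrib]
  refine Finset.sum_le_sum fun x _ => ?_
  have e2 : P.real {ω | T x ω} = (P.prod (bern ι θ)).real ({ω | T x ω} ×ˢ Set.univ) := by
    simp [measureReal_prod_prod]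
  rw [e2]
  refine le_trans ?_ (add_le_add (measureReal_union_le _ _) le_rfl)
  refine le_trans (measureReal_mono fun p hp => ?_) (measureReal_union_le _ _)
  obtain ⟨h2, h3⟩ := h x p hp
  by_cases h4 : (DB_wl Γ (Λ p.1)).LL x
  · exact Or.inr ⟨h4, Gr.use_of_not_del _ h2⟩
  by_cases h5 : (DB_wl Γ (Λ p.1)).LT x
  · exact Or.inl (Or.inr ⟨h3 h5, trivial⟩)
  · exact Or.inl (Or.inl ⟨h2, h5, h4⟩)

end abstract

theorem del_bound [Countable G] (hc : HC G) (c : Ctx G) (K : ℕ) (X : Sys G) {lam : X.Ω → ℤ}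
    (hm : Measurable lam) (ha : ∀ ω, lam (X.mv ω c.a) = lam ω) (w : List (Step c K))
    (GT : ℕ → Prop) {τ₀ θ₁ : ℝ} (hτ : 0 ≤ τ₀) (h0 : 0 < θ₁) (h1 : θ₁ ≤ 1) {s0 D0 : ℕ} (hs : 1 ≤ s0)
    (hD : 1 ≤ D0)
    (htie : ∃ N : ℕ, 1 ≤ N ∧ ∀ (b : Bool) (j : ℕ) (q : G), j ≤ s0 + 1 →
      Alt (c.a ^ N) (pw (c.gs K) w * c.a ^ N * (pw (c.gs K) w)⁻¹) b j q → ∀ t t' : ℕ, GT t →
        X.P.real {ω | lam (X.mv ω (pw (c.gs K) (w.take t))) =
          lam (X.mv ω (q * pw (c.gs K) (w.take t')))} ≤ τ₀) :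
    (X.P.prod (bern G θ₁)).real {p | ¬ Del c K X lam θ₁ w p ∧
      ∃ t ≤ w.length, GT t ∧ lam (X.st (c.gs K) p.1 w t) = LamW X (c.gs K) lam p.1 w} ≤
      2 / 3 + (2 * D0 + 1 : ℝ) ^ (s0 + 1) * (w.length + 1) ^ 2 * τ₀ + (1 / s0 + 2 / D0) / θ₁ := by
  classical
  obtain ⟨N, hN, htie⟩ := htie
  have hα : ∀ k : ℤ, (c.a ^ N) ^ k = 1 → k = 0 := fun k hk => by
    rw [← zpow_natCast, ← zpow_mul] at hk
    exact (mul_eq_zero.1 (c.ha _ hk)).resolve_left (by omega)
  obtain ⟨B, hB, hcard⟩ := hc (c.a ^ N) (pw (c.gs K) w * c.a ^ N * (pw (c.gs K) w)⁻¹) hα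
    fun k hk => hα k (by rwa [conj_zpow, conj_eq_one_iff] at hk)
  obtain ⟨r, hr⟩ := exists_injective_nat G
  have hq : ∀ H : Subgroup G, Countable (G ⧸ H) := fun H => QuotientGroup.mk_surjective.countable
  obtain ⟨Γ, hΓ⟩ : ∃ Γ, Γ = cosetGr (c.a ^ N) (pw (c.gs K) w * c.a ^ N * (pw (c.gs K) w)⁻¹) B 0 r
    D0 s0 := ⟨_, rfl⟩
  obtain ⟨E, hE⟩ : ∃ E : X.Ω × (G → Bool) → Prop, E = fun p => ¬ Del c K X lam θ₁ w p ∧
      ∃ t ≤ w.length, GT t ∧ lam (X.st (c.gs K) p.1 w t) = LamW X (c.gs K) lam p.1 w := ⟨_, rfl⟩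
  have e1 : Γ.B = B := hΓ ▸ rfl
  have e2 : Γ.s0 = s0 := hΓ ▸ rfl
  have e3 : Γ.D0 = D0 := hΓ ▸ rfl
  have key := DB_abs Γ (Λ := fun ω y => LamW X (c.gs K) lam (X.mv ω y) w)
    (fun y => (measurable_LamW X _ hm w).comp (X.meas_mv y)) X.P
    (fun e _ e' _ h => hr (by subst hΓ; exact h)) (e2 ▸ hs) (e3 ▸ hD) h0 h1
    (E := fun x p => E ((X.prod (Sys.bern G G θ₁)).mv p x))
    (T := fun x ω => ∃ x' ∈ B, (x' ≠ x ∧ Γ.Chain (s0 + 1) x x') ∧
      ∃ t ∈ Finset.range (w.length + 1), GT t ∧ ∃ t' ∈ Finset.range (w.length + 1),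
        lam (X.mv (X.mv ω x) (pw (c.gs K) (w.take t))) =
          lam (X.mv (X.mv ω x) (x⁻¹ * x' * pw (c.gs K) (w.take t')))) (by
      subst hE hΓ
      rintro x p ⟨h2, t, ht, h3, h4⟩
      refine ⟨fun h5 => h2 (del_of_delB c K X ha θ₁ w N B r D0 s0 p.1 p.2 x h5), ?_⟩
      rintro ⟨x', h5, h6, h7, h8⟩
      obtain ⟨t', ht', h9⟩ := Finset.exists_mem_eq_sup' Finset.nonempty_range_add_one
        fun i => lam (X.st (c.gs K) (X.mv p.1 x') w i)
      refine ⟨x', h5, ⟨h6, (DB_chain _ _ _ _ _).1 h8⟩, t, Finset.mem_range_succ_iff.2 ht, h3, t', ht',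
        h4.trans (h7.symm.trans (h9.trans ?_))⟩
      simp only [Sys.st, X.mv_mul, mul_assoc, mul_inv_cancel_left])
  have hT : ∀ x ∈ Γ.B, X.P.real {ω | ∃ x' ∈ B, (x' ≠ x ∧ Γ.Chain (s0 + 1) x x') ∧
      ∃ t ∈ Finset.range (w.length + 1), GT t ∧ ∃ t' ∈ Finset.range (w.length + 1),
        lam (X.mv (X.mv ω x) (pw (c.gs K) (w.take t))) =
          lam (X.mv (X.mv ω x) (x⁻¹ * x' * pw (c.gs K) (w.take t')))} ≤
      (2 * D0 + 1 : ℝ) ^ (s0 + 1) * (w.length + 1) ^ 2 * τ₀ := fun x _ => by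
    have h2 : 0 ≤ ((w.length : ℝ) + 1) ^ 2 * τ₀ := by positivity
    refine (DB_union X.P B (b := fun x' => ind (Γ.Chain (s0 + 1) x x') *
      ((w.length + 1) ^ 2 * τ₀)) fun x' _ => ?_).trans ?_
    · by_cases h3 : x' ≠ x ∧ Γ.Chain (s0 + 1) x x'
      · obtain ⟨b, j, hj, h4⟩ := alt_of_chain (hΓ ▸ h3.2) h3.1
        simp only [h3, ne_eq, not_false_eq_true, true_and, ind_pos, one_mul]
        refine (DB_union X.P _ (b := fun _ => (w.length + 1) * τ₀) fun t _ => ?_).trans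
          (le_of_eq (by simp; ring))
        by_cases h5 : GT t
        · simp only [h5, true_and]
          refine (DB_union X.P _ (b := fun _ => τ₀) fun t' _ => ?_).trans (le_of_eq (by simp))
          exact (X.pre_real x fun ω => lam (X.mv ω (pw (c.gs K) (w.take t))) =
            lam (X.mv ω (x⁻¹ * x' * pw (c.gs K) (w.take t')))).trans_le (htie b j _ hj h4 t t' h5)
        · simp only [h5, false_and, Set.ofPred_false, measureReal_empty]
          positivity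
      · simp only [h3, false_and, Set.ofPred_false, measureReal_empty]
        exact mul_nonneg (ind_nonneg _) h2
    · rw [← Finset.sum_mul, mul_assoc (_ ^ _ : ℝ), ← e1, ← e3]
      exact mul_le_mul_of_nonneg_right (Γ.count_chain _ _) h2
  have h2 := Finset.sum_le_sum hT
  have h3 : ∀ x, (X.P.prod (bern G θ₁)).real {p | E ((X.prod (Sys.bern G G θ₁)).mv p x)} =
      (X.P.prod (bern G θ₁)).real {p | E p} := fun x => (X.prod (Sys.bern G G θ₁)).pre_real x E
  have h4 : 3 * (Γ.VB.card : ℝ) ≤ 2 * B.card := by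
    rw [hΓ, card_VB]
    exact_mod_cast hcard.le
  simp only [h3, Finset.sum_const, nsmul_eq_mul] at key h2
  rw [e1] at h2
  rw [e1, e2, e3] at key
  have hn : (0 : ℝ) < B.card := by exact_mod_cast hB.card_pos
  have h6 : (Γ.VB.card : ℝ) ≤ B.card := by linarith
  have h5 : ((Γ.VB.card : ℝ) / s0 + 2 * B.card / D0) / θ₁ ≤ B.card * ((1 / s0 + 2 / D0) / θ₁) := by
    rw [← mul_div_assoc, mul_add, mul_one_div, ← mul_div_assoc, mul_comm _ (2 : ℝ)]
    gcongr
  subst hE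
  refine le_of_mul_le_mul_left (key.trans ?_) hn
  linarith

end Pool.Agent.Work.MP_01d39a_al.Ct
end

-- merged part: Pool.Agent.Work.MP_01d39a_al.Ct.H0
section
/-!
TASK CT H0. Measurability of the height events.
Use `measurable_expect`, `measurable_st`, `Measurable.ite`, `Finset.measurable_sum`, `Finset.measurable_sup'`
(or induction), `measurableSet_le`, `Int.measurable_floor`, countable intersections over `i : ℕ`
(`MeasurableSet.iInter`, `measurableSet_setOf`, `Measurable.forall`, `Measurable.imp`, `Measurable.exists`).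
-/

open MeasureTheory ProbabilityTheory Filter Topology
open scoped BigOperators ENNReal NNReal

namespace Pool.Agent.Work.MP_01d39a_al.Ct

variable {G : Type} [Group G]

variable {σ : Type} [Fintype σ] [Nonempty σ] {h : Ht G σ} {p : Par} {ι : σ → σ} {C x₀ : ℝ}

section aux

variable {Ω : Type} [MeasurableSpace Ω]

theorem H0_set {E : Ω → Prop} (h : Measurable E) : MeasurableSet {ω | E ω} :=
  measurableSet_setOfPred.2 h

theorem H0_fun {E : Ω → Prop} (h : MeasurableSet {ω | E ω}) : Measurable E :=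
  measurableSet_setOfPred.1 h

theorem H0_le {f g : Ω → ℝ} (hf : Measurable f) (hg : Measurable g) :
    Measurable fun ω => f ω ≤ g ω := H0_fun (measurableSet_le hf hg)

theorem H0_lt {f g : Ω → ℝ} (hf : Measurable f) (hg : Measurable g) :
    Measurable fun ω => f ω < g ω := H0_fun (measurableSet_lt hf hg)

theorem H0_all {E : Ω → ℕ → Prop} (q : ℕ → Prop) (h : ∀ i, Measurable fun ω => E ω i) :
    Measurable fun ω => ∀ i, q i → E ω i :=
  Measurable.forall fun i => measurable_const.imp (h i)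

theorem H0_cnt (l : ℕ) {E : Ω → ℕ → Prop}
    (hE : ∀ i, MeasurableSet {ω | E ω i}) : Measurable fun ω => cnt l (E ω) :=
  Finset.measurable_sum _ fun i _ => measurable_ind (hE i)

theorem H0_TopJ {X : Sys G} {σ : Type} (g : σ → G) {j : X.Ω → ℤ} (hj : Measurable j) (w : List σ)
    (i : ℕ) : MeasurableSet {ω | TopJ X g j ω w i} :=
  H0_set (H0_all (fun i' => i' ≤ w.length) fun _ => H0_fun (measurableSet_le
    (hj.comp (X.meas_mv _)) (hj.comp (X.meas_mv _))))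

end aux

namespace Ht

omit [Fintype σ] [Nonempty σ] in
theorem H0_st (w : List σ) (i : ℕ) : Measurable fun ω => h.st ω w i := h.X.meas_mv _

omit [Fintype σ] [Nonempty σ] in
theorem H0_z (hz : Measurable h.z) (w : List σ) (i : ℕ) : Measurable fun ω => h.z (h.st ω w i) :=
  hz.comp (H0_st w i)

theorem meas_J (hz : Measurable h.z) (s : σ) : Measurable fun ω => h.J ω s :=
  (hz.comp (h.X.meas_mv _)).sub hz

theorem meas_Jb (hz : Measurable h.z) (s : σ) : Measurable fun ω => h.Jb p ω s :=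
  Measurable.ite (measurableSet_le (meas_J hz s).abs measurable_const) (meas_J hz s)
    measurable_const

theorem meas_v (hz : Measurable h.z) : Measurable h.v :=
  measurable_expect fun s => (meas_J hz s).pow_const 2

theorem meas_dr (hz : Measurable h.z) : Measurable h.dr :=
  measurable_expect fun s => meas_J hz s

theorem meas_vb (hz : Measurable h.z) : Measurable (h.vb p) :=
  measurable_expect fun s => (meas_Jb hz s).pow_const 2

theorem meas_vk (hz : Measurable h.z) : Measurable (h.vk p) :=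
  measurable_expect fun s => Measurable.ite (measurableSet_le (meas_J hz s).abs measurable_const)
    ((meas_J hz s).pow_const 2) measurable_const

theorem meas_tl (hz : Measurable h.z) : Measurable (h.tl p) :=
  measurable_expect fun s => Measurable.ite (measurableSet_lt measurable_const (meas_Jb hz s).abs)
    (meas_Jb hz s).abs measurable_const

theorem meas_j (hz : Measurable h.z) : Measurable (h.j p) :=
  Int.measurable_floor.comp (hz.div_const _)

theorem meas_Hs (p : Par) : Measurable p.Hs :=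
  (((measurable_of_countable fun n : ℤ => (n : ℝ)).comp
    (Int.measurable_floor.comp (measurable_id.div_const p.κ))).add_const 1).const_mul p.κ

theorem meas_QV (hz : Measurable h.z) (w : List σ) (i j : ℕ) :
    Measurable fun ω => h.QV p ω w i j :=
  Finset.measurable_sum _ fun t _ => (meas_vb hz).comp (H0_st w t)

theorem meas_Mx (hz : Measurable h.z) (w : List σ) : Measurable fun ω => h.Mx ω w := by
  have := Finset.measurable_sup' (s := Finset.range (w.length + 1)) Finset.nonempty_range_add_one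
    (f := fun i ω => h.z (h.st ω w i)) fun i _ => H0_z hz w i
  convert this using 1
  ext ω
  rw [Finset.sup'_apply]
  rfl

theorem meas_W (hz : Measurable h.z) (w : List σ) : Measurable fun ω => h.W ω w :=
  (meas_Mx hz w).sub (H0_z hz w _)

theorem ms_okS (hz : Measurable h.z) : MeasurableSet {ω | h.okS p ω} :=
  measurableSet_le (measurable_expect fun s => meas_Jb hz s).abs measurable_const

theorem ms_safe (hz : Measurable h.z) : MeasurableSet {ω | h.safe p ω} :=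
  H0_set ((H0_le measurable_const (meas_vk hz)).and
    (H0_le ((meas_tl hz).const_mul _) measurable_const))

theorem ms_G1 (hz : Measurable h.z) (w : List σ) : MeasurableSet {ω | h.G1 p ω w} :=
  H0_set ((H0_all (fun i => i ≤ w.length) fun i => (H0_fun (ms_okS hz)).comp (H0_st w i)).and
    (H0_all (fun i => i < w.length) fun i =>
      H0_le ((H0_z hz w _).sub (H0_z hz w i)).abs measurable_const))

theorem ms_Crude (hz : Measurable h.z) {H : h.X.Ω → ℝ} (hH : Measurable H) (w : List σ) :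
    MeasurableSet {ω | h.Crude p (H ω) ω w} :=
  H0_set ((H0_fun (ms_G1 hz w)).and (H0_all (fun i => i ≤ w.length) fun i =>
    H0_le (H0_z hz w i) hH))

theorem ms_Alive (hz : Measurable h.z) {H : h.X.Ω → ℝ} (hH : Measurable H) (w : List σ) :
    MeasurableSet {ω | h.Alive p (H ω) ω w} :=
  H0_set ((H0_fun (ms_Crude hz hH w)).and (H0_all (fun i => i ≤ w.length) fun i =>
    (H0_lt (hH.sub_const _) (H0_z hz w i)).imp ((H0_fun (ms_safe hz)).comp (H0_st w i))))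

theorem ms_Arm (hz : Measurable h.z) (w : List σ) : MeasurableSet {ω | h.Arm p ω w} :=
  H0_set ((H0_fun (ms_Alive hz ((meas_Hs p).comp hz) w)).and
    (H0_le measurable_const (meas_QV hz w _ _)))

theorem ms_Top (hz : Measurable h.z) (w : List σ) (i : ℕ) : MeasurableSet {ω | h.Top p ω w i} :=
  H0_TopJ h.g (meas_j hz) w i

theorem ms_Mid (hz : Measurable h.z) (w : List σ) : MeasurableSet {ω | h.Mid p ω w} :=
  H0_set (H0_all (fun i => i ≤ w.length) fun i =>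
    (H0_lt (((meas_Hs p).comp (meas_Mx hz w)).sub_const _) (H0_z hz w i)).imp
      measurable_const)

theorem ms_Al (hz : Measurable h.z) (w : List σ) : MeasurableSet {ω | h.Al p ω w} :=
  H0_set ((H0_fun (ms_Alive hz ((meas_Hs p).comp (meas_Mx hz w)) w)).and
    ((H0_le measurable_const (meas_QV hz w _ _)).and
      ((H0_le measurable_const (meas_QV hz w _ _)).and (H0_fun (ms_Mid hz w)))))

theorem ms_Cnt (hz : Measurable h.z) (Ty : List σ → ℕ → Prop) (w : List σ) (t : ℕ) :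
    MeasurableSet {ω | h.Cnt p Ty ω w t} :=
  H0_set (measurable_const.and (measurable_const.and (measurable_const.and
    ((H0_fun (ms_Top hz w _)).and ((H0_fun (ms_Top hz w _)).and ((H0_fun (ms_Al hz w)).and
      (H0_le (H0_cnt _ fun i => ms_Top hz w i) measurable_const)))))))

theorem ms_Cross (hz : Measurable h.z) (w : List σ) (t : ℕ) :
    MeasurableSet {ω | h.Cross p ω w t} :=
  measurableSet_lt (Int.measurable_floor.comp (((meas_Mx hz _).div_const _).sub_const _))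
    (Int.measurable_floor.comp (((meas_Mx hz _).div_const _).sub_const _))

theorem ms_DropEv (hz : Measurable h.z) (w : List σ) : MeasurableSet {ω | h.DropEv p ω w} :=
  H0_set ((H0_fun (ms_Alive hz ((meas_Hs p).comp hz) w)).and
    (Measurable.exists fun s => measurable_const.and (measurable_const.and
      ((H0_le ((H0_z hz w s).sub hz) measurable_const).and
        ((H0_le (meas_QV hz w _ _) measurable_const).and
          (H0_le measurable_const (meas_QV hz w _ _)))))))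

theorem ms_FewEv (hz : Measurable h.z) (ty : σ → Prop) (μ : ℝ) (w : List σ) :
    MeasurableSet {ω | h.FewEv p ty μ ω w} :=
  H0_set ((H0_fun (ms_Alive hz ((meas_Hs p).comp hz) w)).and
    (measurable_const.and (measurable_const.and
      ((H0_le (((meas_Hs p).comp hz).sub_const _) (H0_z hz w _)).and
        (H0_le measurable_const (meas_QV hz w _ _))))))

theorem ms_Fs (hz : Measurable h.z) (w : List σ) : MeasurableSet {ω | h.Fs p ω w} :=
  H0_set ((H0_fun (ms_safe hz)).and (H0_all (fun i => i ≤ w.length) fun i =>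
    H0_le (H0_z hz w i) (hz.add_const _)))

end Ht

theorem ms_TopJ {X : Sys G} {σ : Type} (g : σ → G) {j : X.Ω → ℤ} (hj : Measurable j) (w : List σ)
    (i : ℕ) : MeasurableSet {ω | TopJ X g j ω w i} := H0_TopJ g hj w i

theorem measurable_cnt {Ω : Type} [MeasurableSpace Ω] (l : ℕ) {E : Ω → ℕ → Prop}
    (hE : ∀ i, MeasurableSet {ω | E ω i}) : Measurable fun ω => cnt l (E ω) := H0_cnt l hE

end Pool.Agent.Work.MP_01d39a_al.Ct
end

-- merged part: Pool.Agent.Work.MP_01d39a_al.Ct.Tie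
section
/-!
TASK CT Tie. The lexicographic label of independent layers.
`0 ≤ equivFin v < Fintype.card (Fin I → Bool) = 2^I`. lamJ_tie: the event is contained in
`univ ×ˢ Set.pi univ (fun _ => {ℓ (mv x) = ℓ (mv y)})`; `Measure.prod_prod`, `Measure.pi_pi`.
g11: fix `w`. Let `t₀` be the least top time (a measurable function of `ω.1`, `ms_TopJ`). The event is contained in
`⋃ t₀, {least top time = t₀} ×ˢ ⋃ s ∈ [t₀, t₀ + ρ), s < l, ⋃ i, {ℓ (ω.2 i at st s) ≠ ℓ (ω.2 i at st (s+1))}`; one step changes `ℓ`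
with probability `≤ ε₂` (`st_succ`, `mv_zpow_of_ainv`, `Sys.pre_real`; lazy letters never); `measurePreserving_eval`.
-/

open MeasureTheory ProbabilityTheory Filter Topology
open scoped BigOperators ENNReal NNReal

namespace Pool.Agent.Work.MP_01d39a_al.Ct

variable {G : Type} [Group G]

variable {X₁ X₂ : Sys G} {I : ℕ} {j : X₁.Ω → ℤ} {ℓ : X₂.Ω → Bool}

theorem Tie_bd (v : Fin I → Bool) : (0 : ℤ) ≤ ((Fintype.equivFin (Fin I → Bool) v : ℕ) : ℤ) ∧
    ((Fintype.equivFin (Fin I → Bool) v : ℕ) : ℤ) < 2 ^ I := by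
  refine ⟨Int.natCast_nonneg _, ?_⟩
  have h := (Fintype.equivFin (Fin I → Bool) v).2
  have h2 : Fintype.card (Fin I → Bool) = 2 ^ I := by simp
  exact_mod_cast h.trans_eq h2

theorem Tie_eval (i : Fin I) {A : Set X₂.Ω} (hA : MeasurableSet A) :
    (X₂.pi I).P.real {ω | ω i ∈ A} = X₂.P.real A := by
  unfold Measure.real
  exact congrArg _ ((measurePreserving_eval (fun _ : Fin I => X₂.P) i).measure_preimage
    hA.nullMeasurableSet)

theorem Tie_ex {A : Set X₂.Ω} (hA : MeasurableSet A) :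
    (X₂.pi I).P.real {ω | ∃ i, ω i ∈ A} ≤ I * X₂.P.real A := by
  rw [Set.ofPred_exists]
  refine (measureReal_iUnion_fintype_le _).trans_eq ?_
  simp only [Tie_eval _ hA, Finset.sum_const, Finset.card_univ, Fintype.card_fin, nsmul_eq_mul]

theorem Tie_ms (hℓ : Measurable ℓ) (x y : G) :
    MeasurableSet {ω | ℓ (X₂.mv ω x) ≠ ℓ (X₂.mv ω y)} :=
  (measurableSet_eq_fun (hℓ.comp (X₂.meas_mv x)) (hℓ.comp (X₂.meas_mv y))).compl

theorem measurable_lamJ (hj : Measurable j) (hℓ : Measurable ℓ) :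
    Measurable (lamJ X₁ X₂ I j ℓ) := by
  have h1 : Measurable fun ω : X₁.Ω × (Fin I → X₂.Ω) => fun i => ℓ (ω.2 i) :=
    measurable_pi_lambda _ fun i => hℓ.comp ((measurable_pi_apply i).comp measurable_snd)
  exact (measurable_const.mul (hj.comp measurable_fst)).add
    ((measurable_of_countable fun v : Fin I → Bool =>
      ((Fintype.equivFin (Fin I → Bool) v : ℕ) : ℤ)).comp h1)

theorem lamJ_lt {ω ω' : X₁.Ω × (Fin I → X₂.Ω)} (h : j ω.1 < j ω'.1) :
    lamJ X₁ X₂ I j ℓ ω < lamJ X₁ X₂ I j ℓ ω' := by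
  have h1 := (Tie_bd fun i => ℓ (ω.2 i)).2
  have h2 := (Tie_bd fun i => ℓ (ω'.2 i)).1
  have h3 : (2 : ℤ) ^ I * (j ω.1 + 1) ≤ 2 ^ I * j ω'.1 :=
    mul_le_mul_of_nonneg_left h (by positivity)
  unfold lamJ
  linarith

theorem lamJ_eq_iff (ω ω' : X₁.Ω × (Fin I → X₂.Ω)) : lamJ X₁ X₂ I j ℓ ω = lamJ X₁ X₂ I j ℓ ω' ↔
    j ω.1 = j ω'.1 ∧ ∀ i, ℓ (ω.2 i) = ℓ (ω'.2 i) := by
  constructor
  · intro h
    have h1 : j ω.1 = j ω'.1 := le_antisymm (not_lt.1 fun h1 => (lamJ_lt h1).ne' h)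
      (not_lt.1 fun h1 => (lamJ_lt h1).ne h)
    unfold lamJ at h
    rw [h1, add_right_inj, Nat.cast_inj, Fin.val_inj, Equiv.apply_eq_iff_eq] at h
    exact ⟨h1, congrFun h⟩
  · rintro ⟨h1, h2⟩
    unfold lamJ
    rw [h1, funext h2]

theorem lamJ_tie (hℓ : Measurable ℓ) (x y : G) {τ : ℝ}
    (h : τ ≤ X₂.P.real {ω | ℓ (X₂.mv ω x) ≠ ℓ (X₂.mv ω y)}) :
    (X₁.prod (X₂.pi I)).P.real {ω | lamJ X₁ X₂ I j ℓ ((X₁.prod (X₂.pi I)).mv ω x) =
      lamJ X₁ X₂ I j ℓ ((X₁.prod (X₂.pi I)).mv ω y)} ≤ (1 - τ) ^ I := by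
  refine (measureReal_mono (s₂ := Set.univ ×ˢ Set.pi Set.univ
    fun _ : Fin I => {ω | ℓ (X₂.mv ω x) ≠ ℓ (X₂.mv ω y)}ᶜ) fun ω hω =>
      ⟨trivial, fun i _ h1 => h1 (((lamJ_eq_iff _ _).1 hω).2 i)⟩).trans ?_
  rw [measureReal_prod_prod, probReal_univ, one_mul, measureReal_def, Measure.pi_pi,
    Finset.prod_const, Finset.card_univ, Fintype.card_fin, ENNReal.toReal_pow, ← measureReal_def]
  refine pow_le_pow_left₀ measureReal_nonneg ?_ I
  rw [probReal_compl_eq_one_sub (Tie_ms hℓ x y)]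
  linarith

theorem lamJ_slow (hj : Measurable j) (hℓ : Measurable ℓ) (γ : G) :
    (X₁.prod (X₂.pi I)).P.real
      {ω | lamJ X₁ X₂ I j ℓ ((X₁.prod (X₂.pi I)).mv ω γ) ≠ lamJ X₁ X₂ I j ℓ ω} ≤
      X₁.P.real {ω | j (X₁.mv ω γ) ≠ j ω} + I * X₂.P.real {ω | ℓ (X₂.mv ω γ) ≠ ℓ ω} := by
  have _ := hj
  refine (measureReal_mono (s₂ := {ω | j (X₁.mv ω γ) ≠ j ω} ×ˢ Set.univ ∪
    Set.univ ×ˢ {ω : Fin I → X₂.Ω | ∃ i, ω i ∈ {ω | ℓ (X₂.mv ω γ) ≠ ℓ ω}}) fun ω hω => ?_).trans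
      ((measureReal_union_le _ _).trans ?_)
  · by_contra h
    simp only [Set.mem_union, Set.mem_prod, Set.mem_ofPred_eq, Set.mem_univ, and_true, true_and,
      not_or, not_exists, not_not] at h
    exact hω ((lamJ_eq_iff _ _).2 h)
  · rw [measureReal_prod_prod, measureReal_prod_prod, probReal_univ, probReal_univ, mul_one,
      one_mul]
    exact add_le_add le_rfl
      (Tie_ex (measurableSet_eq_fun (hℓ.comp (X₂.meas_mv γ)) hℓ).compl)

/-- A time that maximises the label is a top time. -/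
theorem topJ_of_lam {σ : Type} (g : σ → G) (ω : X₁.Ω × (Fin I → X₂.Ω)) (w : List σ) {t : ℕ}
    (h : lamJ X₁ X₂ I j ℓ ((X₁.prod (X₂.pi I)).st g ω w t) =
      LamW (X₁.prod (X₂.pi I)) g (lamJ X₁ X₂ I j ℓ) ω w) : TopJ X₁ g j ω.1 w t := by
  intro i hi
  by_contra h1
  have h2 := lamJ_lt (ℓ := ℓ) (ω := (X₁.prod (X₂.pi I)).st g ω w t)
    (ω' := (X₁.prod (X₂.pi I)).st g ω w i) (not_le.1 h1)
  rw [h] at h2
  exact h2.not_ge (Finset.le_sup'
    (fun i => lamJ X₁ X₂ I j ℓ ((X₁.prod (X₂.pi I)).st g ω w i))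
    (Finset.mem_range.2 (Nat.lt_succ_of_le hi)))

theorem Tie_step (c : Ctx G) (K : ℕ) (ha : ∀ ω, ℓ (X₂.mv ω c.a) = ℓ ω) {ε₂ : ℝ}
    (hs : ∀ γ ∈ c.S, X₂.P.real {ω | ℓ (X₂.mv ω γ) ≠ ℓ ω} ≤ ε₂) (w : List (Step c K)) {s : ℕ}
    (h : s < w.length) :
    X₂.P.real {ω | ℓ (X₂.st (c.gs K) ω w (s + 1)) ≠ ℓ (X₂.st (c.gs K) ω w s)} ≤ ε₂ := by
  have h1 := X₂.pre_real (pw (c.gs K) (w.take s) * c.a ^ ex K w[s].1)
    fun ω => ℓ (X₂.mv ω (lt w[s].2.1)) ≠ ℓ ω
  have h2 : ∀ ω, (ℓ (X₂.st (c.gs K) ω w (s + 1)) ≠ ℓ (X₂.st (c.gs K) ω w s)) =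
      (ℓ (X₂.mv (X₂.mv ω (pw (c.gs K) (w.take s) * c.a ^ ex K w[s].1)) (lt w[s].2.1)) ≠
        ℓ (X₂.mv ω (pw (c.gs K) (w.take s) * c.a ^ ex K w[s].1))) := by
    intro ω
    rw [st_succ X₂ ω w h, Ctx.gs, ← X₂.mv_mul, ← X₂.mv_mul, mv_zpow_of_ainv ha, ← X₂.mv_mul,
      mv_zpow_of_ainv ha]
    rfl
  simp only [h2]
  rw [h1, lt]
  split_ifs
  · exact hs _ w[s].2.1.2.2
  · obtain ⟨γ, hγ⟩ := c.ne
    simpa [X₂.mv_one] using measureReal_nonneg.trans (hs γ hγ)

theorem Tie_const {f : ℕ → Bool} {a b : ℕ} (h : ∀ s, a ≤ s → s < b → f (s + 1) = f s) {t : ℕ}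
    (h1 : a ≤ t) (h2 : t ≤ b) : f t = f a := by
  induction t, h1 using Nat.le_induction with
  | base => rfl
  | succ n hn ih => rw [h n hn h2, ih (Nat.le_of_succ_le h2)]

theorem g11 (c : Ctx G) (K l ρ : ℕ) (hj : Measurable j) (hℓ : Measurable ℓ)
    (ha : ∀ ω, ℓ (X₂.mv ω c.a) = ℓ ω) {ε₂ : ℝ}
    (hs : ∀ γ ∈ c.S, X₂.P.real {ω | ℓ (X₂.mv ω γ) ≠ ℓ ω} ≤ ε₂) :
    (X₁.prod (X₂.pi I)).ann l (fun ω (w : List (Step c K)) =>
      (∀ i ≤ l, ∀ i' ≤ l, TopJ X₁ (c.gs K) j ω.1 w i → TopJ X₁ (c.gs K) j ω.1 w i' → i' ≤ i + ρ) ∧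
      ∃ t ≤ l, TopJ X₁ (c.gs K) j ω.1 w t ∧
        lamJ X₁ X₂ I j ℓ ((X₁.prod (X₂.pi I)).st (c.gs K) ω w t) ≠
          LamW (X₁.prod (X₂.pi I)) (c.gs K) (lamJ X₁ X₂ I j ℓ) ω w) ≤ ρ * (I * ε₂) := by
  classical
  refine avgW_le fun w hw => ?_
  subst hw
  have h0 : 0 ≤ ε₂ := by
    obtain ⟨γ, hγ⟩ := c.ne
    exact measureReal_nonneg.trans (hs γ hγ)
  let A : ℕ → Set X₁.Ω := fun t =>
    {ω | TopJ X₁ (c.gs K) j ω w t} ∩ ⋂ s < t, {ω | TopJ X₁ (c.gs K) j ω w s}ᶜ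
  let B : ℕ → Set (Fin I → X₂.Ω) := fun t =>
    ⋃ s ∈ (Finset.Ico t (t + ρ)).filter (· < w.length), {ω | ∃ i,
      ω i ∈ {ω | ℓ (X₂.st (c.gs K) ω w (s + 1)) ≠ ℓ (X₂.st (c.gs K) ω w s)}}
  have hA : ∀ t, MeasurableSet (A t) := fun t => (ms_TopJ _ hj w t).inter
    (MeasurableSet.biInter (Set.to_countable _) fun s _ => (ms_TopJ _ hj w s).compl)
  have hB : ∀ t, (X₂.pi I).P.real (B t) ≤ ρ * (I * ε₂) := by
    intro t
    refine (measureReal_biUnion_finset_le _ _).trans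
      ((Finset.sum_le_card_nsmul _ _ (I * ε₂) fun s hs' => ?_).trans ?_)
    · exact (Tie_ex (Tie_ms hℓ _ _)).trans (mul_le_mul_of_nonneg_left
        (Tie_step c K ha hs w (Finset.mem_filter.1 hs').2) I.cast_nonneg)
    · rw [nsmul_eq_mul]
      refine mul_le_mul_of_nonneg_right (Nat.cast_le.2 ((Finset.card_filter_le _ _).trans ?_))
        (by positivity)
      simp
  refine (measureReal_mono (s₂ := ⋃ t ∈ Finset.range (w.length + 1), A t ×ˢ B t) ?_
    (measure_ne_top _ _)).trans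
    ((measureReal_biUnion_finset_le _ _).trans ?_)
  · rintro ω ⟨h1, t, ht, h2, h3⟩
    obtain ⟨u, hu, h4⟩ := Finset.exists_mem_eq_sup' (s := Finset.range (w.length + 1))
      Finset.nonempty_range_add_one
      fun i => lamJ X₁ X₂ I j ℓ ((X₁.prod (X₂.pi I)).st (c.gs K) ω w i)
    have hu' : u ≤ w.length := Nat.le_of_lt_succ (Finset.mem_range.1 hu)
    have h5 := topJ_of_lam (c.gs K) ω w h4.symm
    have hex : ∃ t, TopJ X₁ (c.gs K) j ω.1 w t := ⟨t, h2⟩
    have h6 := Nat.find_min' hex h2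
    have h7 := Nat.find_min' hex h5
    have h8 := h1 _ (h6.trans ht) t ht (Nat.find_spec hex) h2
    have h9 := h1 _ (h6.trans ht) u hu' (Nat.find_spec hex) h5
    refine Set.mem_biUnion (x := Nat.find hex) (Finset.mem_range.2 (by omega))
      ⟨⟨Nat.find_spec hex, Set.mem_iInter₂.2 fun s hs' => Nat.find_min hex hs'⟩, ?_⟩
    by_contra hn
    refine h3 (((lamJ_eq_iff _ _).2 ⟨le_antisymm (h5 t ht) (h2 u hu'), fun i => ?_⟩).trans h4.symm)
    have key : ∀ s, Nat.find hex ≤ s → s < max t u → ℓ (X₂.st (c.gs K) (ω.2 i) w (s + 1)) =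
        ℓ (X₂.st (c.gs K) (ω.2 i) w s) := by
      intro s s1 s2
      by_contra s3
      exact hn (Set.mem_biUnion (x := s) (Finset.mem_filter.2
        ⟨Finset.mem_Ico.2 ⟨s1, by omega⟩, by omega⟩) ⟨i, s3⟩)
    exact (Tie_const (f := fun s => ℓ (X₂.st (c.gs K) (ω.2 i) w s)) key h6 (le_max_left _ _)).trans
      (Tie_const (f := fun s => ℓ (X₂.st (c.gs K) (ω.2 i) w s)) key h7 (le_max_right _ _)).symm
  · have h1 : ∑ t ∈ Finset.range (w.length + 1), X₁.P.real (A t) ≤ 1 := by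
      rw [← measureReal_biUnion_finset _ fun t _ => hA t]
      · exact measureReal_le_one
      · intro s _ t _ hst
        rcases lt_or_gt_of_ne hst with h | h
        · exact Set.disjoint_left.2 fun ω h1 h2 => Set.mem_iInter₂.1 h2.2 s h h1.1
        · exact Set.disjoint_left.2 fun ω h1 h2 => Set.mem_iInter₂.1 h1.2 t h h2.1
    refine (Finset.sum_le_sum fun t _ => (measureReal_prod_prod _ _).trans_le
      (mul_le_mul_of_nonneg_left (hB t) measureReal_nonneg)).trans ?_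
    rw [← Finset.sum_mul]
    exact mul_le_of_le_one_left (by positivity) h1

end Pool.Agent.Work.MP_01d39a_al.Ct
end

-- merged part: Pool.Agent.Work.MP_01d39a_al.Ct.Par3
section
/-!
TASK CT Par3. Asymptotics for sections 4 and 5. `(1 - x)^n ≤ exp (-x n)`; `(2 ν^7 + 1)^(ν^7+1) ≤ exp ((ν^7+1) log (3 ν^7))`,
`log ν ≤ 8 ν^(1/8)` or simply `log ν = κ³ log 2 ≤ κ³` with `nu_big`; `θ^(2 Cm κ²) = exp (2 Cm κ² log θ)` against `2^(κ³)`.
-/

open MeasureTheory ProbabilityTheory Filter Topology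
open scoped BigOperators ENNReal NNReal

namespace Pool.Agent.Work.MP_01d39a_al.Ct

variable {G : Type} [Group G]

theorem Par3_exp {x : ℝ} (h : x ≤ 1) (n : ℕ) : (1 - x) ^ n ≤ Real.exp (-(x * n)) := by
  rw [← neg_mul, mul_comm, Real.exp_nat_mul]
  exact pow_le_pow_left₀ (sub_nonneg.2 h) (by linarith [Real.add_one_le_exp (-x)]) n

theorem par_tie : ∀ᶠ κ : ℕ in atTop,
    (2 * (nu κ ^ 7 : ℕ) + 1 : ℝ) ^ (nu κ ^ 7 + 1) * ((ll κ : ℝ) + 1) ^ 2 *
      (1 - 1 / (8 * (nu κ : ℝ))) ^ (nu κ ^ 9) ≤ 1 / 200 := by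
  filter_upwards [nu_big 3 1696, eventually_ge_atTop 1] with κ h1 h2
  have h3 : (1 : ℝ) ≤ (κ : ℝ) ^ 3 := one_le_pow₀ (by exact_mod_cast h2)
  have h4 : (nu κ : ℝ) ≤ Real.exp ((κ : ℝ) ^ 3) := by
    unfold nu
    rw [← Nat.cast_pow, ← Real.exp_one_pow]
    push_cast
    exact pow_le_pow_left₀ zero_le_two (by linarith [Real.add_one_le_exp (1 : ℝ)]) _
  unfold ll
  generalize nu κ = n at *
  generalize (κ : ℝ) ^ 3 = L at *
  have h5 : (200 : ℝ) ≤ n := by linarith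
  have h6 : ∀ k : ℕ, (1 : ℝ) ≤ (n : ℝ) ^ k := fun k => one_le_pow₀ (by linarith)
  have h7 : (2 * (n ^ 7 : ℕ) + 1 : ℝ) ≤ (n : ℝ) ^ 8 := by
    push_cast
    nlinarith [h6 7]
  have h8 : ((n ^ 92 : ℕ) : ℝ) + 1 ≤ (n : ℝ) ^ 93 := by
    push_cast
    nlinarith [h6 92]
  have h9 := Par3_exp (x := 1 / (8 * (n : ℝ))) ((div_le_one (by linarith)).2 (by linarith)) (n ^ 9)
  rw [le_div_iff₀ (by norm_num), mul_right_comm]
  calc _ ≤ ((n : ℝ) ^ 8) ^ (n ^ 7 + 1) * ((n : ℝ) ^ 93) ^ 2 * n *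
        Real.exp (-(1 / (8 * (n : ℝ)) * (n ^ 9 : ℕ))) := by
        gcongr
        exact pow_nonneg (sub_nonneg.2 ((div_le_one (by linarith)).2 (by linarith))) _
    _ = (n : ℝ) ^ (8 * n ^ 7 + 195) * Real.exp (-((n : ℝ) ^ 7 * n / 8)) := by
        congr 1
        · ring
        · congr 2
          push_cast
          field_simp
    _ ≤ Real.exp L ^ (8 * n ^ 7 + 195) * Real.exp (-((n : ℝ) ^ 7 * n / 8)) := by gcongr
    _ ≤ 1 := by
        rw [← Real.exp_nat_mul, ← Real.exp_add, Real.exp_le_one_iff]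
        push_cast
        nlinarith [h6 7, mul_le_mul_of_nonneg_left h1 (zero_le_one.trans (h6 7)),
          mul_le_mul_of_nonneg_left (h6 7) (zero_le_one.trans h3)]

theorem par_theta {θ : ℝ} (h0 : 0 < θ) (Cm : ℕ) : ∀ᶠ κ : ℕ in atTop,
    1 / (nu κ : ℝ) ≤ θ ^ (2 * (Cm * κ ^ 2)) := by
  filter_upwards [Par1_pow 0 (θ⁻¹ ^ (2 * Cm)) one_lt_two] with κ h
  rw [pow_zero, mul_one] at h
  have h1 := pow_le_pow_left₀ (by positivity) h (κ ^ 2)
  rw [← pow_mul, ← pow_mul, ← pow_succ', inv_pow, mul_assoc] at h1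
  rw [one_div, inv_le_comm₀ (by unfold nu; positivity) (by positivity)]
  unfold nu
  exact_mod_cast h1

theorem par_trials : ∀ᶠ κ : ℕ in atTop, ∀ x : ℝ, 1 / (nu κ : ℝ) ^ 4 ≤ x → x ≤ 1 →
    (1 - x) ^ (nu κ ^ 5) ≤ 1 / 2 := by
  refine Eventually.of_forall fun κ x h1 h2 => (Par3_exp h2 _).trans ?_
  have h3 : (1 : ℝ) ≤ nu κ := by exact_mod_cast Par1_nu κ
  have h4 : 1 ≤ x * (nu κ ^ 5 : ℕ) := by
    have h5 : 0 ≤ x := le_trans (by positivity) h1
    rw [div_le_iff₀ (by positivity)] at h1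
    push_cast
    exact h1.trans (mul_le_mul_of_nonneg_left (pow_le_pow_right₀ h3 (by norm_num)) h5)
  rw [Real.exp_neg, one_div]
  exact inv_anti₀ two_pos (by linarith [Real.add_one_le_exp (x * (nu κ ^ 5 : ℕ))])

end Pool.Agent.Work.MP_01d39a_al.Ct
end

-- merged part: Pool.Agent.Work.MP_01d39a_al.Ct.GA
section
/-!
TASK CT GA. Many successful times on average (first lines of section 5). `X = X₁.prod (X₂.pi (ν^9))`, `θ₁ = 1/ν^6`,
`s0 = D0 = ν^7`. Let `BF u = ¬ good (pw u)`, `BB v = ¬ good (pw v)⁻¹` (`avgW_rv`, `pw_rv`, `Ctx.inv`, `LayerPack.bad`).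
For fixed `w` of length `l` with `good (pw w)`: on the event `Gd` = (HeightPack.good event for `p.1.1`) ∧ ¬ (g11 event) ∧ `Del`
every `t` with `Cn ∧ TopJ` satisfies `Cc`, so `∑ t, P(Cc t) = ∫ cnt (Cc) ≥ c₀ κ² P(Gd)`. `P(¬ Gd) ≤ P(¬ good event) + P(g11) +
P(¬ Del ∧ good event)`, and on the good event a maximiser of the label (`Finset.exists_mem_eq_sup'`, `topJ_of_lam`) is a good
time, so `del_bound` applies with `GT t = good (pw (take t w)) ∧ good (pw (drop t w))⁻¹`, `τ₀ = (1 - 1/(8ν))^(ν^9)`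
(`LayerPack.tie`, `lamJ_tie`). Average over `w`: `1 - 1/16 - 8|S|/ν - 8 ν^45/l - 2/3 - 1/200 - 3/ν ≥ 1/4` for large `κ`.
Marginals: `fac_fst`, `measurePreserving_fst`; for outer measure bounds of non measurable sets use
`Measure.prod_prod` with `A ×ˢ univ`.
-/

open MeasureTheory ProbabilityTheory Filter Topology
open scoped BigOperators ENNReal NNReal

namespace Pool.Agent.Work.MP_01d39a_al.Ct

variable {G : Type} [Group G]

theorem GA_pre {A B : Type} [MeasurableSpace A] [MeasurableSpace B] {μ : Measure A}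
    {ν : Measure B} [IsFiniteMeasure ν] {f : A → B} (hf : MeasurePreserving f μ ν) (E : B → Prop) :
    μ.real {a | E (f a)} ≤ ν.real {b | E b} :=
  ENNReal.toReal_mono (measure_ne_top _ _) (hf.measure_preimage_le {b | E b})

theorem GA_ms [Countable G] (c : Ctx G) (K : ℕ) (X : Sys G) {lam : X.Ω → ℤ} (hm : Measurable lam)
    (θ₁ : ℝ) {Cn : X.Ω → List (Step c K) → ℕ → Prop} (hC : ∀ w t, MeasurableSet {ω | Cn ω w t})
    (w : List (Step c K)) (t : ℕ) : MeasurableSet {p | Cc c K X lam θ₁ Cn p w t} := by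
  refine (measurable_fst (hC w t)).inter (MeasurableSet.inter ?_ (ms_Del c K X hm θ₁ w))
  exact measurableSet_eq_fun ((hm.comp (measurable_st X w t)).comp measurable_fst)
    ((measurable_LamW X _ hm w).comp measurable_fst)

theorem GA_markov {Ω : Type} [MeasurableSpace Ω] (Q : Measure Ω) [IsProbabilityMeasure Q] (l : ℕ)
    {E : Ω → ℕ → Prop} (hE : ∀ i, MeasurableSet {ω | E ω i}) {a : ℝ} (ha : 0 ≤ a)
    {A₁ A₂ A₃ : Set Ω} (h : ∀ ω, ω ∉ A₁ → ω ∉ A₂ → ω ∉ A₃ → a ≤ cnt l (E ω)) :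
    a * (1 - Q.real A₁ - Q.real A₂ - Q.real A₃) ≤
      ∑ t ∈ Finset.range (l + 1), Q.real {ω | E ω t} := by
  have hI : ∀ t ∈ Finset.range (l + 1), Integrable (fun ω => ind (E ω t)) Q := fun t _ =>
    integrable_ind Q (hE t)
  have h1 := mul_meas_ge_le_integral_of_nonneg (μ := Q) (f := fun ω => cnt l (E ω))
    (Eventually.of_forall fun ω => cnt_nonneg _ _) (integrable_finsetSum _ hI) a
  have h2 : ∫ ω, cnt l (E ω) ∂Q = ∑ t ∈ Finset.range (l + 1), Q.real {ω | E ω t} := by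
    unfold cnt
    rw [integral_finsetSum _ hI]
    exact Finset.sum_congr rfl fun t _ => integral_ind Q (hE t)
  rw [← h2]
  refine le_trans (mul_le_mul_of_nonneg_left ?_ ha) h1
  have h3 : (Set.univ : Set Ω) ⊆ (({ω | a ≤ cnt l (E ω)} ∪ A₁) ∪ A₂) ∪ A₃ := by
    intro ω _
    by_contra hn
    simp only [Set.mem_union, not_or] at hn
    exact hn.1.1.1 (h ω hn.1.1.2 hn.1.2 hn.2)
  have h4 := measureReal_mono (μ := Q) h3
  rw [probReal_univ] at h4
  have h5 := measureReal_union_le (μ := Q) (({ω | a ≤ cnt l (E ω)} ∪ A₁) ∪ A₂) A₃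
  have h6 := measureReal_union_le (μ := Q) ({ω | a ≤ cnt l (E ω)} ∪ A₁) A₂
  have h7 := measureReal_union_le (μ := Q) {ω | a ≤ cnt l (E ω)} A₁
  linarith

theorem GA_word [Countable G] (c : Ctx G) (K : ℕ) {X₁ X₂ : Sys G} {j : X₁.Ω → ℤ}
    {ℓ : X₂.Ω → Bool} (I l ρ : ℕ) (hj : Measurable j) (hℓ : Measurable ℓ)
    {Cn : X₁.Ω → List (Step c K) → ℕ → Prop} (hC : ∀ w t, MeasurableSet {ω | Cn ω w t})
    {a : ℝ} (ha : 0 ≤ a) (θ₁ : ℝ) {w : List (Step c K)} (hw : w.length = l) (GT : ℕ → Prop) {D : ℝ}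
    (hD : ((X₁.prod (X₂.pi I)).P.prod (bern G θ₁)).real
      {p | ¬ Del c K (X₁.prod (X₂.pi I)) (lamJ X₁ X₂ I j ℓ) θ₁ w p ∧
        ∃ t ≤ w.length, GT t ∧ lamJ X₁ X₂ I j ℓ ((X₁.prod (X₂.pi I)).st (c.gs K) p.1 w t) =
          LamW (X₁.prod (X₂.pi I)) (c.gs K) (lamJ X₁ X₂ I j ℓ) p.1 w} ≤ D) :
    a * (1 - X₁.P.real {ω | ¬ (a ≤ cnt l (fun t => Cn ω w t ∧ TopJ X₁ (c.gs K) j ω w t) ∧
        (∀ i ≤ l, ∀ i' ≤ l, TopJ X₁ (c.gs K) j ω w i → TopJ X₁ (c.gs K) j ω w i' → i' ≤ i + ρ) ∧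
        ∀ i ≤ l, TopJ X₁ (c.gs K) j ω w i → GT i)} -
      (X₁.prod (X₂.pi I)).P.real {ω |
        (∀ i ≤ l, ∀ i' ≤ l, TopJ X₁ (c.gs K) j ω.1 w i → TopJ X₁ (c.gs K) j ω.1 w i' →
          i' ≤ i + ρ) ∧ ∃ t ≤ l, TopJ X₁ (c.gs K) j ω.1 w t ∧
        lamJ X₁ X₂ I j ℓ ((X₁.prod (X₂.pi I)).st (c.gs K) ω w t) ≠
          LamW (X₁.prod (X₂.pi I)) (c.gs K) (lamJ X₁ X₂ I j ℓ) ω w} - D) ≤
      ∑ t ∈ Finset.range (l + 1), ((X₁.prod (X₂.pi I)).P.prod (bern G θ₁)).real
        {p | Cc c K (X₁.prod (X₂.pi I)) (lamJ X₁ X₂ I j ℓ) θ₁ (fun ω => Cn ω.1) p w t} := by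
  have f1 : MeasurePreserving Prod.fst ((X₁.prod (X₂.pi I)).P.prod (bern G θ₁))
      (X₁.prod (X₂.pi I)).P := measurePreserving_fst
  have f2 : MeasurePreserving (fun p : (X₁.prod (X₂.pi I)).Ω × (G → Bool) => p.1.1)
      ((X₁.prod (X₂.pi I)).P.prod (bern G θ₁)) X₁.P := (fac_fst X₁ (X₂.pi I)).mp.comp f1
  have g1 := GA_pre f1 fun ω =>
    (∀ i ≤ l, ∀ i' ≤ l, TopJ X₁ (c.gs K) j ω.1 w i → TopJ X₁ (c.gs K) j ω.1 w i' →
      i' ≤ i + ρ) ∧ ∃ t ≤ l, TopJ X₁ (c.gs K) j ω.1 w t ∧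
    lamJ X₁ X₂ I j ℓ ((X₁.prod (X₂.pi I)).st (c.gs K) ω w t) ≠
      LamW (X₁.prod (X₂.pi I)) (c.gs K) (lamJ X₁ X₂ I j ℓ) ω w
  have g2 := GA_pre f2 fun ω => ¬ (a ≤ cnt l (fun t => Cn ω w t ∧ TopJ X₁ (c.gs K) j ω w t) ∧
    (∀ i ≤ l, ∀ i' ≤ l, TopJ X₁ (c.gs K) j ω w i → TopJ X₁ (c.gs K) j ω w i' → i' ≤ i + ρ) ∧
    ∀ i ≤ l, TopJ X₁ (c.gs K) j ω w i → GT i)
  refine le_trans (mul_le_mul_of_nonneg_left
    (sub_le_sub (sub_le_sub (sub_le_sub_left g2 1) g1) hD) ha) (GA_markov _ l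
      (GA_ms c K (X₁.prod (X₂.pi I)) (measurable_lamJ hj hℓ) θ₁ (Cn := fun ω => Cn ω.1)
        (fun w t => measurable_fst (hC w t)) w) ha fun p h1 h2 h3 => ?_)
  simp only [Set.mem_setOf_eq, not_not] at h1 h2 h3
  have hd : Del c K (X₁.prod (X₂.pi I)) (lamJ X₁ X₂ I j ℓ) θ₁ w p := by
    by_contra hn
    obtain ⟨t, ht, he⟩ := Finset.exists_mem_eq_sup' (s := Finset.range (w.length + 1))
      Finset.nonempty_range_add_one
      fun i => lamJ X₁ X₂ I j ℓ ((X₁.prod (X₂.pi I)).st (c.gs K) p.1 w i)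
    have ht' := Nat.lt_succ_iff.1 (Finset.mem_range.1 ht)
    exact h3 ⟨hn, t, ht', h1.2.2 t (hw ▸ ht') (topJ_of_lam _ _ _ he.symm), he.symm⟩
  refine h1.1.trans (cnt_mono fun t ht hh => ⟨hh.1, ?_, hd⟩)
  by_contra hn
  exact h2 ⟨h1.2.1, t, ht, hh.2, hn⟩

theorem gainA [Countable G] (hc : HC G) (c : Ctx G) : ∀ᶠ κ : ℕ in atTop,
    ∀ (X₂ : Sys G) (ℓ : X₂.Ω → Bool) (good : G → Prop), LayerPack c κ X₂ ℓ good →
      ∀ᶠ K in atTop, ∀ (X₁ : Sys G) (j : X₁.Ω → ℤ), Measurable j → (∀ ω, j (X₁.mv ω c.a) = j ω) →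
        ∀ (γ : c.S) (Cn : X₁.Ω → List (Step c K) → ℕ → Prop) (c₀ : ℝ) (Cm : ℕ), 0 < c₀ →
          HeightPack c K κ X₁ j γ Cn c₀ Cm →
          c₀ * κ ^ 2 / 4 ≤ avgW (ll κ) fun w => ∑ t ∈ Finset.range (ll κ + 1),
            ((X₁.prod (X₂.pi (nu κ ^ 9))).P.prod (bern G (1 / (nu κ : ℝ) ^ 6))).real
              {p | Cc c K (X₁.prod (X₂.pi (nu κ ^ 9))) (lamJ X₁ X₂ (nu κ ^ 9) j ℓ)
                (1 / (nu κ : ℝ) ^ 6) (fun ω => Cn ω.1) p w t} := by
  filter_upwards [par_tie, nu_big 0 (100 * (8 * c.S.card + 11))] with κ hT hν X₂ ℓ good hL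
  filter_upwards [hL.bad] with K hK X₁ j hj hja γ Cn c₀ Cm hc₀ hH
  have hν1 : (1 : ℝ) ≤ nu κ := by exact_mod_cast Par1_nu κ
  have hν0 : (0 : ℝ) < nu κ := by linarith
  have hl1 : 1 ≤ ll κ := (Par1_nu κ).trans (Par1_ll κ)
  have hp1 : 1 ≤ nu κ ^ 7 := Nat.one_le_pow _ _ (Par1_nu κ)
  have ha : 0 ≤ c₀ * (κ : ℝ) ^ 2 := by positivity
  have hτ : 0 ≤ 1 - 1 / (8 * (nu κ : ℝ)) := by
    rw [sub_nonneg, div_le_one (by positivity)]
    linarith
  have hθ1 : 1 / (nu κ : ℝ) ^ 6 ≤ 1 := by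
    rw [div_le_one (by positivity)]
    exact one_le_pow₀ hν1
  have hlam : ∀ ω, lamJ X₁ X₂ (nu κ ^ 9) j ℓ ((X₁.prod (X₂.pi (nu κ ^ 9))).mv ω c.a) =
      lamJ X₁ X₂ (nu κ ^ 9) j ℓ ω := fun ω =>
    (lamJ_eq_iff _ _).2 ⟨hja _, fun i => hL.ainv _⟩
  have e1 := hH.good (fun u => ¬ good (pw (c.gs K) u)) (fun v => ¬ good (pw (c.gs K) v)⁻¹) hK
    fun n h1 h2 => by
      have h3 := avgW_rv (c.inv K) n fun w => ind (¬ good (pw (c.gs K) w))
      simp only [pw_rv (c.inv K)] at h3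
      rw [h3]
      exact hK n h1 h2
  have e2 := g11 (X₁ := X₁) (I := nu κ ^ 9) c K (ll κ) (nu κ) hj hL.meas hL.ainv hL.slow
  have e3 := hK (ll κ) hl1 le_rfl
  unfold Sys.ann at e1 e2
  refine le_trans ?_ (avgW_mono (F := fun w => c₀ * (κ : ℝ) ^ 2 * (1 -
      X₁.P.real {ω | ¬ (c₀ * κ ^ 2 ≤ cnt (ll κ) (fun t => Cn ω w t ∧ TopJ X₁ (c.gs K) j ω w t) ∧
        (∀ i ≤ ll κ, ∀ i' ≤ ll κ, TopJ X₁ (c.gs K) j ω w i → TopJ X₁ (c.gs K) j ω w i' →
          i' ≤ i + nu κ) ∧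
        ∀ i ≤ ll κ, TopJ X₁ (c.gs K) j ω w i → ¬ ¬ good (pw (c.gs K) (w.take i)) ∧
          ¬ ¬ good (pw (c.gs K) (w.drop i))⁻¹)} -
      (X₁.prod (X₂.pi (nu κ ^ 9))).P.real {ω |
        (∀ i ≤ ll κ, ∀ i' ≤ ll κ, TopJ X₁ (c.gs K) j ω.1 w i → TopJ X₁ (c.gs K) j ω.1 w i' →
          i' ≤ i + nu κ) ∧ ∃ t ≤ ll κ, TopJ X₁ (c.gs K) j ω.1 w t ∧
        lamJ X₁ X₂ (nu κ ^ 9) j ℓ ((X₁.prod (X₂.pi (nu κ ^ 9))).st (c.gs K) ω w t) ≠
          LamW (X₁.prod (X₂.pi (nu κ ^ 9))) (c.gs K) (lamJ X₁ X₂ (nu κ ^ 9) j ℓ) ω w} -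
      (2 / 3 + 1 / 200 + 3 / nu κ + ind (¬ good (pw (c.gs K) w))))) fun w hw => ?_)
  · rw [avgW_mul_left, avgW_sub, avgW_sub, avgW_sub, avgW_add, avgW_const, avgW_const,
      div_eq_mul_inv _ (4 : ℝ)]
    refine mul_le_mul_of_nonneg_left ?_ ha
    have n1 : (nu κ : ℝ) * ((nu κ ^ 9 : ℕ) * (8 * c.S.card / (nu κ : ℝ) ^ 11)) =
        8 * c.S.card / nu κ := by
      push_cast
      field_simp
    have n2 : 8 * (nu κ : ℝ) ^ 45 / (ll κ : ℕ) ≤ 8 / nu κ := by
      rw [ll, div_le_div_iff₀ (by positivity) hν0]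
      push_cast
      have := pow_le_pow_right₀ hν1 (show 46 ≤ 92 by norm_num)
      calc 8 * (nu κ : ℝ) ^ 45 * nu κ = 8 * (nu κ : ℝ) ^ 46 := by ring
        _ ≤ _ := by linarith
    have n3 : 8 * (c.S.card : ℝ) / nu κ + 8 / nu κ + 3 / nu κ ≤ 1 / 100 := by
      rw [← add_div, ← add_div, div_le_iff₀ hν0]
      rw [pow_zero] at hν
      linarith
    rw [n1] at e2
    linarith
  · refine GA_word c K (nu κ ^ 9) (ll κ) (nu κ) hj hL.meas hH.meas ha _ hw _ ?_
    by_cases hg : good (pw (c.gs K) w)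
    · obtain ⟨N, hN, hN'⟩ := hL.tie K w hg (nu κ ^ 7 + 1)
      refine (del_bound hc c K _ (measurable_lamJ hj hL.meas) hlam w _
        (pow_nonneg hτ (nu κ ^ 9)) (by positivity) hθ1 hp1 hp1 ⟨N, hN, fun b j' q h1 h2 t t' h3 =>
          lamJ_tie hL.meas _ _ (hN' b j' q h1 h2 t t' (not_not.1 h3.1) (not_not.1 h3.2))⟩).trans ?_
      have n4 : (1 / ((nu κ ^ 7 : ℕ) : ℝ) + 2 / ((nu κ ^ 7 : ℕ) : ℝ)) / (1 / (nu κ : ℝ) ^ 6) =
          3 / nu κ := by
        push_cast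
        field_simp
        norm_num
      rw [n4, hw, ind_neg (not_not.2 hg)]
      linarith
    · rw [ind_pos hg]
      refine measureReal_le_one.trans ?_
      have : (0 : ℝ) ≤ 3 / nu κ := by positivity
      linarith

end Pool.Agent.Work.MP_01d39a_al.Ct
end

-- merged part: Pool.Agent.Work.MP_01d39a_al.Ct.GB1
section
/-!
TASK CT GB1. A successful word with open edges forces `Y` (deterministic), and the edge sets are small.
Let `b = base w t`, `ω' = mv ω b⁻¹`, `Λ = LamW ω' w`. The letter of step `t` is `γ`; `pw (take (t-1)) = b a^(-k)`,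
`pw (take t) = b γ a^k'`; by `ainv`, `max (lam ω) (lam (mv ω γ)) = Λ`. Every step `s ≠ t` joins `b⁻¹ pw (take (s-1))` to
`b⁻¹ pw (take s)` by `a`-moves and an `S`-edge of label `< Λ` or in `Eset`. So `1 ~ b⁻¹` and `γ ~ b⁻¹ pw w`; `Del` moved by `b⁻¹`
(`con_mv`, `Con.ind`) joins `b⁻¹` and `b⁻¹ pw w`.
card_Eset: the filter has at most one letter per time `s`, and `s - 1` or `s` maximises the label.
-/

open MeasureTheory ProbabilityTheory Filter Topology
open scoped BigOperators ENNReal NNReal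

namespace Pool.Agent.Work.MP_01d39a_al.Ct

variable {G : Type} [Group G]

variable {c : Ctx G} {K : ℕ} {X : Sys G} {lam : X.Ω → ℤ} {γ : c.S}
  {Cn : X.Ω → List (Step c K) → ℕ → Prop} {l m : ℕ}

theorem card_Eset (ω : X.Ω) {w : List (Step c K)} (hw : w.length = l) (t : ℕ)
    (h : cnt l (fun i => lam (X.st (c.gs K) ω w i) = LamW X (c.gs K) lam ω w) ≤ m) :
    (Eset c K X lam ω w t).card ≤ 2 * m := by
  classical
  let T := (Finset.range (l + 1)).filter fun i =>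
    lam (X.st (c.gs K) ω w i) = LamW X (c.gs K) lam ω w
  have hT : T.card ≤ m := by
    have e : cnt l (fun i => lam (X.st (c.gs K) ω w i) = LamW X (c.gs K) lam ω w) = T.card := by
      rw [Finset.card_filter, Nat.cast_sum]
      refine Finset.sum_congr rfl fun i _ => ?_
      split_ifs with hi
      · rw [ind_pos hi, Nat.cast_one]
      · rw [ind_neg hi, Nat.cast_zero]
    rw [e] at h
    exact_mod_cast h
  have h2 : (T ∪ T.image (· + 1)).card ≤ 2 * m :=
    (Finset.card_union_le _ _).trans (by linarith [Finset.card_image_le (s := T) (f := (· + 1))])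
  refine (Finset.card_image_le.trans (Finset.card_le_card_of_injOn Prod.fst ?_ ?_)).trans h2
  · intro x hx
    obtain ⟨h1, -, -, h3⟩ := Finset.mem_filter.1 (Finset.mem_coe.1 hx)
    obtain ⟨h4, h5⟩ := Finset.mem_Icc.1 (Finset.mem_product.1 h1).1
    refine Finset.mem_coe.2 (Finset.mem_union.2 (h3.symm.imp (fun h6 => ?_) fun h6 => ?_))
    · exact Finset.mem_filter.2 ⟨Finset.mem_range.2 (by omega), h6⟩
    · exact Finset.mem_image.2 ⟨x.1 - 1,
        Finset.mem_filter.2 ⟨Finset.mem_range.2 (by omega), h6⟩, by omega⟩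
  · intro x hx y hy e
    obtain ⟨-, -, ⟨s, h1, -, h2⟩, -⟩ := Finset.mem_filter.1 (Finset.mem_coe.1 hx)
    obtain ⟨-, -, ⟨s', h3, -, h4⟩, -⟩ := Finset.mem_filter.1 (Finset.mem_coe.1 hy)
    rw [e, h3] at h1
    obtain rfl := Option.some.inj h1
    exact Prod.ext e (h2.symm.trans h4)

theorem mem_Eset {ω : X.Ω} {w : List (Step c K)} {t : ℕ} {e : G × G} (he : e ∈ Eset c K X lam ω w t) :
    ∃ s ∈ Finset.Icc 1 w.length, s ≠ t ∧ e.1 = c.rel K w t s := by
  classical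
  obtain ⟨x, hx, rfl⟩ := Finset.mem_image.1 he
  obtain ⟨h1, h2, -⟩ := Finset.mem_filter.1 hx
  exact ⟨x.1, (Finset.mem_product.1 h1).1, h2, rfl⟩

theorem GB1_base (w : List (Step c K)) {j : ℕ} (hj : j < w.length) :
    c.base K w (j + 1) = pw (c.gs K) (w.take j) * c.a ^ ex K w[j].1 := by
  simp [Ctx.base, hj]

theorem GB1_succ (w : List (Step c K)) {j : ℕ} (hj : j < w.length) :
    pw (c.gs K) (w.take (j + 1)) = c.base K w (j + 1) * lt w[j].2.1 * c.a ^ ex K w[j].2.2 := by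
  rw [pw_take_succ w hj, GB1_base w hj, Ctx.gs]
  simp only [mul_assoc]

theorem GB1_lam (ha : ∀ ω, lam (X.mv ω c.a) = lam ω) (ω : X.Ω) (b : G) (w : List (Step c K))
    {j : ℕ} (hj : j < w.length) :
    lam (X.st (c.gs K) (X.mv ω b) w j) = lam (X.mv ω (b * c.base K w (j + 1))) ∧
      lam (X.st (c.gs K) (X.mv ω b) w (j + 1)) =
        lam (X.mv ω (b * c.base K w (j + 1) * lt w[j].2.1)) := by
  constructor
  · rw [GB1_base w hj, ← mul_assoc, ← X.mv_mul _ _ (c.a ^ _), mv_zpow_of_ainv ha, Sys.st, X.mv_mul]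
  · rw [Sys.st, GB1_succ w hj, ← X.mv_mul, mv_zpow_of_ainv ha, X.mv_mul, mul_assoc]

theorem GB1_le (ω : X.Ω) (w : List (Step c K)) {j : ℕ} (hj : j ≤ w.length) :
    lam (X.st (c.gs K) ω w j) ≤ LamW X (c.gs K) lam ω w :=
  Finset.le_sup' (fun i => lam (X.st (c.gs K) ω w i)) (Finset.mem_range.2 (Nat.lt_succ_of_le hj))

theorem mem_yWs (hs : CnSpec c K X lam γ Cn l m) {W : ℕ} {θ₁ θ : ℝ} (ws : Fin W → List (Step c K))
    (i : Fin W) (hw : (ws i).length = l) (p : (sysY X W θ₁ θ).Ω) {t : ℕ}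
    (hc : Cc c K X lam θ₁ Cn (X.mv p.1 (c.base K (ws i) t)⁻¹,
      fun x => p.2.1 i ((c.base K (ws i) t)⁻¹ * x)) (ws i) t)
    (ho : ∀ e ∈ Eset c K X lam (X.mv p.1 (c.base K (ws i) t)⁻¹) (ws i) t, p.2.2 e = true) :
    p ∈ yWs c K X lam W θ₁ θ γ ws := by
  classical
  obtain ⟨h1, h2, h3⟩ := hc
  obtain ⟨t1, t2, ⟨s₀, e1, e2⟩, -⟩ := hs.spec _ _ _ hw h1
  obtain ⟨t, rfl⟩ : ∃ u, t = u + 1 := ⟨t - 1, by omega⟩
  have ht : t < (ws i).length := by omega
  obtain rfl : (ws i)[t] = s₀ := by simpa [ht] using e1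
  have e3 : lt (ws i)[t].2.1 = (γ : G) := by simp [e2, lt]
  obtain ⟨k1, k2⟩ := GB1_lam hs.ainv p.1 (c.base K (ws i) (t + 1))⁻¹ (ws i) ht
  rw [inv_mul_cancel, X.mv_one] at k1
  rw [inv_mul_cancel, one_mul, e3] at k2
  have hΛ : max (lam p.1) (lam (X.mv p.1 γ)) =
      LamW X (c.gs K) lam (X.mv p.1 (c.base K (ws i) (t + 1))⁻¹) (ws i) := by
    rw [← k1, ← k2, h2]
    exact max_eq_right (GB1_le _ _ ht.le)
  change Con (sysY X W θ₁ θ) c.a (fun g => (zOne c K X W θ₁ θ ws g ∪ zTwo c X W θ₁ θ g) ∪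
    Zlow c (sysY X W θ₁ θ) (fun p => lam p.1) (max (lam p.1) (lam (X.mv p.1 γ))) g) p 1 γ
  rw [hΛ]
  have hb := GB1_base (ws i) ht
  have hb' := GB1_succ (ws i) ht
  rw [e3] at hb'
  have hE : ∀ j (hj : j < (ws i).length), j ≠ t → ((ws i)[j].2.1.1 = true) →
      (lam (X.st (c.gs K) (X.mv p.1 (c.base K (ws i) (t + 1))⁻¹) (ws i) j) =
        LamW X (c.gs K) lam (X.mv p.1 (c.base K (ws i) (t + 1))⁻¹) (ws i) ∨
      lam (X.st (c.gs K) (X.mv p.1 (c.base K (ws i) (t + 1))⁻¹) (ws i) (j + 1)) =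
        LamW X (c.gs K) lam (X.mv p.1 (c.base K (ws i) (t + 1))⁻¹) (ws i)) →
      p.2.2 ((c.base K (ws i) (t + 1))⁻¹ * c.base K (ws i) (j + 1),
        (c.base K (ws i) (t + 1))⁻¹ * c.base K (ws i) (j + 1) * (ws i)[j].2.1.2) = true :=
    fun j hj hne hu hl => ho _ (Finset.mem_image.2 ⟨(j + 1, ((ws i)[j].2.1.2 : G)),
      Finset.mem_filter.2 ⟨Finset.mem_product.2 ⟨Finset.mem_Icc.2 ⟨by omega, hj⟩,
        (ws i)[j].2.1.2.2⟩, fun e => hne (Nat.succ_injective e),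
        ⟨(ws i)[j], by simp [hj], hu, rfl⟩, hl⟩, rfl⟩)
  unfold Del at h3
  generalize c.base K (ws i) (t + 1) = b at *
  set Λ := LamW X (c.gs K) lam (X.mv p.1 b⁻¹) (ws i) with hΛ'
  set Z : G → Set (sysY X W θ₁ θ).Ω := fun g => (zOne c K X W θ₁ θ ws g ∪ zTwo c X W θ₁ θ g) ∪
    Zlow c (sysY X W θ₁ θ) (fun p => lam p.1) Λ g with hZ
  have step : ∀ j, j < (ws i).length → j ≠ t → Con (sysY X W θ₁ θ) c.a Z p
      (b⁻¹ * pw (c.gs K) ((ws i).take j)) (b⁻¹ * pw (c.gs K) ((ws i).take (j + 1))) := by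
    intro j hj hne
    obtain ⟨m1, m2⟩ := GB1_lam hs.ainv p.1 b⁻¹ (ws i) hj
    have m3 := GB1_le (lam := lam) (X.mv p.1 b⁻¹) (ws i) hj.le
    have m4 := GB1_le (lam := lam) (X.mv p.1 b⁻¹) (ws i) (Nat.succ_le_of_lt hj)
    have m5 := hE j hj hne
    have c1 : Con (sysY X W θ₁ θ) c.a Z p (b⁻¹ * pw (c.gs K) ((ws i).take j))
        (b⁻¹ * c.base K (ws i) (j + 1)) := by
      rw [GB1_base _ hj, ← mul_assoc]
      exact con_zpow _ _
    rw [GB1_succ _ hj, ← mul_assoc, ← mul_assoc]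
    refine (c1.trans ?_).trans (con_zpow _ _)
    by_cases hu : (ws i)[j].2.1.1 = true
    · have e4 : lt (ws i)[j].2.1 = ((ws i)[j].2.1.2 : G) := if_pos hu
      rw [e4] at m2 ⊢
      refine con_edge ?_
      by_cases hl : lam (X.st (c.gs K) (X.mv p.1 b⁻¹) (ws i) j) = Λ ∨
        lam (X.st (c.gs K) (X.mv p.1 b⁻¹) (ws i) (j + 1)) = Λ
      · refine Or.inl (Or.inr ⟨(ws i)[j].2.1.2.2, ?_⟩)
        simpa using m5 hu hl
      · rw [not_or] at hl
        refine Or.inr ⟨(ws i)[j].2.1.2.2, max_lt ?_ ?_⟩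
        · exact m1.symm.trans_lt (lt_of_le_of_ne m3 hl.1)
        · change lam (X.mv (X.mv p.1 _) _) < Λ
          rw [X.mv_mul, ← m2]
          exact lt_of_le_of_ne m4 hl.2
    · have e4 : lt (ws i)[j].2.1 = (1 : G) := if_neg hu
      rw [e4, mul_one]
      exact Con.refl _
  have w1 : ∀ j, j ≤ t → Con (sysY X W θ₁ θ) c.a Z p (b⁻¹ * 1)
      (b⁻¹ * pw (c.gs K) ((ws i).take j)) := by
    intro j hj
    induction j with
    | zero => exact Con.refl _
    | succ j ih => exact (ih (by omega)).trans (step j (by omega) (by omega))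
  have w2 : ∀ j, t + 1 ≤ j → j ≤ (ws i).length → Con (sysY X W θ₁ θ) c.a Z p
      (b⁻¹ * pw (c.gs K) ((ws i).take (t + 1))) (b⁻¹ * pw (c.gs K) ((ws i).take j)) := by
    intro j hj
    induction j, hj using Nat.le_induction with
    | base => exact fun _ => Con.refl _
    | succ j hj ih => exact fun h => (ih (by omega)).trans (step j (by omega) (by omega))
  have w3 : Con (sysY X W θ₁ θ) c.a Z p (b⁻¹ * 1) (b⁻¹ * pw (c.gs K) (ws i)) := by
    refine Con.ind (s := fun x y => Con (sysY X W θ₁ θ) c.a Z p (b⁻¹ * x) (b⁻¹ * y))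
      ⟨fun _ => Con.refl _, Con.symm, Con.trans⟩ (fun x => ?_) (fun x g hx => ?_) h3
    · rw [← mul_assoc]
      exact con_a _
    · rw [← mul_assoc]
      refine con_edge ?_
      rcases hx with hx | ⟨rfl, hx⟩
      · refine Or.inr ?_
        change X.mv (X.mv p.1 b⁻¹) x ∈ Zlow c X lam Λ g at hx
        rw [X.mv_mul] at hx
        exact hx
      · refine Or.inl (Or.inl ⟨i, rfl, ?_⟩)
        simpa using hx
  have w4 := (w1 t le_rfl).trans (con_zpow _ (ex K (ws i)[t].1))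
  rw [mul_assoc, ← hb, inv_mul_cancel] at w4
  have w5 := w2 _ ht le_rfl
  rw [List.take_length, hb', mul_assoc, inv_mul_cancel_left] at w5
  exact (w4.symm.trans w3).trans ((con_zpow _ _).trans w5).symm

end Pool.Agent.Work.MP_01d39a_al.Ct
end

-- merged part: Pool.Agent.Work.MP_01d39a_al.Ct.GB2
section
/-!
TASK CT GB2. Independent trials for a fixed environment `ω`.
Fix `ws` with `Dis` and `σ₁`. Let `s` be the set of successful `i` (some `t ≤ l` with `Cc`), `t i` a witness, `E i = Eset ..`; they are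
pairwise disjoint (`mem_Eset`, `Dis`, `CnSpec.spec`) of size `≤ 2m` (`card_Eset`). By `mem_yWs` and `bern_none_open`, the
`σ₂`-probability of not `Y` is at most `∏ i, (1 - ind (succ i) θ^(2m))`. Integrate over `σ₁` (`Measure.prod_apply`,
`integral_fintype_prod_eq_prod`), average over `ws` (product formula for `𝔼` over functions, `Finset.prod_univ_sum`,
`avgW_ofFn`), add `not_dis`. Measurability: `ms_Del`, `ms_YEv`, `measurable_LamW`.
-/

open MeasureTheory ProbabilityTheory Filter Topology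
open scoped BigOperators ENNReal NNReal

namespace Pool.Agent.Work.MP_01d39a_al.Ct

variable {G : Type} [Group G]

variable {c : Ctx G} {K : ℕ} {X : Sys G} {lam : X.Ω → ℤ} {γ : c.S}
  {Cn : X.Ω → List (Step c K) → ℕ → Prop} {l m : ℕ}

theorem ms_Cc [Countable G] (hs : CnSpec c K X lam γ Cn l m) (θ₁ : ℝ) (w : List (Step c K)) (t : ℕ) :
    MeasurableSet {p | Cc c K X lam θ₁ Cn p w t} := by
  have h1 : MeasurableSet {p : X.Ω × (G → Bool) | Cn p.1 w t} :=
    measurable_fst (hs.meas w t)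
  have h2 : MeasurableSet {p : X.Ω × (G → Bool) |
      lam (X.st (c.gs K) p.1 w t) = LamW X (c.gs K) lam p.1 w} :=
    measurableSet_eq_fun ((hs.mlam.comp (measurable_st X w t)).comp measurable_fst)
      ((measurable_LamW X (c.gs K) hs.mlam w).comp measurable_fst)
  exact h1.inter (h2.inter (ms_Del c K X hs.mlam θ₁ w))

theorem ms_yWs [Countable G] (hs : CnSpec c K X lam γ Cn l m) (W : ℕ) (θ₁ θ : ℝ)
    (ws : Fin W → List (Step c K)) : MeasurableSet (yWs c K X lam W θ₁ θ γ ws) := by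
  refine ms_YEv c (sysY X W θ₁ θ) (hs.mlam.comp measurable_fst) (fun g => ?_) γ
  refine MeasurableSet.union ?_ ?_
  · have : zOne c K X W θ₁ θ ws g = ⋃ i, {p : (sysY X W θ₁ θ).Ω |
        pw (c.gs K) (ws i) = g ∧ p.2.1 i 1 = true} := by
      ext p
      simp [zOne]
    rw [this]
    refine MeasurableSet.iUnion fun i => (MeasurableSet.const _).inter ?_
    have hm : Measurable fun p : X.Ω × (Fin W → G → Bool) × (G × G → Bool) => p.2.1 i :=
      (measurable_pi_apply i).comp (measurable_fst.comp measurable_snd)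
    exact hm (Ber_meas_one (1 : G))
  · have hm : Measurable fun p : X.Ω × (Fin W → G → Bool) × (G × G → Bool) => p.2.2 :=
      measurable_snd.comp measurable_snd
    have h2 : MeasurableSet (spr c g) :=
      (MeasurableSet.const _).inter (Ber_meas_one ((1 : G), g))
    exact hm h2

/-- The word `w` is successful for the coins `σ`. -/
def GB2_Suc (c : Ctx G) (K : ℕ) (X : Sys G) (lam : X.Ω → ℤ) (θ₁ : ℝ)
    (Cn : X.Ω → List (Step c K) → ℕ → Prop) (l : ℕ) (ω : X.Ω) (w : List (Step c K))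
    (σ : G → Bool) : Prop :=
  ∃ t ≤ l, Cc c K X lam θ₁ Cn
    (X.mv ω (c.base K w t)⁻¹, fun x => σ ((c.base K w t)⁻¹ * x)) w t

theorem GB2_ms_Suc [Countable G] (hs : CnSpec c K X lam γ Cn l m) (θ₁ : ℝ) (ω : X.Ω)
    (w : List (Step c K)) : MeasurableSet {σ | GB2_Suc c K X lam θ₁ Cn l ω w σ} := by
  have : {σ | GB2_Suc c K X lam θ₁ Cn l ω w σ} = ⋃ t, {σ : G → Bool | t ≤ l ∧ Cc c K X lam θ₁ Cn
      (X.mv ω (c.base K w t)⁻¹, fun x => σ ((c.base K w t)⁻¹ * x)) w t} := by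
    ext σ
    simp [GB2_Suc]
  rw [this]
  refine MeasurableSet.iUnion fun t => (MeasurableSet.const _).inter ?_
  have hm : Measurable fun σ : G → Bool =>
      ((X.mv ω (c.base K w t)⁻¹, fun x => σ ((c.base K w t)⁻¹ * x)) : X.Ω × (G → Bool)) :=
    measurable_const.prodMk (measurable_pi_lambda _ fun x => measurable_pi_apply _)
  exact hm (ms_Cc hs θ₁ w t)

/-- Step 1: the last coins are integrated out. -/
theorem GB2_step1 (hs : CnSpec c K X lam γ Cn l m) (W : ℕ) (θ₁ : ℝ) {θ : ℝ} (h0 : 0 ≤ θ)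
    (h1 : θ ≤ 1) (ω : X.Ω) (ws : Fin W → List (Step c K)) (hw : ∀ i, (ws i).length = l)
    (hD : Dis c K l W ws) (σ₁ : Fin W → G → Bool) :
    (bern (G × G) θ).real {σ₂ | (ω, (σ₁, σ₂)) ∉ yWs c K X lam W θ₁ θ γ ws} ≤
      ∏ i, (1 - ind (GB2_Suc c K X lam θ₁ Cn l ω (ws i) (σ₁ i)) * θ ^ (2 * m)) := by
  classical
  set s : Finset (Fin W) := Finset.univ.filter fun i => GB2_Suc c K X lam θ₁ Cn l ω (ws i) (σ₁ i)
    with hsdef
  have hex : ∀ i, ∃ t : ℕ, i ∈ s → Cc c K X lam θ₁ Cn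
      (X.mv ω (c.base K (ws i) t)⁻¹, fun x => σ₁ i ((c.base K (ws i) t)⁻¹ * x)) (ws i) t := by
    intro i
    by_cases hi : i ∈ s
    · obtain ⟨t, -, ht⟩ := (Finset.mem_filter.1 hi).2
      exact ⟨t, fun _ => ht⟩
    · exact ⟨0, fun h => absurd h hi⟩
  choose t ht using hex
  have hsp := fun i (hi : i ∈ s) => hs.spec _ (ws i) (t i) (hw i) (ht i hi).1
  set E : Fin W → Finset (G × G) := fun i =>
    Eset c K X lam (X.mv ω (c.base K (ws i) (t i))⁻¹) (ws i) (t i) with hE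
  have hdis : ∀ i ∈ s, ∀ j ∈ s, i ≠ j → Disjoint (E i) (E j) := by
    intro i hi j hj hij
    rw [Finset.disjoint_left]
    intro e hei hej
    obtain ⟨u, hu, hut, hue⟩ := mem_Eset hei
    obtain ⟨u', hu', hut', hue'⟩ := mem_Eset hej
    rw [hw i] at hu
    rw [hw j] at hu'
    exact hD i j hij (t i) (Finset.mem_Icc.2 ⟨(hsp i hi).1, (hsp i hi).2.1⟩) (t j)
      (Finset.mem_Icc.2 ⟨(hsp j hj).1, (hsp j hj).2.1⟩) u hu u' hu' hut hut' (hue.symm.trans hue')
  calc (bern (G × G) θ).real {σ₂ | (ω, (σ₁, σ₂)) ∉ yWs c K X lam W θ₁ θ γ ws}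
      ≤ (bern (G × G) θ).real {σ₂ | ∀ i ∈ s, ¬ ∀ e ∈ E i, σ₂ e = true} := by
        refine measureReal_mono (fun σ₂ h i hi ho => h ?_)
        exact mem_yWs hs ws i (hw i) (ω, (σ₁, σ₂)) (ht i hi) ho
    _ = ∏ i ∈ s, (1 - θ ^ (E i).card) := bern_none_open h0 h1 s E hdis
    _ ≤ ∏ i ∈ s, (1 - θ ^ (2 * m)) := by
        refine Finset.prod_le_prod (fun i _ => ?_) fun i hi => ?_
        · linarith [pow_le_one₀ (n := (E i).card) h0 h1]
        · have hc : (E i).card ≤ 2 * m := card_Eset _ (hw i) (t i) (hsp i hi).2.2.2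
          linarith [pow_le_pow_of_le_one h0 h1 hc]
    _ = ∏ i, (1 - ind (GB2_Suc c K X lam θ₁ Cn l ω (ws i) (σ₁ i)) * θ ^ (2 * m)) := by
        rw [hsdef, Finset.prod_filter]
        refine Finset.prod_congr rfl fun i _ => ?_
        split_ifs with h
        · rw [ind_pos h, one_mul]
        · rw [ind_neg h, zero_mul, sub_zero]

/-- Step 2: the coins of the words are integrated out. -/
theorem GB2_step2 [Countable G] (hs : CnSpec c K X lam γ Cn l m) (W : ℕ) (θ₁ : ℝ) {θ : ℝ}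
    (h0 : 0 ≤ θ) (h1 : θ ≤ 1) (ω : X.Ω) (ws : Fin W → List (Step c K))
    (hw : ∀ i, (ws i).length = l) (hD : Dis c K l W ws) :
    ((Measure.pi fun _ : Fin W => bern G θ₁).prod (bern (G × G) θ)).real
        {r | (ω, r) ∉ yWs c K X lam W θ₁ θ γ ws} ≤
      ∏ i, (1 - (bern G θ₁).real {σ | GB2_Suc c K X lam θ₁ Cn l ω (ws i) σ} * θ ^ (2 * m)) := by
  have hA : MeasurableSet {r : (Fin W → G → Bool) × (G × G → Bool) |
      (ω, r) ∉ yWs c K X lam W θ₁ θ γ ws} :=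
    (measurable_prodMk_left (ms_yWs hs W θ₁ θ ws)).compl
  have hint := integrable_ind ((Measure.pi fun _ : Fin W => bern G θ₁).prod (bern (G × G) θ)) hA
  have hf : ∀ i, Integrable (fun σ : G → Bool =>
      1 - ind (GB2_Suc c K X lam θ₁ Cn l ω (ws i) σ) * θ ^ (2 * m)) (bern G θ₁) := fun i =>
    (integrable_const _).sub ((integrable_ind _ (GB2_ms_Suc hs θ₁ ω (ws i))).mul_const _)
  rw [← integral_ind _ hA, integral_prod _ hint]
  calc ∫ σ₁, ∫ σ₂, ind ((ω, (σ₁, σ₂)) ∉ yWs c K X lam W θ₁ θ γ ws) ∂bern (G × G) θ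
        ∂(Measure.pi fun _ : Fin W => bern G θ₁)
      ≤ ∫ σ₁ : Fin W → G → Bool,
          ∏ i, (1 - ind (GB2_Suc c K X lam θ₁ Cn l ω (ws i) (σ₁ i)) * θ ^ (2 * m))
          ∂(Measure.pi fun _ : Fin W => bern G θ₁) := by
        refine integral_mono hint.integral_prod_left (Integrable.fintype_prod hf) fun σ₁ => ?_
        have hB : MeasurableSet {σ₂ : G × G → Bool | (ω, (σ₁, σ₂)) ∉ yWs c K X lam W θ₁ θ γ ws} :=
          measurable_prodMk_left hA
        change ∫ σ₂, ind ((ω, (σ₁, σ₂)) ∉ yWs c K X lam W θ₁ θ γ ws) ∂bern (G × G) θ ≤ _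
        rw [integral_ind _ hB]
        exact GB2_step1 hs W θ₁ h0 h1 ω ws hw hD σ₁
    _ = ∏ i, ∫ σ, (1 - ind (GB2_Suc c K X lam θ₁ Cn l ω (ws i) σ) * θ ^ (2 * m)) ∂bern G θ₁ :=
        integral_fintype_prod_eq_prod
          (fun (i : Fin W) (σ : G → Bool) =>
            1 - ind (GB2_Suc c K X lam θ₁ Cn l ω (ws i) σ) * θ ^ (2 * m))
    _ = _ := by
        refine Finset.prod_congr rfl fun i _ => ?_
        rw [integral_sub (integrable_const _)
          ((integrable_ind _ (GB2_ms_Suc hs θ₁ ω (ws i))).mul_const _), integral_mul_const,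
          integral_ind _ (GB2_ms_Suc hs θ₁ ω (ws i))]
        simp

theorem trials [Countable G] (hs : CnSpec c K X lam γ Cn l m) (W : ℕ) (θ₁ : ℝ) {θ : ℝ} (h0 : 0 ≤ θ)
    (h1 : θ ≤ 1) (ω : X.Ω) :
    (𝔼 ws : Fin W → Fin l → Step c K,
      ((Measure.pi fun _ : Fin W => bern G θ₁).prod (bern (G × G) θ)).real
        {r | (ω, r) ∉ yWs c K X lam W θ₁ θ γ fun i => List.ofFn (ws i)}) ≤
      (1 - piS c K X lam θ₁ Cn l ω * θ ^ (2 * m)) ^ W + (W : ℝ) ^ 2 * (l : ℝ) ^ 4 / (2 * K + 1) := by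
  classical
  set F : (Fin l → Step c K) → ℝ := fun f =>
    1 - (bern G θ₁).real {σ | GB2_Suc c K X lam θ₁ Cn l ω (List.ofFn f) σ} * θ ^ (2 * m) with hF
  have hF0 : ∀ f, 0 ≤ F f := by
    intro f
    have a : (bern G θ₁).real {σ | GB2_Suc c K X lam θ₁ Cn l ω (List.ofFn f) σ} ≤ 1 :=
      measureReal_le_one
    have b : θ ^ (2 * m) ≤ 1 := pow_le_one₀ h0 h1
    have d : (bern G θ₁).real {σ | GB2_Suc c K X lam θ₁ Cn l ω (List.ofFn f) σ} * θ ^ (2 * m) ≤ 1 :=
      mul_le_one₀ a (by positivity) b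
    simp only [hF]
    linarith
  have hpt : ∀ ws : Fin W → Fin l → Step c K,
      ((Measure.pi fun _ : Fin W => bern G θ₁).prod (bern (G × G) θ)).real
        {r | (ω, r) ∉ yWs c K X lam W θ₁ θ γ fun i => List.ofFn (ws i)} ≤
      ∏ i, F (ws i) + ind (¬ Dis c K l W fun i => List.ofFn (ws i)) := by
    intro ws
    by_cases hD : Dis c K l W fun i => List.ofFn (ws i)
    · rw [ind_neg (not_not.2 hD), add_zero]
      exact GB2_step2 hs W θ₁ h0 h1 ω _ (fun i => List.length_ofFn) hD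
    · rw [ind_pos hD]
      have a : 0 ≤ ∏ i, F (ws i) := Finset.prod_nonneg fun i _ => hF0 _
      have b : ((Measure.pi fun _ : Fin W => bern G θ₁).prod (bern (G × G) θ)).real
          {r | (ω, r) ∉ yWs c K X lam W θ₁ θ γ fun i => List.ofFn (ws i)} ≤ 1 := measureReal_le_one
      linarith
  have hE : 𝔼 f, F f = 1 - piS c K X lam θ₁ Cn l ω * θ ^ (2 * m) := by
    have := avgW_ofFn l fun w : List (Step c K) =>
      1 - (bern G θ₁).real {σ | GB2_Suc c K X lam θ₁ Cn l ω w σ} * θ ^ (2 * m)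
    rw [avgW_sub, avgW_const, avgW_mul_right] at this
    exact this.symm
  calc _ ≤ 𝔼 ws : Fin W → Fin l → Step c K,
        (∏ i, F (ws i) + ind (¬ Dis c K l W fun i => List.ofFn (ws i))) :=
        Finset.expect_le_expect fun ws _ => hpt ws
    _ = (𝔼 ws : Fin W → Fin l → Step c K, ∏ i, F (ws i)) +
        𝔼 ws : Fin W → Fin l → Step c K, ind (¬ Dis c K l W fun i => List.ofFn (ws i)) :=
        Finset.expect_add_distrib _ _ _
    _ ≤ _ := by
        refine add_le_add (le_of_eq ?_) (not_dis c K l W)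
        rw [← hE, Finset.expect_pow, Fintype.piFinset_univ]

end Pool.Agent.Work.MP_01d39a_al.Ct
end

-- merged part: Pool.Agent.Work.MP_01d39a_al.Ct.Wl
section
/-!
TASK CT Wl. The reflected walk (W of section 3).
`W ω (w ++ [s]) = max (W ω w - J) 0` (`Mx_snoc`), so `𝔼 s, W(w ++ [s])² ≤ W² - 2 W dr + v ≤ (1 + 1/n) W² + n dr² + v`
at the end point `st ω w w.length = mv ω (pw w)`; integrate (`Sys.int_mv`, `avgW_snoc`, `integral_expect`) and iterate:
`(1 + 1/n)^n ≤ e ≤ 3`, giving `≤ 3 n (1 + n x₀) ≤ 6 n`. Integrability: `W` and `Mx - z` are bounded by sums of `|J|` along the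
path (`MemLp.mono_exponent`, `MeasurePreserving` composition). `Mx - z ω = W + ∑ jumps` and
`avgW ∫ (sum of jumps) = n ∫ dr ≤ n √x₀ ≤ √n`.
-/

open MeasureTheory ProbabilityTheory Filter Topology
open scoped BigOperators ENNReal NNReal

namespace Pool.Agent.Work.MP_01d39a_al.Ct

variable {G : Type} [Group G]

variable {σ : Type} [Fintype σ] [Nonempty σ] {h : Ht G σ} {p : Par} {ι : σ → σ} {C x₀ : ℝ}

theorem Wl_cs {Ω : Type} [MeasurableSpace Ω] {P : Measure Ω} [IsProbabilityMeasure P] {f : Ω → ℝ}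
    (hf : MemLp f 2 P) : ∫ ω, |f ω| ∂P ≤ √(∫ ω, f ω ^ 2 ∂P) := by
  have h1 := variance_nonneg (fun ω => |f ω|) P
  rw [variance_eq_sub (X := fun ω => |f ω|) hf.abs] at h1
  simp only [Pi.pow_apply, sq_abs] at h1
  exact Real.le_sqrt_of_sq_le (by linarith)

theorem Wl_exp {n : ℕ} (hn : 0 < n) : (1 + 1 / (n : ℝ)) ^ n ≤ 3 := by
  have h0 : (0 : ℝ) < n := by exact_mod_cast hn
  calc (1 + 1 / (n : ℝ)) ^ n ≤ Real.exp (1 / n) ^ n :=
        pow_le_pow_left₀ (by positivity) (by linarith [Real.add_one_le_exp (1 / (n : ℝ))]) n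
    _ = Real.exp 1 := by rw [← Real.exp_nat_mul, mul_one_div_cancel h0.ne']
    _ ≤ 3 := by linarith [Real.exp_one_lt_d9]

namespace Ht

theorem Wl_end (ω : h.X.Ω) (w : List σ) (s : σ) : h.z (h.st ω (w ++ [s]) (w ++ [s]).length) =
    h.z (h.st ω w w.length) + h.J (h.st ω w w.length) s := by
  simp only [Ht.st, st_length, pw_append, Ht.J, h.X.mv_mul, pw_cons, pw_nil, mul_one]
  ring

theorem Wl_snoc (ω : h.X.Ω) (w : List σ) (s : σ) :
    h.W ω (w ++ [s]) = max (h.W ω w - h.J (h.X.mv ω (pw h.g w)) s) 0 := by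
  unfold Ht.W
  rw [Mx_snoc, Wl_end, ← max_sub_sub_right, sub_self, sub_sub]
  simp only [Ht.st, st_length]

theorem Wl_nil (ω : h.X.Ω) : h.W ω [] = 0 := by
  simp [Ht.W, Mx_nil]

theorem Wl_J {κ : ℝ} (hM : h.Mom C x₀ κ) (s : σ) : MemLp (fun ω => h.J ω s) 2 h.X.P :=
  (hM.l4 s).mono_exponent (by norm_num)

theorem Wl_Jmv {κ : ℝ} (hM : h.Mom C x₀ κ) (x : G) (s : σ) :
    MemLp (fun ω => h.J (h.X.mv ω x) s) 2 h.X.P :=
  (Wl_J hM s).comp_measurePreserving (h.X.mp x)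

theorem Wl_dr {κ : ℝ} (hM : h.Mom C x₀ κ) : MemLp h.dr 2 h.X.P := by
  have : h.dr = fun ω => (∑ s, h.J ω s) * (Fintype.card σ : ℝ)⁻¹ := by
    funext ω
    rw [Ht.dr, Finset.expect_eq_sum_div_card, Finset.card_univ, div_eq_mul_inv]
  rw [this]
  exact (memLp_finsetSum _ fun s _ => Wl_J hM s).mul_const _

theorem Wl_v {κ : ℝ} (hM : h.Mom C x₀ κ) : Integrable h.v h.X.P :=
  integrable_expect fun s => (Wl_J hM s).integrable_sq

theorem memLp_W {κ : ℝ} (hM : h.Mom C x₀ κ) (w : List σ) : MemLp (fun ω => h.W ω w) 2 h.X.P := by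
  induction w using List.reverseRecOn with
  | nil => simp only [Wl_nil]; exact MemLp.zero
  | append_singleton w s ih =>
    simp only [Wl_snoc]
    exact (ih.sub (Wl_Jmv hM _ s)).pos_part

theorem Wl_D {κ : ℝ} (hM : h.Mom C x₀ κ) (w : List σ) :
    Integrable (fun ω => h.z (h.st ω w w.length) - h.z ω) h.X.P := by
  induction w using List.reverseRecOn with
  | nil => simp
  | append_singleton w s ih =>
    simp only [Wl_end, add_sub_right_comm]
    simp only [Ht.st, st_length] at ih ⊢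
    exact ih.add ((Wl_Jmv hM _ s).integrable one_le_two)

theorem integrable_Mx {κ : ℝ} (hM : h.Mom C x₀ κ) (w : List σ) :
    Integrable (fun ω => h.Mx ω w - h.z ω) h.X.P := by
  have := ((memLp_W hM w).integrable one_le_two).add (Wl_D hM w)
  refine this.congr (Eventually.of_forall fun ω => ?_)
  simp [Ht.W]

theorem W_nonneg (ω : h.X.Ω) (w : List σ) : 0 ≤ h.W ω w :=
  sub_nonneg.2 (le_Mx ω w le_rfl)

theorem Wl_step {κ : ℝ} (hM : h.Mom C x₀ κ) {N : ℝ} (hN : 0 < N) (w : List σ) :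
    𝔼 s, ∫ ω, h.W ω (w ++ [s]) ^ 2 ∂h.X.P ≤
      (1 + 1 / N) * ∫ ω, h.W ω w ^ 2 ∂h.X.P + (N * x₀ + 1) := by
  have i1 : Integrable (fun ω => (1 + 1 / N) * h.W ω w ^ 2) h.X.P :=
    (memLp_W hM w).integrable_sq.const_mul _
  have i2 : Integrable (fun ω => N * h.dr (h.X.mv ω (pw h.g w)) ^ 2) h.X.P :=
    ((Wl_dr hM).comp_measurePreserving (h.X.mp _)).integrable_sq.const_mul _
  have i3 : Integrable (fun ω => h.v (h.X.mv ω (pw h.g w))) h.X.P :=
    ((h.X.mp _).integrable_comp (Wl_v hM).aestronglyMeasurable).2 (Wl_v hM)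
  have key : ∀ ω, 𝔼 s, h.W ω (w ++ [s]) ^ 2 ≤ (1 + 1 / N) * h.W ω w ^ 2 +
      (N * h.dr (h.X.mv ω (pw h.g w)) ^ 2 + h.v (h.X.mv ω (pw h.g w))) := fun ω => by
    have h1 : 𝔼 s, h.W ω (w ++ [s]) ^ 2 ≤ 𝔼 s, (h.W ω w ^ 2 + ((-2 * h.W ω w) *
        h.J (h.X.mv ω (pw h.g w)) s + h.J (h.X.mv ω (pw h.g w)) s ^ 2)) := by
      refine Finset.expect_le_expect fun s _ => ?_
      rw [Wl_snoc]
      rcases le_total (h.W ω w - h.J (h.X.mv ω (pw h.g w)) s) 0 with h0 | h0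
      · rw [max_eq_right h0]
        nlinarith [sq_nonneg (h.W ω w - h.J (h.X.mv ω (pw h.g w)) s)]
      · rw [max_eq_left h0]
        exact le_of_eq (by ring)
    rw [Finset.expect_add_distrib, Finset.expect_add_distrib, Fintype.expect_const,
      ← Finset.mul_expect] at h1
    have h2 : -2 * h.W ω w * h.dr (h.X.mv ω (pw h.g w)) ≤
        1 / N * h.W ω w ^ 2 + N * h.dr (h.X.mv ω (pw h.g w)) ^ 2 := by
      have := mul_nonneg (one_div_pos.2 hN).le
        (sq_nonneg (h.W ω w + N * h.dr (h.X.mv ω (pw h.g w))))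
      have e : 1 / N * (h.W ω w + N * h.dr (h.X.mv ω (pw h.g w))) ^ 2 = 1 / N * h.W ω w ^ 2 +
          N * h.dr (h.X.mv ω (pw h.g w)) ^ 2 + 2 * h.W ω w * h.dr (h.X.mv ω (pw h.g w)) := by
        field_simp
        ring
      linarith
    unfold Ht.dr at h2
    unfold Ht.dr Ht.v
    linarith
  rw [← integral_expect fun s => (memLp_W hM (w ++ [s])).integrable_sq]
  refine (integral_mono (integrable_expect fun s => (memLp_W hM (w ++ [s])).integrable_sq)
    (i1.add (i2.add i3)) key).trans ?_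
  simp only [Pi.add_apply]
  have i4 : Integrable (fun ω => N * h.dr (h.X.mv ω (pw h.g w)) ^ 2 +
      h.v (h.X.mv ω (pw h.g w))) h.X.P := i2.add i3
  rw [integral_add i1 i4, integral_add i2 i3, integral_const_mul, integral_const_mul,
    h.X.int_mv _ fun ω => h.dr ω ^ 2, h.X.int_mv _ h.v]
  have := mul_le_mul_of_nonneg_left hM.drift hN.le
  linarith [hM.v1]

theorem Wl_sq {κ : ℝ} (hM : h.Mom C x₀ κ) {N : ℝ} (hN : 0 < N) (hx : N * x₀ ≤ 1) (k : ℕ) :
    avgW k (fun w => ∫ ω, h.W ω w ^ 2 ∂h.X.P) ≤ 2 * k * (1 + 1 / N) ^ k := by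
  induction k with
  | zero => simp [Wl_nil]
  | succ k ih =>
    have h0 : 1 ≤ 1 + 1 / N := le_add_of_nonneg_right (one_div_pos.2 hN).le
    have h1 : 1 ≤ (1 + 1 / N) ^ (k + 1) := one_le_pow₀ h0
    rw [avgW_snoc]
    refine (avgW_mono fun w _ => Wl_step hM hN w).trans ?_
    rw [avgW_add, avgW_mul_left, avgW_const]
    have h2 := mul_le_mul_of_nonneg_left ih (zero_le_one.trans h0)
    rw [pow_succ] at h1 ⊢
    push_cast
    nlinarith

theorem W_le {κ : ℝ} (hM : h.Mom C x₀ κ) {n : ℕ} (hn : n * x₀ ≤ 1) :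
    avgW n (fun w => ∫ ω, h.W ω w ∂h.X.P) ≤ √(6 * n) := by
  rcases Nat.eq_zero_or_pos n with rfl | h0
  · simp [Wl_nil]
  have h1 : (0 : ℝ) < n := by exact_mod_cast h0
  have h2 : avgW n (fun w => ∫ ω, h.W ω w ^ 2 ∂h.X.P) ≤ 6 * n := by
    have := Wl_sq hM h1 hn n
    nlinarith [Wl_exp h0]
  have ht : 0 < √(6 * n : ℝ) := Real.sqrt_pos.2 (by positivity)
  have hs : √(6 * n : ℝ) ^ 2 = 6 * n := Real.sq_sqrt (by positivity)
  generalize √(6 * n : ℝ) = t at ht hs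
  have h3 : ∀ w, ∫ ω, h.W ω w ∂h.X.P ≤ (1 / (2 * t)) * ∫ ω, h.W ω w ^ 2 ∂h.X.P + t / 2 := by
    intro w
    have i1 := (memLp_W hM w).integrable_sq.const_mul (1 / (2 * t))
    refine (integral_mono ((memLp_W hM w).integrable one_le_two)
      (i1.add (integrable_const (t / 2))) fun ω => ?_).trans (le_of_eq ?_)
    · have := mul_nonneg (one_div_pos.2 (mul_pos two_pos ht)).le (sq_nonneg (h.W ω w - t))
      have e : 1 / (2 * t) * (h.W ω w - t) ^ 2 = 1 / (2 * t) * h.W ω w ^ 2 + t / 2 - h.W ω w := by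
        field_simp
        ring
      simp only [Pi.add_apply]
      linarith
    · simp only [Pi.add_apply]
      rw [integral_add i1 (integrable_const _), integral_const_mul]
      simp
  refine (avgW_mono fun w _ => h3 w).trans ?_
  rw [avgW_add, avgW_mul_left, avgW_const]
  have h4 := mul_le_mul_of_nonneg_left h2 (one_div_pos.2 (mul_pos two_pos ht)).le
  have e : 1 / (2 * t) * (6 * n) = t / 2 := by
    rw [← hs]
    field_simp
  linarith

theorem int_abs_dr {κ : ℝ} (hM : h.Mom C x₀ κ) :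
    Integrable h.dr h.X.P ∧ ∫ ω, |h.dr ω| ∂h.X.P ≤ √x₀ :=
  ⟨(Wl_dr hM).integrable one_le_two, (Wl_cs (Wl_dr hM)).trans (Real.sqrt_le_sqrt hM.drift)⟩

theorem Wl_drift {κ : ℝ} (hM : h.Mom C x₀ κ) (n : ℕ) :
    avgW n (fun w => ∫ ω, (h.z (h.st ω w w.length) - h.z ω) ∂h.X.P) =
      n * ∫ ω, h.dr ω ∂h.X.P := by
  induction n with
  | zero => simp
  | succ n ih =>
    have key : ∀ w : List σ,
        𝔼 s, ∫ ω, (h.z (h.st ω (w ++ [s]) (w ++ [s]).length) - h.z ω) ∂h.X.P =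
          ∫ ω, (h.z (h.st ω w w.length) - h.z ω) ∂h.X.P + ∫ ω, h.dr ω ∂h.X.P := fun w => by
      have e : ∀ s, ∫ ω, (h.z (h.st ω (w ++ [s]) (w ++ [s]).length) - h.z ω) ∂h.X.P =
          ∫ ω, (h.z (h.st ω w w.length) - h.z ω) ∂h.X.P + ∫ ω, h.J ω s ∂h.X.P := fun s => by
        rw [← h.X.int_mv (pw h.g w) fun ω => h.J ω s,
          ← integral_add (Wl_D hM w) ((Wl_Jmv hM _ s).integrable one_le_two)]
        simp only [Wl_end, add_sub_right_comm]
        simp only [Ht.st, st_length]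
      simp only [e]
      rw [Finset.expect_add_distrib, Fintype.expect_const,
        ← integral_expect fun s => (Wl_J hM s).integrable one_le_two]
      rfl
    rw [avgW_snoc, avgW_congr fun w _ => key w, avgW_add, ih, avgW_const]
    push_cast
    ring

theorem Mx_le {κ : ℝ} (hM : h.Mom C x₀ κ) {n : ℕ} (hn : n * x₀ ≤ 1) :
    avgW n (fun w => ∫ ω, (h.Mx ω w - h.z ω) ∂h.X.P) ≤ 4 * √n := by
  have e : ∀ w : List σ, ∫ ω, (h.Mx ω w - h.z ω) ∂h.X.P =
      ∫ ω, h.W ω w ∂h.X.P + ∫ ω, (h.z (h.st ω w w.length) - h.z ω) ∂h.X.P := fun w => by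
    rw [← integral_add ((memLp_W hM w).integrable one_le_two) (Wl_D hM w)]
    simp [Ht.W]
  simp only [e]
  rw [avgW_add, Wl_drift hM]
  have h0 : (0 : ℝ) ≤ n := Nat.cast_nonneg n
  have h1 := W_le hM hn
  have h2 : √(6 * n : ℝ) ≤ 3 * √n := by
    rw [Real.sqrt_le_left (by positivity), mul_pow, Real.sq_sqrt h0]
    linarith
  have h3 : ∫ ω, h.dr ω ∂h.X.P ≤ √x₀ :=
    (integral_mono (int_abs_dr hM).1 (int_abs_dr hM).1.abs fun ω => le_abs_self _).trans
      (int_abs_dr hM).2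
  have h4 : n * √x₀ ≤ √n := by
    have h5 : √n * √x₀ ≤ 1 := by
      rw [← Real.sqrt_mul h0]
      exact Real.sqrt_le_one.2 hn
    calc n * √x₀ = √n * (√n * √x₀) := by rw [← mul_assoc, Real.mul_self_sqrt h0]
      _ ≤ √n := mul_le_of_le_one_right (Real.sqrt_nonneg _) h5
  have h6 := mul_le_mul_of_nonneg_left h3 h0
  linarith

end Ht

end Pool.Agent.Work.MP_01d39a_al.Ct
end

-- merged part: Pool.Agent.Work.MP_01d39a_al.Ct.B1
section
/-!
TASK CT B1. Stationary estimates (G1, G2, G6 and the probability of bad sites).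
Markov inequality: `mul_meas_ge_le_integral_of_nonneg`. Let `T t ω = 𝔼 (if t < |J| then J² else 0)`.
`|𝔼 Jb| ≤ |dr| + T J0` (as `J0 ≥ 1`), `vb = v - T J0`, `vk = v - T κ`, `tl ≤ T κ`; `𝔼 s, P(J0 < |J s|) ≤ ∫ T J0`.
b1: union over sites (`ann_exists_le`, `ann_site`); for the jump number `i < l` split the word (`avgW_append`,
`jump_eq`, `Sys.pre_real`). b2: if the sum of `n` terms is `< η₀ n/2` then at least `n/2` terms are `< η₀`; Markov for
the number of such sites. b6: `Mom.shift`.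
-/

open MeasureTheory ProbabilityTheory Filter Topology
open scoped BigOperators ENNReal NNReal

namespace Pool.Agent.Work.MP_01d39a_al.Ct

variable {G : Type} [Group G]

variable {σ : Type} [Fintype σ] [Nonempty σ] {h : Ht G σ} {p : Par} {ι : σ → σ} {C x₀ : ℝ}

namespace Ht

/-- Second moment carried by jumps larger than `t`. -/
noncomputable def B1_T (h : Ht G σ) (t : ℝ) (ω : h.X.Ω) : ℝ :=
  𝔼 s, if t < |h.J ω s| then h.J ω s ^ 2 else 0

theorem B1_nonneg (t : ℝ) (ω : h.X.Ω) : 0 ≤ h.B1_T t ω :=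
  Finset.expect_nonneg fun s _ => by split_ifs <;> positivity

theorem B1_int1 {κ : ℝ} (hM : h.Mom C x₀ κ) (t : ℝ) (s : σ) :
    Integrable (fun ω => if t < |h.J ω s| then h.J ω s ^ 2 else 0) h.X.P := by
  have h2 : MemLp (fun ω => h.J ω s) 2 h.X.P := (hM.l4 s).mono_exponent (by norm_num)
  have hJ := meas_J hM.meas s
  refine h2.integrable_sq.mono' ?_ (Eventually.of_forall fun ω => ?_)
  · exact (Measurable.ite (measurableSet_lt measurable_const hJ.abs) (hJ.pow_const 2)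
      measurable_const).aestronglyMeasurable
  · split_ifs
    · rw [Real.norm_eq_abs, abs_of_nonneg (sq_nonneg _)]
    · rw [norm_zero]; exact sq_nonneg _

theorem B1_int {κ : ℝ} (hM : h.Mom C x₀ κ) (t : ℝ) : Integrable (h.B1_T t) h.X.P :=
  integrable_expect fun s => B1_int1 hM t s

theorem B1_tail {κ : ℝ} (hM : h.Mom C x₀ κ) {t : ℝ} (ht : 1 ≤ t) :
    ∫ ω, h.B1_T t ω ∂h.X.P ≤ C * Real.exp (-t) := hM.tail t ht

theorem B1_markov {Ω : Type} [MeasurableSpace Ω] {P : Measure Ω} {f : Ω → ℝ}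
    (hf : Integrable f P) (h0 : ∀ ω, 0 ≤ f ω) {ε b : ℝ} (hε : 0 < ε) (hb : ∫ ω, f ω ∂P ≤ b) :
    P.real {ω | ε ≤ f ω} ≤ b / ε := by
  rw [le_div_iff₀ hε, mul_comm]
  exact (mul_meas_ge_le_integral_of_nonneg (Eventually.of_forall h0) hf ε).trans hb

theorem B1_abs_le_sq {t x : ℝ} (ht : 1 ≤ t) (hx : t < |x|) : |x| ≤ x ^ 2 := by
  rw [← sq_abs]
  nlinarith

theorem B1_J0 (hp : p.Ok) : 1 ≤ p.J0 := by linarith [hp.hκ, hp.hJ]

theorem B1_drift (hp : p.Ok) (ω : h.X.Ω) : |𝔼 s, h.Jb p ω s| ≤ |h.dr ω| + h.B1_T p.J0 ω := by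
  have e1 : ∀ s, h.Jb p ω s ≤ h.J ω s + if p.J0 < |h.J ω s| then h.J ω s ^ 2 else 0 := by
    intro s
    unfold Jb
    by_cases hs : |h.J ω s| ≤ p.J0
    · rw [if_pos hs, if_neg (not_lt.2 hs), add_zero]
    · rw [if_neg hs, if_pos (not_le.1 hs)]
      have := B1_abs_le_sq (B1_J0 hp) (not_le.1 hs)
      linarith [neg_abs_le (h.J ω s)]
  have e2 : ∀ s, h.J ω s ≤ h.Jb p ω s + if p.J0 < |h.J ω s| then h.J ω s ^ 2 else 0 := by
    intro s
    unfold Jb
    by_cases hs : |h.J ω s| ≤ p.J0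
    · rw [if_pos hs, if_neg (not_lt.2 hs), add_zero]
    · rw [if_neg hs, if_pos (not_le.1 hs)]
      have := B1_abs_le_sq (B1_J0 hp) (not_le.1 hs)
      linarith [le_abs_self (h.J ω s)]
  have f1 : 𝔼 s, h.Jb p ω s ≤ h.dr ω + h.B1_T p.J0 ω := by
    unfold dr B1_T
    rw [← Finset.expect_add_distrib]
    exact Finset.expect_le_expect fun s _ => e1 s
  have f2 : h.dr ω ≤ 𝔼 s, h.Jb p ω s + h.B1_T p.J0 ω := by
    unfold dr B1_T
    rw [← Finset.expect_add_distrib]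
    exact Finset.expect_le_expect fun s _ => e2 s
  rw [abs_le]
  constructor
  · linarith [neg_abs_le (h.dr ω)]
  · linarith [le_abs_self (h.dr ω)]

theorem B1_vb (ω : h.X.Ω) : h.v ω = h.vb p ω + h.B1_T p.J0 ω := by
  unfold v vb B1_T
  rw [← Finset.expect_add_distrib]
  refine Finset.expect_congr rfl fun s _ => ?_
  unfold Jb
  by_cases hs : |h.J ω s| ≤ p.J0
  · rw [if_pos hs, if_neg (not_lt.2 hs), add_zero]
  · rw [if_neg hs, if_pos (not_le.1 hs)]; ring

theorem B1_vk (ω : h.X.Ω) : h.v ω = h.vk p ω + h.B1_T p.κ ω := by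
  unfold v vk B1_T
  rw [← Finset.expect_add_distrib]
  refine Finset.expect_congr rfl fun s _ => ?_
  by_cases hs : |h.J ω s| ≤ p.κ
  · rw [if_pos hs, if_neg (not_lt.2 hs), add_zero]
  · rw [if_neg hs, if_pos (not_le.1 hs)]; ring

theorem B1_tl (hp : p.Ok) (ω : h.X.Ω) : h.tl p ω ≤ h.B1_T p.κ ω := by
  unfold tl B1_T
  refine Finset.expect_le_expect fun s _ => ?_
  have hκ : 1 ≤ p.κ := by linarith [hp.hκ]
  unfold Jb
  by_cases hs : |h.J ω s| ≤ p.J0
  · rw [if_pos hs]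
    split_ifs with h1
    · exact B1_abs_le_sq hκ h1
    · exact le_rfl
  · rw [if_neg hs, if_neg (by rw [abs_zero]; linarith)]
    split_ifs <;> positivity

theorem p_notok (hp : p.Ok) {κ : ℝ} (hM : h.Mom C x₀ κ) :
    h.X.P.real {ω | ¬ h.okS p ω} ≤ (√x₀ + C * Real.exp (-p.J0)) / p.e0 := by
  obtain ⟨hi, hb⟩ := int_abs_dr hM
  refine le_trans (measureReal_mono fun ω hω => ?_)
    (B1_markov (f := fun ω => |h.dr ω| + h.B1_T p.J0 ω) (hi.abs.add (B1_int hM _))
      (fun ω => add_nonneg (abs_nonneg _) (B1_nonneg _ _)) hp.he ?_)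
  · exact (not_le.1 hω).le.trans (B1_drift hp ω)
  · rw [integral_add hi.abs (B1_int hM _)]
    exact add_le_add hb (B1_tail hM (B1_J0 hp))

theorem p_vb (hp : p.Ok) {κ : ℝ} (hM : h.Mom C x₀ κ) {η₀ : ℝ} (h0 : 0 < η₀) :
    h.X.P.real {ω | h.vb p ω < η₀} ≤ 4 * √(2 * η₀) + C * Real.exp (-p.J0) / η₀ := by
  have hs : {ω | h.vb p ω < η₀} ⊆ {ω | h.v ω < 2 * η₀} ∪ {ω | η₀ ≤ h.B1_T p.J0 ω} := by
    intro ω hω
    by_cases h1 : h.v ω < 2 * η₀
    · exact Or.inl h1
    · refine Or.inr ?_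
      have h2 := B1_vb (p := p) ω
      have h3 : h.vb p ω < η₀ := hω
      change η₀ ≤ h.B1_T p.J0 ω
      linarith [not_lt.1 h1]
  refine (measureReal_mono hs).trans ((measureReal_union_le _ _).trans (add_le_add ?_ ?_))
  · exact hM.small _ (by positivity)
  · exact B1_markov (B1_int hM _) (B1_nonneg _) h0 (B1_tail hM (B1_J0 hp))

theorem p_notsafe (hp : p.Ok) {κ : ℝ} (hM : h.Mom C x₀ κ) : h.X.P.real {ω | ¬ h.safe p ω} ≤
    4 * √(2 * p.η1) + (1 + 16 * p.J0 ^ 2) * (C * Real.exp (-p.κ)) / p.η1 := by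
  have hκ : 1 ≤ p.κ := by linarith [hp.hκ]
  have hη := hp.hη
  have hc : (0 : ℝ) ≤ 16 * p.J0 ^ 2 := by positivity
  have hs : {ω | ¬ h.safe p ω} ⊆ {ω | h.v ω < 2 * p.η1} ∪
      {ω | p.η1 ≤ (1 + 16 * p.J0 ^ 2) * h.B1_T p.κ ω} := by
    intro ω hω
    by_cases h1 : h.v ω < 2 * p.η1
    · exact Or.inl h1
    · refine Or.inr ?_
      have h2 := B1_vk (p := p) ω
      have h3 : ¬ h.safe p ω := hω
      have h4 := mul_le_mul_of_nonneg_left (B1_tl hp ω) hc
      have h5 := B1_nonneg (h := h) p.κ ω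
      have h6 := mul_nonneg hc h5
      change p.η1 ≤ (1 + 16 * p.J0 ^ 2) * h.B1_T p.κ ω
      rw [add_mul, one_mul]
      unfold safe at h3
      rcases not_and_or.1 h3 with h7 | h7
      · linarith [not_lt.1 h1, not_le.1 h7]
      · linarith [not_le.1 h7]
  refine (measureReal_mono hs).trans ((measureReal_union_le _ _).trans (add_le_add ?_ ?_))
  · exact hM.small _ (by positivity)
  · refine B1_markov ((B1_int hM _).const_mul _)
      (fun ω => mul_nonneg (by positivity) (B1_nonneg _ _)) hη ?_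
    rw [integral_const_mul]
    exact mul_le_mul_of_nonneg_left (B1_tail hM hκ) (by positivity)

theorem B1_jump1 (hp : p.Ok) {κ : ℝ} (hM : h.Mom C x₀ κ) :
    𝔼 s, h.X.P.real {ω | p.J0 < |h.J ω s|} ≤ C * Real.exp (-p.J0) := by
  refine le_trans ?_ (B1_tail hM (B1_J0 hp))
  unfold B1_T
  rw [integral_expect fun s => B1_int1 hM _ s]
  refine Finset.expect_le_expect fun s _ => ?_
  have hm : MeasurableSet {ω | p.J0 < |h.J ω s|} :=
    measurableSet_lt measurable_const (meas_J hM.meas s).abs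
  rw [← integral_ind _ hm]
  refine integral_mono (integrable_ind _ hm) (B1_int1 hM _ s) fun ω => ?_
  by_cases hs : p.J0 < |h.J ω s|
  · simp only [ind_pos hs, if_pos hs]
    have := B1_abs_le_sq (B1_J0 hp) hs
    linarith [B1_J0 hp]
  · simp only [ind_neg hs, if_neg hs, le_refl]

theorem B1_jump (hp : p.Ok) {κ : ℝ} (hM : h.Mom C x₀ κ) {l i : ℕ} (hi : i < l) :
    h.X.ann l (fun ω w => p.J0 < |h.z (h.st ω w (i + 1)) - h.z (h.st ω w i)|) ≤
      C * Real.exp (-p.J0) := by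
  unfold Sys.ann
  have e1 : avgW l (fun w => h.X.P.real {ω | p.J0 < |h.z (h.st ω w (i + 1)) - h.z (h.st ω w i)|}) =
      avgW (i + 1) fun w =>
        h.X.P.real {ω | p.J0 < |h.z (h.st ω w (i + 1)) - h.z (h.st ω w i)|} := by
    rw [← avgW_take (show i + 1 ≤ l from hi)]
    refine avgW_congr fun w _ => ?_
    simp only [Ht.st, st_take h.X _ w le_rfl, st_take h.X _ w (Nat.le_succ i)]
  rw [e1, avgW_snoc]
  refine avgW_le fun u hu => le_trans (le_of_eq ?_) (B1_jump1 hp hM)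
  refine Finset.expect_congr rfl fun s _ => ?_
  rw [← h.X.pre_real (pw h.g u) fun ω => p.J0 < |h.J ω s|]
  congr 1
  ext ω
  have hl : i < (u ++ [s]).length := by simp [hu]
  have e2 : (u ++ [s])[i] = s := by simp [← hu]
  have e3 : h.st ω (u ++ [s]) i = h.X.mv ω (pw h.g u) := by
    unfold Ht.st
    rw [st_append_left h.X ω u [s] hu.ge, ← hu, st_length]
  simp only [Set.mem_ofPred_eq]
  rw [jump_eq ω _ hl, e2, e3]

theorem b1 (hp : p.Ok) {κ : ℝ} (hM : h.Mom C x₀ κ) : h.X.ann p.l (fun ω w => ¬ h.G1 p ω w) ≤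
    (p.l + 1) * ((√x₀ + C * Real.exp (-p.J0)) / p.e0) + p.l * (C * Real.exp (-p.J0)) := by
  refine le_trans (ann_mono h.X (E' := fun ω w =>
    (∃ i ∈ Finset.range (p.l + 1), ¬ h.okS p (h.st ω w i)) ∨
      ∃ i ∈ Finset.range p.l, p.J0 < |h.z (h.st ω w (i + 1)) - h.z (h.st ω w i)|)
    fun ω w hw hG => ?_) ((ann_or_le h.X _ _ _).trans (add_le_add ?_ ?_))
  · unfold G1 at hG
    rcases not_and_or.1 hG with h1 | h1
    · push Not at h1
      obtain ⟨i, hi, h2⟩ := h1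
      exact Or.inl ⟨i, Finset.mem_range.2 (by omega), h2⟩
    · push Not at h1
      obtain ⟨i, hi, h2⟩ := h1
      exact Or.inr ⟨i, Finset.mem_range.2 (by omega), h2⟩
  · refine (ann_exists_le h.X _ _ fun i ω w => ¬ h.okS p (h.st ω w i)).trans ?_
    refine (Finset.sum_le_card_nsmul _ _ ((√x₀ + C * Real.exp (-p.J0)) / p.e0)
      fun i _ => ?_).trans (le_of_eq (by simp))
    rw [ann_site h.X p.l i fun ω => ¬ h.okS p ω]
    exact p_notok hp hM
  · refine (ann_exists_le h.X _ _ fun i ω w =>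
      p.J0 < |h.z (h.st ω w (i + 1)) - h.z (h.st ω w i)|).trans ?_
    refine (Finset.sum_le_card_nsmul _ _ (C * Real.exp (-p.J0))
      fun i hi => ?_).trans (le_of_eq (by simp))
    exact B1_jump hp hM (Finset.mem_range.1 hi)

theorem b2 (hp : p.Ok) {κ : ℝ} (hM : h.Mom C x₀ κ) {η₀ : ℝ} (h0 : 0 < η₀) (i : ℕ) {n : ℕ}
    (hn : 1 ≤ n) : h.X.ann p.l (fun ω w => h.QV p ω w i (i + n) < η₀ * n / 2) ≤
      2 * (4 * √(2 * η₀) + C * Real.exp (-p.J0) / η₀) := by
  unfold Sys.ann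
  refine avgW_le fun w _ => ?_
  have hn' : (0 : ℝ) < n := by exact_mod_cast hn
  have hm : ∀ t, MeasurableSet {ω | h.vb p (h.st ω w t) < η₀} := fun t =>
    measurableSet_lt ((meas_vb hM.meas).comp (measurable_st h.X w t)) measurable_const
  have key := B1_markov (P := h.X.P)
    (f := fun ω => ∑ t ∈ Finset.Ico i (i + n), ind (h.vb p (h.st ω w t) < η₀))
    (integrable_finsetSum _ fun t _ => integrable_ind _ (hm t))
    (fun ω => Finset.sum_nonneg fun t _ => ind_nonneg _) (ε := n / 2)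
    (b := n * (4 * √(2 * η₀) + C * Real.exp (-p.J0) / η₀)) (by positivity) (by
      rw [integral_finsetSum _ fun t _ => integrable_ind _ (hm t)]
      refine (Finset.sum_le_card_nsmul _ _ (4 * √(2 * η₀) + C * Real.exp (-p.J0) / η₀)
        fun t _ => ?_).trans (le_of_eq (by
          rw [Nat.card_Ico, Nat.add_sub_cancel_left, nsmul_eq_mul]))
      rw [integral_ind _ (hm t)]
      exact (le_of_eq (h.X.pre_real _ fun ω => h.vb p ω < η₀)).trans (p_vb hp hM h0))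
  refine le_trans (measureReal_mono fun ω hω => ?_) (key.trans (le_of_eq ?_))
  · have h1 : h.QV p ω w i (i + n) < η₀ * n / 2 := hω
    have h2 : ∑ t ∈ Finset.Ico i (i + n), (η₀ - η₀ * ind (h.vb p (h.st ω w t) < η₀)) ≤
        h.QV p ω w i (i + n) := by
      refine Finset.sum_le_sum fun t _ => ?_
      by_cases ht : h.vb p (h.st ω w t) < η₀
      · rw [ind_pos ht]; linarith [vb_nonneg (p := p) (h.st ω w t)]
      · rw [ind_neg ht]; linarith [not_lt.1 ht]
    rw [Finset.sum_sub_distrib, ← Finset.mul_sum] at h2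
    simp only [Finset.sum_const, Nat.card_Ico, Nat.add_sub_cancel_left, nsmul_eq_mul] at h2
    change (n : ℝ) / 2 ≤ ∑ t ∈ Finset.Ico i (i + n), ind (h.vb p (h.st ω w t) < η₀)
    refine le_of_mul_le_mul_left ?_ h0
    linarith
  · field_simp

theorem b6 (hp : p.Ok) (hM : h.Mom C x₀ p.κ) :
    h.X.ann p.l (fun ω w => h.Mx ω w < p.Hs (h.Mx ω w) - p.κ + p.ε * p.κ) ≤ p.ε := by
  unfold Sys.ann
  refine avgW_le fun w _ => le_trans (measureReal_mono fun ω hω => ?_) (hM.shift w p.ε hp.hε)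
  have hκ : 0 < p.κ := by linarith [hp.hκ]
  have h1 : h.Mx ω w < p.Hs (h.Mx ω w) - p.κ + p.ε * p.κ := hω
  change Int.fract (h.Mx ω w / p.κ) < p.ε
  unfold Par.Hs at h1
  rw [Int.fract, sub_lt_iff_lt_add, div_lt_iff₀ hκ]
  linarith

end Ht

end Pool.Agent.Work.MP_01d39a_al.Ct
end

-- merged part: Pool.Agent.Work.MP_01d39a_al.Ct.SL
section
/-!
TASK CT SL. The quenched survival lemma (SL of section 3).
Prove one general statement with an overshoot scale `ρ ≥ 0` and a predicate `Sf` such that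
`Sf ω → 16 J0² 𝔼 (if ρ < |Jb| then |Jb| else 0) ≤ vb ω` (sharp: `ρ = κ`, `Sf = safe`, `vk_le_vb`; crude: `ρ = J0`,
`Sf = True`). With `R = √a`, `β = 1/(16 J0²)`, `u = H - z`, `f u = max (u + ρ) 0 + β (16 J0² - (max (3 J0 - u) 0)²)`,
`Ψ u q = f u / R + (4 R f u + J0² - u² + q)/a`. Claim, by induction on `n`, for all `ω` with `-J0 ≤ u ≤ R + J0` and `q ≥ 0`:
`avgW n (ind (alive ∧ a ≤ q + QV 0 n)) ≤ Ψ u q + n * (12 e0 / R)`. `Ψ ≥ 0` on that range, `Ψ ≥ 1` if `u ≥ R` or `q ≥ a`.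
Step at an alive site with `0 ≤ u < R`: the child of `s` is bounded by `Ψ (u - Jb s) (q + vb)` (if `|J s| > J0` the event
is empty and `Jb s = 0`). `𝔼 f (u - Jb) ≤ f u + 2 e0`: for `u ≥ J0` the first part is linear and the second concave with slope
in `[0,1]`; for `u < J0` the overshoot is at most `β vb` and the second part is an exact quadratic.
`𝔼 (u - Jb)² ≥ u² - 2 R e0 + vb`. Finally `f u ≤ u + ρ + 1`, `J0² ≤ R`, `n e0 ≤ 1`; if `u > R + J0` the bound exceeds 1.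
-/

open MeasureTheory ProbabilityTheory Filter Topology
open scoped BigOperators ENNReal NNReal

namespace Pool.Agent.Work.MP_01d39a_al.Ct

variable {G : Type} [Group G]

/-- The one-dimensional potential. -/
noncomputable def SL_f (J ρ u : ℝ) : ℝ :=
  max (u + ρ) 0 + (16 * J ^ 2)⁻¹ * (16 * J ^ 2 - (max (3 * J - u) 0) ^ 2)

/-- The full potential. -/
noncomputable def SL_P (J ρ R u q : ℝ) : ℝ := 5 * SL_f J ρ u / R + (J ^ 2 - u ^ 2 + q) / R ^ 2

theorem SL_f_ge {J ρ u : ℝ} (hJ : 1 ≤ J) (hu : -J ≤ u) : max (u + ρ) 0 ≤ SL_f J ρ u := by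
  unfold SL_f
  have h1 : max (3 * J - u) 0 ≤ 4 * J := max_le (by linarith) (by linarith)
  have h2 : 0 ≤ max (3 * J - u) 0 := le_max_right _ _
  have h3 : (max (3 * J - u) 0) ^ 2 ≤ 16 * J ^ 2 := by nlinarith
  have h4 : 0 ≤ (16 * J ^ 2)⁻¹ * (16 * J ^ 2 - (max (3 * J - u) 0) ^ 2) :=
    mul_nonneg (by positivity) (by linarith)
  linarith

theorem SL_f_le {J ρ u : ℝ} (hJ : 1 ≤ J) (hρ : 0 ≤ ρ) (hu : 0 ≤ u) : SL_f J ρ u ≤ u + ρ + 1 := by
  unfold SL_f
  rw [max_eq_left (by linarith : 0 ≤ u + ρ)]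
  have h1 : (16 * J ^ 2)⁻¹ * (16 * J ^ 2 - (max (3 * J - u) 0) ^ 2) ≤ 1 := by
    rw [inv_mul_le_iff₀ (by positivity)]
    nlinarith [sq_nonneg (max (3 * J - u) 0)]
  linarith

theorem SL_P_ge {J ρ R u q : ℝ} (hJ : 1 ≤ J) (hρ : 0 ≤ ρ) (hR : J ^ 2 ≤ R) (hu : -J ≤ u)
    (hu' : u ≤ R + J) : max u 0 / R + q / R ^ 2 ≤ SL_P J ρ R u q := by
  have hJR : J ≤ R := by nlinarith
  have hR0 : 0 < R := by linarith
  have h1 : max u 0 ≤ SL_f J ρ u :=
    (max_le_max (by linarith) le_rfl).trans (SL_f_ge hJ hu)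
  have h2 : u ^ 2 ≤ 4 * R * max u 0 + J ^ 2 := by
    rcases le_total u 0 with h | h
    · rw [max_eq_right h]; nlinarith
    · rw [max_eq_left h]; nlinarith
  have h3 : SL_P J ρ R u q - (max u 0 / R + q / R ^ 2) =
      (5 * R * (SL_f J ρ u - max u 0) + (4 * R * max u 0 + J ^ 2 - u ^ 2)) / R ^ 2 := by
    unfold SL_P
    field_simp
    ring
  have h4 : 0 ≤ (5 * R * (SL_f J ρ u - max u 0) + (4 * R * max u 0 + J ^ 2 - u ^ 2)) / R ^ 2 :=
    div_nonneg (add_nonneg (mul_nonneg (by linarith) (by linarith)) (by linarith)) (by positivity)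
  linarith

theorem SL_P_nonneg {J ρ R u q : ℝ} (hJ : 1 ≤ J) (hρ : 0 ≤ ρ) (hR : J ^ 2 ≤ R) (hu : -J ≤ u)
    (hu' : u ≤ R + J) (hq : 0 ≤ q) : 0 ≤ SL_P J ρ R u q := by
  have hR0 : 0 < R := by nlinarith
  refine le_trans ?_ (SL_P_ge hJ hρ hR hu hu')
  have := le_max_right u 0
  positivity

theorem SL_P_one_q {J ρ R u q : ℝ} (hJ : 1 ≤ J) (hρ : 0 ≤ ρ) (hR : J ^ 2 ≤ R) (hu : -J ≤ u)
    (hu' : u ≤ R + J) (hq : R ^ 2 ≤ q) : 1 ≤ SL_P J ρ R u q := by
  have hR0 : 0 < R := by nlinarith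
  refine le_trans ?_ (SL_P_ge hJ hρ hR hu hu')
  have h1 : 0 ≤ max u 0 / R := div_nonneg (le_max_right u 0) hR0.le
  have h2 : 1 ≤ q / R ^ 2 := by rwa [le_div_iff₀ (by positivity), one_mul]
  linarith

theorem SL_P_one_u {J ρ R u q : ℝ} (hJ : 1 ≤ J) (hρ : 0 ≤ ρ) (hR : J ^ 2 ≤ R) (hu : R ≤ u)
    (hu' : u ≤ R + J) (hq : 0 ≤ q) : 1 ≤ SL_P J ρ R u q := by
  have hR0 : 0 < R := by nlinarith
  refine le_trans ?_ (SL_P_ge hJ hρ hR (by linarith) hu')
  have h1 : 1 ≤ max u 0 / R := by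
    rw [le_div_iff₀ hR0, one_mul]; exact hu.trans (le_max_left _ _)
  have h2 : 0 ≤ q / R ^ 2 := by positivity
  linarith

theorem SL_sq_max (t j : ℝ) : (max t 0) ^ 2 + 2 * max t 0 * j ≤ (max (t + j) 0) ^ 2 := by
  rcases le_total t 0 with h | h
  · rw [max_eq_right h]; nlinarith [sq_nonneg (max (t + j) 0)]
  · rw [max_eq_left h]
    rcases le_total (t + j) 0 with h' | h'
    · rw [max_eq_right h']; nlinarith
    · rw [max_eq_left h']; nlinarith [sq_nonneg j]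

/-- Pointwise step far from the level. -/
theorem SL_f_far {J ρ u j : ℝ} (hJ : 1 ≤ J) (hρ : 0 ≤ ρ) (hu : J ≤ u) (hj : |j| ≤ J) :
    SL_f J ρ (u - j) ≤ SL_f J ρ u - (1 + (16 * J ^ 2)⁻¹ * (2 * max (3 * J - u) 0)) * j := by
  unfold SL_f
  have hj' := abs_le.1 hj
  rw [max_eq_left (by linarith : 0 ≤ u - j + ρ), max_eq_left (by linarith : 0 ≤ u + ρ)]
  have h1 := SL_sq_max (3 * J - u) j
  rw [show 3 * J - u + j = 3 * J - (u - j) by ring] at h1
  have h2 : 0 ≤ (16 * J ^ 2)⁻¹ := by positivity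
  nlinarith [mul_le_mul_of_nonneg_left h1 h2]

/-- Pointwise step near the level. -/
theorem SL_f_near {J ρ u j : ℝ} (hJ : 1 ≤ J) (hρ : 0 ≤ ρ) (hu0 : 0 ≤ u) (hu : u ≤ J)
    (hj : |j| ≤ J) :
    SL_f J ρ (u - j) ≤ SL_f J ρ u - (1 + (16 * J ^ 2)⁻¹ * (2 * max (3 * J - u) 0)) * j +
      ((if ρ < |j| then |j| else 0) - (16 * J ^ 2)⁻¹ * j ^ 2) := by
  unfold SL_f
  have hj' := abs_le.1 hj
  rw [max_eq_left (by linarith : 0 ≤ u + ρ), max_eq_left (by linarith : 0 ≤ 3 * J - u),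
    max_eq_left (by linarith : 0 ≤ 3 * J - (u - j))]
  have h1 : max (u - j + ρ) 0 ≤ u + ρ - j + (if ρ < |j| then |j| else 0) := by
    have := le_abs_self j
    have := abs_nonneg j
    split_ifs with h
    · exact max_le (by linarith) (by linarith)
    · exact max_le (by linarith) (by linarith [not_lt.1 h])
  nlinarith

theorem SL_slope {J u : ℝ} (hJ : 1 ≤ J) (hu0 : 0 ≤ u) :
    0 ≤ 1 + (16 * J ^ 2)⁻¹ * (2 * max (3 * J - u) 0) ∧
      1 + (16 * J ^ 2)⁻¹ * (2 * max (3 * J - u) 0) ≤ 2 := by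
  have h1 : max (3 * J - u) 0 ≤ 3 * J := max_le (by linarith) (by linarith)
  have h2 : 0 ≤ max (3 * J - u) 0 := le_max_right _ _
  refine ⟨by positivity, ?_⟩
  have : (16 * J ^ 2)⁻¹ * (2 * max (3 * J - u) 0) ≤ 1 := by
    rw [inv_mul_le_iff₀ (by positivity)]
    nlinarith
  linarith

section step

variable {σ : Type} [Fintype σ] [Nonempty σ]

theorem SL_f_step {J ρ u e : ℝ} (hJ : 1 ≤ J) (hρ : 0 ≤ ρ) (hu0 : 0 ≤ u) {j : σ → ℝ}
    (hj : ∀ s, |j s| ≤ J) (he : |𝔼 s, j s| ≤ e)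
    (ht : u < J → 16 * J ^ 2 * (𝔼 s, if ρ < |j s| then |j s| else 0) ≤ 𝔼 s, j s ^ 2) :
    𝔼 s, SL_f J ρ (u - j s) ≤ SL_f J ρ u + 2 * e := by
  obtain ⟨h0, h2⟩ := SL_slope hJ hu0
  set b := 1 + (16 * J ^ 2)⁻¹ * (2 * max (3 * J - u) 0) with hb
  have he' := abs_le.1 he
  have he0 : 0 ≤ e := (abs_nonneg _).trans he
  have hlin : 𝔼 s, (SL_f J ρ u - b * j s) ≤ SL_f J ρ u + 2 * e := by
    rw [Finset.expect_sub_distrib, Fintype.expect_const, ← Finset.mul_expect]
    nlinarith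
  rcases lt_or_ge u J with h | h
  · refine (Finset.expect_le_expect fun s _ => SL_f_near hJ hρ hu0 h.le (hj s)).trans ?_
    rw [Finset.expect_add_distrib]
    have h3 : 𝔼 s, ((if ρ < |j s| then |j s| else 0) - (16 * J ^ 2)⁻¹ * j s ^ 2) ≤ 0 := by
      rw [Finset.expect_sub_distrib, ← Finset.mul_expect, sub_nonpos,
        le_inv_mul_iff₀ (by positivity)]
      exact ht h
    linarith
  · exact (Finset.expect_le_expect fun s _ => SL_f_far hJ hρ h (hj s)).trans hlin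

theorem SL_P_step {J ρ R u q e : ℝ} (hJ : 1 ≤ J) (hρ : 0 ≤ ρ) (hR : J ^ 2 ≤ R) (hu0 : 0 ≤ u)
    (hu : u ≤ R) {j : σ → ℝ} (hj : ∀ s, |j s| ≤ J) (he : |𝔼 s, j s| ≤ e)
    (ht : u < J → 16 * J ^ 2 * (𝔼 s, if ρ < |j s| then |j s| else 0) ≤ 𝔼 s, j s ^ 2) :
    𝔼 s, SL_P J ρ R (u - j s) (q + 𝔼 s, j s ^ 2) ≤ SL_P J ρ R u q + 12 * e / R := by
  have hR0 : 0 < R := by nlinarith
  have h1 := SL_f_step hJ hρ hu0 hj he ht
  have he' := abs_le.1 he
  have he0 : 0 ≤ e := (abs_nonneg _).trans he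
  set v := 𝔼 s, j s ^ 2 with hv
  have h2 : ∀ s, SL_P J ρ R (u - j s) (q + v) = (5 / R) * SL_f J ρ (u - j s) +
      ((J ^ 2 - u ^ 2 + q + v) / R ^ 2 + ((2 * u / R ^ 2) * j s - (1 / R ^ 2) * j s ^ 2)) := by
    intro s
    unfold SL_P
    field_simp
    ring
  simp only [h2]
  rw [Finset.expect_add_distrib, Finset.expect_add_distrib, Finset.expect_sub_distrib,
    Fintype.expect_const, ← Finset.mul_expect, ← Finset.mul_expect, ← Finset.mul_expect, ← hv]
  have h3 : (5 / R) * 𝔼 s, SL_f J ρ (u - j s) ≤ (5 / R) * (SL_f J ρ u + 2 * e) :=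
    mul_le_mul_of_nonneg_left h1 (by positivity)
  have h4 : (2 * u / R ^ 2) * 𝔼 s, j s ≤ (2 * R / R ^ 2) * e := by
    calc (2 * u / R ^ 2) * 𝔼 s, j s ≤ (2 * u / R ^ 2) * e :=
          mul_le_mul_of_nonneg_left he'.2 (by positivity)
      _ ≤ (2 * R / R ^ 2) * e := by gcongr
  have h5 : (5 / R) * (SL_f J ρ u + 2 * e) + ((J ^ 2 - u ^ 2 + q + v) / R ^ 2 +
      ((2 * R / R ^ 2) * e - (1 / R ^ 2) * v)) = SL_P J ρ R u q + 12 * e / R := by
    unfold SL_P
    field_simp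
    ring
  linarith

end step

variable {σ : Type} [Fintype σ] [Nonempty σ] {h : Ht G σ} {p : Par} {ι : σ → σ} {C x₀ : ℝ}

namespace Ht

theorem SL_Jb_le (hJ : 0 ≤ p.J0) (ω : h.X.Ω) (s : σ) : |h.Jb p ω s| ≤ p.J0 := by
  unfold Jb
  split_ifs with h1
  · exact h1
  · simpa using hJ

theorem SL_ind {ρ R H : ℝ} (hJ : 1 ≤ p.J0) (he : 0 ≤ p.e0) (hρ : 0 ≤ ρ) (hR : p.J0 ^ 2 ≤ R)
    {E : h.X.Ω → List σ → Prop}
    (hE : ∀ ω s w, E ω (s :: w) → h.okS p ω ∧ h.z ω ≤ H ∧ (H - h.z ω < p.J0 →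
      16 * p.J0 ^ 2 * (𝔼 s, if ρ < |h.Jb p ω s| then |h.Jb p ω s| else 0) ≤ h.vb p ω) ∧
      |h.J ω s| ≤ p.J0 ∧ E (h.X.mv ω (h.g s)) w) (n : ℕ) :
    ∀ (ω : h.X.Ω) (q : ℝ), -p.J0 ≤ H - h.z ω → H - h.z ω ≤ R + p.J0 → 0 ≤ q →
      avgW n (fun w => ind (E ω w ∧ R ^ 2 ≤ q + h.QV p ω w 0 n)) ≤
        SL_P p.J0 ρ R (H - h.z ω) q + n * (12 * p.e0 / R) := by
  have hR0 : 0 < R := by nlinarith
  have hc : 0 ≤ 12 * p.e0 / R := by positivity
  induction n with
  | zero =>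
    intro ω q h1 h2 hq
    simp only [avgW_zero, QV, Finset.Ico_self, Finset.sum_empty, add_zero, Nat.cast_zero, zero_mul]
    by_cases h3 : E ω [] ∧ R ^ 2 ≤ q
    · rw [ind_pos h3]; exact SL_P_one_q hJ hρ hR h1 h2 h3.2
    · rw [ind_neg h3]; exact SL_P_nonneg hJ hρ hR h1 h2 hq
  | succ n ih =>
    intro ω q h1 h2 hq
    have hn : 0 ≤ ((n + 1 : ℕ) : ℝ) * (12 * p.e0 / R) := by positivity
    have hn' : 0 ≤ (n : ℝ) * (12 * p.e0 / R) := by positivity
    by_cases hu : R ≤ H - h.z ω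
    · refine (avgW_le fun w _ => ind_le_one _).trans ?_
      linarith [SL_P_one_u hJ hρ hR hu h2 hq]
    by_cases hal : h.okS p ω ∧ h.z ω ≤ H ∧ (H - h.z ω < p.J0 →
      16 * p.J0 ^ 2 * (𝔼 s, if ρ < |h.Jb p ω s| then |h.Jb p ω s| else 0) ≤ h.vb p ω)
    swap
    · refine le_trans (avgW_le (r := 0) fun w hw => ?_) ?_
      · obtain ⟨s, w, rfl⟩ := List.exists_cons_of_length_eq_add_one hw
        refine (ind_neg fun h3 => hal ?_).le
        obtain ⟨h4, h5, h6, -⟩ := hE ω s w h3.1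
        exact ⟨h4, h5, h6⟩
      · linarith [SL_P_nonneg hJ hρ hR h1 h2 hq]
    obtain ⟨hok, hz, ht⟩ := hal
    have hu' : H - h.z ω ≤ R := (not_le.1 hu).le
    have hu0 : 0 ≤ H - h.z ω := by linarith
    have hv := vb_nonneg (h := h) (p := p) ω
    have hstep := SL_P_step (q := q) hJ hρ hR hu0 hu' (SL_Jb_le (by linarith) ω) hok ht
    have hchild : ∀ s, avgW n (fun w => ind (E ω (s :: w) ∧
        R ^ 2 ≤ q + h.QV p ω (s :: w) 0 (n + 1))) ≤
        SL_P p.J0 ρ R (H - h.z ω - h.Jb p ω s) (q + h.vb p ω) + n * (12 * p.e0 / R) := by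
      intro s
      have hb := abs_le.1 (SL_Jb_le (h := h) (p := p) (by linarith) ω s)
      by_cases hs : |h.J ω s| ≤ p.J0
      · have h3 : h.Jb p ω s = h.J ω s := if_pos hs
        have h4 : H - h.z ω - h.Jb p ω s = H - h.z (h.X.mv ω (h.g s)) := by
          rw [h3, J]; ring
        have h5 := ih (h.X.mv ω (h.g s)) (q + h.vb p ω) (by rw [← h4]; linarith)
          (by rw [← h4]; linarith) (by linarith)
        rw [h4]
        refine le_trans (avgW_mono fun w _ => ind_mono fun h6 => ?_) h5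
        refine ⟨(hE ω s w h6.1).2.2.2.2, ?_⟩
        have h7 := h6.2
        rw [QV_cons_zero] at h7
        linarith
      · refine le_trans (avgW_le (r := 0) fun w _ => ?_) ?_
        · exact (ind_neg fun h3 => hs (hE ω s w h3.1).2.2.2.1).le
        · linarith [SL_P_nonneg (u := H - h.z ω - h.Jb p ω s) (q := q + h.vb p ω) hJ hρ hR
            (by linarith) (by linarith) (by linarith)]
    rw [avgW_succ]
    refine (Finset.expect_le_expect fun s _ => hchild s).trans ?_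
    rw [Finset.expect_add_distrib, Fintype.expect_const]
    push_cast
    have h8 : h.vb p ω = 𝔼 s, h.Jb p ω s ^ 2 := rfl
    rw [← h8] at hstep
    linarith

theorem SL_gen (hp : p.Ok) {a ρ H : ℝ} (ha : p.A ≤ a) (hρ : 0 ≤ ρ) {n : ℕ} (hn : n ≤ p.l)
    {E : h.X.Ω → List σ → Prop}
    (hE : ∀ ω s w, E ω (s :: w) → h.okS p ω ∧ h.z ω ≤ H ∧ (H - h.z ω < p.J0 →
      16 * p.J0 ^ 2 * (𝔼 s, if ρ < |h.Jb p ω s| then |h.Jb p ω s| else 0) ≤ h.vb p ω) ∧
      |h.J ω s| ≤ p.J0 ∧ E (h.X.mv ω (h.g s)) w) (ω : h.X.Ω) (hz : h.z ω ≤ H) :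
    avgW n (fun w => ind (E ω w ∧ a ≤ h.QV p ω w 0 n)) ≤ 5 * (H - h.z ω + ρ + 4) / √a := by
  have hJ : 1 ≤ p.J0 := by linarith [hp.hκ, hp.hJ]
  have ha0 : 0 < a := hp.hA0.trans_le ha
  have hR : p.J0 ^ 2 ≤ √a := hp.hA.trans (Real.sqrt_le_sqrt ha)
  have hR0 : 0 < √a := Real.sqrt_pos.2 ha0
  have hsq : √a ^ 2 = a := Real.sq_sqrt ha0.le
  by_cases hu : H - h.z ω ≤ √a + p.J0
  · have h1 := SL_ind hJ hp.he.le hρ hR hE n ω 0 (by linarith) hu le_rfl
    simp only [hsq, zero_add] at h1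
    refine h1.trans ?_
    have h2 := SL_f_le (u := H - h.z ω) hJ hρ (by linarith)
    have h3 : (n : ℝ) * p.e0 ≤ 1 := by
      have : (n : ℝ) ≤ p.l := by exact_mod_cast hn
      exact (mul_le_mul_of_nonneg_right this hp.he.le).trans hp.hle
    have h4 : (p.J0 ^ 2 - (H - h.z ω) ^ 2 + 0) / √a ^ 2 ≤ 1 / √a := by
      rw [div_le_div_iff₀ (by positivity) hR0]
      nlinarith [sq_nonneg (H - h.z ω), mul_nonneg (sq_nonneg (H - h.z ω)) hR0.le]
    have h5 : (n : ℝ) * (12 * p.e0 / √a) ≤ 12 / √a := by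
      rw [← mul_div_assoc]
      exact div_le_div_of_nonneg_right (by linarith) hR0.le
    have h6 : 5 * SL_f p.J0 ρ (H - h.z ω) / √a ≤ 5 * (H - h.z ω + ρ + 1) / √a :=
      div_le_div_of_nonneg_right (by linarith) hR0.le
    have h7 : 5 * (H - h.z ω + ρ + 1) / √a + 1 / √a + 12 / √a ≤ 5 * (H - h.z ω + ρ + 4) / √a := by
      rw [← add_div, ← add_div]
      exact div_le_div_of_nonneg_right (by linarith) hR0.le
    unfold SL_P
    linarith
  · refine (avgW_le fun w _ => ind_le_one _).trans ?_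
    rw [le_div_iff₀ hR0]
    linarith [not_le.1 hu]

theorem sl_sharp (hp : p.Ok) {a : ℝ} (ha : p.A ≤ a) {n : ℕ} (hn : n ≤ p.l) (H : ℝ) (ω : h.X.Ω)
    (hz : h.z ω ≤ H) : avgW n (fun w => ind (h.Alive p H ω w ∧ a ≤ h.QV p ω w 0 n)) ≤
      5 * (H - h.z ω + p.κ + 4) / √a := by
  refine SL_gen hp ha (by linarith [hp.hκ]) hn (E := h.Alive p H) ?_ ω hz
  intro ω s w hw
  obtain ⟨h1, h2, h3, h4, h5⟩ := (Alive_cons H ω s w).1 hw
  refine ⟨h1, h2, fun h6 => ?_, h4, h5⟩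
  obtain ⟨h7, h8⟩ := h3 (by linarith)
  exact h8.trans (h7.trans (vk_le_vb hp ω))

theorem sl_crude (hp : p.Ok) {a : ℝ} (ha : p.A ≤ a) {n : ℕ} (hn : n ≤ p.l) (H : ℝ) (ω : h.X.Ω)
    (hz : h.z ω ≤ H) : avgW n (fun w => ind (h.Crude p H ω w ∧ a ≤ h.QV p ω w 0 n)) ≤
      5 * (H - h.z ω + p.J0 + 4) / √a := by
  have hJ : 0 ≤ p.J0 := by linarith [hp.hκ, hp.hJ]
  refine SL_gen hp ha hJ hn (E := h.Crude p H) ?_ ω hz
  intro ω s w hw
  obtain ⟨h1, h2, h4, h5⟩ := (Crude_cons H ω s w).1 hw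
  refine ⟨h1, h2, fun _ => ?_, h4, h5⟩
  have h6 : ∀ s, (if p.J0 < |h.Jb p ω s| then |h.Jb p ω s| else 0) = 0 := fun s =>
    if_neg (not_lt.2 (SL_Jb_le hJ ω s))
  simp only [h6, Fintype.expect_const, mul_zero]
  exact vb_nonneg ω

end Ht

end Pool.Agent.Work.MP_01d39a_al.Ct
end

-- merged part: Pool.Agent.Work.MP_01d39a_al.Ct.B3
section
/-!
TASK CT B3. The top is away from the ends (G3) and near sites are safe (G4).
b3, front end: with `s = 2 Le`, the event is contained in `Crude H' (st s) (drop s) ∧ A' ≤ QV (st s) (drop s) 0 (l - s)`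
with `H' = Mx (take s) + J0` (`Crude.drop`, `QV_drop`, `QV_mono`, `lt_Hs`, `le_Mx`); `ann_eq`, `avgW_split`, `sl_crude` gives
`5 (W (take s) + 2 J0 + 4)/√A'`, then `W_le`. Back end: apply `ann_rv` (the reversed path has the same `Mx`, `G1`, and the
two `QV` conditions are exchanged: `QV_rv`, `Crude.rv` with `t = l`).
b4: union over `i`; `ann_two` at time `i`: the site is not safe and both arms are `Crude` below `z + J0` with `QV ≥ A`;
write the probability as an integral (`integral_ind`, `integral_avgW`), factor, use `sl_crude` twice.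
-/

open MeasureTheory ProbabilityTheory Filter Topology
open scoped BigOperators ENNReal NNReal

namespace Pool.Agent.Work.MP_01d39a_al.Ct

variable {G : Type} [Group G]

variable {σ : Type} [Fintype σ] [Nonempty σ] {h : Ht G σ} {p : Par} {ι : σ → σ} {C x₀ : ℝ}

namespace Ht

omit [Nonempty σ] in
theorem B3_le (X : Sys G) {n : ℕ} {E : X.Ω → List σ → Prop} (hE : ∀ w, MeasurableSet {ω | E ω w})
    {f : X.Ω → ℝ} (hf : Integrable f X.P) (hb : ∀ ω, avgW n (fun w => ind (E ω w)) ≤ f ω) :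
    X.ann n E ≤ ∫ ω, f ω ∂X.P := by
  rw [ann_eq X hE]
  exact integral_mono (integrable_avgW fun w _ => integrable_ind _ (hE w)) hf hb

omit [Nonempty σ] in
theorem B3_one (X : Sys G) {n : ℕ} {S : X.Ω → Prop} (hS : MeasurableSet {ω | S ω})
    {E : X.Ω → List σ → Prop} (hE : ∀ w, MeasurableSet {ω | E ω w}) {b : ℝ}
    (hb : ∀ ω, avgW n (fun w => ind (E ω w)) ≤ b) :
    X.ann n (fun ω w => S ω ∧ E ω w) ≤ X.P.real {ω | S ω} * b := by
  have := B3_le X (n := n) (E := fun ω w => S ω ∧ E ω w) (fun w => hS.inter (hE w))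
    ((integrable_ind X.P hS).mul_const b) fun ω => by
      simp only [ind_and]
      rw [avgW_mul_left]
      exact mul_le_mul_of_nonneg_left (hb ω) (ind_nonneg _)
  rwa [integral_mul_const, integral_ind _ hS] at this

theorem B3_ms (hz : Measurable h.z) {H : h.X.Ω → ℝ} (hH : Measurable H) {f : h.X.Ω → h.X.Ω}
    (hf : Measurable f) (a : ℝ) (n : ℕ) (w : List σ) :
    MeasurableSet {ω | h.Crude p (H ω) (f ω) w ∧ a ≤ h.QV p (f ω) w 0 n} := by
  refine MeasurableSet.inter (MeasurableSet.inter (hf (ms_G1 (p := p) hz w)) ?_)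
    (measurableSet_le measurable_const ((meas_QV hz w 0 n).comp hf))
  have : {ω | ∀ i ≤ w.length, h.z (h.st (f ω) w i) ≤ H ω} =
      ⋂ i, ⋂ _ : i ≤ w.length, {ω | h.z (h.st (f ω) w i) ≤ H ω} := by
    ext ω
    simp
  change MeasurableSet {ω | ∀ i ≤ w.length, h.z (h.st (f ω) w i) ≤ H ω}
  rw [this]
  refine MeasurableSet.iInter fun i => MeasurableSet.iInter fun _ => ?_
  exact measurableSet_le (hz.comp ((measurable_st h.X w i).comp hf)) hH

theorem B3_front (hp : p.Ok) {κ : ℝ} (hM : h.Mom C x₀ κ) (hx : p.l * x₀ ≤ 1) :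
    h.X.ann p.l (fun ω w => h.G1 p ω w ∧ p.A' ≤ h.QV p ω w (p.l - p.L1) p.l ∧
      ∃ i < 2 * p.Le, p.Hs (h.Mx ω w) - p.J0 < h.z (h.st ω w i)) ≤
      5 * (√(12 * p.Le) + 2 * p.J0 + 4) / √p.A' := by
  have h1 := hp.hL1
  have h2 := hp.hl
  obtain ⟨t, ht⟩ : ∃ t, p.l = 2 * p.Le + t := ⟨p.l - 2 * p.Le, by omega⟩
  set s := 2 * p.Le with hs
  have hJ : 0 ≤ p.J0 := by have := hp.hκ; have := hp.hJ; linarith
  let F : h.X.Ω → List σ → List σ → Prop := fun ω u v =>
    h.Crude p (h.Mx ω u + p.J0) (h.st ω u s) v ∧ p.A' ≤ h.QV p (h.st ω u s) v 0 t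
  have step1 : h.X.ann p.l (fun ω w => h.G1 p ω w ∧ p.A' ≤ h.QV p ω w (p.l - p.L1) p.l ∧
      ∃ i < s, p.Hs (h.Mx ω w) - p.J0 < h.z (h.st ω w i)) ≤
      h.X.ann p.l (fun ω w => F ω (w.take s) (w.drop s)) := by
    refine ann_mono h.X fun ω w hw ⟨g1, hq, i, hi, hz⟩ => ?_
    have e : h.st ω (w.take s) s = h.st ω w s := st_take h.X ω w le_rfl
    have e2 : h.z (h.st ω w i) ≤ h.Mx ω (w.take s) := by
      have := le_Mx ω (w.take s) (i := i) (by rw [List.length_take]; omega)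
      rwa [show h.st ω (w.take s) i = h.st ω w i from st_take h.X ω w hi.le] at this
    have hc : h.Crude p (h.Mx ω (w.take s) + p.J0) ω w := ⟨g1, fun j hj => by
      have := le_Mx ω w hj
      have := lt_Hs hp (h.Mx ω w)
      linarith⟩
    refine ⟨by rw [e]; exact hc.drop (by omega), ?_⟩
    rw [e, QV_drop]
    exact hq.trans (QV_mono ω w (by omega) (by omega))
  refine step1.trans ?_
  have hsx : (s : ℝ) * x₀ ≤ 1 := by
    rcases le_total x₀ 0 with h0 | h0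
    · exact (mul_nonpos_of_nonneg_of_nonpos (Nat.cast_nonneg _) h0).trans zero_le_one
    · exact (mul_le_mul_of_nonneg_right (by exact_mod_cast (by omega : s ≤ p.l)) h0).trans hx
  have hW := W_le hM hsx
  have e12 : (6 * s : ℝ) = 12 * p.Le := by rw [hs]; push_cast; ring
  rw [e12] at hW
  have step2 : ∀ u : List σ, u.length = s → avgW t (fun v => h.X.P.real {ω | F ω u v}) ≤
      5 * ((∫ ω, h.W ω u ∂h.X.P) + 2 * p.J0 + 4) / √p.A' := fun u hu => by
    have hi : Integrable (fun ω => h.W ω u) h.X.P := (memLp_W hM u).integrable one_le_two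
    have := B3_le h.X (n := t) (E := fun ω v => F ω u v)
      (fun v => B3_ms hM.meas ((meas_Mx hM.meas u).add_const _) (measurable_st h.X u s) _ _ v)
      (f := fun ω => 5 * (h.W ω u + (2 * p.J0 + 4)) / √p.A')
      (((hi.add (integrable_const _)).const_mul _).div_const _) fun ω => by
        have := sl_crude hp hp.hA' (n := t) (by omega) (h.Mx ω u + p.J0) (h.st ω u s)
          (by have := le_Mx ω u (i := s) hu.ge; linarith)
        refine this.trans (le_of_eq ?_)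
        rw [W, hu]
        ring
    rw [integral_div, integral_const_mul, integral_add hi (integrable_const _), integral_const,
      probReal_univ, one_smul, ← add_assoc] at this
    exact this
  rw [Sys.ann, ht, avgW_split s t fun u v => h.X.P.real {ω | F ω u v}]
  refine (avgW_mono step2).trans ?_
  rw [avgW_div, avgW_mul_left, avgW_add, avgW_add, avgW_const, avgW_const]
  gcongr

theorem b3 (hp : p.Ok) (hι : Inv h.g ι) {κ : ℝ} (hM : h.Mom C x₀ κ) (hx : p.l * x₀ ≤ 1) :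
    h.X.ann p.l (fun ω w => h.G1 p ω w ∧ p.A' ≤ h.QV p ω w 1 (p.L1 + 1) ∧
      p.A' ≤ h.QV p ω w (p.l - p.L1) p.l ∧ ¬ h.Mid p ω w) ≤
      10 * (√(12 * p.Le) + 2 * p.J0 + 4) / √p.A' := by
  have h1 := hp.hL1
  have h2 := hp.hl
  have hf := B3_front hp hM hx
  have hb := hf
  rw [← ann_rv h.X hι] at hb
  refine le_trans (ann_mono h.X fun ω w hw ⟨g1, q1, q2, hm⟩ => ?_)
    ((ann_or_le h.X _ _ _).trans ((add_le_add hf hb).trans (le_of_eq (by ring))))
  simp only [Mid, not_forall] at hm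
  obtain ⟨i, hi, hz, hm⟩ := hm
  by_cases hi2 : i < 2 * p.Le
  · exact Or.inl ⟨g1, q2, i, hi2, hz⟩
  · right
    have e1 : h.X.mv ω (pw h.g w) = h.st ω w w.length := (st_length h.X ω w).symm
    have e2 : rv ι w = rv ι (w.take w.length) := by rw [List.take_length]
    refine ⟨?_, ?_, p.l - i, by omega, ?_⟩
    · have hc : h.Crude p (h.Mx ω w) ω w := ⟨g1, fun j hj => le_Mx ω w hj⟩
      rw [e1, e2]
      exact (hc.rv hι le_rfl).1
    · have := QV_rv (p := p) hι ω w (t := w.length) (i := p.l - p.L1) le_rfl (by omega)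
      rw [← e1, ← e2, hw, show p.l - (p.l - p.L1) + 1 = p.L1 + 1 by omega] at this
      rw [this]
      exact q1
    · have := st_rv_take h.X hι ω w (t := w.length) (i := p.l - i) le_rfl (by omega)
      rw [show w.length - (p.l - i) = i by omega, st_length, List.take_length] at this
      rw [Mx_rv hι]
      exact hz.trans_le (le_of_eq (congrArg h.z this.symm))

theorem b4 (hp : p.Ok) (hι : Inv h.g ι) (hz : Measurable h.z) :
    h.X.ann p.l (fun ω w => h.G1 p ω w ∧ p.A ≤ h.QV p ω w 1 (p.Le + 1) ∧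
      p.A ≤ h.QV p ω w (p.l - p.Le) p.l ∧ h.Mid p ω w ∧
      ∃ i ≤ p.l, p.Hs (h.Mx ω w) - p.J0 < h.z (h.st ω w i) ∧ ¬ h.safe p (h.st ω w i)) ≤
      (p.l + 1) * h.X.P.real {ω | ¬ h.safe p ω} * ((5 * (2 * p.J0 + 4)) ^ 2 / p.A) := by
  have hJ : 0 ≤ p.J0 := by have := hp.hκ; have := hp.hJ; linarith
  set b := 5 * (2 * p.J0 + 4) / √p.A with hb
  have hb0 : 0 ≤ b := by positivity
  have hbb : b * b = (5 * (2 * p.J0 + 4)) ^ 2 / p.A := by
    rw [hb, div_mul_div_comm, Real.mul_self_sqrt hp.hA0.le, sq]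
  let E : ℕ → h.X.Ω → List σ → Prop := fun n ω u =>
    h.Crude p (h.z ω + p.J0) ω u ∧ p.A ≤ h.QV p ω u 0 n
  have hE : ∀ n u, MeasurableSet {ω | E n ω u} := fun n u =>
    B3_ms hz (hz.add_const _) measurable_id _ _ u
  have hq : ∀ n ≤ p.l, ∀ ω, avgW n (fun u => ind (E n ω u)) ≤ b := fun n hn ω => by
    refine (sl_crude hp le_rfl hn (h.z ω + p.J0) ω (by linarith)).trans (le_of_eq ?_)
    rw [hb]
    ring
  have hS : MeasurableSet {ω | ¬ h.safe p ω} := (ms_safe hz).compl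
  have step : ∀ i ∈ Finset.range (p.l + 1), h.X.ann p.l (fun ω w =>
      (¬ h.safe p (h.st ω w i) ∧ E i (h.st ω w i) (rv ι (w.take i))) ∧
        E (p.l - i) (h.st ω w i) (w.drop i)) ≤ h.X.P.real {ω | ¬ h.safe p ω} * b * b := by
    intro i hi
    have hi' : i ≤ p.l := Nat.lt_succ_iff.1 (Finset.mem_range.1 hi)
    have := ann_two h.X hι i (p.l - i) fun ω u v => (¬ h.safe p ω ∧ E i ω u) ∧ E (p.l - i) ω v
    rw [show i + (p.l - i) = p.l by omega] at this
    rw [this]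
    refine (avgW_mono fun u _ => B3_one h.X (hS.inter (hE i u)) (hE (p.l - i))
      (hq _ (Nat.sub_le _ _))).trans ?_
    rw [avgW_mul_right]
    exact mul_le_mul_of_nonneg_right (B3_one h.X hS (hE i) (hq i hi')) hb0
  refine le_trans (ann_mono h.X fun ω w hw ⟨g1, q1, q2, hm, i, hi, hzi, hs⟩ => ?front)
    ((ann_exists_le h.X _ _ _).trans ((Finset.sum_le_sum step).trans (le_of_eq ?back)))
  case front =>
    obtain ⟨m1, m2⟩ := hm i (by omega) hzi
    have hc : h.Crude p (h.z (h.st ω w i) + p.J0) ω w := ⟨g1, fun j hj => by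
      have := le_Mx ω w hj
      have := lt_Hs hp (h.Mx ω w)
      linarith⟩
    refine ⟨i, Finset.mem_range.2 (by omega), ⟨hs, hc.rv hι (by omega), ?_⟩,
      hc.drop (by omega), ?_⟩
    · rw [QV_rv hι ω w (by omega) (Nat.zero_le _)]
      exact q1.trans (QV_mono ω w le_rfl (by omega))
    · rw [QV_drop]
      exact q2.trans (QV_mono ω w (by omega) (by omega))
  case back =>
    rw [Finset.sum_const, Finset.card_range, nsmul_eq_mul, ← hbb]
    push_cast
    ring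

end Ht

end Pool.Agent.Work.MP_01d39a_al.Ct
end

-- merged part: Pool.Agent.Work.MP_01d39a_al.Ct.SM
section
/-!
TASK CT SM. Consequences of the survival lemma (quenched).
arm_le: `sl_sharp`, `Hs_sub_le`, `lt_Hs`, `κ ≥ 4`. sm_le: induction on `n`; if `H - κ ≤ z ω` use `sl_sharp` and `QV_mono`,
otherwise `i ≥ 1` and use `Alive_cons`, `QV_cons_succ`.
few_le: split the word at `nb` (`avgW_split`; the event is empty if `n < nb`); after the block use `sl_sharp` at the site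
`st nb` with the level `Hs (z ω)` (`Alive.drop`, `QV_drop`); the block itself: `avgW n (2^(-count)) ≤ (1 - μ/2)^n` by
induction, Markov: `2^(μ n/4) exp (-μ n/2) ≤ exp (-μ n/4)`.
drop_le: with `z₀ = z ω`, `H = Hs z₀`, `c = 30/(ε² κ √A)`, prove by induction on the remaining block length `b`, for all
`ω'`, `n ≤ l`, `0 ≤ q ≤ V κ²`: `avgW n (ind (Alive H ω' w ∧ ∃ s ≤ b, s ≤ n ∧ z (st s) - z₀ ≤ -εκ ∧ q + QV 0 s ≤ V κ² ∧ A ≤ QV s n))
≤ c ((z ω' - z₀)² + V κ² - q + 2 b κ e0)`. If `Δ = z ω' - z₀ ≤ -εκ` use `sl_sharp`: `5 (2κ + 4 + |Δ|)/√A ≤ c Δ²`.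
Otherwise `s ≥ 1`, `|Δ| ≤ κ` (alive), `q + vb ≤ V κ²`, and average `(Δ + Jb)²` over the first step.
-/

open MeasureTheory ProbabilityTheory Filter Topology
open scoped BigOperators ENNReal NNReal

namespace Pool.Agent.Work.MP_01d39a_al.Ct

variable {G : Type} [Group G]

variable {σ : Type} [Fintype σ] [Nonempty σ] {h : Ht G σ} {p : Par} {ι : σ → σ} {C x₀ : ℝ}

namespace Ht

theorem B_nonneg (hp : p.Ok) : 0 ≤ p.B := by
  have := hp.hκ
  unfold Par.B
  positivity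

omit [Nonempty σ] in
theorem SM_zero {n : ℕ} {E : List σ → Prop} {r : ℝ} (hr : 0 ≤ r) (hE : ∀ w, w.length = n → ¬ E w) :
    avgW n (fun w => ind (E w)) ≤ r :=
  (avgW_mono fun w hw => (ind_neg (hE w hw)).le).trans ((avgW_zero_fun n).trans_le hr)

theorem SM_sl (hp : p.Ok) {n : ℕ} (hn : n ≤ p.l) {H D : ℝ} {ω : h.X.Ω} (h0 : 0 ≤ D)
    (hD : H - h.z ω ≤ D) : avgW n (fun w => ind (h.Alive p H ω w ∧ p.A ≤ h.QV p ω w 0 n)) ≤
      5 * (D + p.κ + 4) / √p.A := by
  have := hp.hκ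
  rcases le_or_gt (h.z ω) H with hz | hz
  · exact (sl_sharp hp le_rfl hn H ω hz).trans (by gcongr)
  · exact SM_zero (by positivity) fun w _ hw => hz.not_ge (by simpa using hw.1.1.2 0 (Nat.zero_le _))

theorem SM_top (hp : p.Ok) {n : ℕ} (hn : n ≤ p.l) {H : ℝ} {ω : h.X.Ω} (hD : H - p.κ ≤ h.z ω) :
    avgW n (fun w => ind (h.Alive p H ω w ∧ p.A ≤ h.QV p ω w 0 n)) ≤ p.B := by
  have := hp.hκ
  exact (SM_sl hp hn (D := p.κ) (by linarith) (by linarith)).trans
    (div_le_div_of_nonneg_right (by linarith) (Real.sqrt_nonneg _))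

theorem arm_le (hp : p.Ok) {n : ℕ} (hn : n ≤ p.l) (ω : h.X.Ω) :
    avgW n (fun w => ind (h.Arm p ω w)) ≤ p.B :=
  (avgW_congr fun w hw => by rw [Arm, hw]).trans_le (SM_top hp hn (Hs_sub_le hp _))

theorem sm_le (hp : p.Ok) {n : ℕ} (hn : n ≤ p.l) (H : ℝ) (ω : h.X.Ω) :
    avgW n (fun w => ind (h.Alive p H ω w ∧
      ∃ i ≤ n, H - p.κ ≤ h.z (h.st ω w i) ∧ p.A ≤ h.QV p ω w i n)) ≤ p.B := by
  induction n generalizing ω with
  | zero =>
    exact (avgW_mono fun w _ => ind_mono fun ⟨_, i, hi, _, h2⟩ => by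
      rw [QV, Nat.le_zero.1 hi, Finset.Ico_self, Finset.sum_empty] at h2
      exact h2.not_gt hp.hA0).trans (SM_zero (B_nonneg hp) fun _ _ => not_false)
  | succ n ih =>
    by_cases hz : H - p.κ ≤ h.z ω
    · exact (avgW_mono fun w _ => ind_mono fun ⟨h1, i, _, _, h2⟩ =>
        ⟨h1, h2.trans (QV_mono ω w (Nat.zero_le _) le_rfl)⟩).trans (SM_top hp hn hz)
    refine Finset.expect_le Finset.univ_nonempty fun s _ => le_trans (avgW_mono fun w _ =>
      ind_mono ?_) (ih (Nat.le_of_succ_le hn) (h.X.mv ω (h.g s)))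
    rintro ⟨h1, _ | i, hi, h2, h3⟩
    · exact absurd (by simpa using h2) hz
    · rw [QV_cons_succ] at h3
      exact ⟨((Alive_cons H ω s w).1 h1).2.2.2.2, i, Nat.le_of_succ_le_succ hi,
        by rwa [Ht.st, ← st_cons], h3⟩

theorem SM_exp {ty : σ → Prop} {μ : ℝ} (hμ : μ ≤ 𝔼 s, ind (ty s)) (n : ℕ) :
    avgW n (fun w : List σ => Real.exp (-(w.map fun s => ind (ty s)).sum)) ≤
      Real.exp (-(μ * n / 2)) := by
  induction n with
  | zero => simp
  | succ n ih =>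
    have h1 : ∀ s, Real.exp (-ind (ty s)) ≤ 1 - ind (ty s) / 2 := fun s => by
      by_cases e : ty s
      · rw [ind_pos e, Real.exp_neg, inv_le_comm₀ (Real.exp_pos _) (by norm_num)]
        linarith [Real.add_one_le_exp 1]
      · simp [ind_neg e]
    have h2 : 𝔼 s, (1 - ind (ty s) / 2) ≤ Real.exp (-(μ / 2)) := by
      rw [Finset.expect_sub_distrib, Fintype.expect_const, ← Finset.expect_div]
      linarith [Real.add_one_le_exp (-(μ / 2))]
    simp only [avgW_succ, List.map_cons, List.sum_cons, neg_add, Real.exp_add, avgW_mul_left]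
    refine (Finset.expect_le_expect fun s _ => mul_le_mul (h1 s) ih
      (avgW_nonneg fun _ _ => (Real.exp_pos _).le) ((Real.exp_pos _).le.trans (h1 s))).trans ?_
    rw [← Finset.expect_mul]
    refine (mul_le_mul_of_nonneg_right h2 (Real.exp_pos _).le).trans_eq ?_
    rw [← Real.exp_add]
    push_cast
    ring_nf

theorem few_le (hp : p.Ok) {n : ℕ} (hn : n ≤ p.l) {ty : σ → Prop} {μ : ℝ} (h0 : 0 ≤ μ)
    (hμ : μ ≤ 𝔼 s, ind (ty s)) (ω : h.X.Ω) :
    avgW n (fun w => ind (h.FewEv p ty μ ω w)) ≤ Real.exp (-(μ * p.nb / 4)) * p.B := by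
  have hB := B_nonneg (p := p) hp
  rcases lt_or_ge n p.nb with hlt | hle
  · exact SM_zero (by positivity) fun w hw hE => hlt.not_ge (hw ▸ hE.2.1)
  obtain ⟨m, rfl⟩ := Nat.exists_eq_add_of_le hle
  have h1 := avgW_split p.nb m fun u v => ind ((u.map fun s => ind (ty s)).sum < μ * p.nb / 4 ∧
    p.Hs (h.z ω) - p.κ ≤ h.z (h.X.mv ω (pw h.g u))) * ind (h.Alive p (p.Hs (h.z ω))
      (h.X.mv ω (pw h.g u)) v ∧ p.A ≤ h.QV p (h.X.mv ω (pw h.g u)) v 0 m)
  refine (avgW_mono fun w hw => ?_).trans (h1.trans_le ((avgW_mono (F' := fun u => Real.exp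
    (-(u.map fun s => ind (ty s)).sum) * (Real.exp (μ * p.nb / 4) * p.B)) fun u _ => ?_).trans ?_))
  · rw [← ind_and]
    refine ind_mono fun ⟨a1, a2, a3, a4, a5⟩ => ⟨⟨a3, a4⟩, a1.drop a2, ?_⟩
    rw [hw] at a5
    exact a5.trans_eq (QV_drop ω w p.nb 0 m).symm
  · rw [avgW_mul_left]
    by_cases e : (u.map fun s => ind (ty s)).sum < μ * p.nb / 4 ∧
      p.Hs (h.z ω) - p.κ ≤ h.z (h.X.mv ω (pw h.g u))
    · rw [ind_pos e, ← mul_assoc, ← Real.exp_add]
      exact mul_le_mul (Real.one_le_exp (by linarith [e.1])) (SM_top hp (by omega) e.2)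
        (avgW_nonneg fun _ _ => ind_nonneg _) (Real.exp_pos _).le
    · rw [ind_neg e, zero_mul]
      positivity
  · rw [avgW_mul_right]
    refine (mul_le_mul_of_nonneg_right (SM_exp hμ p.nb) (by positivity)).trans_eq ?_
    rw [← mul_assoc, ← Real.exp_add]
    ring_nf

theorem SM_drop (hp : p.Ok) {H z₀ : ℝ} (hH : H - p.κ ≤ z₀) (b : ℕ) : ∀ (ω : h.X.Ω) (n : ℕ) (q : ℝ),
    n ≤ p.l → q ≤ p.V * p.κ ^ 2 → avgW n (fun w => ind (h.Alive p H ω w ∧ ∃ s ≤ b, s ≤ n ∧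
      h.z (h.st ω w s) - z₀ ≤ -(p.ε * p.κ) ∧ q + h.QV p ω w 0 s ≤ p.V * p.κ ^ 2 ∧
        p.A ≤ h.QV p ω w s n)) ≤ 30 / (p.ε ^ 2 * p.κ * √p.A) *
      ((h.z ω - z₀) ^ 2 + (p.V * p.κ ^ 2 - q) + 2 * b * p.κ * p.e0) := by
  have hκ := hp.hκ
  have hε := hp.hε
  have hε1 := hp.hε1
  have he := hp.he
  have hA := Real.sqrt_pos.2 hp.hA0
  have hεκ : p.ε * p.κ ≤ p.κ := mul_le_of_le_one_left (by positivity) hε1
  have key : ∀ (b : ℕ) (ω : h.X.Ω) (n : ℕ) (q : ℝ), n ≤ p.l → q ≤ p.V * p.κ ^ 2 →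
      h.z ω - z₀ ≤ -(p.ε * p.κ) → avgW n (fun w => ind (h.Alive p H ω w ∧ ∃ s ≤ b, s ≤ n ∧
      h.z (h.st ω w s) - z₀ ≤ -(p.ε * p.κ) ∧ q + h.QV p ω w 0 s ≤ p.V * p.κ ^ 2 ∧
        p.A ≤ h.QV p ω w s n)) ≤ 30 / (p.ε ^ 2 * p.κ * √p.A) *
      ((h.z ω - z₀) ^ 2 + (p.V * p.κ ^ 2 - q) + 2 * b * p.κ * p.e0) := fun b ω n q hn hq hz => by
    have h0 : 0 < p.ε * p.κ := by positivity
    refine (avgW_mono fun w _ => ind_mono fun ⟨h1, i, _, _, _, _, h2⟩ =>
      ⟨h1, h2.trans (QV_mono ω w (Nat.zero_le _) le_rfl)⟩).trans ((SM_sl hp hn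
        (D := p.κ - (h.z ω - z₀)) (by linarith) (by linarith)).trans ?_)
    generalize h.z ω - z₀ = x at hz ⊢
    have h1 : (p.ε * p.κ) ^ 2 ≤ x ^ 2 := by nlinarith
    have h2 : p.ε ^ 2 * p.κ ≤ -x := by nlinarith
    have h3 := mul_le_mul_of_nonneg_right h2 (by linarith : 0 ≤ -x)
    have h4 := mul_le_mul_of_nonneg_left hκ (by positivity : 0 ≤ p.ε ^ 2 * p.κ)
    have h5 : 0 ≤ 2 * b * p.κ * p.e0 := by positivity
    rw [div_mul_eq_mul_div, ← div_div, div_le_div_iff_of_pos_right hA, le_div_iff₀ (by positivity)]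
    linarith [sq_nonneg x]
  induction b with
  | zero =>
    intro ω n q hn hq
    by_cases hz : h.z ω - z₀ ≤ -(p.ε * p.κ)
    · exact key 0 ω n q hn hq hz
    have := sub_nonneg.2 hq
    refine SM_zero (by positivity) fun w _ ⟨_, s, hs, _, h1, _⟩ => hz ?_
    simpa [Nat.le_zero.1 hs] using h1
  | succ b ih =>
    intro ω n q hn hq
    by_cases hz : h.z ω - z₀ ≤ -(p.ε * p.κ)
    · exact key _ ω n q hn hq hz
    have h0 := sub_nonneg.2 hq
    rcases n with _ | n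
    · refine SM_zero (by positivity) fun w _ ⟨_, s, _, hs, h1, _⟩ => hz ?_
      simpa [Nat.le_zero.1 hs] using h1
    have h1 : ∀ s w, (h.Alive p H ω (s :: w) ∧ ∃ i ≤ b + 1, i ≤ n + 1 ∧
        h.z (h.st ω (s :: w) i) - z₀ ≤ -(p.ε * p.κ) ∧
          q + h.QV p ω (s :: w) 0 i ≤ p.V * p.κ ^ 2 ∧ p.A ≤ h.QV p ω (s :: w) i (n + 1)) →
        (h.okS p ω ∧ h.z ω ≤ H ∧ q + h.vb p ω ≤ p.V * p.κ ^ 2) ∧ |h.J ω s| ≤ p.J0 ∧
        h.Alive p H (h.X.mv ω (h.g s)) w ∧ ∃ i ≤ b, i ≤ n ∧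
          h.z (h.st (h.X.mv ω (h.g s)) w i) - z₀ ≤ -(p.ε * p.κ) ∧
          q + h.vb p ω + h.QV p (h.X.mv ω (h.g s)) w 0 i ≤ p.V * p.κ ^ 2 ∧
            p.A ≤ h.QV p (h.X.mv ω (h.g s)) w i n := by
      rintro s w ⟨a1, _ | i, a2, a3, a4, a5, a6⟩
      · exact absurd (by simpa using a4) hz
      obtain ⟨b1, b2, -, b3, b4⟩ := (Alive_cons H ω s w).1 a1
      rw [QV_cons_zero, ← add_assoc] at a5
      rw [QV_cons_succ] at a6
      have b5 : 0 ≤ h.QV p (h.X.mv ω (h.g s)) w 0 i := Finset.sum_nonneg fun _ _ => vb_nonneg _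
      exact ⟨⟨b1, b2, by linarith⟩, b3, b4, i, Nat.le_of_succ_le_succ a2, Nat.le_of_succ_le_succ a3,
        by rwa [Ht.st, ← st_cons], a5, a6⟩
    by_cases hk : h.okS p ω ∧ h.z ω ≤ H ∧ q + h.vb p ω ≤ p.V * p.κ ^ 2
    swap
    · exact Finset.expect_le Finset.univ_nonempty fun s _ =>
        SM_zero (by positivity) fun w _ hw => hk (h1 s w hw).1
    obtain ⟨k1, k2, k3⟩ := hk
    have k4 := sub_nonneg.2 k3
    refine (Finset.expect_le_expect (g := fun s => 30 / (p.ε ^ 2 * p.κ * √p.A) *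
      (((h.z ω - z₀) ^ 2 + 2 * (h.z ω - z₀) * h.Jb p ω s + h.Jb p ω s ^ 2) +
        ((p.V * p.κ ^ 2 - (q + h.vb p ω)) + 2 * b * p.κ * p.e0))) fun s _ => ?_).trans ?_
    · rw [← add_sq, ← add_assoc]
      by_cases hs : |h.J ω s| ≤ p.J0
      · refine (avgW_mono fun w _ => ind_mono fun hw => (h1 s w hw).2.2).trans
          ((ih _ n _ (Nat.le_of_succ_le hn) k3).trans_eq ?_)
        rw [Jb, if_pos hs, J]
        ring
      · exact SM_zero (by positivity) fun w _ hw => hs (h1 s w hw).2.1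
    · rw [← Finset.mul_expect]
      refine mul_le_mul_of_nonneg_left ?_ (by positivity)
      simp only [Finset.expect_add_distrib, Fintype.expect_const, ← Finset.mul_expect]
      have k5 : |h.z ω - z₀| ≤ p.κ := abs_le.2 ⟨by linarith, by linarith⟩
      have k6 := (le_abs_self _).trans ((abs_mul _ _).trans_le
        (mul_le_mul k5 k1 (abs_nonneg _) (by positivity)))
      have k7 : 𝔼 s, h.Jb p ω s ^ 2 = h.vb p ω := rfl
      push_cast
      linarith

theorem drop_le (hp : p.Ok) {n : ℕ} (hn : n ≤ p.l) (ω : h.X.Ω) :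
    avgW n (fun w => ind (h.DropEv p ω w)) ≤
      30 * (p.V * p.κ ^ 2 + 2 * p.nb * p.κ * p.e0) / (p.ε ^ 2 * p.κ * √p.A) := by
  refine (avgW_congr fun w hw => ?_).trans_le ((SM_drop hp (Hs_sub_le hp (h.z ω)) p.nb ω n 0 hn
    (mul_nonneg hp.hV.le (sq_nonneg _))).trans_eq (by ring))
  simp only [DropEv, hw, zero_add]

end Ht

end Pool.Agent.Work.MP_01d39a_al.Ct
end

-- merged part: Pool.Agent.Work.MP_01d39a_al.Ct.B5
section
/-!
TASK CT B5. The density lemma and G5, G7, G12.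
dens_top: `Al.arms` bounds the integrand by `F (st i) (rv (take i)) (drop i)` with `F ω u v = φ ω * ind (Arm ω u) * ind (Arm ω v)`;
`int_two`, `integral_avgW`, `arm_le` twice. b5, b7: Markov for fixed `w`, then `avgW_sum`, `dens_top` with `φ = 1`, resp.
`φ = vb * ind (Mv < vb) ≤ v²/Mv` (`v²` is integrable by `l4` and Jensen). b12: union over `i`, `ann_two`; a bad initial word is a
word event (`avgW_rv`, `rv_rv`), keep only the other arm; `Le ≤ i` and `Le ≤ l - i` by `Al.arms`.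
-/

open MeasureTheory ProbabilityTheory Filter Topology
open scoped BigOperators ENNReal NNReal

namespace Pool.Agent.Work.MP_01d39a_al.Ct

variable {G : Type} [Group G]

variable {σ : Type} [Fintype σ] [Nonempty σ] {h : Ht G σ} {p : Par} {ι : σ → σ} {C x₀ : ℝ}

theorem B5_int_mul {Ω : Type} [MeasurableSpace Ω] {P : Measure Ω} {E : Ω → Prop}
    (hE : MeasurableSet {ω | E ω}) {φ : Ω → ℝ} (hφ : Integrable φ P) :
    Integrable (fun ω => ind (E ω) * φ ω) P :=
  hφ.bdd_mul (c := 1) (measurable_ind hE).aestronglyMeasurable (Eventually.of_forall fun ω => by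
    rw [Real.norm_of_nonneg (ind_nonneg _)]
    exact ind_le_one _)

theorem B5_int_st (X : Sys G) {φ : X.Ω → ℝ} (hφ : Integrable φ X.P) (x : G) :
    Integrable (fun ω => φ (X.mv ω x)) X.P :=
  (X.mp x).integrable_comp_of_integrable hφ

namespace Ht

theorem B5_arm (hp : p.Ok) (hz : Measurable h.z) {φ : h.X.Ω → ℝ}
    (hφ : Integrable φ h.X.P) (h0 : ∀ ω, 0 ≤ φ ω) {n : ℕ} (hn : n ≤ p.l) :
    avgW n (fun v => ∫ ω, ind (h.Arm p ω v) * φ ω ∂h.X.P) ≤ p.B * ∫ ω, φ ω ∂h.X.P := by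
  have hI : ∀ w : List σ, w.length = n →
      Integrable (fun ω => ind (h.Arm p ω w) * φ ω) h.X.P := fun w _ =>
    B5_int_mul (ms_Arm hz w) hφ
  rw [← integral_avgW (F := fun ω v => ind (h.Arm p ω v) * φ ω) hI, ← integral_const_mul]
  refine integral_mono (integrable_avgW (F := fun ω v => ind (h.Arm p ω v) * φ ω) hI)
    (hφ.const_mul _) fun ω => ?_
  dsimp only
  rw [avgW_mul_right]
  exact mul_le_mul_of_nonneg_right (arm_le hp hn ω) (h0 ω)

theorem B5_arm1 (hp : p.Ok) (hz : Measurable h.z) {n : ℕ} (hn : n ≤ p.l) :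
    avgW n (fun v => h.X.P.real {ω | h.Arm p ω v}) ≤ p.B := by
  have h1 := B5_arm hp hz (φ := fun _ => 1) (integrable_const _) (fun _ => zero_le_one) hn
  simp only [mul_one, integral_const, probReal_univ, smul_eq_mul] at h1
  refine le_of_eq_of_le (avgW_congr fun w _ => ?_) h1
  rw [integral_ind _ (ms_Arm hz w)]

theorem dens_top (hp : p.Ok) (hι : Inv h.g ι) (hz : Measurable h.z) {φ : h.X.Ω → ℝ}
    (hφ : Integrable φ h.X.P) (h0 : ∀ ω, 0 ≤ φ ω) {i : ℕ} (hi : i ≤ p.l) :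
    avgW p.l (fun w => ∫ ω, ind (h.Al p ω w ∧ h.Top p ω w i) * φ (h.st ω w i) ∂h.X.P) ≤
      p.B ^ 2 * ∫ ω, φ ω ∂h.X.P := by
  obtain ⟨t, ht⟩ := Nat.exists_eq_add_of_le hi
  have hI : ∀ u v : List σ,
      Integrable (fun ω => ind (h.Arm p ω v) * (ind (h.Arm p ω u) * φ ω)) h.X.P := fun u v =>
    B5_int_mul (ms_Arm hz v) (B5_int_mul (ms_Arm hz u) hφ)
  have h2 := int_two h.X hι i t fun ω u v => ind (h.Arm p ω v) * (ind (h.Arm p ω u) * φ ω)
  rw [← ht] at h2
  refine le_trans (avgW_mono fun w hw => ?_) (h2.le.trans ?_)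
  · refine integral_mono_of_nonneg (Eventually.of_forall fun ω =>
      mul_nonneg (ind_nonneg _) (h0 _)) (B5_int_st h.X (hI _ _) _) (Eventually.of_forall fun ω => ?_)
    dsimp only
    rw [← mul_assoc, ← ind_and]
    refine mul_le_mul_of_nonneg_right (ind_mono fun hh => ?_) (h0 _)
    exact (Al.arms hp hι hw hh.1 hi hh.2).2.2.2
  · refine le_trans (avgW_mono fun u _ => B5_arm hp hz (B5_int_mul (ms_Arm hz u) hφ)
      (fun ω => mul_nonneg (ind_nonneg _) (h0 _)) (by omega)) ?_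
    rw [avgW_mul_left, sq, mul_assoc]
    exact mul_le_mul_of_nonneg_left (B5_arm hp hz hφ h0 hi) (B_nonneg hp)

theorem B5_markov (hp : p.Ok) (hι : Inv h.g ι) (hz : Measurable h.z) {φ : h.X.Ω → ℝ}
    (hφ : Integrable φ h.X.P) (h0 : ∀ ω, 0 ≤ φ ω) {t : ℝ} (ht : 0 < t) :
    h.X.ann p.l (fun ω w => h.Al p ω w ∧ t < ∑ i ∈ Finset.range (p.l + 1),
      ind (h.Top p ω w i) * φ (h.st ω w i)) ≤ (p.l + 1) * p.B ^ 2 * (∫ ω, φ ω ∂h.X.P) / t := by
  have hI : ∀ (w : List σ) (i : ℕ),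
      Integrable (fun ω => ind (h.Al p ω w ∧ h.Top p ω w i) * φ (h.st ω w i)) h.X.P := fun w i =>
    B5_int_mul ((ms_Al hz w).inter (ms_Top hz w i)) (B5_int_st h.X hφ _)
  rw [le_div_iff₀ ht, Sys.ann, ← avgW_mul_right]
  calc _ ≤ avgW p.l fun w => ∑ i ∈ Finset.range (p.l + 1),
        ∫ ω, ind (h.Al p ω w ∧ h.Top p ω w i) * φ (h.st ω w i) ∂h.X.P := by
        refine avgW_mono fun w _ => ?_
        rw [← integral_finsetSum _ fun i _ => hI w i, mul_comm]
        refine le_trans (mul_le_mul_of_nonneg_left (measureReal_mono fun ω hω => ?_) ht.le)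
          (mul_meas_ge_le_integral_of_nonneg (Eventually.of_forall fun ω =>
            Finset.sum_nonneg fun i _ => mul_nonneg (ind_nonneg _) (h0 _))
            (integrable_finsetSum _ fun i _ => hI w i) t)
        refine hω.2.le.trans (le_of_eq (Finset.sum_congr rfl fun i _ => ?_))
        rw [ind_and, ind_pos hω.1, one_mul]
    _ ≤ ∑ _i ∈ Finset.range (p.l + 1), p.B ^ 2 * ∫ ω, φ ω ∂h.X.P := by
        rw [avgW_sum]
        exact Finset.sum_le_sum fun i hi =>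
          dens_top hp hι hz hφ h0 (Nat.lt_succ_iff.1 (Finset.mem_range.1 hi))
    _ = _ := by
        rw [Finset.sum_const, Finset.card_range, nsmul_eq_mul]
        push_cast
        ring

theorem b5 (hp : p.Ok) (hι : Inv h.g ι) (hz : Measurable h.z) :
    h.X.ann p.l (fun ω w => h.Al p ω w ∧ p.m < cnt p.l (h.Top p ω w)) ≤
      (p.l + 1) * p.B ^ 2 / p.m := by
  have h1 := B5_markov hp hι hz (φ := fun _ => 1) (integrable_const _) (fun _ => zero_le_one) hp.hm
  simp only [mul_one, integral_const, probReal_univ, smul_eq_mul] at h1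
  exact h1

theorem B5_v2 {κ : ℝ} (hM : h.Mom C x₀ κ) : Integrable (fun ω => h.v ω ^ 2) h.X.P := by
  have h1 : ∀ s, Integrable (fun ω => h.J ω s ^ 4) h.X.P := fun s => by
    have h2 := MemLp.integrable_norm_pow (p := 4) (by exact_mod_cast hM.l4 s) (by norm_num)
    refine h2.congr (Eventually.of_forall fun ω => ?_)
    dsimp only
    rw [Real.norm_eq_abs, Even.pow_abs (by decide)]
  refine (integrable_expect (F := fun ω s => h.J ω s ^ 4) h1).mono'
    ((meas_v hM.meas).pow_const 2).aestronglyMeasurable (Eventually.of_forall fun ω => ?_)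
  rw [Real.norm_of_nonneg (sq_nonneg _)]
  have h3 := Finset.expect_mul_sq_le_sq_mul_sq Finset.univ (fun s => h.J ω s ^ 2) fun _ => (1 : ℝ)
  simp only [mul_one, one_pow, Fintype.expect_const, ← pow_mul] at h3
  exact h3

theorem b7 (hp : p.Ok) (hι : Inv h.g ι) {κ : ℝ} (hM : h.Mom C x₀ κ) :
    h.X.ann p.l (fun ω w => h.Al p ω w ∧ p.V * p.κ ^ 2 / 2 < ∑ i ∈ Finset.range (p.l + 1),
      ind (h.Top p ω w i) * (h.vb p (h.st ω w i) * ind (p.Mv < h.vb p (h.st ω w i)))) ≤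
      (p.l + 1) * p.B ^ 2 * (C / p.Mv) / (p.V * p.κ ^ 2 / 2) := by
  have hz := hM.meas
  have hκ : 0 < p.κ := by linarith [hp.hκ]
  have hV := hp.hV
  have hMv := hp.hMv
  have ht : 0 < p.V * p.κ ^ 2 / 2 := by positivity
  have h0 : ∀ ω, 0 ≤ h.vb p ω * ind (p.Mv < h.vb p ω) := fun ω =>
    mul_nonneg (vb_nonneg ω) (ind_nonneg _)
  have hle : ∀ ω, h.vb p ω * ind (p.Mv < h.vb p ω) ≤ h.v ω ^ 2 / p.Mv := fun ω => by
    by_cases hω : p.Mv < h.vb p ω
    · rw [ind_pos hω, mul_one, le_div_iff₀ hMv]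
      have := vb_le_v (p := p) ω
      nlinarith
    · rw [ind_neg hω, mul_zero]
      positivity
  have hI : Integrable (fun ω => h.vb p ω * ind (p.Mv < h.vb p ω)) h.X.P :=
    ((B5_v2 hM).div_const p.Mv).mono' ((meas_vb hz).mul (measurable_ind
      (measurableSet_lt measurable_const (meas_vb hz)))).aestronglyMeasurable
      (Eventually.of_forall fun ω => by rw [Real.norm_of_nonneg (h0 ω)]; exact hle ω)
  refine (B5_markov hp hι hz hI h0 ht).trans ?_
  have h1 : ∫ ω, h.vb p ω * ind (p.Mv < h.vb p ω) ∂h.X.P ≤ C / p.Mv := by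
    refine (integral_mono hI ((B5_v2 hM).div_const p.Mv) hle).trans ?_
    rw [integral_div]
    exact div_le_div_of_nonneg_right hM.v2 hMv.le
  gcongr

theorem b12 (hp : p.Ok) (hι : Inv h.g ι) (hz : Measurable h.z) {BF BB : List σ → Prop} {β : ℝ}
    (hF : ∀ n, p.Le ≤ n → n ≤ p.l → avgW n (fun w => ind (BF w)) ≤ β)
    (hB : ∀ n, p.Le ≤ n → n ≤ p.l → avgW n (fun w => ind (BB w)) ≤ β) :
    h.X.ann p.l (fun ω w => h.Al p ω w ∧ ∃ i ≤ p.l, h.Top p ω w i ∧
      (BF (w.take i) ∨ BB (w.drop i))) ≤ 2 * (p.l + 1) * β * p.B := by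
  have hB0 := B_nonneg hp
  have hβ : 0 ≤ β := by
    have h1 := hp.hL1
    have h2 := hp.hl
    exact (avgW_nonneg fun w _ => ind_nonneg _).trans (hF p.Le le_rfl (by omega))
  have key : ∀ i ≤ p.l, h.X.ann p.l (fun ω w => h.Al p ω w ∧ h.Top p ω w i ∧
      (BF (w.take i) ∨ BB (w.drop i))) ≤ 2 * β * p.B := by
    intro i hi
    by_cases hm : 2 * p.Le ≤ i ∧ i + 2 * p.Le ≤ p.l
    · obtain ⟨t, ht⟩ := Nat.exists_eq_add_of_le hi
      have h2 := ann_two h.X hι i t fun ω u v =>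
        (BF (rv ι u) ∧ h.Arm p ω v) ∨ (BB v ∧ h.Arm p ω u)
      rw [← ht] at h2
      refine le_trans (ann_mono h.X fun ω w hw hh => ?_) (h2.le.trans ?_)
      · have h3 := (Al.arms hp hι hw hh.1 hi hh.2.1).2.2.2
        rw [rv_rv hι]
        exact hh.2.2.imp (fun hb => ⟨hb, h3.1⟩) fun hb => ⟨hb, h3.2⟩
      · have h4 : ∀ (q : Prop) (u : List σ), h.X.P.real {ω | q ∧ h.Arm p ω u} =
            ind q * h.X.P.real {ω | h.Arm p ω u} := fun q u => by
          by_cases hq : q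
          · simp [hq, ind]
          · simp [hq, ind]
        have h5 : avgW i (fun u => ind (BF (rv ι u))) ≤ β := by
          rw [avgW_rv hι i fun u => ind (BF u)]
          exact hF i (by omega) hi
        calc _ ≤ avgW i fun u => avgW t fun v =>
              ind (BF (rv ι u)) * h.X.P.real {ω | h.Arm p ω v} +
                ind (BB v) * h.X.P.real {ω | h.Arm p ω u} := by
              refine avgW_mono fun u _ => avgW_mono fun v _ => ?_
              rw [← h4, ← h4]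
              exact measureReal_union_le _ _
          _ ≤ avgW i fun u => ind (BF (rv ι u)) * p.B + β * h.X.P.real {ω | h.Arm p ω u} := by
              refine avgW_mono fun u _ => ?_
              rw [avgW_add, avgW_mul_left, avgW_mul_right]
              exact add_le_add (mul_le_mul_of_nonneg_left (B5_arm1 hp hz (by omega)) (ind_nonneg _))
                (mul_le_mul_of_nonneg_right (hB t (by omega) (by omega)) measureReal_nonneg)
          _ ≤ β * p.B + β * p.B := by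
              rw [avgW_add, avgW_mul_left, avgW_mul_right]
              exact add_le_add (mul_le_mul_of_nonneg_right h5 hB0)
                (mul_le_mul_of_nonneg_left (B5_arm1 hp hz hi) hβ)
          _ = _ := by ring
    · refine le_trans (avgW_le (r := 0) fun w hw => ?_) (by positivity)
      have : {ω | h.Al p ω w ∧ h.Top p ω w i ∧ (BF (w.take i) ∨ BB (w.drop i))} = ∅ := by
        refine Set.eq_empty_of_forall_notMem fun ω hω => hm ?_
        have h3 := Al.arms hp hι hw hω.1 hi hω.2.1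
        exact ⟨h3.1, h3.2.1⟩
      rw [this, measureReal_empty]
  calc _ ≤ h.X.ann p.l (fun ω w => ∃ i ∈ Finset.range (p.l + 1), h.Al p ω w ∧ h.Top p ω w i ∧
        (BF (w.take i) ∨ BB (w.drop i))) := by
        refine ann_mono h.X fun ω w _ hh => ?_
        obtain ⟨ha, i, hi, h1⟩ := hh
        exact ⟨i, Finset.mem_range.2 (Nat.lt_succ_of_le hi), ha, h1⟩
    _ ≤ ∑ _i ∈ Finset.range (p.l + 1), 2 * β * p.B :=
        (ann_exists_le h.X _ _ _).trans (Finset.sum_le_sum fun i hi =>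
          key i (Nat.lt_succ_iff.1 (Finset.mem_range.1 hi)))
    _ = _ := by
        rw [Finset.sum_const, Finset.card_range, nsmul_eq_mul]
        push_cast
        ring

end Ht

end Pool.Agent.Work.MP_01d39a_al.Ct
end

-- merged part: Pool.Agent.Work.MP_01d39a_al.Ct.Tl
section
/-!
TASK CT Tl. Annealed free survival (T of section 3).
`P s := ann s Fs` is antitone in `s` (`avgW_take`). Reversal (`ann_rv`, `st_rv_take`, `Mx_rv`): `P s` is the annealed
probability of `safe (end point) ∧ W ≤ κ` for words of length `s`. Huber function `ψ x = x²/2` for `|x| ≤ 2κ`,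
`2κ|x| - 2κ²` otherwise, `ψ' x = max (-2κ) (min x (2κ))`. Pointwise, for `W ≥ 0`:
`ψ (max (W - J) 0) ≥ ψ W - ψ' W * J + (J²/2) ind (W ≤ κ ∧ |J| ≤ κ) - 2κ max (J - W) 0`, and `max (J - W) 0` is the increment
of `Mx`. Average over the last step, integrate, telescope over `s < u`:
`(η1/2) ∑_{s<u} P s ≤ 2κ (E W_u + u √x₀ + E (Mx_u - z))`; `W_le`, `Mx_le`, `int_abs_dr`.
-/

open MeasureTheory ProbabilityTheory Filter Topology
open scoped BigOperators ENNReal NNReal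

namespace Pool.Agent.Work.MP_01d39a_al.Ct

variable {G : Type} [Group G]

variable {σ : Type} [Fintype σ] [Nonempty σ] {h : Ht G σ} {p : Par} {ι : σ → σ} {C x₀ : ℝ}

namespace Ht

/-- The Huber function on the half line. -/
noncomputable def Tl_psi (k x : ℝ) : ℝ := min x (2 * k) * x - min x (2 * k) ^ 2 / 2

theorem Tl_psi_ge {k x c : ℝ} (h1 : c ≤ 2 * k) : c * x - c ^ 2 / 2 ≤ Tl_psi k x := by
  rw [Tl_psi]
  rcases le_total x (2 * k) with e | e
  · rw [min_eq_left e]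
    nlinarith [sq_nonneg (x - c)]
  · rw [min_eq_right e]
    nlinarith [mul_nonneg (sub_nonneg.2 h1) (sub_nonneg.2 e), sq_nonneg (2 * k - c)]

theorem Tl_psi_nonneg {k : ℝ} (hk : 0 ≤ k) (x : ℝ) : 0 ≤ Tl_psi k x := by
  simpa using Tl_psi_ge (k := k) (x := x) (c := 0) (by linarith)

theorem Tl_psi_le {k x : ℝ} (hx : 0 ≤ x) : Tl_psi k x ≤ 2 * k * x := by
  have := mul_le_mul_of_nonneg_right (min_le_right x (2 * k)) hx
  rw [Tl_psi]
  nlinarith [sq_nonneg (min x (2 * k))]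

theorem Tl_step {k x J : ℝ} (hk : 0 ≤ k) (hx : 0 ≤ x) :
    Tl_psi k x - min x (2 * k) * J + ind (x ≤ k) / 2 * (if |J| ≤ k then J ^ 2 else 0) ≤
      Tl_psi k (max (x - J) 0) + 2 * k * max (J - x) 0 := by
  have h0 : 0 ≤ max (J - x) 0 := le_max_right _ _
  have h1 : max (x - J) 0 = x - J + max (J - x) 0 := by
    rcases le_total x J with e | e
    · rw [max_eq_right (sub_nonpos.2 e), max_eq_left (sub_nonneg.2 e)]
      ring
    · rw [max_eq_left (sub_nonneg.2 e), max_eq_right (sub_nonpos.2 e), add_zero]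
  by_cases e : x ≤ k ∧ |J| ≤ k
  · obtain ⟨h3, h4⟩ := abs_le.1 e.2
    rw [ind_pos e.1, if_pos e.2, Tl_psi, min_eq_left (by linarith [e.1])]
    rcases le_total x J with e' | e'
    · have := Tl_psi_nonneg hk (max (x - J) 0)
      rw [max_eq_left (sub_nonneg.2 e')]
      nlinarith [mul_nonneg (sub_nonneg.2 e') (show 0 ≤ 4 * k - (J - x) by linarith)]
    · have := Tl_psi_ge (k := k) (x := x - J) (c := x - J) (by linarith [e.1])
      rw [max_eq_left (sub_nonneg.2 e'), max_eq_right (sub_nonpos.2 e')]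
      nlinarith
  · have h2 : ind (x ≤ k) / 2 * (if |J| ≤ k then J ^ 2 else 0) = 0 := by
      by_cases e' : x ≤ k
      · rw [if_neg fun h => e ⟨e', h⟩, mul_zero]
      · rw [ind_neg e', zero_div, zero_mul]
    have h3 := Tl_psi_ge (k := k) (x := max (x - J) 0) (min_le_right x (2 * k))
    have h4 : 0 ≤ min x (2 * k) := le_min hx (by linarith)
    rw [h2, Tl_psi]
    conv_lhs at h3 => rw [h1]
    nlinarith [mul_nonneg h4 h0, mul_nonneg hk h0]

/-- The potential. -/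
noncomputable def Tl_phi (h : Ht G σ) (p : Par) (ω : h.X.Ω) (w : List σ) : ℝ :=
  Tl_psi p.κ (h.W ω w) + 2 * p.κ * (h.Mx ω w - h.z ω)

theorem Tl_point (hp : p.Ok) (ω : h.X.Ω) (w : List σ) :
    Tl_phi h p ω w - 2 * p.κ * |h.dr (h.X.mv ω (pw h.g w))| +
      p.η1 / 2 * ind (h.safe p (h.X.mv ω (pw h.g w)) ∧ h.W ω w ≤ p.κ) ≤
      𝔼 s, Tl_phi h p ω (w ++ [s]) := by
  have hk : 0 ≤ p.κ := by linarith [hp.hκ]
  have hW := W_nonneg (h := h) ω w
  have e0 : h.st ω w w.length = h.X.mv ω (pw h.g w) := st_length _ _ _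
  generalize hy : h.X.mv ω (pw h.g w) = y at e0
  have h1 : ∀ s, Tl_phi h p ω w - min (h.W ω w) (2 * p.κ) * h.J y s + ind (h.W ω w ≤ p.κ) / 2 *
      (if |h.J y s| ≤ p.κ then h.J y s ^ 2 else 0) ≤ Tl_phi h p ω (w ++ [s]) := fun s => by
    have e1 := Mx_snoc (h := h) ω w s
    have e2 : h.z (h.st ω (w ++ [s]) (w ++ [s]).length) = h.z y + h.J y s := by
      rw [J, Ht.st, st_length, pw_append, pw_cons, pw_nil, mul_one, ← h.X.mv_mul, hy]
      ring
    have e3 : h.W ω w = h.Mx ω w - h.z y := by rw [W, e0]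
    rw [e0] at e1
    have e4 : h.W ω (w ++ [s]) = max (h.W ω w - h.J y s) 0 := by
      rw [W, e1, e2, e3, ← max_sub_sub_right, sub_self, sub_sub]
    have e5 : h.Mx ω (w ++ [s]) = h.Mx ω w + max (h.J y s - h.W ω w) 0 := by
      rw [e1, e3, ← max_add_add_left, add_zero, max_comm]
      congr 1
      ring
    have := Tl_step (J := h.J y s) hk hW
    rw [Tl_phi, Tl_phi, e4, e5]
    linarith
  refine le_trans ?_ (Finset.expect_le_expect fun s _ => h1 s)
  rw [Finset.expect_add_distrib, Finset.expect_sub_distrib, Fintype.expect_const,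
    ← Finset.mul_expect, ← Finset.mul_expect]
  change _ ≤ _ - _ * h.dr y + _ * h.vk p y
  have h2 : min (h.W ω w) (2 * p.κ) * h.dr y ≤ 2 * p.κ * |h.dr y| :=
    (mul_le_mul_of_nonneg_left (le_abs_self _) (le_min hW (by linarith))).trans
      (mul_le_mul_of_nonneg_right (min_le_right _ _) (abs_nonneg _))
  have h3 : p.η1 / 2 * ind (h.safe p y ∧ h.W ω w ≤ p.κ) ≤ ind (h.W ω w ≤ p.κ) / 2 * h.vk p y := by
    by_cases e : h.safe p y ∧ h.W ω w ≤ p.κ
    · rw [ind_pos e, ind_pos e.2]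
      linarith [e.1.1]
    · rw [ind_neg e, mul_zero]
      refine mul_nonneg (div_nonneg (ind_nonneg _) zero_le_two) (Finset.expect_nonneg fun s _ => ?_)
      split_ifs
      exacts [sq_nonneg _, le_rfl]
  linarith

theorem Tl_intW {κ : ℝ} (hM : h.Mom C x₀ κ) (w : List σ) : Integrable (fun ω => h.W ω w) h.X.P :=
  (memLp_W hM w).integrable one_le_two

theorem Tl_int (hp : p.Ok) {κ : ℝ} (hM : h.Mom C x₀ κ) (w : List σ) :
    Integrable (fun ω => Tl_phi h p ω w) h.X.P := by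
  refine Integrable.add ?_ ((integrable_Mx hM w).const_mul _)
  refine ((Tl_intW hM w).const_mul (2 * p.κ)).mono' ?_ (ae_of_all _ fun ω => ?_)
  · have := meas_W hM.meas w
    refine Measurable.aestronglyMeasurable ?_
    unfold Tl_psi
    fun_prop
  · rw [Real.norm_of_nonneg (Tl_psi_nonneg (by linarith [hp.hκ]) _)]
    exact Tl_psi_le (W_nonneg ω w)

theorem Tl_anti {n u : ℕ} (hn : n ≤ u) : h.X.ann u (h.Fs p) ≤ h.X.ann n (h.Fs p) := by
  refine (ann_mono h.X (E' := fun ω w => h.Fs p ω (w.take n)) fun ω w _ e =>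
    ⟨e.1, fun i hi => ?_⟩).trans (avgW_take hn fun w => h.X.P.real {ω | h.Fs p ω w}).le
  rw [List.length_take, le_min_iff] at hi
  rw [Ht.st, st_take _ _ _ hi.1]
  exact e.2 i hi.2

theorem Tl_rec (hp : p.Ok) (hι : Inv h.g ι) {κ : ℝ} (hM : h.Mom C x₀ κ) (n : ℕ) :
    avgW n (fun w => ∫ ω, Tl_phi h p ω w ∂h.X.P) - 2 * p.κ * √x₀ + p.η1 / 2 * h.X.ann n (h.Fs p) ≤
      avgW (n + 1) fun w => ∫ ω, Tl_phi h p ω w ∂h.X.P := by
  have h1 : h.X.ann n (h.Fs p) ≤
      h.X.ann n fun ω w => h.safe p (h.X.mv ω (pw h.g w)) ∧ h.W ω w ≤ p.κ := by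
    rw [← ann_rv h.X hι]
    refine ann_mono h.X fun ω w _ e => ⟨e.1, ?_⟩
    obtain ⟨i, hi, e'⟩ := exists_Mx (h := h) (h.X.mv ω (pw h.g w)) (rv ι w)
    rw [W, ← Mx_rv hι, ← e', Ht.st, Ht.st, st_length]
    exact sub_le_iff_le_add'.2 (e.2 i hi)
  refine le_trans (add_le_add le_rfl (mul_le_mul_of_nonneg_left h1 (half_pos hp.hη).le)) ?_
  rw [avgW_snoc, Sys.ann, ← avgW_mul_left, ← avgW_const (σ := σ) n (2 * p.κ * √x₀), ← avgW_sub,
    ← avgW_add]
  refine avgW_mono fun w _ => ?_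
  have h2 : MeasurableSet {ω | h.safe p (h.X.mv ω (pw h.g w)) ∧ h.W ω w ≤ p.κ} :=
    ((ms_safe hM.meas).preimage (h.X.meas_mv _)).inter
      (measurableSet_le (meas_W hM.meas w) measurable_const)
  have h3 : Integrable (fun ω => |h.dr (h.X.mv ω (pw h.g w))|) h.X.P :=
    (h.X.mp _).integrable_comp_of_integrable (int_abs_dr hM).1.abs
  have h4 := (Tl_int hp hM w).sub (h3.const_mul (2 * p.κ))
  have h5 := (integrable_ind h.X.P h2).const_mul (p.η1 / 2)
  have h6 := integral_mono (h4.add h5) (integrable_expect fun s => Tl_int hp hM (w ++ [s]))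
    fun ω => Tl_point hp ω w
  rw [integral_expect fun s => Tl_int hp hM (w ++ [s]), integral_add' h4 h5,
    integral_sub' (Tl_int hp hM w) (h3.const_mul _), integral_const_mul, integral_const_mul,
    integral_ind _ h2, h.X.int_mv _ fun ω => |h.dr ω|] at h6
  have h7 := mul_le_mul_of_nonneg_left (int_abs_dr hM).2 (show 0 ≤ 2 * p.κ by linarith [hp.hκ])
  linarith

theorem fs_le (hp : p.Ok) (hι : Inv h.g ι) {κ : ℝ} (hM : h.Mom C x₀ κ) {u : ℕ} (hu : 1 ≤ u)
    (hx : u * x₀ ≤ 1) : h.X.ann u (h.Fs p) ≤ 32 * p.κ / (p.η1 * √u) := by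
  have hk : 0 ≤ p.κ := by linarith [hp.hκ]
  have h1 : ∀ n ≤ u, n * (p.η1 / 2 * h.X.ann u (h.Fs p) - 2 * p.κ * √x₀) ≤
      avgW n fun w => ∫ ω, Tl_phi h p ω w ∂h.X.P := by
    intro n hn
    induction n with
    | zero =>
      rw [Nat.cast_zero, zero_mul, avgW_zero]
      refine integral_nonneg fun ω => add_nonneg (Tl_psi_nonneg hk _) (le_of_eq ?_)
      rw [Mx_nil, sub_self, mul_zero]
    | succ n ih =>
      have h2 := Tl_rec hp hι hM n
      have h3 := mul_le_mul_of_nonneg_left (Tl_anti (h := h) (p := p) (Nat.le_of_succ_le hn))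
        (half_pos hp.hη).le
      have h4 := ih (Nat.le_of_succ_le hn)
      push_cast
      linarith
  have h2 : avgW u (fun w => ∫ ω, Tl_phi h p ω w ∂h.X.P) ≤ 2 * p.κ * (√(6 * u) + 4 * √u) := by
    refine le_trans ?_ (mul_le_mul_of_nonneg_left (add_le_add (W_le hM hx) (Mx_le hM hx))
      (by linarith))
    rw [← avgW_add, ← avgW_mul_left]
    refine avgW_mono fun w _ => ?_
    rw [← integral_add (Tl_intW hM w) (integrable_Mx hM w), ← integral_const_mul]
    refine integral_mono (Tl_int hp hM w) (((Tl_intW hM w).add (integrable_Mx hM w)).const_mul _)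
      fun ω => ?_
    have := Tl_psi_le (k := p.κ) (W_nonneg (h := h) ω w)
    simp only [Tl_phi]
    linarith
  have h3 := (h1 u le_rfl).trans h2
  have h4 : 0 < √(u : ℝ) := Real.sqrt_pos.2 (by exact_mod_cast hu)
  have h5 : √(u : ℝ) * √u = u := Real.mul_self_sqrt (Nat.cast_nonneg u)
  have h6 : √(u : ℝ) * √x₀ ≤ 1 := by
    rw [← Real.sqrt_mul (Nat.cast_nonneg u)]
    exact Real.sqrt_le_one.2 hx
  have h7 : √(6 * u : ℝ) ≤ 3 * √u := Real.sqrt_le_iff.2 ⟨by positivity, by nlinarith⟩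
  rw [le_div_iff₀ (mul_pos hp.hη h4)]
  refine le_of_mul_le_mul_right ?_ h4
  generalize √(u : ℝ) = r at *
  rw [← h5] at h3 h7
  nlinarith [mul_le_mul_of_nonneg_left h6 (mul_nonneg hk h4.le), mul_le_mul_of_nonneg_left h7 hk]

end Ht

end Pool.Agent.Work.MP_01d39a_al.Ct
end

-- merged part: Pool.Agent.Work.MP_01d39a_al.Ct.B8
section
/-!
TASK CT B8. Crossing times (G8, G9) and far returns (G10).
b8: for each `t`, `avgW_split` at `t` (`Cross ω w t` depends on `take t w`, `st t` too) gives, for fixed `ω`,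
`avgW l (ind (Cross t ∧ E)) ≤ Θ avgW l (ind (Cross t))`; pathwise `∑_{t=1}^l ind (Cross t) ≤ (Mx w - z ω)/κ + 1`
(telescoping of integers, `Mx_take_mono`); `ann_eq`, `Mx_le`.
b10: union over `i`; `ann_two` at `i`: backward arm `Arm` (`arm_le`); forward word `v ++ u` with `|v| = ρ`: `Fs ω v` and the
event of `sm_le` at the site `mv ω (pw v)` with level `Hs (z ω)` (`Al.arms`, `top_iff`, `Alive.drop`, `QV_drop`, `QV_mono`);
then `fs_le`.
-/

open MeasureTheory ProbabilityTheory Filter Topology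
open scoped BigOperators ENNReal NNReal

namespace Pool.Agent.Work.MP_01d39a_al.Ct

theorem B8_tele {a : ℕ → ℤ} (ha : Monotone a) (n : ℕ) :
    ∑ t ∈ Finset.Icc 1 n, ind (a (t - 1) < a t) ≤ (a n : ℝ) - a 0 := by
  induction n with
  | zero => simp
  | succ n ih =>
    rw [Finset.sum_Icc_succ_top (by omega), Nat.add_sub_cancel]
    by_cases e : a n < a (n + 1)
    · have h1 : (a n : ℝ) + 1 ≤ a (n + 1) := by exact_mod_cast e
      rw [ind_pos e]
      linarith
    · have h1 : (a n : ℝ) ≤ a (n + 1) := by exact_mod_cast ha n.le_succ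
      rw [ind_neg e]
      linarith

variable {G : Type} [Group G]

variable {σ : Type} [Fintype σ] [Nonempty σ] {h : Ht G σ} {p : Par} {ι : σ → σ} {C x₀ : ℝ}

namespace Ht

theorem B8_cross (hp : p.Ok) (ω : h.X.Ω) (w : List σ) :
    ∑ t ∈ Finset.Icc 1 w.length, ind (h.Cross p ω w t) ≤ (h.Mx ω w - h.z ω) / p.κ + 1 := by
  have hκ : 0 < p.κ := by linarith [hp.hκ]
  refine (B8_tele (a := fun n => ⌊h.Mx ω (w.take n) / p.κ - p.ε⌋) (fun i j hij => Int.floor_mono
    (sub_le_sub_right (div_le_div_of_nonneg_right (Mx_take_mono ω w hij) hκ.le) _)) _).trans ?_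
  simp only [List.take_length, List.take_zero, Mx_nil]
  have h1 := Int.floor_le (h.Mx ω w / p.κ - p.ε)
  have h2 := Int.lt_floor_add_one (h.z ω / p.κ - p.ε)
  rw [sub_div]
  linarith

theorem B8_split {E : h.X.Ω → List σ → Prop} {Θ : ℝ}
    (hΘ : ∀ n ≤ p.l, ∀ ω, avgW n (fun w => ind (E ω w)) ≤ Θ) (ω : h.X.Ω) {t : ℕ} (ht : t ≤ p.l) :
    avgW p.l (fun w => ind (h.Cross p ω w t ∧ E (h.st ω w t) (w.drop t))) ≤
      avgW p.l fun w => Θ * ind (h.Cross p ω w t) := by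
  have h1 : ∀ w : List σ, h.Cross p ω (w.take t) t ↔ h.Cross p ω w t := fun w => by
    simp only [Cross, List.take_take, min_self, min_eq_left (Nat.sub_le t 1)]
  obtain ⟨m, hm⟩ := Nat.exists_eq_add_of_le ht
  rw [avgW_congr fun w _ => (ind_and _ _).trans (congrArg (· * _) (ind_congr (h1 w).symm)),
    avgW_congr fun w _ => congrArg (Θ * ·) (ind_congr (h1 w).symm),
    avgW_take ht fun u => Θ * ind (h.Cross p ω u t), hm]
  refine (avgW_split t m fun u v =>
    ind (h.Cross p ω u t) * ind (E (h.X.mv ω (pw h.g u)) v)).le.trans (avgW_mono fun u _ => ?_)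
  rw [avgW_mul_left, mul_comm]
  exact mul_le_mul_of_nonneg_right (hΘ m (by omega) _) (ind_nonneg _)

theorem b8 (hp : p.Ok) {κ : ℝ} (hM : h.Mom C x₀ κ) (hx : p.l * x₀ ≤ 1)
    {E : h.X.Ω → List σ → Prop} (hE : ∀ w, MeasurableSet {ω | E ω w}) {Θ : ℝ} (h0 : 0 ≤ Θ)
    (hΘ : ∀ n ≤ p.l, ∀ ω, avgW n (fun w => ind (E ω w)) ≤ Θ) :
    h.X.ann p.l (fun ω w => ∃ t, 1 ≤ t ∧ t ≤ p.l ∧ h.Cross p ω w t ∧ E (h.st ω w t) (w.drop t)) ≤
      (4 * √p.l / p.κ + 1) * Θ := by
  have hκ : 0 < p.κ := by linarith [hp.hκ]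
  have hm : ∀ w : List σ, MeasurableSet
      {ω | ∃ t, 1 ≤ t ∧ t ≤ p.l ∧ h.Cross p ω w t ∧ E (h.st ω w t) (w.drop t)} := fun w => by
    rw [Set.setOf_exists]
    exact MeasurableSet.iUnion fun t => (MeasurableSet.const _).inter
      ((MeasurableSet.const _).inter ((ms_Cross hM.meas w t).inter
        (measurable_st h.X w t (hE _))))
  have hi : ∀ w : List σ, Integrable (fun ω => Θ * ((h.Mx ω w - h.z ω) / p.κ + 1)) h.X.P :=
    fun w => (((integrable_Mx hM w).div_const _).add (integrable_const _)).const_mul _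
  rw [ann_eq _ hm]
  refine (integral_mono (integrable_avgW fun w _ => integrable_ind _ (hm w))
    (integrable_avgW (n := p.l) fun w _ => hi w) fun ω => ?_).trans ?_
  · calc _ ≤ avgW p.l fun w => ∑ t ∈ Finset.Icc 1 p.l,
            ind (h.Cross p ω w t ∧ E (h.st ω w t) (w.drop t)) :=
          avgW_mono fun w _ => (ind_mono fun ⟨t, h1, h2, h3⟩ =>
            ⟨t, Finset.mem_Icc.2 ⟨h1, h2⟩, h3⟩).trans (ind_exists_le _ _)
      _ ≤ avgW p.l fun w => ∑ t ∈ Finset.Icc 1 p.l, Θ * ind (h.Cross p ω w t) := by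
          rw [avgW_sum, avgW_sum]
          exact Finset.sum_le_sum fun t ht => B8_split hΘ ω (Finset.mem_Icc.1 ht).2
      _ ≤ _ := avgW_mono fun w hw => by
          rw [← Finset.mul_sum, ← hw]
          exact mul_le_mul_of_nonneg_left (B8_cross hp ω w) h0
  · rw [integral_avgW fun w _ => hi w]
    have h1 : ∀ w : List σ, ∫ ω, Θ * ((h.Mx ω w - h.z ω) / p.κ + 1) ∂h.X.P =
        ((∫ ω, (h.Mx ω w - h.z ω) ∂h.X.P) / p.κ + 1) * Θ := fun w => by
      rw [integral_const_mul, integral_add ((integrable_Mx hM w).div_const _) (integrable_const _),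
        integral_div, mul_comm]
      simp
    simp only [h1]
    rw [avgW_mul_right, avgW_add, avgW_div, avgW_const]
    have h2 := Mx_le hM hx
    gcongr

/-- The forward event of a far return. -/
def B8_Fw (h : Ht G σ) (p : Par) (m : ℕ) (ω : h.X.Ω) (x : List σ) : Prop :=
  h.Fs p ω (x.take p.ρ) ∧ h.Alive p (p.Hs (h.z ω)) ω x ∧ ∃ k ≤ m,
    p.Hs (h.z ω) - p.κ ≤ h.z (h.st ω x (p.ρ + k)) ∧ p.A ≤ h.QV p ω x (p.ρ + k) (p.ρ + m)

theorem B8_ms (hz : Measurable h.z) (m : ℕ) (x : List σ) :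
    MeasurableSet {ω | B8_Fw h p m ω x} := by
  have hH : Measurable fun ω => p.Hs (h.z ω) := (meas_Hs p).comp hz
  refine (ms_Fs hz _).inter ((ms_Alive hz hH x).inter ?_)
  change MeasurableSet {ω | ∃ k, _}
  rw [Set.setOf_exists]
  exact MeasurableSet.iUnion fun k => (MeasurableSet.const _).inter
    ((measurableSet_le (hH.sub_const _) (hz.comp (measurable_st h.X x _))).inter
      (measurableSet_le measurable_const (meas_QV hz x _ _)))

theorem B8_fw (hp : p.Ok) {m : ℕ} (hm : m ≤ p.l) (ω : h.X.Ω) :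
    avgW (p.ρ + m) (fun x => ind (B8_Fw h p m ω x)) ≤
      p.B * avgW p.ρ fun v => ind (h.Fs p ω v) := by
  rw [← avgW_mul_left]
  refine le_trans (avgW_mono fun x hx => ?_) ((avgW_split p.ρ m fun v u => ind (h.Fs p ω v) *
    ind (h.Alive p (p.Hs (h.z ω)) (h.X.mv ω (pw h.g v)) u ∧ ∃ k ≤ m,
      p.Hs (h.z ω) - p.κ ≤ h.z (h.st (h.X.mv ω (pw h.g v)) u k) ∧
        p.A ≤ h.QV p (h.X.mv ω (pw h.g v)) u k m)).le.trans (avgW_mono fun v _ => ?_))
  · rw [← ind_and]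
    refine ind_mono fun ⟨h1, h2, k, h3, h4, h5⟩ => ⟨h1, h2.drop (by omega), k, h3, ?_, ?_⟩
    · exact h4.trans (congrArg h.z (st_drop h.X ω x p.ρ k)).ge
    · exact h5.trans (QV_drop ω x p.ρ k m).ge
  · rw [avgW_mul_left, mul_comm]
    exact mul_le_mul_of_nonneg_right (sm_le hp hm _ _) (ind_nonneg _)

theorem B8_one (hp : p.Ok) (hι : Inv h.g ι) {κ : ℝ} (hM : h.Mom C x₀ κ) (hx : p.l * x₀ ≤ 1)
    {i m : ℕ} (hl : p.l = i + (p.ρ + m)) :
    h.X.ann p.l (fun ω w => h.Arm p (h.st ω w i) (rv ι (w.take i)) ∧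
      B8_Fw h p m (h.st ω w i) (w.drop i)) ≤ p.B ^ 2 * (32 * p.κ / (p.η1 * √p.ρ)) := by
  have hB := B_nonneg hp
  have hx0 : 0 ≤ x₀ := (integral_nonneg fun ω => sq_nonneg _).trans hM.drift
  have hρ : (p.ρ : ℝ) * x₀ ≤ 1 :=
    (mul_le_mul_of_nonneg_right (by exact_mod_cast (by omega : p.ρ ≤ p.l)) hx0).trans hx
  have hm : ∀ u x : List σ, MeasurableSet {ω | h.Arm p ω u ∧ B8_Fw h p m ω x} := fun u x =>
    (ms_Arm hM.meas u).inter (B8_ms hM.meas m x)
  have hi : ∀ u : List σ, Integrable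
      (fun ω => avgW (p.ρ + m) fun x => ind (h.Arm p ω u ∧ B8_Fw h p m ω x)) h.X.P :=
    fun u => integrable_avgW fun x _ => integrable_ind _ (hm u x)
  have hf : Integrable (fun ω => avgW p.ρ fun v => ind (h.Fs p ω v)) h.X.P :=
    integrable_avgW fun v _ => integrable_ind _ (ms_Fs hM.meas v)
  rw [hl]
  calc _ = avgW i fun u => h.X.ann (p.ρ + m) fun ω x => h.Arm p ω u ∧ B8_Fw h p m ω x :=
        ann_two h.X hι i (p.ρ + m) fun ω u x => h.Arm p ω u ∧ B8_Fw h p m ω x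
    _ = ∫ ω, (avgW i fun u => avgW (p.ρ + m) fun x =>
          ind (h.Arm p ω u ∧ B8_Fw h p m ω x)) ∂h.X.P := by
        rw [integral_avgW fun u _ => hi u]
        exact avgW_congr fun u _ => ann_eq _ (hm u)
    _ ≤ ∫ ω, p.B ^ 2 * (avgW p.ρ fun v => ind (h.Fs p ω v)) ∂h.X.P := by
        refine integral_mono (integrable_avgW fun u _ => hi u) (hf.const_mul _) fun ω => ?_
        simp only [ind_and, avgW_mul_left, avgW_mul_right]
        rw [sq, mul_assoc]
        exact mul_le_mul (arm_le hp (by omega) ω) (B8_fw hp (by omega) ω)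
          (avgW_nonneg fun _ _ => ind_nonneg _) hB
    _ ≤ _ := by
        rw [integral_const_mul, ← ann_eq _ fun v => ms_Fs hM.meas v]
        exact mul_le_mul_of_nonneg_left (fs_le hp hι hM hp.hρ1 hρ) (sq_nonneg _)

theorem b10 (hp : p.Ok) (hι : Inv h.g ι) {κ : ℝ} (hM : h.Mom C x₀ κ) (hx : p.l * x₀ ≤ 1) :
    h.X.ann p.l (fun ω w => h.Al p ω w ∧ ∃ i ≤ p.l, ∃ i' ≤ p.l, h.Top p ω w i ∧ h.Top p ω w i' ∧
      i + p.ρ < i') ≤ (p.l + 1) * p.B ^ 2 * (32 * p.κ / (p.η1 * √p.ρ)) := by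
  have hκ : 0 < p.κ := by linarith [hp.hκ]
  have hη := hp.hη
  refine (ann_mono h.X (E' := fun ω w => ∃ i ∈ Finset.range (p.l + 1), i + p.ρ ≤ p.l ∧
    h.Arm p (h.st ω w i) (rv ι (w.take i)) ∧
      B8_Fw h p (p.l - (i + p.ρ)) (h.st ω w i) (w.drop i)) ?_).trans
    ((ann_exists_le h.X _ _ _).trans ?_)
  · rintro ω w hw ⟨ha, i, hi, i', hi', ht, ht', hρ⟩
    obtain ⟨-, -, h1, -, h2⟩ := ha.arms hp hι hw hi ht
    obtain ⟨-, h3, -⟩ := ha.arms hp hι hw hi' ht'
    have h4 := ht.Hs_eq hp (hw ▸ hi)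
    have h5 := (top_iff hp ω w (hw ▸ hi)).1 ht
    have h6 := (top_iff hp ω w (hw ▸ hi')).1 ht'
    refine ⟨i, Finset.mem_range.2 (by omega), by omega, h2, ⟨h1, fun k hk => ?_⟩,
      h4 ▸ ha.1.drop (hw ▸ hi), i' - (i + p.ρ), by omega, ?_, ?_⟩
    · have h7 : k ≤ p.ρ := hk.trans (List.length_take_le _ _)
      have h8 := le_Mx (h := h) ω w (i := i + k) (by omega)
      have h9 := lt_Hs hp (h.Mx ω w)
      simp only [st] at h5 h8 ⊢
      rw [st_take h.X _ _ h7, st_drop]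
      linarith
    · simp only [st] at h4 h6 ⊢
      rw [h4, st_drop, show i + (p.ρ + (i' - (i + p.ρ))) = i' by omega]
      exact h6
    · rw [QV_drop]
      exact ha.2.2.1.trans (QV_mono ω w (by omega) (by omega))
  · refine (Finset.sum_le_card_nsmul _ _ (p.B ^ 2 * (32 * p.κ / (p.η1 * √p.ρ)))
      fun i _ => ?_).trans (le_of_eq ?_)
    · by_cases e : i + p.ρ ≤ p.l
      · exact (ann_mono h.X fun ω w _ hw => hw.2).trans (B8_one hp hι hM hx (by omega))
      · simp only [e, false_and, Sys.ann, Set.setOf_false, measureReal_empty, avgW_zero_fun]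
        positivity
    · rw [Finset.card_range, nsmul_eq_mul, Nat.cast_succ, mul_assoc]

end Ht

end Pool.Agent.Work.MP_01d39a_al.Ct
end

-- merged part: Pool.Agent.Work.MP_01d39a_al.Ct.Ld1
section
/-!
TASK CT Ld1. The edge view (d) and the four arm bound of (e) in section 3 (quenched).
Write a word of length `l` as `u₁ ++ s :: u₂` with `|u₁| = t - 1` (`avgW_append`, `avgW_succ`). Then
`base = pw u₁ * a^(ex s.1)`; from `ω' = mv ω base⁻¹` the site `t - 1` is `mv ω (a^(-ex s.1))` and, if `s` has the letter `γ`,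
the site `t` is `mv ω (γ a^(ex s.2.2))`. `Cnt` gives (`Al.arms` at `t - 1` and `t`) `Arm (site (t-1)) (rv u₁)` and
`Arm (site t) u₂`; `arm_le`, `avgW_rv`. For two times `t < t'` write `w = u₁ ++ s :: (v₁ ++ v₂ ++ v₃) ++ s' :: u₃` with
`|v₁| = |v₃| = u`: the first event gives `Arm (mv ω a^(-k)) (rv u₁)` and `Fs (mv ω (γ a^k')) v₁`, the second gives
`Fs (mv ω a^(-k)) (rv v₃)` and `Arm (mv ω (γ a^k')) u₃` (with the exponents of `s'`); a top site is safe and the path stays below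
`Hs ≤ z + κ`. Average over `s`, `s'` (`Finset.expect_product` for the three components of a step).
-/

open MeasureTheory ProbabilityTheory Filter Topology
open scoped BigOperators ENNReal NNReal

namespace Pool.Agent.Work.MP_01d39a_al.Ct

variable {G : Type} [Group G]

variable {c : Ctx G} {K : ℕ} {X : Sys G} {z : X.Ω → ℝ} {p : Par}

theorem Ld1_fst {α β : Type} [Fintype α] [Fintype β] [Nonempty β] (f : α → ℝ) :
    𝔼 x : α × β, f x.1 = 𝔼 a, f a := by
  rw [← Finset.univ_product_univ, Finset.expect_product]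
  exact Finset.expect_congr rfl fun a _ => Finset.expect_const Finset.univ_nonempty (f a)

theorem Ld1_snd {α β : Type} [Fintype α] [Fintype β] [Nonempty α] (f : β → ℝ) :
    𝔼 x : α × β, f x.2 = 𝔼 b, f b := by
  rw [← Finset.univ_product_univ, Finset.expect_product]
  exact Finset.expect_const Finset.univ_nonempty (𝔼 b, f b)

theorem Ld1_split {σ : Type} [Fintype σ] (n m : ℕ) (F : List σ → ℝ) :
    avgW (n + (m + 1)) F = avgW n fun u => 𝔼 s : σ, avgW m fun v => F (u ++ s :: v) := by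
  rw [avgW_append]
  rfl

theorem Ld1_base (u₁ u₂ : List (Step c K)) (s : Step c K) :
    c.base K (u₁ ++ s :: u₂) (u₁.length + 1) = pw (c.gs K) u₁ * c.a ^ ex K s.1 := by
  simp [Ctx.base]

theorem Ld1_fs (hp : p.Ok) {ω : X.Ω} {w : List (Step c K)} (h1 : (c.ht K X z).safe p ω)
    (h2 : (c.ht K X z).Arm p ω w) (u : ℕ) : (c.ht K X z).Fs p ω (w.take u) := by
  refine ⟨h1, fun i hi => ?_⟩
  rw [List.length_take] at hi
  have h3 := h2.1.1.2 i (hi.trans (min_le_right _ _))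
  have h4 := Ht.Hs_sub_le hp ((c.ht K X z).z ω)
  have h5 : (c.ht K X z).st ω (w.take u) i = (c.ht K X z).st ω w i :=
    st_take X ω w (hi.trans (min_le_left _ _))
  rw [h5]
  linarith

theorem Ld1_key (hp : p.Ok) {γ : c.S} {ω : X.Ω} {u₁ u₂ : List (Step c K)} {s : Step c K} {t : ℕ}
    (ht : t = u₁.length + 1) (hw : (u₁ ++ s :: u₂).length = p.l)
    (h : (c.ht K X z).Cnt p (c.Ty K γ) (X.mv ω (c.base K (u₁ ++ s :: u₂) t)⁻¹)
      (u₁ ++ s :: u₂) t) :
    ((c.ht K X z).safe p (X.mv ω (c.a ^ (-ex K s.1))) ∧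
      (c.ht K X z).Arm p (X.mv ω (c.a ^ (-ex K s.1))) (rv (c.is K) u₁)) ∧
    (c.ht K X z).safe p (X.mv ω (γ * c.a ^ ex K s.2.2)) ∧
      (c.ht K X z).Arm p (X.mv ω (γ * c.a ^ ex K s.2.2)) u₂ := by
  subst ht
  obtain ⟨-, h2, ⟨s', h3, h4⟩, h5, h6, h7, -⟩ := h
  rw [Ld1_base] at h5 h6 h7
  have hs : s' = s := by simpa using h3.symm
  subst hs
  rw [Nat.add_sub_cancel] at h5
  obtain ⟨-, -, a1, -, a2⟩ := Ht.Al.arms hp (c.inv K) hw h7 (Nat.le_of_succ_le h2) h5
  obtain ⟨-, -, a3, a4, -⟩ := Ht.Al.arms hp (c.inv K) hw h7 h2 h6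
  have e1 : (c.ht K X z).st (X.mv ω (pw (c.gs K) u₁ * c.a ^ ex K s'.1)⁻¹) (u₁ ++ s' :: u₂)
      u₁.length = X.mv ω (c.a ^ (-ex K s'.1)) := by
    show X.mv (X.mv ω _) (pw (c.gs K) ((u₁ ++ s' :: u₂).take u₁.length)) = _
    rw [List.take_left', X.mv_mul, mul_inv_rev, inv_mul_cancel_right, zpow_neg]
    rfl
  have e2 : (c.ht K X z).st (X.mv ω (pw (c.gs K) u₁ * c.a ^ ex K s'.1)⁻¹) (u₁ ++ s' :: u₂)
      (u₁.length + 1) = X.mv ω (γ * c.a ^ ex K s'.2.2) := by
    show X.mv (X.mv ω _) (pw (c.gs K) ((u₁ ++ s' :: u₂).take (u₁.length + 1))) = _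
    have e3 : (u₁ ++ s' :: u₂).take (u₁.length + 1) = u₁ ++ [s'] := by simp [List.take_append]
    have e4 : c.gs K s' = c.a ^ ex K s'.1 * (γ * c.a ^ ex K s'.2.2) := by
      simp [Ctx.gs, lt, h4, mul_assoc]
    rw [e3, X.mv_mul, pw_append, pw_cons, pw_nil, mul_one, e4, ← mul_assoc (pw (c.gs K) u₁),
      inv_mul_cancel_left]
  have e5 : (u₁ ++ s' :: u₂).take u₁.length = u₁ := List.take_left' rfl
  have e6 : (u₁ ++ s' :: u₂).drop (u₁.length + 1) = u₂ := by simp [List.drop_append]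
  rw [e1] at a1 a2
  rw [e2] at a3 a4
  rw [e5] at a2
  rw [e6] at a4
  exact ⟨⟨a1, a2⟩, a3, a4⟩

theorem Ld1_back (hp : p.Ok) {n : ℕ} (hn : n ≤ p.l) (ω : X.Ω) :
    avgW n (fun w => ind ((c.ht K X z).Arm p ω (rv (c.is K) w))) ≤ p.B := by
  rw [avgW_rv (c.inv K) n fun w => ind ((c.ht K X z).Arm p ω w)]
  exact Ht.arm_le (h := c.ht K X z) hp hn ω

theorem edge_one (hp : p.Ok) (γ : c.S) (ω : X.Ω) (t : ℕ) :
    avgW p.l (fun w => ind ((c.ht K X z).Cnt p (c.Ty K γ) (X.mv ω (c.base K w t)⁻¹) w t)) ≤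
      p.B ^ 2 := by
  have hB := Ht.B_nonneg hp
  by_cases ht : 1 ≤ t ∧ t ≤ p.l
  swap
  · exact avgW_le fun w _ => (ind_neg fun h => ht ⟨h.1, h.2.1⟩).trans_le (sq_nonneg _)
  obtain ⟨n, rfl⟩ : ∃ n, t = n + 1 := ⟨t - 1, by omega⟩
  obtain ⟨m, hm⟩ : ∃ m, p.l = n + (m + 1) := ⟨p.l - (n + 1), by omega⟩
  rw [show avgW p.l = avgW (σ := Step c K) (n + (m + 1)) by rw [hm], Ld1_split]
  refine le_trans (avgW_mono (F' := fun u₁ => 𝔼 s : Step c K,
    ind ((c.ht K X z).Arm p (X.mv ω (c.a ^ (-ex K s.1))) (rv (c.is K) u₁)) * p.B)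
    fun u₁ h1 => Finset.expect_le_expect fun s _ => ?_) ?_
  · refine le_trans (avgW_mono (F' := fun u₂ =>
      ind ((c.ht K X z).Arm p (X.mv ω (c.a ^ (-ex K s.1))) (rv (c.is K) u₁)) *
        ind ((c.ht K X z).Arm p (X.mv ω (γ * c.a ^ ex K s.2.2)) u₂)) fun u₂ h2 => ?_) ?_
    · rw [← ind_and]
      refine ind_mono fun h => ?_
      have := Ld1_key hp (by rw [h1]) (by simp [h1, h2, hm]) h
      exact ⟨this.1.2, this.2.2⟩
    · rw [avgW_mul_left]
      exact mul_le_mul_of_nonneg_left (Ht.arm_le hp (by omega) _) (ind_nonneg _)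
  · rw [avgW_expect]
    refine Finset.expect_le Finset.univ_nonempty fun s _ => ?_
    rw [avgW_mul_right, sq]
    exact mul_le_mul_of_nonneg_right (Ld1_back hp (by omega) _) hB

theorem Ld1_mid {σ : Type} [Fintype σ] [Nonempty σ] {g : σ → G} {ι : σ → σ} (hι : Inv g ι)
    {u d : ℕ} (hd : u ≤ d) (P M : List σ → ℝ) :
    avgW (u + d) (fun v => P (v.take u) * M ((rv ι v).take u)) = avgW u P * avgW u M := by
  rw [avgW_append, ← avgW_mul_right]
  refine avgW_congr fun v₁ h1 => ?_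
  rw [← avgW_take hd M, ← avgW_rv hι d fun v => M (v.take u), ← avgW_mul_left]
  refine avgW_congr fun v₂ h2 => ?_
  rw [List.take_left' h1, rv_append, List.take_append_of_le_length]
  simp [rv, h2, hd]

theorem Ld1_plus_nonneg (γ : G) (u : ℕ) (ω : X.Ω) : 0 ≤ hPlus c K X z p γ u ω :=
  Finset.expect_nonneg fun _ _ => avgW_nonneg fun _ _ => ind_nonneg _

theorem Ld1_minus_nonneg (u : ℕ) (ω : X.Ω) : 0 ≤ hMinus c K X z p u ω :=
  Finset.expect_nonneg fun _ _ => avgW_nonneg fun _ _ => ind_nonneg _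

theorem edge_two (hp : p.Ok) (γ : c.S) (ω : X.Ω) {t t' u : ℕ} (hu : t + 2 * u + 1 ≤ t') :
    avgW p.l (fun w => ind ((c.ht K X z).Cnt p (c.Ty K γ) (X.mv ω (c.base K w t)⁻¹) w t) *
      ind ((c.ht K X z).Cnt p (c.Ty K γ) (X.mv ω (c.base K w t')⁻¹) w t')) ≤
      p.B ^ 2 * (hPlus c K X z p γ u ω * hMinus c K X z p u ω) := by
  have hB := Ht.B_nonneg hp
  have hM := Ld1_minus_nonneg (c := c) (K := K) (z := z) (p := p) u ω
  by_cases ht : 1 ≤ t ∧ t' ≤ p.l
  swap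
  · refine avgW_le fun w _ => ?_
    rw [← ind_and, ind_neg fun h => ht ⟨h.1.1, h.2.2.1⟩]
    exact mul_nonneg (sq_nonneg _) (mul_nonneg (Ld1_plus_nonneg _ _ _) hM)
  obtain ⟨n, rfl⟩ : ∃ n, t = n + 1 := ⟨t - 1, by omega⟩
  obtain ⟨d, rfl⟩ : ∃ d, t' = n + 1 + (u + d) + 1 := ⟨t' - (n + 1 + u + 1), by omega⟩
  obtain ⟨m, hm⟩ : ∃ m, p.l = n + ((u + d) + (m + 1) + 1) :=
    ⟨p.l - (n + 1 + (u + d) + 1), by omega⟩
  have hd : u ≤ d := by omega
  set A : Step c K → List (Step c K) → ℝ := fun s u₁ =>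
    ind ((c.ht K X z).Arm p (X.mv ω (c.a ^ (-ex K s.1))) (rv (c.is K) u₁)) with hA
  set P : Fin (2 * K + 1) → List (Step c K) → ℝ := fun k v =>
    ind ((c.ht K X z).Fs p (X.mv ω (γ * c.a ^ ex K k)) v) with hP
  set M : Fin (2 * K + 1) → List (Step c K) → ℝ := fun k v =>
    ind ((c.ht K X z).Fs p (X.mv ω (c.a ^ (-ex K k))) v) with hMd
  have e1 : hMinus c K X z p u ω = avgW u fun v => 𝔼 k, M k v := (avgW_expect u M).symm
  have e2 : hPlus c K X z p γ u ω = 𝔼 s : Step c K, avgW u (P s.2.2) := by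
    rw [Ld1_snd fun x : (Bool × c.S) × Fin (2 * K + 1) => avgW u (P x.2),
      Ld1_snd fun k => avgW u (P k)]
    rfl
  rw [show avgW p.l = avgW (σ := Step c K) (n + ((u + d) + (m + 1) + 1)) by rw [hm], Ld1_split]
  refine le_trans (avgW_mono (F' := fun u₁ => 𝔼 s : Step c K,
    A s u₁ * (avgW u (P s.2.2) * hMinus c K X z p u ω * p.B))
    fun u₁ h1 => Finset.expect_le_expect fun s _ => ?_) ?_
  · rw [Ld1_split, e1, ← Ld1_mid (c.inv K) hd, ← avgW_mul_right, ← avgW_mul_left]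
    refine avgW_mono fun v h2 => ?_
    rw [← Ld1_fst (β := (Bool × c.S) × Fin (2 * K + 1)) fun k => M k ((rv (c.is K) v).take u),
      Finset.mul_expect, Finset.expect_mul, Finset.mul_expect]
    refine Finset.expect_le_expect fun s' _ => ?_
    refine le_trans (avgW_mono (F' := fun u₃ =>
      A s u₁ * P s.2.2 (v.take u) * M s'.1 ((rv (c.is K) v).take u) *
        ind ((c.ht K X z).Arm p (X.mv ω (γ * c.a ^ ex K s'.2.2)) u₃)) fun u₃ h3 => ?_) ?_
    · simp only [hA, hP, hMd, ← ind_and]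
      refine ind_mono fun h => ?_
      have k1 := Ld1_key hp (by rw [h1]) (by simp [h1, h2, h3, hm]) h.1
      have h4 := h.2
      rw [← List.cons_append, ← List.append_assoc] at h4
      have k2 := Ld1_key hp (by simp [h1, h2]; omega) (by simp [h1, h2, h3, hm]) h4
      have k3 := Ld1_fs hp k1.2.1 k1.2.2 u
      have k4 := Ld1_fs hp k2.1.1 k2.1.2 u
      rw [List.take_append_of_le_length (by omega)] at k3
      rw [rv_append, rv_cons, List.append_assoc,
        List.take_append_of_le_length (by simp [rv, h2])] at k4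
      exact ⟨⟨⟨k1.1.2, k3⟩, k4⟩, k2.2.2⟩
    · rw [avgW_mul_left, ← mul_assoc, ← mul_assoc]
      exact mul_le_mul_of_nonneg_left (Ht.arm_le hp (by omega) _)
        (mul_nonneg (mul_nonneg (ind_nonneg _) (ind_nonneg _)) (ind_nonneg _))
  · rw [avgW_expect, e2, Finset.expect_mul, Finset.mul_expect]
    refine Finset.expect_le_expect fun s _ => ?_
    rw [avgW_mul_right]
    have h1 : 0 ≤ avgW u (P s.2.2) * hMinus c K X z p u ω * p.B :=
      mul_nonneg (mul_nonneg (avgW_nonneg fun _ _ => ind_nonneg _) hM) hB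
    refine (mul_le_mul_of_nonneg_right (Ld1_back hp (by omega) _) h1).trans_eq ?_
    ring

end Pool.Agent.Work.MP_01d39a_al.Ct
end

-- merged part: Pool.Agent.Work.MP_01d39a_al.Ct.Ld2
section
/-!
TASK CT Ld2. The load bound (e) of section 3.
`hPlus u`, `hMinus u` lie in `[0,1]`, are antitone in `u`, measurable, and have integral `ann u Fs ≤ 32κ/(η1 √u)`
(`fs_le` with `Ctx.inv`, `ann_eq`, `Sys.int_mv`). `Ξ± ω = ∑ u ∈ Icc 1 l, h± u ω / √u`; `h+ u ≤ Ξ+/√u` because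
`∑_{i ≤ u} 1/√i ≥ √u`; `∫ Ξ± ≤ 32κ (1 + log l)/η1` (`harmonic_le_one_add_log`); Markov at level `M`.
Expand the square of `cnt`: diagonal terms by `edge_one`, pairs `t < t'` by `edge_two` with `u = (t' - t - 1)/2`; for fixed `t`
each value of `u` occurs at most twice, so the sum over `t'` is at most `B² (2 + 2 Ξ+ Ξ-)`.
-/

open MeasureTheory ProbabilityTheory Filter Topology
open scoped BigOperators ENNReal NNReal

namespace Pool.Agent.Work.MP_01d39a_al.Ct

variable {G : Type} [Group G]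

variable {c : Ctx G} {K : ℕ} {X : Sys G} {z : X.Ω → ℝ} {p : Par}

theorem qmax_le (hp : p.Ok) (γ : c.S) (ω : X.Ω) :
    avgW p.l (fun w => cnt p.l fun t =>
      (c.ht K X z).Cnt p (c.Ty K γ) (X.mv ω (c.base K w t)⁻¹) w t) ≤ (p.l + 1) * p.B ^ 2 := by
  unfold cnt
  rw [avgW_sum]
  refine (Finset.sum_le_sum fun t _ => edge_one hp γ ω t).trans ?_
  simp

/-- Averaged free survival from a finite family of sites. -/
noncomputable def Ld2_h (c : Ctx G) (K : ℕ) (X : Sys G) (z : X.Ω → ℝ) (p : Par)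
    (e : Fin (2 * K + 1) → G) (u : ℕ) (ω : X.Ω) : ℝ :=
  𝔼 k : Fin (2 * K + 1), avgW u fun w => ind ((c.ht K X z).Fs p (X.mv ω (e k)) w)

/-- The weighted sum. -/
noncomputable def Ld2_Xi (c : Ctx G) (K : ℕ) (X : Sys G) (z : X.Ω → ℝ) (p : Par)
    (e : Fin (2 * K + 1) → G) (ω : X.Ω) : ℝ :=
  ∑ u ∈ Finset.range p.l, Ld2_h c K X z p e (u + 1) ω / √((u + 1 : ℕ) : ℝ)

variable {e : Fin (2 * K + 1) → G}

theorem Ld2_nonneg (u : ℕ) (ω : X.Ω) : 0 ≤ Ld2_h c K X z p e u ω :=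
  Finset.expect_nonneg fun _ _ => avgW_nonneg fun _ _ => ind_nonneg _

theorem Ld2_le_one (u : ℕ) (ω : X.Ω) : Ld2_h c K X z p e u ω ≤ 1 :=
  Finset.expect_le Finset.univ_nonempty fun _ _ => avgW_le fun _ _ => ind_le_one _

theorem Ld2_anti {u u' : ℕ} (h : u ≤ u') (ω : X.Ω) :
    Ld2_h c K X z p e u' ω ≤ Ld2_h c K X z p e u ω := by
  refine Finset.expect_le_expect fun k _ => ?_
  rw [← avgW_take h]
  refine avgW_mono fun w _ => ind_mono fun hw => ⟨hw.1, fun i hi => ?_⟩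
  rw [List.length_take] at hi
  have h1 := hw.2 i (hi.trans (min_le_right _ _))
  have h2 := st_take (g := c.gs K) X (X.mv ω (e k)) w (hi.trans (min_le_left _ _))
  simp only [Ht.st] at h1 ⊢
  rw [h2]
  exact h1

theorem Ld2_ms (hz : Measurable z) (g : G) (w : List (Step c K)) :
    MeasurableSet {ω | (c.ht K X z).Fs p (X.mv ω g) w} :=
  X.meas_mv g (Ht.ms_Fs (h := c.ht K X z) (p := p) hz w)

theorem Ld2_int (hz : Measurable z) (u : ℕ) : Integrable (Ld2_h c K X z p e u) X.P :=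
  integrable_expect fun k => integrable_avgW fun w _ => integrable_ind _ (Ld2_ms hz (e k) w)

theorem Ld2_integral (hz : Measurable z) (u : ℕ) :
    ∫ ω, Ld2_h c K X z p e u ω ∂X.P = X.ann u ((c.ht K X z).Fs p) := by
  unfold Ld2_h
  rw [integral_expect fun k => integrable_avgW fun w _ => integrable_ind _ (Ld2_ms hz (e k) w)]
  have : ∀ k, ∫ ω, avgW u (fun w => ind ((c.ht K X z).Fs p (X.mv ω (e k)) w)) ∂X.P =
      X.ann u ((c.ht K X z).Fs p) := fun k => by
    rw [ann_eq X fun w => Ht.ms_Fs (h := c.ht K X z) (p := p) hz w]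
    exact X.int_mv (e k) fun ω => avgW u fun w => ind ((c.ht K X z).Fs p ω w)
  simp only [this, Fintype.expect_const]

theorem Ld2_Xi_nonneg (ω : X.Ω) : 0 ≤ Ld2_Xi c K X z p e ω :=
  Finset.sum_nonneg fun _ _ => div_nonneg (Ld2_nonneg _ _) (Real.sqrt_nonneg _)

theorem Ld2_Xi_int (hz : Measurable z) : Integrable (Ld2_Xi c K X z p e) X.P :=
  integrable_finsetSum _ fun _ _ => (Ld2_int hz _).div_const _

theorem Ld2_Xi_integral (hp : p.Ok) {C x₀ κ : ℝ} (hM : (c.ht K X z).Mom C x₀ κ)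
    (hx : p.l * x₀ ≤ 1) :
    ∫ ω, Ld2_Xi c K X z p e ω ∂X.P ≤ 32 * p.κ * (1 + Real.log p.l) / p.η1 := by
  have hz : Measurable z := hM.meas
  have h0 : 0 ≤ x₀ := (integral_nonneg fun ω => sq_nonneg _).trans hM.drift
  have hκ : 0 ≤ p.κ := le_trans (by norm_num) hp.hκ
  have hη := hp.hη
  unfold Ld2_Xi
  rw [integral_finsetSum _ fun _ _ => (Ld2_int hz _).div_const _]
  have h1 : ∀ u ∈ Finset.range p.l, ∫ ω, Ld2_h c K X z p e (u + 1) ω / √((u + 1 : ℕ) : ℝ) ∂X.P ≤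
      32 * p.κ / p.η1 * ((u + 1 : ℕ) : ℝ)⁻¹ := by
    intro u hu
    have hu' : ((u + 1 : ℕ) : ℝ) ≤ p.l := by exact_mod_cast Finset.mem_range.1 hu
    have h2 := Ht.fs_le hp (c.inv K) hM (u := u + 1) (by omega)
      ((mul_le_mul_of_nonneg_right hu' h0).trans hx)
    have h3 : (0 : ℝ) < √((u + 1 : ℕ) : ℝ) := Real.sqrt_pos.2 (by positivity)
    have h4 : √((u + 1 : ℕ) : ℝ) * √((u + 1 : ℕ) : ℝ) = ((u + 1 : ℕ) : ℝ) :=
      Real.mul_self_sqrt (by positivity)
    rw [integral_div, Ld2_integral hz]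
    refine (div_le_div_of_nonneg_right h2 h3.le).trans (le_of_eq ?_)
    rw [div_div, mul_assoc p.η1, h4, ← div_div, div_eq_mul_inv]
  refine (Finset.sum_le_sum h1).trans ?_
  have h5 := harmonic_le_one_add_log p.l
  have h6 : ((harmonic p.l : ℚ) : ℝ) = ∑ u ∈ Finset.range p.l, ((u + 1 : ℕ) : ℝ)⁻¹ := by
    simp [harmonic]
  rw [← Finset.mul_sum, ← h6, mul_div_right_comm (32 * p.κ)]
  exact mul_le_mul_of_nonneg_left h5 (by positivity)

theorem Ld2_markov (hp : p.Ok) {C x₀ κ : ℝ} (hM : (c.ht K X z).Mom C x₀ κ)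
    (hx : p.l * x₀ ≤ 1) {M : ℝ} (hM0 : 0 < M) :
    X.P.real {ω | M ≤ Ld2_Xi c K X z p e ω} ≤ 32 * p.κ * (1 + Real.log p.l) / (p.η1 * M) := by
  have h1 := (mul_meas_ge_le_integral_of_nonneg (Eventually.of_forall Ld2_Xi_nonneg)
    (Ld2_Xi_int (c := c) (K := K) (p := p) (e := e) hM.meas) M).trans (Ld2_Xi_integral hp hM hx)
  rw [← div_div, le_div_iff₀ hM0, mul_comm]
  exact h1

theorem Ld2_le_Xi {u : ℕ} (hu : u < p.l) (ω : X.Ω) :
    Ld2_h c K X z p e (u + 1) ω ≤ Ld2_Xi c K X z p e ω / √((u + 1 : ℕ) : ℝ) := by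
  have h3 : (0 : ℝ) < √((u + 1 : ℕ) : ℝ) := Real.sqrt_pos.2 (by positivity)
  have h4 : √((u + 1 : ℕ) : ℝ) * √((u + 1 : ℕ) : ℝ) = ((u + 1 : ℕ) : ℝ) :=
    Real.mul_self_sqrt (by positivity)
  rw [le_div_iff₀ h3]
  calc Ld2_h c K X z p e (u + 1) ω * √((u + 1 : ℕ) : ℝ)
      = ∑ _i ∈ Finset.range (u + 1), Ld2_h c K X z p e (u + 1) ω / √((u + 1 : ℕ) : ℝ) := by
        rw [Finset.sum_const, Finset.card_range, nsmul_eq_mul, ← mul_div_assoc, eq_div_iff h3.ne',
          mul_assoc, h4, mul_comm]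
    _ ≤ ∑ i ∈ Finset.range (u + 1), Ld2_h c K X z p e (i + 1) ω / √((i + 1 : ℕ) : ℝ) := by
        refine Finset.sum_le_sum fun i hi => ?_
        have hi' : i + 1 ≤ u + 1 := Finset.mem_range.1 hi
        exact div_le_div₀ (Ld2_nonneg _ _) (Ld2_anti hi' ω) (Real.sqrt_pos.2 (by positivity))
          (Real.sqrt_le_sqrt (by exact_mod_cast hi'))
    _ ≤ _ := Finset.sum_le_sum_of_subset_of_nonneg (Finset.range_mono hu)
        fun _ _ _ => div_nonneg (Ld2_nonneg _ _) (Real.sqrt_nonneg _)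

theorem Ld2_prod (e' : Fin (2 * K + 1) → G) (ω : X.Ω) :
    ∑ u ∈ Finset.range (p.l + 1), Ld2_h c K X z p e u ω * Ld2_h c K X z p e' u ω ≤
      1 + Ld2_Xi c K X z p e ω * Ld2_Xi c K X z p e' ω := by
  rw [Finset.sum_range_succ', add_comm]
  refine add_le_add (mul_le_one₀ (Ld2_le_one _ _) (Ld2_nonneg _ _) (Ld2_le_one _ _)) ?_
  conv_rhs => rw [Ld2_Xi, Finset.sum_mul]
  refine Finset.sum_le_sum fun u hu => ?_
  rw [div_mul_eq_mul_div, mul_div_assoc]
  exact mul_le_mul_of_nonneg_left (Ld2_le_Xi (Finset.mem_range.1 hu) ω) (Ld2_nonneg _ _)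

theorem Ld2_sq (a : ℕ → ℝ) (n : ℕ) : (∑ i ∈ Finset.range n, a i) ^ 2 =
    ∑ i ∈ Finset.range n, (a i ^ 2 + 2 * ∑ j ∈ (Finset.range n).filter (i < ·), a i * a j) := by
  simp only [Finset.sum_filter]
  induction n with
  | zero => simp
  | succ n ih =>
    have h1 : ∑ j ∈ Finset.range (n + 1), (if n < j then a n * a j else 0) = 0 :=
      Finset.sum_eq_zero fun j hj => if_neg (by have := Finset.mem_range.1 hj; omega)
    have h2 : ∀ i ∈ Finset.range n, a i ^ 2 + 2 * ∑ j ∈ Finset.range (n + 1),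
        (if i < j then a i * a j else 0) = (a i ^ 2 + 2 * ∑ j ∈ Finset.range n,
        (if i < j then a i * a j else 0)) + a i * (2 * a n) := fun i hi => by
      rw [Finset.sum_range_succ, if_pos (Finset.mem_range.1 hi)]
      ring
    rw [Finset.sum_range_succ, Finset.sum_range_succ _ n, h1, Finset.sum_congr rfl h2,
      Finset.sum_add_distrib, ← ih, ← Finset.sum_mul]
    ring

theorem Ld2_half (f : ℕ → ℝ) (n : ℕ) :
    ∑ j ∈ Finset.range (2 * n), f (j / 2) = 2 * ∑ u ∈ Finset.range n, f u := by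
  induction n with
  | zero => simp
  | succ n ih =>
    rw [show 2 * (n + 1) = 2 * n + 1 + 1 by ring, Finset.sum_range_succ, Finset.sum_range_succ, ih,
      Finset.sum_range_succ, show (2 * n + 1) / 2 = n by omega, show 2 * n / 2 = n by omega]
    ring

theorem Ld2_gap {f : ℕ → ℝ} (hf : ∀ u, 0 ≤ f u) (n t : ℕ) :
    ∑ j ∈ (Finset.range n).filter (t < ·), f ((j - t - 1) / 2) ≤
      2 * ∑ u ∈ Finset.range n, f u := by
  rw [← Ld2_half, ← Finset.sum_image (s := (Finset.range n).filter (t < ·))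
    (g := fun j => j - t - 1) (f := fun j => f (j / 2))]
  · refine Finset.sum_le_sum_of_subset_of_nonneg (fun j hj => ?_) fun _ _ _ => hf _
    obtain ⟨i, hi, rfl⟩ := Finset.mem_image.1 hj
    have := Finset.mem_range.1 (Finset.mem_filter.1 hi).1
    exact Finset.mem_range.2 (by omega)
  · intro i hi j hj h
    have h1 : t < i := (Finset.mem_filter.1 hi).2
    have h2 : t < j := (Finset.mem_filter.1 hj).2
    have h3 : i - t - 1 = j - t - 1 := h
    omega

theorem Ld2_point (hp : p.Ok) (γ : c.S) (ω : X.Ω) :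
    (avgW p.l fun w => (cnt p.l fun t =>
        (c.ht K X z).Cnt p (c.Ty K γ) (X.mv ω (c.base K w t)⁻¹) w t) ^ 2) ≤
      (p.l + 1) * p.B ^ 2 * (1 + 2 * (2 + 2 *
        (Ld2_Xi c K X z p (fun k => γ * c.a ^ ex K k) ω *
          Ld2_Xi c K X z p (fun k => c.a ^ (-ex K k)) ω))) := by
  unfold cnt
  simp only [Ld2_sq, avgW_sum, avgW_add, avgW_mul_left]
  refine (Finset.sum_le_card_nsmul _ _ (p.B ^ 2 * (1 + 2 * (2 + 2 *
    (Ld2_Xi c K X z p (fun k => γ * c.a ^ ex K k) ω *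
      Ld2_Xi c K X z p (fun k => c.a ^ (-ex K k)) ω)))) fun t _ => ?_).trans (le_of_eq ?_)
  · rw [mul_add, mul_one, mul_left_comm]
    refine add_le_add ?_ (mul_le_mul_of_nonneg_left ?_ (by norm_num))
    · refine le_trans (avgW_mono fun w _ => ?_) (edge_one (K := K) (z := z) hp γ ω t)
      rw [sq]
      exact mul_le_of_le_one_left (ind_nonneg _) (ind_le_one _)
    · refine (Finset.sum_le_sum fun t' ht' => edge_two hp γ ω (u := (t' - t - 1) / 2) ?_).trans ?_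
      · have : t < t' := (Finset.mem_filter.1 ht').2
        omega
      rw [← Finset.mul_sum]
      refine mul_le_mul_of_nonneg_left ?_ (sq_nonneg _)
      refine (Ld2_gap (f := fun u => Ld2_h c K X z p (fun k => γ * c.a ^ ex K k) u ω *
        Ld2_h c K X z p (fun k => c.a ^ (-ex K k)) u ω)
        (fun u => mul_nonneg (Ld2_nonneg _ _) (Ld2_nonneg _ _)) _ t).trans ?_
      linarith [Ld2_prod (c := c) (z := z) (p := p) (e := fun k => γ * c.a ^ ex K k)
        (fun k => c.a ^ (-ex K k)) ω]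
  · rw [Finset.card_range, nsmul_eq_mul]
    push_cast
    ring

theorem load_le (hp : p.Ok) {C x₀ κ : ℝ} (hM : (c.ht K X z).Mom C x₀ κ) (hx : p.l * x₀ ≤ 1)
    (γ : c.S) {M : ℝ} (hM0 : 0 < M) :
    X.P.real {ω | (p.l + 1) * p.B ^ 2 * (1 + 2 * (2 + 2 * M ^ 2)) <
      avgW p.l fun w => (cnt p.l fun t =>
        (c.ht K X z).Cnt p (c.Ty K γ) (X.mv ω (c.base K w t)⁻¹) w t) ^ 2} ≤
      2 * (32 * p.κ * (1 + Real.log p.l) / (p.η1 * M)) := by
  refine le_trans (measureReal_mono (s₂ :=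
    {ω | M ≤ Ld2_Xi c K X z p (fun k => γ * c.a ^ ex K k) ω} ∪
      {ω | M ≤ Ld2_Xi c K X z p (fun k => c.a ^ (-ex K k)) ω}) fun ω hω => ?_)
    ((measureReal_union_le _ _).trans ?_)
  · by_contra hn
    simp only [Set.mem_union, Set.mem_ofPred_eq, not_or, not_le] at hn hω
    refine absurd hω (not_lt.2 ((Ld2_point hp γ ω).trans ?_))
    refine mul_le_mul_of_nonneg_left ?_ (by positivity)
    have := mul_le_mul hn.1.le hn.2.le (Ld2_Xi_nonneg ω) hM0.le
    nlinarith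
  · exact (add_le_add (Ld2_markov hp hM hx hM0) (Ld2_markov hp hM hx hM0)).trans
      (two_mul _).ge

end Pool.Agent.Work.MP_01d39a_al.Ct
end

-- merged part: Pool.Agent.Work.MP_01d39a_al.Ct.HPk
section
/-!
TASK CT HPk. Assembly of section 3. `C = c.Cs ≥ 1`, `c₀ = 1/(10^83 C |S|)`, `Cm = 10^32`, `p = par C κ`, `h = c.ht K X z`,
`Cn = h.Cnt p (c.Ty K γ)`, `ty s := s.2.1 = (true, γ)`, `μ = 1/(2|S|) = 𝔼 s, ind (ty s)`.
`good`: the bad event is contained in the union of the events of b1, b2 (four segments: `i = 1` and `i = l - Le` with `n = Le`,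
`i = 1` and `i = l - L1` with `n = L1`, `η₀ = 1/10^8`), b3, b4, b5, b6, b7, b8 (twice, with `drop_le` and `few_le`), b10, b12
(`β = 8 nu^45/Le`), by `many_cnt`; note `Crude (Hs Mx)` follows from `G1`, `le_Mx`, `lt_Hs`. Sum: `10/200 + 4/400 ≤ 1/16`.
Use `ann_mono`, `ann_or_le`. `qmax`: `qmax_le`, f5. `load`: `load_le` with `M = nu κ`, fe1, fe2.
-/

open MeasureTheory ProbabilityTheory Filter Topology
open scoped BigOperators ENNReal NNReal

namespace Pool.Agent.Work.MP_01d39a_al.Ct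

variable {G : Type} [Group G]

theorem HPk_or {X : Sys G} {σ : Type} [Fintype σ] {n : ℕ} {E E' : X.Ω → List σ → Prop} {a b : ℝ}
    (h : X.ann n E ≤ a) (h' : X.ann n E' ≤ b) : X.ann n (fun ω w => E ω w ∨ E' ω w) ≤ a + b :=
  (ann_or_le X n E E').trans (add_le_add h h')

theorem HPk_mu (c : Ctx G) (K : ℕ) (γ : c.S) :
    1 / (2 * (c.S.card : ℝ)) = 𝔼 s : Step c K, ind (s.2.1 = (true, γ)) := by
  classical
  rw [← Finset.univ_product_univ, Finset.expect_product]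
  simp only [Fintype.expect_const]
  rw [← Finset.univ_product_univ, Finset.expect_product]
  simp only [Fintype.expect_const]
  rw [Finset.expect_eq_sum_div_card, Finset.sum_eq_single (true, γ) (fun b _ h => ind_neg h)
    (fun h => (h (Finset.mem_univ _)).elim), ind_pos rfl]
  simp

theorem HPk_good {c : Ctx G} {κ K : ℕ} {X : Sys G} {z : X.Ω → ℝ} (hC : 1 ≤ c.Cs)
    (hb : ParBd c.Cs c.S.card κ) (hM : (c.ht K X z).Mom c.Cs (1 / (ll κ : ℝ) ^ 8) κ)
    (hx : (par c.Cs κ).l * (1 / (ll κ : ℝ) ^ 8) ≤ 1) (γ : c.S) {BF BB : List (Step c K) → Prop}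
    (hF : ∀ n : ℕ, 1 ≤ n → n ≤ ll κ → avgW n (fun w => ind (BF w)) ≤ 8 * (nu κ : ℝ) ^ 45 / n)
    (hB : ∀ n : ℕ, 1 ≤ n → n ≤ ll κ → avgW n (fun w => ind (BB w)) ≤ 8 * (nu κ : ℝ) ^ 45 / n) :
    X.ann (ll κ) (fun ω w => ¬ (1 / (10 ^ 83 * c.Cs * c.S.card) * κ ^ 2 ≤
        cnt (ll κ) (fun t => (c.ht K X z).Cnt (par c.Cs κ) (c.Ty K γ) ω w t ∧
          (c.ht K X z).Top (par c.Cs κ) ω w t) ∧
      (∀ i ≤ ll κ, ∀ i' ≤ ll κ, (c.ht K X z).Top (par c.Cs κ) ω w i →
        (c.ht K X z).Top (par c.Cs κ) ω w i' → i' ≤ i + nu κ) ∧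
      ∀ i ≤ ll κ, (c.ht K X z).Top (par c.Cs κ) ω w i → ¬ BF (w.take i) ∧ ¬ BB (w.drop i))) ≤
      1 / 16 := by
  have hp := hb.ok
  have hι : Inv (c.ht K X z).g (c.is K) := c.inv K
  have hz := hM.meas
  have hκ : (0 : ℝ) < κ := lt_of_lt_of_le (by norm_num) hp.hκ
  have l1 := hp.hLe
  have l2 := hp.hL1
  have l3 := hp.hl
  have hβ : ∀ {B : List (Step c K) → Prop}, (∀ n : ℕ, 1 ≤ n → n ≤ ll κ →
      avgW n (fun w => ind (B w)) ≤ 8 * (nu κ : ℝ) ^ 45 / n) → ∀ n, (par c.Cs κ).Le ≤ n →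
      n ≤ (par c.Cs κ).l → avgW n (fun w => ind (B w)) ≤ 8 * (nu κ : ℝ) ^ 45 / (par c.Cs κ).Le :=
    fun h n h1 h2 => (h n (l1.trans h1) h2).trans (div_le_div_of_nonneg_left (by positivity)
      (by exact_mod_cast l1) (by exact_mod_cast h1))
  have e1 := (Ht.b1 hp hM).trans hb.f1
  have e2 := fun i {n} (hn : 1 ≤ n) =>
    (Ht.b2 hp hM (η₀ := 1 / 10 ^ 8) (by positivity) i hn).trans hb.f2
  have e3 := (Ht.b3 hp hι hM hx).trans hb.f3
  have e4 := (Ht.b4 hp hι hz).trans (le_trans (mul_le_mul_of_nonneg_right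
    (mul_le_mul_of_nonneg_left (Ht.p_notsafe hp hM) (by positivity))
    (div_nonneg (by positivity) hp.hA0.le)) hb.f4)
  have e5 := (Ht.b5 hp hι hz).trans (b := _) (c := 1 / 200) (by
    refine (div_le_div_of_nonneg_right hb.f5 hp.hm.le).trans ?_
    simp only [par]
    push_cast
    rw [mul_div_mul_right _ _ (by positivity)]
    norm_num)
  have e6 : _ ≤ (1 / 200 : ℝ) := Ht.b6 hp hM
  have e7 := (Ht.b7 hp hι hM).trans (b := _) (c := 1 / 200) (by
    refine (div_le_div_of_nonneg_right (mul_le_mul_of_nonneg_right hb.f5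
      (div_nonneg (by positivity) hp.hMv.le)) (by have := hp.hV; positivity)).trans ?_
    simp only [par]
    field_simp
    norm_num)
  have e8 := (Ht.b8 hp hM hx (Ht.ms_DropEv hz) (by
    have := hp.hV
    have := hp.he
    have := hp.hκ
    positivity) fun n hn ω => Ht.drop_le hp hn ω).trans hb.f8
  have e9 := (Ht.b8 hp hM hx (Ht.ms_FewEv hz _ _) (mul_nonneg (Real.exp_pos _).le (Ht.B_nonneg hp))
    fun n hn ω => Ht.few_le hp hn (by positivity) (HPk_mu c K γ).le ω).trans hb.f9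
  have e10 := (Ht.b10 hp hι hM hx).trans hb.f10
  have e12 := (Ht.b12 hp hι hz (hβ hF) (hβ hB)).trans hb.f12
  refine le_trans (ann_mono X fun ω w hw hbad => ?_) ((HPk_or e1 <| HPk_or (e2 1 l1) <|
    HPk_or (e2 ((par c.Cs κ).l - (par c.Cs κ).Le) l1) <|
    HPk_or (e2 1 (n := (par c.Cs κ).L1) (by omega)) <|
    HPk_or (e2 ((par c.Cs κ).l - (par c.Cs κ).L1) (n := (par c.Cs κ).L1) (by omega)) <|
    HPk_or e3 <| HPk_or e4 <| HPk_or e5 <| HPk_or e6 <| HPk_or e7 <| HPk_or e8 <| HPk_or e9 <|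
    HPk_or e10 e12).trans (by norm_num))
  by_contra hn
  simp only [not_or, not_lt, not_not] at hn
  obtain ⟨g1, g2, g2', g3, g3', g4, g5, g6, g7, g8, g9, g10, g11, g12⟩ := hn
  rw [← hb.hA, add_comm 1] at g2
  rw [← hb.hA, Nat.sub_add_cancel (by omega)] at g2'
  rw [← hb.hA', add_comm 1] at g3
  rw [← hb.hA', Nat.sub_add_cancel (by omega)] at g3'
  have m : (c.ht K X z).Mid (par c.Cs κ) ω w := not_not.1 fun k => g4 ⟨g1, g3, g3', k⟩
  have al : (c.ht K X z).Al (par c.Cs κ) ω w :=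
    ⟨⟨⟨g1, fun i hi => (Ht.le_Mx (h := c.ht K X z) ω w hi).trans (Ht.lt_Hs hp _).le⟩, fun i hi k =>
      not_not.1 fun k' => g5 ⟨g1, g2, g2', m, i, hi.trans_eq hw, k, k'⟩⟩, g2, g2', m⟩
  refine hbad ⟨hb.fq.trans (Ht.many_cnt hp hι hw al (not_lt.1 fun k => g6 ⟨al, k⟩) g7
    (not_lt.1 fun k => g8 ⟨al, k⟩) g9 g10), fun i hi i' hi' k k' =>
      not_lt.1 fun k'' => g11 ⟨al, i, hi, i', hi', k, k', k''⟩, fun i hi k =>
    not_or.1 fun k' => g12 ⟨al, i, hi, k, k'⟩⟩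

theorem height_pack (c : Ctx G) : ∃ c₀ : ℝ, 0 < c₀ ∧ c₀ ≤ 1 ∧ ∃ Cm : ℕ, ∀ᶠ κ : ℕ in atTop,
    ∀ (K : ℕ) (X : Sys G) (z : X.Ω → ℝ), (c.ht K X z).Mom c.Cs (1 / (ll κ : ℝ) ^ 8) κ →
      ∀ γ : c.S, ∃ Cn : X.Ω → List (Step c K) → ℕ → Prop,
        HeightPack c K κ X (fun ω => ⌊z ω / κ⌋) γ Cn c₀ Cm := by
  have hC : 1 ≤ c.Cs := by
    have := Real.one_le_exp (by positivity : 0 ≤ 4 * (c.S.card : ℝ))
    unfold Ctx.Cs
    linarith
  have hs : 1 ≤ c.S.card := c.ne.card_pos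
  have hs' : (1 : ℝ) ≤ c.S.card := by exact_mod_cast hs
  have h1 : 10 ^ 83 ≤ 10 ^ 83 * c.Cs * c.S.card := by
    rw [mul_assoc]
    exact le_mul_of_one_le_right (by positivity) (one_le_mul_of_one_le_of_one_le hC hs')
  refine ⟨1 / (10 ^ 83 * c.Cs * c.S.card), by positivity,
    (div_le_one (by positivity)).2 (le_trans (by norm_num) h1), 10 ^ 32,
    (par_bd hC hs).mono fun κ hb K X z hM γ => ?_⟩
  have hp := hb.ok
  have hx : (par c.Cs κ).l * (1 / (ll κ : ℝ) ^ 8) ≤ 1 := by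
    have h2 : (1 : ℝ) ≤ ll κ := by
      exact_mod_cast (by have := hp.hLe; have := hp.hL1; have := hp.hl; omega : 1 ≤ (par c.Cs κ).l)
    rw [mul_one_div, div_le_one (by positivity)]
    exact le_self_pow₀ h2 (by norm_num)
  refine ⟨(c.ht K X z).Cnt (par c.Cs κ) (c.Ty K γ), fun w t => Ht.ms_Cnt hM.meas _ w t,
    fun ω w t h => ⟨h.1, h.2.1, h.2.2.1, h.2.2.2.2.2.2⟩,
    fun BF BB hF hB => HPk_good hC hb hM hx γ hF hB, fun ω => ?_, ?_⟩
  · refine (qmax_le hp γ ω).trans (hb.f5.trans ?_)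
    rw [div_div_eq_mul_div, div_one, mul_comm]
    exact mul_le_mul_of_nonneg_left (le_trans (by norm_num) h1) (by positivity)
  · refine le_trans (measureReal_mono fun ω hω => ?_)
      ((load_le hp hM hx γ (M := nu κ) (by unfold nu; positivity)).trans hb.fe1)
    exact hb.fe2.trans_lt hω

end Pool.Agent.Work.MP_01d39a_al.Ct
end

-- merged part: Pool.Agent.Work.MP_01d39a_al.Ct.GF
section
/-!
TASK CT GF. Invariant Gaussian field with a prescribed Gram kernel.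
Enumerate `V` by a surjection `e : ℕ → V` (empty `V` is trivial) and let `u = gramSchmidtNormed ℝ (v ∘ e)` (or
`gramSchmidt`): the vectors `u i` are pairwise orthogonal of norm 0 or 1 and `v (e n)` lies in the span of `u 0 .. u n`, so
`v x = ∑ i ∈ range (N x), ⟪u i, v x⟫ • u i` and `⟪u i, v x⟫ = 0` for `i ≥ N x`. Put
`F g x = ∑ i ∈ range (N x), ⟪u i, v x⟫ * g i` on `ℕ → ℝ` with `Measure.infinitePi fun _ => gaussianReal 0 1`, `μ = map F`.
A finite linear combination of independent standard Gaussians is Gaussian (`gaussianReal_map_const_mul`,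
`gaussianReal_add_gaussianReal_of_indepFun`, or `charFun`), with variance `∑ coefficient² = ‖∑ cf i • v (x i)‖²`.
Invariance: two probability measures on `V → ℝ` agree if their finite marginals agree (`IsProjectiveLimit.unique`,
or `ext_of_generate_finite` with `measurableCylinders`); finite marginals agree if all linear functionals have the same
law (`Measure.ext_of_charFunDual` / `ext_of_charFun` on `EuclideanSpace`).
-/

open MeasureTheory ProbabilityTheory Filter Topology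
open scoped BigOperators ENNReal NNReal RealInnerProductSpace

namespace Pool.Agent.Work.MP_01d39a_al.Ct

variable {G : Type} [Group G]

lemma GF_lin (s : Finset ℕ) (a : ℕ → ℝ) :
    (Measure.infinitePi fun _ : ℕ => gaussianReal 0 1).map (fun g => ∑ i ∈ s, a i * g i) =
      gaussianReal 0 (∑ i ∈ s, ‖a i‖₊ ^ 2) := by
  classical
  have hm : ∀ i, Measurable fun g : ℕ → ℝ => a i * g i := fun i => by fun_prop
  have hind : iIndepFun (fun i (g : ℕ → ℝ) => a i * g i)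
      (Measure.infinitePi fun _ : ℕ => gaussianReal 0 1) :=
    iIndepFun_infinitePi (X := fun i (x : ℝ) => a i * x) fun i => by fun_prop
  induction s using Finset.induction_on with
  | empty => simp
  | insert j s hj ih =>
    have h1 := hind.indepFun_finsetSum_of_notMem hm hj
    have h2 : (Measure.infinitePi fun _ : ℕ => gaussianReal 0 1).map (fun g => a j * g j) =
        gaussianReal 0 (‖a j‖₊ ^ 2) := by
      have : (fun g : ℕ → ℝ => a j * g j) = (fun x => a j * x) ∘ fun g : ℕ → ℝ => g j := rfl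
      rw [this, ← Measure.map_map (by fun_prop) (by fun_prop), Measure.infinitePi_map_eval,
        gaussianReal_map_const_mul]
      congr 1
      · simp
      · ext
        simp
    have h3 : (∑ i ∈ s, fun g : ℕ → ℝ => a i * g i) = fun g => ∑ i ∈ s, a i * g i := by
      funext g
      rw [Finset.sum_apply]
    rw [h3] at h1
    have h4 := gaussianReal_add_gaussianReal_of_indepFun h1 ih h2
    rw [add_zero] at h4
    rw [Finset.sum_insert hj, add_comm, ← h4]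
    congr 1
    funext g
    rw [Finset.sum_insert hj, add_comm]
    rfl

lemma GF_ext {V : Type} (μ ν : Measure (V → ℝ)) [IsProbabilityMeasure μ] [IsProbabilityMeasure ν]
    (h : ∀ (s : Finset V) (cf : s → ℝ), μ.map (fun f => ∑ i : s, cf i * f i) =
      ν.map (fun f => ∑ i : s, cf i * f i)) : μ = ν := by
  classical
  refine IsProjectiveLimit.unique (P := fun I : Finset V => ν.map I.restrict) (fun I => ?_)
    fun I => rfl
  refine Measure.ext_of_charFunDual (funext fun L => ?_)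
  have hI : Measurable (I.restrict : (V → ℝ) → I → ℝ) := Finset.measurable_restrict I
  rw [charFunDual_eq_charFun_map_one, charFunDual_eq_charFun_map_one]
  beta_reduce
  rw [Measure.map_map L.continuous.measurable hI, Measure.map_map L.continuous.measurable hI]
  have : (L ∘ I.restrict : (V → ℝ) → ℝ) = fun f => ∑ i : I, L (Pi.single i 1) * f i := by
    funext f
    have := pi_eq_sum_univ' (I.restrict f)
    rw [Function.comp_apply, this, map_sum]
    refine Finset.sum_congr rfl fun i _ => ?_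
    rw [map_smul, smul_eq_mul, mul_comm]
    rfl
  rw [this, h]

lemma GF_norm {H : Type} [NormedAddCommGroup H] [InnerProductSpace ℝ H] (w : ℕ → H)
    (hw : Pairwise fun a b => ⟪w a, w b⟫ = 0) (s : Finset ℕ) (a : ℕ → ℝ) :
    ‖∑ i ∈ s, a i • w i‖₊ ^ 2 = ∑ i ∈ s, ‖a i * ‖w i‖‖₊ ^ 2 := by
  ext
  push_cast
  rw [← real_inner_self_eq_norm_sq, sum_inner]
  refine Finset.sum_congr rfl fun i hi => ?_
  rw [inner_sum, Finset.sum_eq_single_of_mem i hi]
  · rw [real_inner_self_eq_norm_sq, norm_smul, norm_mul, norm_norm]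
  · intro j _ hj
    rw [real_inner_smul_left, real_inner_smul_right, hw hj.symm, mul_zero, mul_zero]

theorem gauss_field {V H : Type} [Countable V] [MulAction G V] [NormedAddCommGroup H]
    [InnerProductSpace ℝ H] (v : V → H) (hv : ∀ (g : G) (x y : V), ⟪v (g • x), v (g • y)⟫ = ⟪v x, v y⟫) :
    ∃ μ : Measure (V → ℝ), IsProbabilityMeasure μ ∧
      (∀ g : G, MeasurePreserving (fun (f : V → ℝ) (x : V) => f (g • x)) μ μ) ∧
      ∀ (ι : Type) [Fintype ι] (x : ι → V) (cf : ι → ℝ),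
        μ.map (fun f => ∑ i, cf i * f (x i)) = gaussianReal 0 (‖∑ i, cf i • v (x i)‖₊ ^ 2) := by
  classical
  obtain ⟨e, he⟩ := Set.countable_iff_exists_subset_range.1 (Set.countable_range v)
  set w := InnerProductSpace.gramSchmidt ℝ e with hw
  have hb : ∀ x, ∃ b : ℕ →₀ ℝ, b.sum (fun i a => a • w i) = v x := fun x => by
    rw [← Finsupp.mem_span_range_iff_exists_finsupp, hw, InnerProductSpace.span_gramSchmidt]
    exact Submodule.subset_span (he ⟨x, rfl⟩)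
  choose b hb using hb
  set F : (ℕ → ℝ) → V → ℝ := fun g x => ∑ i ∈ (b x).support, b x i * ‖w i‖ * g i with hF
  have hFm : Measurable F := measurable_pi_lambda _ fun x => by
    simp only [hF]
    fun_prop
  set μ := (Measure.infinitePi fun _ : ℕ => gaussianReal 0 1).map F with hμ
  have hP : IsProbabilityMeasure μ := Measure.isProbabilityMeasure_map hFm.aemeasurable
  have key : ∀ (ι : Type) [Fintype ι] (x : ι → V) (cf : ι → ℝ),
      μ.map (fun f => ∑ i, cf i * f (x i)) = gaussianReal 0 (‖∑ i, cf i • v (x i)‖₊ ^ 2) := by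
    intro ι _ x cf
    set s := Finset.univ.biUnion fun k => (b (x k)).support with hs
    have hsub : ∀ k, (b (x k)).support ⊆ s := fun k =>
      Finset.subset_biUnion_of_mem (fun k => (b (x k)).support) (Finset.mem_univ k)
    have e1 : ∑ k, cf k • v (x k) = ∑ i ∈ s, (∑ k, cf k * b (x k) i) • w i := by
      simp only [Finset.sum_smul]
      rw [Finset.sum_comm]
      refine Finset.sum_congr rfl fun k _ => ?_
      rw [← hb, Finsupp.sum_of_support_subset _ (hsub k) (fun i (a : ℝ) => a • w i)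
        (fun i _ => zero_smul _ _),
        Finset.smul_sum]
      exact Finset.sum_congr rfl fun i _ => smul_smul _ _ _
    have e2 : (fun f : V → ℝ => ∑ k, cf k * f (x k)) ∘ F =
        fun g => ∑ i ∈ s, (∑ k, cf k * b (x k) i) * ‖w i‖ * g i := by
      funext g
      simp only [Function.comp_apply, Finset.sum_mul, hF]
      rw [Finset.sum_comm]
      refine Finset.sum_congr rfl fun k _ => ?_
      rw [Finset.sum_subset (hsub k) (fun i _ hi => by
        rw [Finsupp.notMem_support_iff.1 hi, zero_mul, zero_mul]), Finset.mul_sum]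
      exact Finset.sum_congr rfl fun i _ => by ring
    rw [hμ, Measure.map_map (by fun_prop) hFm, e2, GF_lin, e1,
      GF_norm w (InnerProductSpace.gramSchmidt_pairwise_orthogonal ℝ e)]
  refine ⟨μ, hP, fun g => ?_, key⟩
  have hT : Measurable fun (f : V → ℝ) (x : V) => f (g • x) := by fun_prop
  refine ⟨hT, ?_⟩
  have := Measure.isProbabilityMeasure_map (μ := μ) hT.aemeasurable
  refine GF_ext _ _ fun s cf => ?_
  rw [Measure.map_map (by fun_prop) hT, key s (fun i => i.1) cf]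
  have h1 := key s (fun i => g • i.1) cf
  have h2 : ‖∑ i : s, cf i • v (g • i.1)‖₊ ^ 2 = ‖∑ i : s, cf i • v i.1‖₊ ^ 2 := by
    ext
    push_cast
    rw [← real_inner_self_eq_norm_sq, ← real_inner_self_eq_norm_sq]
    simp only [sum_inner, inner_sum, real_inner_smul_left, real_inner_smul_right, hv]
  rw [h2] at h1
  exact h1

end Pool.Agent.Work.MP_01d39a_al.Ct
end

-- merged part: Pool.Agent.Work.MP_01d39a_al.Ct.Gau
section
/-!
TASK CT Gau. One-dimensional Gaussian estimates and the uniform shift.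
`mgf_id_gaussianReal` / `integrable_exp_mul_gaussianReal`: `∫ exp (t x) = exp (v t²/2)`; `exp (t|x|) ≤ exp (t x) + exp (-t x)`;
`x^4 ≤ 24 exp |x|`, `x² ≤ 2 exp |x|` (`Real.pow_div_factorial_le_exp`). Small ball: the density is at most
`1/sqrt (2 π v)` (`gaussianReal_apply`, `gaussianPDFReal`). Shift: for `|s - t| < 1`, `s ≤ t`, the floors differ only if
`fract (s + u) ≥ 1 - (t - s)`; the law of `fract (s + u)` is uniform (split `[0,1)` at `1 - fract s`).
-/

open MeasureTheory ProbabilityTheory Filter Topology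
open scoped BigOperators ENNReal NNReal

namespace Pool.Agent.Work.MP_01d39a_al.Ct

variable {G : Type} [Group G]

theorem Gau_exp (v : ℝ≥0) (t : ℝ) :
    ∫ x, Real.exp (t * x) ∂gaussianReal 0 v = Real.exp (v * t ^ 2 / 2) := by
  have h := congrFun (mgf_id_gaussianReal (μ := 0) (v := v)) t
  simpa [mgf] using h

theorem Gau_int (v : ℝ≥0) (t : ℝ) :
    Integrable (fun x => Real.exp (t * x) + Real.exp (-t * x)) (gaussianReal 0 v) :=
  (integrable_exp_mul_gaussianReal t).add (integrable_exp_mul_gaussianReal (-t))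

theorem Gau_exp2 (v : ℝ≥0) (t : ℝ) :
    ∫ x, (Real.exp (t * x) + Real.exp (-t * x)) ∂gaussianReal 0 v =
      2 * Real.exp (v * t ^ 2 / 2) := by
  rw [integral_add (integrable_exp_mul_gaussianReal t) (integrable_exp_mul_gaussianReal (-t)),
    Gau_exp, Gau_exp, neg_sq]
  ring

theorem Gau_abs_le (t x : ℝ) : Real.exp (t * |x|) ≤ Real.exp (t * x) + Real.exp (-t * x) := by
  have h1 := Real.exp_pos (t * x)
  have h2 := Real.exp_pos (-t * x)
  rcases abs_cases x with h | h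
  · rw [h.1]; linarith
  · rw [h.1, show t * -x = -t * x by ring]; linarith

theorem gau_memLp (v : ℝ≥0) : MemLp (fun x : ℝ => x) 4 (gaussianReal 0 v) :=
  memLp_id_gaussianReal' 4 (by simp)

theorem gau_sq (v : ℝ≥0) : ∫ x, x ^ 2 ∂gaussianReal 0 v = v := by
  have h := variance_fun_id_gaussianReal (μ := 0) (v := v)
  rw [variance_eq_integral (by fun_prop)] at h
  simpa using h

theorem gau_four (v : ℝ≥0) : ∫ x, x ^ 4 ∂gaussianReal 0 v ≤ 48 * Real.exp (v / 2) := by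
  have h : ∫ x, x ^ 4 ∂gaussianReal 0 v ≤
      ∫ x, 24 * (Real.exp (1 * x) + Real.exp (-1 * x)) ∂gaussianReal 0 v := by
    refine integral_mono_of_nonneg (Eventually.of_forall fun x => by positivity)
      ((Gau_int v 1).const_mul 24) (Eventually.of_forall fun x => ?_)
    have h1 := Real.pow_div_factorial_le_exp |x| (abs_nonneg x) 4
    have h2 := Gau_abs_le 1 x
    rw [one_mul] at h2
    have h3 : |x| ^ 4 = x ^ 4 := by
      rw [show (4 : ℕ) = 2 * 2 from rfl, pow_mul, pow_mul, sq_abs]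
    have h4 : ((Nat.factorial 4 : ℕ) : ℝ) = 24 := by norm_num [Nat.factorial]
    rw [h3, h4] at h1
    simp only
    linarith
  rw [integral_const_mul, Gau_exp2] at h
  simp only [one_pow, mul_one] at h
  linarith

theorem gau_abs (v : ℝ≥0) : ∫ x, |x| ∂gaussianReal 0 v ≤ 1 + v := by
  have h2 : Integrable (fun x : ℝ => x ^ 2) (gaussianReal 0 v) :=
    (memLp_id_gaussianReal' (μ := 0) (v := v) 2 (by simp)).integrable_sq
  have h : ∫ x, |x| ∂gaussianReal 0 v ≤ ∫ x, (1 + x ^ 2) ∂gaussianReal 0 v := by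
    refine integral_mono_of_nonneg (Eventually.of_forall fun x => abs_nonneg x)
      ((integrable_const 1).add h2) (Eventually.of_forall fun x => ?_)
    have := sq_abs x
    simp only
    nlinarith [sq_nonneg (|x| - 1), abs_nonneg x]
  rw [integral_add (integrable_const 1) h2, gau_sq] at h
  simpa using h

theorem gau_tail (v : ℝ≥0) (t : ℝ) : ∫ x, (if t < |x| then x ^ 2 else 0) ∂gaussianReal 0 v ≤
    4 * Real.exp (2 * v) * Real.exp (-t) := by
  have h : ∫ x, (if t < |x| then x ^ 2 else 0) ∂gaussianReal 0 v ≤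
      ∫ x, 2 * Real.exp (-t) * (Real.exp (2 * x) + Real.exp (-2 * x)) ∂gaussianReal 0 v := by
    refine integral_mono_of_nonneg (Eventually.of_forall fun x => ?_)
      ((Gau_int v 2).const_mul _) (Eventually.of_forall fun x => ?_)
    · simp only [Pi.zero_apply]
      split_ifs <;> positivity
    · simp only
      split_ifs with hx
      · have h1 := Real.pow_div_factorial_le_exp |x| (abs_nonneg x) 2
        have h2 := Gau_abs_le 2 x
        have h4 : ((Nat.factorial 2 : ℕ) : ℝ) = 2 := by norm_num [Nat.factorial]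
        rw [sq_abs, h4] at h1
        have h5 : Real.exp |x| ≤ Real.exp (-t) * Real.exp (2 * |x|) := by
          rw [← Real.exp_add]
          exact Real.exp_le_exp.2 (by linarith)
        have h6 := mul_le_mul_of_nonneg_left h2 (Real.exp_pos (-t)).le
        linarith
      · positivity
  rw [integral_const_mul, Gau_exp2] at h
  rw [show (v : ℝ) * 2 ^ 2 / 2 = 2 * v by ring] at h
  linarith

theorem gau_small {v : ℝ≥0} (hv : v ≠ 0) {η : ℝ} (hη : 0 < η) :
    (gaussianReal 0 v).real {x | x ^ 2 < η * v} ≤ √η := by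
  have hv0 : (0 : ℝ) < v := by positivity
  set r : ℝ := √(η * v) with hr
  have hr0 : 0 < r := Real.sqrt_pos.2 (by positivity)
  have hset : {x : ℝ | x ^ 2 < η * v} ⊆ Set.Ioo (-r) r := by
    intro x hx
    have : |x| < r := by
      rw [hr]
      exact Real.lt_sqrt_of_sq_lt (by rw [sq_abs]; exact hx)
    exact abs_lt.1 this
  have hpdf : ∀ x, gaussianPDFReal 0 v x ≤ (√(2 * Real.pi * v))⁻¹ := by
    intro x
    rw [gaussianPDFReal]
    refine mul_le_of_le_one_right (by positivity) ?_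
    rw [Real.exp_le_one_iff]
    refine div_nonpos_of_nonpos_of_nonneg ?_ (by positivity)
    have := sq_nonneg (x - 0)
    linarith
  have h1 : gaussianReal 0 v {x | x ^ 2 < η * v} ≤ ENNReal.ofReal (√η) := by
    refine (measure_mono hset).trans ?_
    rw [gaussianReal_apply 0 hv]
    calc ∫⁻ x in Set.Ioo (-r) r, gaussianPDF 0 v x
        ≤ ∫⁻ _ in Set.Ioo (-r) r, ENNReal.ofReal ((√(2 * Real.pi * v))⁻¹) :=
          lintegral_mono fun x => ENNReal.ofReal_le_ofReal (hpdf x)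
      _ = ENNReal.ofReal ((√(2 * Real.pi * v))⁻¹ * (r - -r)) := by
          rw [setLIntegral_const, Real.volume_Ioo, ENNReal.ofReal_mul (by positivity)]
      _ ≤ ENNReal.ofReal (√η) := by
          refine ENNReal.ofReal_le_ofReal ?_
          have hs : 0 < √(2 * Real.pi * v) := Real.sqrt_pos.2 (by positivity)
          rw [inv_mul_le_iff₀ hs, ← Real.sqrt_mul (by positivity)]
          refine Real.le_sqrt_of_sq_le ?_
          have h2 : r ^ 2 = η * v := Real.sq_sqrt (by positivity)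
          have h3 := Real.pi_gt_three
          have h4 : 0 < η * v := by positivity
          nlinarith
  exact ENNReal.toReal_le_of_le_ofReal (Real.sqrt_nonneg _) h1

theorem Gau_unif (s a b : ℝ) (hab : a ≤ b) :
    unifM.real {u | a ≤ Int.fract (s + u) ∧ Int.fract (s + u) < b} ≤ b - a := by
  set f := Int.fract s with hf
  have hf0 : 0 ≤ f := Int.fract_nonneg s
  have hf1 : f < 1 := Int.fract_lt_one s
  set c : ℝ := max (a - f) (min 0 (b - f)) with hc
  have hca : a - f ≤ c := le_max_left _ _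
  have hcb : c ≤ b - f := max_le (by linarith) (min_le_right _ _)
  have hsub : {u | a ≤ Int.fract (s + u) ∧ Int.fract (s + u) < b} ∩ Set.Ico 0 1 ⊆
      Set.Ico c (b - f) ∪ Set.Ico (a - f + 1) (c + 1) := by
    rintro u ⟨⟨h1, h2⟩, h3, h4⟩
    have hs : s + u = (⌊s⌋ : ℝ) + (f + u) := by
      rw [hf, ← add_assoc, Int.floor_add_fract]
    by_cases hu : f + u < 1
    · have : Int.fract (s + u) = f + u := by
        rw [hs, Int.fract_intCast_add, Int.fract_eq_self.2 ⟨by linarith, hu⟩]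
      rw [this] at h1 h2
      left
      refine ⟨max_le (by linarith) ((min_le_left _ _).trans h3), by linarith⟩
    · have : Int.fract (s + u) = f + u - 1 := by
        rw [hs, Int.fract_intCast_add, ← Int.fract_sub_one,
          Int.fract_eq_self.2 ⟨by linarith, by linarith⟩]
      rw [this] at h1 h2
      right
      refine ⟨by linarith, ?_⟩
      have : u - 1 < c := lt_max_of_lt_right (lt_min (by linarith) (by linarith))
      linarith
  have h1 : unifM {u | a ≤ Int.fract (s + u) ∧ Int.fract (s + u) < b} ≤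
      ENNReal.ofReal (b - a) := by
    rw [unifM, Measure.restrict_apply' measurableSet_Ico]
    refine (measure_mono hsub).trans ((measure_union_le _ _).trans ?_)
    rw [Real.volume_Ico, Real.volume_Ico, ← ENNReal.ofReal_add (by linarith) (by linarith)]
    exact ENNReal.ofReal_le_ofReal (by linarith)
  exact ENNReal.toReal_le_of_le_ofReal (by linarith) h1

theorem Gau_floor (s t : ℝ) (hst : s ≤ t) : unifM.real {u | ⌊s + u⌋ ≠ ⌊t + u⌋} ≤ t - s := by
  have h := Gau_unif s (1 - (t - s)) 1 (by linarith)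
  rw [show 1 - (1 - (t - s)) = t - s by ring] at h
  refine le_trans (measureReal_mono ?_) h
  intro u hu
  refine ⟨?_, Int.fract_lt_one _⟩
  have h1 : ⌊s + u⌋ ≤ ⌊t + u⌋ := Int.floor_mono (by linarith)
  have h2 : ⌊s + u⌋ + 1 ≤ ⌊t + u⌋ := Int.add_one_le_iff.2 (lt_of_le_of_ne h1 hu)
  have h3 : ((⌊s + u⌋ : ℤ) : ℝ) + 1 ≤ ((⌊t + u⌋ : ℤ) : ℝ) := by exact_mod_cast h2
  have h4 := Int.floor_le (t + u)
  rw [Int.fract]
  linarith

theorem unif_floor (s t : ℝ) : unifM.real {u | ⌊s + u⌋ ≠ ⌊t + u⌋} ≤ |s - t| := by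
  rcases le_total s t with h | h
  · rw [abs_sub_comm, abs_of_nonneg (by linarith)]
    exact Gau_floor s t h
  · rw [abs_of_nonneg (by linarith)]
    have := Gau_floor t s h
    simpa only [ne_comm] using this

theorem unif_fract (s : ℝ) {ε : ℝ} (hε : 0 < ε) : unifM.real {u | Int.fract (s + u) < ε} ≤ ε := by
  have h := Gau_unif s 0 ε hε.le
  rw [sub_zero] at h
  refine le_trans (measureReal_mono ?_) h
  intro u hu
  exact ⟨Int.fract_nonneg _, hu⟩

end Pool.Agent.Work.MP_01d39a_al.Ct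
end

-- merged part: Pool.Agent.Work.MP_01d39a_al.Ct.KDefs
section
/-!
Operators on `L²` of a system (section 1.3 of h26_01d39a_PROOF.md).
-/

open MeasureTheory ProbabilityTheory Filter Topology
open scoped BigOperators ENNReal NNReal RealInnerProductSpace

namespace Pool.Agent.Work.MP_01d39a_al.Ct

noncomputable section

variable {G : Type} [Group G]

/-- `L²` of a system. -/
abbrev H2 (X : Sys G) : Type := Lp ℝ 2 X.P

/-- Koopman operator: `(U g f) ω = f (mv ω g)`. -/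
def Uop (X : Sys G) (g : G) : H2 X →L[ℝ] H2 X :=
  (Lp.compMeasurePreservingₗᵢ ℝ (fun ω => X.mv ω g) (X.mp g)).toContinuousLinearMap

theorem Uop_coe (X : Sys G) (g : G) (f : H2 X) : Uop X g f =ᵐ[X.P] fun ω => f (X.mv ω g) :=
  Lp.coeFn_compMeasurePreserving f (X.mp g)

theorem Uop_norm (X : Sys G) (g : G) (f : H2 X) : ‖Uop X g f‖ = ‖f‖ :=
  (Lp.compMeasurePreservingₗᵢ ℝ (fun ω => X.mv ω g) (X.mp g)).norm_map f

theorem memLp_ix (X : Sys G) (A : Set X.Ω) (hA : MeasurableSet A) (f : H2 X) :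
    MemLp (A.indicator (f : X.Ω → ℝ)) 2 X.P := (Lp.memLp f).indicator hA

/-- Multiplication by an indicator, as a linear map. -/
def IxL (X : Sys G) (A : Set X.Ω) (hA : MeasurableSet A) : H2 X →ₗ[ℝ] H2 X where
  toFun f := (memLp_ix X A hA f).toLp (A.indicator f)
  map_add' f f' := by
    rw [← MemLp.toLp_add]
    refine MemLp.toLp_congr _ _ ?_
    filter_upwards [Lp.coeFn_add f f'] with ω hω
    by_cases h : ω ∈ A
    · simp only [Pi.add_apply, Set.indicator_of_mem h] at hω ⊢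
      exact hω
    · simp only [Pi.add_apply, Set.indicator_of_notMem h, add_zero]
  map_smul' r f := by
    rw [RingHom.id_apply, ← MemLp.toLp_const_smul]
    refine MemLp.toLp_congr _ _ ?_
    filter_upwards [Lp.coeFn_smul r f] with ω hω
    by_cases h : ω ∈ A <;> simp [h, hω]

theorem IxL_apply (X : Sys G) (A : Set X.Ω) (hA : MeasurableSet A) (f : H2 X) :
    IxL X A hA f = (memLp_ix X A hA f).toLp (A.indicator f) := rfl

theorem IxL_norm (X : Sys G) (A : Set X.Ω) (hA : MeasurableSet A) (f : H2 X) :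
    ‖IxL X A hA f‖ ≤ 1 * ‖f‖ := by
  rw [one_mul, IxL_apply]
  refine Lp.norm_le_norm_of_ae_le ?_
  filter_upwards [(memLp_ix X A hA f).coeFn_toLp] with ω hω
  rw [hω]
  exact norm_indicator_le_norm_self _ _

/-- Multiplication by an indicator. -/
def Ix (X : Sys G) (A : Set X.Ω) (hA : MeasurableSet A) : H2 X →L[ℝ] H2 X :=
  (IxL X A hA).mkContinuous 1 (IxL_norm X A hA)

theorem Ix_coe (X : Sys G) (A : Set X.Ω) (hA : MeasurableSet A) (f : H2 X) :
    Ix X A hA f =ᵐ[X.P] fun ω => ind (ω ∈ A) * f ω := by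
  rw [Ix, LinearMap.mkContinuous_apply, IxL_apply]
  filter_upwards [(memLp_ix X A hA f).coeFn_toLp] with ω hω
  rw [hω]
  by_cases h : ω ∈ A <;> simp [h, ind]

/-- The killed one-letter operator. -/
def Mop [Countable G] (c : Ctx G) (X : Sys G) (Z : G → Set X.Ω) (hZ : Meas X Z) :
    H2 X →L[ℝ] H2 X :=
  (2 * c.S.card : ℝ)⁻¹ • ∑ b : Bool × c.S,
    (Ix X {ω | Con X c.a Z ω 1 (lt b)} (measurableSet_con hZ 1 _)).comp (Uop X (lt b))

/-- Symmetric averages along `a`. -/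
def Ak (X : Sys G) (a : G) (K : ℕ) : H2 X →L[ℝ] H2 X :=
  (2 * K + 1 : ℝ)⁻¹ • ∑ k : Fin (2 * K + 1), Uop X (a ^ ex K k)

/-- The `a`-invariant vectors. -/
def Fix (X : Sys G) (a : G) : Submodule ℝ (H2 X) := (Uop X a).eqLocus (1 : H2 X →L[ℝ] H2 X)

theorem mem_Fix {X : Sys G} {a : G} {f : H2 X} : f ∈ Fix X a ↔ Uop X a f = f := Iff.rfl

instance (X : Sys G) (a : G) : (Fix X a).HasOrthogonalProjection := by
  unfold Fix; infer_instance

/-- Projection on the `a`-invariant vectors. -/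
def Pa (X : Sys G) (a : G) : H2 X →L[ℝ] H2 X := (Fix X a).starProjection

/-- The limit operator. -/
def Top' [Countable G] (c : Ctx G) (X : Sys G) (Z : G → Set X.Ω) (hZ : Meas X Z) :
    H2 X →L[ℝ] H2 X :=
  Pa X c.a * Mop c X Z hZ * Pa X c.a

/-- The operator of the walk with parameter `K`. -/
def TK [Countable G] (c : Ctx G) (X : Sys G) (Z : G → Set X.Ω) (hZ : Meas X Z) (K : ℕ) :
    H2 X →L[ℝ] H2 X :=
  Ak X c.a K * Mop c X Z hZ * Ak X c.a K

/-- The constant function one. -/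
def oneL (X : Sys G) : H2 X := (memLp_const (1 : ℝ)).toLp fun _ => 1

/-- A positive contraction. -/
structure PosC {H : Type} [NormedAddCommGroup H] [InnerProductSpace ℝ H] (T : H →L[ℝ] H) :
    Prop where
  symm : ∀ x y, ⟪T x, y⟫ = ⟪x, T y⟫
  pos : ∀ x, 0 ≤ ⟪T x, x⟫
  le : ∀ x, ⟪T x, x⟫ ≤ ‖x‖ ^ 2

/-- Output of section 1.3 for the killed walk. -/
structure KillPack (c : Ctx G) (X : Sys G) (Z : G → Set X.Ω) (φ : ℕ → X.Ω → ℝ) : Prop where
  meas : ∀ n, Measurable (φ n)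
  zero : ∀ ω, φ 0 ω = 1
  nonneg : ∀ n, ∀ᵐ ω ∂X.P, 0 ≤ φ n ω
  anti : ∀ n, ∀ᵐ ω ∂X.P, φ (n + 1) ω ≤ φ n ω
  ainv : ∀ n, ∀ᵐ ω ∂X.P, φ n (X.mv ω c.a) = φ n ω
  diff : ∀ n n' t : ℕ, n ≤ n' → 1 ≤ t →
    ∫ ω, φ (n + t) ω ∂X.P - ∫ ω, φ (n' + t) ω ∂X.P ≤ n' / t
  energy : ∀ n n' : ℕ, n ≤ n' → ∀ γ ∈ c.S,
    ∫ ω, (ind (Con X c.a Z ω 1 γ) *
        ((φ n (X.mv ω γ) - φ n' (X.mv ω γ)) - (φ n ω - φ n' ω)) ^ 2 +
      ind (¬ Con X c.a Z ω 1 γ) *
        ((φ n ω - φ n' ω) ^ 2 + (φ n (X.mv ω γ) - φ n' (X.mv ω γ)) ^ 2)) ∂X.P ≤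
      8 * c.S.card / (2 * n + 1)
  walk : ∀ n t : ℕ, Tendsto (fun K => avgW t fun w =>
      ∫ ω, ind (Stay X c.a Z (c.gs K) ω w) * φ n (X.mv ω (pw (c.gs K) w)) ∂X.P) atTop
    (𝓝 (∫ ω, φ (n + t) ω ∂X.P))
  lim : X.P {ω | ∀ g, Con X c.a Z ω 1 g} = 0 → Tendsto (fun n => ∫ ω, φ n ω ∂X.P) atTop (𝓝 0)

/-- Output of the first half of section 3: an almost harmonic family of vectors. -/
structure VecPack (c : Ctx G) {H : Type} [NormedAddCommGroup H] [InnerProductSpace ℝ H]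
    (v : G → H) (x₀ : ℝ) : Prop where
  gram : ∀ g x y, ⟪v (g * x), v (g * y)⟫ = ⟪v x, v y⟫
  ainv : ∀ g, v (g * c.a) = v g
  norm : ∑ γ ∈ c.S, ‖v γ - v 1‖ ^ 2 = 2 * c.S.card
  drift : ∀ᶠ K in atTop, ‖(Fintype.card (Step c K) : ℝ)⁻¹ • (∑ s : Step c K, v (c.gs K s)) - v 1‖ ^ 2
    ≤ x₀

/-- Class coins. -/
structure CoinPack (X Y : Sys G) (a : G) (Z : G → Set X.Ω) (π : Y.Ω → X.Ω) (cn : Y.Ω → Bool)
    (p : ℝ) : Prop where
  fac : Fac Y X π
  meas : Measurable cn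
  const : ∀ ω x, Con X a Z (π ω) 1 x → cn (Y.mv ω x) = cn ω
  one : ∀ A : Set X.Ω, MeasurableSet A → ∀ b : Bool,
    Y.P.real {ω | π ω ∈ A ∧ cn ω = b} = X.P.real A * (if b then p else 1 - p)
  two : ∀ A : Set X.Ω, MeasurableSet A → ∀ (x : G) (b b' : Bool),
    Y.P.real {ω | π ω ∈ A ∧ ¬ Con X a Z (π ω) 1 x ∧ cn ω = b ∧ cn (Y.mv ω x) = b'} =
      X.P.real {ω | ω ∈ A ∧ ¬ Con X a Z ω 1 x} * (if b then p else 1 - p) *
        (if b' then p else 1 - p)

end

end Pool.Agent.Work.MP_01d39a_al.Ct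
end

-- merged part: Pool.Agent.Work.MP_01d39a_al.Ct.Mom
section
/-!
TASK CT Mom. From almost harmonic vectors to heights (section 3, Facts).
`V = G ⧸ Subgroup.zpowers a`, `v` descends to `V` (`VecPack.ainv`), `gauss_field`; system
`(Sys.fld G V ℝ μ _).prod (Sys.unif G)`, `z (f, u) = f (mk 1) + κ u`. The jump along `g` is `f (mk g) - f (mk 1)`,
Gaussian of variance `‖v g - v 1‖²`; for `g = a^k γ a^k'` this is `‖v γ - v 1‖²` (`gram`, `ainv`), which is `≤ 2|S|`,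
zero for lazy letters, with average 1 over steps. v2: Jensen `(𝔼 J²)² ≤ 𝔼 J⁴` and `gau_four` (`48 e^|S| ≤ Cs`).
small: with weights `σ_s²` (average 1): if `𝔼 J² < η` then `𝔼 σ_s² ind (J_s² < 2 η σ_s²) ≥ 1/2`; Markov and `gau_small`.
drift: `dr` is a linear combination of coordinates, variance `VecPack.drift`. shift and slow: Fubini over `f`
(`Measure.prod_apply`), `Mx (f,u) w = Mx (f,0) w + κ u`, `unif_fract`, `unif_floor`, `gau_abs`.
-/

open MeasureTheory ProbabilityTheory Filter Topology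
open scoped BigOperators ENNReal NNReal RealInnerProductSpace

namespace Pool.Agent.Work.MP_01d39a_al.Ct

variable {G : Type} [Group G]

section gau

variable {Ω : Type} [MeasurableSpace Ω] {P : Measure Ω} {r : ℝ≥0} {J : Ω → ℝ}

theorem Mom_int (h : MeasurePreserving J P (gaussianReal 0 r)) {F : ℝ → ℝ} (hF : Measurable F) :
    ∫ ω, F (J ω) ∂P = ∫ x, F x ∂gaussianReal 0 r := by
  rw [← h.map_eq, integral_map h.measurable.aemeasurable hF.aestronglyMeasurable]

theorem Mom_g4 (r : ℝ≥0) : Integrable (fun x : ℝ => x ^ 4) (gaussianReal 0 r) := by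
  have h := (gau_memLp r).integrable_norm_pow (p := 4) (by norm_num)
  refine h.congr (Eventually.of_forall fun x => ?_)
  simp only [Real.norm_eq_abs]
  exact (by decide : Even 4).pow_abs x

theorem Mom_g2 (r : ℝ≥0) : Integrable (fun x : ℝ => x ^ 2) (gaussianReal 0 r) :=
  ((gau_memLp r).mono_exponent (by norm_num)).integrable_sq

theorem Mom_g1 (r : ℝ≥0) : Integrable (fun x : ℝ => |x|) (gaussianReal 0 r) :=
  ((gau_memLp r).integrable (by norm_num)).abs

theorem Mom_mt (t : ℝ) : Measurable fun x : ℝ => if t < |x| then x ^ 2 else 0 :=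
  Measurable.ite (measurableSet_lt measurable_const (by fun_prop)) (by fun_prop) measurable_const

theorem Mom_gt (r : ℝ≥0) (t : ℝ) :
    Integrable (fun x : ℝ => if t < |x| then x ^ 2 else 0) (gaussianReal 0 r) := by
  refine (Mom_g2 r).mono' (Mom_mt t).aestronglyMeasurable (Eventually.of_forall fun x => ?_)
  split_ifs
  · rw [Real.norm_of_nonneg (sq_nonneg x)]
  · rw [norm_zero]
    exact sq_nonneg x

theorem Mom_comp (h : MeasurePreserving J P (gaussianReal 0 r)) {F : ℝ → ℝ}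
    (hF : Integrable F (gaussianReal 0 r)) : Integrable (fun ω => F (J ω)) P :=
  (h.integrable_comp hF.1).2 hF

theorem Mom_fub [IsProbabilityMeasure P] {E : Ω × ℝ → Prop} (hE : MeasurableSet {p | E p})
    {b : Ω → ℝ} (hb : Integrable b P) (h : ∀ ω, unifM.real {u | E (ω, u)} ≤ b ω) :
    (P.prod unifM).real {p | E p} ≤ ∫ ω, b ω ∂P := by
  have hi := integrable_ind (P.prod unifM) hE
  rw [← integral_ind _ hE, integral_prod _ hi]
  refine integral_mono hi.integral_prod_left hb fun ω => ?_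
  have hm : MeasurableSet {u | E (ω, u)} := measurable_prodMk_left hE
  exact (integral_ind unifM hm).le.trans (h ω)

variable {σ : Type} [Fintype σ] {j : Ω → σ → ℝ} {q : σ → ℝ≥0}
  (h : ∀ s, MeasurePreserving (fun ω => j ω s) P (gaussianReal 0 (q s)))
include h

theorem Mom_v1 : ∫ ω, (𝔼 s, j ω s ^ 2) ∂P = 𝔼 s, (q s : ℝ) := by
  rw [integral_expect fun s => Mom_comp (h s) (Mom_g2 _)]
  exact Finset.expect_congr rfl fun s _ => by rw [Mom_int (h s) (F := fun x => x ^ 2) (by fun_prop), gau_sq]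

variable [Nonempty σ] {M : ℝ} (hM : ∀ s, (q s : ℝ) ≤ M)
include hM

theorem Mom_v2 : ∫ ω, (𝔼 s, j ω s ^ 2) ^ 2 ∂P ≤ 48 * Real.exp (M / 2) := by
  have hi : ∀ s, Integrable (fun ω => j ω s ^ 4) P := fun s => Mom_comp (h s) (Mom_g4 _)
  calc ∫ ω, (𝔼 s, j ω s ^ 2) ^ 2 ∂P ≤ ∫ ω, (𝔼 s, j ω s ^ 4) ∂P := by
        refine integral_mono_of_nonneg (Eventually.of_forall fun ω => sq_nonneg _)
          (integrable_expect hi) (Eventually.of_forall fun ω => ?_)
        have h1 := Finset.expect_mul_sq_le_sq_mul_sq Finset.univ (fun s => j ω s ^ 2) fun _ => 1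
        simp only [mul_one, one_pow, Fintype.expect_const, ← pow_mul] at h1
        exact h1
    _ ≤ _ := by
        rw [integral_expect hi]
        refine Finset.expect_le Finset.univ_nonempty fun s _ => ?_
        rw [Mom_int (h s) (F := fun x => x ^ 4) (by fun_prop)]
        refine (gau_four _).trans ?_
        have := hM s
        gcongr

theorem Mom_tail (t : ℝ) : ∫ ω, (𝔼 s, if t < |j ω s| then j ω s ^ 2 else 0) ∂P ≤
    4 * Real.exp (2 * M) * Real.exp (-t) := by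
  rw [integral_expect fun s => Mom_comp (h s) (Mom_gt _ t)]
  refine Finset.expect_le Finset.univ_nonempty fun s _ => ?_
  rw [Mom_int (h s) (Mom_mt t)]
  refine (gau_tail _ t).trans ?_
  have := hM s
  gcongr

omit [Nonempty σ] hM in
theorem Mom_small [IsProbabilityMeasure P] (h1 : 𝔼 s, (q s : ℝ) = 1) {η : ℝ} (hη : 0 < η) :
    P.real {ω | 𝔼 s, j ω s ^ 2 < η} ≤ 4 * √η := by
  have hm : ∀ s, MeasurableSet {x : ℝ | x ^ 2 < 2 * η * q s} := fun s =>
    measurableSet_lt (by fun_prop) measurable_const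
  have hm' : ∀ s, MeasurableSet {ω | j ω s ^ 2 < 2 * η * q s} := fun s => (h s).measurable (hm s)
  have hi : ∀ s, Integrable (fun ω => (q s : ℝ) * ind (j ω s ^ 2 < 2 * η * q s)) P := fun s =>
    (integrable_ind P (hm' s)).const_mul _
  have hsub : {ω | 𝔼 s, j ω s ^ 2 < η} ⊆
      {ω | 1 / 2 ≤ 𝔼 s, (q s : ℝ) * ind (j ω s ^ 2 < 2 * η * q s)} := by
    intro ω hω
    have h2 : 𝔼 s, (q s : ℝ) ≤
        𝔼 s, ((q s : ℝ) * ind (j ω s ^ 2 < 2 * η * q s) + j ω s ^ 2 / (2 * η)) := by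
      refine Finset.expect_le_expect fun s _ => ?_
      by_cases hs : j ω s ^ 2 < 2 * η * q s
      · rw [ind_pos hs, mul_one]
        exact le_add_of_nonneg_right (by positivity)
      · rw [ind_neg hs, mul_zero, zero_add, le_div_iff₀ (by positivity)]
        linarith [not_lt.1 hs]
    rw [h1, Finset.expect_add_distrib, ← Finset.expect_div] at h2
    have h3 : (𝔼 s, j ω s ^ 2) / (2 * η) ≤ 1 / 2 := by
      rw [div_le_iff₀ (by positivity)]
      have : 𝔼 s, j ω s ^ 2 < η := hω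
      linarith
    rw [Set.mem_ofPred_eq]
    linarith
  have h4 := mul_meas_ge_le_integral_of_nonneg (μ := P)
    (f := fun ω => 𝔼 s, (q s : ℝ) * ind (j ω s ^ 2 < 2 * η * q s))
    (Eventually.of_forall fun ω => Finset.expect_nonneg fun s _ =>
      mul_nonneg (q s).2 (ind_nonneg _)) (integrable_expect hi) (1 / 2)
  have h5 : ∫ ω, (𝔼 s, (q s : ℝ) * ind (j ω s ^ 2 < 2 * η * q s)) ∂P ≤ √(2 * η) := by
    rw [integral_expect hi]
    calc _ ≤ 𝔼 s, (q s : ℝ) * √(2 * η) := by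
          refine Finset.expect_le_expect fun s _ => ?_
          rw [integral_const_mul, integral_ind P (hm' s)]
          by_cases hq : q s = 0
          · simp [hq]
          refine mul_le_mul_of_nonneg_left ?_ (q s).2
          refine le_trans (le_of_eq ?_) (gau_small hq (by positivity : 0 < 2 * η))
          exact (h s).measureReal_preimage (hm s).nullMeasurableSet
      _ = _ := by rw [← Finset.expect_mul, h1, one_mul]
  have h6 : √(2 * η) ≤ 2 * √η := by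
    rw [Real.sqrt_le_left (by positivity), mul_pow, Real.sq_sqrt hη.le]
    linarith
  have h7 := measureReal_mono (μ := P) hsub
  linarith

end gau

section vec

variable {c : Ctx G} {H : Type} [NormedAddCommGroup H] [InnerProductSpace ℝ H] {v : G → H} {x₀ : ℝ}

theorem Mom_zpow (hv : VecPack c v x₀) (g : G) (k : ℤ) : v (g * c.a ^ k) = v g := by
  induction k using Int.induction_on with
  | zero => rw [zpow_zero, mul_one]
  | succ n ih => rw [zpow_add_one, ← mul_assoc, hv.ainv, ih]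
  | pred n ih =>
    rw [← hv.ainv (g * c.a ^ (-(n : ℤ) - 1)), mul_assoc, ← zpow_add_one, sub_add_cancel, ih]

theorem Mom_dist (hv : VecPack c v x₀) (g x y : G) :
    ‖v (g * x) - v (g * y)‖ ^ 2 = ‖v x - v y‖ ^ 2 := by
  rw [← real_inner_self_eq_norm_sq, ← real_inner_self_eq_norm_sq]
  simp only [inner_sub_left, inner_sub_right, hv.gram]

theorem Mom_step (hv : VecPack c v x₀) (K : ℕ) (s : Step c K) :
    ‖v (c.gs K s) - v 1‖ ^ 2 = ‖v (lt s.2.1) - v 1‖ ^ 2 := by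
  rw [Ctx.gs, Mom_zpow hv, ← Mom_dist hv (c.a ^ ex K s.1) (lt s.2.1) 1, mul_one,
    ← one_mul (c.a ^ ex K s.1), Mom_zpow hv, one_mul]

theorem Mom_le (hv : VecPack c v x₀) {γ : G} (hγ : γ ∈ c.S) :
    ‖v γ - v 1‖ ^ 2 ≤ 2 * c.S.card := by
  rw [← hv.norm]
  exact Finset.single_le_sum (f := fun γ => ‖v γ - v 1‖ ^ 2) (fun _ _ => sq_nonneg _) hγ

theorem Mom_step_le (hv : VecPack c v x₀) (K : ℕ) (s : Step c K) :
    ‖v (c.gs K s) - v 1‖ ^ 2 ≤ 2 * c.S.card := by
  rw [Mom_step hv]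
  obtain ⟨k, ⟨b, γ⟩, k'⟩ := s
  cases b
  · simp [lt]
  · exact Mom_le hv γ.2

theorem Mom_avg (hv : VecPack c v x₀) (K : ℕ) :
    𝔼 s : Step c K, ‖v (c.gs K s) - v 1‖ ^ 2 = 1 := by
  have hS : (c.S.card : ℝ) ≠ 0 := Nat.cast_ne_zero.2 c.ne.card_pos.ne'
  have h1 : ∑ γ : c.S, ‖v γ - v 1‖ ^ 2 = 2 * c.S.card := by
    rw [← hv.norm]
    exact Finset.sum_coe_sort c.S fun γ => ‖v γ - v 1‖ ^ 2
  simp only [Mom_step hv, Fintype.expect_eq_sum_div_card, Fintype.sum_prod_type, lt,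
    Fintype.sum_bool, Finset.sum_const, Finset.card_univ, Fintype.card_fin, nsmul_eq_mul,
    Fintype.card_prod, Fintype.card_bool, Fintype.card_coe, if_true, Bool.false_eq_true, if_false,
    sub_self, norm_zero, ← Finset.mul_sum, h1]
  push_cast
  field_simp
  ring

theorem Mom_field [Countable G] (hv : VecPack c v x₀) :
    ∃ (Y : Sys G) (y : Y.Ω → ℝ), Measurable y ∧ (∀ ω, y (Y.mv ω c.a) = y ω) ∧
      ∀ (ι : Type) [Fintype ι] (x : ι → G) (cf : ι → ℝ),
        MeasurePreserving (fun ω => ∑ i, cf i * y (Y.mv ω (x i))) Y.P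
          (gaussianReal 0 (‖∑ i, cf i • v (x i)‖₊ ^ 2)) := by
  let w : G ⧸ Subgroup.zpowers c.a → H := fun q => v q.out
  have hw : ∀ g : G, w (QuotientGroup.mk g) = v g := fun g => by
    obtain ⟨⟨_, k, rfl⟩, e⟩ := QuotientGroup.mk_out_eq_mul (Subgroup.zpowers c.a) g
    simp only [w, e]
    exact Mom_zpow hv g k
  have : Countable (G ⧸ Subgroup.zpowers c.a) := QuotientGroup.mk_surjective.countable
  obtain ⟨μ, hμ, h1, h2⟩ := gauss_field (G := G) w fun g x y => by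
    induction x using QuotientGroup.induction_on
    induction y using QuotientGroup.induction_on
    simp only [MulAction.Quotient.smul_mk, smul_eq_mul, hw, hv.gram]
  refine ⟨Sys.fld G _ ℝ μ h1, fun f => f (QuotientGroup.mk 1), measurable_pi_apply _,
    fun f => ?_, fun ι _ x cf => ⟨by fun_prop, ?_⟩⟩
  · change f (c.a • QuotientGroup.mk 1) = _
    rw [MulAction.Quotient.smul_mk]
    exact congrArg f (QuotientGroup.eq.2 (by simp))
  · have h3 := h2 ι (fun i => QuotientGroup.mk (x i)) cf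
    simp only [hw] at h3
    simpa only [MulAction.Quotient.smul_mk, smul_eq_mul, mul_one] using h3

end vec

theorem Mom_exp (c : Ctx G) : 48 * Real.exp (2 * (c.S.card : ℝ) / 2) ≤ c.Cs := by
  have h1 : (1 : ℝ) ≤ c.S.card := by exact_mod_cast c.ne.card_pos
  have h2 : 12 ≤ Real.exp (3 * c.S.card) := by
    have h3 : Real.exp 3 ≤ Real.exp (3 * c.S.card) := Real.exp_le_exp.2 (by linarith)
    have h4 : Real.exp 3 = Real.exp 1 ^ 3 := by rw [← Real.exp_nat_mul]; norm_num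
    have h5 : (2.5 : ℝ) ^ 3 ≤ Real.exp 1 ^ 3 :=
      pow_le_pow_left₀ (by norm_num) (by linarith [Real.exp_one_gt_d9]) 3
    rw [h4] at h3
    linarith
  have h6 : Real.exp (4 * c.S.card) = Real.exp (3 * c.S.card) * Real.exp (2 * c.S.card / 2) := by
    rw [← Real.exp_add]
    congr 1
    ring
  rw [Ctx.Cs, h6]
  nlinarith [Real.exp_pos (2 * (c.S.card : ℝ) / 2)]

theorem Mom_mx {σ : Type} (h : Ht G σ) (hz : Measurable h.z) (w : List σ) :
    Measurable fun ω => h.Mx ω w := by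
  have e : (fun ω => h.Mx ω w) = (Finset.range (w.length + 1)).sup' Finset.nonempty_range_add_one
      fun i ω => h.z (h.st ω w i) := by
    funext ω
    rw [Finset.sup'_apply]
    rfl
  rw [e]
  exact Finset.measurable_sup' _ fun i _ => hz.comp (measurable_st h.X w i)

theorem heights_of_vec [Countable G] (c : Ctx G) {H : Type} [NormedAddCommGroup H]
    [InnerProductSpace ℝ H] {v : G → H} {x₀ : ℝ} (hv : VecPack c v x₀) {κ : ℝ} (hκ : 0 < κ) :
    ∃ (X : Sys G) (z : X.Ω → ℝ), HtPack c X z x₀ κ := by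
  obtain ⟨Y, y, hy, ha, hl⟩ := Mom_field hv
  have hJ : ∀ g : G, MeasurePreserving (fun ω => y (Y.mv ω g) - y ω) Y.P
      (gaussianReal 0 (‖v g - v 1‖₊ ^ 2)) := fun g => by
    have h1 := hl (Fin 2) ![g, 1] ![1, -1]
    simpa [Fin.sum_univ_two, Y.mv_one, sub_eq_add_neg] using h1
  have hz : Measurable fun p : Y.Ω × ℝ => y p.1 + κ * p.2 := by fun_prop
  refine ⟨Y.prod (Sys.unif G), fun p => y p.1 + κ * p.2, fun p => by simp only [ha], ?_, ?_⟩
  · intro γ hγ
    have hm : MeasurableSet {p : Y.Ω × ℝ |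
        ⌊(y (Y.mv p.1 γ) + κ * p.2) / κ⌋ ≠ ⌊(y p.1 + κ * p.2) / κ⌋} := by
      have h1 : Measurable fun p : Y.Ω × ℝ => y (Y.mv p.1 γ) + κ * p.2 :=
        (hy.comp ((Y.meas_mv γ).comp measurable_fst)).add (by fun_prop)
      exact (measurableSet_eq_fun (h1.div_const κ).floor (hz.div_const κ).floor).compl
    have hi := Mom_comp (hJ γ) (Mom_g1 _)
    refine (Mom_fub hm (hi.div_const κ) fun ω => ?_).trans ?_
    · have e : ∀ t u : ℝ, (t + κ * u) / κ = t / κ + u := fun t u => by field_simp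
      simp only [e]
      refine (unif_floor _ _).trans (le_of_eq ?_)
      rw [← sub_div, abs_div, abs_of_pos hκ]
    · rw [integral_div, Mom_int (hJ γ) (F := fun x => |x|) (by fun_prop)]
      refine div_le_div_of_nonneg_right ((gau_abs _).trans ?_) hκ.le
      have h1 := Mom_le hv hγ
      have h2 := Real.add_one_le_exp (4 * (c.S.card : ℝ))
      have h3 : (0 : ℝ) ≤ c.S.card := Nat.cast_nonneg _
      simp only [NNReal.coe_pow, coe_nnnorm, Ctx.Cs]
      linarith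
  filter_upwards [hv.drift] with K hK
  have hj : ∀ s : Step c K, MeasurePreserving
      (fun p => (c.ht K (Y.prod (Sys.unif G)) fun p => y p.1 + κ * p.2).J p s)
      (Y.P.prod unifM) (gaussianReal 0 (‖v (c.gs K s) - v 1‖₊ ^ 2)) := fun s => by
    have h1 := (hJ (c.gs K s)).comp (measurePreserving_fst (μ := Y.P) (ν := unifM))
    convert h1 using 1
    funext p
    simp only [Ht.J, Function.comp_apply]
    ring
  have hM : ∀ s : Step c K, ((‖v (c.gs K s) - v 1‖₊ ^ 2 : ℝ≥0) : ℝ) ≤ 2 * c.S.card := fun s => by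
    simpa only [NNReal.coe_pow, coe_nnnorm] using Mom_step_le hv K s
  have h1 : 𝔼 s : Step c K, ((‖v (c.gs K s) - v 1‖₊ ^ 2 : ℝ≥0) : ℝ) = 1 := by
    simpa only [NNReal.coe_pow, coe_nnnorm] using Mom_avg hv K
  refine ⟨hz, fun s => (gau_memLp _).comp_measurePreserving (hj s), ((Mom_v1 hj).trans h1).le,
    (Mom_v2 hj hM).trans (Mom_exp c), fun t _ => (Mom_tail hj hM t).trans (le_of_eq ?_),
    fun η hη => Mom_small hj h1 hη, ?_, fun w ε hε => ?_⟩
  · rw [Ctx.Cs]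
    congr 3
    ring
  · have h2 := (hl (Option (Step c K)) (fun o => o.elim 1 (c.gs K))
      fun o => o.elim (-1) fun _ => (Fintype.card (Step c K) : ℝ)⁻¹).comp
        (measurePreserving_fst (μ := Y.P) (ν := unifM))
    have h3 := Mom_int h2 (F := fun x => x ^ 2) (by fun_prop)
    rw [gau_sq] at h3
    have hc : (Fintype.card (Step c K) : ℝ) ≠ 0 := Nat.cast_ne_zero.2 Fintype.card_ne_zero
    refine le_trans (le_of_eq ?_) (h3.le.trans (le_trans (le_of_eq ?_) hK))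
    · refine integral_congr_ae (Eventually.of_forall fun p => ?_)
      simp only [Ht.dr, Ht.J, Function.comp_apply, Fintype.sum_option, Option.elim, Y.mv_one,
        Fintype.expect_eq_sum_div_card, Finset.sum_sub_distrib, Finset.sum_add_distrib,
        Finset.sum_const, Finset.card_univ, nsmul_eq_mul, ← Finset.mul_sum]
      congr 1
      field_simp
      ring
    · simp only [NNReal.coe_pow, coe_nnnorm, Fintype.sum_option, Option.elim, ← Finset.smul_sum,
        neg_smul, one_smul]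
      rw [neg_add_eq_sub]
  · have hm := Mom_mx (c.ht K (Y.prod (Sys.unif G)) fun p => y p.1 + κ * p.2) hz w
    refine (Mom_fub (P := Y.P) (measurableSet_lt (hm.div_const κ).fract measurable_const)
      (integrable_const ε) fun ω => ?_).trans (by simp)
    have e : ∀ u : ℝ, (c.ht K (Y.prod (Sys.unif G)) fun p => y p.1 + κ * p.2).Mx (ω, u) w / κ =
        (c.ht K Y y).Mx ω w / κ + u := fun u => by
      have e1 : (c.ht K (Y.prod (Sys.unif G)) fun p => y p.1 + κ * p.2).Mx (ω, u) w =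
          (c.ht K Y y).Mx ω w + κ * u := (Finset.sup'_add (Finset.range (w.length + 1))
            (fun i => y ((c.ht K Y y).st ω w i)) (κ * u) Finset.nonempty_range_add_one).symm
      rw [e1]
      field_simp
    simp only [e]
    exact unif_fract _ hε

end Pool.Agent.Work.MP_01d39a_al.Ct
end

-- merged part: Pool.Agent.Work.MP_01d39a_al.Ct.Hil1
section
/-!
TASK CT Hil1. Positive contractions of a real Hilbert space.
Key identity: `⟪T η, η⟫ - ‖T η‖² = ⟪T (η - T η), η - T η⟫ + (‖T η‖² - ⟪T (T η), T η⟫) ≥ 0`.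
`aa n - aa (n+1) ≥ 0`: parity of `n`. Second differences: `⟪T^n η, η⟫ ≥ 0` with `η = ξ - T ξ`.
exists_lim: `‖T^n ξ - T^m ξ‖² = aa (2n) - 2 aa (n+m) + aa (2m)` and `aa` converges, so the sequence is Cauchy.
ratio: otherwise `d (2n+2) ≤ (1 - x) d (2n)` for all `n`, so `∑_{k<2n} d k ≤ 2 d 0 / x < 1/2` and `aa n > 1/2`.
-/

open MeasureTheory ProbabilityTheory Filter Topology
open scoped BigOperators ENNReal NNReal RealInnerProductSpace

namespace Pool.Agent.Work.MP_01d39a_al.Ct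

variable {G : Type} [Group G]

variable {H : Type} [NormedAddCommGroup H] [InnerProductSpace ℝ H] {T : H →L[ℝ] H}

/-- Moments of `ξ`. -/
noncomputable def aa (T : H →L[ℝ] H) (ξ : H) (n : ℕ) : ℝ := ⟪(T ^ n) ξ, ξ⟫

theorem Hil1_key (hT : PosC T) (η : H) : ‖T η‖ ^ 2 ≤ ⟪T η, η⟫ := by
  have h1 := hT.pos (η - T η)
  have h2 := hT.le (T η)
  have h3 := hT.symm (T η) η
  rw [map_sub, inner_sub_left, inner_sub_right, inner_sub_right, h3,
    real_inner_self_eq_norm_sq] at h1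
  linarith

theorem Hil1_aa_zero (T : H →L[ℝ] H) (ξ : H) : aa T ξ 0 = ‖ξ‖ ^ 2 := by
  rw [aa, pow_zero, one_apply_eq_self, real_inner_self_eq_norm_sq]

theorem PosC.norm_le (hT : PosC T) (x : H) : ‖T x‖ ≤ ‖x‖ := by
  have h1 := Hil1_key hT x
  have h2 := hT.le x
  exact (sq_le_sq₀ (norm_nonneg _) (norm_nonneg _)).1 (h1.trans h2)

theorem PosC.inner_pow (hT : PosC T) (ξ : H) (n m : ℕ) :
    ⟪(T ^ n) ξ, (T ^ m) ξ⟫ = aa T ξ (n + m) := by
  induction m generalizing n with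
  | zero => simp [aa]
  | succ m ih =>
    rw [pow_succ', mul_apply_eq_comp, ← hT.symm, ← mul_apply_eq_comp,
      ← pow_succ', ih]
    congr 1
    omega

theorem PosC.aa_nonneg (hT : PosC T) (ξ : H) (n : ℕ) : 0 ≤ aa T ξ n := by
  obtain ⟨k, rfl | rfl⟩ := Nat.even_or_odd' n
  · rw [two_mul, ← hT.inner_pow]
    exact real_inner_self_nonneg
  · rw [show 2 * k + 1 = k + 1 + k by omega, ← hT.inner_pow, pow_succ',
      mul_apply_eq_comp]
    exact hT.pos _

theorem PosC.aa_anti (hT : PosC T) (ξ : H) : Antitone (aa T ξ) := by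
  refine antitone_nat_of_succ_le fun n => ?_
  obtain ⟨k, rfl | rfl⟩ := Nat.even_or_odd' n
  · rw [show 2 * k + 1 = k + 1 + k by omega, two_mul, ← hT.inner_pow, ← hT.inner_pow, pow_succ',
      mul_apply_eq_comp, real_inner_self_eq_norm_sq]
    exact hT.le _
  · rw [show 2 * k + 1 + 1 = k + 1 + (k + 1) by omega, show 2 * k + 1 = k + 1 + k by omega,
      ← hT.inner_pow, ← hT.inner_pow, real_inner_self_eq_norm_sq, pow_succ' T,
      mul_apply_eq_comp]
    exact Hil1_key hT _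

theorem PosC.dd_anti (hT : PosC T) (ξ : H) : Antitone fun n => aa T ξ n - aa T ξ (n + 1) := by
  refine antitone_nat_of_succ_le fun n => ?_
  have h1 := hT.aa_nonneg (ξ - T ξ) n
  have h2 : aa T (ξ - T ξ) n = ⟪(T ^ n) ξ - (T ^ (n + 1)) ξ, (T ^ 0) ξ - (T ^ 1) ξ⟫ := by
    rw [aa, map_sub, pow_succ T n, mul_apply_eq_comp, pow_zero, pow_one,
      one_apply_eq_self]
  rw [h2, inner_sub_left, inner_sub_right, inner_sub_right, hT.inner_pow, hT.inner_pow,
    hT.inner_pow, hT.inner_pow] at h1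
  simp only [add_zero] at h1
  linarith

theorem PosC.dd_le (hT : PosC T) (ξ : H) (n : ℕ) :
    (n + 1) * (aa T ξ n - aa T ξ (n + 1)) ≤ ‖ξ‖ ^ 2 := by
  have h : (n + 1) * (aa T ξ n - aa T ξ (n + 1)) ≤ aa T ξ 0 - aa T ξ (n + 1) := by
    induction n with
    | zero => simp
    | succ n ih =>
      have h1 : aa T ξ (n + 1) - aa T ξ (n + 1 + 1) ≤ aa T ξ n - aa T ξ (n + 1) :=
        hT.dd_anti ξ (Nat.le_succ n)
      have h2 := mul_le_mul_of_nonneg_left h1 (show (0 : ℝ) ≤ n + 1 by positivity)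
      push_cast
      linarith
  have h3 := hT.aa_nonneg ξ (n + 1)
  rw [Hil1_aa_zero] at h
  linarith

theorem PosC.diff_le (hT : PosC T) (ξ : H) {n n' t : ℕ} (h : n ≤ n') (ht : 1 ≤ t) :
    aa T ξ (n + t) - aa T ξ (n' + t) ≤ n' / t * ‖ξ‖ ^ 2 := by
  have h1 : ∀ m : ℕ, aa T ξ t - aa T ξ (m + t) ≤ m * (aa T ξ t - aa T ξ (t + 1)) := by
    intro m
    induction m with
    | zero => simp
    | succ m ih =>
      have h2 : aa T ξ (m + t) - aa T ξ (m + t + 1) ≤ aa T ξ t - aa T ξ (t + 1) :=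
        hT.dd_anti ξ (Nat.le_add_left t m)
      rw [show m + 1 + t = m + t + 1 by omega]
      push_cast
      linarith
  have h2 : aa T ξ (n + t) ≤ aa T ξ t := hT.aa_anti ξ (Nat.le_add_left t n)
  have h3 := hT.dd_le ξ t
  have h4 : aa T ξ (t + 1) ≤ aa T ξ t := hT.aa_anti ξ (Nat.le_succ t)
  have htp : (0 : ℝ) < t := by exact_mod_cast ht
  have h5 : aa T ξ t - aa T ξ (t + 1) ≤ ‖ξ‖ ^ 2 / t := by
    rw [le_div_iff₀ htp]
    linarith
  have h6 := mul_le_mul_of_nonneg_left h5 (Nat.cast_nonneg (α := ℝ) n')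
  have h7 : (n' : ℝ) / t * ‖ξ‖ ^ 2 = n' * (‖ξ‖ ^ 2 / t) := by ring
  have h8 := h1 n'
  linarith

/-- Energy of the difference of two iterates. -/
theorem PosC.energy_le (hT : PosC T) (ξ : H) {n n' : ℕ} (h : n ≤ n') :
    ‖(T ^ n) ξ - (T ^ n') ξ‖ ^ 2 - ⟪T ((T ^ n) ξ - (T ^ n') ξ), (T ^ n) ξ - (T ^ n') ξ⟫ ≤
      2 / (2 * n + 1) * ‖ξ‖ ^ 2 := by
  have e1 : ∀ k : ℕ, T ((T ^ k) ξ) = (T ^ (k + 1)) ξ := fun k => by
    rw [pow_succ', mul_apply_eq_comp]
  rw [← real_inner_self_eq_norm_sq, map_sub, e1, e1]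
  simp only [inner_sub_left, inner_sub_right, hT.inner_pow]
  rw [show n + n = 2 * n by omega, show n' + n = n + n' by omega,
    show n + 1 + n = 2 * n + 1 by omega, show n' + 1 + n = n + n' + 1 by omega,
    show n + 1 + n' = n + n' + 1 by omega, show n' + 1 + n' = n' + n' + 1 by omega]
  have h1 : aa T ξ (n' + n') - aa T ξ (n' + n' + 1) ≤ aa T ξ (2 * n) - aa T ξ (2 * n + 1) :=
    hT.dd_anti ξ (show 2 * n ≤ n' + n' by omega)
  have h2 : aa T ξ (n + n' + 1) ≤ aa T ξ (n + n') := hT.aa_anti ξ (Nat.le_succ _)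
  have h3 := hT.dd_le ξ (2 * n)
  push_cast at h3
  have hp : (0 : ℝ) < 2 * n + 1 := by positivity
  have h4 : aa T ξ (2 * n) - aa T ξ (2 * n + 1) ≤ ‖ξ‖ ^ 2 / (2 * n + 1) := by
    rw [le_div_iff₀ hp]
    linarith
  have h5 : 2 / (2 * (n : ℝ) + 1) * ‖ξ‖ ^ 2 = 2 * (‖ξ‖ ^ 2 / (2 * n + 1)) := by ring
  linarith

theorem PosC.exists_lim [CompleteSpace H] (hT : PosC T) (ξ : H) :
    ∃ η, T η = η ∧ Tendsto (fun n => (T ^ n) ξ) atTop (𝓝 η) := by
  have hb : BddBelow (Set.range (aa T ξ)) := ⟨0, by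
    rintro _ ⟨n, rfl⟩
    exact hT.aa_nonneg ξ n⟩
  have h1 := tendsto_atTop_ciInf (hT.aa_anti ξ) hb
  set L := ⨅ n, aa T ξ n with hL
  have h2 : ∀ n, L ≤ aa T ξ n := fun n => ciInf_le hb n
  have h3 : Tendsto (fun N => √(2 * (aa T ξ N - L))) atTop (𝓝 0) := by
    have h4 := ((h1.sub_const L).const_mul 2).sqrt
    rwa [sub_self, mul_zero, Real.sqrt_zero] at h4
  have hc : CauchySeq fun n => (T ^ n) ξ := by
    refine cauchySeq_of_le_tendsto_0 _ (fun n m N hn hm => ?_) h3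
    rw [dist_eq_norm]
    refine Real.le_sqrt_of_sq_le ?_
    rw [← real_inner_self_eq_norm_sq]
    simp only [inner_sub_left, inner_sub_right, hT.inner_pow]
    have h5 : aa T ξ (n + n) ≤ aa T ξ N := hT.aa_anti ξ (by omega)
    have h6 : aa T ξ (m + m) ≤ aa T ξ N := hT.aa_anti ξ (by omega)
    have h7 := h2 (n + m)
    have h8 := h2 (m + n)
    linarith
  obtain ⟨η, hη⟩ := cauchySeq_tendsto_of_complete hc
  refine ⟨η, ?_, hη⟩
  have h9 : Tendsto (fun n => T ((T ^ n) ξ)) atTop (𝓝 (T η)) := (T.continuous.tendsto η).comp hη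
  have h10 : Tendsto (fun n => T ((T ^ n) ξ)) atTop (𝓝 η) := by
    refine (hη.comp (tendsto_add_atTop_nat 1)).congr fun n => ?_
    simp only [Function.comp]
    rw [pow_succ', mul_apply_eq_comp]
  exact tendsto_nhds_unique h9 h10

theorem PosC.ratio (hT : PosC T) {ξ : H} (hξ : ‖ξ‖ = 1) {r x : ℝ} (hr : 1 - aa T ξ 1 ≤ r)
    (hx : 0 < x) (h4 : 4 * r < x) (hlow : ∃ n, aa T ξ n ≤ 1 / 2) :
    ∃ n, 0 < aa T ξ (2 * n) - aa T ξ (2 * n + 1) ∧
      (aa T ξ (2 * n) - aa T ξ (2 * n + 1)) - (aa T ξ (2 * n + 1) - aa T ξ (2 * n + 2)) ≤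
        x * (aa T ξ (2 * n) - aa T ξ (2 * n + 1)) := by
  by_contra hne
  push Not at hne
  have h0 : aa T ξ 0 = 1 := by rw [Hil1_aa_zero, hξ, one_pow]
  have h1 : ∀ n, x * (aa T ξ 0 - aa T ξ (2 * n)) ≤
      2 * ((aa T ξ 0 - aa T ξ 1) - (aa T ξ (2 * n) - aa T ξ (2 * n + 1))) := by
    intro n
    induction n with
    | zero => simp
    | succ n ih =>
      have h2 : aa T ξ (2 * n + 1) - aa T ξ (2 * n + 1 + 1) ≤ aa T ξ (2 * n) - aa T ξ (2 * n + 1) :=
        hT.dd_anti ξ (Nat.le_succ (2 * n))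
      have h3 : aa T ξ (2 * n + 1 + 1) - aa T ξ (2 * n + 1 + 1 + 1) ≤
          aa T ξ (2 * n + 1) - aa T ξ (2 * n + 1 + 1) := hT.dd_anti ξ (Nat.le_succ (2 * n + 1))
      have h4 : aa T ξ (2 * n + 1) ≤ aa T ξ (2 * n) := hT.aa_anti ξ (Nat.le_succ _)
      have h5 : x * (aa T ξ (2 * n) - aa T ξ (2 * n + 1)) ≤
          (aa T ξ (2 * n) - aa T ξ (2 * n + 1)) - (aa T ξ (2 * n + 1) - aa T ξ (2 * n + 2)) := by
        rcases (sub_nonneg.2 h4).eq_or_lt with h6 | h6
        · rw [← h6, mul_zero]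
          have h7 : aa T ξ (2 * n + 2) = aa T ξ (2 * n + 1 + 1) := rfl
          linarith
        · exact (hne n h6).le
      have h8 := mul_le_mul_of_nonneg_left h2 hx.le
      rw [show 2 * (n + 1) = 2 * n + 1 + 1 by omega]
      have h7 : aa T ξ (2 * n + 2) = aa T ξ (2 * n + 1 + 1) := rfl
      rw [h7] at h5
      linarith
  obtain ⟨n, hn⟩ := hlow
  have h2 := h1 n
  have h3 : aa T ξ (2 * n) ≤ aa T ξ n := hT.aa_anti ξ (by omega)
  have h4' : aa T ξ (2 * n + 1) ≤ aa T ξ (2 * n) := hT.aa_anti ξ (Nat.le_succ _)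
  have h5 : x * (1 / 2) ≤ x * (aa T ξ 0 - aa T ξ (2 * n)) :=
    mul_le_mul_of_nonneg_left (by linarith) hx.le
  linarith

theorem PosC.conj (hT : PosC T) {A : H →L[ℝ] H} (hs : ∀ x y, ⟪A x, y⟫ = ⟪x, A y⟫)
    (hA : ∀ x, ‖A x‖ ≤ ‖x‖) : PosC (A * T * A) := by
  refine ⟨fun x y => ?_, fun x => ?_, fun x => ?_⟩
  · simp only [mul_apply_eq_comp]
    rw [hs, hT.symm, hs]
  · simp only [mul_apply_eq_comp]
    rw [hs]
    exact hT.pos _
  · simp only [mul_apply_eq_comp]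
    rw [hs]
    exact (hT.le _).trans (pow_le_pow_left₀ (norm_nonneg _) (hA x) 2)

theorem tendsto_pow_strong {A : ℕ → H →L[ℝ] H} {P M : H →L[ℝ] H} (hA : ∀ K x, ‖A K x‖ ≤ ‖x‖)
    (hM : ∀ x, ‖M x‖ ≤ ‖x‖) (hl : ∀ x, Tendsto (fun K => A K x) atTop (𝓝 (P x))) (n : ℕ) (x : H) :
    Tendsto (fun K => ((A K * M * A K) ^ n) x) atTop (𝓝 (((P * M * P) ^ n) x)) := by
  have key : ∀ (y : ℕ → H) (y0 : H), Tendsto y atTop (𝓝 y0) →
      Tendsto (fun K => A K (y K)) atTop (𝓝 (P y0)) := by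
    intro y y0 hy
    have h1 : Tendsto (fun K => A K (y K - y0)) atTop (𝓝 0) :=
      squeeze_zero_norm (fun K => hA K _) (tendsto_iff_norm_sub_tendsto_zero.1 hy)
    have h2 := h1.add (hl y0)
    rw [zero_add] at h2
    refine h2.congr fun K => ?_
    rw [map_sub, sub_add_cancel]
  have _ := hM
  induction n with
  | zero => simp
  | succ n ih =>
    simp only [pow_succ', mul_apply_eq_comp]
    exact key _ _ ((M.continuous.tendsto _).comp (key _ _ ih))

end Pool.Agent.Work.MP_01d39a_al.Ct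
end

-- merged part: Pool.Agent.Work.MP_01d39a_al.Ct.Hil2
section
/-!
TASK CT Hil2. Koopman operators and the mean ergodic theorem.
Use `Uop_coe`, `Lp.ext`, `X.mv_mul`; for a.e. statements composed with `mv` use
`(X.mp g).quasiMeasurePreserving.ae` / `.ae_eq_comp`. Never unfold `Lp` terms by `rfl`/`show` (timeouts).
Ak_tendsto: `ContinuousLinearMap.tendsto_birkhoffAverage_orthogonalProjection` for `Uop a` and for `Uop a⁻¹`
(same fixed space); `∑_{k : Fin (2K+1)} U^(k-K) = ∑_{i<K+1} U^i + ∑_{i<K+1} U^(-i) - 1`.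
Alternatively prove it directly: it holds on `Fix`, on vectors `U f - f` (telescoping, norm `≤ 2‖f‖/(2K+1)`), and
these span a dense subspace.
-/

open MeasureTheory ProbabilityTheory Filter Topology
open scoped BigOperators ENNReal NNReal RealInnerProductSpace

namespace Pool.Agent.Work.MP_01d39a_al.Ct

variable {G : Type} [Group G]

variable (X : Sys G)

theorem Uop_one (f : H2 X) : Uop X 1 f = f := by
  refine Lp.ext ?_
  filter_upwards [Uop_coe X 1 f] with ω hω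
  rw [hω, X.mv_one]

theorem Uop_mul (g h : G) (f : H2 X) : Uop X g (Uop X h f) = Uop X (g * h) f := by
  refine Lp.ext ?_
  filter_upwards [Uop_coe X g (Uop X h f), Uop_coe X (g * h) f,
    (X.mp g).quasiMeasurePreserving.ae (Uop_coe X h f)] with ω h1 h2 h3
  rw [h1, h2, h3, X.mv_mul]

theorem Uop_inner (g : G) (f f' : H2 X) : ⟪Uop X g f, Uop X g f'⟫ = ⟪f, f'⟫ :=
  (Lp.compMeasurePreservingₗᵢ ℝ (fun ω => X.mv ω g) (X.mp g)).inner_map_map f f'

theorem Uop_adj (g : G) (f f' : H2 X) : ⟪Uop X g f, f'⟫ = ⟪f, Uop X g⁻¹ f'⟫ := by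
  rw [← Uop_inner X g f, Uop_mul, mul_inv_cancel, Uop_one]

theorem inner_H2 (f f' : H2 X) : ⟪f, f'⟫ = ∫ ω, f ω * f' ω ∂X.P := by
  rw [L2.inner_def]
  refine integral_congr_ae (Eventually.of_forall fun ω => ?_)
  simp [mul_comm]

theorem norm_sq_H2 (f : H2 X) : ‖f‖ ^ 2 = ∫ ω, f ω ^ 2 ∂X.P := by
  rw [← real_inner_self_eq_norm_sq, inner_H2]
  simp only [sq]

theorem oneL_coe : oneL X =ᵐ[X.P] fun _ => 1 := MemLp.coeFn_toLp _

theorem norm_oneL : ‖oneL X‖ = 1 := by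
  have h : ‖oneL X‖ ^ 2 = 1 := by
    rw [norm_sq_H2]
    have h2 : ∫ ω, (oneL X) ω ^ 2 ∂X.P = ∫ _ω, (1 : ℝ) ∂X.P := by
      refine integral_congr_ae ?_
      filter_upwards [oneL_coe X] with ω hω
      rw [hω, one_pow]
    rw [h2]
    simp
  have h0 := norm_nonneg (oneL X)
  nlinarith

theorem mem_Fix_iff_ae (a : G) (f : H2 X) : f ∈ Fix X a ↔ ∀ᵐ ω ∂X.P, f (X.mv ω a) = f ω := by
  rw [mem_Fix]
  constructor
  · intro h
    have h1 := Uop_coe X a f
    rw [h] at h1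
    filter_upwards [h1] with ω hω
    exact hω.symm
  · intro h
    refine Lp.ext ?_
    filter_upwards [Uop_coe X a f, h] with ω h1 h2
    rw [h1, h2]

theorem Uop_zpow_of_mem {a : G} {f : H2 X} (hf : f ∈ Fix X a) (k : ℤ) : Uop X (a ^ k) f = f := by
  rw [mem_Fix] at hf
  have hinv : Uop X a⁻¹ f = f := by
    conv_lhs => rw [← hf]
    rw [Uop_mul, inv_mul_cancel, Uop_one]
  induction k using Int.induction_on with
  | zero => rw [zpow_zero, Uop_one]
  | succ n ih => rw [zpow_add_one, ← Uop_mul, hf, ih]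
  | pred n ih => rw [zpow_sub_one, ← Uop_mul, hinv, ih]

theorem Ak_apply (a : G) (K : ℕ) (f : H2 X) :
    Ak X a K f = (2 * K + 1 : ℝ)⁻¹ • ∑ k : Fin (2 * K + 1), Uop X (a ^ ex K k) f := by
  rw [Ak, ContinuousLinearMap.smul_apply, ContinuousLinearMap.sum_apply]

theorem Ak_norm_le (a : G) (K : ℕ) (f : H2 X) : ‖Ak X a K f‖ ≤ ‖f‖ := by
  have hpos : (0 : ℝ) < 2 * K + 1 := by positivity
  rw [Ak_apply, norm_smul, Real.norm_of_nonneg (inv_nonneg.2 hpos.le), inv_mul_le_iff₀ hpos]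
  refine (norm_sum_le _ _).trans ?_
  simp only [Uop_norm, Finset.sum_const, Finset.card_univ, Fintype.card_fin, nsmul_eq_mul]
  push_cast
  exact le_rfl

theorem Ak_symm (a : G) (K : ℕ) (f f' : H2 X) : ⟪Ak X a K f, f'⟫ = ⟪f, Ak X a K f'⟫ := by
  rw [Ak_apply, Ak_apply, real_inner_smul_left, real_inner_smul_right, sum_inner, inner_sum]
  congr 1
  refine Fintype.sum_equiv Fin.revPerm _ _ fun k => ?_
  have h : ex K k.rev = - ex K k := by
    have := k.2
    simp only [ex, Fin.val_rev]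
    omega
  rw [Uop_adj, Fin.revPerm_apply, h, zpow_neg]

theorem Ak_of_mem {a : G} {f : H2 X} (hf : f ∈ Fix X a) (K : ℕ) : Ak X a K f = f := by
  have hpos : (0 : ℝ) < 2 * K + 1 := by positivity
  rw [Ak_apply]
  simp only [Uop_zpow_of_mem X hf, Finset.sum_const, Finset.card_univ, Fintype.card_fin]
  rw [← Nat.cast_smul_eq_nsmul ℝ, smul_smul]
  push_cast
  rw [inv_mul_cancel₀ hpos.ne', one_smul]

theorem Pa_mem (a : G) (f : H2 X) : Pa X a f ∈ Fix X a :=
  Submodule.starProjection_apply_mem _ _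

theorem Pa_of_mem {a : G} {f : H2 X} (hf : f ∈ Fix X a) : Pa X a f = f :=
  Submodule.starProjection_eq_self_iff.2 hf

theorem Pa_norm_le (a : G) (f : H2 X) : ‖Pa X a f‖ ≤ ‖f‖ :=
  Submodule.norm_starProjection_apply_le _ _

theorem Pa_symm (a : G) (f f' : H2 X) : ⟪Pa X a f, f'⟫ = ⟪f, Pa X a f'⟫ :=
  Submodule.inner_starProjection_left_eq_right _ _ _

theorem Hil2_iter (a : G) (f : H2 X) (n : ℕ) : (Uop X a)^[n] f = Uop X (a ^ n) f := by
  induction n with
  | zero => rw [Function.iterate_zero_apply, pow_zero, Uop_one]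
  | succ n ih => rw [Function.iterate_succ_apply', ih, Uop_mul, pow_succ']

theorem Hil2_Ak (a : G) (K : ℕ) (f : H2 X) :
    Ak X a K f = Uop X (a ^ (-(K : ℤ))) (birkhoffAverage ℝ (Uop X a) id (2 * K + 1) f) := by
  rw [Ak_apply, birkhoffAverage, birkhoffSum, map_smul, map_sum, Finset.sum_range]
  push_cast
  congr 1
  refine Finset.sum_congr rfl fun k _ => ?_
  rw [id, Hil2_iter, Uop_mul, ← zpow_natCast, ← zpow_add, ex, sub_eq_neg_add]

theorem Ak_tendsto (a : G) (f : H2 X) : Tendsto (fun K => Ak X a K f) atTop (𝓝 (Pa X a f)) := by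
  have hn : ‖Uop X a‖ ≤ 1 :=
    ContinuousLinearMap.opNorm_le_bound _ zero_le_one fun x => by rw [Uop_norm, one_mul]
  have h1 : Tendsto (fun n => birkhoffAverage ℝ (Uop X a) id n f) atTop (𝓝 (Pa X a f)) :=
    ContinuousLinearMap.tendsto_birkhoffAverage_orthogonalProjection (Uop X a) hn f
  have h2 : Tendsto (fun K : ℕ => 2 * K + 1) atTop atTop :=
    tendsto_atTop_mono (fun K => by simp only [id]; omega) tendsto_id
  rw [tendsto_iff_norm_sub_tendsto_zero] at h1 ⊢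
  refine (h1.comp h2).congr fun K => ?_
  rw [Function.comp, Hil2_Ak, ← Uop_norm X (a ^ (-(K : ℤ))), map_sub,
    Uop_zpow_of_mem X (Pa_mem X a f)]

end Pool.Agent.Work.MP_01d39a_al.Ct
end

-- merged part: Pool.Agent.Work.MP_01d39a_al.Ct.MCl
section
/-!
TASK CT MCl. Mean concentration.
MC.inter_le: for invariant `U`, `P(A ∩ U) = ∫ ind(U) ind(mv ω x ∈ A)` for every `x` (`Sys.int_mv`), average over
`f i`, then `∫ 1_U (avg - q) ≤ sqrt ε` (for instance via `|t| ≤ t^2/(2η) + η/2`), let `ε → 0`.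
mc_coin: index type `Fin n → Step c K` with `f w = pw (List.ofFn w)` (`avgW_ofFn`); expand the square,
`∫ (ind cn(mv x) - p)(ind cn(mv y) - p) ≤ tau (x⁻¹ y)` (move by `x`; on `¬ Con` the integral vanishes by
`CoinPack.one`, `CoinPack.two` applied to `A = {¬ Con}` or `univ`; on `Con` the integrand is at most 1), then `ZF`.
-/

open MeasureTheory ProbabilityTheory Filter Topology
open scoped BigOperators ENNReal NNReal

namespace Pool.Agent.Work.MP_01d39a_al.Ct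

variable {G : Type} [Group G]

theorem MCl_meas (X : Sys G) {A : Set X.Ω} (hA : MeasurableSet A) (x : G) :
    Measurable fun ω => ind (X.mv ω x ∈ A) := measurable_ind (X.meas_mv x hA)

theorem MCl_sq {ι : Type} [Fintype ι] [Nonempty ι] (F : ι → ℝ) (q : ℝ) :
    ((𝔼 i, F i) - q) ^ 2 = 𝔼 i, 𝔼 j, (F i - q) * (F j - q) := by
  rw [← Finset.expect_mul_expect, Finset.expect_sub_distrib, Fintype.expect_const, sq]

theorem MCl_int2 (X : Sys G) {A : Set X.Ω} (hA : MeasurableSet A) (q : ℝ) (x y : G) :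
    Integrable (fun ω => (ind (X.mv ω x ∈ A) - q) * (ind (X.mv ω y ∈ A) - q)) X.P := by
  have h : ∀ P : Prop, ‖ind P - q‖ ≤ 1 + ‖q‖ := fun P => (norm_sub_le _ _).trans (by
    rw [Real.norm_of_nonneg (ind_nonneg P)]
    linarith [ind_le_one P])
  exact Integrable.of_bound
    (((MCl_meas X hA x).sub_const q).mul ((MCl_meas X hA y).sub_const q)).aestronglyMeasurable _
    (Eventually.of_forall fun ω => norm_mul_le_of_le (h _) (h _))

theorem MCl_int (X : Sys G) {A : Set X.Ω} (hA : MeasurableSet A) (q : ℝ) {ι : Type} [Fintype ι]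
    [Nonempty ι] (f : ι → G) :
    Integrable (fun ω => ((𝔼 i, ind (X.mv ω (f i) ∈ A)) - q) ^ 2) X.P := by
  simp only [MCl_sq]
  exact integrable_expect fun i => integrable_expect fun j => MCl_int2 X hA q _ _

theorem MCl_pair [Countable G] {a : G} {X Y : Sys G} {Z : G → Set X.Ω} (hZ : Meas X Z)
    {π : Y.Ω → X.Ω} {cn : Y.Ω → Bool} {p : ℝ} (h0 : 0 ≤ p) (h1 : p ≤ 1)
    (h : CoinPack X Y a Z π cn p) (z : G) :
    ∫ ω, (ind (Y.mv ω 1 ∈ {ω | cn ω = true}) - p) * (ind (Y.mv ω z ∈ {ω | cn ω = true}) - p) ∂Y.P ≤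
      tau X a Z z := by
  have m0 : MeasurableSet {ω | Con X a Z (π ω) 1 z} :=
    h.fac.mp.measurable (measurableSet_con hZ 1 z)
  have m1 : ∀ b b' : Bool, MeasurableSet {ω | π ω ∈ Set.univ ∧ ¬ Con X a Z (π ω) 1 z ∧
      cn ω = b ∧ cn (Y.mv ω z) = b'} := fun b b' =>
    (h.fac.mp.measurable .univ).inter (m0.compl.inter ((h.meas (measurableSet_singleton b)).inter
      (h.meas.comp (Y.meas_mv z) (measurableSet_singleton b'))))
  have i0 := integrable_ind Y.P m0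
  have i1 := fun b b' : Bool => (integrable_ind Y.P (m1 b b')).const_mul
    ((if b then 1 - p else -p) * (if b' then 1 - p else -p))
  have i2 := fun b => integrable_finsetSum Finset.univ fun b' _ => i1 b b'
  have i3 := integrable_finsetSum Finset.univ fun b _ => i2 b
  refine (integral_mono (MCl_int2 Y (h.meas (measurableSet_singleton true)) p 1 z) (i0.add i3)
    fun ω => ?_).trans_eq ?_
  · simp only [Pi.add_apply, Y.mv_one, Set.mem_preimage, Set.mem_singleton_iff]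
    by_cases k : Con X a Z (π ω) 1 z <;> cases cn ω <;> cases cn (Y.mv ω z) <;>
      simp [ind, k] <;> nlinarith
  · rw [integral_add' i0 i3, integral_finsetSum _ fun b _ => i2 b, integral_ind _ m0]
    have e : ∀ b b' : Bool, ∫ ω, ind (π ω ∈ Set.univ ∧ ¬ Con X a Z (π ω) 1 z ∧ cn ω = b ∧
        cn (Y.mv ω z) = b') ∂Y.P = _ := fun b b' =>
      (integral_ind _ (m1 b b')).trans (h.two _ .univ z b b')
    simp only [fun b => integral_finsetSum Finset.univ fun b' _ => i1 b b', integral_const_mul, e]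
    simp only [Fintype.sum_bool, if_true, Bool.false_eq_true, if_false]
    rw [tau, ← h.fac.real (measurableSet_con hZ 1 z), Set.preimage_ofPred_eq]
    ring

theorem MCl_mono {σ : Type} [Fintype σ] [Nonempty σ] {gs : σ → G} {τ : G → ℝ} {ε : ℝ} {n m : ℕ}
    (h : ∀ g : G, avgW n (fun w => τ (g⁻¹ * pw gs w)) ≤ ε) (hm : n ≤ m) :
    ∀ g : G, avgW m (fun w => τ (g⁻¹ * pw gs w)) ≤ ε := by
  induction hm with
  | refl => exact h
  | step _ ih =>
    intro g
    rw [avgW_succ]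
    refine Finset.expect_le Finset.univ_nonempty fun s _ => ?_
    simpa only [pw_cons, mul_inv_rev, inv_inv, mul_assoc] using ih ((gs s)⁻¹ * g)

theorem mc_empty (X : Sys G) : MC X ∅ 0 := by
  exact fun ε hε => ⟨Unit, inferInstance, inferInstance, fun _ => 1, by simpa [ind] using hε.le⟩

theorem MC.pull {X Y : Sys G} {π : Y.Ω → X.Ω} (h : Fac Y X π) {A : Set X.Ω} (hA : MeasurableSet A)
    {q : ℝ} (hq : MC X A q) : MC Y (π ⁻¹' A) q := by
  intro ε hε
  obtain ⟨ι, _, _, f, hf⟩ := hq ε hε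
  refine ⟨ι, inferInstance, inferInstance, f, le_trans (le_of_eq ?_) hf⟩
  rw [← h.mp.map_eq, integral_map h.mp.measurable.aemeasurable
    (((measurable_expect fun i => MCl_meas X hA (f i)).sub_const q).pow_const 2).aestronglyMeasurable]
  simp only [Set.mem_preimage, h.eqv]

theorem MC.inter_le {X : Sys G} {A U : Set X.Ω} (hA : MeasurableSet A) (hU : MeasurableSet U)
    (hinv : ∀ ω x, X.mv ω x ∈ U ↔ ω ∈ U) {q : ℝ} (hq : MC X A q) :
    X.P.real (A ∩ U) ≤ q * X.P.real U := by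
  refine le_of_forall_pos_le_add fun ε hε => ?_
  obtain ⟨ι, _, _, f, hf⟩ := hq (ε ^ 2) (by positivity)
  have m1 : ∀ i, MeasurableSet {ω | X.mv ω (f i) ∈ A ∩ U} := fun i => X.meas_mv _ (hA.inter hU)
  have i1 := integrable_expect fun i => integrable_ind X.P (m1 i)
  have i2 := (integrable_ind X.P (E := (· ∈ U)) hU).const_mul q
  have i3 := (MCl_int X hA q f).div_const (2 * ε)
  have h1 : ∫ ω, (𝔼 i, ind (X.mv ω (f i) ∈ A ∩ U)) ∂X.P = X.P.real (A ∩ U) := by
    rw [integral_expect fun i => integrable_ind X.P (m1 i)]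
    simp only [integral_ind X.P (m1 _), X.pre_real _ (· ∈ A ∩ U), Fintype.expect_const]
    rfl
  have h2 := integral_mono i1 ((i2.add i3).add (integrable_const (ε / 2))) fun ω => by
    simp only [Pi.add_apply, Set.mem_inter_iff, hinv, ind_and, ← Finset.expect_mul]
    generalize (𝔼 i, ind (X.mv ω (f i) ∈ A)) = t
    have h3 : t - q ≤ (t - q) ^ 2 / (2 * ε) + ε / 2 := by
      rw [div_add_div _ _ (by positivity) two_ne_zero, le_div_iff₀ (by positivity)]
      nlinarith [sq_nonneg (t - q - ε)]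
    by_cases h : ω ∈ U
    · rw [ind_pos h]
      linarith
    · rw [ind_neg h, mul_zero, mul_zero, zero_add]
      positivity
  rw [h1, integral_add' (i2.add i3) (integrable_const _), integral_add' i2 i3, integral_const_mul,
    integral_ind X.P (E := (· ∈ U)) hU, integral_div, integral_const] at h2
  have h3 := div_le_div_of_nonneg_right hf (by positivity : 0 ≤ 2 * ε)
  rw [show ε ^ 2 / (2 * ε) = ε / 2 by field_simp] at h3
  simp only [probReal_univ, one_smul, Set.ofPred_mem_eq] at h2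
  linarith

theorem mc_coin [Countable G] (c : Ctx G) {X Y : Sys G} {Z : G → Set X.Ω} (hZ : Meas X Z)
    {π : Y.Ω → X.Ω} {cn : Y.Ω → Bool} {p : ℝ} (h0 : 0 ≤ p) (h1 : p ≤ 1)
    (h : CoinPack X Y c.a Z π cn p) (hz : ZF c (tau X c.a Z)) : MC Y {ω | cn ω = true} p := by
  intro ε hε
  obtain ⟨n, hn⟩ := hz ε hε
  obtain ⟨K, hK⟩ := hn.exists
  have hA : MeasurableSet {ω | cn ω = true} := h.meas (measurableSet_singleton true)
  refine ⟨Fin n → Step c K, inferInstance, inferInstance, fun w => pw (c.gs K) (List.ofFn w), ?_⟩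
  simp only [MCl_sq]
  rw [integral_expect fun i => integrable_expect fun j => MCl_int2 Y hA p _ _]
  refine Finset.expect_le Finset.univ_nonempty fun i _ => ?_
  rw [integral_expect fun j => MCl_int2 Y hA p _ _]
  refine le_trans (Finset.expect_le_expect fun j _ => ?_)
    ((avgW_ofFn n _).symm.trans_le (hK (pw (c.gs K) (List.ofFn i))))
  refine le_trans (le_of_eq ?_) (MCl_pair hZ h0 h1 h _)
  rw [eq_comm, ← Y.int_mv (pw (c.gs K) (List.ofFn i))]
  simp only [Y.mv_mul, mul_one, mul_inv_cancel_left]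

theorem ZF.mono {c : Ctx G} {τ τ' : G → ℝ} (h : ZF c τ) (hle : ∀ g, τ' g ≤ τ g) : ZF c τ' := by
  intro ε hε
  obtain ⟨n, hn⟩ := h ε hε
  exact ⟨n, hn.mono fun K hK g => (avgW_mono fun w _ => hle _).trans (hK g)⟩

/-- Use that the inner statement is monotone in `n`: `avgW_succ` and `pw_cons`. -/
theorem ZF.add {c : Ctx G} {τ τ' : G → ℝ} (h : ZF c τ) (h' : ZF c τ') :
    ZF c fun g => τ g + τ' g := by
  intro ε hε
  obtain ⟨n, hn⟩ := h (ε / 2) (half_pos hε)
  obtain ⟨n', hn'⟩ := h' (ε / 2) (half_pos hε)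
  refine ⟨max n n', (hn.and hn').mono fun K hK g => ?_⟩
  rw [avgW_add]
  linarith [MCl_mono hK.1 (le_max_left n n') g, MCl_mono hK.2 (le_max_right n n') g]

end Pool.Agent.Work.MP_01d39a_al.Ct
end

-- merged part: Pool.Agent.Work.MP_01d39a_al.Ct.Clo1
section
/-!
TASK CT Clo1. Section 1.1 (i): the closure is almost surely not connected.
Suppose `U = {connected}` has positive measure. It is invariant (`con_mv`) and measurable. Build the system with
the same space and action and measure `cond P U` (`ProbabilityTheory.cond`), it is invariant. There the family is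
a.s. connected, and its density is `∑ g ∈ S, P(Z g ∩ U) / P(U) ≤ |S| (p + θ) < δ` by `MC.inter_le`, `MC.pull`
(`fac_fst`, `fac_snd`) and `mc_spr`; contradiction with `Hyp`.
-/

open MeasureTheory ProbabilityTheory Filter Topology
open scoped BigOperators ENNReal NNReal

namespace Pool.Agent.Work.MP_01d39a_al.Ct

variable {G : Type} [Group G]

theorem Clo1_coord {V : Type} (v : V) : MeasurableSet {σ : V → Bool | σ v = true} :=
  measurableSet_eq_fun (measurable_pi_apply v) measurable_const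

theorem meas_closeZ (c : Ctx G) {X : Sys G} {Z : G → Set X.Ω} (hZ : Meas X Z) (θ : ℝ) :
    Meas (X.prod (Sys.bern G (G × G) θ)) (closeZ c X Z θ) := by
  intro g
  have h : MeasurableSet (spr c g) := by
    by_cases hg : g ∈ c.S
    · simpa [spr, hg] using Clo1_coord ((1 : G), g)
    · simp [spr, hg]
  exact (measurable_fst (hZ g)).union (measurable_snd h)

/-- A system conditioned on an invariant event. -/
noncomputable abbrev Clo1_cond (Y : Sys G) {U : Set Y.Ω} (hU : MeasurableSet U) (h0 : Y.P U ≠ 0)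
    (hinv : ∀ ω x, Y.mv ω x ∈ U ↔ ω ∈ U) : Sys G where
  Ω := Y.Ω
  P := Y.P[|U]
  pr := cond_isProbabilityMeasure h0
  mv := Y.mv
  mv_one := Y.mv_one
  mv_mul := Y.mv_mul
  mp x := ⟨Y.meas_mv x, by
    ext B hB
    rw [Measure.map_apply (Y.meas_mv x) hB, cond_apply hU, cond_apply hU, ← Y.pre x (U ∩ B)]
    congr 2
    ext ω
    simp [hinv]⟩

theorem Clo1_main [Countable G] {c : Ctx G} {δ : ℝ} (H : Hyp c δ) {Y : Sys G} {W : G → Set Y.Ω}
    (hW : Meas Y W) (hs : Supp Y c.S W) {q : ℝ} (hq : 0 ≤ q) (hδ : c.S.card * q < δ)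
    (h : ∀ U : Set Y.Ω, MeasurableSet U → (∀ ω x, Y.mv ω x ∈ U ↔ ω ∈ U) →
      ∀ g, Y.P.real (W g ∩ U) ≤ q * Y.P.real U) :
    Y.P {ω | ∀ g, Con Y c.a W ω 1 g} = 0 := by
  by_contra h0
  have hU : MeasurableSet {ω | ∀ g, Con Y c.a W ω 1 g} := by
    rw [Set.ofPred_forall]
    exact MeasurableSet.iInter fun g => measurableSet_con hW 1 g
  have hinv : ∀ ω x, Y.mv ω x ∈ {ω | ∀ g, Con Y c.a W ω 1 g} ↔
      ω ∈ {ω | ∀ g, Con Y c.a W ω 1 g} := by
    intro ω x
    simp only [Set.mem_ofPred_eq, con_mv, mul_one]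
    constructor
    · intro h1 g
      have h2 := h1 x⁻¹
      have h3 := h1 (x⁻¹ * g)
      rw [mul_inv_cancel] at h2
      rw [mul_inv_cancel_left] at h3
      exact h2.symm.trans h3
    · exact fun h1 g => (h1 x).symm.trans (h1 _)
  have h1 := H (Clo1_cond Y hU h0 hinv) W hW (ae_cond_mem hU)
  have h2 : ∀ g, (Clo1_cond Y hU h0 hinv).P (W g) ≤ ENNReal.ofReal q := by
    intro g
    have hp : 0 < Y.P.real {ω | ∀ g, Con Y c.a W ω 1 g} :=
      ENNReal.toReal_pos h0 (measure_ne_top _ _)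
    have h3 := h _ hU hinv g
    refine (ENNReal.le_ofReal_iff_toReal_le (measure_ne_top _ _) hq).2 ?_
    show ((Y.P[|{ω | ∀ g, Con Y c.a W ω 1 g}]) (W g)).toReal ≤ q
    rw [cond_apply hU, ENNReal.toReal_mul, ENNReal.toReal_inv, Set.inter_comm]
    exact (inv_mul_le_iff₀ hp).2 (by rwa [mul_comm] at h3)
  have h3 : dens (Clo1_cond Y hU h0 hinv) W ≤ ENNReal.ofReal (c.S.card * q) := by
    rw [dens, tsum_eq_sum (s := c.S) fun g hg => by rw [hs g hg, measure_empty],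
      ENNReal.ofReal_mul (Nat.cast_nonneg _), ENNReal.ofReal_natCast, ← nsmul_eq_mul]
    exact Finset.sum_le_card_nsmul _ _ _ fun g _ => h2 g
  exact absurd (h1.trans h3) (not_le.2 ((ENNReal.ofReal_lt_ofReal_iff_of_nonneg
    (by positivity)).2 hδ))

theorem not_conn [Countable G] {c : Ctx G} {δ : ℝ} (H : Hyp c δ) {X : Sys G} {Z : G → Set X.Ω}
    (hZ : Meas X Z) (hs : Supp X c.S Z) {A : Set X.Ω} (hA : MeasurableSet A) (hsub : ∀ g, Z g ⊆ A)
    {p θ : ℝ} (hp : 0 ≤ p) (hMC : MC X A p) (h0 : 0 ≤ θ) (h1 : θ ≤ 1)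
    (hδ : c.S.card * (p + θ) < δ) :
    (X.prod (Sys.bern G (G × G) θ)).P
      {ω | ∀ g, Con (X.prod (Sys.bern G (G × G) θ)) c.a (closeZ c X Z θ) ω 1 g} = 0 := by
  refine Clo1_main H (meas_closeZ c hZ θ) (fun g hg => ?_) (add_nonneg hp h0) hδ
    fun U hU hinv g => ?_
  · ext ω
    simp [closeZ, spr, hs g hg, hg]
  · have h2 := (hMC.pull (fac_fst X (Sys.bern G (G × G) θ)) hA).inter_le (measurable_fst hA) hU hinv
    have h3 := ((mc_spr c h0 h1 g).pull (fac_snd X (Sys.bern G (G × G) θ))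
      (Clo1_coord _)).inter_le (measurable_snd (Clo1_coord _)) hU hinv
    rw [add_mul]
    refine le_trans ((measureReal_mono ?_).trans (measureReal_union_le _ _)) (add_le_add h2 h3)
    rintro ω ⟨h4 | h4, h5⟩
    · exact Or.inl ⟨hsub g h4, h5⟩
    · exact Or.inr ⟨h4.2, h5⟩

end Pool.Agent.Work.MP_01d39a_al.Ct
end
end
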