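import Pool.Agent.Work.MP_01d39a_al.Ct.Clo1

-- merged part: Pool.Agent.Work.MP_01d39a_al.Ct.GB
section
/-!
TASK CT GB. From the mean number of successes to the probability of `Y` (section 5).
`Q ω = avgW l fun w => ∑ t, bern.real {σ | Cc (mv ω b⁻¹, σ (b⁻¹ * ·)) w t}` is measurable, `∫ Q ≥ q` (invariance of the product system
under `b⁻¹`, `Sys.pre_real`, Fubini), `0 ≤ Q ≤ Qm` (`Cc → Cn`). So `P(Q ≥ q/2) ≥ q/(2 Qm)`. Cauchy-Schwarz:
`Q ≤ avgW (P(∃ t, Cc) * N w)` with `N w = cnt Cn`, so `Q² ≤ piS * avgW N²` (use `P(∃..)² ≤ P(∃..)`); on `T = {Q ≥ q/2, load ≤ D}`,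
`piS ≥ (q/2)²/D`. For each `ws`, `P(Y ws) = ∫ (1 - P(not Y | ω))`; average over `ws` with `trials`:
`𝔼 ws P(Y) ≥ P(T) (1 - (1 - π₀ θ^(2m))^W) - overlap`; pick `ws` above the average (`Finset.exists_le_of_le_expect`-type lemma).
-/

open MeasureTheory ProbabilityTheory Filter Topology
open scoped BigOperators ENNReal NNReal

namespace Pool.Agent.Work.MP_01d39a_al.Ct

variable {G : Type} [Group G]

theorem GB_fub {Ω Ω' : Type} [MeasurableSpace Ω] [MeasurableSpace Ω'] (P : Measure Ω)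
    (P' : Measure Ω') [IsProbabilityMeasure P] [IsProbabilityMeasure P'] {A : Set (Ω × Ω')}
    (hA : MeasurableSet A) : (Measurable fun ω => P'.real {r | (ω, r) ∈ A}) ∧
      Integrable (fun ω => P'.real {r | (ω, r) ∈ A}) P ∧
      ∫ ω, P'.real {r | (ω, r) ∈ A} ∂P = (P.prod P').real A := by
  have hm := measurable_measure_prodMk_left (ν := P') hA
  have hm' : Measurable fun ω => P'.real {r | (ω, r) ∈ A} := hm.ennreal_toReal
  refine ⟨hm', Integrable.of_bound hm'.aestronglyMeasurable 1 (Eventually.of_forall fun ω => ?_), ?_⟩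
  · rw [Real.norm_eq_abs, abs_of_nonneg measureReal_nonneg]
    exact measureReal_le_one
  · rw [Measure.real, Measure.prod_apply hA, ← integral_toReal hm.aemeasurable
      (Eventually.of_forall fun ω => measure_lt_top _ _)]
    rfl

theorem GB_pz {Ω : Type} [MeasurableSpace Ω] (P : Measure Ω) [IsProbabilityMeasure P] {Q : Ω → ℝ}
    (hm : Measurable Q) (hi : Integrable Q P) {q Qm : ℝ} (hq0 : 0 < q) (hQ0 : 0 < Qm)
    (hQ : ∀ ω, Q ω ≤ Qm) (hq : q ≤ ∫ ω, Q ω ∂P) : q / (2 * Qm) ≤ P.real {ω | q / 2 ≤ Q ω} := by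
  have hA : MeasurableSet {ω | q / 2 ≤ Q ω} := measurableSet_le measurable_const hm
  have i2 := (integrable_ind P hA).const_mul Qm
  have h : ∫ ω, Q ω ∂P ≤ ∫ ω, (q / 2 + Qm * ind (q / 2 ≤ Q ω)) ∂P := by
    refine integral_mono hi ((integrable_const _).add i2) fun ω => ?_
    by_cases h : q / 2 ≤ Q ω
    · simp only [ind_pos h]; linarith [hQ ω]
    · simp only [ind_neg h]; linarith [not_le.1 h]
  rw [integral_add (integrable_const _) i2, integral_const_mul, integral_ind P hA, integral_const,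
    probReal_univ, one_smul] at h
  rw [div_le_iff₀ (by linarith)]
  linarith

theorem GB_cs {σ : Type} [Fintype σ] (n : ℕ) {p N : List σ → ℝ} (h0 : ∀ w, 0 ≤ p w)
    (h1 : ∀ w, p w ≤ 1) :
    (avgW n fun w => p w * N w) ^ 2 ≤ avgW n p * avgW n fun w => N w ^ 2 := by
  have h : avgW n (fun w => p w ^ 2) ≤ avgW n p :=
    avgW_mono fun w _ => by nlinarith [h0 w, h1 w]
  refine le_trans ?_ (mul_le_mul_of_nonneg_right h (avgW_nonneg fun w _ => sq_nonneg _))
  simp only [avgW_ofFn]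
  exact Finset.expect_mul_sq_le_sq_mul_sq _ _ _

theorem gainB [Countable G] {c : Ctx G} {K : ℕ} {X : Sys G} {lam : X.Ω → ℤ} {γ : c.S}
    {Cn : X.Ω → List (Step c K) → ℕ → Prop} {l m : ℕ} (hs : CnSpec c K X lam γ Cn l m) (W : ℕ)
    (θ₁ : ℝ) {θ q Qm D εh : ℝ} (h0 : 0 ≤ θ) (h1 : θ ≤ 1) (hq0 : 0 < q) (hQ0 : 0 < Qm) (hD0 : 0 < D)
    (hqD : (q / 2) ^ 2 ≤ D)
    (hq : q ≤ avgW l fun w => ∑ t ∈ Finset.range (l + 1),
      (X.P.prod (bern G θ₁)).real {p | Cc c K X lam θ₁ Cn p w t})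
    (hQ : ∀ ω, avgW l (fun w => cnt l fun t => Cn (X.mv ω (c.base K w t)⁻¹) w t) ≤ Qm)
    (hD : X.P.real {ω | D < avgW l fun w => (cnt l fun t => Cn (X.mv ω (c.base K w t)⁻¹) w t) ^ 2}
      ≤ εh) :
    ∃ ws : Fin W → List (Step c K),
      (q / (2 * Qm) - εh) * (1 - (1 - (q / 2) ^ 2 / D * θ ^ (2 * m)) ^ W) -
        (W : ℝ) ^ 2 * (l : ℝ) ^ 4 / (2 * K + 1) ≤
        (sysY X W θ₁ θ).P.real (yWs c K X lam W θ₁ θ γ ws) := by
  let A : List (Step c K) → ℕ → Set (X.Ω × (G → Bool)) := fun w t =>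
    {p | Cc c K X lam θ₁ Cn ((X.prod (Sys.bern G G θ₁)).mv p (c.base K w t)⁻¹) w t}
  have hA : ∀ w t, MeasurableSet (A w t) := fun w t =>
    (X.prod (Sys.bern G G θ₁)).meas_mv _ (ms_Cc hs θ₁ w t)
  have hAP : ∀ w t, (X.P.prod (bern G θ₁)).real (A w t) =
      (X.P.prod (bern G θ₁)).real {p | Cc c K X lam θ₁ Cn p w t} := fun w t =>
    (X.prod (Sys.bern G G θ₁)).pre_real _ fun p => Cc c K X lam θ₁ Cn p w t
  let Q : X.Ω → ℝ := fun ω => avgW l fun w => ∑ t ∈ Finset.range (l + 1),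
    (bern G θ₁).real {σ | (ω, σ) ∈ A w t}
  let N : X.Ω → List (Step c K) → ℝ := fun ω w =>
    cnt l fun t => Cn (X.mv ω (c.base K w t)⁻¹) w t
  let p : X.Ω → List (Step c K) → ℝ := fun ω w => (bern G θ₁).real {σ | ∃ t ≤ l, (ω, σ) ∈ A w t}
  have hpi : ∀ ω, piS c K X lam θ₁ Cn l ω = avgW l (p ω) := fun ω => rfl
  have p0 : ∀ ω w, 0 ≤ p ω w := fun ω w => measureReal_nonneg
  have p1 : ∀ ω w, p ω w ≤ 1 := fun ω w => measureReal_le_one
  have Qmeas : Measurable Q := measurable_avgW fun w =>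
    Finset.measurable_sum _ fun t _ => (GB_fub X.P _ (hA w t)).1
  have Qi : ∀ w : List (Step c K), w.length = l → Integrable (fun ω => ∑ t ∈ Finset.range (l + 1),
      (bern G θ₁).real {σ | (ω, σ) ∈ A w t}) X.P := fun w _ =>
    integrable_finsetSum _ fun t _ => (GB_fub X.P _ (hA w t)).2.1
  have Qint : q ≤ ∫ ω, Q ω ∂X.P := by
    rw [integral_avgW Qi]
    refine hq.trans (avgW_congr fun w _ => ?_).le
    rw [integral_finsetSum _ fun t _ => (GB_fub X.P _ (hA w t)).2.1]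
    exact Finset.sum_congr rfl fun t _ => by rw [(GB_fub X.P _ (hA w t)).2.2, hAP]
  have QN : ∀ ω, Q ω ≤ avgW l fun w => p ω w * N ω w := fun ω => by
    refine avgW_mono fun w _ => ?_
    simp only [N, cnt, Finset.mul_sum]
    refine Finset.sum_le_sum fun t ht => ?_
    by_cases h : Cn (X.mv ω (c.base K w t)⁻¹) w t
    · rw [ind_pos h, mul_one]
      exact measureReal_mono fun σ hσ => ⟨t, Nat.lt_succ_iff.1 (Finset.mem_range.1 ht), hσ⟩
    · have e : {σ | (ω, σ) ∈ A w t} = ∅ := Set.eq_empty_of_forall_notMem fun σ hσ => h hσ.1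
      rw [ind_neg h, mul_zero, e, measureReal_empty]
  have QQ : ∀ ω, Q ω ≤ Qm := fun ω => (QN ω).trans ((avgW_mono fun w _ =>
    mul_le_of_le_one_left (cnt_nonneg _ _) (p1 ω w)).trans (hQ ω))
  have Nm : Measurable fun ω => avgW l fun w => N ω w ^ 2 := measurable_avgW fun w =>
    (Finset.measurable_sum _ fun t _ => measurable_ind (X.meas_mv _ (hs.meas w t))).pow_const 2
  have hT : MeasurableSet {ω | q / 2 ≤ Q ω ∧ ¬ D < avgW l fun w => N ω w ^ 2} :=
    (measurableSet_le measurable_const Qmeas).inter (measurableSet_lt measurable_const Nm).compl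
  have PT : q / (2 * Qm) - εh ≤ X.P.real {ω | q / 2 ≤ Q ω ∧ ¬ D < avgW l fun w => N ω w ^ 2} := by
    have a1 := GB_pz X.P Qmeas (integrable_avgW Qi) hq0 hQ0 QQ Qint
    have a2 : X.P.real {ω | q / 2 ≤ Q ω} ≤
        X.P.real ({ω | q / 2 ≤ Q ω ∧ ¬ D < avgW l fun w => N ω w ^ 2} ∪
          {ω | D < avgW l fun w => N ω w ^ 2}) := measureReal_mono fun ω h => by
      by_cases h' : D < avgW l fun w => N ω w ^ 2
      · exact Or.inr h'
      · exact Or.inl ⟨h, h'⟩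
    linarith [a2.trans (measureReal_union_le _ _)]
  set a : ℝ := (1 - (q / 2) ^ 2 / D * θ ^ (2 * m)) ^ W with ha
  set ov : ℝ := (W : ℝ) ^ 2 * (l : ℝ) ^ 4 / (2 * K + 1) with hov
  have t0 : 0 ≤ θ ^ (2 * m) := pow_nonneg h0 _
  have t1 : θ ^ (2 * m) ≤ 1 := pow_le_one₀ h0 h1
  have a1 : a ≤ 1 := by
    have b0 : 0 ≤ (q / 2) ^ 2 / D := by positivity
    have b1 : (q / 2) ^ 2 / D ≤ 1 := (div_le_one hD0).2 hqD
    exact pow_le_one₀ (by (clear * - b1 t0 t1; nlinarith)) (by (clear * - b0 t0; nlinarith))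
  let P' := (Measure.pi fun _ : Fin W => bern G θ₁).prod (bern (G × G) θ)
  let Y := fun ws : Fin W → Fin l → Step c K =>
    yWs c K X lam W θ₁ θ γ fun i => List.ofFn (ws i)
  have hY : ∀ ws, MeasurableSet (Y ws)ᶜ := fun ws => (ms_yWs hs W θ₁ θ _).compl
  have key : ∀ ω, (𝔼 ws, P'.real {r | (ω, r) ∈ (Y ws)ᶜ}) ≤
      1 + ov - (1 - a) * ind (q / 2 ≤ Q ω ∧ ¬ D < avgW l fun w => N ω w ^ 2) := fun ω => by
    refine (trials hs W θ₁ h0 h1 ω).trans ?_
    have b0 : 0 ≤ avgW l (p ω) := avgW_nonneg fun w _ => p0 ω w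
    have b1 : avgW l (p ω) ≤ 1 := avgW_le fun w _ => p1 ω w
    rw [hpi, ← hov]
    by_cases h : q / 2 ≤ Q ω ∧ ¬ D < avgW l fun w => N ω w ^ 2
    · have b2 : (q / 2) ^ 2 ≤ avgW l (p ω) * D :=
        (pow_le_pow_left₀ (by linarith) (h.1.trans (QN ω)) 2).trans
          ((GB_cs l (p0 ω) (p1 ω)).trans (mul_le_mul_of_nonneg_left (not_lt.1 h.2) b0))
      rw [← div_le_iff₀ hD0] at b2
      have b3 : (1 - avgW l (p ω) * θ ^ (2 * m)) ^ W ≤ a :=
        pow_le_pow_left₀ (by (clear * - b1 t0 t1; nlinarith)) (by (clear * - b2 t0; nlinarith)) W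
      rw [ind_pos h]
      linarith
    · have b3 : (1 - avgW l (p ω) * θ ^ (2 * m)) ^ W ≤ 1 :=
        pow_le_one₀ (by (clear * - b1 t0 t1; nlinarith)) (by (clear * - b0 t0; nlinarith))
      rw [ind_neg h]
      linarith
  have i2 := (integrable_ind X.P hT).const_mul (1 - a)
  have h2 := integral_mono (integrable_expect fun ws => (GB_fub X.P P' (hY ws)).2.1)
    ((integrable_const (1 + ov)).sub i2) key
  simp only [Pi.sub_apply] at h2
  rw [integral_expect fun ws => (GB_fub X.P P' (hY ws)).2.1, integral_sub (integrable_const _) i2,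
    integral_const_mul, integral_ind _ hT, integral_const, probReal_univ, one_smul] at h2
  have h3 : ∀ ws, ∫ ω, P'.real {r | (ω, r) ∈ (Y ws)ᶜ} ∂X.P = 1 - (X.P.prod P').real (Y ws) :=
    fun ws => by rw [(GB_fub X.P P' (hY ws)).2.2, probReal_compl_eq_one_sub (ms_yWs hs W θ₁ θ _)]
  simp only [h3] at h2
  rw [Finset.expect_sub_distrib, Fintype.expect_const] at h2
  obtain ⟨ws, -, hws⟩ := Finset.exists_le_of_le_expect (s := Finset.univ)
    (f := fun ws => (X.P.prod P').real (Y ws)) (a := (q / (2 * Qm) - εh) * (1 - a) - ov)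
    Finset.univ_nonempty (by nlinarith [mul_le_mul_of_nonneg_right PT (sub_nonneg.2 a1)])
  exact ⟨_, hws⟩

end Pool.Agent.Work.MP_01d39a_al.Ct
end

-- merged part: Pool.Agent.Work.MP_01d39a_al.Ct.Kop1
section
/-!
TASK CT Kop1. The killed operator is a positive contraction; energy identity.
`⟪Mop f, f'⟫ = (2|S|)⁻¹ ∑ b, ∫ ind(Con 1 (lt b)) f(mv ω (lt b)) f' ω` (`Ix_coe`, `Uop_coe`, `inner_H2`).
Lazy letters contribute `⟪f, f'⟫` (`Con.refl`). Symmetry: substitute `ω ↦ mv ω γ⁻¹` (`Sys.int_mv`, `con_mv`) and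
reindex `γ ↦ γ⁻¹` on `S`. Energy: `‖f‖² - ∫ ind f(γ) f = (1/2) ∫ [ind (f(γ) - f)² + (1 - ind)(f² + f(γ)²)]`.
Positivity: `|∫ ind f(γ) f| ≤ ‖f‖²`, and half of the letters are lazy.
-/

open MeasureTheory ProbabilityTheory Filter Topology
open scoped BigOperators ENNReal NNReal RealInnerProductSpace

namespace Pool.Agent.Work.MP_01d39a_al.Ct

variable {G : Type} [Group G]

variable [Countable G] (c : Ctx G) (X : Sys G) {Z : G → Set X.Ω} (hZ : Meas X Z)

theorem Kop1_coe (A : Set X.Ω) (hA : MeasurableSet A) (γ : G) (f : H2 X) :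
    Ix X A hA (Uop X γ f) =ᵐ[X.P] fun ω => ind (ω ∈ A) * f (X.mv ω γ) := by
  filter_upwards [Ix_coe X A hA (Uop X γ f), Uop_coe X γ f] with ω h1 h2
  rw [h1, h2]

theorem Kop1_term (γ : G) (f f' : H2 X) :
    ⟪Ix X {ω | Con X c.a Z ω 1 γ} (measurableSet_con hZ 1 _) (Uop X γ f), f'⟫ =
      ∫ ω, ind (Con X c.a Z ω 1 γ) * f (X.mv ω γ) * f' ω ∂X.P := by
  rw [inner_H2]
  refine integral_congr_ae ?_
  filter_upwards [Kop1_coe X _ (measurableSet_con (a := c.a) hZ 1 γ) γ f] with ω h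
  rw [h]

theorem inner_Mop (f f' : H2 X) : ⟪Mop c X Z hZ f, f'⟫ = (2 * c.S.card : ℝ)⁻¹ *
    ∑ b : Bool × c.S, ∫ ω, ind (Con X c.a Z ω 1 (lt b)) * f (X.mv ω (lt b)) * f' ω ∂X.P := by
  rw [Mop, smul_apply, sum_apply, real_inner_smul_left,
    sum_inner]
  congr 1
  refine Finset.sum_congr rfl fun b _ => ?_
  rw [ContinuousLinearMap.comp_apply, Kop1_term c X hZ]

theorem Kop1_sum (f f' : H2 X) : ⟪Mop c X Z hZ f, f'⟫ = (2 * c.S.card : ℝ)⁻¹ *
    (∑ γ ∈ c.S, ∫ ω, ind (Con X c.a Z ω 1 γ) * f (X.mv ω γ) * f' ω ∂X.P +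
      c.S.card * ⟪f, f'⟫) := by
  rw [inner_Mop, Fintype.sum_prod_type, Fintype.sum_bool]
  congr 2
  · exact Finset.sum_coe_sort c.S fun γ =>
      ∫ ω, ind (Con X c.a Z ω 1 γ) * f (X.mv ω γ) * f' ω ∂X.P
  · have : ∀ γ : c.S, ∫ ω, ind (Con X c.a Z ω 1 (lt (false, γ))) *
        f (X.mv ω (lt (false, γ))) * f' ω ∂X.P = ⟪f, f'⟫ := by
      intro γ
      rw [inner_H2]
      refine integral_congr_ae (Eventually.of_forall fun ω => ?_)
      have h1 : lt (false, γ) = 1 := by simp [lt]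
      simp only [h1, X.mv_one, ind_pos (Con.refl (1 : G)), one_mul]
    rw [Finset.sum_congr rfl fun γ _ => this γ]
    simp

omit [Countable G] in
theorem Kop1_symm (γ : G) (f f' : X.Ω → ℝ) :
    ∫ ω, ind (Con X c.a Z ω 1 γ) * f (X.mv ω γ) * f' ω ∂X.P =
      ∫ ω, ind (Con X c.a Z ω 1 γ⁻¹) * f' (X.mv ω γ⁻¹) * f ω ∂X.P := by
  rw [← X.int_mv γ⁻¹ fun ω => ind (Con X c.a Z ω 1 γ) * f (X.mv ω γ) * f' ω]
  refine integral_congr_ae (Eventually.of_forall fun ω => ?_)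
  have h : Con X c.a Z (X.mv ω γ⁻¹) 1 γ ↔ Con X c.a Z ω 1 γ⁻¹ := by
    rw [con_mv, mul_one, inv_mul_cancel]
    exact ⟨Con.symm, Con.symm⟩
  simp only [X.mv_mul, inv_mul_cancel, X.mv_one, ind_congr h]
  ring

include hZ in
theorem Kop1_abs (γ : G) (f : H2 X) :
    |∫ ω, ind (Con X c.a Z ω 1 γ) * f (X.mv ω γ) * f ω ∂X.P| ≤ ‖f‖ ^ 2 := by
  rw [← Kop1_term c X hZ]
  refine (abs_real_inner_le_norm _ _).trans ?_
  rw [sq]
  refine mul_le_mul_of_nonneg_right ?_ (norm_nonneg _)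
  rw [Ix, LinearMap.mkContinuous_apply]
  refine (IxL_norm X _ _ _).trans ?_
  rw [one_mul, Uop_norm]

omit [Countable G] in
theorem Kop1_int_sq (f : H2 X) : Integrable (fun ω => f ω ^ 2) X.P := (Lp.memLp f).integrable_sq

omit [Countable G] in
theorem Kop1_int_sq' (f : H2 X) (γ : G) : Integrable (fun ω => f (X.mv ω γ) ^ 2) X.P :=
  (X.mp γ).integrable_comp_of_integrable (Kop1_int_sq X f)

include hZ in
theorem Kop1_int_mul (f : H2 X) (γ : G) :
    Integrable (fun ω => ind (Con X c.a Z ω 1 γ) * f (X.mv ω γ) * f ω) X.P := by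
  have h := (Lp.memLp (Ix X {ω | Con X c.a Z ω 1 γ} (measurableSet_con hZ 1 _)
    (Uop X γ f))).integrable_mul (Lp.memLp f)
  refine h.congr ?_
  filter_upwards [Kop1_coe X _ (measurableSet_con (a := c.a) hZ 1 γ) γ f] with ω h
  rw [Pi.mul_apply, h]

omit [Countable G] in
theorem Kop1_fun (f : H2 X) (γ : G) : (fun ω =>
    ind (Con X c.a Z ω 1 γ) * (f (X.mv ω γ) - f ω) ^ 2 +
      ind (¬ Con X c.a Z ω 1 γ) * (f ω ^ 2 + f (X.mv ω γ) ^ 2)) = fun ω =>
      (f ω ^ 2 + f (X.mv ω γ) ^ 2) - 2 * (ind (Con X c.a Z ω 1 γ) * f (X.mv ω γ) * f ω) := by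
  funext ω
  rw [ind_not]
  ring

include hZ in
theorem Kop1_energy (f : H2 X) (γ : G) : ∫ ω, (ind (Con X c.a Z ω 1 γ) * (f (X.mv ω γ) - f ω) ^ 2 +
      ind (¬ Con X c.a Z ω 1 γ) * (f ω ^ 2 + f (X.mv ω γ) ^ 2)) ∂X.P =
      2 * ‖f‖ ^ 2 - 2 * ∫ ω, ind (Con X c.a Z ω 1 γ) * f (X.mv ω γ) * f ω ∂X.P := by
  have h1 : Integrable (fun ω => f ω ^ 2 + f (X.mv ω γ) ^ 2) X.P :=
    (Kop1_int_sq X f).add (Kop1_int_sq' X f γ)
  rw [Kop1_fun, integral_sub h1
    ((Kop1_int_mul c X hZ f γ).const_mul 2), integral_add (Kop1_int_sq X f) (Kop1_int_sq' X f γ),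
    integral_const_mul, X.int_mv γ fun ω => f ω ^ 2, ← norm_sq_H2]
  ring

theorem energy_Mop (f : H2 X) : ‖f‖ ^ 2 - ⟪Mop c X Z hZ f, f⟫ = (4 * c.S.card : ℝ)⁻¹ *
    ∑ γ ∈ c.S, ∫ ω, (ind (Con X c.a Z ω 1 γ) * (f (X.mv ω γ) - f ω) ^ 2 +
      ind (¬ Con X c.a Z ω 1 γ) * (f ω ^ 2 + f (X.mv ω γ) ^ 2)) ∂X.P := by
  have hS : (c.S.card : ℝ) ≠ 0 := by exact_mod_cast c.ne.card_pos.ne'
  rw [Kop1_sum, Finset.sum_congr rfl fun γ _ => Kop1_energy c X hZ f γ, Finset.sum_sub_distrib,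
    ← Finset.mul_sum, ← Finset.mul_sum, Finset.sum_const, nsmul_eq_mul, real_inner_self_eq_norm_sq]
  field_simp
  ring

include hZ in
theorem integrable_energy (f : H2 X) (γ : G) : Integrable (fun ω =>
    ind (Con X c.a Z ω 1 γ) * (f (X.mv ω γ) - f ω) ^ 2 +
      ind (¬ Con X c.a Z ω 1 γ) * (f ω ^ 2 + f (X.mv ω γ) ^ 2)) X.P := by
  rw [Kop1_fun]
  exact ((Kop1_int_sq X f).add (Kop1_int_sq' X f γ)).sub ((Kop1_int_mul c X hZ f γ).const_mul 2)

theorem posC_Mop : PosC (Mop c X Z hZ) := by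
  have hS : (0 : ℝ) < c.S.card := by exact_mod_cast c.ne.card_pos
  have hb : ∀ f : H2 X, |∑ γ ∈ c.S, ∫ ω, ind (Con X c.a Z ω 1 γ) * f (X.mv ω γ) * f ω ∂X.P| ≤
      c.S.card * ‖f‖ ^ 2 := fun f => by
    refine (Finset.abs_sum_le_sum_abs _ _).trans ?_
    refine (Finset.sum_le_sum fun γ _ => Kop1_abs c X hZ γ f).trans ?_
    rw [Finset.sum_const, nsmul_eq_mul]
  refine ⟨fun f f' => ?_, fun f => ?_, fun f => ?_⟩
  · rw [real_inner_comm (Mop c X Z hZ f') f, Kop1_sum, Kop1_sum, real_inner_comm f f']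
    congr 2
    refine Finset.sum_bij' (fun γ _ => γ⁻¹) (fun γ _ => γ⁻¹) (fun γ h => c.sym γ h)
      (fun γ h => c.sym γ h) (fun _ _ => inv_inv _) (fun _ _ => inv_inv _) fun γ _ => ?_
    exact Kop1_symm c X γ f f'
  · rw [Kop1_sum, real_inner_self_eq_norm_sq]
    refine mul_nonneg (by positivity) ?_
    linarith [(abs_le.1 (hb f)).1]
  · rw [Kop1_sum, real_inner_self_eq_norm_sq, inv_mul_le_iff₀ (by positivity)]
    linarith [(abs_le.1 (hb f)).2]

theorem posC_Top : PosC (Top' c X Z hZ) :=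
  (posC_Mop c X hZ).conj (Pa_symm X c.a) (Pa_norm_le X c.a)

theorem posC_TK (K : ℕ) : PosC (TK c X Z hZ K) :=
  (posC_Mop c X hZ).conj (Ak_symm X c.a K) (Ak_norm_le X c.a K)

theorem TK_tendsto (n : ℕ) (f : H2 X) :
    Tendsto (fun K => (TK c X Z hZ K ^ n) f) atTop (𝓝 ((Top' c X Z hZ ^ n) f)) :=
  tendsto_pow_strong (Ak_norm_le X c.a) (posC_Mop c X hZ).norm_le (Ak_tendsto X c.a) n f

end Pool.Agent.Work.MP_01d39a_al.Ct
end

-- merged part: Pool.Agent.Work.MP_01d39a_al.Ct.NoR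
section
/-!
TASK CT NoR. Section 1.2 (no return).
noret_step: for `γ ∈ S`, closedness with `y = γ`, `r = 1`, `E = {(a^j, a^j γ)}` gives
`P(Con γ (a^j γ) ∧ ¬ Con γ 1) ≤ ε'` for all but finitely many `j` (`Ctx.zpow_inj`), say `|j| > k₀`.
For any `y`: `(𝔼 k, P(Con y (a^k γ) ∧ ¬ Con 1 (a^k γ)))^2 ≤ ∫ (𝔼 k, ind ..)^2 ≤ 𝔼 k k', P(Con (a^k γ) (a^k' γ) ∧
¬ Con 1 (a^k' γ))`, move by `a^k'` (`con_mv`, `con_zpow`, `Sys.pre_real`); pairs with `|k - k'| ≤ k₀` have
proportion at most `(2 k₀ + 1)/(2K + 1)`. Lazy letters give the empty event; the last factor `a^k'` of a step does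
not matter (`con_zpow`).
noret: induction on `n` from the front, for all `y`: if `Con y (pw (s :: w))` and the path does not stay, then either
the tail does not stay in the class of `gs s` (move by `gs s`, use the induction hypothesis with `(gs s)⁻¹ y`), or it
does, and then `Con y (gs s)` and `¬ Con 1 (gs s)`.
-/

open MeasureTheory ProbabilityTheory Filter Topology
open scoped BigOperators ENNReal NNReal

namespace Pool.Agent.Work.MP_01d39a_al.Ct

variable {G : Type} [Group G]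

theorem NoR_far {c : Ctx G} {X : Sys G} {Z : G → Set X.Ω} (hc : Closed c X Z) {γ : G}
    (hγ : γ ∈ c.S) {ε : ℝ} (hε : 0 < ε) : ∃ Φ : Finset G, ∀ j : ℤ,
      X.P.real {ω | Con X c.a Z ω γ (c.a ^ j * γ) ∧ ¬ Con X c.a Z ω γ 1} ≤
        ε + ind (c.a ^ j ∈ Φ) := by
  obtain ⟨Φ, h⟩ := hc γ 1 ε hε
  refine ⟨Φ, fun j => ?_⟩
  by_cases hj : c.a ^ j ∈ Φ
  · rw [ind_pos hj]
    exact measureReal_le_one.trans (by linarith)
  · rw [ind_neg hj, add_zero]
    refine h {(c.a ^ j, c.a ^ j * γ)} (by simp) (by simp [hγ, hj]) _ ?_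
    have h1 : ∀ k : ℤ, PathCon c.a {(c.a ^ j, c.a ^ j * γ)} 1 (c.a ^ k) := by
      intro k
      induction k using Int.induction_on with
      | zero => exact zpow_zero c.a ▸ Relation.EqvGen.refl _
      | succ k ih =>
        exact Relation.EqvGen.trans _ _ _ ih (Relation.EqvGen.rel _ _ (Or.inl (zpow_add_one _ _)))
      | pred k ih =>
        refine Relation.EqvGen.trans _ _ _ ih (Relation.EqvGen.symm _ _
          (Relation.EqvGen.rel _ _ (Or.inl ?_)))
        rw [← zpow_add_one, sub_add_cancel]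
    exact Relation.EqvGen.trans _ _ _ (h1 j)
      (Relation.EqvGen.rel _ _ (Or.inr (Finset.mem_singleton_self _)))

theorem NoR_count (c : Ctx G) (Φ : Finset G) (K : ℕ) (m : ℤ) :
    (𝔼 k : Fin (2 * K + 1), ind (c.a ^ (ex K k - m) ∈ Φ)) ≤ Φ.card / (2 * K + 1 : ℝ) := by
  classical
  rw [Fintype.expect_eq_sum_div_card, Fintype.card_fin]
  push_cast
  refine div_le_div_of_nonneg_right ?_ (by positivity)
  have e : ∑ k : Fin (2 * K + 1), ind (c.a ^ (ex K k - m) ∈ Φ) =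
      ((Finset.univ.filter fun k : Fin (2 * K + 1) => c.a ^ (ex K k - m) ∈ Φ).card : ℝ) := by
    rw [Finset.card_filter]
    push_cast
    refine Finset.sum_congr rfl fun k _ => ?_
    split_ifs with h
    · exact ind_pos h
    · exact ind_neg h
  rw [e, Nat.cast_le]
  refine Finset.card_le_card_of_injOn (fun k => c.a ^ (ex K k - m))
    (fun k hk => (Finset.mem_filter.1 hk).2) fun k _ k' _ h => ?_
  have := c.zpow_inj h
  unfold ex at this
  exact Fin.ext (by omega)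

theorem NoR_pair {c : Ctx G} {X : Sys G} {Z : G → Set X.Ω} (γ y : G) (k m : ℤ) :
    X.P.real {ω | (Con X c.a Z ω y (c.a ^ k * γ) ∧ ¬ Con X c.a Z ω 1 (c.a ^ k * γ)) ∧
      (Con X c.a Z ω y (c.a ^ m * γ) ∧ ¬ Con X c.a Z ω 1 (c.a ^ m * γ))} ≤
    X.P.real {ω | Con X c.a Z ω γ (c.a ^ (k - m) * γ) ∧ ¬ Con X c.a Z ω γ 1} := by
  rw [← X.pre_real (c.a ^ m) fun ω =>
    Con X c.a Z ω γ (c.a ^ (k - m) * γ) ∧ ¬ Con X c.a Z ω γ 1]
  refine measureReal_mono fun ω h => ?_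
  simp only [Set.mem_ofPred_eq] at h ⊢
  rw [con_mv, con_mv, ← mul_assoc, ← zpow_add, add_sub_cancel, mul_one]
  refine ⟨h.2.1.symm.trans h.1.1, fun h1 => h.2.2 ?_⟩
  have h2 := con_zpow (X := X) (a := c.a) (Z := Z) (ω := ω) 1 m
  rw [one_mul] at h2
  exact h2.trans h1.symm

theorem NoR_one [Countable G] {c : Ctx G} {X : Sys G} {Z : G → Set X.Ω} (hZ : Meas X Z)
    (hc : Closed c X Z) {γ : G} (hγ : γ ∈ c.S) {ε : ℝ} (hε : 0 < ε) : ∀ᶠ K in atTop, ∀ y : G,
      (𝔼 k : Fin (2 * K + 1), X.P.real {ω | Con X c.a Z ω y (c.a ^ ex K k * γ) ∧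
        ¬ Con X c.a Z ω 1 (c.a ^ ex K k * γ)}) ≤ ε := by
  obtain ⟨Φ, hΦ⟩ := NoR_far hc hγ (ε := ε ^ 2 / 2) (by positivity)
  obtain ⟨K₀, hK₀⟩ := exists_nat_ge (Φ.card / (ε ^ 2 / 2))
  filter_upwards [eventually_ge_atTop K₀] with K hK y
  have h1 : Φ.card / (2 * K + 1 : ℝ) ≤ ε ^ 2 / 2 := by
    rw [div_le_iff₀ (by positivity)] at hK₀ ⊢
    have : (K₀ : ℝ) ≤ K := Nat.cast_le.2 hK
    have h2 : (0 : ℝ) ≤ K := Nat.cast_nonneg _
    nlinarith [sq_nonneg ε]
  obtain ⟨E, hE⟩ : ∃ E : Fin (2 * K + 1) → X.Ω → Prop, ∀ k ω, E k ω ↔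
      Con X c.a Z ω y (c.a ^ ex K k * γ) ∧ ¬ Con X c.a Z ω 1 (c.a ^ ex K k * γ) :=
    ⟨_, fun _ _ => Iff.rfl⟩
  have hm : ∀ k, MeasurableSet {ω | E k ω} := fun k => by
    simp only [hE]
    exact (measurableSet_con hZ _ _).inter (measurableSet_con hZ _ _).compl
  have hm2 : ∀ k m, MeasurableSet {ω | E k ω ∧ E m ω} := fun k m => (hm k).inter (hm m)
  have h2 : ∀ k m, X.P.real {ω | E k ω ∧ E m ω} ≤ ε ^ 2 / 2 + ind (c.a ^ (ex K k - ex K m) ∈ Φ) :=
    fun k m => by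
      simp only [hE]
      exact (NoR_pair γ y _ _).trans (hΦ _)
  have h3 : ∫ ω, (𝔼 m, 𝔼 k, ind (E k ω ∧ E m ω)) ∂X.P ≤ ε ^ 2 := by
    rw [integral_expect fun m => integrable_expect fun k => integrable_ind _ (hm2 k m)]
    refine Finset.expect_le Finset.univ_nonempty fun m _ => ?_
    rw [integral_expect fun k => integrable_ind _ (hm2 k m)]
    simp only [integral_ind _ (hm2 _ m)]
    refine (Finset.expect_le_expect fun k _ => h2 k m).trans ?_
    rw [Finset.expect_add_distrib, Finset.expect_const Finset.univ_nonempty]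
    linarith [NoR_count c Φ K (ex K m)]
  have h4 : ∀ ω, (𝔼 k, ind (E k ω)) ≤ ε / 2 + (2 * ε)⁻¹ * 𝔼 m, 𝔼 k, ind (E k ω ∧ E m ω) := by
    intro ω
    simp only [ind_and]
    rw [Finset.expect_comm, ← Finset.expect_mul_expect]
    generalize (𝔼 k, ind (E k ω)) = t
    have : ε / 2 + (2 * ε)⁻¹ * (t * t) - t = (2 * ε)⁻¹ * (t - ε) ^ 2 := by
      field_simp
      ring
    have h5 : 0 ≤ (2 * ε)⁻¹ * (t - ε) ^ 2 := by positivity
    linarith
  have hi : Integrable (fun ω => 𝔼 m, 𝔼 k, ind (E k ω ∧ E m ω)) X.P :=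
    integrable_expect fun m => integrable_expect fun k => integrable_ind _ (hm2 k m)
  simp only [← hE, ← integral_ind _ (hm _)]
  rw [← integral_expect fun k => integrable_ind _ (hm k)]
  refine (integral_mono (integrable_expect fun k => integrable_ind _ (hm k))
    ((integrable_const _).add (hi.const_mul _)) h4).trans ?_
  rw [integral_add' (integrable_const _) (hi.const_mul _), integral_const, integral_const_mul,
    probReal_univ, one_smul]
  have h5 : (2 * ε)⁻¹ * ε ^ 2 = ε / 2 := by field_simp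
  have h6 := mul_le_mul_of_nonneg_left h3 (by positivity : 0 ≤ (2 * ε)⁻¹)
  linarith

theorem noret_step [Countable G] {c : Ctx G} {X : Sys G} {Z : G → Set X.Ω} (hZ : Meas X Z)
    (hc : Closed c X Z) {ε : ℝ} (hε : 0 < ε) : ∀ᶠ K in atTop, ∀ y : G,
      (𝔼 s : Step c K, X.P.real {ω | Con X c.a Z ω y (c.gs K s) ∧ ¬ Con X c.a Z ω 1 (c.gs K s)})
        ≤ ε := by
  have h1 : ∀ b : Bool × c.S, ∀ᶠ K in atTop, ∀ y : G,
      (𝔼 k : Fin (2 * K + 1), X.P.real {ω | Con X c.a Z ω y (c.a ^ ex K k * lt b) ∧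
        ¬ Con X c.a Z ω 1 (c.a ^ ex K k * lt b)}) ≤ ε := by
    rintro ⟨_ | _, γ⟩
    · refine Eventually.of_forall fun K y => Finset.expect_le Finset.univ_nonempty fun k _ => ?_
      have e : {ω | Con X c.a Z ω y (c.a ^ ex K k * lt (false, γ)) ∧
          ¬ Con X c.a Z ω 1 (c.a ^ ex K k * lt (false, γ))} = ∅ := by
        refine Set.eq_empty_of_forall_notMem fun ω h => h.2 ?_
        simpa [lt] using con_zpow (X := X) (a := c.a) (Z := Z) (ω := ω) 1 (ex K k)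
      rw [e, measureReal_empty]
      exact hε.le
    · exact NoR_one hZ hc γ.2 hε
  filter_upwards [eventually_all.2 h1] with K hK y
  rw [← Finset.univ_product_univ, Finset.expect_product, Finset.expect_comm]
  refine Finset.expect_le Finset.univ_nonempty fun p _ => ?_
  refine (Finset.expect_le_expect fun k _ => measureReal_mono fun ω h => ?_).trans (hK p.1 y)
  have h2 := con_zpow (X := X) (a := c.a) (Z := Z) (ω := ω) (c.a ^ ex K k * lt p.1) (ex K p.2)
  exact ⟨h.1.trans h2.symm, fun h3 => h.2 (h3.trans h2)⟩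

theorem noret [Countable G] {c : Ctx G} {X : Sys G} {Z : G → Set X.Ω} (hZ : Meas X Z)
    (hc : Closed c X Z) {ε : ℝ} (hε : 0 < ε) : ∀ᶠ K in atTop, ∀ (n : ℕ) (y : G),
      X.ann n (fun ω w => Con X c.a Z ω y (pw (c.gs K) w) ∧ ¬ Stay X c.a Z (c.gs K) ω w) ≤
        n * ε := by
  filter_upwards [noret_step hZ hc hε] with K hK n
  induction n with
  | zero =>
    intro y
    have e : {ω | Con X c.a Z ω y (pw (c.gs K) []) ∧ ¬ Stay X c.a Z (c.gs K) ω []} = ∅ :=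
      Set.eq_empty_of_forall_notMem fun ω h => h.2 fun i _ => by simpa [pw] using Con.refl 1
    simp only [Sys.ann, avgW]
    rw [e]
    simp
  | succ n ih =>
    intro y
    have h1 : ∀ (s : Step c K) (w : List (Step c K)),
        X.P.real {ω | Con X c.a Z ω y (pw (c.gs K) (s :: w)) ∧
          ¬ Stay X c.a Z (c.gs K) ω (s :: w)} ≤
        X.P.real {ω | Con X c.a Z ω ((c.gs K s)⁻¹ * y) (pw (c.gs K) w) ∧
          ¬ Stay X c.a Z (c.gs K) ω w} +
        X.P.real {ω | Con X c.a Z ω y (c.gs K s) ∧ ¬ Con X c.a Z ω 1 (c.gs K s)} := by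
      intro s w
      rw [← X.pre_real (c.gs K s) fun ω => Con X c.a Z ω ((c.gs K s)⁻¹ * y) (pw (c.gs K) w) ∧
        ¬ Stay X c.a Z (c.gs K) ω w]
      refine le_trans (measureReal_mono fun ω h => ?_) (measureReal_union_le _ _)
      simp only [Set.mem_union, Set.mem_ofPred_eq] at h ⊢
      rw [pw_cons] at h
      by_cases h2 : Stay X c.a Z (c.gs K) (X.mv ω (c.gs K s)) w
      · have h3 : ∀ i ≤ w.length,
            Con X c.a Z ω (c.gs K s) (c.gs K s * pw (c.gs K) (w.take i)) := fun i hi => by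
          have := (con_mv _ _ _).1 (h2 i hi)
          rwa [mul_one] at this
        refine Or.inr ⟨?_, fun h4 => h.2 fun i hi => ?_⟩
        · have := h3 _ le_rfl
          rw [List.take_length] at this
          exact h.1.trans this.symm
        · rcases i with _ | i
          · simpa [pw] using Con.refl 1
          · rw [List.take_succ_cons, pw_cons]
            exact h4.trans (h3 i (Nat.le_of_succ_le_succ hi))
      · refine Or.inl ⟨?_, h2⟩
        rw [con_mv, mul_inv_cancel_left]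
        exact h.1
    unfold Sys.ann at ih ⊢
    rw [avgW_succ]
    refine (Finset.expect_le_expect fun s _ => avgW_mono fun w _ => h1 s w).trans ?_
    simp only [avgW_add, avgW_const]
    rw [Finset.expect_add_distrib, Nat.cast_succ, add_mul, one_mul]
    exact add_le_add (Finset.expect_le Finset.univ_nonempty fun s _ => ih _) (hK y)

theorem Closed.pull [Countable G] {c : Ctx G} {X Y : Sys G} {π : Y.Ω → X.Ω} (h : Fac Y X π)
    {Z : G → Set X.Ω} (hZ : Meas X Z) (hc : Closed c X Z) : Closed c Y fun g => π ⁻¹' Z g := by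
  intro y r ε hε
  obtain ⟨Φ, hΦ⟩ := hc y r ε hε
  refine ⟨Φ, fun E h1 h2 y' h3 => le_trans (le_of_eq ?_) (hΦ E h1 h2 y' h3)⟩
  have hm : MeasurableSet {ω | Con X c.a Z ω y y' ∧ ¬ Con X c.a Z ω y 1} :=
    (measurableSet_con hZ y y').inter (measurableSet_con hZ y 1).compl
  rw [← h.real hm]
  simp only [con_pull h.eqv]
  rfl

theorem measurableSet_stay [Countable G] {X : Sys G} {a : G} {Z : G → Set X.Ω} (hZ : Meas X Z)
    {σ : Type} (g : σ → G) (w : List σ) : MeasurableSet {ω | Stay X a Z g ω w} := by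
  simp only [Stay, Set.ofPred_forall]
  exact MeasurableSet.iInter fun i => MeasurableSet.iInter fun _ => measurableSet_con hZ _ _

end Pool.Agent.Work.MP_01d39a_al.Ct
end

-- merged part: Pool.Agent.Work.MP_01d39a_al.Ct.Kop2
section
/-!
TASK CT Kop2. The operator `TK` is the killed walk.
First: `TK f =ᵐ fun ω => 𝔼 s, ind (Con 1 (gs s)) * f (mv ω (gs s))` (expand the three averages; use
`Con (mv ω (a^k)) 1 γ ↔ Con ω 1 (a^k γ a^k')` from `con_mv`, `con_zpow`). Then induction on `t` for the a.e. formula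
`(TK^t f) ω = avgW t fun w => ind (Stay ω w) * f (mv ω (pw w))` (`pow_succ'`, `avgW_succ`; `Stay ω (s :: w) ↔
Con ω 1 (gs s) ∧ Stay (mv ω (gs s)) w`). Finite families of a.e. statements: `ae_all_iff`; `avgW_ofFn` if needed.
-/

open MeasureTheory ProbabilityTheory Filter Topology
open scoped BigOperators ENNReal NNReal RealInnerProductSpace

namespace Pool.Agent.Work.MP_01d39a_al.Ct

variable {G : Type} [Group G]

variable [Countable G] (c : Ctx G) (X : Sys G) {Z : G → Set X.Ω} (hZ : Meas X Z)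

omit [Countable G] in
theorem Kop2_avg {ι : Type} [Fintype ι] {r : ℝ} (hr : r = Fintype.card ι) (T : ι → H2 X →L[ℝ] H2 X)
    (f : H2 X) {F : ι → X.Ω → ℝ} (h : ∀ i, T i f =ᵐ[X.P] F i) :
    (r⁻¹ • ∑ i, T i) f =ᵐ[X.P] fun ω => 𝔼 i, F i ω := by
  rw [smul_apply, sum_apply]
  filter_upwards [Lp.coeFn_smul r⁻¹ (∑ i, T i f), Lp.coeFn_finsetSum Finset.univ fun i => T i f,
    ae_all_iff.2 h] with ω h1 h2 h3
  rw [h1, Pi.smul_apply, h2, Finset.sum_apply, Finset.expect_eq_sum_div_card, smul_eq_mul,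
    Finset.card_univ, hr, inv_mul_eq_div]
  simp only [h3]

omit [Countable G] in
theorem Kop2_Ak (a : G) (K : ℕ) (f : H2 X) :
    Ak X a K f =ᵐ[X.P] fun ω => 𝔼 k : Fin (2 * K + 1), f (X.mv ω (a ^ ex K k)) :=
  Kop2_avg X (by simp) _ f fun _ => Uop_coe X _ f

theorem Kop2_Mop (f : H2 X) : Mop c X Z hZ f =ᵐ[X.P] fun ω =>
    𝔼 b : Bool × c.S, ind (Con X c.a Z ω 1 (lt b)) * f (X.mv ω (lt b)) := by
  refine Kop2_avg X (by simp) _ f fun b => ?_
  filter_upwards [Ix_coe X _ (measurableSet_con hZ 1 (lt b)) (Uop X (lt b) f),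
    Uop_coe X (lt b) f] with ω h1 h2
  rw [ContinuousLinearMap.comp_apply, h1, h2]

omit [Countable G] in
theorem Kop2_con (a : G) (ω : X.Ω) (k k' : ℤ) (γ : G) :
    Con X a Z (X.mv ω (a ^ k)) 1 γ ↔ Con X a Z ω 1 (a ^ k * γ * a ^ k') := by
  have h1 : Con X a Z ω 1 (a ^ k * 1) := by simpa using con_zpow (1 : G) k
  have h2 := con_zpow (X := X) (a := a) (Z := Z) (ω := ω) (a ^ k * γ) k'
  rw [con_mv]
  exact ⟨fun h => (h1.trans h).trans h2, fun h => (h1.symm.trans h).trans h2.symm⟩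

omit [Countable G] in
theorem Kop2_stay (a : G) {σ : Type} (g : σ → G) (ω : X.Ω) (s : σ) (w : List σ) :
    Stay X a Z g ω (s :: w) ↔ Con X a Z ω 1 (g s) ∧ Stay X a Z g (X.mv ω (g s)) w := by
  constructor
  · intro h
    have h1 : Con X a Z ω 1 (g s) := by simpa [pw_cons] using h 1 (by simp)
    refine ⟨h1, fun i hi => ?_⟩
    rw [con_mv, mul_one]
    exact h1.symm.trans (by simpa [pw_cons] using h (i + 1) (by simpa using hi))
  · rintro ⟨h1, h2⟩ (_ | i) hi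
    · exact Con.refl _
    · have h3 := h2 i (by simpa using hi)
      rw [con_mv, mul_one] at h3
      simpa [pw_cons] using h1.trans h3

theorem TK_coe (K : ℕ) (f : H2 X) : TK c X Z hZ K f =ᵐ[X.P] fun ω =>
    𝔼 s : Step c K, ind (Con X c.a Z ω 1 (c.gs K s)) * f (X.mv ω (c.gs K s)) := by
  filter_upwards [Kop2_Ak X c.a K (Mop c X Z hZ (Ak X c.a K f)),
    X.ae_mv (Kop2_Mop c X hZ (Ak X c.a K f)), X.ae_mv (Kop2_Ak X c.a K f)] with ω h1 h2 h3
  rw [TK, mul_apply_eq_comp, mul_apply_eq_comp, h1,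
    ← Finset.univ_product_univ, Finset.expect_product]
  refine Finset.expect_congr rfl fun k _ => ?_
  rw [h2, ← Finset.univ_product_univ (α := Bool × c.S), Finset.expect_product]
  refine Finset.expect_congr rfl fun b _ => ?_
  rw [X.mv_mul, h3, Finset.mul_expect]
  refine Finset.expect_congr rfl fun k' _ => ?_
  rw [X.mv_mul, ind_congr (Kop2_con X c.a ω _ (ex K k') _)]
  rfl

theorem Kop2_pow (K t : ℕ) (f : H2 X) : (TK c X Z hZ K ^ t) f =ᵐ[X.P] fun ω =>
    avgW t fun w => ind (Stay X c.a Z (c.gs K) ω w) * f (X.mv ω (pw (c.gs K) w)) := by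
  induction t with
  | zero =>
    refine Eventually.of_forall fun ω => ?_
    have h : Stay X c.a Z (c.gs K) ω [] := fun i _ => by simpa using Con.refl _
    simp [ind_pos h, X.mv_one]
  | succ t ih =>
    filter_upwards [TK_coe c X hZ K ((TK c X Z hZ K ^ t) f), X.ae_mv ih] with ω h1 h2
    rw [pow_succ', mul_apply_eq_comp, h1, avgW_succ]
    refine Finset.expect_congr rfl fun s _ => ?_
    rw [h2, ← avgW_mul_left]
    refine avgW_congr fun w _ => ?_
    rw [ind_congr (Kop2_stay X c.a _ ω s w), ind_and, pw_cons, X.mv_mul, mul_assoc]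

theorem inner_TK_pow (K t : ℕ) (f f' : H2 X) : ⟪(TK c X Z hZ K ^ t) f, f'⟫ =
    avgW t fun w => ∫ ω, ind (Stay X c.a Z (c.gs K) ω w) * f (X.mv ω (pw (c.gs K) w)) * f' ω ∂X.P := by
  rw [inner_H2, ← integral_avgW]
  · refine integral_congr_ae ?_
    filter_upwards [Kop2_pow c X hZ K t f] with ω h
    rw [h, avgW_mul_right]
  · intro w _
    refine ((Lp.memLp (Ix X _ (measurableSet_stay (a := c.a) hZ (c.gs K) w)
      (Uop X (pw (c.gs K) w) f))).integrable_mul (Lp.memLp f')).congr ?_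
    filter_upwards [Ix_coe X _ (measurableSet_stay (a := c.a) hZ (c.gs K) w)
      (Uop X (pw (c.gs K) w) f), Uop_coe X (pw (c.gs K) w) f] with ω h1 h2
    rw [Pi.mul_apply, h1, h2]

end Pool.Agent.Work.MP_01d39a_al.Ct
end

-- merged part: Pool.Agent.Work.MP_01d39a_al.Ct.HV
section
/-!
TASK CT HV. Almost harmonic vectors (first half of section 3).
Take `Z = fun _ => Set.univ` (then `Con` always holds, `Stay` always holds, `Ix univ = id`), `ξ₀ = toLp ξ ∈ Fix`,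
`T = Top'`. `aa T ξ₀ n` is the limit of `⟪TK^n ξ₀, ξ₀⟫` (`inner_TK_pow`, `TK_tendsto`), `1 - aa T ξ₀ 1 ≤ r` by
`inner_Mop` (note `0 ≤ r`). `PosC.ratio` gives `n`; `ζ = T^n ξ₀ ∈ Fix`, `d = aa (2n) - aa (2n+1) = ‖ζ‖² - ⟪Mop ζ, ζ⟫`,
`v g = (sqrt (2 d))⁻¹ • Uop g ζ`. The average of `Uop (gs s) ζ` over steps is `TK K ζ → T ζ`, and
`‖T ζ - ζ‖² = d (2n) - d (2n+1) ≤ x₀ d`, so the drift tends to a limit `≤ x₀/2`.
-/

open MeasureTheory ProbabilityTheory Filter Topology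
open scoped BigOperators ENNReal NNReal RealInnerProductSpace

namespace Pool.Agent.Work.MP_01d39a_al.Ct

variable {G : Type} [Group G]

theorem HV_meas (X : Sys G) : Meas X fun _ => Set.univ := fun _ => MeasurableSet.univ

theorem HV_con (X : Sys G) (a : G) (ω : X.Ω) (x y : G) : Con X a (fun _ => Set.univ) ω x y :=
  Relation.EqvGen.rel _ _ (Or.inr (Set.mem_univ _))

theorem HV_int (X : Sys G) (g : G) (f f' : H2 X) :
    ∫ ω, f (X.mv ω g) * f' ω ∂X.P = ⟪Uop X g f, f'⟫ := by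
  rw [inner_H2]
  refine integral_congr_ae ?_
  filter_upwards [Uop_coe X g f] with ω hω
  rw [hω]

theorem HV_Mop [Countable G] (c : Ctx G) (X : Sys G) {f : H2 X} (hf : f ∈ Fix X c.a) :
    ‖f‖ ^ 2 - ⟪Top' c X _ (HV_meas X) f, f⟫ =
      (2 * c.S.card : ℝ)⁻¹ * ∑ γ ∈ c.S, (‖f‖ ^ 2 - ⟪Uop X γ f, f⟫) := by
  have hs : (c.S.card : ℝ) ≠ 0 := Nat.cast_ne_zero.2 c.ne.card_pos.ne'
  have e : Top' c X _ (HV_meas X) f = Pa X c.a (Mop c X _ (HV_meas X) (Pa X c.a f)) := rfl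
  rw [e, Pa_symm, Pa_of_mem X hf, inner_Mop]
  simp only [ind_pos (HV_con X _ _ _ _), one_mul, HV_int]
  rw [Fintype.sum_prod_type, Fintype.sum_bool]
  simp only [lt, if_true, Bool.false_eq_true, if_false, Uop_one, real_inner_self_eq_norm_sq]
  rw [Finset.sum_coe_sort c.S fun γ => ⟪Uop X γ f, f⟫, Finset.sum_sub_distrib]
  simp only [Finset.sum_const, Finset.card_univ, Fintype.card_coe, nsmul_eq_mul]
  field_simp
  ring

theorem HV_pow [Countable G] (c : Ctx G) (X : Sys G) (K t : ℕ) (f f' : H2 X) :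
    ⟪(TK c X _ (HV_meas X) K ^ t) f, f'⟫ = avgW t fun w => ⟪Uop X (pw (c.gs K) w) f, f'⟫ := by
  rw [inner_TK_pow]
  refine avgW_congr fun w _ => ?_
  rw [← HV_int]
  refine integral_congr_ae (Eventually.of_forall fun ω => ?_)
  beta_reduce
  rw [ind_pos (show Stay X c.a _ (c.gs K) ω w from fun _ _ => HV_con X _ _ _ _), one_mul]

theorem HV_TK [Countable G] (c : Ctx G) (X : Sys G) (K : ℕ) (f : H2 X) :
    TK c X _ (HV_meas X) K f =
      (Fintype.card (Step c K) : ℝ)⁻¹ • ∑ s : Step c K, Uop X (c.gs K s) f := by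
  refine ext_inner_right ℝ fun f' => ?_
  have h := HV_pow c X K 1 f f'
  rw [pow_one, avgW_succ, Finset.expect_eq_sum_div_card] at h
  rw [h, real_inner_smul_left, sum_inner, Finset.card_univ, div_eq_inv_mul]
  simp only [avgW_zero, pw_cons, pw_nil, mul_one]

theorem exists_vec [Countable G] (c : Ctx G) (X : Sys G) {ξ : X.Ω → ℝ} (hm : Measurable ξ)
    (h1 : ∀ ω, ξ ω ^ 2 = 1) (ha : ∀ ω, ξ (X.mv ω c.a) = ξ ω) {r x₀ : ℝ} (hx : 0 < x₀)
    (hr : ∀ γ ∈ c.S, 1 - ∫ ω, ξ (X.mv ω γ) * ξ ω ∂X.P ≤ r) (h4 : 4 * r < x₀)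
    (hz : ∃ n, ∀ᶠ K in atTop,
      avgW n (fun w => ∫ ω, ξ (X.mv ω (pw (c.gs K) w)) * ξ ω ∂X.P) ≤ 1 / 2) :
    ∃ v : G → H2 X, VecPack c v x₀ := by
  have hs : (0 : ℝ) < c.S.card := Nat.cast_pos.2 c.ne.card_pos
  have hL : MemLp ξ 2 X.P := MemLp.of_bound hm.aestronglyMeasurable 1
    (Eventually.of_forall fun ω => (sq_le_one_iff_abs_le_one _).1 (h1 ω).le)
  obtain ⟨f, hf⟩ : ∃ f : H2 X, f =ᵐ[X.P] ξ := ⟨hL.toLp ξ, hL.coeFn_toLp⟩
  have hf' : ∀ g, ∀ᵐ ω ∂X.P, f (X.mv ω g) = ξ (X.mv ω g) := fun g =>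
    (X.mp g).quasiMeasurePreserving.ae hf
  have hI : ∀ g, ⟪Uop X g f, f⟫ = ∫ ω, ξ (X.mv ω g) * ξ ω ∂X.P := fun g => by
    rw [← HV_int]
    refine integral_congr_ae ?_
    filter_upwards [hf, hf' g] with ω e1 e2
    rw [e1, e2]
  have hn : ‖f‖ = 1 := by
    rw [← sq_eq_sq₀ (norm_nonneg _) zero_le_one, norm_sq_H2, one_pow,
      integral_congr_ae (g := fun _ => (1 : ℝ)) (hf.mono fun ω e => by rw [← h1 ω, ← e])]
    simp
  have hF : f ∈ Fix X c.a := (mem_Fix_iff_ae X _ _).2 (by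
    filter_upwards [hf, hf' c.a] with ω e1 e2
    rw [e1, e2, ha])
  have hT := posC_Top c X (HV_meas X)
  have hM := fun f => HV_Mop c X (f := f)
  have hK := TK_tendsto c X (HV_meas X)
  have hP : ∀ u, Top' c X _ (HV_meas X) u ∈ Fix X c.a := fun u => Pa_mem X _ _
  generalize Top' c X _ (HV_meas X) = T at hT hM hK hP
  have hr' : 1 - aa T f 1 ≤ r / 2 := by
    have e := hM f hF
    rw [hn, one_pow] at e
    rw [aa, pow_one, e, inv_mul_le_iff₀ (by positivity)]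
    refine (Finset.sum_le_card_nsmul _ _ r fun γ hγ => by rw [hI]; exact hr γ hγ).trans ?_
    rw [nsmul_eq_mul]
    linarith
  have hlow : ∃ n, aa T f n ≤ 1 / 2 := by
    obtain ⟨n, hn⟩ := hz
    refine ⟨n, le_of_tendsto ((hK n f).inner (tendsto_const_nhds (x := f))) (hn.mono ?_)⟩
    intro K h
    rw [HV_pow]
    simpa only [hI] using h
  obtain ⟨n, hd, hd'⟩ := hT.ratio hn hr' hx (by linarith) hlow
  have a0 : ‖(T ^ n) f‖ ^ 2 = aa T f (2 * n) := by
    rw [← real_inner_self_eq_norm_sq, hT.inner_pow, two_mul]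
  have a1 : ⟪T ((T ^ n) f), (T ^ n) f⟫ = aa T f (2 * n + 1) := by
    rw [← mul_apply_eq_comp, ← pow_succ', hT.inner_pow]
    congr 1
    ring
  have a2 : ‖T ((T ^ n) f)‖ ^ 2 = aa T f (2 * n + 2) := by
    rw [← mul_apply_eq_comp, ← pow_succ', ← real_inner_self_eq_norm_sq, hT.inner_pow]
    congr 1
    ring
  have hζ : (T ^ n) f ∈ Fix X c.a := by
    cases n with
    | zero => exact hF
    | succ n =>
      rw [pow_succ', mul_apply_eq_comp]
      exact hP _
  rw [← a0, ← a1] at hd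
  rw [← a0, ← a1, ← a2] at hd'
  generalize (T ^ n) f = ζ at hd hd' hζ
  have hE := hM ζ hζ
  have hD := norm_sub_sq_real (T ζ) ζ
  generalize hdd : ‖ζ‖ ^ 2 - ⟪T ζ, ζ⟫ = d at hd hE
  rw [hdd] at hd'
  obtain ⟨ρ, hρ⟩ : ∃ ρ : ℝ, ρ ^ 2 = (2 * d)⁻¹ := ⟨√(2 * d)⁻¹, Real.sq_sqrt (by positivity)⟩
  have hN : ∀ u : H2 X, ‖ρ • u‖ ^ 2 = (2 * d)⁻¹ * ‖u‖ ^ 2 := fun u => by
    rw [norm_smul, mul_pow, Real.norm_eq_abs, sq_abs, hρ]
  refine ⟨fun g => ρ • Uop X g ζ, fun g x y => ?_, fun g => ?_, ?_, ?_⟩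
  · simp only [real_inner_smul_left, real_inner_smul_right, ← Uop_mul, Uop_inner]
  · rw [← Uop_mul, mem_Fix.1 hζ]
  · have e : ∀ γ, ‖ρ • Uop X γ ζ - ρ • Uop X 1 ζ‖ ^ 2 =
        d⁻¹ * (‖ζ‖ ^ 2 - ⟪Uop X γ ζ, ζ⟫) := fun γ => by
      rw [← smul_sub, hN, Uop_one, norm_sub_sq_real, Uop_norm]
      field_simp
      ring
    simp only [e]
    rw [← Finset.mul_sum, inv_mul_eq_iff_eq_mul₀ hd.ne']
    rw [eq_inv_mul_iff_mul_eq₀ (by (clear * - hs; positivity))] at hE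
    rw [← hE, mul_comm]
  · have e : ∀ K, (Fintype.card (Step c K) : ℝ)⁻¹ • (∑ s : Step c K, ρ • Uop X (c.gs K s) ζ) -
        ρ • Uop X 1 ζ = ρ • (TK c X _ (HV_meas X) K ζ - ζ) := fun K => by
      rw [HV_TK, Uop_one, ← Finset.smul_sum, smul_comm, smul_sub]
    simp only [e, hN]
    have h := hK 1 ζ
    simp only [pow_one] at h
    refine ((((h.sub_const ζ).norm.pow 2).const_mul (2 * d)⁻¹).eventually
      (gt_mem_nhds (a := x₀) ?_)).mono fun K h => h.le
    rw [inv_mul_lt_iff₀ (by positivity)]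
    nlinarith [mul_pos hx hd]

end Pool.Agent.Work.MP_01d39a_al.Ct
end

-- merged part: Pool.Agent.Work.MP_01d39a_al.Ct.Clo2
section
/-!
TASK CT Clo2. Section 1.1 (ii): closedness at a continuity point.
`F y θ = P_θ(Con y 1)`. The sets `{p | Con (X.prod (Sys.bern G (G × G) θ)) a (closeZ c X Z θ) p x y}` do not
depend on `θ` (definitional). With `bern_or`, `F y (θ + h - θ h)` is the probability, under
`X.P × bern θ × bern h`, of `Con` for the union configuration; so `F y` is monotone on `[0,1]` (extend by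
`θ ↦ F y (max 0 (min θ 1))` or note `bm` clamps) and has countably many discontinuities
(`Monotone.countable_not_continuousAt`); choose `θ ∈ (0, θ₀)` outside the countable union over `y`.
If closedness fails for `(y, r, ε)`, build for each `M` edge sets `E i`, `i < M`, with pairwise disjoint base
points (take `Φ` = base points used so far) and `y i` with `P(Con y (y i) ∧ ¬ Con y 1) > ε`. For fixed `(ω, σ)`
with `¬ Con y 1` and at least `M ε / 2` indices with `Con y (y i)`, `bern_none_open` shows that with probability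
`≥ 1 - (1 - h^r)^(M ε/2) ≥ 1/2` some `E i` is open in the extra sprinkle, and then `Con y 1` in the union
(`pathCon_con`, `Con.mono`). The event on the number of indices has probability `≥ ε/2` (reverse Markov).
So `F y (θ + h - θ h) ≥ F y θ + ε/4` for all small `h > 0`, contradicting continuity.
-/

open MeasureTheory ProbabilityTheory Filter Topology
open scoped BigOperators ENNReal NNReal

namespace Pool.Agent.Work.MP_01d39a_al.Ct

variable {G : Type} [Group G]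

/-- The union of the sprinkle with an extra sprinkle. -/
def Clo2_U {W V : Type} (z : (W × (V → Bool)) × (V → Bool)) : W × (V → Bool) :=
  (z.1.1, fun v => z.1.2 v || z.2 v)

theorem Clo2_mp {W V : Type} [MeasurableSpace W] (μ : Measure W) [IsProbabilityMeasure μ]
    {θ h : ℝ} (h0 : 0 ≤ θ) (h1 : θ ≤ 1) (h0' : 0 ≤ h) (h1' : h ≤ 1) :
    MeasurePreserving (Clo2_U (W := W) (V := V)) ((μ.prod (bern V θ)).prod (bern V h))
      (μ.prod (bern V (θ + h - θ * h))) :=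
  ((MeasurePreserving.id μ).prod (bern_or V h0 h1 h0' h1')).comp
    (measurePreserving_prodAssoc μ (bern V θ) (bern V h))

theorem Clo2_pow {q : ℝ} (h0 : 0 ≤ q) (h1 : q ≤ 1) {N M : ℕ} (hN : N ≤ M) :
    q / (1 + M * q) * N ≤ 1 - (1 - q) ^ N := by
  have hNM : (N : ℝ) ≤ M := by exact_mod_cast hN
  have hN0 : (0 : ℝ) ≤ N := Nat.cast_nonneg N
  have hb : 1 + (N : ℝ) * q ≤ (1 + q) ^ N := one_add_mul_le_pow (by linarith) N
  have hp : 0 ≤ (1 - q) ^ N := pow_nonneg (by linarith) N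
  have h2 : (1 - q) ^ N * (1 + N * q) ≤ 1 := by
    calc (1 - q) ^ N * (1 + N * q) ≤ (1 - q) ^ N * (1 + q) ^ N := by gcongr
      _ = (1 - q ^ 2) ^ N := by rw [← mul_pow]; congr 1; ring
      _ ≤ 1 := pow_le_one₀ (by nlinarith) (by nlinarith)
  have hd : 0 < 1 + (N : ℝ) * q := by positivity
  have hd' : 0 < 1 + (M : ℝ) * q := by positivity
  have h3 : (1 - q) ^ N ≤ 1 / (1 + N * q) := by rw [le_div_iff₀ hd]; exact h2
  have h4 : q / (1 + M * q) * N ≤ N * q / (1 + N * q) := by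
    rw [div_mul_eq_mul_div, mul_comm q]
    gcongr
  have h5 : (N : ℝ) * q / (1 + N * q) = 1 - 1 / (1 + N * q) := by field_simp; ring
  linarith

theorem Clo2_meas_open {V ι : Type} (s : Finset ι) (E : ι → Finset V) :
    MeasurableSet {σ : V → Bool | ∀ i ∈ s, ¬ ∀ e ∈ E i, σ e = true} := by
  have : {σ : V → Bool | ∀ i ∈ s, ¬ ∀ e ∈ E i, σ e = true} =
      ⋂ i ∈ s, (⋂ e ∈ E i, (fun σ : V → Bool => σ e) ⁻¹' {true})ᶜ := by
    ext σ; simp
  rw [this]
  exact Finset.measurableSet_biInter _ fun i _ =>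
    (Finset.measurableSet_biInter _ fun e _ => measurable_pi_apply e (measurableSet_singleton _)).compl

theorem Clo2_sprinkle {W V : Type} [MeasurableSpace W] (μ : Measure W) [IsProbabilityMeasure μ]
    {θ h : ℝ} (h0 : 0 ≤ θ) (h1 : θ ≤ 1) (h0' : 0 ≤ h) (h1' : h ≤ 1)
    {A : Set (W × (V → Bool))} (hA : MeasurableSet A) (hinc : ∀ p τ, p ∈ A → Clo2_U (p, τ) ∈ A)
    (M r : ℕ) (B : ℕ → Set (W × (V → Bool))) (hB : ∀ i, MeasurableSet (B i))
    (hBA : ∀ i p, p ∈ B i → p ∉ A) (E : ℕ → Finset V) (hE : ∀ i, (E i).card ≤ r)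
    (hd : ∀ i j, i ≠ j → Disjoint (E i) (E j))
    (hop : ∀ i p τ, p ∈ B i → (∀ e ∈ E i, τ e = true) → Clo2_U (p, τ) ∈ A)
    {ε : ℝ} (hε : ∀ i, ε ≤ (μ.prod (bern V θ)).real (B i)) :
    (μ.prod (bern V θ)).real A + h ^ r / (1 + M * h ^ r) * (M * ε) ≤
      (μ.prod (bern V (θ + h - θ * h))).real A := by
  classical
  set ν := μ.prod (bern V θ) with hν
  set q := h ^ r with hq
  have hq0 : 0 ≤ q := pow_nonneg h0' r
  have hq1 : q ≤ 1 := pow_le_one₀ h0' h1'
  have hc : 0 ≤ q / (1 + M * q) := by positivity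
  have hmp := Clo2_mp (V := V) μ h0 h1 h0' h1'
  have hS : MeasurableSet {z | Clo2_U z ∈ A} := hmp.measurable hA
  have e1 : (μ.prod (bern V (θ + h - θ * h))).real A = (ν.prod (bern V h)).real {z | Clo2_U z ∈ A} := by
    unfold Measure.real
    rw [← hmp.measure_preimage hA.nullMeasurableSet]
    rfl
  have hint := integrable_ind (ν.prod (bern V h)) hS
  rw [e1, ← integral_ind _ hS, integral_prod _ hint]
  have hAi : Integrable (fun p => ind (p ∈ A)) ν := integrable_ind ν hA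
  have hBi : ∀ i, Integrable (fun p => ind (p ∈ B i)) ν := fun i => integrable_ind ν (hB i)
  have hsum : Integrable (fun p => ∑ i ∈ Finset.range M, ind (p ∈ B i)) ν :=
    integrable_finsetSum _ fun i _ => hBi i
  have e2 : ∫ p, (ind (p ∈ A) + q / (1 + M * q) * ∑ i ∈ Finset.range M, ind (p ∈ B i)) ∂ν =
      ν.real A + q / (1 + M * q) * ∑ i ∈ Finset.range M, ν.real (B i) := by
    rw [integral_add hAi (hsum.const_mul _), integral_const_mul,
      integral_finsetSum _ fun i _ => hBi i]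
    congr 1
    · exact integral_ind ν hA
    · congr 1
      exact Finset.sum_congr rfl fun i _ => integral_ind ν (hB i)
  have e3 : (M : ℝ) * ε ≤ ∑ i ∈ Finset.range M, ν.real (B i) := by
    have := Finset.card_nsmul_le_sum (Finset.range M) (fun i => ν.real (B i)) ε fun i _ => hε i
    simpa using this
  calc ν.real A + q / (1 + M * q) * (M * ε)
      ≤ ν.real A + q / (1 + M * q) * ∑ i ∈ Finset.range M, ν.real (B i) := by gcongr
    _ = _ := e2.symm
    _ ≤ _ := by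
      refine integral_mono (hAi.add (hsum.const_mul _)) hint.integral_prod_left fun p => ?_
      have hsec : MeasurableSet {τ | Clo2_U (p, τ) ∈ A} := measurable_prodMk_left hS
      show ind (p ∈ A) + q / (1 + M * q) * ∑ i ∈ Finset.range M, ind (p ∈ B i) ≤
        ∫ τ, ind (Clo2_U (p, τ) ∈ A) ∂(bern V h)
      rw [integral_ind _ hsec]
      by_cases hp : p ∈ A
      · have h3 : ∀ i ∈ Finset.range M, ind (p ∈ B i) = 0 := fun i _ =>
          ind_neg fun hb => hBA i p hb hp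
        have h4 : {τ | Clo2_U (p, τ) ∈ A} = Set.univ := Set.eq_univ_of_forall fun τ => hinc p τ hp
        rw [Finset.sum_eq_zero h3, ind_pos hp, h4]
        simp
      · set s := (Finset.range M).filter fun i => p ∈ B i with hs
        have h3 : ∑ i ∈ Finset.range M, ind (p ∈ B i) = s.card := by
          rw [hs, Finset.card_filter]
          push_cast
          refine Finset.sum_congr rfl fun i _ => ?_
          by_cases hb : p ∈ B i <;> simp [ind, hb]
        have h4 : s.card ≤ M := by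
          simpa using Finset.card_le_card (Finset.filter_subset (fun i => p ∈ B i) (Finset.range M))
        have h5 := bern_none_open (V := V) h0' h1' s E fun i _ j _ hij => hd i j hij
        have h6 : ∏ i ∈ s, (1 - h ^ (E i).card) ≤ (1 - q) ^ s.card := by
          rw [← Finset.prod_const]
          refine Finset.prod_le_prod (fun i _ => ?_) fun i _ => ?_
          · linarith [pow_le_one₀ (n := (E i).card) h0' h1']
          · linarith [pow_le_pow_of_le_one h0' h1' (hE i)]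
        have h7 : (bern V h).real {σ : V → Bool | ∀ i ∈ s, ¬ ∀ e ∈ E i, σ e = true}ᶜ ≤
            (bern V h).real {τ | Clo2_U (p, τ) ∈ A} := by
          refine measureReal_mono fun τ hτ => ?_
          by_contra hn
          exact hτ fun i hi hτ => hn (hop i p τ (Finset.mem_filter.1 hi).2 hτ)
        rw [probReal_compl_eq_one_sub (Clo2_meas_open s E), h5] at h7
        rw [ind_neg hp, h3]
        linarith [Clo2_pow hq0 hq1 h4]

theorem Clo2_mono {W V : Type} [MeasurableSpace W] (μ : Measure W) [IsProbabilityMeasure μ]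
    {A : Set (W × (V → Bool))} (hA : MeasurableSet A) (hinc : ∀ p τ, p ∈ A → Clo2_U (p, τ) ∈ A) :
    MonotoneOn (fun θ => (μ.prod (bern V θ)).real A) (Set.Icc 0 1) := by
  rintro a ⟨ha0, ha1⟩ b ⟨hb0, hb1⟩ hab
  rcases eq_or_lt_of_le ha1 with rfl | ha
  · obtain rfl : b = 1 := le_antisymm hb1 hab
    exact le_rfl
  have hpos : 0 < 1 - a := by linarith
  have h := Clo2_sprinkle (V := V) μ ha0 ha1 (h := (b - a) / (1 - a))
    (div_nonneg (by linarith) hpos.le) ((div_le_one hpos).2 (by linarith)) hA hinc 0 0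
    (fun _ => ∅) (fun _ => MeasurableSet.empty) (fun _ _ h => h.elim) (fun _ => ∅) (fun _ => by simp)
    (fun _ _ _ => by simp) (fun _ _ _ h => h.elim) (ε := 0) (fun _ => measureReal_nonneg)
  have e : a + (b - a) / (1 - a) - a * ((b - a) / (1 - a)) = b := by field_simp; ring
  rw [e] at h
  simpa using h

/-- Connectedness in the closure, written without the parameter. -/
def Clo2_C (c : Ctx G) (X : Sys G) (Z : G → Set X.Ω) (x y : G) : Set (X.Ω × (G × G → Bool)) :=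
  {p | Con (X.prod (Sys.bern G (G × G) 0)) c.a (closeZ c X Z 0) p x y}

theorem Clo2_inc (c : Ctx G) (X : Sys G) (Z : G → Set X.Ω) (x y : G) (p : X.Ω × (G × G → Bool))
    (τ : G × G → Bool) (h : p ∈ Clo2_C c X Z x y) : Clo2_U (p, τ) ∈ Clo2_C c X Z x y := by
  refine Con.ind (s := fun x y => Clo2_U (p, τ) ∈ Clo2_C c X Z x y)
    (con_equiv (X.prod (Sys.bern G (G × G) 0)) _ _ _) (fun x => con_a x) (fun x g hg => ?_) h
  refine con_edge (X := X.prod (Sys.bern G (G × G) 0)) ?_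
  rcases hg with hg | ⟨hg, hg'⟩
  · exact Or.inl hg
  · refine Or.inr ⟨hg, ?_⟩
    have hg2 : p.2 (x • ((1 : G), g)) = true := hg'
    show (p.2 (x • ((1 : G), g)) || τ (x • ((1 : G), g))) = true
    rw [hg2, Bool.true_or]

theorem Clo2_edge (c : Ctx G) (X : Sys G) (Z : G → Set X.Ω) (p : X.Ω × (G × G → Bool))
    (τ : G × G → Bool) (e : G × G) (he : e.1⁻¹ * e.2 ∈ c.S) (hτ : τ e = true) :
    Clo2_U (p, τ) ∈ Clo2_C c X Z e.1 e.2 := by
  have h : Con (X.prod (Sys.bern G (G × G) 0)) c.a (closeZ c X Z 0) (Clo2_U (p, τ)) e.1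
      (e.1 * (e.1⁻¹ * e.2)) := by
    refine con_edge (X := X.prod (Sys.bern G (G × G) 0)) (Or.inr ⟨he, ?_⟩)
    show (p.2 (e.1 • ((1 : G), e.1⁻¹ * e.2)) || τ (e.1 • ((1 : G), e.1⁻¹ * e.2))) = true
    have : e.1 • ((1 : G), e.1⁻¹ * e.2) = e := by simp
    rw [this, hτ, Bool.or_true]
  rw [mul_inv_cancel_left] at h
  exact h

theorem exists_closed_theta [Countable G] (c : Ctx G) {X : Sys G} {Z : G → Set X.Ω}
    (hZ : Meas X Z) {θ₀ : ℝ} (h0 : 0 < θ₀) (h1 : θ₀ ≤ 1) :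
    ∃ θ : ℝ, 0 < θ ∧ θ < θ₀ ∧ Closed c (X.prod (Sys.bern G (G × G) θ)) (closeZ c X Z θ) := by
  classical
  have hm : ∀ x y, MeasurableSet (Clo2_C c X Z x y) := fun x y =>
    measurableSet_con (meas_closeZ c hZ 0) x y
  let F : G → ℝ → ℝ := fun y θ => (X.P.prod (bern (G × G) θ)).real (Clo2_C c X Z y 1)
  have hF : ∀ y, MonotoneOn (F y) (Set.Icc 0 1) := fun y =>
    Clo2_mono X.P (hm y 1) (Clo2_inc c X Z y 1)
  have hcount : (⋃ y, {θ ∈ Set.Icc (0 : ℝ) 1 | ¬ ContinuousWithinAt (F y) (Set.Icc 0 1) θ}).Countable :=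
    Set.countable_iUnion fun y => (hF y).countable_not_continuousWithinAt
  obtain ⟨θ, hθ, hθ0, hθ1⟩ := (hcount.dense_compl ℝ).exists_between h0
  have hθI : θ ∈ Set.Icc (0 : ℝ) 1 := ⟨hθ0.le, by linarith⟩
  refine ⟨θ, hθ0, hθ1, fun y r ε hε => ?_⟩
  have hcont : ContinuousWithinAt (F y) (Set.Icc 0 1) θ := by
    by_contra hn
    exact hθ (Set.mem_iUnion.2 ⟨y, hθI, hn⟩)
  by_contra hcl
  push Not at hcl
  choose E hEr hES y' hpath hlt using hcl
  let Φ : ℕ → Finset G := fun n => Nat.rec ∅ (fun _ T => T ∪ (E T).image Prod.fst) n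
  have hΦ : ∀ n, Φ (n + 1) = Φ n ∪ (E (Φ n)).image Prod.fst := fun n => rfl
  have hΦm : Monotone Φ := monotone_nat_of_le_succ fun n => by
    rw [hΦ]; exact Finset.subset_union_left
  have hdis : ∀ i j, i < j → Disjoint (E (Φ i)) (E (Φ j)) := by
    intro i j hij
    refine Finset.disjoint_left.2 fun e hi hj => (hES _ e hj).2 ?_
    refine hΦm (Nat.succ_le_of_lt hij) ?_
    rw [hΦ]
    exact Finset.mem_union_right _ (Finset.mem_image_of_mem _ hi)
  obtain ⟨δ, hδ, hδ'⟩ := Metric.continuousWithinAt_iff.1 hcont (ε / 2) (by positivity)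
  set h := min (δ / 2) 1 with hh
  have hh0 : 0 < h := lt_min (by positivity) one_pos
  have hh1 : h ≤ 1 := min_le_right _ _
  have hh2 : h ≤ δ / 2 := min_le_left _ _
  have hq : 0 < h ^ r := pow_pos hh0 r
  obtain ⟨M, hM⟩ := exists_nat_ge (1 / h ^ r)
  have hM' : 1 ≤ M * h ^ r := by rwa [div_le_iff₀ hq] at hM
  have key := Clo2_sprinkle X.P hθI.1 hθI.2 hh0.le hh1 (hm y 1) (Clo2_inc c X Z y 1) M r
    (fun i => Clo2_C c X Z y (y' (Φ i)) \ Clo2_C c X Z y 1)
    (fun i => (hm _ _).diff (hm _ _)) (fun i p hp => hp.2) (fun i => E (Φ i)) (fun i => hEr _)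
    (fun i j hij => by
      rcases lt_or_gt_of_ne hij with h | h
      · exact hdis i j h
      · exact (hdis j i h).symm)
    (fun i p τ hp hτ => by
      have h1 := Clo2_inc c X Z _ _ p τ hp.1
      have h2 : Clo2_U (p, τ) ∈ Clo2_C c X Z 1 (y' (Φ i)) :=
        pathCon_con (X := X.prod (Sys.bern G (G × G) 0))
          (fun e he => Clo2_edge c X Z p τ e (hES _ e he).1 (hτ e he)) (hpath _)
      exact Con.trans (X := X.prod (Sys.bern G (G × G) 0)) h1
        (Con.symm (X := X.prod (Sys.bern G (G × G) 0)) h2))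
    (ε := ε) (fun i => (hlt (Φ i)).le)
  have hmem : θ + h - θ * h ∈ Set.Icc (0 : ℝ) 1 := ⟨by nlinarith [hθI.1, hθI.2], by nlinarith [hθI.1, hθI.2]⟩
  have hdist : dist (θ + h - θ * h) θ < δ := by
    rw [Real.dist_eq, abs_lt]
    constructor <;> nlinarith [hθI.1, hθI.2]
  have h3 := hδ' hmem hdist
  rw [Real.dist_eq, abs_lt] at h3
  have h4 : ε / 2 ≤ h ^ r / (1 + M * h ^ r) * (M * ε) := by
    rw [div_mul_eq_mul_div, le_div_iff₀ (by positivity)]
    (clear * - h1 hM' hε hθ0 hθ1; nlinarith)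
  have h5 : F y θ + h ^ r / (1 + M * h ^ r) * (M * ε) ≤ F y (θ + h - θ * h) := key
  linarith [h3.2]

end Pool.Agent.Work.MP_01d39a_al.Ct
end

-- merged part: Pool.Agent.Work.MP_01d39a_al.Ct.Kop3
section
/-!
TASK CT Kop3. Positivity of the limit operator, and vectors of zero energy.
`Uop`, `Ix`, `Ak`, `Mop` preserve a.e. nonnegativity; `Pa f` is the limit of `Ak K f` and the cone of nonnegative
elements of `Lp` is closed (`Lp.coeFn_nonneg`, `OrderClosedTopology`, `ge_of_tendsto'`). `oneL ∈ Fix`,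
`oneL - Mop oneL ≥ 0`. fix_zero: `η = Top' η ∈ Fix`, so `‖η‖² = ⟪Mop η, η⟫`; by `energy_Mop` every integrand
vanishes a.e.; by `Sys.ae_mv` for a.e. `ω` and all `x`: `η (x) > 0` implies `Con x (x γ)` and `η (x γ) = η x` for
`γ ∈ S`; induction over `Subgroup.closure_induction_right` (or words in `S`) gives `η ω > 0 → ∀ g, Con 1 g`.
-/

open MeasureTheory ProbabilityTheory Filter Topology
open scoped BigOperators ENNReal NNReal RealInnerProductSpace

namespace Pool.Agent.Work.MP_01d39a_al.Ct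

variable {G : Type} [Group G]

theorem Kop3_iff {X : Sys G} {f : H2 X} : (∀ᵐ ω ∂X.P, 0 ≤ f ω) ↔ 0 ≤ f :=
  Lp.coeFn_nonneg f

theorem Kop3_le_iff {X : Sys G} {f f' : H2 X} : (∀ᵐ ω ∂X.P, f ω ≤ f' ω) ↔ f ≤ f' :=
  Lp.coeFn_le f f'

theorem Kop3_smul {X : Sys G} {r : ℝ} (hr : 0 ≤ r) {f : H2 X} (hf : 0 ≤ f) : 0 ≤ r • f := by
  rw [← Kop3_iff] at hf ⊢
  filter_upwards [hf, Lp.coeFn_smul r f] with ω h1 h2
  rw [h2]
  exact mul_nonneg hr h1

theorem Kop3_Uop {X : Sys G} (g : G) {f : H2 X} (hf : 0 ≤ f) : 0 ≤ Uop X g f := by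
  rw [← Kop3_iff] at hf ⊢
  filter_upwards [(X.mp g).quasiMeasurePreserving.ae hf, Uop_coe X g f] with ω h1 h2
  rw [h2]
  exact h1

theorem Kop3_Ix {X : Sys G} (A : Set X.Ω) (hA : MeasurableSet A) {f : H2 X} (hf : 0 ≤ f) :
    0 ≤ Ix X A hA f := by
  rw [← Kop3_iff] at hf ⊢
  filter_upwards [hf, Ix_coe X A hA f] with ω h1 h2
  rw [h2]
  exact mul_nonneg (ind_nonneg _) h1

theorem Kop3_Ix_le {X : Sys G} (A : Set X.Ω) (hA : MeasurableSet A) {f : H2 X} (hf : 0 ≤ f) :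
    Ix X A hA f ≤ f := by
  rw [← Kop3_iff] at hf
  rw [← Kop3_le_iff]
  filter_upwards [hf, Ix_coe X A hA f] with ω h1 h2
  rw [h2]
  exact mul_le_of_le_one_left h1 (ind_le_one _)

theorem Kop3_lim {X : Sys G} {f : ℕ → H2 X} {η : H2 X} (hf : ∀ n, 0 ≤ f n)
    (h : Tendsto f atTop (𝓝 η)) : 0 ≤ η :=
  ge_of_tendsto' h hf

theorem Kop3_Ak {X : Sys G} (a : G) (K : ℕ) {f : H2 X} (hf : 0 ≤ f) : 0 ≤ Ak X a K f := by
  rw [Ak_apply]
  exact Kop3_smul (by positivity) (Finset.sum_nonneg fun k _ => Kop3_Uop _ hf)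

theorem Kop3_Pa {X : Sys G} (a : G) {f : H2 X} (hf : 0 ≤ f) : 0 ≤ Pa X a f :=
  Kop3_lim (fun K => Kop3_Ak a K hf) (Ak_tendsto X a f)

theorem Kop3_one_nonneg (X : Sys G) : 0 ≤ oneL X := by
  rw [← Kop3_iff]
  filter_upwards [oneL_coe X] with ω h
  rw [h]
  exact zero_le_one

theorem Kop3_Uop_one (X : Sys G) (g : G) : Uop X g (oneL X) = oneL X := by
  refine Lp.ext ?_
  filter_upwards [Uop_coe X g (oneL X), oneL_coe X,
    (X.mp g).quasiMeasurePreserving.ae (oneL_coe X)] with ω h1 h2 h3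
  rw [h1, h2]
  exact h3

variable [Countable G] (c : Ctx G) (X : Sys G) {Z : G → Set X.Ω} (hZ : Meas X Z)

theorem Kop3_Mop_apply (f : H2 X) : Mop c X Z hZ f = (2 * c.S.card : ℝ)⁻¹ • ∑ b : Bool × c.S,
    Ix X {ω | Con X c.a Z ω 1 (lt b)} (measurableSet_con hZ 1 _) (Uop X (lt b) f) := by
  simp only [Mop, _root_.smul_apply, _root_.sum_apply,
    ContinuousLinearMap.comp_apply]

theorem Kop3_Top_apply (f : H2 X) :
    Top' c X Z hZ f = Pa X c.a (Mop c X Z hZ (Pa X c.a f)) := by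
  simp only [Top', mul_apply_eq_comp]

theorem Kop3_Mop {f : H2 X} (hf : 0 ≤ f) : 0 ≤ Mop c X Z hZ f := by
  rw [Kop3_Mop_apply]
  exact Kop3_smul (by positivity) (Finset.sum_nonneg fun b _ => Kop3_Ix _ _ (Kop3_Uop _ hf))

theorem Kop3_Mop_one : 0 ≤ oneL X - Mop c X Z hZ (oneL X) := by
  have hc : (0 : ℝ) < c.S.card := by exact_mod_cast c.ne.card_pos
  have h1 : oneL X = (2 * c.S.card : ℝ)⁻¹ • ∑ _b : Bool × c.S, oneL X := by
    rw [Finset.sum_const, Finset.card_univ, Fintype.card_prod, Fintype.card_bool,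
      Fintype.card_coe, ← Nat.cast_smul_eq_nsmul ℝ, smul_smul]
    have : (2 * c.S.card : ℝ)⁻¹ * ((2 * c.S.card : ℕ) : ℝ) = 1 := by
      push_cast
      field_simp
    rw [this, one_smul]
  rw [Kop3_Mop_apply]
  nth_rewrite 1 [h1]
  rw [← smul_sub, ← Finset.sum_sub_distrib]
  refine Kop3_smul (by positivity) (Finset.sum_nonneg fun b _ => ?_)
  rw [Kop3_Uop_one, sub_nonneg]
  exact Kop3_Ix_le _ _ (Kop3_one_nonneg X)

theorem Top_nonneg {f : H2 X} (hf : ∀ᵐ ω ∂X.P, 0 ≤ f ω) : ∀ᵐ ω ∂X.P, 0 ≤ Top' c X Z hZ f ω := by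
  rw [Kop3_iff] at hf ⊢
  rw [Kop3_Top_apply]
  exact Kop3_Pa _ (Kop3_Mop c X hZ (Kop3_Pa _ hf))

theorem Top_one_le : ∀ᵐ ω ∂X.P, Top' c X Z hZ (oneL X) ω ≤ oneL X ω := by
  have h1 : Pa X c.a (oneL X) = oneL X := Pa_of_mem X (mem_Fix.2 (Kop3_Uop_one X c.a))
  have h2 := Kop3_Pa c.a (Kop3_Mop_one c X hZ)
  rw [map_sub, h1, sub_nonneg] at h2
  rw [Kop3_le_iff, Kop3_Top_apply, h1]
  exact h2

theorem nonneg_of_tendsto {f : ℕ → H2 X} {η : H2 X} (hf : ∀ n, ∀ᵐ ω ∂X.P, 0 ≤ f n ω)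
    (h : Tendsto f atTop (𝓝 η)) : ∀ᵐ ω ∂X.P, 0 ≤ η ω :=
  Kop3_iff.2 (Kop3_lim (fun n => Kop3_iff.1 (hf n)) h)

include hZ in
theorem Kop3_integrable (f : H2 X) (γ : G) : Integrable (fun ω =>
    ind (Con X c.a Z ω 1 γ) * (f (X.mv ω γ) - f ω) ^ 2 +
      ind (¬ Con X c.a Z ω 1 γ) * (f ω ^ 2 + f (X.mv ω γ) ^ 2)) X.P := by
  have h1 : MemLp (fun ω => f ω) 2 X.P := Lp.memLp f
  have h2 : MemLp (fun ω => f (X.mv ω γ)) 2 X.P := h1.comp_measurePreserving (X.mp γ)
  have hb : ∀ p : Prop, ‖ind p‖ ≤ 1 := fun p => by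
    rw [Real.norm_eq_abs, abs_of_nonneg (ind_nonneg _)]; exact ind_le_one _
  have hm := measurableSet_con (a := c.a) hZ 1 γ
  refine Integrable.add ?_ ?_
  · exact (h2.sub h1).integrable_sq.bdd_mul (measurable_ind hm).aestronglyMeasurable
      (Eventually.of_forall fun ω => hb _)
  · exact (h1.integrable_sq.add h2.integrable_sq).bdd_mul
      (measurable_ind hm.compl).aestronglyMeasurable (Eventually.of_forall fun ω => hb _)

theorem Kop3_edge {η : H2 X} (hη : Top' c X Z hZ η = η) {γ : G} (hγ : γ ∈ c.S) :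
    ∀ᵐ ω ∂X.P, η ω ≠ 0 → Con X c.a Z ω 1 γ ∧ η (X.mv ω γ) = η ω := by
  have hc : (0 : ℝ) < c.S.card := by exact_mod_cast c.ne.card_pos
  have hmem : η ∈ Fix X c.a := by
    rw [← hη, Kop3_Top_apply]
    exact Pa_mem X _ _
  have hP : Pa X c.a η = η := Pa_of_mem X hmem
  have h1 : ‖η‖ ^ 2 - ⟪Mop c X Z hZ η, η⟫ = 0 := by
    have h2 : ⟪Top' c X Z hZ η, η⟫ = ⟪Mop c X Z hZ η, η⟫ := by
      rw [Kop3_Top_apply, Pa_symm, hP]
    rw [← h2, hη, real_inner_self_eq_norm_sq, sub_self]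
  rw [energy_Mop] at h1
  have hn : ∀ γ : G, ∀ ω, 0 ≤ ind (Con X c.a Z ω 1 γ) * (η (X.mv ω γ) - η ω) ^ 2 +
      ind (¬ Con X c.a Z ω 1 γ) * (η ω ^ 2 + η (X.mv ω γ) ^ 2) := fun γ ω =>
    add_nonneg (mul_nonneg (ind_nonneg _) (sq_nonneg _))
      (mul_nonneg (ind_nonneg _) (add_nonneg (sq_nonneg _) (sq_nonneg _)))
  have h3 := (mul_eq_zero.1 h1).resolve_left (by positivity)
  have h4 := (Finset.sum_eq_zero_iff_of_nonneg fun γ _ => integral_nonneg (hn γ)).1 h3 γ hγ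
  have h5 := (integral_eq_zero_iff_of_nonneg (hn γ) (Kop3_integrable c X hZ η γ)).1 h4
  filter_upwards [h5] with ω hω hne
  simp only [Pi.zero_apply] at hω
  by_cases hcon : Con X c.a Z ω 1 γ
  · refine ⟨hcon, ?_⟩
    rw [ind_pos hcon, ind_neg (not_not.2 hcon), one_mul, zero_mul, add_zero] at hω
    exact sub_eq_zero.1 (pow_eq_zero_iff two_ne_zero |>.1 hω)
  · exfalso
    rw [ind_neg hcon, ind_pos hcon, one_mul, zero_mul, zero_add] at hω
    have h6 : 0 < η ω ^ 2 := by positivity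
    nlinarith [sq_nonneg (η (X.mv ω γ))]

theorem fix_zero (h0 : X.P {ω | ∀ g, Con X c.a Z ω 1 g} = 0) {η : H2 X}
    (hη : Top' c X Z hZ η = η) (hpos : ∀ᵐ ω ∂X.P, 0 ≤ η ω) : η = 0 := by
  have h1 : ∀ᵐ ω ∂X.P, ∀ γ ∈ c.S, η ω ≠ 0 → Con X c.a Z ω 1 γ ∧ η (X.mv ω γ) = η ω :=
    ae_all_iff.2 fun γ => by
      by_cases hγ : γ ∈ c.S
      · filter_upwards [Kop3_edge c X hZ hη hγ] with ω hω _ using hω
      · exact Eventually.of_forall fun ω h => absurd h hγ
  have h2 : ∀ᵐ ω ∂X.P, ¬ ∀ g, Con X c.a Z ω 1 g := by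
    rw [ae_iff]
    simpa using h0
  refine Lp.ext ?_
  filter_upwards [X.ae_mv h1, h2, Lp.coeFn_zero ℝ 2 X.P, hpos] with ω hω hn hz _
  rw [hz, Pi.zero_apply]
  by_contra hne
  have hS : ∀ γ ∈ c.S, ∀ x, η (X.mv ω x) ≠ 0 →
      Con X c.a Z ω x (x * γ) ∧ η (X.mv ω (x * γ)) = η (X.mv ω x) := by
    intro γ hγ x hx
    obtain ⟨h3, h4⟩ := hω x γ hγ hx
    rw [con_mv, mul_one] at h3
    rw [X.mv_mul] at h4
    exact ⟨h3, h4⟩
  have key : ∀ g ∈ Subgroup.closure (c.S : Set G), ∀ x, η (X.mv ω x) ≠ 0 →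
      Con X c.a Z ω x (x * g) ∧ η (X.mv ω (x * g)) = η (X.mv ω x) := by
    intro g hg
    induction hg using Subgroup.closure_induction'' with
    | mem γ hγ => exact hS γ hγ
    | inv_mem γ hγ => exact hS _ (c.sym γ hγ)
    | one => intro x _; rw [mul_one]; exact ⟨Con.refl x, rfl⟩
    | mul g g' _ _ ih ih' =>
      intro x hx
      obtain ⟨h3, h4⟩ := ih x hx
      obtain ⟨h5, h6⟩ := ih' (x * g) (by rwa [h4])
      rw [← mul_assoc]
      exact ⟨h3.trans h5, h6.trans h4⟩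
  refine hn fun g => ?_
  have := (key g (by rw [c.gen]; trivial) 1 (by rwa [X.mv_one])).1
  rwa [one_mul] at this

end Pool.Agent.Work.MP_01d39a_al.Ct
end

-- merged part: Pool.Agent.Work.MP_01d39a_al.Ct.Kill
section
/-!
TASK CT Kill. Assembly of section 1.3 and zero frequency of closed partitions.
`φ 0 = 1`, `φ n` = a measurable version (`AEStronglyMeasurable.mk`) of `(Top'^n) oneL`; `∫ φ n = aa Top' oneL n`.
`diff`: `PosC.diff_le`; `energy`: `energy_Mop` for `ψ = Top'^n 1 - Top'^n' 1 ∈ Fix` (there `⟪Top' ψ, ψ⟫ = ⟪Mop ψ, ψ⟫`),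
`PosC.energy_le`, each summand is nonnegative; `walk`: `inner_TK_pow` with `f' = oneL` and `TK_tendsto`;
`lim`: `PosC.exists_lim`, `nonneg_of_tendsto`, `fix_zero`.
zf_of_closed: `tau (g⁻¹ pw w) = P(Con g (pw w)) ≤ P(Stay) + P(Con g (pw w) ∧ ¬ Stay)`; `walk` with `n = 0`, `noret`.
-/

open MeasureTheory ProbabilityTheory Filter Topology
open scoped BigOperators ENNReal NNReal RealInnerProductSpace

namespace Pool.Agent.Work.MP_01d39a_al.Ct

variable {G : Type} [Group G]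

theorem Kill_mv (X : Sys G) {f f' : X.Ω → ℝ} (h : f =ᵐ[X.P] f') (g : G) :
    ∀ᵐ ω ∂X.P, f (X.mv ω g) = f' (X.mv ω g) :=
  (X.mp g).quasiMeasurePreserving.ae h

section
variable [Countable G] (c : Ctx G) (X : Sys G) {Z : G → Set X.Ω} (hZ : Meas X Z)

theorem Kill_pow_nonneg {f : H2 X} (hf : ∀ᵐ ω ∂X.P, 0 ≤ f ω) (n : ℕ) :
    ∀ᵐ ω ∂X.P, 0 ≤ (Top' c X Z hZ ^ n) f ω := by
  induction n with
  | zero => exact hf
  | succ n ih =>
    rw [pow_succ', mul_apply_eq_comp]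
    exact Top_nonneg c X hZ ih

theorem Kill_fix (n : ℕ) : (Top' c X Z hZ ^ n) (oneL X) ∈ Fix X c.a := by
  cases n with
  | zero =>
    rw [pow_zero, one_apply_eq_self, mem_Fix_iff_ae]
    filter_upwards [oneL_coe X, Kill_mv X (oneL_coe X) c.a] with ω h1 h2
    rw [h1, h2]
  | succ n =>
    rw [pow_succ', mul_apply_eq_comp, Top', mul_apply_eq_comp,
      mul_apply_eq_comp]
    exact Pa_mem X _ _

theorem Kill_inner {f : H2 X} (hf : f ∈ Fix X c.a) :
    ⟪Top' c X Z hZ f, f⟫ = ⟪Mop c X Z hZ f, f⟫ := by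
  rw [Top', mul_apply_eq_comp, mul_apply_eq_comp, Pa_symm, Pa_of_mem X hf]

end

theorem exists_killPack [Countable G] (c : Ctx G) (X : Sys G) {Z : G → Set X.Ω} (hZ : Meas X Z) :
    ∃ φ : ℕ → X.Ω → ℝ, KillPack c X Z φ := by
  obtain ⟨φ, hm, h0, hφ⟩ : ∃ φ : ℕ → X.Ω → ℝ, (∀ n, Measurable (φ n)) ∧ (∀ ω, φ 0 ω = 1) ∧
      ∀ n, (Top' c X Z hZ ^ n) (oneL X) =ᵐ[X.P] φ n := by
    refine ⟨fun n => n.casesOn (fun _ => 1) fun m =>
      (Lp.aestronglyMeasurable ((Top' c X Z hZ ^ (m + 1)) (oneL X))).mk _, fun n => ?_,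
      fun _ => rfl, fun n => ?_⟩
    · cases n with
      | zero => exact measurable_const
      | succ m => exact (Lp.aestronglyMeasurable _).stronglyMeasurable_mk.measurable
    · cases n with
      | zero => exact oneL_coe X
      | succ m => exact (Lp.aestronglyMeasurable _).ae_eq_mk
  have hT := posC_Top c X hZ
  have hpos : ∀ᵐ ω ∂X.P, 0 ≤ oneL X ω := by
    filter_upwards [oneL_coe X] with ω h
    rw [h]
    exact zero_le_one
  have hint (n : ℕ) : ∫ ω, φ n ω ∂X.P = aa (Top' c X Z hZ) (oneL X) n := by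
    rw [aa, inner_H2]
    refine integral_congr_ae ?_
    filter_upwards [hφ n, oneL_coe X] with ω h1 h2
    rw [h1, h2, mul_one]
  refine ⟨φ, hm, h0, fun n => ?_, fun n => ?_, fun n => ?_, fun n n' t h ht => ?_,
    fun n n' h γ hγ => ?_, fun n t => ?_, fun h => ?_⟩
  · filter_upwards [hφ n, Kill_pow_nonneg c X hZ hpos n] with ω h1 h2
    rwa [← h1]
  · have h1 : ∀ᵐ ω ∂X.P, 0 ≤ (oneL X - Top' c X Z hZ (oneL X)) ω := by
      filter_upwards [Lp.coeFn_sub (oneL X) (Top' c X Z hZ (oneL X)), Top_one_le c X hZ]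
        with ω h1 h2
      rw [h1, Pi.sub_apply]
      exact sub_nonneg.2 h2
    have h2 := Kill_pow_nonneg c X hZ h1 n
    rw [map_sub, ← mul_apply_eq_comp, ← pow_succ] at h2
    filter_upwards [h2, hφ n, hφ (n + 1), Lp.coeFn_sub ((Top' c X Z hZ ^ n) (oneL X))
      ((Top' c X Z hZ ^ (n + 1)) (oneL X))] with ω h1 h2 h3 h4
    rwa [h4, Pi.sub_apply, h2, h3, sub_nonneg] at h1
  · filter_upwards [hφ n, Kill_mv X (hφ n) c.a, (mem_Fix_iff_ae X _ _).1 (Kill_fix c X hZ n)]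
      with ω h1 h2 h3
    rw [← h1, ← h2, h3]
  · simpa [hint, norm_oneL] using hT.diff_le (oneL X) h ht
  · have h1 := hT.energy_le (oneL X) h
    have h2 : (↑((Top' c X Z hZ ^ n) (oneL X) - (Top' c X Z hZ ^ n') (oneL X)) : X.Ω → ℝ) =ᵐ[X.P]
        fun ω => φ n ω - φ n' ω := by
      filter_upwards [hφ n, hφ n', Lp.coeFn_sub ((Top' c X Z hZ ^ n) (oneL X))
        ((Top' c X Z hZ ^ n') (oneL X))] with ω h1 h2 h3
      rw [h3, Pi.sub_apply, h1, h2]
    rw [Kill_inner c X hZ (sub_mem (Kill_fix c X hZ n) (Kill_fix c X hZ n')), energy_Mop,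
      norm_oneL] at h1
    generalize (Top' c X Z hZ ^ n) (oneL X) - (Top' c X Z hZ ^ n') (oneL X) = ψ at h1 h2
    have h3 := Finset.single_le_sum (f := fun γ => ∫ ω, (ind (Con X c.a Z ω 1 γ) *
      (ψ (X.mv ω γ) - ψ ω) ^ 2 + ind (¬ Con X c.a Z ω 1 γ) * (ψ ω ^ 2 + ψ (X.mv ω γ) ^ 2)) ∂X.P)
      (fun γ _ => integral_nonneg fun ω => add_nonneg (mul_nonneg (ind_nonneg _) (sq_nonneg _))
        (mul_nonneg (ind_nonneg _) (by positivity))) hγ
    have h4 : (0 : ℝ) < c.S.card := Nat.cast_pos.2 c.ne.card_pos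
    rw [inv_mul_le_iff₀ (by positivity)] at h1
    refine le_trans (le_of_eq (integral_congr_ae ?_)) (h3.trans (h1.trans (le_of_eq (by ring))))
    filter_upwards [h2, Kill_mv X h2 γ] with ω h1 h2
    rw [h1, h2]
  · have h1 := (TK_tendsto c X hZ t ((Top' c X Z hZ ^ n) (oneL X))).inner
      (𝕜 := ℝ) (tendsto_const_nhds (x := oneL X))
    rw [← mul_apply_eq_comp, ← pow_add, add_comm] at h1
    rw [hint]
    refine h1.congr fun K => ?_
    rw [inner_TK_pow]
    refine avgW_congr fun w _ => integral_congr_ae ?_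
    filter_upwards [Kill_mv X (hφ n) (pw (c.gs K) w), oneL_coe X] with ω h1 h2
    rw [h1, h2, mul_one]
  · obtain ⟨η, h1, h2⟩ := hT.exists_lim (oneL X)
    obtain rfl := fix_zero c X hZ h h1 (nonneg_of_tendsto X (Kill_pow_nonneg c X hZ hpos) h2)
    simpa [hint, aa] using h2.inner (𝕜 := ℝ) (tendsto_const_nhds (x := oneL X))

theorem zf_of_closed [Countable G] {c : Ctx G} {X : Sys G} {Z : G → Set X.Ω} (hZ : Meas X Z)
    (hc : Closed c X Z) (h0 : X.P {ω | ∀ g, Con X c.a Z ω 1 g} = 0) : ZF c (tau X c.a Z) := by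
  intro ε hε
  obtain ⟨φ, h⟩ := exists_killPack c X hZ
  obtain ⟨n, hn⟩ := ((h.lim h0).eventually (gt_mem_nhds (half_pos hε))).exists
  have h1 := h.walk 0 n
  rw [zero_add] at h1
  refine ⟨n, ?_⟩
  filter_upwards [h1.eventually (gt_mem_nhds hn),
    noret hZ hc (ε := ε / 2 / (n + 1)) (by positivity)] with K h2 h3 g
  have h4 : n * (ε / 2 / (n + 1)) ≤ ε / 2 := by
    rw [mul_div_left_comm]
    exact mul_le_of_le_one_right (half_pos hε).le
      ((div_le_one (by positivity)).2 (by linarith))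
  refine le_trans ?_ ((add_le_add h2.le ((h3 n g).trans h4)).trans (add_halves ε).le)
  rw [Sys.ann, ← avgW_add]
  refine avgW_mono fun w _ => ?_
  simp only [h.zero, mul_one]
  rw [integral_ind _ (measurableSet_stay hZ _ w), ← real_con]
  refine (measureReal_mono fun ω hω => ?_).trans (measureReal_union_le _ _)
  by_cases hs : Stay X c.a Z (c.gs K) ω w
  · exact Or.inl hs
  · exact Or.inr ⟨hω, hs⟩

end Pool.Agent.Work.MP_01d39a_al.Ct
end

-- merged part: Pool.Agent.Work.MP_01d39a_al.Ct.Coin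
section
/-!
TASK CT Coin. Independent coins on the classes (section 1.4).
Fix an injection `enc : G → ℕ`; `rep ω x` = the element of the class of `x` with least `enc` (measurable in `ω`,
countable range: `measurable_to_countable`). `Φ (ω, σ) = (ω, σ ∘ rep ω)`, `Y.Ω = X.Ω × (G → Bool)`,
`Y.P = map Φ (X.P.prod (bern G p))`, diagonal action `(mv ω x, fun y => σ (x * y))`.
Key lemma: if `r₁ x = r₁ y ↔ r₂ x = r₂ y` then `map (· ∘ r₁) (bern G p) = map (· ∘ r₂) (bern G p)`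
(both factor through the quotient by the kernel; `Measure.map_infinitePi_infinitePi_of_inj`).
Invariance: `Measure.prod_apply`, key lemma with `con_mv`, and `X.mp`.
To make `const` hold everywhere take `cn (ω, σ) = σ 1` if `σ` is constant on the class of `1`, else `false`;
this equals `σ 1` almost surely.
-/

open MeasureTheory ProbabilityTheory Filter Topology
open scoped BigOperators ENNReal NNReal

namespace Pool.Agent.Work.MP_01d39a_al.Ct

variable {G : Type} [Group G]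

theorem Coin_key {V W : Type} (p : ℝ) (r₁ r₂ : V → W) (h : ∀ x y, r₁ x = r₁ y ↔ r₂ x = r₂ y) :
    (bern W p).map (fun σ x => σ (r₁ x)) = (bern W p).map (fun σ x => σ (r₂ x)) := by
  have key : ∀ r : V → W, (∀ x y, r₁ x = r₁ y ↔ r x = r y) →
      (bern W p).map (fun σ x => σ (r x)) =
        (bern (Quotient (Setoid.ker r₁)) p).map (fun σ x => σ (Quotient.mk _ x)) := by
    intro r hr
    let i : Quotient (Setoid.ker r₁) → W := Quotient.lift r fun x y hxy => (hr x y).1 hxy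
    have hi : Function.Injective i := by
      intro u v
      induction u using Quotient.inductionOn
      induction v using Quotient.inductionOn
      intro huv
      exact Quotient.sound ((hr _ _).2 huv)
    have e : (bern W p).map (fun σ u => σ (i u)) = bern (Quotient (Setoid.ker r₁)) p :=
      Measure.map_infinitePi_infinitePi_of_inj (P := fun _ : W => bm p) hi
    rw [← e, Measure.map_map (by fun_prop) (by fun_prop)]
    rfl
  rw [key r₁ fun _ _ => Iff.rfl, key r₂ h]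

theorem Coin_rep [Countable G] (X : Sys G) (a : G) (Z : G → Set X.Ω) (hZ : Meas X Z) :
    ∃ rep : X.Ω → G → ℕ, (∀ x, Measurable fun ω => rep ω x) ∧
      ∀ ω x y, rep ω x = rep ω y ↔ Con X a Z ω x y := by
  classical
  obtain ⟨e, he⟩ := exists_surjective_nat G
  have hex : ∀ x ω, ∃ n, Con X a Z ω x (e n) := fun x ω => by
    obtain ⟨n, rfl⟩ := he x
    exact ⟨n, Con.refl _⟩
  refine ⟨fun ω x => Nat.find (hex x ω), fun x =>
    measurable_find (hex x) fun n => measurableSet_con hZ x (e n), fun ω x y => ⟨fun h => ?_, fun h => ?_⟩⟩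
  · have h1 := Nat.find_spec (hex x ω)
    have h2 := Nat.find_spec (hex y ω)
    rw [show Nat.find (hex x ω) = Nat.find (hex y ω) from h] at h1
    exact h1.trans h2.symm
  · exact le_antisymm (Nat.find_min' _ (h.trans (Nat.find_spec (hex y ω))))
      (Nat.find_min' _ (h.symm.trans (Nat.find_spec (hex x ω))))

theorem Coin_meas {Ω : Type} [MeasurableSpace Ω] {f : Ω → ℕ} (hf : Measurable f) :
    Measurable fun q : Ω × (ℕ → Bool) => q.2 (f q.1) := by
  have h : Measurable fun r : (ℕ → Bool) × ℕ => r.1 r.2 :=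
    measurable_from_prod_countable_left fun n => measurable_pi_apply n
  exact h.comp (measurable_snd.prodMk (hf.comp measurable_fst))

theorem Coin_prod {Ω W : Type} [MeasurableSpace Ω] [MeasurableSpace W] (P : Measure Ω)
    (ν : Measure W) [SFinite ν] {s : Set (Ω × W)} (hs : MeasurableSet s) {A : Set Ω}
    (hA : MeasurableSet A) (c : ℝ≥0∞) (h1 : ∀ ω ∈ A, ν (Prod.mk ω ⁻¹' s) = c)
    (h2 : ∀ q ∈ s, q.1 ∈ A) : (P.prod ν).real s = P.real A * c.toReal := by
  have : (fun ω => ν (Prod.mk ω ⁻¹' s)) = A.indicator fun _ => c := by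
    funext ω
    by_cases hω : ω ∈ A
    · rw [Set.indicator_of_mem hω, h1 ω hω]
    · rw [Set.indicator_of_notMem hω]
      have : Prod.mk ω ⁻¹' s = ∅ := Set.eq_empty_of_forall_notMem fun σ hσ => hω (h2 _ hσ)
      rw [this, measure_empty]
  rw [Measure.real, Measure.prod_apply hs, this, lintegral_indicator_const hA, ENNReal.toReal_mul,
    mul_comm]
  rfl

theorem Coin_one (p : ℝ) (n : ℕ) (b : Bool) : bern ℕ p {σ | σ n = b} = bm p {b} := by
  have := Measure.infinitePi_map_eval (fun _ : ℕ => bm p) n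
  rw [← this, Measure.map_apply (measurable_pi_apply n) (measurableSet_singleton b)]
  rfl

theorem Coin_two (p : ℝ) {n m : ℕ} (h : n ≠ m) (b b' : Bool) :
    bern ℕ p {σ | σ n = b ∧ σ m = b'} = bm p {b} * bm p {b'} := by
  have hi : IndepFun (fun σ : ℕ → Bool => σ n) (fun σ => σ m) (bern ℕ p) :=
    (iIndepFun_infinitePi (P := fun _ : ℕ => bm p) (X := fun _ ω => ω) (by fun_prop)).indepFun h
  have := hi.measure_inter_preimage_eq_mul {b} {b'} (measurableSet_singleton b)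
    (measurableSet_singleton b')
  rw [← Coin_one p n b, ← Coin_one p m b']
  exact this

theorem Coin_bm {p : ℝ} (h0 : 0 ≤ p) (h1 : p ≤ 1) (b : Bool) :
    (bm p {b}).toReal = if b then p else 1 - p := by
  cases b
  · exact bm_false h0 h1
  · exact bm_true h0 h1

theorem exists_coin [Countable G] (X : Sys G) (a : G) (Z : G → Set X.Ω) (hZ : Meas X Z) {p : ℝ}
    (h0 : 0 ≤ p) (h1 : p ≤ 1) :
    ∃ (Y : Sys G) (π : Y.Ω → X.Ω) (cn : Y.Ω → Bool), CoinPack X Y a Z π cn p := by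
  obtain ⟨rep, hm, hrep⟩ := Coin_rep X a Z hZ
  let T : Type := {q : X.Ω × (G → Bool) // ∀ x y, Con X a Z q.1 x y → q.2 x = q.2 y}
  let Φ : X.Ω × (ℕ → Bool) → T := fun q =>
    ⟨(q.1, fun x => q.2 (rep q.1 x)), fun x y h => congrArg q.2 ((hrep _ _ _).2 h)⟩
  have hΦ : Measurable Φ :=
    (measurable_fst.prodMk (measurable_pi_lambda _ fun x => Coin_meas (hm x))).subtype_mk
  let mv : T → G → T := fun q x =>
    ⟨(X.mv q.1.1 x, fun y => q.1.2 (x * y)), fun y y' h => q.2 _ _ ((con_mv x y y').1 h)⟩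
  have hπ : Measurable fun q : T => q.1.1 := measurable_fst.comp measurable_subtype_coe
  have hc : ∀ x, Measurable fun q : T => q.1.2 x := fun x =>
    (measurable_pi_apply x).comp (measurable_snd.comp measurable_subtype_coe)
  have hmv : ∀ x, Measurable fun q => mv q x := fun x =>
    (((X.meas_mv x).comp hπ).prodMk (measurable_pi_lambda _ fun y => hc (x * y))).subtype_mk
  have : IsProbabilityMeasure ((X.P.prod (bern ℕ p)).map Φ) :=
    Measure.isProbabilityMeasure_map hΦ.aemeasurable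
  have hmp : ∀ x, MeasurePreserving (fun q => mv q x) ((X.P.prod (bern ℕ p)).map Φ)
      ((X.P.prod (bern ℕ p)).map Φ) := by
    intro x
    refine ⟨hmv x, Measure.ext fun s hs => ?_⟩
    rw [Measure.map_apply (hmv x) hs, Measure.map_apply hΦ (hmv x hs), Measure.map_apply hΦ hs,
      Measure.prod_apply (hΦ (hmv x hs)), Measure.prod_apply (hΦ hs),
      ← (X.mp x).lintegral_comp (measurable_measure_prodMk_left (hΦ hs))]
    refine lintegral_congr fun ω => ?_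
    obtain ⟨s', hs', rfl⟩ := hs
    have hk := Coin_key p (fun y => rep ω (x * y)) (rep (X.mv ω x)) fun y y' => by
      rw [hrep, hrep, con_mv]
    have := congrArg (fun ν : Measure (G → Bool) => ν (Prod.mk (X.mv ω x) ⁻¹' s')) hk
    rw [Measure.map_apply (by fun_prop) (measurable_prodMk_left hs'),
      Measure.map_apply (by fun_prop) (measurable_prodMk_left hs')] at this
    exact this
  refine ⟨⟨T, (X.P.prod (bern ℕ p)).map Φ, mv, fun q => ?_, fun q x y => ?_, hmp⟩,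
    fun q => q.1.1, fun q => q.1.2 1, ⟨⟨hπ, ?_⟩, fun _ _ => rfl⟩, hc 1, fun q x h => ?_,
    fun A hA b => ?_, fun A hA x b b' => ?_⟩
  · exact Subtype.ext (Prod.ext (X.mv_one _) (funext fun y => congrArg q.1.2 (one_mul y)))
  · exact Subtype.ext (Prod.ext (X.mv_mul _ _ _)
      (funext fun z => congrArg q.1.2 (mul_assoc x y z).symm))
  · change ((X.P.prod (bern ℕ p)).map Φ).map (fun q : T => q.1.1) = X.P
    rw [Measure.map_map hπ hΦ]
    exact measurePreserving_fst.map_eq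
  · change q.1.2 (x * 1) = q.1.2 1
    rw [mul_one]
    exact (q.2 _ _ h).symm
  · have hs : MeasurableSet {q : T | q.1.1 ∈ A ∧ q.1.2 1 = b} :=
      (hπ hA).inter (hc 1 (measurableSet_singleton b))
    change ((X.P.prod (bern ℕ p)).map Φ).real {q : T | q.1.1 ∈ A ∧ q.1.2 1 = b} = _
    rw [map_measureReal_apply hΦ hs, Coin_prod X.P (bern ℕ p) (hΦ hs) hA (bm p {b}) ?_
      fun q hq => hq.1, Coin_bm h0 h1]
    intro ω hω
    rw [← Coin_one p (rep ω 1) b]
    congr 1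
    ext σ
    exact and_iff_right hω
  · have hB : MeasurableSet {ω | ω ∈ A ∧ ¬ Con X a Z ω 1 x} :=
      hA.inter (measurableSet_con hZ 1 x).compl
    have hs : MeasurableSet
        {q : T | q.1.1 ∈ A ∧ ¬ Con X a Z q.1.1 1 x ∧ q.1.2 1 = b ∧ q.1.2 (x * 1) = b'} :=
      (hπ hA).inter ((hπ (measurableSet_con hZ 1 x).compl).inter
        ((hc 1 (measurableSet_singleton b)).inter (hc (x * 1) (measurableSet_singleton b'))))
    change ((X.P.prod (bern ℕ p)).map Φ).real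
      {q : T | q.1.1 ∈ A ∧ ¬ Con X a Z q.1.1 1 x ∧ q.1.2 1 = b ∧ q.1.2 (x * 1) = b'} = _
    rw [map_measureReal_apply hΦ hs, Coin_prod X.P (bern ℕ p) (hΦ hs) hB (bm p {b} * bm p {b'}) ?_
      fun q hq => ⟨hq.1, hq.2.1⟩, ENNReal.toReal_mul, Coin_bm h0 h1, Coin_bm h0 h1, mul_assoc]
    intro ω hω
    have hne : rep ω 1 ≠ rep ω (x * 1) := by
      rw [mul_one, Ne, hrep]
      exact hω.2
    rw [← Coin_two p hne b b']
    congr 1
    ext σ
    exact (and_iff_right hω.1).trans (and_iff_right hω.2)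

end Pool.Agent.Work.MP_01d39a_al.Ct
end

-- merged part: Pool.Agent.Work.MP_01d39a_al.Ct.HP
section
/-!
TASK CT HP. The Hutchcroft-Pete recursion (section 1.5).
close_step: choose `θ₀ ≤ 1` with `|S|(p + θ₀) < δ`, then `exists_closed_theta`, `not_conn`.
rec_step: `exists_coin`; `Z' g = π⁻¹(Z g) ∪ Sel g`, `Sel g = {g ∈ S ∧ cn ω ∧ cn (mv ω g)}`. Pointwise:
`Con Z' ω x y → Con Z (π ω) x y ∨ (cn x ∧ cn y ∧ Con Sel ω x y)` (the right side is an equivalence relation that contains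
the edges; inside a selected class every `Z`-edge is a `Sel`-edge, use `Supp` and `CoinPack.const`).
So `tau Z' ≤ tau Z + tau Sel ≤ tau Z + tau (closeZ Sel θ)`; `mc_coin`, `close_step`, `zf_of_closed`, `ZF.add`, `ZF.mono`,
`Fac.tau`. `1 - tau Z' γ ≤ P(¬ Con Z 1 γ) - P(¬ Con Z 1 γ ∧ cn ∧ cn γ) = (1 - p²)(1 - tau Z γ)`.
star1: start from any system with the empty family (`mc_empty`), iterate with `p = min (δ/(4|S|)) 1`.
star2: from star1 with `r = p/(2(j+1))`, take the closure of `Sel`; `Stay` holds if `cn ω` and no step leaves the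
`Z`-class; each step leaves with probability `≤ r` (`real_con`, `con_zpow`; lazy letters never).
-/

open MeasureTheory ProbabilityTheory Filter Topology
open scoped BigOperators ENNReal NNReal

namespace Pool.Agent.Work.MP_01d39a_al.Ct

variable {G : Type} [Group G]

theorem close_step [Countable G] {c : Ctx G} {δ : ℝ} (H : Hyp c δ) {X : Sys G} {Z : G → Set X.Ω}
    (hZ : Meas X Z) (hs : Supp X c.S Z) {A : Set X.Ω} (hA : MeasurableSet A) (hsub : ∀ g, Z g ⊆ A)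
    {p : ℝ} (hp : 0 ≤ p) (hMC : MC X A p) (hδ : c.S.card * p < δ) :
    ∃ θ : ℝ, Closed c (X.prod (Sys.bern G (G × G) θ)) (closeZ c X Z θ) ∧
      (X.prod (Sys.bern G (G × G) θ)).P
        {ω | ∀ g, Con (X.prod (Sys.bern G (G × G) θ)) c.a (closeZ c X Z θ) ω 1 g} = 0 := by
  have hS : (0 : ℝ) < c.S.card := by exact_mod_cast c.ne.card_pos
  obtain ⟨θ, h0, h1, hc⟩ := exists_closed_theta c hZ (θ₀ := min 1 ((δ - c.S.card * p) / c.S.card))
    (lt_min one_pos (div_pos (by linarith) hS)) (min_le_left _ _)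
  rw [lt_min_iff, lt_div_iff₀ hS] at h1
  exact ⟨θ, hc, not_conn H hZ hs hA hsub hp hMC h0.le h1.1.le (by linarith [h1.2])⟩

theorem HP_con_close (c : Ctx G) {X : Sys G} {Z : G → Set X.Ω} (θ : ℝ)
    (q : (X.prod (Sys.bern G (G × G) θ)).Ω) {x y : G} (h : Con X c.a Z q.1 x y) :
    Con (X.prod (Sys.bern G (G × G) θ)) c.a (closeZ c X Z θ) q x y :=
  ((con_pull (fac_fst X (Sys.bern G (G × G) θ)).eqv q x y).2 h).mono fun _ _ hg => Or.inl hg

theorem HP_zf [Countable G] {c : Ctx G} {δ : ℝ} (H : Hyp c δ) {X : Sys G} {Z : G → Set X.Ω}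
    (hZ : Meas X Z) (hs : Supp X c.S Z) {A : Set X.Ω} (hA : MeasurableSet A) (hsub : ∀ g, Z g ⊆ A)
    {p : ℝ} (hp : 0 ≤ p) (hMC : MC X A p) (hδ : c.S.card * p < δ) : ZF c (tau X c.a Z) := by
  obtain ⟨θ, hc, h0⟩ := close_step H hZ hs hA hsub hp hMC hδ
  refine (zf_of_closed (meas_closeZ c hZ θ) hc h0).mono fun g => ?_
  unfold tau
  rw [← (fac_fst X (Sys.bern G (G × G) θ)).real (measurableSet_con hZ 1 g)]
  exact measureReal_mono fun q hq => HP_con_close c θ q hq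

/-- The `S`-edges with both ends selected. -/
def HP_Sel (c : Ctx G) (Y : Sys G) (cn : Y.Ω → Bool) : G → Set Y.Ω :=
  fun g => {ω | g ∈ c.S ∧ cn ω = true ∧ cn (Y.mv ω g) = true}

theorem HP_meas (c : Ctx G) {Y : Sys G} {cn : Y.Ω → Bool} (h : Measurable cn) :
    Meas Y (HP_Sel c Y cn) := fun g =>
  (MeasurableSet.const _).inter ((h (measurableSet_singleton true)).inter
    ((h.comp (Y.meas_mv g)) (measurableSet_singleton true)))

theorem HP_supp (c : Ctx G) (Y : Sys G) (cn : Y.Ω → Bool) : Supp Y c.S (HP_Sel c Y cn) :=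
  fun _ hg => Set.eq_empty_of_forall_notMem fun _ h => hg h.1

theorem HP_not [Countable G] {X : Sys G} {a : G} {Z : G → Set X.Ω} (hZ : Meas X Z) (x y : G) :
    X.P.real {ω | ¬ Con X a Z ω x y} = 1 - tau X a Z (x⁻¹ * y) := by
  rw [← real_con, ← probReal_compl_eq_one_sub (measurableSet_con hZ x y)]
  rfl

section coin

variable {c : Ctx G} {X Y : Sys G} {Z : G → Set X.Ω} {π : Y.Ω → X.Ω} {cn : Y.Ω → Bool} {p : ℝ}

theorem HP_cn (h : CoinPack X Y c.a Z π cn p) {ω : Y.Ω} {x y : G}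
    (hc : Con X c.a Z (π ω) x y) : cn (Y.mv ω x) = cn (Y.mv ω y) := by
  have := h.const (Y.mv ω x) (x⁻¹ * y) (by rw [h.fac.eqv, con_mv]; simpa using hc)
  rw [← this, Y.mv_mul, mul_inv_cancel_left]

theorem HP_lift (h : CoinPack X Y c.a Z π cn p) (hs : Supp X c.S Z) {ω : Y.Ω} {x y : G}
    (hc : Con X c.a Z (π ω) x y) (hx : cn (Y.mv ω x) = true) :
    Con Y c.a (HP_Sel c Y cn) ω x y := by
  refine (hc.ind (s := fun x y => Con X c.a Z (π ω) x y ∧
    (cn (Y.mv ω x) = true → Con Y c.a (HP_Sel c Y cn) ω x y))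
    ⟨fun x => ⟨Con.refl x, fun _ => Con.refl x⟩,
      fun h1 => ⟨h1.1.symm, fun h2 => (h1.2 ((HP_cn h h1.1).trans h2)).symm⟩,
      fun h1 h2 => ⟨h1.1.trans h2.1,
        fun h3 => (h1.2 h3).trans (h2.2 ((HP_cn h h1.1).symm.trans h3))⟩⟩
    (fun x => ⟨con_a x, fun _ => con_a x⟩) fun x g hg => ⟨con_edge hg, fun h3 => ?_⟩).2 hx
  have hg' : g ∈ c.S := by
    by_contra hn
    rw [hs g hn] at hg
    exact hg
  refine con_edge ⟨hg', h3, ?_⟩
  rw [Y.mv_mul, ← HP_cn h (con_edge hg), h3]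

theorem HP_split (h : CoinPack X Y c.a Z π cn p) (hs : Supp X c.S Z) {ω : Y.Ω} {x y : G}
    (hc : Con Y c.a (fun g => π ⁻¹' Z g ∪ HP_Sel c Y cn g) ω x y) :
    Con X c.a Z (π ω) x y ∨ Con Y c.a (HP_Sel c Y cn) ω x y := by
  refine (hc.ind (s := fun x y => Con X c.a Z (π ω) x y ∨
    (cn (Y.mv ω x) = true ∧ cn (Y.mv ω y) = true ∧ Con Y c.a (HP_Sel c Y cn) ω x y))
    ⟨fun x => Or.inl (Con.refl x), ?_, ?_⟩ (fun x => Or.inl (con_a x)) ?_).imp_right
      fun h => h.2.2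
  · rintro x y (h1 | h1)
    · exact Or.inl h1.symm
    · exact Or.inr ⟨h1.2.1, h1.1, h1.2.2.symm⟩
  · rintro x y z (h1 | h1) (h2 | h2)
    · exact Or.inl (h1.trans h2)
    · have h3 := (HP_cn h h1).trans h2.1
      exact Or.inr ⟨h3, h2.2.1, (HP_lift h hs h1 h3).trans h2.2.2⟩
    · exact Or.inr ⟨h1.1, (HP_cn h h2).symm.trans h1.2.1,
        h1.2.2.trans (HP_lift h hs h2 h1.2.1)⟩
    · exact Or.inr ⟨h1.1, h2.2.1, h1.2.2.trans h2.2.2⟩
  · rintro x g (hg | hg)
    · rw [Set.mem_preimage, h.fac.eqv] at hg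
      exact Or.inl (con_edge hg)
    · exact Or.inr ⟨hg.2.1, by rw [← Y.mv_mul]; exact hg.2.2, con_edge hg⟩

theorem HP_upper [Countable G] (h : CoinPack X Y c.a Z π cn p) (hZ : Meas X Z)
    (hs : Supp X c.S Z) (g : G) : tau Y c.a (fun g => π ⁻¹' Z g ∪ HP_Sel c Y cn g) g ≤
      tau X c.a Z g + tau Y c.a (HP_Sel c Y cn) g := by
  unfold tau
  rw [← h.fac.real (measurableSet_con hZ 1 g)]
  exact (measureReal_mono fun ω hω => HP_split h hs hω).trans (measureReal_union_le _ _)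

theorem HP_lower [Countable G] (h : CoinPack X Y c.a Z π cn p) (hZ : Meas X Z) {γ : G}
    (hγ : γ ∈ c.S) : tau X c.a Z γ + (1 - tau X c.a Z γ) * p * p ≤
      tau Y c.a (fun g => π ⁻¹' Z g ∪ HP_Sel c Y cn g) γ := by
  have h1 := h.two Set.univ MeasurableSet.univ γ true true
  have h2 := HP_not (a := c.a) hZ 1 γ
  simp only [Set.mem_univ, true_and, if_true] at h1
  rw [inv_one, one_mul] at h2
  rw [← h2, ← h1]
  unfold tau
  rw [← h.fac.real (measurableSet_con hZ 1 γ), ← measureReal_union' (Set.disjoint_left.2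
    fun ω h3 h4 => h4.1 h3) (h.fac.mp.measurable (measurableSet_con hZ 1 γ))]
  refine measureReal_mono ?_
  rintro ω (h3 | h3)
  · exact ((con_pull h.fac.eqv ω 1 γ).2 h3).mono fun _ _ hg => Or.inl hg
  · have h4 : Y.mv ω 1 ∈ π ⁻¹' Z γ ∪ HP_Sel c Y cn γ := by
      rw [Y.mv_one]
      exact Or.inr ⟨hγ, h3.2⟩
    simpa using con_edge (a := c.a) (Z := fun g => π ⁻¹' Z g ∪ HP_Sel c Y cn g) h4

end coin

theorem rec_step [Countable G] {c : Ctx G} {δ : ℝ} (H : Hyp c δ) {X : Sys G} {Z : G → Set X.Ω}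
    (hZ : Meas X Z) (hs : Supp X c.S Z) (hz : ZF c (tau X c.a Z)) {p r : ℝ} (h0 : 0 ≤ p)
    (h1 : p ≤ 1) (hδ : c.S.card * p < δ) (hr : ∀ γ ∈ c.S, 1 - tau X c.a Z γ ≤ r) :
    ∃ (Y : Sys G) (Z' : G → Set Y.Ω), Meas Y Z' ∧ Supp Y c.S Z' ∧ ZF c (tau Y c.a Z') ∧
      ∀ γ ∈ c.S, 1 - tau Y c.a Z' γ ≤ (1 - p ^ 2) * r := by
  obtain ⟨Y, π, cn, h⟩ := exists_coin X c.a Z hZ h0 h1
  refine ⟨Y, fun g => π ⁻¹' Z g ∪ HP_Sel c Y cn g,
    fun g => (h.fac.mp.measurable (hZ g)).union (HP_meas c h.meas g), fun g hg => ?_, ?_,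
    fun γ hγ => ?_⟩
  · simp only [hs g hg, HP_supp c Y cn g hg, Set.preimage_empty, Set.union_self]
  · exact (hz.add (HP_zf H (HP_meas c h.meas) (HP_supp c Y cn)
      (h.meas (measurableSet_singleton true)) (fun _ _ h2 => h2.2.1) h0
      (mc_coin c hZ h0 h1 h hz) hδ)).mono (HP_upper h hZ hs)
  · have h2 := HP_lower h hZ hγ
    have h3 : 0 ≤ 1 - p ^ 2 := by nlinarith
    have h4 := mul_le_mul_of_nonneg_left (hr γ hγ) h3
    nlinarith

theorem HP_par (c : Ctx G) {δ : ℝ} (hδ : 0 < δ) :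
    ∃ p : ℝ, 0 < p ∧ p ≤ 1 ∧ c.S.card * p < δ := by
  have hS : (0 : ℝ) < c.S.card := by exact_mod_cast c.ne.card_pos
  refine ⟨min (δ / (4 * c.S.card)) 1, lt_min (by positivity) one_pos, min_le_right _ _, ?_⟩
  calc (c.S.card : ℝ) * min (δ / (4 * c.S.card)) 1 ≤ c.S.card * (δ / (4 * c.S.card)) :=
        mul_le_mul_of_nonneg_left (min_le_left _ _) hS.le
    _ = δ / 4 := by field_simp
    _ < δ := by linarith

theorem star1 [Countable G] {c : Ctx G} {δ : ℝ} (hδ : 0 < δ) (H : Hyp c δ) {r : ℝ} (hr : 0 < r) :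
    ∃ (X : Sys G) (Z : G → Set X.Ω), Meas X Z ∧ Supp X c.S Z ∧ ZF c (tau X c.a Z) ∧
      ∀ γ ∈ c.S, 1 - tau X c.a Z γ ≤ r := by
  obtain ⟨p, h0, h1, h2⟩ := HP_par c hδ
  obtain ⟨n, hn⟩ := exists_pow_lt_of_lt_one hr (show 1 - p ^ 2 < 1 by nlinarith)
  suffices h : ∃ (X : Sys G) (Z : G → Set X.Ω), Meas X Z ∧ Supp X c.S Z ∧ ZF c (tau X c.a Z) ∧
      ∀ γ ∈ c.S, 1 - tau X c.a Z γ ≤ (1 - p ^ 2) ^ n by
    obtain ⟨X, Z, h3, h4, h5, h6⟩ := h
    exact ⟨X, Z, h3, h4, h5, fun γ hγ => (h6 γ hγ).trans hn.le⟩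
  clear hn
  induction n with
  | zero =>
    refine ⟨Sys.unif G, fun _ => ∅, fun _ => MeasurableSet.empty, fun _ _ => rfl,
      HP_zf H (fun _ => MeasurableSet.empty) (fun _ _ => rfl) MeasurableSet.empty
        (fun _ => subset_rfl) le_rfl (mc_empty _) (by simpa using hδ), fun γ _ => ?_⟩
    rw [pow_zero, sub_le_self_iff]
    exact measureReal_nonneg
  | succ n ih =>
    obtain ⟨X, Z, h3, h4, h5, h6⟩ := ih
    rw [pow_succ']
    exact rec_step H h3 h4 h5 h0.le h1 h2 h6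

theorem HP_stay {X : Sys G} {a : G} {Z : G → Set X.Ω} {σ : Type} {g : σ → G} {r : ℝ}
    (h : ∀ s, X.P.real {ω | ¬ Con X a Z ω 1 (g s)} ≤ r) (w : List σ) :
    X.P.real {ω | ¬ Stay X a Z g ω w} ≤ w.length * r := by
  induction w with
  | nil =>
    have : {ω | ¬ Stay X a Z g ω []} = ∅ :=
      Set.eq_empty_of_forall_notMem fun ω h1 => h1 fun i _ => by simpa [pw] using Con.refl 1
    simp [this]
  | cons s w ih =>
    have h1 : {ω | ¬ Stay X a Z g ω (s :: w)} ⊆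
        {ω | ¬ Con X a Z ω 1 (g s)} ∪ {ω | ¬ Stay X a Z g (X.mv ω (g s)) w} := by
      intro ω h2
      by_contra h3
      simp only [Set.mem_union, Set.mem_ofPred_eq, not_or, not_not] at h3
      refine h2 fun i hi => ?_
      cases i with
      | zero => simpa [pw] using Con.refl 1
      | succ i =>
        have h4 := (con_mv _ _ _).1 (h3.2 i (by simpa using hi))
        rw [mul_one] at h4
        rw [List.take_succ_cons, pw_cons]
        exact h3.1.trans h4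
    have h2 := (measureReal_mono (μ := X.P) h1).trans (measureReal_union_le _ _)
    rw [X.pre_real (g s) fun ω => ¬ Stay X a Z g ω w] at h2
    have h3 := h s
    rw [List.length_cons]
    push_cast
    linarith

theorem HP_step [Countable G] {c : Ctx G} {X : Sys G} {Z : G → Set X.Ω} (hZ : Meas X Z) {r : ℝ}
    (hr : 0 ≤ r) (h : ∀ γ ∈ c.S, 1 - tau X c.a Z γ ≤ r) (K : ℕ) (s : Step c K) :
    X.P.real {ω | ¬ Con X c.a Z ω 1 (c.gs K s)} ≤ r := by
  have h1 : {ω | ¬ Con X c.a Z ω 1 (c.gs K s)} ⊆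
      {ω | ¬ Con X c.a Z ω (c.a ^ ex K s.1) (c.a ^ ex K s.1 * lt s.2.1)} := by
    intro ω h2 h3
    have h4 := con_zpow (X := X) (a := c.a) (Z := Z) (ω := ω) 1 (ex K s.1)
    rw [one_mul] at h4
    exact h2 ((h4.trans h3).trans (con_zpow _ _))
  refine (measureReal_mono h1).trans ?_
  rw [HP_not hZ, inv_mul_cancel_left, lt]
  split_ifs
  · exact h _ s.2.1.2.2
  · have : {ω | Con X c.a Z ω 1 1} = Set.univ := Set.eq_univ_of_forall fun _ => Con.refl 1
    rw [tau, this, probReal_univ, sub_self]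
    exact hr

theorem star2 [Countable G] {c : Ctx G} {δ : ℝ} (hδ : 0 < δ) (H : Hyp c δ) :
    ∃ p : ℝ, 0 < p ∧ ∀ j : ℕ, ∃ (X : Sys G) (Z : G → Set X.Ω), Meas X Z ∧ Closed c X Z ∧
      X.P {ω | ∀ g, Con X c.a Z ω 1 g} = 0 ∧
      ∀ K : ℕ, p ≤ X.ann j fun ω w => Stay X c.a Z (c.gs K) ω w := by
  obtain ⟨p, h0, h1, h2⟩ := HP_par c hδ
  refine ⟨p / 2, half_pos h0, fun j => ?_⟩
  have hr : (0 : ℝ) < 1 / (2 * (j + 1)) := by positivity
  obtain ⟨X, Z, hZ, hs, hz, h3⟩ := star1 hδ H hr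
  obtain ⟨Y, π, cn, h⟩ := exists_coin X c.a Z hZ h0.le h1
  obtain ⟨θ, hc, h4⟩ := close_step H (HP_meas c h.meas) (HP_supp c Y cn)
    (h.meas (measurableSet_singleton true)) (fun _ _ h2 => h2.2.1) h0.le
    (mc_coin c hZ h0.le h1 h hz) h2
  refine ⟨_, _, meas_closeZ c (HP_meas c h.meas) θ, hc, h4, fun K => ?_⟩
  rw [← avgW_const (σ := Step c K) j (p / 2)]
  refine avgW_mono fun w hw => ?_
  have m := measurableSet_stay (a := c.a) hZ (c.gs K) w
  have h5 := HP_stay (HP_step hZ hr.le h3 K) w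
  have h6 : X.P.real {ω | ¬ Stay X c.a Z (c.gs K) ω w} =
      1 - X.P.real {ω | Stay X c.a Z (c.gs K) ω w} := probReal_compl_eq_one_sub m
  have h7 := h.one _ m true
  have h8 : (j : ℝ) * (1 / (2 * (j + 1))) ≤ 1 / 2 := by
    rw [mul_one_div, div_le_div_iff₀ (by positivity) two_pos]
    linarith
  rw [hw, h6] at h5
  rw [if_pos rfl] at h7
  have m' : MeasurableSet {ω | π ω ∈ {ω | Stay X c.a Z (c.gs K) ω w} ∧ cn ω = true} :=
    (h.fac.mp.measurable m).inter (h.meas (measurableSet_singleton true))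
  rw [← (fac_fst Y (Sys.bern G (G × G) θ)).real m'] at h7
  refine le_trans (le_of_le_of_eq (by (clear * - h0 h5 h8; nlinarith)) h7.symm) (measureReal_mono fun q hq i hi => ?_)
  exact HP_con_close c θ q (HP_lift h hs (hq.1 i hi) (by rw [Y.mv_one]; exact hq.2))

end Pool.Agent.Work.MP_01d39a_al.Ct
end

-- merged part: Pool.Agent.Work.MP_01d39a_al.Ct.Hts
section
/-!
TASK CT Hts. Existence of heights: `star1` with `r = x₀/8`, fair class coins (`exists_coin`, `p = 1/2`),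
`ξ = if cn then 1 else -1`, `∫ ξ (mv ω g) ξ ω = tau g` (on `Con 1 g` the product is 1 by `const`, off it the four cases
of `two` cancel), `exists_vec` (use `ZF` with `ε = 1/2`, `g = 1`), `heights_of_vec`.
-/

open MeasureTheory ProbabilityTheory Filter Topology
open scoped BigOperators ENNReal NNReal

namespace Pool.Agent.Work.MP_01d39a_al.Ct

variable {G : Type} [Group G]

theorem Hts_corr [Countable G] {X Y : Sys G} {a : G} {Z : G → Set X.Ω} (hZ : Meas X Z)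
    {π : Y.Ω → X.Ω} {cn : Y.Ω → Bool} (h : CoinPack X Y a Z π cn (1 / 2)) (g : G) :
    ∫ ω, (if cn (Y.mv ω g) = true then (1 : ℝ) else -1) * (if cn ω = true then 1 else -1) ∂Y.P =
      tau X a Z g := by
  have mC : MeasurableSet {ω | Con X a Z (π ω) 1 g} :=
    h.fac.mp.measurable (measurableSet_con hZ 1 g)
  have mE : ∀ b b' : Bool, MeasurableSet {ω | π ω ∈ (Set.univ : Set X.Ω) ∧
      ¬ Con X a Z (π ω) 1 g ∧ cn ω = b ∧ cn (Y.mv ω g) = b'} := fun b b' =>
    (h.fac.mp.measurable MeasurableSet.univ).inter (mC.compl.inter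
      ((h.meas (measurableSet_singleton b)).inter
        ((h.meas.comp (Y.meas_mv g)) (measurableSet_singleton b'))))
  have e : ∀ ω, (if cn (Y.mv ω g) = true then (1 : ℝ) else -1) * (if cn ω = true then 1 else -1) =
      ind (Con X a Z (π ω) 1 g) +
        ind (π ω ∈ (Set.univ : Set X.Ω) ∧ ¬ Con X a Z (π ω) 1 g ∧ cn ω = true ∧
          cn (Y.mv ω g) = true) +
        ind (π ω ∈ (Set.univ : Set X.Ω) ∧ ¬ Con X a Z (π ω) 1 g ∧ cn ω = false ∧
          cn (Y.mv ω g) = false) -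
        ind (π ω ∈ (Set.univ : Set X.Ω) ∧ ¬ Con X a Z (π ω) 1 g ∧ cn ω = true ∧
          cn (Y.mv ω g) = false) -
        ind (π ω ∈ (Set.univ : Set X.Ω) ∧ ¬ Con X a Z (π ω) 1 g ∧ cn ω = false ∧
          cn (Y.mv ω g) = true) := by
    intro ω
    by_cases hc : Con X a Z (π ω) 1 g
    · rw [h.const ω g hc]
      cases cn ω <;> simp [ind, hc]
    · cases cn ω <;> cases cn (Y.mv ω g) <;> simp [ind, hc]
  have i0 := integrable_ind Y.P mC
  have i1 := fun b b' => integrable_ind Y.P (mE b b')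
  simp only [e]
  rw [integral_sub, integral_sub, integral_add, integral_add, integral_ind _ mC,
    integral_ind _ (mE _ _), integral_ind _ (mE _ _), integral_ind _ (mE _ _),
    integral_ind _ (mE _ _), h.two _ MeasurableSet.univ, h.two _ MeasurableSet.univ,
    h.two _ MeasurableSet.univ, h.two _ MeasurableSet.univ]
  · have : Y.P.real {ω | Con X a Z (π ω) 1 g} = tau X a Z g :=
      h.fac.real (measurableSet_con hZ 1 g)
    rw [this]
    simp only [if_true, Bool.false_eq_true, if_false]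
    ring
  · exact i0
  · exact i1 _ _
  · exact i0.add (i1 _ _)
  · exact i1 _ _
  · exact (i0.add (i1 _ _)).add (i1 _ _)
  · exact i1 _ _
  · exact ((i0.add (i1 _ _)).add (i1 _ _)).sub (i1 _ _)
  · exact i1 _ _

theorem exists_heights [Countable G] {c : Ctx G} {δ : ℝ} (hδ : 0 < δ) (H : Hyp c δ) {x₀ κ : ℝ}
    (hx : 0 < x₀) (hκ : 0 < κ) : ∃ (X : Sys G) (z : X.Ω → ℝ), HtPack c X z x₀ κ := by
  obtain ⟨X, Z, hZ, -, hz, hr⟩ := star1 hδ H (r := x₀ / 8) (by positivity)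
  obtain ⟨Y, π, cn, h⟩ := exists_coin X c.a Z hZ (p := 1 / 2) (by norm_num) (by norm_num)
  obtain ⟨v, hv⟩ := exists_vec c Y (ξ := fun ω => if cn ω = true then (1 : ℝ) else -1)
    (Measurable.ite (h.meas (measurableSet_singleton true)) measurable_const measurable_const)
    (fun ω => by split_ifs <;> norm_num)
    (fun ω => by
      have := h.const ω c.a (by simpa using con_a (X := X) (a := c.a) (Z := Z) (ω := π ω) 1)
      simp only [this])
    (r := x₀ / 8) hx (fun γ hγ => by rw [Hts_corr hZ h]; exact hr γ hγ) (by linarith)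
    (by
      obtain ⟨n, hn⟩ := hz (1 / 2) (by norm_num)
      refine ⟨n, hn.mono fun K hK => ?_⟩
      simp only [Hts_corr hZ h]
      simpa using hK 1)
  exact heights_of_vec c hv hκ

end Pool.Agent.Work.MP_01d39a_al.Ct
end

-- merged part: Pool.Agent.Work.MP_01d39a_al.Ct.Lay1
section
/-!
TASK CT Lay1. The bit field of one layer (L1 and the end of L3 in section 2).
`X' = X.prod (Sys.unif G)`, `Z' g = fst ⁻¹' Z g` (`con_pull`), fair class coins `exists_coin X' .. (p = 1/2)`,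
`ℓ₀ ω = decide ((π ω).2 < ψ (π ω).1) && cn ω`, then `exists_ainv` (a.e. invariance: `CoinPack.const` with `con_a`);
a.e. equality survives moves (`Sys.ae_mv`). For fixed `ω`: `unifM {u | u < s} = s` for `s ∈ [0,1]` and
`unifM {u | ¬ (u < s ↔ u < t)} ≤ |s - t|`; Fubini `Measure.prod_apply` / `integral_prod`.
Upper bound: on `Con 1 γ` the coins agree, so the thresholds differ; off it one of the two thresholds holds.
Lower bound: move by `x`, use `CoinPack.two` with `A = {u < ψ}`, `b = true`, `b' = false`.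
-/

open MeasureTheory ProbabilityTheory Filter Topology
open scoped BigOperators ENNReal NNReal

namespace Pool.Agent.Work.MP_01d39a_al.Ct

variable {G : Type} [Group G]

theorem Lay1_lt {s : ℝ} (h0 : 0 ≤ s) (h1 : s ≤ 1) : unifM.real {u | u < s} = s := by
  have h : {u : ℝ | u < s} ∩ Set.Ico 0 1 = Set.Ico 0 s := by
    ext u
    exact ⟨fun h => ⟨h.2.1, h.1⟩, fun h => ⟨h.2, h.1, h.2.trans_le h1⟩⟩
  rw [Measure.real, unifM, Measure.restrict_apply' measurableSet_Ico, h, Real.volume_Ico, sub_zero,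
    ENNReal.toReal_ofReal h0]

theorem Lay1_ne (s t : ℝ) : unifM.real {u | ¬ (u < s ↔ u < t)} ≤ |s - t| := by
  have h : {u : ℝ | ¬ (u < s ↔ u < t)} ⊆ Set.Ico (min s t) (max s t) := by
    intro u hu
    simp only [Set.mem_ofPred_eq, Set.mem_Ico, ← not_lt, lt_min_iff, lt_max_iff] at hu ⊢
    tauto
  refine (measureReal_mono h).trans (ENNReal.toReal_le_of_le_ofReal (abs_nonneg _) ?_)
  refine (Measure.restrict_le_self _).trans ?_
  rw [Real.volume_Ico, max_sub_min_eq_abs, abs_sub_comm]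

theorem Lay1_fub {Ω : Type} [MeasurableSpace Ω] (P : Measure Ω) [IsProbabilityMeasure P]
    {E : Ω × ℝ → Prop} (h : MeasurableSet {p | E p}) :
    (P.prod unifM).real {p | E p} = ∫ ω, unifM.real {u | E (ω, u)} ∂P := by
  rw [← integral_ind _ h, integral_prod _ (integrable_ind _ h)]
  exact integral_congr_ae (Eventually.of_forall fun ω =>
    integral_ind _ (measurable_prodMk_left h))

theorem layer_core [Countable G] (a : G) (X : Sys G) {Z : G → Set X.Ω} (hZ : Meas X Z)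
    {ψ : X.Ω → ℝ} (hm : Measurable ψ) (h01 : ∀ᵐ ω ∂X.P, 0 ≤ ψ ω ∧ ψ ω ≤ 1)
    (ha : ∀ᵐ ω ∂X.P, ψ (X.mv ω a) = ψ ω) :
    ∃ (Y : Sys G) (ℓ : Y.Ω → Bool), Measurable ℓ ∧ (∀ ω, ℓ (Y.mv ω a) = ℓ ω) ∧
      (∀ γ : G, Y.P.real {ω | ℓ (Y.mv ω γ) ≠ ℓ ω} ≤
        ∫ ω, (ind (Con X a Z ω 1 γ) * |ψ (X.mv ω γ) - ψ ω| +
          ind (¬ Con X a Z ω 1 γ) * (ψ ω + ψ (X.mv ω γ))) ∂X.P) ∧
      ∀ x y : G, 1 / 4 * ∫ ω, ψ (X.mv ω x) * ind (¬ Con X a Z ω x y) ∂X.P ≤
        Y.P.real {ω | ℓ (Y.mv ω x) ≠ ℓ (Y.mv ω y)} := by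
  classical
  let X' := X.prod (Sys.unif G)
  let Z' : G → Set X'.Ω := fun g => Prod.fst ⁻¹' Z g
  have hc : ∀ (p : X'.Ω) (x y : G), Con X' a Z' p x y ↔ Con X a Z p.1 x y :=
    con_pull (fac_fst X (Sys.unif G)).eqv
  obtain ⟨Y, π, cn, hp⟩ := exists_coin X' a Z' (fun g => measurable_fst (hZ g)) (p := 1 / 2)
    (by norm_num) (by norm_num)
  have hπ := hp.fac.mp.measurable
  have hA : ∀ x, MeasurableSet {p : X.Ω × ℝ | p.2 < ψ (X.mv p.1 x)} := fun x =>
    measurableSet_lt measurable_snd (hm.comp ((X.meas_mv x).comp measurable_fst))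
  have hA1 : MeasurableSet {p : X.Ω × ℝ | p.2 < ψ p.1} :=
    measurableSet_lt measurable_snd (hm.comp measurable_fst)
  have hC : ∀ x, MeasurableSet {p : X.Ω × ℝ | Con X a Z p.1 1 x} := fun x =>
    measurable_fst (measurableSet_con hZ 1 x)
  let l : Y.Ω → Bool := fun ω => decide ((π ω).2 < ψ (π ω).1) && cn ω
  have hl : ∀ ω x, l (Y.mv ω x) = (decide ((π ω).2 < ψ (X.mv (π ω).1 x)) && cn (Y.mv ω x)) :=
    fun ω x => by simp only [l, hp.fac.eqv]; rfl
  have hlm : Measurable l := by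
    refine measurable_to_bool ?_
    have : l ⁻¹' {true} = π ⁻¹' {p | p.2 < ψ p.1} ∩ cn ⁻¹' {true} := by
      ext ω
      simp [l]
    rw [this]
    exact (hπ hA1).inter (hp.meas (measurableSet_singleton _))
  obtain ⟨ℓ, h1, h2, h3⟩ := exists_ainv Y a false hlm (by
    filter_upwards [((fac_fst X (Sys.unif G)).comp hp.fac).mp.quasiMeasurePreserving.ae ha]
      with ω hω
    rw [hl, hp.const ω a (by simpa using con_a (X := X') (a := a) (Z := Z') (ω := π ω) 1)]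
    exact congrArg (fun r => decide ((π ω).2 < r) && cn ω) hω)
  refine ⟨Y, ℓ, h1, h2, fun γ => ?_, fun x y => ?_⟩
  · let E : X.Ω × ℝ → Prop := fun p =>
      (Con X a Z p.1 1 γ ∧ ¬ (p.2 < ψ (X.mv p.1 γ) ↔ p.2 < ψ p.1)) ∨
        (¬ Con X a Z p.1 1 γ ∧ (p.2 < ψ p.1 ∨ p.2 < ψ (X.mv p.1 γ)))
    have hE : MeasurableSet {p | E p} :=
      ((hC γ).inter ((hA γ).iff hA1).compl).union ((hC γ).compl.inter (hA1.union (hA γ)))
    have h4 : Y.P.real {ω | ℓ (Y.mv ω γ) ≠ ℓ ω} ≤ Y.P.real (π ⁻¹' {p | E p}) := by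
      refine ENNReal.toReal_mono (measure_ne_top _ _) (measure_mono_ae ?_)
      filter_upwards [h3, Y.ae_mv h3] with ω e1 e2 hω
      replace hω : ℓ (Y.mv ω γ) ≠ ℓ ω := hω
      rw [e1, e2, hl] at hω
      by_cases h : Con X a Z (π ω).1 1 γ
      · refine Or.inl ⟨h, fun e => hω ?_⟩
        rw [hp.const ω γ ((hc _ _ _).2 h)]
        simp only [l, e]
      · refine Or.inr ⟨h, ?_⟩
        by_contra e
        rw [not_or] at e
        exact hω (by simp only [l, e.1, e.2, decide_false, Bool.false_and])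
    refine h4.trans ((hp.fac.real hE).le.trans ((Lay1_fub X.P hE).le.trans ?_))
    refine integral_mono_of_nonneg (Eventually.of_forall fun _ => measureReal_nonneg)
      (Integrable.of_bound (Measurable.aestronglyMeasurable ?_) 2 ?_) ?_
    · exact ((measurable_ind (measurableSet_con hZ 1 γ)).mul
        ((hm.comp (X.meas_mv γ)).sub hm).abs).add
        ((measurable_ind (measurableSet_con hZ 1 γ).compl).mul (hm.add (hm.comp (X.meas_mv γ))))
    · filter_upwards [h01, X.ae_mv h01] with ω e1 e2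
      have e3 := e2 γ
      by_cases h : Con X a Z ω 1 γ
      · rw [ind_pos h, ind_neg (not_not.2 h), one_mul, zero_mul, add_zero, Real.norm_eq_abs,
          abs_abs, abs_le]
        constructor <;> linarith [e1.1, e1.2, e3.1, e3.2]
      · rw [ind_neg h, ind_pos h, one_mul, zero_mul, zero_add, Real.norm_eq_abs, abs_le]
        constructor <;> linarith [e1.1, e1.2, e3.1, e3.2]
    · filter_upwards [h01, X.ae_mv h01] with ω e1 e2
      have e3 := e2 γ
      by_cases h : Con X a Z ω 1 γ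
      · rw [ind_pos h, ind_neg (not_not.2 h), one_mul, zero_mul, add_zero]
        simpa only [E, h, true_and, not_true, false_and, or_false] using
          Lay1_ne (ψ (X.mv ω γ)) (ψ ω)
      · rw [ind_neg h, ind_pos h, one_mul, zero_mul, zero_add]
        have h5 := measureReal_union_le (μ := unifM) {u | u < ψ ω} {u | u < ψ (X.mv ω γ)}
        rw [Lay1_lt e1.1 e1.2, Lay1_lt e3.1 e3.2] at h5
        simp only [E, h, true_and, not_false_iff, false_and, false_or]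
        exact h5
  · have h4 := hp.two _ hA1 (x⁻¹ * y) true false
    have hE : MeasurableSet {p : X.Ω × ℝ | p.2 < ψ p.1 ∧ ¬ Con X a Z p.1 1 (x⁻¹ * y)} :=
      hA1.inter (hC _).compl
    have h5 : ∫ ω, ψ (X.mv ω x) * ind (¬ Con X a Z ω x y) ∂X.P =
        (X.P.prod unifM).real {p | p.2 < ψ p.1 ∧ ¬ Con X a Z p.1 1 (x⁻¹ * y)} := by
      rw [Lay1_fub X.P hE]
      refine Eq.trans ?_ (X.int_mv x _)
      refine integral_congr_ae ?_
      filter_upwards [X.ae_mv h01] with ω e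
      simp only [con_mv, mul_one, mul_inv_cancel_left]
      by_cases h : Con X a Z ω x y
      · simp [ind, h]
      · rw [ind_pos h, mul_one]
        simpa only [h, not_false_iff, and_true] using (Lay1_lt (e x).1 (e x).2).symm
    simp only [hc] at h4
    rw [h5, mul_comm, show (1 / 4 : ℝ) = 1 / 2 * (1 - 1 / 2) by norm_num, ← mul_assoc]
    refine le_trans (le_of_eq h4.symm) ?_
    rw [← Y.pre_real x]
    refine ENNReal.toReal_mono (measure_ne_top _ _) (measure_mono_ae ?_)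
    filter_upwards [Y.ae_mv h3] with ω e hω
    obtain ⟨e1, -, e2, e3⟩ := hω
    replace e1 : (π (Y.mv ω x)).2 < ψ (π (Y.mv ω x)).1 := e1
    rw [Y.mv_mul, mul_inv_cancel_left] at e3
    change ℓ (Y.mv ω x) ≠ ℓ (Y.mv ω y)
    rw [e, e]
    simp only [l, e1, e2, e3, decide_true, Bool.and_self, Bool.and_false]
    decide

end Pool.Agent.Work.MP_01d39a_al.Ct
end

-- merged part: Pool.Agent.Work.MP_01d39a_al.Ct.Esc
section
/-!
Escape of deep products (L3 of section 2). Write `W = pw w`. A deep product is a product of blocks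
`a ^ e * W ^ (±1)` with `N ≤ |e|`. By induction on the number of blocks, deep products leave every
finite set as `N` grows; hence they are reached from the origin by copies of the path of `w` that
are far away, and closedness applies.
-/

open MeasureTheory ProbabilityTheory Filter Topology
open scoped BigOperators ENNReal NNReal

namespace Pool.Agent.Work.MP_01d39a_al.Ct

variable {G : Type} [Group G]

/-- Joined by `a`-edges and at most `r` edges based outside `Φ`. -/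
def Esc_R (c : Ctx G) (r : ℕ) (Φ : Finset G) (x y : G) : Prop :=
  ∃ E : Finset (G × G), E.card ≤ r ∧ (∀ e ∈ E, e.1⁻¹ * e.2 ∈ c.S ∧ e.1 ∉ Φ) ∧ PathCon c.a E x y

namespace Esc_R

variable {c : Ctx G} {r r' : ℕ} {Φ : Finset G} {x y z : G}

theorem refl (x : G) : Esc_R c r Φ x x := ⟨∅, r.zero_le, by simp, .refl _⟩

theorem symm (h : Esc_R c r Φ x y) : Esc_R c r Φ y x := h.imp fun _ h => ⟨h.1, h.2.1, .symm _ _ h.2.2⟩

theorem mono (h : Esc_R c r Φ x y) (hr : r ≤ r') : Esc_R c r' Φ x y :=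
  h.imp fun _ h => ⟨h.1.trans hr, h.2⟩

theorem trans (h : Esc_R c r Φ x y) (h' : Esc_R c r' Φ y z) : Esc_R c (r + r') Φ x z := by
  classical
  obtain ⟨E, h1, h2, h3⟩ := h
  obtain ⟨E', h4, h5, h6⟩ := h'
  exact ⟨E ∪ E', (Finset.card_union_le _ _).trans (add_le_add h1 h4),
    fun e he => (Finset.mem_union.1 he).elim (h2 e) (h5 e), .trans _ _ _
      (Relation.EqvGen.mono (fun _ _ h => h.imp_right (Finset.mem_union_left _)) _ _ h3)
      (Relation.EqvGen.mono (fun _ _ h => h.imp_right (Finset.mem_union_right _)) _ _ h6)⟩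

theorem zpow (h : Esc_R c r Φ x y) (k : ℤ) : Esc_R c r Φ x (y * c.a ^ k) := by
  obtain ⟨E, h1, h2, h3⟩ := h
  refine ⟨E, h1, h2, ?_⟩
  induction k using Int.induction_on with
  | zero => simpa using h3
  | succ n ih => exact .trans _ _ _ ih (.rel _ _ (Or.inl (by rw [zpow_add_one, mul_assoc])))
  | pred n ih =>
    exact .trans _ _ _ ih (.symm _ _ (.rel _ _ (Or.inl (by
      rw [mul_assoc, ← zpow_add_one, sub_add_cancel]))))

theorem letter (b : Bool × c.S) (hx : x ∉ Φ) : Esc_R c 1 Φ x (x * lt b) := by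
  unfold lt
  split_ifs
  · exact ⟨{(x, x * b.2)}, by simp, by simpa using hx, .rel _ _ (Or.inr (by simp))⟩
  · simpa using refl x

end Esc_R

theorem Esc_shift {P : G → Prop} (h : ∀ᶠ x in cofinite, P x) (g : G) :
    ∀ᶠ x in cofinite, P (x * g) := (mul_left_injective g).tendsto_cofinite.eventually h

theorem Esc_path {c : Ctx G} {K : ℕ} (w : List (Step c K)) (Φ : Finset G) :
    ∀ᶠ x in cofinite, ∀ t, Esc_R c w.length Φ x (x * pw (c.gs K) (w.take t)) := by
  induction w with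
  | nil => exact .of_forall fun x t => by simpa using Esc_R.refl x
  | cons s w ih =>
    filter_upwards [Esc_shift ih (c.gs K s),
      Esc_shift Φ.eventually_cofinite_notMem (c.a ^ ex K s.1)] with x h1 h2 t
    cases t with
    | zero => simpa using Esc_R.refl x
    | succ t =>
      have h3 := (((Esc_R.refl (r := 0) x).zpow _).trans (.letter s.2.1 h2)).zpow (ex K s.2.2)
      rw [mul_assoc, mul_assoc, ← mul_assoc (c.a ^ ex K s.1)] at h3
      rw [List.take_succ_cons, pw_cons, ← mul_assoc]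
      exact (h3.trans (h1 t)).mono (by simp [add_comm])

/-- Lists of deep blocks. -/
def Esc_Ok (W : G) (N : ℕ) (l : List (ℤ × G)) : Prop :=
  ∀ p ∈ l, N ≤ p.1.natAbs ∧ (p.2 = W ∨ p.2 = W⁻¹)

/-- The product of the blocks. -/
abbrev Esc_ev (a : G) : List (ℤ × G) → G := pw fun p => a ^ p.1 * p.2

/-- Deep products of at most `j` blocks leave every finite set. -/
def Esc_A (a W : G) (j : ℕ) : Prop := ∀ P : G → Prop, (∀ᶠ x in cofinite, P x) →
  ∀ᶠ N in atTop, ∀ l, Esc_Ok W N l → l ≠ [] → l.length ≤ j → P (Esc_ev a l)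

theorem Esc_snoc (a : G) (l : List (ℤ × G)) (p : ℤ × G) :
    Esc_ev a (l ++ [p]) = Esc_ev a l * a ^ p.1 * p.2 := by
  simp [pw, mul_assoc]

theorem Esc_reach {c : Ctx G} {K j : ℕ} {w : List (Step c K)} (h : Esc_A c.a (pw (c.gs K) w) j)
    (Φ : Finset G) : ∀ᶠ N in atTop, ∀ l, Esc_Ok (pw (c.gs K) w) N l → l.length ≤ j →
      Esc_R c (l.length * w.length) Φ 1 (Esc_ev c.a l) := by
  filter_upwards [h _ ((Esc_path w Φ).and (Esc_shift (Esc_path w Φ) (pw (c.gs K) w)⁻¹))] with N hN l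
  induction l using List.reverseRecOn with
  | nil => exact fun _ _ => .refl _
  | append_singleton l p ih =>
    intro h1 h2
    obtain ⟨h3, h4⟩ := hN _ h1 (by simp) h2
    replace h3 := h3 w.length
    replace h4 := h4 w.length
    rw [List.take_length, Esc_snoc] at h3 h4
    rw [List.length_append, List.length_singleton] at h2 ⊢
    rw [Nat.succ_mul, Esc_snoc]
    refine ((ih (fun q hq => h1 q (by simp [hq])) (by omega)).zpow p.1).trans ?_
    rcases (h1 p (by simp)).2 with e | e <;> rw [e] at h3 h4 ⊢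
    · simpa using h4
    · simpa using h3.symm

section

variable {c : Ctx G} {X : Sys G} {Z : G → Set X.Ω} (hc : Closed c X Z) {K j : ℕ}
  {w : List (Step c K)}
include hc

theorem Esc_closed (y : G) (r : ℕ) {ε : ℝ} (hε : 0 < ε) : ∃ Φ, ∀ y', Esc_R c r Φ 1 y' →
    X.P.real {ω | Con X c.a Z ω y y' ∧ ¬ Con X c.a Z ω y 1} ≤ ε :=
  (hc y r ε hε).imp fun _ h y' ⟨E, h1, h2, h3⟩ => h E h1 h2 y' h3

theorem Esc_bad (h : Esc_A c.a (pw (c.gs K) w) j) (y : G) {ε : ℝ} (hε : 0 < ε) :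
    ∀ᶠ N in atTop, ∀ l, Esc_Ok (pw (c.gs K) w) N l → l.length ≤ j → ∀ k : ℤ,
      X.P.real {ω | Con X c.a Z ω y (Esc_ev c.a l * c.a ^ k) ∧ ¬ Con X c.a Z ω y 1} ≤ ε := by
  obtain ⟨Φ, hΦ⟩ := Esc_closed hc y (j * w.length) hε
  filter_upwards [Esc_reach h Φ] with N hN l h1 h2 k
  exact hΦ _ (((hN l h1 h2).mono (Nat.mul_le_mul_right _ h2)).zpow k)

theorem Esc_tau (h : Esc_A c.a (pw (c.gs K) w) j) {ε : ℝ} (hε : 0 < ε) :
    ∀ᶠ N in atTop, ∀ l, Esc_Ok (pw (c.gs K) w) N l → l ≠ [] → l.length ≤ j →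
      tau X c.a Z (Esc_ev c.a l) ≤ tau X c.a Z (pw (c.gs K) w) + ε := by
  filter_upwards [Esc_bad hc h (pw (c.gs K) w)⁻¹ hε, Esc_bad hc h (pw (c.gs K) w)⁻¹⁻¹ hε]
    with N h1 h2 l h3 h4 h5
  obtain ⟨p, l, rfl⟩ := List.exists_cons_of_ne_nil h4
  have h6 : Esc_Ok _ N l := fun q hq => h3 q (List.mem_cons_of_mem _ hq)
  have h7 : l.length ≤ j := (Nat.le_succ _).trans h5
  have h8 := real_con (X := X) (a := c.a) (Z := Z) (p.2⁻¹ * c.a ^ (-p.1)) (Esc_ev c.a l)
  have h9 := real_con (X := X) (a := c.a) (Z := Z) p.2⁻¹ 1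
  rw [mul_inv_rev, zpow_neg, inv_inv, inv_inv] at h8
  rw [inv_inv, mul_one] at h9
  rw [Esc_ev, pw_cons, ← h8]
  refine (measureReal_mono (s₂ := {ω | Con X c.a Z ω p.2⁻¹ 1} ∪ {ω | Con X c.a Z ω p.2⁻¹
    (Esc_ev c.a l * c.a ^ (0 : ℤ)) ∧ ¬ Con X c.a Z ω p.2⁻¹ 1}) fun ω hω => ?_).trans
    ((measureReal_union_le _ _).trans ?_)
  · refine or_iff_not_imp_left.2 fun h0 => ⟨?_, h0⟩
    simpa using (con_zpow p.2⁻¹ (-p.1)).trans (by simpa using hω)
  · rw [h9]
    rcases (h3 p List.mem_cons_self).2 with e | e <;> rw [e]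
    · exact add_le_add le_rfl (h1 l h6 h7 0)
    · exact add_le_add (tau_inv _).le (h2 l h6 h7 0)

theorem Esc_all (hτ : tau X c.a Z (pw (c.gs K) w) < 1) (j : ℕ) : Esc_A c.a (pw (c.gs K) w) j := by
  induction j with
  | zero => exact fun P _ => .of_forall fun N l _ h1 h2 => absurd (by simpa using h2) h1
  | succ j ih =>
    intro P hP
    have hε : 0 < (1 - tau X c.a Z (pw (c.gs K) w)) / 3 := by linarith
    have hF := (Esc_shift hP (pw (c.gs K) w)).and (Esc_shift hP (pw (c.gs K) w)⁻¹)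
    have h0 := (show Function.Injective fun k : ℤ => c.a ^ k from
      fun _ _ => c.zpow_inj).tendsto_cofinite.eventually hF
    obtain ⟨M, hM⟩ := ((eventually_cofinite.1 h0).image Int.natAbs).bddAbove
    filter_upwards [eventually_gt_atTop M, Esc_tau hc ih hε,
      (eventually_all_finite (eventually_cofinite.1 hF)).2 fun y _ => Esc_bad hc ih y hε]
      with N h1 h2 h3 l h4 h5 h6
    obtain ⟨l, p, rfl⟩ := (List.eq_nil_or_concat' l).resolve_left h5
    obtain ⟨h7, h8⟩ := h4 p (by simp)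
    suffices h : P (_ * _) ∧ P (_ * _) by
      rw [Esc_snoc]
      rcases h8 with e | e <;> rw [e]
      exacts [h.1, h.2]
    by_contra h9
    have h10 : Esc_Ok _ N l := fun q hq => h4 q (by simp [hq])
    have h11 : l.length ≤ j := by simpa using h6
    by_cases hl : l = []
    · subst hl
      exact (h1.trans_le h7).not_ge (hM ⟨p.1, by simpa using h9, rfl⟩)
    have h12 := (measureReal_mono (μ := X.P) (s₁ := Set.univ)
      (s₂ := {ω | Con X c.a Z ω 1 (Esc_ev c.a l)} ∪ _) fun ω _ => or_iff_not_imp_left.2 fun h =>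
        And.intro (Con.refl _) fun h' => h (h'.symm.trans (con_zpow _ p.1).symm)).trans
      ((measureReal_union_le _ _).trans (add_le_add (h2 l h10 hl h11) (h3 _ h9 l h10 h11 p.1)))
    rw [probReal_univ] at h12
    linarith

end

theorem Esc_alt {a W q : G} {N j : ℕ} {b : Bool} (h : Alt (a ^ N) (W * a ^ N * W⁻¹) b j q) :
    ∃ l, Esc_Ok W N l ∧ l ≠ [] ∧ l.length ≤ j ∧ (Esc_ev a l = (if b then 1 else W)⁻¹ * q ∨
      Esc_ev a l = (if b then 1 else W)⁻¹ * q * W) := by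
  have h1 : ∀ k : ℤ, k ≠ 0 → N ≤ (N * k).natAbs := fun k hk => by
    rw [Int.natAbs_mul]
    exact Nat.le_mul_of_pos_right _ (Int.natAbs_pos.2 hk)
  have h0 : ∀ k : ℤ, (W * (a ^ N * W⁻¹)) ^ k = W * ((a ^ N) ^ k * W⁻¹) := fun k => by
    rw [← mul_assoc, conj_zpow, mul_assoc]
  induction h with
  | one b k hk =>
    refine ⟨[(N * k, if b then W else W⁻¹)], ?_, by simp, le_rfl, ?_⟩
    · cases b <;> simpa [Esc_Ok] using h1 k hk
    · cases b <;> simp [pw, zpow_mul, mul_assoc, h0]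
  | cons b j k q hk _ ih =>
    obtain ⟨l, h2, -, h3, h4⟩ := ih
    refine ⟨(N * k, if b then W else W⁻¹) :: l, List.forall_mem_cons.2 ⟨⟨h1 k hk, ?_⟩, h2⟩,
      by simp, Nat.succ_le_succ h3, h4.imp (fun e => ?_) fun e => ?_⟩
    · cases b <;> simp
    all_goals
      rw [Esc_ev, pw_cons, ← Esc_ev, e]
      cases b <;> simp [zpow_mul, mul_assoc, h0]

theorem escape [Countable G] {c : Ctx G} {X : Sys G} {Z : G → Set X.Ω} (hZ : Meas X Z)
    (hc : Closed c X Z) (K : ℕ) (w : List (Step c K)) (hτ : tau X c.a Z (pw (c.gs K) w) < 1)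
    (s₁ : ℕ) {ε : ℝ} (hε : 0 < ε) : ∃ N : ℕ, 1 ≤ N ∧ ∀ (b : Bool) (j : ℕ) (q : G), j ≤ s₁ →
      Alt (c.a ^ N) (pw (c.gs K) w * c.a ^ N * (pw (c.gs K) w)⁻¹) b j q → ∀ t t' : ℕ,
        X.P.real {ω | Con X c.a Z ω (pw (c.gs K) (w.take t)) (q * pw (c.gs K) (w.take t')) ∧
          ¬ Con X c.a Z ω (pw (c.gs K) (w.take t)) (if b then 1 else pw (c.gs K) w)} ≤ ε := by
  have hA := Esc_all hc hτ s₁
  have key : ∀ y : G, ∀ᶠ N in atTop, ∀ l, Esc_Ok (pw (c.gs K) w) N l → l ≠ [] → l.length ≤ s₁ →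
      ∀ x, Esc_ev c.a l = x ∨ Esc_ev c.a l = x * pw (c.gs K) w → ∀ t, X.P.real
        {ω | Con X c.a Z ω y (x * pw (c.gs K) (w.take t)) ∧ ¬ Con X c.a Z ω y 1} ≤ ε := fun y => by
    obtain ⟨Φ, hΦ⟩ := Esc_closed hc y (s₁ * w.length + w.length + w.length) hε
    filter_upwards [Esc_reach hA Φ,
      hA _ ((Esc_path w Φ).and (Esc_shift (Esc_path w Φ) (pw (c.gs K) w)⁻¹))]
      with N h1 h2 l h3 h4 h5 x h6 t
    have h7 := (h1 l h3 h5).mono (Nat.mul_le_mul_right _ h5)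
    obtain ⟨h8, h9⟩ := h2 l h3 h4 h5
    refine hΦ _ ?_
    rcases h6 with rfl | e
    · exact (h7.trans (h8 t)).mono le_self_add
    · rw [e, mul_inv_cancel_right] at h9
      exact ((e ▸ h7).trans (by simpa using (h9 w.length).symm)).trans (h9 t)
  obtain ⟨N, h1, h2⟩ := ((eventually_ge_atTop 1).and (eventually_all.2 fun b : Bool =>
    (eventually_all_finite w.sublists.finite_toSet).2 fun u _ =>
      key ((if b then 1 else pw (c.gs K) w)⁻¹ * pw (c.gs K) u))).exists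
  refine ⟨N, h1, fun b j q hj hq t t' => ?_⟩
  obtain ⟨l, h3, h4, h5, h6⟩ := Esc_alt hq
  have h7 := h2 b _ (List.mem_sublists.2 (w.take_sublist t)) l h3 h4 (h5.trans hj) _ h6 t'
  rw [← X.pre_real (if b then 1 else pw (c.gs K) w)] at h7
  simpa only [con_mv, mul_assoc, mul_inv_cancel_left, mul_one] using h7

end Pool.Agent.Work.MP_01d39a_al.Ct
end

-- merged part: Pool.Agent.Work.MP_01d39a_al.Ct.LS
section
/-!
TASK CT LS. Assembly of section 2.
layer_bad: `ind (Con 1 p) ≤ ind Stay + ind (Con 1 p ∧ ¬ Stay)`, `0 ≤ ψ ≤ 1` a.e.; `KillPack.walk` for `n` and `n'`,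
`KillPack.diff`, `noret` with `y = 1`; finitely many `t` (`Filter.eventually_all_finset`).
pigeon: telescoping; if all differences were `< 1/nu κ` the limit would be `≥ p - ∑_{κ ≥ κ₀} 2^(-κ) > 0`.
exists_layer: enlarge `κ₀` (`≥ 4`, `4/2^κ₀ < p`), `star2` with `j = nu κ₀ ^ 22`, `exists_killPack`; `walk` with `n = 0`
gives `p ≤ ∫ φ j`. `ψ = φ n - φ n'`, `n = nu κ ^ 22`, `n' = nu (κ+1) ^ 22 ≤ nu κ ^ 44`, `u = ∫ ψ ≥ 1/nu κ`,
`good g := ∫ ψ (mv ω g) * ind (Con 1 g) ≤ u/4`. slow: Cauchy-Schwarz (or `|t| ≤ t²/(2η) + η/2`) and `energy`.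
bad: Markov over words. tie: `good W` forces `tau W < 1` (otherwise the integral is `u`); `escape` with `ε = u/4`;
`∫ ψ(x) ind(¬ Con x y) ≥ u - ∫ ψ(x) ind(Con x root) - P(Con x y ∧ ¬ Con x root)`; for the root `W` move by `W` and use
`W⁻¹ pw (take t) = (pw (drop t))⁻¹` (`pw_take_drop`).
-/

open MeasureTheory ProbabilityTheory Filter Topology
open scoped BigOperators ENNReal NNReal

namespace Pool.Agent.Work.MP_01d39a_al.Ct

variable {G : Type} [Group G]

theorem LS_ae {c : Ctx G} {X : Sys G} {Z : G → Set X.Ω} {φ : ℕ → X.Ω → ℝ} (hφ : KillPack c X Z φ)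
    {n n' : ℕ} (hn : n ≤ n') : ∀ᵐ ω ∂X.P, 0 ≤ φ n' ω ∧ φ n' ω ≤ φ n ω ∧ φ n ω ≤ 1 := by
  filter_upwards [hφ.nonneg n', ae_all_iff.2 hφ.anti] with ω h1 h2
  have h3 : Antitone fun n => φ n ω := antitone_nat_of_succ_le h2
  exact ⟨h1, h3 hn, (h3 (Nat.zero_le n)).trans_eq (hφ.zero ω)⟩

theorem LS_int {X : Sys G} {f : X.Ω → ℝ} (hm : Measurable f) (h : ∀ᵐ ω ∂X.P, 0 ≤ f ω ∧ f ω ≤ 1) :
    Integrable f X.P :=
  Integrable.of_bound hm.aestronglyMeasurable 1 (h.mono fun ω hω => by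
    rw [Real.norm_eq_abs, abs_of_nonneg hω.1]; exact hω.2)

theorem LS_int2 {X : Sys G} {f : X.Ω → ℝ} (hm : Measurable f) (h : ∀ᵐ ω ∂X.P, 0 ≤ f ω ∧ f ω ≤ 1)
    {E : X.Ω → Prop} (hE : MeasurableSet {ω | E ω}) : Integrable (fun ω => f ω * ind (E ω)) X.P :=
  LS_int (hm.mul (measurable_ind hE)) (h.mono fun _ hω =>
    ⟨mul_nonneg hω.1 (ind_nonneg _), mul_le_one₀ hω.2 (ind_nonneg _) (ind_le_one _)⟩)

theorem LS_split {X : Sys G} {f : X.Ω → ℝ} (hm : Measurable f)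
    (h : ∀ᵐ ω ∂X.P, 0 ≤ f ω ∧ f ω ≤ 1) {A B : X.Ω → Prop} (hA : MeasurableSet {ω | A ω})
    (hB : MeasurableSet {ω | B ω}) : ∫ ω, f ω * ind (A ω) ∂X.P ≤
      ∫ ω, f ω * ind (B ω) ∂X.P + X.P.real {ω | A ω ∧ ¬ B ω} := by
  have hAB : MeasurableSet {ω | A ω ∧ ¬ B ω} := hA.inter hB.compl
  rw [← integral_ind _ hAB, ← integral_add (LS_int2 hm h hB) (integrable_ind _ hAB)]
  refine integral_mono_ae (LS_int2 hm h hA) ((LS_int2 hm h hB).add (integrable_ind _ hAB))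
    (h.mono fun ω hω => ?_)
  by_cases h1 : A ω <;> by_cases h2 : B ω <;> simp [ind, h1, h2, hω.1, hω.2]

theorem LS_compl {X : Sys G} {f : X.Ω → ℝ} (hm : Measurable f)
    (h : ∀ᵐ ω ∂X.P, 0 ≤ f ω ∧ f ω ≤ 1) {A : X.Ω → Prop} (hA : MeasurableSet {ω | A ω}) :
    ∫ ω, f ω * ind (¬ A ω) ∂X.P = ∫ ω, f ω ∂X.P - ∫ ω, f ω * ind (A ω) ∂X.P := by
  rw [← integral_sub (LS_int hm h) (LS_int2 hm h hA)]
  simp only [ind_not, mul_sub, mul_one]

theorem LS_root {X : Sys G} {a : G} {Z : G → Set X.Ω} (f : X.Ω → ℝ) (r g : G) :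
    ∫ ω, f (X.mv ω (r * g)) * ind (Con X a Z ω (r * g) r) ∂X.P =
      ∫ ω, f (X.mv ω g) * ind (Con X a Z ω 1 g) ∂X.P := by
  rw [← X.int_mv r fun ω => f (X.mv ω g) * ind (Con X a Z ω 1 g)]
  simp only [X.mv_mul, con_mv, mul_one]
  congr 1
  ext ω
  rw [ind_congr ⟨Con.symm, Con.symm⟩]

theorem LS_nu (κ : ℕ) : 2 ^ κ ≤ nu κ := Nat.pow_le_pow_right two_pos (Nat.le_self_pow three_ne_zero κ)

theorem layer_bad [Countable G] {c : Ctx G} {X : Sys G} {Z : G → Set X.Ω} (hZ : Meas X Z)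
    (hc : Closed c X Z) {φ : ℕ → X.Ω → ℝ} (hφ : KillPack c X Z φ) {n n' : ℕ} (hn : n ≤ n') (L : ℕ)
    {ε : ℝ} (hε : 0 < ε) : ∀ᶠ K in atTop, ∀ t : ℕ, 1 ≤ t → t ≤ L →
      avgW t (fun w => ∫ ω, (φ n (X.mv ω (pw (c.gs K) w)) - φ n' (X.mv ω (pw (c.gs K) w))) *
        ind (Con X c.a Z ω 1 (pw (c.gs K) w)) ∂X.P) ≤ n' / t + ε := by
  have h1 : ∀ t ∈ Finset.Icc 1 L, ∀ᶠ K in atTop, (avgW t fun w =>
      ∫ ω, ind (Stay X c.a Z (c.gs K) ω w) * φ n (X.mv ω (pw (c.gs K) w)) ∂X.P) - (avgW t fun w =>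
      ∫ ω, ind (Stay X c.a Z (c.gs K) ω w) * φ n' (X.mv ω (pw (c.gs K) w)) ∂X.P) ≤
        n' / t + ε / 2 := fun t ht => ((hφ.walk n t).sub (hφ.walk n' t)).eventually_le_const
    (by linarith [hφ.diff n n' t hn (Finset.mem_Icc.1 ht).1])
  filter_upwards [(eventually_all_finset _).2 h1, noret hZ hc (ε := ε / (2 * (L + 1)))
    (by positivity)] with K h2 h3 t ht ht'
  have h4 := h2 t (Finset.mem_Icc.2 ⟨ht, ht'⟩)
  have h5 := h3 t 1
  have h6 : t * (ε / (2 * (L + 1))) ≤ ε / 2 := by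
    have : (t : ℝ) ≤ L := by exact_mod_cast ht'
    rw [mul_div_assoc', div_le_div_iff₀ (by positivity) two_pos]
    nlinarith
  rw [← avgW_sub] at h4
  refine le_trans (avgW_mono fun w _ => ?_) (((avgW_add t _ _).le.trans (add_le_add h4 h5)).trans
    (by linarith))
  have a1 := (X.mp (pw (c.gs K) w)).quasiMeasurePreserving.ae (LS_ae hφ hn)
  have a2 : ∀ m, Measurable fun ω => φ m (X.mv ω (pw (c.gs K) w)) := fun m =>
    (hφ.meas m).comp (X.meas_mv (pw (c.gs K) w))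
  have a3 := measurableSet_stay (a := c.a) hZ (c.gs K) w
  refine (LS_split ((a2 n).fun_sub (a2 n')) (a1.mono fun ω hω => ⟨sub_nonneg.2 hω.2.1,
    (sub_le_self _ hω.1).trans hω.2.2⟩) (measurableSet_con hZ 1 _) a3).trans_eq ?_
  simp only [sub_mul, mul_comm (ind _)]
  rw [integral_sub (LS_int2 (a2 n) (a1.mono fun ω hω => ⟨hω.1.trans hω.2.1, hω.2.2⟩) a3)
    (LS_int2 (a2 n') (a1.mono fun ω hω => ⟨hω.1, hω.2.1.trans hω.2.2⟩) a3)]

theorem pigeon {b : ℕ → ℝ} {p : ℝ} {κ₀ : ℕ} (h0 : 1 ≤ κ₀) (hp : 4 / 2 ^ κ₀ < p) (hb : p ≤ b κ₀)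
    (hl : Tendsto b atTop (𝓝 0)) : ∃ κ, κ₀ ≤ κ ∧ 1 / (nu κ : ℝ) ≤ b κ - b (κ + 1) := by
  by_contra! h
  have h1 : ∀ κ, κ₀ ≤ κ → p - 2 / 2 ^ κ₀ + 2 / 2 ^ κ ≤ b κ := fun κ hκ => by
    induction κ, hκ using Nat.le_induction with
    | base => linarith
    | succ κ hκ ih =>
      have h2 := h κ hκ
      have h3 : 1 / (nu κ : ℝ) ≤ 1 / 2 ^ κ :=
        one_div_le_one_div_of_le (by positivity) (by exact_mod_cast LS_nu κ)
      have h4 : (2 : ℝ) / 2 ^ (κ + 1) = 1 / 2 ^ κ := by field_simp; ring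
      have h5 : (2 : ℝ) / 2 ^ κ = 2 * (1 / 2 ^ κ) := by ring
      linarith
  have h2 : p - 2 / 2 ^ κ₀ ≤ 0 := ge_of_tendsto hl ((eventually_ge_atTop κ₀).mono fun κ hκ =>
    le_trans (le_add_of_nonneg_right (by positivity)) (h1 κ hκ))
  have h3 : (4 : ℝ) / 2 ^ κ₀ = 2 * (2 / 2 ^ κ₀) := by ring
  have h4 : (0 : ℝ) < 2 / 2 ^ κ₀ := by positivity
  linarith

theorem LS_slow [Countable G] {X : Sys G} {a γ : G} {Z : G → Set X.Ω} (hZ : Meas X Z)
    {ψ : X.Ω → ℝ} (hm : Measurable ψ) (h : ∀ᵐ ω ∂X.P, 0 ≤ ψ ω ∧ ψ ω ≤ 1) {v : ℝ} (hv : 0 < v) :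
    ∫ ω, (ind (Con X a Z ω 1 γ) * |ψ (X.mv ω γ) - ψ ω| +
      ind (¬ Con X a Z ω 1 γ) * (ψ ω + ψ (X.mv ω γ))) ∂X.P ≤
    v / 2 * ∫ ω, (ind (Con X a Z ω 1 γ) * (ψ (X.mv ω γ) - ψ ω) ^ 2 +
      ind (¬ Con X a Z ω 1 γ) * (ψ ω ^ 2 + ψ (X.mv ω γ) ^ 2)) ∂X.P + 1 / v := by
  have h1 := h.and ((X.mp γ).quasiMeasurePreserving.ae h)
  have h2 := measurable_ind (measurableSet_con (a := a) hZ 1 γ)
  have h3 : Measurable fun ω => ind (¬ Con X a Z ω 1 γ) :=
    measurable_ind (measurableSet_con (a := a) hZ 1 γ).compl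
  have h4 : Measurable fun ω => ψ (X.mv ω γ) := hm.comp (X.meas_mv γ)
  have h5 : Integrable (fun ω => ind (Con X a Z ω 1 γ) * (ψ (X.mv ω γ) - ψ ω) ^ 2 +
      ind (¬ Con X a Z ω 1 γ) * (ψ ω ^ 2 + ψ (X.mv ω γ) ^ 2)) X.P :=
    Integrable.of_bound ((h2.mul ((h4.sub hm).pow_const 2)).add (h3.mul ((hm.pow_const 2).add
      (h4.pow_const 2)))).aestronglyMeasurable 2 (h1.mono fun ω ⟨⟨a1, a2⟩, a3, a4⟩ => by
      by_cases e : Con X a Z ω 1 γ <;> simp only [ind, e, if_true, if_false, not_true, not_false_iff,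
        one_mul, zero_mul, add_zero, zero_add, Real.norm_eq_abs] <;>
      rw [abs_of_nonneg (by positivity)] <;> nlinarith)
  have h6 : 1 / v = ∫ _, 1 / v ∂X.P := by simp
  rw [h6, ← integral_const_mul, ← integral_add (h5.const_mul _) (integrable_const _)]
  refine integral_mono_of_nonneg (h1.mono fun ω ⟨⟨a1, _⟩, a3, _⟩ => add_nonneg
    (mul_nonneg (ind_nonneg _) (abs_nonneg _)) (mul_nonneg (ind_nonneg _) (add_nonneg a1 a3)))
    ((h5.const_mul _).add (integrable_const _)) (Eventually.of_forall fun ω => ?_)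
  have key : ∀ t : ℝ, t ≤ v / 2 * t ^ 2 + 1 / v / 2 := fun t => by
    have : v / 2 * t ^ 2 + 1 / v / 2 - t = (v * t - 1) ^ 2 / (2 * v) := by field_simp; ring
    have : 0 ≤ (v * t - 1) ^ 2 / (2 * v) := by positivity
    linarith
  have a1 := key |ψ (X.mv ω γ) - ψ ω|
  have a2 : 0 < 1 / v := by positivity
  rw [sq_abs] at a1
  by_cases e : Con X a Z ω 1 γ <;> simp only [ind, e, if_true, if_false, not_true, not_false_iff] <;>
    linarith [key (ψ ω), key (ψ (X.mv ω γ))]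

theorem exists_layer [Countable G] {c : Ctx G} {δ : ℝ} (hδ : 0 < δ) (H : Hyp c δ) (κ₀ : ℕ) :
    ∃ κ, κ₀ ≤ κ ∧ ∃ (X : Sys G) (ℓ : X.Ω → Bool) (good : G → Prop), LayerPack c κ X ℓ good := by
  obtain ⟨p, hp, hs⟩ := star2 hδ H
  obtain ⟨k, hk⟩ := pow_unbounded_of_one_lt (4 / p) (one_lt_two (α := ℝ))
  obtain ⟨X, Z, hZ, hc, h0, h1⟩ := hs (nu (κ₀ + 4 + k) ^ 22)
  obtain ⟨φ, hφ⟩ := exists_killPack c X hZ
  obtain ⟨κ, hκ, hu⟩ := pigeon (b := fun κ => ∫ ω, φ (nu κ ^ 22) ω ∂X.P) (p := p)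
    (κ₀ := κ₀ + 4 + k) (by omega) (by
      rw [div_lt_comm₀ (by positivity) hp]
      exact hk.trans_le (pow_le_pow_right₀ one_le_two (by omega))) (by
      have := hφ.walk 0 (nu (κ₀ + 4 + k) ^ 22)
      rw [zero_add] at this
      refine ge_of_tendsto' this fun K => (h1 K).trans_eq (avgW_congr fun w _ => ?_)
      simp only [hφ.zero, mul_one, integral_ind _ (measurableSet_stay hZ _ w)])
    ((hφ.lim h0).comp (tendsto_atTop_mono (fun κ => Nat.lt_two_pow_self.le.trans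
      ((LS_nu κ).trans (Nat.le_self_pow (by norm_num) _))) tendsto_id))
  refine ⟨κ, by omega, ?_⟩
  have hn : nu κ ^ 22 ≤ nu (κ + 1) ^ 22 := Nat.pow_le_pow_left (Nat.pow_le_pow_right two_pos
    (Nat.pow_le_pow_left κ.le_succ 3)) 22
  have hn' : nu (κ + 1) ^ 22 ≤ nu κ ^ 44 := by
    rw [show 44 = 2 * 22 from rfl, pow_mul, nu, nu, ← pow_mul 2 (κ ^ 3)]
    refine Nat.pow_le_pow_left (Nat.pow_le_pow_right two_pos ?_) 22
    obtain ⟨m, rfl⟩ := Nat.exists_eq_add_of_le (show 4 ≤ κ by omega)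
    nlinarith [Nat.zero_le m, Nat.zero_le (m ^ 2), Nat.zero_le (m ^ 3)]
  have hν : (1 : ℝ) ≤ nu κ := by exact_mod_cast Nat.one_le_two_pow
  have hb := layer_bad hZ hc hφ hn (ll κ) (ε := 1 / ll κ) (by unfold ll; push_cast; positivity)
  have he := hφ.energy _ _ hn
  have a0 := LS_ae hφ hn
  rw [← integral_sub (LS_int (hφ.meas _) (a0.mono fun ω hω => ⟨hω.1.trans hω.2.1, hω.2.2⟩))
    (LS_int (hφ.meas _) (a0.mono fun ω hω => ⟨hω.1, hω.2.1.trans hω.2.2⟩))] at hu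
  have hm := (hφ.meas (nu κ ^ 22)).fun_sub (hφ.meas (nu (κ + 1) ^ 22))
  have h01 : ∀ᵐ ω ∂X.P, 0 ≤ φ (nu κ ^ 22) ω - φ (nu (κ + 1) ^ 22) ω ∧
      φ (nu κ ^ 22) ω - φ (nu (κ + 1) ^ 22) ω ≤ 1 :=
    a0.mono fun ω hω => ⟨sub_nonneg.2 hω.2.1, (sub_le_self _ hω.1).trans hω.2.2⟩
  have ha : ∀ᵐ ω ∂X.P, φ (nu κ ^ 22) (X.mv ω c.a) - φ (nu (κ + 1) ^ 22) (X.mv ω c.a) =
      φ (nu κ ^ 22) ω - φ (nu (κ + 1) ^ 22) ω := by
    filter_upwards [hφ.ainv (nu κ ^ 22), hφ.ainv (nu (κ + 1) ^ 22)] with ω e1 e2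
    rw [e1, e2]
  obtain ⟨ψ, hψ⟩ : ∃ ψ : X.Ω → ℝ, ∀ ω, φ (nu κ ^ 22) ω - φ (nu (κ + 1) ^ 22) ω = ψ ω :=
    ⟨_, fun _ => rfl⟩
  simp only [hψ] at hu hb he hm h01 ha
  obtain ⟨Y, ℓ, l1, l2, l3, l4⟩ := layer_core c.a X hZ hm h01 ha
  obtain ⟨u, hu'⟩ : ∃ u, u = ∫ ω, ψ ω ∂X.P := ⟨_, rfl⟩
  rw [← hu'] at hu
  have hu0 : 0 < u := lt_of_lt_of_le (by positivity) hu
  have m1 : ∀ x, Measurable fun ω => ψ (X.mv ω x) := fun x => hm.comp (X.meas_mv x)
  have m2 : ∀ x, ∀ᵐ ω ∂X.P, 0 ≤ ψ (X.mv ω x) ∧ ψ (X.mv ω x) ≤ 1 := fun x =>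
    (X.mp x).quasiMeasurePreserving.ae h01
  refine ⟨Y, ℓ, fun g => ∫ ω, ψ (X.mv ω g) * ind (Con X c.a Z ω 1 g) ∂X.P ≤ u / 4, l1, l2,
    fun γ hγ => ?_, hb.mono fun K hK t ht ht' => ?_, fun K w hw s₁ => ?_⟩
  · have hs : (1 : ℝ) ≤ c.S.card := by exact_mod_cast c.ne.card_pos
    have hv : (0 : ℝ) < (nu κ : ℝ) ^ 11 := by positivity
    have b1 : (8 * c.S.card / (2 * (nu κ ^ 22 : ℕ) + 1) : ℝ) ≤
        4 * c.S.card / ((nu κ : ℝ) ^ 11) ^ 2 := by
      push_cast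
      rw [div_le_div_iff₀ (by positivity) (by positivity), ← pow_mul, show 11 * 2 = 22 from rfl]
      linarith
    have b2 := mul_le_mul_of_nonneg_left ((he γ hγ).trans b1) (half_pos hv).le
    refine (l3 γ).trans ((LS_slow hZ hm h01 hv).trans ((add_le_add_left b2 _).trans ?_))
    generalize (nu κ : ℝ) ^ 11 = v at hv ⊢
    field_simp
    linarith
  · have b1 : (0 : ℝ) < t := by exact_mod_cast ht
    have b2 : ((nu (κ + 1) ^ 22 : ℕ) : ℝ) / t ≤ (nu κ : ℝ) ^ 44 / t :=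
      div_le_div_of_nonneg_right (by exact_mod_cast hn') b1.le
    have b3 : 1 / (ll κ : ℝ) ≤ (nu κ : ℝ) ^ 44 / t :=
      div_le_div₀ (by positivity) (one_le_pow₀ hν) b1 (by exact_mod_cast ht')
    have b4 := mul_le_mul_of_nonneg_left ((hK t ht ht').trans (add_le_add b2 b3))
      (by positivity : (0 : ℝ) ≤ 4 * nu κ)
    rw [← avgW_mul_left] at b4
    refine (avgW_mono fun w _ => ?_).trans (b4.trans_eq (by ring))
    have b5 : 0 ≤ ∫ ω, ψ (X.mv ω (pw (c.gs K) w)) * ind (Con X c.a Z ω 1 (pw (c.gs K) w)) ∂X.P :=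
      integral_nonneg_of_ae ((m2 _).mono fun ω hω => mul_nonneg hω.1 (ind_nonneg _))
    generalize ∫ ω, ψ (X.mv ω (pw (c.gs K) w)) * ind (Con X c.a Z ω 1 (pw (c.gs K) w)) ∂X.P = y
      at b5 ⊢
    by_cases e : y ≤ u / 4
    · rw [ind_neg (not_not.2 e)]
      positivity
    · rw [div_le_iff₀ (by positivity)] at hu
      have := mul_le_mul_of_nonneg_left (not_le.1 e).le (by positivity : (0 : ℝ) ≤ 4 * nu κ)
      rw [ind_pos e]
      linarith
  · obtain ⟨N, hN, hN'⟩ := escape hZ hc K w (by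
      have b1 := LS_compl (m1 (pw (c.gs K) w)) (m2 _)
        (measurableSet_con (a := c.a) hZ 1 (pw (c.gs K) w))
      have b2 := LS_split (m1 (pw (c.gs K) w)) (m2 _) (B := fun _ => False)
        (A := fun ω => ¬ Con X c.a Z ω 1 (pw (c.gs K) w)) (measurableSet_con (a := c.a) hZ 1 (pw (c.gs K) w)).compl (by simp)
      have b3 := probReal_add_probReal_compl (μ := X.P)
        (measurableSet_con (a := c.a) hZ 1 (pw (c.gs K) w))
      rw [X.int_mv _ ψ, ← hu'] at b1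
      simp only [ind_neg not_false, mul_zero, integral_zero, not_false_iff, and_true] at b2
      unfold tau
      change _ ≤ _ + X.P.real {ω | Con X c.a Z ω 1 (pw (c.gs K) w)}ᶜ at b2
      linarith) s₁ (ε := u / 4) (by positivity)
    refine ⟨N, hN, fun b j q hj hq t t' g1 g2 => le_trans ?_ (l4 _ _)⟩
    have b1 := LS_compl (m1 (pw (c.gs K) (w.take t))) (m2 _)
      (measurableSet_con (a := c.a) hZ (pw (c.gs K) (w.take t)) (q * pw (c.gs K) (w.take t')))
    have b2 := LS_split (m1 (pw (c.gs K) (w.take t))) (m2 _)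
      (measurableSet_con (a := c.a) hZ (pw (c.gs K) (w.take t)) (q * pw (c.gs K) (w.take t')))
      (measurableSet_con (a := c.a) hZ (pw (c.gs K) (w.take t)) (if b then 1 else pw (c.gs K) w))
    have b3 := hN' b j q hj hq t t'
    have b4 : ∫ ω, ψ (X.mv ω (pw (c.gs K) (w.take t))) * ind (Con X c.a Z ω
        (pw (c.gs K) (w.take t)) (if b then 1 else pw (c.gs K) w)) ∂X.P ≤ u / 4 := by
      cases b
      · rw [← LS_root ψ (pw (c.gs K) w), ← pw_take_drop w t, mul_inv_cancel_right,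
          pw_take_drop] at g2
        exact g2
      · rw [← LS_root ψ 1, one_mul] at g1
        exact g1
    have b5 : 1 / (8 * (nu κ : ℝ)) = 1 / 8 * (1 / nu κ) := by field_simp
    rw [X.int_mv _ ψ, ← hu'] at b1
    linarith

end Pool.Agent.Work.MP_01d39a_al.Ct
end

-- merged part: Pool.Agent.Work.MP_01d39a_al.Ct.DSm
section
/-!
TASK CT DSm. The deletion step. `c₀`, `Cm` from `height_pack`, `cs = c₀²/64`. Given `γ`, `θ`, `ε` collect the eventual
statements in `κ` (`height_pack`, `gainA`, `par_theta`, `par_trials`, `8 ≤ c₀ κ²`, `(c₀κ²/8)² ≤ ν³`, `1/ν ≤ ε`,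
`Cs/κ + 8|S|/ν² ≤ ε`), get `κ₀` (`Filter.eventually_atTop`), `exists_layer`, `exists_heights` with `x₀ = 1/l^8`, then `K` from
`HtPack.mom`, `gainA` and `ν^10 l^4/(2K+1) ≤ c₀²/64`. `gainB` with `X = X₁.prod (X₂.pi (ν^9))`, `q = c₀κ²/4`, `Qm = κ²/c₀`, `D = ν³`,
`εh = c₀²/16`, `W = ν^5`, `m = Cm κ²`, `θ₁ = 1/ν^6` (`CnSpec` via `topJ_of_lam`, `cnt_mono`). System `sysY`, `Z₁ = zOne`, `Z₂ = zTwo`;
`dens zOne ≤ W θ₁` (`bern_coord`, `ENNReal.tsum_comm` or a finite support argument), slowness by `lamJ_slow`.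
-/

open MeasureTheory ProbabilityTheory Filter Topology
open scoped BigOperators ENNReal NNReal

namespace Pool.Agent.Work.MP_01d39a_al.Ct

variable {G : Type} [Group G]

theorem DSm_coord (X : Sys G) (W : ℕ) {θ₁ : ℝ} (h0 : 0 ≤ θ₁) (h1 : θ₁ ≤ 1) (θ : ℝ) (i : Fin W) :
    (sysY X W θ₁ θ).P {p | p.2.1 i 1 = true} = ENNReal.ofReal θ₁ := by
  have hm : MeasurePreserving (fun p : (sysY X W θ₁ θ).Ω => p.2.1 i) (sysY X W θ₁ θ).P
      (bern G θ₁) :=
    (measurePreserving_eval (fun _ : Fin W => bern G θ₁) i).comp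
      (measurePreserving_fst.comp measurePreserving_snd)
  have h := hm.measure_preimage (Ber_meas_one (1 : G)).nullMeasurableSet
  have h2 := bern_coord (V := G) h0 h1 1
  rw [measureReal_def] at h2
  refine Eq.trans h ?_
  exact (ENNReal.ofReal_toReal (measure_ne_top _ _)).symm.trans (congrArg ENNReal.ofReal h2)

theorem dens_zOne (c : Ctx G) (K : ℕ) (X : Sys G) (W : ℕ) {θ₁ : ℝ} (h0 : 0 ≤ θ₁) (h1 : θ₁ ≤ 1) (θ : ℝ)
    (ws : Fin W → List (Step c K)) :
    dens (sysY X W θ₁ θ) (zOne c K X W θ₁ θ ws) ≤ ENNReal.ofReal (W * θ₁) := by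
  classical
  unfold dens
  calc ∑' g, (sysY X W θ₁ θ).P (zOne c K X W θ₁ θ ws g)
      ≤ ∑' g, ∑ i : Fin W, (if g = pw (c.gs K) (ws i) then ENNReal.ofReal θ₁ else 0) := by
        refine ENNReal.tsum_le_tsum fun g => ?_
        have hsub : zOne c K X W θ₁ θ ws g ⊆
            ⋃ i : Fin W, {p | g = pw (c.gs K) (ws i) ∧ p.2.1 i 1 = true} := by
          rintro p ⟨i, hi, hp⟩
          exact Set.mem_iUnion.2 ⟨i, hi.symm, hp⟩
        refine (measure_mono hsub).trans ((measure_iUnion_fintype_le _ _).trans ?_)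
        refine Finset.sum_le_sum fun i _ => ?_
        split_ifs with h
        · refine le_trans (measure_mono ?_) (DSm_coord X W h0 h1 θ i).le
          exact fun p hp => hp.2
        · have : {p : (sysY X W θ₁ θ).Ω | g = pw (c.gs K) (ws i) ∧ p.2.1 i 1 = true} = ∅ :=
            Set.eq_empty_of_forall_notMem fun p hp => h hp.1
          rw [this, measure_empty]
    _ = ∑ i : Fin W, ∑' g, (if g = pw (c.gs K) (ws i) then ENNReal.ofReal θ₁ else 0) :=
        Summable.tsum_finsetSum fun _ _ => ENNReal.summable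
    _ = ENNReal.ofReal (W * θ₁) := by
        simp only [tsum_ite_eq, Finset.sum_const, Finset.card_univ, Fintype.card_fin,
          nsmul_eq_mul]
        rw [ENNReal.ofReal_mul (Nat.cast_nonneg W), ENNReal.ofReal_natCast]

theorem DSm_meas1 (c : Ctx G) (K : ℕ) (X : Sys G) (W : ℕ) (θ₁ θ : ℝ)
    (ws : Fin W → List (Step c K)) : Meas (sysY X W θ₁ θ) (zOne c K X W θ₁ θ ws) := by
  intro g
  have : zOne c K X W θ₁ θ ws g =
      ⋃ i : Fin W, {p | pw (c.gs K) (ws i) = g} ∩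
        (fun p : (sysY X W θ₁ θ).Ω => p.2.1 i) ⁻¹' {σ | σ 1 = true} := by
    ext p
    simp only [zOne, Set.mem_ofPred_eq, Set.mem_iUnion, Set.mem_inter_iff, Set.mem_preimage]
  rw [this]
  refine MeasurableSet.iUnion fun i => (MeasurableSet.const _).inter ?_
  exact ((measurable_pi_apply i).comp (measurable_fst.comp measurable_snd)) (Ber_meas_one (1 : G))

theorem DSm_spr (c : Ctx G) (g : G) : MeasurableSet (spr c g) :=
  (MeasurableSet.const (g ∈ c.S)).inter (Ber_meas_one ((1 : G), g))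

theorem DSm_meas2 (c : Ctx G) (X : Sys G) (W : ℕ) (θ₁ θ : ℝ) :
    Meas (sysY X W θ₁ θ) (zTwo c X W θ₁ θ) := fun g =>
  (measurable_snd.comp measurable_snd) (DSm_spr c g)

theorem DSm_supp2 (c : Ctx G) (X : Sys G) (W : ℕ) (θ₁ θ : ℝ) :
    Supp (sysY X W θ₁ θ) c.S (zTwo c X W θ₁ θ) := fun _ hg =>
  Set.eq_empty_of_forall_notMem fun _ hp => hg hp.1

theorem DSm_dens2 (c : Ctx G) (X : Sys G) (W : ℕ) (θ₁ : ℝ) {θ : ℝ} (h0 : 0 ≤ θ) (h1 : θ ≤ 1)
    (g : G) : (sysY X W θ₁ θ).P.real (zTwo c X W θ₁ θ g) ≤ θ := by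
  have hm : MeasurePreserving (fun p : (sysY X W θ₁ θ).Ω => p.2.2) (sysY X W θ₁ θ).P
      (bern (G × G) θ) := measurePreserving_snd.comp measurePreserving_snd
  have h := hm.measureReal_preimage (DSm_spr c g).nullMeasurableSet
  refine le_trans (le_of_eq h) ?_
  refine le_trans (measureReal_mono ?_) (bern_coord (V := G × G) h0 h1 (1, g)).le
  exact fun σ hσ => hσ.2

theorem DSm_num {c₀ θ κ ν : ℝ} {m W : ℕ} {r : ℝ} (hc : 0 < c₀) (hκ : 0 < κ) (hν : 0 < ν)
    (h0 : 0 ≤ θ) (h1 : θ ≤ 1) (h8 : 8 ≤ c₀ * κ ^ 2) (hD : (c₀ * κ ^ 2 / 4 / 2) ^ 2 ≤ ν ^ 3)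
    (hθ : 1 / ν ≤ θ ^ (2 * m))
    (ht : ∀ x : ℝ, 1 / ν ^ 4 ≤ x → x ≤ 1 → (1 - x) ^ W ≤ 1 / 2) (hr : r ≤ c₀ ^ 2 / 64) :
    c₀ ^ 2 / 64 ≤ (c₀ * κ ^ 2 / 4 / (2 * (κ ^ 2 / c₀)) - c₀ ^ 2 / 16) *
      (1 - (1 - (c₀ * κ ^ 2 / 4 / 2) ^ 2 / ν ^ 3 * θ ^ (2 * m)) ^ W) - r := by
  have e1 : c₀ * κ ^ 2 / 4 / (2 * (κ ^ 2 / c₀)) - c₀ ^ 2 / 16 = c₀ ^ 2 / 16 := by
    field_simp
    ring
  have hν3 : 0 < ν ^ 3 := by positivity
  have a1 : 1 / ν ^ 3 ≤ (c₀ * κ ^ 2 / 4 / 2) ^ 2 / ν ^ 3 := by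
    refine div_le_div_of_nonneg_right ?_ hν3.le
    exact one_le_pow₀ (by linarith)
  have a2 : (c₀ * κ ^ 2 / 4 / 2) ^ 2 / ν ^ 3 ≤ 1 := (div_le_one hν3).2 hD
  have a3 : θ ^ (2 * m) ≤ 1 := pow_le_one₀ h0 h1
  have hx := ht ((c₀ * κ ^ 2 / 4 / 2) ^ 2 / ν ^ 3 * θ ^ (2 * m)) (by
    calc 1 / ν ^ 4 = 1 / ν ^ 3 * (1 / ν) := by field_simp
      _ ≤ _ := mul_le_mul a1 hθ (by positivity) (by positivity))
    (mul_le_one₀ a2 (by positivity) a3)
  rw [e1]
  have : 0 ≤ c₀ ^ 2 := by positivity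
  (clear * - hr hx; nlinarith)

theorem DSm_K (A : ℝ) {r : ℝ} (hr : 0 < r) : ∀ᶠ K : ℕ in atTop, A / (2 * K + 1) ≤ r := by
  filter_upwards [eventually_ge_atTop ⌈A / r⌉₊] with K hK
  have h1 : A / r ≤ K := (Nat.le_ceil _).trans (by exact_mod_cast hK)
  have h2 : (0 : ℝ) ≤ K := Nat.cast_nonneg K
  rw [div_le_iff₀ hr] at h1
  rw [div_le_iff₀ (by positivity)]
  nlinarith

theorem DSm_kap (A : ℝ) {r : ℝ} (hr : 0 < r) : ∀ᶠ κ : ℕ in atTop, A ≤ r * κ := by
  filter_upwards [eventually_ge_atTop ⌈A / r⌉₊] with K hK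
  have h1 : A / r ≤ K := (Nat.le_ceil _).trans (by exact_mod_cast hK)
  rw [div_le_iff₀ hr] at h1
  linarith

theorem ds_of_hyp [Countable G] {c : Ctx G} (hc : HC G) {δ : ℝ} (hδ : 0 < δ) (H : Hyp c δ) :
    DS c := by
  obtain ⟨c₀, hc0, hc1, Cm, hHP⟩ := height_pack c
  refine ⟨c₀ ^ 2 / 64, by positivity, fun γ hγ θ hθ0 hθ1 ε hε => ?_⟩
  obtain ⟨κ₀, hκ₀⟩ := eventually_atTop.1 (hHP.and ((gainA hc c).and ((par_theta hθ0 Cm).and
    (par_trials.and ((DSm_kap 8 hc0).and ((nu_big 4 1).and ((nu_big 0 (1 / ε)).and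
      ((DSm_kap c.Cs (half_pos hε)).and ((nu_big 0 (8 * c.S.card / (ε / 2))).and
        (eventually_ge_atTop 1))))))))))
  obtain ⟨κ, hκ, X₂, ℓ, good, hL⟩ := exists_layer hδ H κ₀
  obtain ⟨k1, k2, k3, k4, k5, k6, k7, k8, k9, k10⟩ := hκ₀ κ hκ
  have hκ1 : (1 : ℝ) ≤ κ := by exact_mod_cast k10
  have hκp : (0 : ℝ) < κ := by linarith
  have hν1 : (1 : ℝ) ≤ nu κ := by exact_mod_cast Par1_nu κ
  have hνp : (0 : ℝ) < nu κ := by linarith
  have hl1 := Par1_ll1 κ
  obtain ⟨X₁, z, hz⟩ := exists_heights hδ H (x₀ := 1 / (ll κ : ℝ) ^ 8) (by positivity) hκp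
  obtain ⟨K, hK1, hK2, hK3⟩ := (hz.mom.and ((k2 X₂ ℓ good hL).and
    (DSm_K (((nu κ ^ 5 : ℕ) : ℝ) ^ 2 * (ll κ : ℝ) ^ 4)
      (show (0 : ℝ) < c₀ ^ 2 / 64 by positivity)))).exists
  obtain ⟨Cn, hCn⟩ := k1 K X₁ z hK1 ⟨γ, hγ⟩
  have hzm : Measurable z := hK1.meas
  have hj : Measurable fun ω => ⌊z ω / (κ : ℝ)⌋ := Int.measurable_floor.comp (hzm.div_const _)
  have hja : ∀ ω, (fun ω => ⌊z ω / (κ : ℝ)⌋) (X₁.mv ω c.a) = (fun ω => ⌊z ω / (κ : ℝ)⌋) ω :=
    fun ω => by simp only [hz.ainv ω]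
  set j : X₁.Ω → ℤ := fun ω => ⌊z ω / (κ : ℝ)⌋ with hjdef
  have hq := hK2 X₁ j hj hja ⟨γ, hγ⟩ Cn c₀ Cm hc0 hCn
  have hlam : Measurable (lamJ X₁ X₂ (nu κ ^ 9) j ℓ) := measurable_lamJ hj hL.meas
  have hainv : ∀ ω, lamJ X₁ X₂ (nu κ ^ 9) j ℓ ((X₁.prod (X₂.pi (nu κ ^ 9))).mv ω c.a) =
      lamJ X₁ X₂ (nu κ ^ 9) j ℓ ω := fun ω =>
    (lamJ_eq_iff _ _).2 ⟨hja ω.1, fun i => hL.ainv (ω.2 i)⟩
  have hs : CnSpec c K (X₁.prod (X₂.pi (nu κ ^ 9))) (lamJ X₁ X₂ (nu κ ^ 9) j ℓ) ⟨γ, hγ⟩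
      (fun ω => Cn ω.1) (ll κ) (Cm * κ ^ 2) :=
    { mlam := hlam
      ainv := hainv
      meas := fun w t => measurable_fst (hCn.meas w t)
      spec := fun ω w t _ h => by
        obtain ⟨a1, a2, a3, a4⟩ := hCn.spec ω.1 w t h
        exact ⟨a1, a2, a3, (cnt_mono fun i _ hi => topJ_of_lam _ ω w hi).trans a4⟩ }
  have h8 : 8 ≤ c₀ * (κ : ℝ) ^ 2 := by (clear * - hc1 k5; nlinarith)
  have hD : (c₀ * (κ : ℝ) ^ 2 / 4 / 2) ^ 2 ≤ (nu κ : ℝ) ^ 3 := by
    have b1 : c₀ * (κ : ℝ) ^ 2 / 4 / 2 ≤ (κ : ℝ) ^ 2 := by nlinarith [sq_nonneg (κ : ℝ)]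
    have b2 : (c₀ * (κ : ℝ) ^ 2 / 4 / 2) ^ 2 ≤ ((κ : ℝ) ^ 2) ^ 2 :=
      pow_le_pow_left₀ (by positivity) b1 2
    have b3 : (nu κ : ℝ) ≤ (nu κ : ℝ) ^ 3 := le_self_pow₀ hν1 (by norm_num)
    (clear * - b2 b3 k6; nlinarith)
  have hload : (X₁.prod (X₂.pi (nu κ ^ 9))).P.real {ω | (nu κ : ℝ) ^ 3 < avgW (ll κ) fun w =>
      (cnt (ll κ) fun t => (fun ω : (X₁.prod (X₂.pi (nu κ ^ 9))).Ω => Cn ω.1)
        ((X₁.prod (X₂.pi (nu κ ^ 9))).mv ω (c.base K w t)⁻¹) w t) ^ 2} ≤ c₀ ^ 2 / 16 := by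
    refine le_trans (le_of_eq ?_) hCn.load
    refine (fac_fst X₁ (X₂.pi (nu κ ^ 9))).real (A := {ω | (nu κ : ℝ) ^ 3 < avgW (ll κ) fun w =>
      (cnt (ll κ) fun t => Cn (X₁.mv ω (c.base K w t)⁻¹) w t) ^ 2}) ?_
    refine measurableSet_lt measurable_const (measurable_avgW fun w => ?_)
    refine Measurable.pow_const ?_ 2
    unfold cnt
    exact Finset.measurable_sum _ fun t _ => measurable_ind (X₁.meas_mv _ (hCn.meas w t))
  obtain ⟨ws, hws⟩ := gainB hs (nu κ ^ 5) (1 / (nu κ : ℝ) ^ 6) (θ := θ) (q := c₀ * κ ^ 2 / 4)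
    (Qm := κ ^ 2 / c₀) (D := (nu κ : ℝ) ^ 3) (εh := c₀ ^ 2 / 16) hθ0.le hθ1 (by positivity)
    (by positivity) (by positivity) hD hq (fun ω => hCn.qmax ω.1) hload
  refine ⟨sysY (X₁.prod (X₂.pi (nu κ ^ 9))) (nu κ ^ 5) (1 / (nu κ : ℝ) ^ 6) θ,
    fun p => lamJ X₁ X₂ (nu κ ^ 9) j ℓ p.1, zOne c K _ _ _ θ ws, zTwo c _ _ _ θ,
    hlam.comp measurable_fst, DSm_meas1 c K _ _ _ θ ws, DSm_meas2 c _ _ _ θ,
    DSm_supp2 c _ _ _ θ, DSm_dens2 c _ _ _ hθ0.le hθ1, ?_, fun g hg => ?_,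
    fun p => hainv p.1, ?_⟩
  · refine (dens_zOne c K _ _ (by positivity) ?_ θ ws).trans (ENNReal.ofReal_le_ofReal ?_)
    · exact (div_le_one (by positivity)).2 (one_le_pow₀ hν1)
    · have e : ((nu κ ^ 5 : ℕ) : ℝ) * (1 / (nu κ : ℝ) ^ 6) = 1 / nu κ := by
        push_cast
        field_simp
      rw [e, div_le_iff₀ hνp]
      rw [pow_zero, mul_one, div_le_iff₀ hε] at k7
      linarith
  · have hA : MeasurableSet {ω | lamJ X₁ X₂ (nu κ ^ 9) j ℓ
        ((X₁.prod (X₂.pi (nu κ ^ 9))).mv ω g) ≠ lamJ X₁ X₂ (nu κ ^ 9) j ℓ ω} :=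
      (measurableSet_eq_fun (hlam.comp ((X₁.prod (X₂.pi (nu κ ^ 9))).meas_mv g)) hlam).compl
    refine le_trans (le_of_eq ((fac_fst (X₁.prod (X₂.pi (nu κ ^ 9))) _).real hA)) ?_
    refine (lamJ_slow hj hL.meas g).trans ?_
    have s1 : X₁.P.real {ω | j (X₁.mv ω g) ≠ j ω} ≤ ε / 2 :=
      (hz.slow g hg).trans ((div_le_iff₀ hκp).2 k8)
    have s2 : ((nu κ ^ 9 : ℕ) : ℝ) * X₂.P.real {ω | ℓ (X₂.mv ω g) ≠ ℓ ω} ≤ ε / 2 := by
      refine (mul_le_mul_of_nonneg_left (hL.slow g hg) (Nat.cast_nonneg _)).trans ?_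
      have e : ((nu κ ^ 9 : ℕ) : ℝ) * (8 * c.S.card / (nu κ : ℝ) ^ 11) =
          8 * c.S.card / (nu κ : ℝ) ^ 2 := by
        push_cast
        field_simp
      rw [e, div_le_iff₀ (by positivity)]
      rw [pow_zero, mul_one, div_le_iff₀ (half_pos hε)] at k9
      have b3 : (nu κ : ℝ) ≤ (nu κ : ℝ) ^ 2 := le_self_pow₀ hν1 (by norm_num)
      (clear * - hν1 k9; nlinarith)
    linarith
  · exact (DSm_num hc0 hκp hνp hθ0.le hθ1 h8 hD k3 k4 hK3).trans hws

end Pool.Agent.Work.MP_01d39a_al.Ct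
end

-- merged part: Pool.Agent.Work.MP_01d39a_al.Ct.DSc
section
/-!
Section 0: the deletion step contradicts `Hyp`.
-/

open MeasureTheory ProbabilityTheory Filter Topology
open scoped BigOperators ENNReal NNReal

namespace Pool.Agent.Work.MP_01d39a_al.Ct

variable {G : Type} [Group G]

theorem DSc_all (c : Ctx G) {X : Sys G} {Z : G → Set X.Ω} {ω : X.Ω}
    (h : ∀ x, ∀ g ∈ c.S, Con X c.a Z ω x (x * g)) (g : G) : Con X c.a Z ω 1 g := by
  have hg : g ∈ Subgroup.closure (c.S : Set G) := c.gen ▸ Subgroup.mem_top g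
  induction hg using Subgroup.closure_induction_right with
  | one => exact Con.refl 1
  | mul_right x _ y hy ih => exact ih.trans (h x y hy)
  | mul_inv_cancel x _ y hy ih => exact ih.trans (h x _ (c.sym y hy))

theorem DSc_len (c : Ctx G) (x : G) : ∃ n : ℕ, ∀ (Y : Sys G) (lam : Y.Ω → ℤ) (ε : ℝ),
    (∀ g ∈ c.S, Y.P.real {ω | lam (Y.mv ω g) ≠ lam ω} ≤ ε) →
      Y.P.real {ω | lam (Y.mv ω x) ≠ lam ω} ≤ n * ε := by
  have key : ∀ (x y : G), y ∈ c.S → ∀ n : ℕ, ∀ (Y : Sys G) (lam : Y.Ω → ℤ) (ε : ℝ),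
      (∀ g ∈ c.S, Y.P.real {ω | lam (Y.mv ω g) ≠ lam ω} ≤ ε) →
      Y.P.real {ω | lam (Y.mv ω x) ≠ lam ω} ≤ n * ε →
      Y.P.real {ω | lam (Y.mv ω (x * y)) ≠ lam ω} ≤ (n + 1 : ℕ) * ε := by
    intro x y hy n Y lam ε h1 h2
    have h3 := (Y.pre_real x fun ω => lam (Y.mv ω y) ≠ lam ω).trans_le (h1 y hy)
    refine (measureReal_mono (fun ω hω => ?_)).trans ((measureReal_union_le _ _).trans
      ((add_le_add h2 h3).trans_eq (by push_cast; ring)))
    by_contra hn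
    simp only [Set.mem_union, Set.mem_ofPred_eq, not_or, not_not, Y.mv_mul] at hn
    exact hω (hn.2.trans hn.1)
  have hx : x ∈ Subgroup.closure (c.S : Set G) := c.gen ▸ Subgroup.mem_top x
  induction hx using Subgroup.closure_induction_right with
  | one => exact ⟨0, fun Y lam ε _ => by simp [Y.mv_one]⟩
  | mul_right x _ y hy ih =>
    obtain ⟨n, hn⟩ := ih
    exact ⟨n + 1, fun Y lam ε h => key x y hy n Y lam ε h (hn Y lam ε h)⟩
  | mul_inv_cancel x _ y hy ih =>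
    obtain ⟨n, hn⟩ := ih
    exact ⟨n + 1, fun Y lam ε h => key x _ (c.sym y hy) n Y lam ε h (hn Y lam ε h)⟩

theorem DSc_small {Ω ι : Type} [MeasurableSpace Ω] (P : Measure Ω) [IsProbabilityMeasure P]
    [Preorder ι] [Countable ι] {s : ι → Set Ω} (hs : ∀ i, MeasurableSet (s i)) (hm : Antitone s)
    (i₀ : ι) (h : P (⋂ i, s i) = 0) {e : ℝ} (he : 0 < e) : ∀ᶠ i in atTop, P.real (s i) ≤ e := by
  have h1 := tendsto_measure_iInter_atTop (μ := P) (fun i => (hs i).nullMeasurableSet) hm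
    ⟨i₀, measure_ne_top _ _⟩
  rw [h] at h1
  exact ((ENNReal.tendsto_toReal ENNReal.zero_ne_top).comp h1).eventually
    (eventually_le_nhds (by simpa using he))

variable [Countable G]

theorem DSc_dep {X : Sys G} {a : G} {f : X.Ω → ℤ} (hf : Measurable f) {Z : ℤ → G → Set X.Ω}
    (hZ : ∀ n, Meas X (Z n)) (x y : G) : MeasurableSet {ω | Con X a (Z (f ω)) ω x y} := by
  have : {ω | Con X a (Z (f ω)) ω x y} = ⋃ n, f ⁻¹' {n} ∩ {ω | Con X a (Z n) ω x y} := by
    ext ω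
    simp
  rw [this]
  exact MeasurableSet.iUnion fun n => (hf (measurableSet_singleton n)).inter
    (measurableSet_con (hZ n) x y)

omit [Countable G] in
theorem DSc_lab {X : Sys G} {lam : X.Ω → ℤ} (h : Measurable lam) (g : G) :
    Measurable fun ω => max (lam ω) (lam (X.mv ω g)) := h.max (h.comp (X.meas_mv g))

theorem DSc_fin {X : Sys G} {a : G} {Z : G → Set X.Ω} (hZ : Meas X Z)
    (hc : ∀ᵐ ω ∂X.P, ∀ g, Con X a Z ω 1 g) (g : G) {e : ℝ} (he : 0 < e) :
    ∀ᶠ F : Finset G in atTop, ∃ A, MeasurableSet A ∧ X.P.real A ≤ e ∧ ∀ ω ∉ A,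
      Relation.EqvGen (fun x y => x ∈ F ∧ y ∈ F ∧ Adj X a Z ω x y) 1 g := by
  classical
  have mono : ∀ ω (F F' : Finset G), F ⊆ F' → ∀ x y,
      Relation.EqvGen (fun x y => x ∈ F ∧ y ∈ F ∧ Adj X a Z ω x y) x y →
      Relation.EqvGen (fun x y => x ∈ F' ∧ y ∈ F' ∧ Adj X a Z ω x y) x y :=
    fun ω F F' h x y => eqvGen_map id (Relation.EqvGen.is_equivalence _) fun x y b =>
      .rel _ _ ⟨h b.1, h b.2.1, b.2.2⟩
  have m : ∀ F : Finset G, MeasurableSet
      {ω | Relation.EqvGen (fun x y => x ∈ F ∧ y ∈ F ∧ Adj X a Z ω x y) 1 g}ᶜ := fun F =>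
    (measurableSet_eqvGen (fun x y => (MeasurableSet.const _).inter ((MeasurableSet.const _).inter
      ((MeasurableSet.const _).union ((hZ _).preimage (X.meas_mv x))))) 1 g).compl
  refine (DSc_small X.P m (fun F F' h ω a b => a (mono ω F F' h _ _ b)) ∅
    (measure_mono_null (t := {ω | ¬ ∀ g, Con X a Z ω 1 g}) ?_ hc) he).mono
    fun F hF => ⟨_, m F, hF, fun ω => not_not.1⟩
  intro ω hω h
  obtain ⟨F, hF⟩ := eqvGen_map (s := fun x y => ∃ F : Finset G,
      Relation.EqvGen (fun x y => x ∈ F ∧ y ∈ F ∧ Adj X a Z ω x y) x y) id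
    ⟨fun x => ⟨∅, .refl _⟩, fun ⟨F, h⟩ => ⟨F, .symm _ _ h⟩, fun ⟨F, h⟩ ⟨F', h'⟩ =>
      ⟨F ∪ F', .trans _ _ _ (mono ω _ _ Finset.subset_union_left _ _ h)
        (mono ω _ _ Finset.subset_union_right _ _ h')⟩⟩
    (fun x y b => ⟨{x, y}, .rel _ _ ⟨by simp, by simp, b⟩⟩) (h g)
  exact Set.mem_iInter.1 hω F hF

theorem DSc_step {c : Ctx G} {X : Sys G} {ZS Zo : G → Set X.Ω} (mS : Meas X ZS) (mo : Meas X Zo)
    (sS : Supp X c.S ZS) (hc : ∀ᵐ ω ∂X.P, ∀ g, Con X c.a (fun g => ZS g ∪ Zo g) ω 1 g) {γ : G}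
    (hγ : γ ∈ c.S) {cs η : ℝ} (hη : 0 < η) (hds : ∀ θ : ℝ, 0 < θ → θ ≤ 1 → ∀ ε : ℝ, 0 < ε →
      ∃ (X : Sys G) (lam : X.Ω → ℤ) (Z₁ Z₂ : G → Set X.Ω), Measurable lam ∧ Meas X Z₁ ∧
        Meas X Z₂ ∧ Supp X c.S Z₂ ∧ (∀ g, X.P.real (Z₂ g) ≤ θ) ∧ dens X Z₁ ≤ ENNReal.ofReal ε ∧
        (∀ g ∈ c.S, X.P.real {ω | lam (X.mv ω g) ≠ lam ω} ≤ ε) ∧
        (∀ ω, lam (X.mv ω c.a) = lam ω) ∧
        cs ≤ X.P.real (YEv c X lam (fun g => Z₁ g ∪ Z₂ g) γ)) :
    ∃ (X' : Sys G) (ZS' Zo' : G → Set X'.Ω), Meas X' ZS' ∧ Meas X' Zo' ∧ Supp X' c.S ZS' ∧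
      (∀ ω g, Con X' c.a (fun g => ZS' g ∪ Zo' g) ω 1 g) ∧
      dens X' Zo' ≤ dens X Zo + ENNReal.ofReal η ∧
      ∑ g ∈ c.S, X'.P.real (ZS' g) ≤
        ∑ g ∈ c.S, X.P.real (ZS g) - cs * X.P.real (ZS γ) + c.S.card * (4 * η) := by
  classical
  obtain ⟨F, hF⟩ := ((eventually_all_finset c.S).2 fun g _ =>
    DSc_fin (fun g => (mS g).union (mo g)) hc g hη).exists
  choose! A mA pA cA using hF
  choose n hn using DSc_len c
  set N : ℝ := ∑ x ∈ F, (n x : ℝ)
  have N0 : 0 ≤ N := Finset.sum_nonneg fun _ _ => Nat.cast_nonneg _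
  obtain ⟨Y, lam, Z₁, Z₂, ml, m1, m2, s2, p2, d1, sl, -, hY⟩ :=
    hds (min η 1) (lt_min hη one_pos) (min_le_right _ _) (η / (N + 1)) (by positivity)
  obtain ⟨L, hL⟩ := (DSc_small Y.P (s := fun L : ℕ => {ω | lam ω ≤ -L})
    (fun L => measurableSet_le ml measurable_const)
    (fun L L' h ω (a : lam ω ≤ _) => a.trans (by simpa using h)) 0
    (measure_mono_null (fun ω hω => by
      have := Set.mem_iInter.1 hω ((-lam ω).toNat + 1)
      simp only [Set.mem_ofPred_eq] at this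
      omega) measure_empty) hη).exists
  set E := YEv c Y lam (fun g => Z₁ g ∪ Z₂ g) γ
  have mE : MeasurableSet E := DSc_dep (DSc_lab ml γ) (Z := fun n g => Z₁ g ∪ Z₂ g ∪ Zlow c Y lam n g)
    (fun n g => ((m1 g).union (m2 g)).union ((MeasurableSet.const _).inter
      (measurableSet_lt (DSc_lab ml g) measurable_const))) 1 γ
  let X' := X.prod Y
  let lab : X'.Ω → G → ℤ := fun p g => max (lam p.2) (lam (Y.mv p.2 g))
  have mlab : ∀ g, Measurable fun p => lab p g := fun g => (DSc_lab ml g).comp measurable_snd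
  let ZL : ℤ → G → Set X'.Ω := fun n g => {p | p.1 ∈ Zo g ∨ (p.1 ∈ ZS g ∧ lab p g ≤ n)}
  let B : G → Set X'.Ω := fun g => {p | Con X' c.a (ZL (lab p g)) p 1 g}ᶜ ∪ {p | lab p g ≤ -L}
  let ZS' : G → Set X'.Ω := fun g => {p | g ∈ c.S} ∩
    (ZS g ×ˢ (if g = γ then Eᶜ else Set.univ) ∪ (B g ∪ Prod.snd ⁻¹' Z₂ g))
  let Zo' : G → Set X'.Ω := fun g => Prod.fst ⁻¹' Zo g ∪ Prod.snd ⁻¹' Z₁ g
  have pB : ∀ g ∈ c.S, X'.P.real (B g) ≤ 3 * η := fun g hg => by
    have b1 : B g ⊆ Prod.fst ⁻¹' A g ∪ (Prod.snd ⁻¹' (⋃ x ∈ F, {ω | lam (Y.mv ω x) ≠ lam ω}) ∪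
        Prod.snd ⁻¹' {ω | lam ω ≤ -L}) := by
      rintro p (hp | hp)
      · by_contra hn
        simp only [Set.mem_union, Set.mem_preimage, Set.mem_iUnion, Set.mem_ofPred_eq, not_or,
          not_exists, not_not] at hn
        refine hp (eqvGen_map id (con_equiv _ _ _ _) ?_ (cA g hg _ hn.1))
        rintro x y ⟨hx, hy, rfl | b | b⟩
        · exact con_a x
        · refine .rel _ _ (Or.inr (Or.inr ⟨b, ?_⟩))
          simp only [lab, X', Y.mv_mul, mul_inv_cancel_left, id, hn.2.1 x hx, hn.2.1 y hy]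
          simp
        · exact .rel _ _ (Or.inr (Or.inl b))
      · exact Or.inr (Or.inr (show lam p.2 ≤ _ from (le_max_left _ _).trans hp))
    have b2 : Y.P.real (⋃ x ∈ F, {ω | lam (Y.mv ω x) ≠ lam ω}) ≤ η := by
      refine (measureReal_biUnion_finset_le _ _).trans ((Finset.sum_le_sum fun x _ =>
        hn x Y lam _ sl).trans ?_)
      rw [← Finset.sum_mul, ← mul_div_assoc, div_le_iff₀ (by positivity)]
      nlinarith
    refine (measureReal_mono b1).trans ((measureReal_union_le _ _).trans ?_)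
    refine (add_le_add le_rfl (measureReal_union_le _ _)).trans ?_
    rw [(fac_fst X Y).real (mA g hg), (fac_snd X Y).real (measurableSet_le ml measurable_const),
      (fac_snd X Y).real (A := ⋃ x ∈ F, {ω | lam (Y.mv ω x) ≠ lam ω})
        (Finset.measurableSet_biUnion _ fun x _ =>
        (measurableSet_eq_fun (ml.comp (Y.meas_mv x)) ml).compl)]
    linarith [pA g hg]
  refine ⟨X', ZS', Zo', fun g => (MeasurableSet.const _).inter (((mS g).prod ?_).union
    (MeasurableSet.union ((DSc_dep (mlab g) (fun n g => ?_) 1 g).compl.union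
      (measurableSet_le (mlab g) measurable_const)) ((m2 g).preimage measurable_snd))),
    fun g => ((mo g).preimage measurable_fst).union ((m1 g).preimage measurable_snd),
    fun g hg => by simp [ZS', hg], fun p => DSc_all c fun x g hg => ?_, ?_, ?_⟩
  · split_ifs
    exacts [mE.compl, MeasurableSet.univ]
  · exact ((mo g).preimage measurable_fst).union (((mS g).preimage measurable_fst).inter
      (measurableSet_le (mlab g) measurable_const))
  · suffices H : ∀ (k : ℕ) (x g : G), g ∈ c.S → lab (X'.mv p x) g + L < k →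
        Con X' c.a (fun g => ZS' g ∪ Zo' g) p x (x * g) from
      H ((lab (X'.mv p x) g + L).toNat + 1) x g hg (by omega)
    intro k
    induction k with
    | zero => exact fun x g hg h => con_edge (Or.inl ⟨hg, Or.inr (Or.inl (Or.inr
        (show lab _ g ≤ _ by omega)))⟩)
    | succ k ih =>
      intro x g hg h
      by_cases hb : X'.mv p x ∈ B g
      · exact con_edge (Or.inl ⟨hg, Or.inr (Or.inl hb)⟩)
      have h1 := (con_mv x 1 g).1 (not_not.1 fun a => hb (Or.inl a))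
      rw [mul_one] at h1
      refine h1.ind (con_equiv _ _ _ _) con_a ?_
      rintro y g' (b | ⟨b, b'⟩)
      · exact con_edge (Or.inr (Or.inl b))
      have hg' : g' ∈ c.S := by
        by_contra a
        simp [sS g' a] at b
      by_cases e : g' = γ ∧ Y.mv p.2 y ∈ E
      · obtain ⟨rfl, e⟩ := e
        have h2 := (con_mv y 1 g').1 e
        rw [mul_one] at h2
        refine h2.ind (con_equiv _ _ _ _) con_a ?_
        rintro u g'' ((d | d) | ⟨d, d'⟩)
        · exact con_edge (Or.inr (Or.inr d))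
        · refine con_edge (Or.inl ⟨?_, Or.inr (Or.inr d)⟩)
          by_contra a
          simp [s2 g'' a] at d
        · refine ih u g'' d ?_
          change lab (X'.mv p u) g'' < lab (X'.mv p y) g' at d'
          omega
      · refine con_edge (Or.inl ⟨hg', Or.inl ⟨b, ?_⟩⟩)
        split_ifs with a
        exacts [fun a' => e ⟨a, a'⟩, trivial]
  · refine (ENNReal.tsum_le_tsum fun g => measure_union_le _ _).trans ?_
    rw [ENNReal.tsum_add]
    rw [tsum_congr fun g => (fac_fst X Y).mp.measure_preimage (mo g).nullMeasurableSet,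
      tsum_congr fun g => (fac_snd X Y).mp.measure_preimage (m1 g).nullMeasurableSet]
    exact add_le_add le_rfl (d1.trans (ENNReal.ofReal_le_ofReal
      (div_le_self hη.le (by linarith))))
  · have b : ∀ g ∈ c.S, X'.P.real (ZS' g) ≤
        X.P.real (ZS g) - (if g = γ then cs * X.P.real (ZS γ) else 0) + 4 * η := fun g hg => by
      refine (measureReal_mono Set.inter_subset_right).trans ((measureReal_union_le _ _).trans ?_)
      refine (add_le_add le_rfl (measureReal_union_le _ _)).trans ?_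
      rw [(fac_snd X Y).real (m2 g), measureReal_prod_prod]
      have b1 := (p2 g).trans (min_le_left _ _)
      have b2 := pB g hg
      split_ifs with a
      · subst a
        rw [probReal_compl_eq_one_sub mE]
        nlinarith [measureReal_nonneg (μ := X.P) (s := ZS g)]
      · rw [probReal_univ]
        linarith
    refine (Finset.sum_le_sum b).trans_eq ?_
    simp [Finset.sum_add_distrib, Finset.sum_sub_distrib, hγ]

theorem not_hyp_of_ds (c : Ctx G) (h : DS c) {δ : ℝ} (hδ : 0 < δ) : ¬ Hyp c δ := by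
  intro H
  obtain ⟨cs, hcs, h⟩ := h
  have hs : (0 : ℝ) < c.S.card := by exact_mod_cast c.ne.card_pos
  have low : ∀ (X : Sys G) (ZS Zo : G → Set X.Ω), Meas X ZS → Meas X Zo → Supp X c.S ZS →
      (∀ ω g, Con X c.a (fun g => ZS g ∪ Zo g) ω 1 g) → dens X Zo < ENNReal.ofReal (δ / 2) →
      δ / 2 ≤ ∑ g ∈ c.S, X.P.real (ZS g) := by
    intro X ZS Zo mS mo sS hc hd
    have h1 := (H X _ (fun g => (mS g).union (mo g)) (Eventually.of_forall hc)).trans
      ((ENNReal.tsum_le_tsum fun g => measure_union_le _ _).trans_eq ENNReal.tsum_add)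
    rw [tsum_eq_sum (s := c.S) fun g hg => by rw [sS g hg, measure_empty]] at h1
    by_contra hn
    refine h1.not_gt ((ENNReal.add_lt_add ?_ hd).trans_eq ?_ (b := ENNReal.ofReal (δ / 2) + _))
    · rw [ENNReal.lt_ofReal_iff_toReal_lt (ENNReal.sum_ne_top.2 fun _ _ => measure_ne_top _ _),
        ENNReal.toReal_sum fun _ _ => measure_ne_top _ _]
      exact not_le.1 hn
    · rw [← ENNReal.ofReal_add (by positivity) (by positivity), add_halves]
  have key : ∀ k : ℕ, ∃ (X : Sys G) (ZS Zo : G → Set X.Ω), Meas X ZS ∧ Meas X Zo ∧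
      Supp X c.S ZS ∧ (∀ ω g, Con X c.a (fun g => ZS g ∪ Zo g) ω 1 g) ∧
      dens X Zo < ENNReal.ofReal (δ / 2) ∧
      ∑ g ∈ c.S, X.P.real (ZS g) ≤ c.S.card - k * (cs * δ / (4 * c.S.card)) := by
    intro k
    induction k with
    | zero =>
      refine ⟨Sys.unif G, fun g => {_ω | g ∈ c.S}, fun _ => ∅, fun _ => MeasurableSet.const _,
        fun _ => MeasurableSet.empty, fun g hg => by simp [hg],
        fun ω => DSc_all c fun x g hg => con_edge (Or.inl hg), by simpa [dens] using hδ, ?_⟩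
      simpa using Finset.sum_le_card_nsmul c.S _ 1 fun g _ => measureReal_le_one
    | succ k ih =>
      obtain ⟨X, ZS, Zo, mS, mo, sS, hc, hd, hk⟩ := ih
      obtain ⟨γ, hγ, h1⟩ := Finset.exists_le_of_sum_le (f := fun _ => δ / (2 * c.S.card)) c.ne
        (le_of_eq_of_le (by rw [Finset.sum_const, nsmul_eq_mul]; field_simp)
          (low X ZS Zo mS mo sS hc hd))
      obtain ⟨η, h2, h3⟩ := ENNReal.lt_iff_exists_add_pos_lt.1 hd
      obtain ⟨X', ZS', Zo', a1, a2, a3, a4, a5, a6⟩ := DSc_step mS mo sS (Eventually.of_forall hc)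
        hγ (η := min η (cs * δ / (16 * c.S.card ^ 2))) (lt_min h2 (by positivity)) (h γ hγ)
      refine ⟨X', ZS', Zo', a1, a2, a3, a4, a5.trans_lt ((add_le_add le_rfl
        (ENNReal.ofReal_le_of_le_toReal (min_le_left _ _))).trans_lt h3), a6.trans ?_⟩
      have b1 : c.S.card * (4 * min (η : ℝ) (cs * δ / (16 * c.S.card ^ 2))) ≤
          cs * δ / (4 * c.S.card) := by
        refine (mul_le_mul_of_nonneg_left (mul_le_mul_of_nonneg_left (min_le_right _ _)
          (by norm_num)) hs.le).trans_eq ?_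
        field_simp
        norm_num
      have b2 : 2 * (cs * δ / (4 * c.S.card)) ≤ cs * X.P.real (ZS γ) :=
        le_of_eq_of_le (by field_simp; norm_num) (mul_le_mul_of_nonneg_left h1 hcs.le)
      push_cast
      linarith
  obtain ⟨k, hk⟩ := exists_nat_gt (c.S.card / (cs * δ / (4 * c.S.card)))
  obtain ⟨X, ZS, Zo, mS, mo, sS, hc, hd, h1⟩ := key k
  rw [div_lt_iff₀ (by positivity)] at hk
  linarith [low X ZS Zo mS mo sS hc hd]

end Pool.Agent.Work.MP_01d39a_al.Ct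
end

-- merged part: Pool.Agent.Work.MP_01d39a_al.Ct.Red
section
/-!
Section 0, reduction: a connected family of small density gives a free action with a cheap graphing.
-/

open MeasureTheory ProbabilityTheory Filter Topology
open scoped BigOperators ENNReal NNReal

namespace Pool.Agent.Work.MP_01d39a_al.Ct

variable {G : Type} [Group G]

omit [Group G] in
theorem Red_inj [Countable G] :
    ∀ᵐ f ∂(Measure.infinitePi fun _ : G => unifM), Function.Injective f := by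
  have : NullSingletonClass unifM := by unfold unifM; infer_instance
  simp only [Function.Injective, ae_all_iff]
  intro x y
  by_cases h : x = y
  · exact Eventually.of_forall fun _ _ => h
  have h1 := Measure.infinitePi_map_eval_prod (P := fun _ : G => unifM) h
  have h2 : (unifM.prod unifM) (Set.diagonal ℝ) = 0 := by
    rw [Measure.prod_apply measurableSet_diagonal]
    refine lintegral_eq_zero_of_ae_eq_zero (Eventually.of_forall fun t => ?_)
    exact measure_mono_null (t := {t}) (fun s hs => (hs : t = s).symm) (measure_singleton t)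
  rw [← h1, Measure.map_apply (by fun_prop) measurableSet_diagonal] at h2
  exact measure_mono_null (fun f hf => (Classical.not_imp.1 hf).1) h2

/-- A model on a standard Borel space with a labelling that separates the points of an orbit. -/
theorem Red_model [Countable G] (a : G) (X : Sys G) (Z : G → Set X.Ω) (hZ : Meas X Z)
    (hc : ∀ᵐ ω ∂X.P, ∀ g, Con X a Z ω 1 g) :
    ∃ (Y : Sys G) (_ : StandardBorelSpace Y.Ω) (Z' : G → Set Y.Ω) (ℓ : Y.Ω → ℝ), Meas Y Z' ∧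
      Measurable ℓ ∧ dens Y Z' = dens X Z ∧
      ∀ᵐ ω ∂Y.P, (∀ g, Con Y a Z' ω 1 g) ∧ Function.Injective fun g => ℓ (Y.mv ω g) := by
  classical
  let X' := X.prod (Sys.fld G G ℝ _ (iid_mp G ℝ unifM))
  let Φ : X'.Ω → G → (G → Bool) × ℝ := fun p x => (fun g => decide (X.mv p.1 x ∈ Z g), p.2 x)
  have mΦ : Measurable Φ := by
    refine measurable_pi_lambda _ fun x => Measurable.prodMk (measurable_pi_lambda _ fun g => ?_)
      ((measurable_pi_apply x).comp measurable_snd)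
    refine measurable_to_bool ?_
    convert (hZ g).preimage ((X.meas_mv x).comp measurable_fst) using 1
    ext p
    simp
  have eΦ : ∀ p x, Φ (X'.mv p x) = fun v => Φ p (x • v) := fun p x => funext fun v => by
    simp only [Φ, X', X.mv_mul, smul_eq_mul]
  have : IsProbabilityMeasure (X'.P.map Φ) := Measure.isProbabilityMeasure_map mΦ.aemeasurable
  let Y := Sys.fld G G ((G → Bool) × ℝ) (X'.P.map Φ) fun x => ⟨by fun_prop, by
    rw [Measure.map_map (by fun_prop) mΦ]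
    conv_rhs => rw [← (X'.mp x).map_eq, Measure.map_map mΦ (X'.meas_mv x)]
    exact congrArg (Measure.map · _) (funext fun p => (eΦ p x).symm)⟩
  let Z' : G → Set Y.Ω := fun g => {f | (f 1).1 g = true}
  have mZ : Meas Y Z' := fun g => measurableSet_eq_fun (by fun_prop) measurable_const
  have e : ∀ g, Φ ⁻¹' Z' g = Prod.fst ⁻¹' Z g := fun g => by
    ext p
    change decide (X.mv p.1 1 ∈ Z g) = true ↔ p.1 ∈ Z g
    rw [X.mv_one, decide_eq_true_iff]
  refine ⟨Y, inferInstance, Z', fun f => (f 1).2, mZ, by fun_prop, tsum_congr fun g => ?_, ?_⟩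
  · change X'.P.map Φ _ = _
    rw [Measure.map_apply mΦ (mZ g), e]
    exact (fac_fst X _).mp.measure_preimage (hZ g).nullMeasurableSet
  · refine (ae_map_iff mΦ.aemeasurable ?_).2 ?_
    · simp only [Function.Injective]
      have := fun g => measurableSet_con (a := a) mZ 1 g
      measurability
    · filter_upwards [(fac_fst X _).mp.quasiMeasurePreserving.ae hc,
        (fac_snd X _).mp.quasiMeasurePreserving.ae Red_inj] with p h1 h2
      refine ⟨fun g => (con_pull (Y := X') (X := Y) eΦ p 1 g).1 ?_, ?_⟩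
      · simp only [e]
        exact (con_pull (fac_fst X _).eqv p 1 g).2 (h1 g)
      · intro x y e
        exact h2 (a₁ := x) (a₂ := y) (by simpa [Y, Φ] using e)

theorem exists_action [Countable G] (c : Ctx G) {δ : ℝ} (h : ¬ Hyp c δ) :
    ∃ (X : Type) (_ : MeasurableSpace X) (_ : StandardBorelSpace X) (_ : MulAction G X)
      (μ : Measure X) (_ : IsProbabilityMeasure μ),
      (∀ g : G, MeasurePreserving (fun x : X => g • x) μ μ) ∧
      (∀ (g : G) (x : X), g • x = x → g = 1) ∧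
      ∃ Γ : SimpleGraph X, MeasurableSet {p : X × X | Γ.Adj p.1 p.2} ∧
        (∀ x y, Γ.Reachable x y ↔ y ∈ MulAction.orbit G x) ∧
        (∫⁻ x, ((Γ.neighborSet x).encard : ℝ≥0∞) ∂μ) / 2 ≤ 1 + ENNReal.ofReal δ := by
  simp only [Hyp, not_forall, not_le] at h
  obtain ⟨X, Z, hZ, hc, hd⟩ := h
  obtain ⟨Y, _, Z, ℓ, hZ, hℓ, hd', hc⟩ := Red_model c.a X Z hZ hc
  replace hd := (hd'.trans_lt hd).le
  set T : Set Y.Ω := {ω | (∀ g, Con Y c.a Z ω 1 g) ∧ Function.Injective fun g => ℓ (Y.mv ω g)}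
  have mT : MeasurableSet T := by
    simp only [T, Function.Injective]
    have : ∀ g, Measurable fun ω => ℓ (Y.mv ω g) := fun g => hℓ.comp (Y.meas_mv g)
    exact measurableSet_setOfPred.2 ((Measurable.forall fun g =>
      measurableSet_setOfPred.1 (measurableSet_con hZ 1 g)).and (Measurable.forall fun x =>
        Measurable.forall fun y => ((this x).eq (this y)).imp measurable_const))
  have iT : ∀ ω ∈ T, ∀ x, Y.mv ω x ∈ T := fun ω hω x =>
    ⟨fun g => (con_mv x 1 g).2 ((hω.1 _).symm.trans (hω.1 _)), fun y y' e => by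
      simp only [Y.mv_mul] at e
      exact mul_left_cancel (hω.2 e)⟩
  let act : MulAction G T :=
    { smul := fun g ω => ⟨Y.mv ω.1 g⁻¹, iT _ ω.2 _⟩
      one_smul := fun ω => Subtype.ext (by
        change Y.mv ω.1 1⁻¹ = _
        rw [inv_one, Y.mv_one])
      mul_smul := fun g g' ω => Subtype.ext (by
        change Y.mv ω.1 (g * g')⁻¹ = Y.mv (Y.mv ω.1 g'⁻¹) g⁻¹
        rw [mul_inv_rev, Y.mv_mul]) }
  have sm : ∀ (g : G) (ω : T), ((g • ω : T) : Y.Ω) = Y.mv ω.1 g⁻¹ := fun _ _ => rfl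
  have sb : StandardBorelSpace T := mT.standardBorel
  have em := MeasurableEmbedding.subtype_coe mT
  have mp : MeasurePreserving (Subtype.val : T → Y.Ω) (Y.P.comap Subtype.val) Y.P :=
    ⟨measurable_subtype_coe, by
      rw [map_comap_subtype_coe mT]
      exact Measure.restrict_eq_self_of_ae_mem hc⟩
  have ms : ∀ g : G, Measurable fun ω : T => g • ω := fun g =>
    ((Y.meas_mv g⁻¹).comp measurable_subtype_coe).subtype_mk
  let r : T → T → Prop := fun ω ω' => ∃ g : G, ω' = g⁻¹ • ω ∧ (g = c.a ∨ ω.1 ∈ Z g)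
  refine ⟨T, inferInstance, sb, act, Y.P.comap Subtype.val,
    em.isProbabilityMeasure_comap (hc.mono fun ω hω => ⟨⟨ω, hω⟩, rfl⟩), fun g => ⟨ms g, ?_⟩, fun g ω e => ?_,
    SimpleGraph.fromRel r, ?_, fun ω ω' => ⟨?_, ?_⟩, ?_⟩
  · apply em.map_injective
    rw [Measure.map_map measurable_subtype_coe (ms g), mp.map_eq]
    exact ((Y.mp g⁻¹).comp mp).map_eq
  · have := ω.2.2 (a₁ := g⁻¹) (a₂ := 1) (by
      simp only [Y.mv_one, ← sm, e])
    exact inv_eq_one.1 this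
  · have : MeasurableSet {p : T × T | r p.1 p.2} := by
      simp only [r, Set.ofPred_exists]
      refine MeasurableSet.iUnion fun g => MeasurableSet.inter
        (measurableSet_eq_fun measurable_snd ((ms _).comp measurable_fst)) ?_
      exact (MeasurableSet.const _).union
        ((hZ g).preimage (measurable_subtype_coe.comp measurable_fst))
    exact measurableSet_diagonal.compl.inter (this.union (this.preimage measurable_swap))
  · rintro ⟨p⟩
    induction p with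
    | nil => exact MulAction.mem_orbit_self _
    | cons e _ ih =>
      obtain ⟨g, rfl⟩ := ih
      rcases e.2 with ⟨g', rfl, -⟩ | ⟨g', rfl, -⟩
      · exact ⟨g * g'⁻¹, mul_smul _ _ _⟩
      · exact ⟨g * g', by simp [mul_smul]⟩
  · rintro ⟨g, rfl⟩
    have key : ∀ x y : G, y⁻¹ • ω = (x⁻¹ * y)⁻¹ • x⁻¹ • ω := fun x y => by simp [← mul_smul]
    have k2 : ∀ u v, r u v → (SimpleGraph.fromRel r).Reachable u v := fun u v h => by
      by_cases e : u = v
      · exact e ▸ SimpleGraph.Reachable.refl _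
      · exact SimpleGraph.Adj.reachable ⟨e, Or.inl h⟩
    have := Con.ind (s := fun x y => (SimpleGraph.fromRel r).Reachable (x⁻¹ • ω) (y⁻¹ • ω))
      ⟨fun _ => SimpleGraph.Reachable.refl _, SimpleGraph.Reachable.symm,
        SimpleGraph.Reachable.trans⟩
      (fun x => k2 _ _ ⟨c.a, by simp [mul_smul], Or.inl rfl⟩)
      (fun x g hg => k2 _ _ ⟨g, by simp [mul_smul], Or.inr (by rwa [sm, inv_inv])⟩) (ω.2.1 g⁻¹)
    simpa using this
  · have b : ∀ ω : T, (((SimpleGraph.fromRel r).neighborSet ω).encard : ℝ≥0∞) ≤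
        2 + (∑' g, (Z g).indicator 1 ω.1 + ∑' g, (Z g).indicator 1 (Y.mv ω.1 g⁻¹)) := by
      intro ω
      have b1 : (SimpleGraph.fromRel r).neighborSet ω ⊆ {c.a⁻¹ • ω, c.a • ω} ∪
          ((fun g : G => g⁻¹ • ω) '' {g | ω.1 ∈ Z g} ∪
            (fun g : G => g • ω) '' {g | Y.mv ω.1 g⁻¹ ∈ Z g}) := by
        rintro ω' ⟨-, ⟨g, rfl, rfl | hg⟩ | ⟨g, rfl, rfl | hg⟩⟩
        · exact Or.inl (Or.inl rfl)
        · exact Or.inr (Or.inl ⟨g, hg, rfl⟩)
        · exact Or.inl (Or.inr (by simp))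
        · exact Or.inr (Or.inr ⟨g, by simpa [sm, Y.mv_mul, Y.mv_one] using hg, by simp⟩)
      have b2 : ∀ p : G → Prop, (({g | p g} : Set G).encard : ℝ≥0∞) =
          ∑' g, ({g | p g} : Set G).indicator 1 g := fun p => by
        rw [← tsum_subtype, ← ENNReal.tsum_set_one]
        rfl
      refine (ENat.toENNReal_le.2 ((Set.encard_le_encard b1).trans ((Set.encard_union_le _ _).trans
        (add_le_add ((Set.encard_insert_le _ _).trans_eq
          (by rw [Set.encard_singleton, one_add_one_eq_two])) ((Set.encard_union_le _ _).trans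
          (add_le_add (Set.encard_image_le _ _) (Set.encard_image_le _ _))))))).trans_eq ?_
      rw [ENat.toENNReal_add, ENat.toENNReal_add, b2, b2]
      rfl
    have m1 : ∀ g x, Measurable fun ω => (Z g).indicator (1 : Y.Ω → ℝ≥0∞) (Y.mv ω x) :=
      fun g x => (measurable_one.indicator (hZ g)).comp (Y.meas_mv x)
    have m0 : ∀ g, Measurable ((Z g).indicator (1 : Y.Ω → ℝ≥0∞)) :=
      fun g => measurable_one.indicator (hZ g)
    refine ENNReal.div_le_of_le_mul ((lintegral_mono b).trans ?_)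
    rw [mp.lintegral_comp (f := fun ω =>
      2 + (∑' g, (Z g).indicator 1 ω + ∑' g, (Z g).indicator 1 (Y.mv ω g⁻¹)))
      (measurable_const.add ((Measurable.tsum m0).add
        (Measurable.tsum fun g => m1 g _))),
      lintegral_add_left measurable_const, lintegral_add_left (Measurable.tsum m0),
      lintegral_tsum fun g => (m0 g).aemeasurable, lintegral_tsum fun g => (m1 g _).aemeasurable]
    simp only [fun g => (Y.mp g⁻¹).lintegral_comp (m0 g), lintegral_indicator_one (hZ _),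
      lintegral_const, measure_univ, mul_one]
    rw [add_mul, one_mul, mul_two]
    exact add_le_add le_rfl (add_le_add hd hd)

end Pool.Agent.Work.MP_01d39a_al.Ct
end

-- merged part: Pool.Agent.Work.MP_01d39a_al.Ct.Fin
section
/-!
The theorem in plain terms.
-/

open MeasureTheory
open scoped ENNReal

namespace Pool.Agent.Work.MP_01d39a_al.Ct

variable {G : Type} [Group G]

theorem countable_of_fg [Group.FG G] : Countable G := by
  obtain ⟨S, hS, hf⟩ := Group.fg_iff.1 ‹_›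
  have := hf.countable.to_subtype
  refine Function.Surjective.countable (f := FreeGroup.lift (Subtype.val : S → G)) ?_
  rw [← MonoidHom.range_eq_top, FreeGroup.range_lift_eq_closure, Subtype.range_coe, hS]

theorem exists_ctx [Group.FG G] {a : G} (ha : ¬ IsOfFinOrder a) : Nonempty (Ctx G) := by
  classical
  obtain ⟨S, hS, hf⟩ := Group.fg_iff.1 ‹_›
  lift S to Finset G using hf
  refine ⟨⟨a, insert 1 (S ∪ S.image (·⁻¹)), fun k hk => ?_, fun s hs => ?_, ?_, by simp⟩⟩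
  · by_contra h
    exact ha (isOfFinOrder_iff_zpow_eq_one.2 ⟨k, h, hk⟩)
  · simp only [Finset.mem_insert, Finset.mem_union, Finset.mem_image] at hs ⊢
    rcases hs with rfl | hs | ⟨t, ht, rfl⟩
    · exact Or.inl inv_one
    · exact Or.inr (Or.inr ⟨s, hs, rfl⟩)
    · exact Or.inr (Or.inl (by simpa using ht))
  · exact eq_top_iff.2 (hS.ge.trans (Subgroup.closure_mono fun x hx => by simp [hx]))

theorem main_plain [Group.FG G] {a : G} (ha : ¬ IsOfFinOrder a) (h : ¬ Par23 G) {δ : ℝ}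
    (hδ : 0 < δ) :
    ∃ (X : Type) (_ : MeasurableSpace X) (_ : StandardBorelSpace X) (_ : MulAction G X)
      (μ : Measure X) (_ : IsProbabilityMeasure μ),
      (∀ g : G, MeasurePreserving (fun x : X => g • x) μ μ) ∧
      (∀ (g : G) (x : X), g • x = x → g = 1) ∧
      ∃ Γ : SimpleGraph X, MeasurableSet {p : X × X | Γ.Adj p.1 p.2} ∧
        (∀ x y, Γ.Reachable x y ↔ y ∈ MulAction.orbit G x) ∧
        (∫⁻ x, ((Γ.neighborSet x).encard : ℝ≥0∞) ∂μ) / 2 ≤ 1 + ENNReal.ofReal δ := by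
  have : Countable G := countable_of_fg
  obtain ⟨c⟩ := exists_ctx ha
  exact exists_action c fun H => not_hyp_of_ds c (ds_of_hyp (hc_of_not_par h) hδ H) hδ H

end Pool.Agent.Work.MP_01d39a_al.Ct
end
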